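import Pool.Agent.Lib.MP_848d44_nt.SV.Bs2

/-!
# MP_848d44_nt, project SV, module Abel3: triple Abel summation

One variable: if `g (M + 1) = 0` then `∑_{k ≤ M} a k * g k = ∑_{k ≤ M} A k * (g k - g (k + 1))`,
`A k = ∑_{i ≤ k} a i`.  Apply it in `k`, `n` and `q`.
-/

set_option autoImplicit false

noncomputable section

namespace Pool.Agent.M848.SV

open Finset Pool.Agent.M848 Pool.Agent.M848.FC
open scoped ArithmeticFunction.vonMangoldt ComplexConjugate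

namespace Abel3

/-- Abel summation with a boundary term. -/
private theorem abel1_aux (a g : ℕ → ℂ) (M : ℕ) :
    ∑ k ∈ Icc 1 M, a k * g k =
      ∑ k ∈ Icc 1 M, (∑ i ∈ Icc 1 k, a i) * (g k - g (k + 1)) +
        (∑ i ∈ Icc 1 M, a i) * g (M + 1) := by
  induction M with
  | zero => simp
  | succ M ih =>
    rw [sum_Icc_succ_top (by omega), sum_Icc_succ_top (by omega), ih,
      sum_Icc_succ_top (f := fun i => a i) (by omega)]
    ring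

/-- Abel summation. -/
private theorem abel1 (a g : ℕ → ℂ) (M : ℕ) (h : g (M + 1) = 0) :
    ∑ k ∈ Icc 1 M, a k * g k =
      ∑ k ∈ Icc 1 M, (∑ i ∈ Icc 1 k, a i) * (g k - g (k + 1)) := by
  rw [abel1_aux, h, mul_zero, add_zero]

/-- Triple Abel summation as an identity. -/
private theorem triple (M : ℕ) (a b c : ℕ → ℂ) (G : ℕ → ℕ → ℕ → ℝ)
    (hG : ∀ k n q, 1 ≤ k → 1 ≤ n → 1 ≤ q → (M < k ∨ M < n ∨ M < q) → G k n q = 0) :
    ∑ k ∈ Icc 1 M, ∑ n ∈ Icc 1 M, ∑ q ∈ Icc 1 M, a k * b n * c q * ((G k n q : ℝ) : ℂ) =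
      ∑ k ∈ Icc 1 M, ∑ n ∈ Icc 1 M, ∑ q ∈ Icc 1 M,
        (∑ i ∈ Icc 1 k, a i) * (∑ i ∈ Icc 1 n, b i) * (∑ i ∈ Icc 1 q, c i) *
          ((D3 G k n q : ℝ) : ℂ) := by
  -- the sum over `q`
  have h1 : ∀ k n, 1 ≤ k → 1 ≤ n →
      ∑ q ∈ Icc 1 M, a k * b n * c q * ((G k n q : ℝ) : ℂ) =
        a k * (b n * ∑ q ∈ Icc 1 M, (∑ i ∈ Icc 1 q, c i) *
          (((G k n q - G k n (q + 1) : ℝ)) : ℂ)) := by
    intro k n hk hn
    have := abel1 c (fun q => ((G k n q : ℝ) : ℂ)) M (by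
      rw [hG k n (M + 1) hk hn (by omega) (by omega), Complex.ofReal_zero])
    simp only [← Complex.ofReal_sub] at this
    rw [← this, mul_sum, mul_sum]
    refine sum_congr rfl fun q _ => ?_
    ring
  -- the sum over `n`
  have h2 : ∀ k, 1 ≤ k →
      ∑ n ∈ Icc 1 M, ∑ q ∈ Icc 1 M, a k * b n * c q * ((G k n q : ℝ) : ℂ) =
        a k * ∑ n ∈ Icc 1 M, (∑ i ∈ Icc 1 n, b i) * ∑ q ∈ Icc 1 M, (∑ i ∈ Icc 1 q, c i) *
          ((((G k n q - G k n (q + 1)) - (G k (n + 1) q - G k (n + 1) (q + 1)) : ℝ)) : ℂ) := by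
    intro k hk
    rw [sum_congr rfl fun n hn => h1 k n hk (mem_Icc.1 hn).1, ← mul_sum]
    have := abel1 b (fun n => ∑ q ∈ Icc 1 M, (∑ i ∈ Icc 1 q, c i) *
          (((G k n q - G k n (q + 1) : ℝ)) : ℂ)) M (by
      refine sum_eq_zero fun q hq => ?_
      have hq1 := (mem_Icc.1 hq).1
      rw [hG k (M + 1) q hk (by omega) hq1 (by omega),
        hG k (M + 1) (q + 1) hk (by omega) (by omega) (by omega), sub_zero,
        Complex.ofReal_zero, mul_zero])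
    rw [this]
    congr 1
    refine sum_congr rfl fun n _ => ?_
    rw [← sum_sub_distrib]
    congr 1
    refine sum_congr rfl fun q _ => ?_
    rw [← mul_sub, ← Complex.ofReal_sub]
  rw [sum_congr rfl fun k hk => h2 k (mem_Icc.1 hk).1]
  have := abel1 a (fun k => ∑ n ∈ Icc 1 M, (∑ i ∈ Icc 1 n, b i) *
      ∑ q ∈ Icc 1 M, (∑ i ∈ Icc 1 q, c i) *
          ((((G k n q - G k n (q + 1)) - (G k (n + 1) q - G k (n + 1) (q + 1)) : ℝ)) : ℂ)) M (by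
    refine sum_eq_zero fun n hn => ?_
    have hn1 := (mem_Icc.1 hn).1
    have : ∑ q ∈ Icc 1 M, (∑ i ∈ Icc 1 q, c i) *
        ((((G (M + 1) n q - G (M + 1) n (q + 1)) -
          (G (M + 1) (n + 1) q - G (M + 1) (n + 1) (q + 1)) : ℝ)) : ℂ) = 0 := by
      refine sum_eq_zero fun q hq => ?_
      have hq1 := (mem_Icc.1 hq).1
      rw [hG (M + 1) n q (by omega) hn1 hq1 (by omega),
        hG (M + 1) n (q + 1) (by omega) hn1 (by omega) (by omega),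
        hG (M + 1) (n + 1) q (by omega) (by omega) hq1 (by omega),
        hG (M + 1) (n + 1) (q + 1) (by omega) (by omega) (by omega) (by omega), sub_zero, sub_zero,
        Complex.ofReal_zero, mul_zero]
    rw [this, mul_zero])
  rw [this]
  refine sum_congr rfl fun k _ => ?_
  rw [← sum_sub_distrib, mul_sum]
  refine sum_congr rfl fun n _ => ?_
  rw [← mul_sub, ← sum_sub_distrib, ← mul_assoc, mul_sum]
  refine sum_congr rfl fun q _ => ?_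
  rw [← mul_sub, ← Complex.ofReal_sub, ← mul_assoc]
  congr 2
  unfold D3
  ring

end Abel3

theorem abel3 {ι : Type} (I : Finset ι) (M : ℕ) (a b c : ι → ℕ → ℂ) (G : ℕ → ℕ → ℕ → ℝ)
    (hG : ∀ k n q, 1 ≤ k → 1 ≤ n → 1 ≤ q → (M < k ∨ M < n ∨ M < q) → G k n q = 0) (P : ℝ)
    (hP : ∀ k n q, 1 ≤ k → k ≤ M → 1 ≤ n → n ≤ M → 1 ≤ q → q ≤ M →
      ∑ x ∈ I, ‖∑ i ∈ Icc 1 k, a x i‖ * ‖∑ i ∈ Icc 1 n, b x i‖ * ‖∑ i ∈ Icc 1 q, c x i‖ ≤ P) :
    ∑ x ∈ I, ‖∑ k ∈ Icc 1 M, ∑ n ∈ Icc 1 M, ∑ q ∈ Icc 1 M,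
      a x k * b x n * c x q * ((G k n q : ℝ) : ℂ)‖ ≤
      P * ∑ k ∈ Icc 1 M, ∑ n ∈ Icc 1 M, ∑ q ∈ Icc 1 M, |D3 G k n q| := by
  classical
  have hb : ∀ x ∈ I, ‖∑ k ∈ Icc 1 M, ∑ n ∈ Icc 1 M, ∑ q ∈ Icc 1 M,
      a x k * b x n * c x q * ((G k n q : ℝ) : ℂ)‖ ≤
      ∑ k ∈ Icc 1 M, ∑ n ∈ Icc 1 M, ∑ q ∈ Icc 1 M,
        (‖∑ i ∈ Icc 1 k, a x i‖ * ‖∑ i ∈ Icc 1 n, b x i‖ * ‖∑ i ∈ Icc 1 q, c x i‖) *
          |D3 G k n q| := by
    intro x _
    rw [Abel3.triple M (a x) (b x) (c x) G hG]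
    refine (norm_sum_le _ _).trans (sum_le_sum fun k _ => ?_)
    refine (norm_sum_le _ _).trans (sum_le_sum fun n _ => ?_)
    refine (norm_sum_le _ _).trans (sum_le_sum fun q _ => ?_)
    rw [norm_mul, norm_mul, norm_mul, Complex.norm_real, Real.norm_eq_abs]
  refine (sum_le_sum hb).trans ?_
  rw [sum_comm, mul_sum]
  refine sum_le_sum fun k hk => ?_
  rw [sum_comm, mul_sum]
  refine sum_le_sum fun n hn => ?_
  rw [sum_comm, mul_sum]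
  refine sum_le_sum fun q hq => ?_
  rw [← sum_mul]
  exact mul_le_mul_of_nonneg_right
    (hP k n q (mem_Icc.1 hk).1 (mem_Icc.1 hk).2 (mem_Icc.1 hn).1 (mem_Icc.1 hn).2
      (mem_Icc.1 hq).1 (mem_Icc.1 hq).2) (abs_nonneg _)

end Pool.Agent.M848.SV
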