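import Pool.Agent.Lib.MP_848d44_nt.SV.Base

set_option autoImplicit false

/-!
# MP_848d44_nt, project SV, module Spl: spline weights

`spl A B h 0 = ind A B`, `spl A B h (j+1) = avg h (spl A B h j)`.  All statements are proved by
induction on `j`.
-/

noncomputable section

namespace Pool.Agent.M848.SV

open Finset Pool.Agent.M848 Pool.Agent.M848.FC
open scoped ArithmeticFunction.vonMangoldt ComplexConjugate

private lemma spl_succ (A B : ℤ) (h j : ℕ) (m : ℤ) :
    spl A B h (j + 1) m = (1 / (h : ℝ)) * ∑ i ∈ range h, spl A B h j (m - (i : ℤ)) := rfl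

private lemma spl_zero (A B : ℤ) (h : ℕ) (m : ℤ) :
    spl A B h 0 m = if A ≤ m ∧ m ≤ B then 1 else 0 := rfl

theorem spl_nonneg (A B : ℤ) (h j : ℕ) (m : ℤ) : 0 ≤ spl A B h j m := by
  induction j generalizing m with
  | zero => rw [spl_zero]; split_ifs <;> norm_num
  | succ j ih =>
    rw [spl_succ]
    exact mul_nonneg (by positivity) (Finset.sum_nonneg fun i _ => ih _)

theorem spl_le_one (A B : ℤ) (h j : ℕ) (m : ℤ) : spl A B h j m ≤ 1 := by
  induction j generalizing m with
  | zero => rw [spl_zero]; split_ifs <;> norm_num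
  | succ j ih =>
    rw [spl_succ]
    rcases Nat.eq_zero_or_pos h with h0 | h0
    · subst h0; simp
    · have hh : (0 : ℝ) < h := by exact_mod_cast h0
      have h1 : ∑ i ∈ range h, spl A B h j (m - (i : ℤ)) ≤ ∑ i ∈ range h, (1 : ℝ) :=
        Finset.sum_le_sum fun i _ => ih _
      have h2 : ∑ i ∈ range h, (1 : ℝ) = h := by simp
      rw [h2] at h1
      rw [one_div, inv_mul_le_iff₀ hh]
      linarith

theorem spl_supp (A B : ℤ) (h j : ℕ) (hh : 1 ≤ h) (m : ℤ) (hm : spl A B h j m ≠ 0) :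
    A ≤ m ∧ m ≤ B + j * ((h : ℤ) - 1) := by
  induction j generalizing m with
  | zero =>
    rw [spl_zero] at hm
    split_ifs at hm with h1
    · refine ⟨h1.1, ?_⟩
      have h2 := h1.2
      simpa using h2
    · exact absurd rfl hm
  | succ j ih =>
    rw [spl_succ] at hm
    have hs : ∑ i ∈ range h, spl A B h j (m - (i : ℤ)) ≠ 0 := fun h0 => hm (by rw [h0, mul_zero])
    obtain ⟨i, hi, hi0⟩ := Finset.exists_ne_zero_of_sum_ne_zero hs
    obtain ⟨h1, h2⟩ := ih _ hi0
    have hi' : i < h := Finset.mem_range.mp hi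
    have hi2 : (i : ℤ) + 1 ≤ h := by exact_mod_cast hi'
    refine ⟨by have : (0 : ℤ) ≤ i := Int.natCast_nonneg i; linarith, ?_⟩
    push_cast
    nlinarith

theorem spl_eq_one (A B : ℤ) (h j : ℕ) (hh : 1 ≤ h) (m : ℤ) (h1 : A + j * ((h : ℤ) - 1) ≤ m)
    (h2 : m ≤ B) : spl A B h j m = 1 := by
  induction j generalizing m with
  | zero =>
    rw [spl_zero, if_pos]
    exact ⟨by simpa using h1, h2⟩
  | succ j ih =>
    rw [spl_succ]
    have hs : ∀ i ∈ range h, spl A B h j (m - (i : ℤ)) = 1 := by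
      intro i hi
      have hi' : i < h := Finset.mem_range.mp hi
      have hi2 : (i : ℤ) + 1 ≤ h := by exact_mod_cast hi'
      have hi3 : (0 : ℤ) ≤ i := Int.natCast_nonneg i
      refine ih _ ?_ (by linarith)
      push_cast at h1
      nlinarith
    rw [Finset.sum_congr rfl hs]
    have hh' : (h : ℝ) ≠ 0 := by positivity
    simp [hh']

private lemma ite_sum_le (n : ℕ) (a : ℤ) (u : ℤ) :
    ∑ i ∈ range n, (if u + (i : ℤ) = a then (1 : ℝ) else 0) ≤ 1 := by
  rw [← Finset.sum_filter, Finset.sum_const, nsmul_eq_mul, mul_one]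
  have : ((range n).filter (fun i : ℕ => u + (i : ℤ) = a)).card ≤ 1 := by
    rw [Finset.card_le_one]
    intro x hx y hy
    have hx2 := (Finset.mem_filter.mp hx).2
    have hy2 := (Finset.mem_filter.mp hy).2
    have : (x : ℤ) = y := by linarith
    exact_mod_cast this
  exact_mod_cast this

private lemma ind_step (A B m : ℤ) :
    |ind A B (m + 1) - ind A B m| ≤
      (if m = A - 1 then (1 : ℝ) else 0) + (if m = B then (1 : ℝ) else 0) := by
  unfold ind
  split_ifs with h1 h2 h3 h4 h3 h4 h3 h4 h2 h3 h4 h3 h4 h3 <;>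
    first
      | (norm_num; done)
      | (exfalso; omega)

theorem spl_tv (A B : ℤ) (h j : ℕ) (hh : 1 ≤ h) : TV2 (spl A B h j) := by
  induction j with
  | zero =>
    intro u n
    calc ∑ i ∈ range n, |spl A B h 0 (u + i + 1) - spl A B h 0 (u + i)|
        ≤ ∑ i ∈ range n, ((if u + (i : ℤ) = A - 1 then (1 : ℝ) else 0)
            + (if u + (i : ℤ) = B then (1 : ℝ) else 0)) :=
          Finset.sum_le_sum fun i _ => ind_step A B (u + i)
      _ ≤ 1 + 1 := by
          rw [Finset.sum_add_distrib]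
          exact add_le_add (ite_sum_le n _ u) (ite_sum_le n _ u)
      _ = 2 := by norm_num
  | succ j ih =>
    intro u n
    have hh' : (0 : ℝ) < h := by exact_mod_cast hh
    have key : ∀ i ∈ range n, |spl A B h (j + 1) (u + i + 1) - spl A B h (j + 1) (u + i)| ≤
        (1 / (h : ℝ)) * ∑ l ∈ range h,
          |spl A B h j ((u - l) + i + 1) - spl A B h j ((u - l) + i)| := by
      intro i _
      rw [spl_succ, spl_succ, ← mul_sub, ← Finset.sum_sub_distrib, abs_mul,
        abs_of_pos (by positivity : (0 : ℝ) < 1 / (h : ℝ))]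
      refine mul_le_mul_of_nonneg_left ?_ (by positivity)
      refine (Finset.abs_sum_le_sum_abs _ _).trans (le_of_eq ?_)
      refine Finset.sum_congr rfl fun l _ => ?_
      have e1 : u + (i : ℤ) + 1 - (l : ℤ) = (u - l) + i + 1 := by ring
      have e2 : u + (i : ℤ) - (l : ℤ) = (u - l) + i := by ring
      rw [e1, e2]
    calc ∑ i ∈ range n, |spl A B h (j + 1) (u + i + 1) - spl A B h (j + 1) (u + i)|
        ≤ ∑ i ∈ range n, (1 / (h : ℝ)) * ∑ l ∈ range h,
          |spl A B h j ((u - l) + i + 1) - spl A B h j ((u - l) + i)| :=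
          Finset.sum_le_sum key
      _ = (1 / (h : ℝ)) * ∑ l ∈ range h, ∑ i ∈ range n,
          |spl A B h j ((u - l) + i + 1) - spl A B h j ((u - l) + i)| := by
          rw [← Finset.mul_sum, Finset.sum_comm]
      _ ≤ (1 / (h : ℝ)) * ∑ l ∈ range h, (2 : ℝ) := by
          refine mul_le_mul_of_nonneg_left ?_ (by positivity)
          exact Finset.sum_le_sum fun l _ => ih (u - l) n
      _ = 2 := by
          rw [Finset.sum_const, Finset.card_range, nsmul_eq_mul]
          field_simp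

theorem spl_diff (A B : ℤ) (h j : ℕ) (hh : 1 ≤ h) (m : ℤ) :
    spl A B h (j + 1) m - spl A B h (j + 1) (m + 1) =
      (1 / (h : ℝ)) * (spl A B h j (m - h + 1) - spl A B h j (m + 1)) := by
  rw [spl_succ, spl_succ, ← mul_sub, ← Finset.sum_sub_distrib]
  congr 1
  have key : ∀ H : ℕ, ∑ i ∈ range H, (spl A B h j (m - (i : ℤ)) - spl A B h j (m + 1 - (i : ℤ))) =
      spl A B h j (m - H + 1) - spl A B h j (m + 1) := by
    intro H
    induction H with
    | zero =>
      simp
    | succ H ih =>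
      rw [Finset.sum_range_succ, ih]
      have e1 : m + 1 - (H : ℤ) = m - H + 1 := by ring
      have e2 : m - ((H + 1 : ℕ) : ℤ) + 1 = m - H := by push_cast; ring
      rw [e1, e2]
      ring
  exact key h

/-- The set of `k ∈ [1, K]` with `A ≤ c + β k ≤ B` is an interval. -/
private lemma interval (A B c β : ℤ) (K : ℕ) :
    ∃ u v : ℕ, v ≤ K ∧
      (Icc 1 K).filter (fun k : ℕ => A ≤ c + β * (k : ℤ) ∧ c + β * (k : ℤ) ≤ B) = Ioc u v := by
  classical
  set S := (Icc 1 K).filter (fun k : ℕ => A ≤ c + β * (k : ℤ) ∧ c + β * (k : ℤ) ≤ B) with hS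
  rcases S.eq_empty_or_nonempty with h0 | h0
  · exact ⟨0, 0, Nat.zero_le _, by rw [h0]; simp⟩
  · have hmin := S.min'_mem h0
    have hmax := S.max'_mem h0
    set a := S.min' h0 with ha
    set b := S.max' h0 with hb
    have ha' := Finset.mem_filter.mp hmin
    have hb' := Finset.mem_filter.mp hmax
    have ha1 := Finset.mem_Icc.mp ha'.1
    have hb1 := Finset.mem_Icc.mp hb'.1
    refine ⟨a - 1, b, hb1.2, ?_⟩
    ext k
    constructor
    · intro hk
      have h1 := S.min'_le k hk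
      have h2 := S.le_max' k hk
      rw [Finset.mem_Ioc]
      have hk1 := (Finset.mem_Icc.mp (Finset.mem_filter.mp hk).1).1
      omega
    · intro hk
      rw [Finset.mem_Ioc] at hk
      have hak : a ≤ k := by omega
      have hkb : k ≤ b := hk.2
      have hakZ : (a : ℤ) ≤ k := by exact_mod_cast hak
      have hkbZ : (k : ℤ) ≤ b := by exact_mod_cast hkb
      refine Finset.mem_filter.mpr ⟨Finset.mem_Icc.mpr ⟨by omega, by omega⟩, ?_⟩
      obtain ⟨p1, p2⟩ := ha'.2
      obtain ⟨q1, q2⟩ := hb'.2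
      rcases le_total 0 β with hβ | hβ
      · have e1 : β * (a : ℤ) ≤ β * k := mul_le_mul_of_nonneg_left hakZ hβ
        have e2 : β * (k : ℤ) ≤ β * b := mul_le_mul_of_nonneg_left hkbZ hβ
        constructor <;> linarith
      · have e1 : β * (k : ℤ) ≤ β * a := mul_le_mul_of_nonpos_left hakZ hβ
        have e2 : β * (b : ℤ) ≤ β * k := mul_le_mul_of_nonpos_left hkbZ hβ
        constructor <;> linarith

theorem spl_major {ι : Type} (I : Finset ι) (a : ι → ℕ → ℂ) (w : ι → ℝ) (K : ℕ) (P : ℝ)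
    (hw : ∀ x ∈ I, 0 ≤ w x)
    (hP : ∀ u v : ℕ, v ≤ K → ∑ x ∈ I, w x * ‖∑ k ∈ Ioc u v, a x k‖ ≤ P)
    (A B : ℤ) (h j : ℕ) (hh : 1 ≤ h) (c β : ℤ) :
    ∑ x ∈ I, w x * ‖∑ k ∈ Icc 1 K, a x k * ((spl A B h j (c + β * (k : ℤ)) : ℝ) : ℂ)‖ ≤ P := by
  have hh' : (0 : ℝ) < h := by exact_mod_cast hh
  induction j generalizing c with
  | zero =>
    obtain ⟨u, v, hv, huv⟩ := interval A B c β K
    refine le_trans (le_of_eq ?_) (hP u v hv)
    refine Finset.sum_congr rfl fun x _ => ?_
    congr 2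
    rw [← huv, Finset.sum_filter]
    refine Finset.sum_congr rfl fun k _ => ?_
    rw [spl_zero]
    split_ifs <;> simp
  | succ j ih =>
    have key : ∀ x, ∑ k ∈ Icc 1 K, a x k * ((spl A B h (j + 1) (c + β * (k : ℤ)) : ℝ) : ℂ) =
        ((1 / (h : ℝ) : ℝ) : ℂ) * ∑ i ∈ range h, ∑ k ∈ Icc 1 K,
          a x k * ((spl A B h j ((c - i) + β * (k : ℤ)) : ℝ) : ℂ) := by
      intro x
      rw [Finset.sum_comm, Finset.mul_sum]
      refine Finset.sum_congr rfl fun k _ => ?_
      rw [spl_succ, ← Finset.mul_sum]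
      push_cast
      have e : ∀ i : ℕ, c + β * (k : ℤ) - (i : ℤ) = (c - i) + β * k := fun i => by ring
      simp only [e]
      ring
    calc ∑ x ∈ I, w x * ‖∑ k ∈ Icc 1 K, a x k * ((spl A B h (j + 1) (c + β * (k : ℤ)) : ℝ) : ℂ)‖
        ≤ ∑ x ∈ I, w x * ((1 / (h : ℝ)) * ∑ i ∈ range h, ‖∑ k ∈ Icc 1 K,
          a x k * ((spl A B h j ((c - i) + β * (k : ℤ)) : ℝ) : ℂ)‖) := by
          refine Finset.sum_le_sum fun x hx => mul_le_mul_of_nonneg_left ?_ (hw x hx)
          rw [key x, norm_mul, Complex.norm_real, Real.norm_of_nonneg (by positivity)]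
          exact mul_le_mul_of_nonneg_left (norm_sum_le _ _) (by positivity)
      _ = (1 / (h : ℝ)) * ∑ i ∈ range h, ∑ x ∈ I, w x * ‖∑ k ∈ Icc 1 K,
          a x k * ((spl A B h j ((c - i) + β * (k : ℤ)) : ℝ) : ℂ)‖ := by
          rw [Finset.sum_comm, Finset.mul_sum]
          refine Finset.sum_congr rfl fun x _ => ?_
          rw [← Finset.mul_sum]
          ring
      _ ≤ (1 / (h : ℝ)) * ∑ i ∈ range h, P := by
          refine mul_le_mul_of_nonneg_left ?_ (by positivity)
          exact Finset.sum_le_sum fun i _ => ih (c - i)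
      _ = P := by
          rw [Finset.sum_const, Finset.card_range, nsmul_eq_mul]
          field_simp

end Pool.Agent.M848.SV
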