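import Pool.Agent.Lib.MP_848d44_nt.SV.Bs2
import Pool.Agent.Lib.MP_848d44_nt.SV.Spl

/-!
# MP_848d44_nt, project SV, module Wt3

THE WEIGHT SUM. `W = spl A B h (j + 3)`, `G k n q = GW W N σ s k n q`.  The third differences of `W`
are bounded by `4 / h ^ 3`, the second ones by `2 / h ^ 2`, the first ones by `1 / h`; the mixed
difference `D3` vanishes if `N ≤ s k q`, and the number of pairs `(k, q)` with `s k q < N` is at
most `(N / s) (1 + log N)`.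
-/

set_option autoImplicit false

noncomputable section

namespace Pool.Agent.M848.SV

open Finset Pool.Agent.M848 Pool.Agent.M848.FC
open scoped ArithmeticFunction.vonMangoldt ComplexConjugate

namespace Wt3Aux

lemma lem1 (U : ℤ → ℝ) (D : ℝ) (h : ∀ x, |U x - U (x + 1)| ≤ D) (c : ℕ) (x : ℤ) :
    |U x - U (x + c)| ≤ c * D := by
  induction c with
  | zero => simp
  | succ c ih =>
    have e : U x - U (x + ((c + 1 : ℕ) : ℤ)) =
        (U x - U (x + c)) + (U (x + c) - U (x + c + 1)) := by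
      push_cast
      rw [← add_assoc]
      ring
    rw [e]
    refine (abs_add_le _ _).trans ?_
    have := h (x + c)
    push_cast
    linarith

lemma lem2 (U : ℤ → ℝ) (D1 D2 : ℝ) (h1 : ∀ x, |U x - U (x + 1)| ≤ D1)
    (h2 : ∀ x, |(U x - U (x + 1)) - (U (x + 1) - U (x + 1 + 1))| ≤ D2) (a b c : ℕ) (x : ℤ) :
    |U x - U (x + a) - U (x + b) + U (x + a + b + c)| ≤ a * b * D2 + c * D1 := by
  have k1 : ∀ y, |(U y - U (y + 1)) - (U (y + a) - U (y + a + 1))| ≤ a * D2 := by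
    intro y
    exact lem1 (fun z => U z - U (z + 1)) D2 h2 a y
  have k2 : |(U x - U (x + a)) - (U (x + b) - U (x + b + a))| ≤ b * (a * D2) := by
    refine lem1 (fun z => U z - U (z + a)) (a * D2) ?_ b x
    intro y
    have h3 := k1 y
    have e : (U y - U (y + a)) - (U (y + 1) - U (y + 1 + a)) =
        (U y - U (y + 1)) - (U (y + a) - U (y + a + 1)) := by
      rw [add_right_comm y 1 (a : ℤ)]
      ring
    simpa only [e] using h3
  have k3 := lem1 U D1 h1 c (x + a + b)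
  have e : U x - U (x + a) - U (x + b) + U (x + a + b + c) =
      ((U x - U (x + a)) - (U (x + b) - U (x + b + a))) +
        -(U (x + a + b) - U (x + a + b + c)) := by
    rw [add_right_comm x (b : ℤ) (a : ℤ)]
    ring
  rw [e]
  refine (abs_add_le _ _).trans ?_
  rw [abs_neg]
  calc _ ≤ (b : ℝ) * (a * D2) + c * D1 := add_le_add k2 k3
    _ = a * b * D2 + c * D1 := by ring

lemma lem3 (f : ℤ → ℝ) (D1 D2 : ℝ) (h1 : ∀ x, |f x - f (x + 1)| ≤ D1)
    (h2 : ∀ x, |(f x - f (x + 1)) - (f (x + 1) - f (x + 1 + 1))| ≤ D2) (σ : ℤ)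
    (hσ : σ = 1 ∨ σ = -1) (a b c : ℕ) (y v : ℤ) :
    |f (y + σ * v) - f (y + σ * (v + a)) - f (y + σ * (v + b)) + f (y + σ * (v + a + b + c))| ≤
      a * b * D2 + c * D1 := by
  refine lem2 (fun u => f (y + σ * u)) D1 D2 ?_ ?_ a b c v
  · intro u
    rcases hσ with rfl | rfl
    · have h3 := h1 (y + 1 * u)
      have e : y + 1 * (u + 1) = y + 1 * u + 1 := by ring
      simpa only [e] using h3
    · have h3 := h1 (y + -1 * (u + 1))
      have e : y + -1 * (u + 1) + 1 = y + -1 * u := by ring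
      rw [e] at h3
      rw [abs_sub_comm]
      exact h3
  · intro u
    rcases hσ with rfl | rfl
    · have h3 := h2 (y + 1 * u)
      have e : y + 1 * (u + 1) = y + 1 * u + 1 := by ring
      have e' : y + 1 * (u + 1 + 1) = y + 1 * u + 1 + 1 := by ring
      simpa only [e, e'] using h3
    · have h3 := h2 (y + -1 * (u + 1 + 1))
      have e : y + -1 * (u + 1 + 1) + 1 = y + -1 * (u + 1) := by ring
      have e' : y + -1 * (u + 1) + 1 = y + -1 * u := by ring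
      rw [e, e'] at h3
      have e2 : (f (y + -1 * u) - f (y + -1 * (u + 1))) -
          (f (y + -1 * (u + 1)) - f (y + -1 * (u + 1 + 1))) =
          (f (y + -1 * (u + 1 + 1)) - f (y + -1 * (u + 1))) -
          (f (y + -1 * (u + 1)) - f (y + -1 * u)) := by ring
      simpa only [e2] using h3

lemma s1 (A B : ℤ) (h j : ℕ) (hh : 1 ≤ h) (m : ℤ) :
    |spl A B h (j + 1) m - spl A B h (j + 1) (m + 1)| ≤ 1 / (h : ℝ) := by
  have hh' : (0 : ℝ) < h := by exact_mod_cast hh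
  rw [spl_diff A B h j hh m, abs_mul, abs_of_pos (by positivity : (0 : ℝ) < 1 / (h : ℝ))]
  have a1 := spl_nonneg A B h j (m - h + 1)
  have a2 := spl_le_one A B h j (m - h + 1)
  have a3 := spl_nonneg A B h j (m + 1)
  have a4 := spl_le_one A B h j (m + 1)
  have a5 : |spl A B h j (m - h + 1) - spl A B h j (m + 1)| ≤ 1 :=
    abs_le.mpr ⟨by linarith, by linarith⟩
  calc _ ≤ 1 / (h : ℝ) * 1 := mul_le_mul_of_nonneg_left a5 (by positivity)
    _ = _ := mul_one _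

lemma s2 (A B : ℤ) (h j : ℕ) (hh : 1 ≤ h) (m : ℤ) :
    |(spl A B h (j + 2) m - spl A B h (j + 2) (m + 1)) -
      (spl A B h (j + 2) (m + 1) - spl A B h (j + 2) (m + 1 + 1))| ≤ 2 / (h : ℝ) ^ 2 := by
  have hh' : (0 : ℝ) < h := by exact_mod_cast hh
  have e1 := spl_diff A B h (j + 1) hh m
  have e2 := spl_diff A B h (j + 1) hh (m + 1)
  have e3 : m + 1 - (h : ℤ) + 1 = m - h + 1 + 1 := by ring
  rw [e3] at e2
  have b1 := s1 A B h j hh (m - h + 1)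
  have b2 := s1 A B h j hh (m + 1)
  have e : (spl A B h (j + 2) m - spl A B h (j + 2) (m + 1)) -
      (spl A B h (j + 2) (m + 1) - spl A B h (j + 2) (m + 1 + 1)) =
      1 / (h : ℝ) * ((spl A B h (j + 1) (m - h + 1) - spl A B h (j + 1) (m - h + 1 + 1)) -
        (spl A B h (j + 1) (m + 1) - spl A B h (j + 1) (m + 1 + 1))) := by
    have e1' : spl A B h (j + 2) m - spl A B h (j + 2) (m + 1) = _ := e1
    have e2' : spl A B h (j + 2) (m + 1) - spl A B h (j + 2) (m + 1 + 1) = _ := e2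
    rw [e1', e2']
    ring
  rw [e, abs_mul, abs_of_pos (by positivity : (0 : ℝ) < 1 / (h : ℝ))]
  calc _ ≤ 1 / (h : ℝ) * (1 / (h : ℝ) + 1 / (h : ℝ)) :=
        mul_le_mul_of_nonneg_left ((abs_sub _ _).trans (add_le_add b1 b2)) (by positivity)
    _ = 2 / (h : ℝ) ^ 2 := by
        field_simp
        ring

lemma s3 (A B : ℤ) (h j : ℕ) (hh : 1 ≤ h) (m : ℤ) :
    |((spl A B h (j + 3) m - spl A B h (j + 3) (m + 1)) -
      (spl A B h (j + 3) (m + 1) - spl A B h (j + 3) (m + 1 + 1))) -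
      ((spl A B h (j + 3) (m + 1) - spl A B h (j + 3) (m + 1 + 1)) -
      (spl A B h (j + 3) (m + 1 + 1) - spl A B h (j + 3) (m + 1 + 1 + 1)))| ≤
      4 / (h : ℝ) ^ 3 := by
  have hh' : (0 : ℝ) < h := by exact_mod_cast hh
  have e1 : spl A B h (j + 3) m - spl A B h (j + 3) (m + 1) = _ := spl_diff A B h (j + 2) hh m
  have e2 : spl A B h (j + 3) (m + 1) - spl A B h (j + 3) (m + 1 + 1) = _ :=
    spl_diff A B h (j + 2) hh (m + 1)
  have e3 : spl A B h (j + 3) (m + 1 + 1) - spl A B h (j + 3) (m + 1 + 1 + 1) = _ :=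
    spl_diff A B h (j + 2) hh (m + 1 + 1)
  have f2 : m + 1 - (h : ℤ) + 1 = m - h + 1 + 1 := by ring
  have f3 : m + 1 + 1 - (h : ℤ) + 1 = m - h + 1 + 1 + 1 := by ring
  rw [f2] at e2
  rw [f3] at e3
  have b1 := s2 A B h j hh (m - h + 1)
  have b2 := s2 A B h j hh (m + 1)
  have e : ((spl A B h (j + 3) m - spl A B h (j + 3) (m + 1)) -
      (spl A B h (j + 3) (m + 1) - spl A B h (j + 3) (m + 1 + 1))) -
      ((spl A B h (j + 3) (m + 1) - spl A B h (j + 3) (m + 1 + 1)) -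
      (spl A B h (j + 3) (m + 1 + 1) - spl A B h (j + 3) (m + 1 + 1 + 1))) =
      1 / (h : ℝ) * (((spl A B h (j + 2) (m - h + 1) - spl A B h (j + 2) (m - h + 1 + 1)) -
        (spl A B h (j + 2) (m - h + 1 + 1) - spl A B h (j + 2) (m - h + 1 + 1 + 1))) -
        ((spl A B h (j + 2) (m + 1) - spl A B h (j + 2) (m + 1 + 1)) -
        (spl A B h (j + 2) (m + 1 + 1) - spl A B h (j + 2) (m + 1 + 1 + 1)))) := by
    rw [e1, e2, e3]
    ring
  rw [e, abs_mul, abs_of_pos (by positivity : (0 : ℝ) < 1 / (h : ℝ))]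
  calc _ ≤ 1 / (h : ℝ) * (2 / (h : ℝ) ^ 2 + 2 / (h : ℝ) ^ 2) :=
        mul_le_mul_of_nonneg_left ((abs_sub _ _).trans (add_le_add b1 b2)) (by positivity)
    _ = 4 / (h : ℝ) ^ 3 := by
        field_simp
        ring

lemma gz (W : ℤ → ℝ) (N : ℕ) (hW : Wgt W N) (σ : ℤ) (hσ : σ = 1 ∨ σ = -1) (s k n q : ℕ)
    (h : N ≤ s * k * q) : GW W N σ s k n q = 0 := by
  unfold GW
  split_ifs with hn
  · by_contra h0
    obtain ⟨h1, h2⟩ := hW.supp _ h0
    have hZ : (N : ℤ) ≤ ((s * k * q : ℕ) : ℤ) := by exact_mod_cast h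
    have hnZ : (n : ℤ) ≤ N := by exact_mod_cast hn
    have hn0 : (0 : ℤ) ≤ n := Int.natCast_nonneg n
    rcases hσ with rfl | rfl
    · linarith
    · linarith
  · rfl

lemma d3z (W : ℤ → ℝ) (N : ℕ) (hW : Wgt W N) (σ : ℤ) (hσ : σ = 1 ∨ σ = -1) (s k n q : ℕ)
    (h : N ≤ s * k * q) : D3 (GW W N σ s) k n q = 0 := by
  have h1 : s * k * q ≤ s * (k + 1) * q :=
    Nat.mul_le_mul_right _ (Nat.mul_le_mul_left _ (Nat.le_succ _))
  have h2 : s * k * q ≤ s * k * (q + 1) := Nat.mul_le_mul_left _ (Nat.le_succ _)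
  have h3 : s * (k + 1) * q ≤ s * (k + 1) * (q + 1) := Nat.mul_le_mul_left _ (Nat.le_succ _)
  unfold D3
  rw [gz W N hW σ hσ s k n q h, gz W N hW σ hσ s (k + 1) n q (h.trans h1),
    gz W N hW σ hσ s k (n + 1) q h, gz W N hW σ hσ s (k + 1) (n + 1) q (h.trans h1),
    gz W N hW σ hσ s k n (q + 1) (h.trans h2),
    gz W N hW σ hσ s (k + 1) n (q + 1) (h.trans (h1.trans h3)),
    gz W N hW σ hσ s k (n + 1) (q + 1) (h.trans h2),
    gz W N hW σ hσ s (k + 1) (n + 1) (q + 1) (h.trans (h1.trans h3))]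
  norm_num

lemma c1 (s k q : ℕ) : ((s * (k + 1) * q : ℕ) : ℤ) = ((s * k * q : ℕ) : ℤ) + ((s * q : ℕ) : ℤ) := by
  push_cast
  ring

lemma c2 (s k q : ℕ) : ((s * k * (q + 1) : ℕ) : ℤ) = ((s * k * q : ℕ) : ℤ) + ((s * k : ℕ) : ℤ) := by
  push_cast
  ring

lemma c3 (s k q : ℕ) : ((s * (k + 1) * (q + 1) : ℕ) : ℤ) =
    ((s * k * q : ℕ) : ℤ) + ((s * q : ℕ) : ℤ) + ((s * k : ℕ) : ℤ) + (s : ℤ) := by
  push_cast
  ring

lemma d3a (A B : ℤ) (h j N : ℕ) (hh : 1 ≤ h) (σ : ℤ) (hσ : σ = 1 ∨ σ = -1) (s k n q : ℕ)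
    (hn : n + 1 ≤ N) : |D3 (GW (spl A B h (j + 3)) N σ s) k n q| ≤
      ((s * q : ℕ) : ℝ) * ((s * k : ℕ) : ℝ) * (4 / (h : ℝ) ^ 3) + (s : ℝ) * (2 / (h : ℝ) ^ 2) := by
  have hn' : n ≤ N := by omega
  have key := lem3 (fun x => spl A B h (j + 3) x - spl A B h (j + 3) (x + 1)) (2 / (h : ℝ) ^ 2)
    (4 / (h : ℝ) ^ 3) (fun x => s2 A B h (j + 1) hh x) (fun x => s3 A B h j hh x) σ hσ
    (s * q) (s * k) s (n : ℤ) ((s * k * q : ℕ) : ℤ)
  have e : ∀ v : ℤ, ((n + 1 : ℕ) : ℤ) + σ * v = (n : ℤ) + σ * v + 1 := by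
    intro v
    push_cast
    ring
  have e2 : D3 (GW (spl A B h (j + 3)) N σ s) k n q =
      (spl A B h (j + 3) ((n : ℤ) + σ * ((s * k * q : ℕ) : ℤ)) -
        spl A B h (j + 3) ((n : ℤ) + σ * ((s * k * q : ℕ) : ℤ) + 1)) -
      (spl A B h (j + 3) ((n : ℤ) + σ * (((s * k * q : ℕ) : ℤ) + ((s * q : ℕ) : ℤ))) -
        spl A B h (j + 3) ((n : ℤ) + σ * (((s * k * q : ℕ) : ℤ) + ((s * q : ℕ) : ℤ)) + 1)) -
      (spl A B h (j + 3) ((n : ℤ) + σ * (((s * k * q : ℕ) : ℤ) + ((s * k : ℕ) : ℤ))) -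
        spl A B h (j + 3) ((n : ℤ) + σ * (((s * k * q : ℕ) : ℤ) + ((s * k : ℕ) : ℤ)) + 1)) +
      (spl A B h (j + 3) ((n : ℤ) + σ * (((s * k * q : ℕ) : ℤ) + ((s * q : ℕ) : ℤ) +
          ((s * k : ℕ) : ℤ) + (s : ℤ))) -
        spl A B h (j + 3) ((n : ℤ) + σ * (((s * k * q : ℕ) : ℤ) + ((s * q : ℕ) : ℤ) +
          ((s * k : ℕ) : ℤ) + (s : ℤ)) + 1)) := by
    unfold D3 GW
    rw [if_pos hn', if_pos hn', if_pos hn, if_pos hn, if_pos hn', if_pos hn', if_pos hn,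
      if_pos hn, c1, c2, c3, e, e, e, e]
    ring
  rw [e2]
  exact key

lemma d3b (A B : ℤ) (h j N : ℕ) (hh : 1 ≤ h) (σ : ℤ) (hσ : σ = 1 ∨ σ = -1) (s k q : ℕ) :
    |D3 (GW (spl A B h (j + 3)) N σ s) k N q| ≤
      ((s * q : ℕ) : ℝ) * ((s * k : ℕ) : ℝ) * (2 / (h : ℝ) ^ 2) + (s : ℝ) * (1 / (h : ℝ)) := by
  have hn : ¬ (N + 1 ≤ N) := by omega
  have key := lem3 (fun x => spl A B h (j + 3) x) (1 / (h : ℝ))
    (2 / (h : ℝ) ^ 2) (fun x => s1 A B h (j + 2) hh x) (fun x => s2 A B h (j + 1) hh x) σ hσ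
    (s * q) (s * k) s (N : ℤ) ((s * k * q : ℕ) : ℤ)
  have e2 : D3 (GW (spl A B h (j + 3)) N σ s) k N q =
      spl A B h (j + 3) ((N : ℤ) + σ * ((s * k * q : ℕ) : ℤ)) -
      spl A B h (j + 3) ((N : ℤ) + σ * (((s * k * q : ℕ) : ℤ) + ((s * q : ℕ) : ℤ))) -
      spl A B h (j + 3) ((N : ℤ) + σ * (((s * k * q : ℕ) : ℤ) + ((s * k : ℕ) : ℤ))) +
      spl A B h (j + 3) ((N : ℤ) + σ * (((s * k * q : ℕ) : ℤ) + ((s * q : ℕ) : ℤ) +
          ((s * k : ℕ) : ℤ) + (s : ℤ))) := by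
    unfold D3 GW
    rw [if_pos le_rfl, if_pos le_rfl, if_neg hn, if_neg hn, if_pos le_rfl, if_pos le_rfl,
      if_neg hn, if_neg hn, c1, c2, c3]
    ring
  rw [e2]
  exact key

lemma cnt (N s k : ℕ) (hs : 1 ≤ s) (hk : 1 ≤ k) :
    (((Icc 1 N).filter (fun q => s * k * q < N)).card : ℝ) ≤ (N : ℝ) / s * (1 / (k : ℝ)) := by
  have hsk : 0 < s * k := Nat.mul_pos hs hk
  have h1 : (Icc 1 N).filter (fun q => s * k * q < N) ⊆ Icc 1 (N / (s * k)) := by
    intro q hq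
    obtain ⟨h2, h3⟩ := Finset.mem_filter.mp hq
    have h4 := (Finset.mem_Icc.mp h2).1
    refine Finset.mem_Icc.mpr ⟨h4, ?_⟩
    rw [Nat.le_div_iff_mul_le hsk]
    calc q * (s * k) = s * k * q := by ring
      _ ≤ N := h3.le
  have h2 := Finset.card_le_card h1
  rw [Nat.card_Icc, Nat.add_sub_cancel] at h2
  calc (((Icc 1 N).filter (fun q => s * k * q < N)).card : ℝ) ≤ ((N / (s * k) : ℕ) : ℝ) := by
        exact_mod_cast h2
    _ ≤ (N : ℝ) / ((s * k : ℕ) : ℝ) := Nat.cast_div_le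
    _ = (N : ℝ) / s * (1 / (k : ℝ)) := by
        push_cast
        have : (s : ℝ) ≠ 0 := by positivity
        have : (k : ℝ) ≠ 0 := by positivity
        field_simp

lemma har (N : ℕ) : ∑ k ∈ Icc 1 N, (1 / (k : ℝ)) ≤ 1 + Real.log N := by
  have h1 := harmonic_le_one_add_log N
  rw [harmonic_eq_sum_Icc] at h1
  push_cast at h1
  simpa [one_div] using h1

end Wt3Aux

open Wt3Aux in
theorem weight3 : ∃ C : ℝ, 0 < C ∧ ∀ (N s h j : ℕ) (A B : ℤ) (H : ℝ), 1 ≤ N → 1 ≤ s → 1 ≤ h →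
    1 ≤ H → (N : ℝ) ≤ H * h → Wgt (spl A B h (j + 3)) N → ∀ σ : ℤ, (σ = 1 ∨ σ = -1) →
      ∑ k ∈ Icc 1 N, ∑ n ∈ Icc 1 N, ∑ q ∈ Icc 1 N, |D3 (GW (spl A B h (j + 3)) N σ s) k n q| ≤
        C * H ^ 3 * (1 + Real.log N) := by
  refine ⟨9, by norm_num, ?_⟩
  intro N s h j A B H hN hs hh hH hNH hW σ hσ
  have hh' : (0 : ℝ) < h := by exact_mod_cast hh
  have hs' : (0 : ℝ) < s := by exact_mod_cast hs
  have hN' : (0 : ℝ) < N := by exact_mod_cast hN
  set E1 : ℝ := (s : ℝ) * N * (4 / (h : ℝ) ^ 3) + (s : ℝ) * (2 / (h : ℝ) ^ 2) with hE1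
  set E2 : ℝ := (s : ℝ) * N * (2 / (h : ℝ) ^ 2) + (s : ℝ) * (1 / (h : ℝ)) with hE2
  have hE1p : 0 ≤ E1 := by positivity
  have hE2p : 0 ≤ E2 := by positivity
  -- pointwise bound
  have pt : ∀ k ∈ Icc 1 N, ∀ n ∈ Icc 1 N, ∀ q ∈ Icc 1 N,
      |D3 (GW (spl A B h (j + 3)) N σ s) k n q| ≤
        if s * k * q < N then (E1 + if n = N then E2 else 0) else 0 := by
    intro k _ n hn q _
    split_ifs with h1 h2
    · subst h2
      have h3 := d3b A B h j n hh σ hσ s k q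
      have h4 : ((s * q : ℕ) : ℝ) * ((s * k : ℕ) : ℝ) ≤ (s : ℝ) * n := by
        have : ((s * k * q : ℕ) : ℝ) ≤ n := by exact_mod_cast h1.le
        calc ((s * q : ℕ) : ℝ) * ((s * k : ℕ) : ℝ) = (s : ℝ) * ((s * k * q : ℕ) : ℝ) := by
              push_cast
              ring
          _ ≤ (s : ℝ) * n := mul_le_mul_of_nonneg_left this hs'.le
      have h5 : ((s * q : ℕ) : ℝ) * ((s * k : ℕ) : ℝ) * (2 / (h : ℝ) ^ 2) ≤
          (s : ℝ) * n * (2 / (h : ℝ) ^ 2) := mul_le_mul_of_nonneg_right h4 (by positivity)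
      linarith
    · have hn1 : n + 1 ≤ N := by
        have := (Finset.mem_Icc.mp hn).2
        omega
      have h3 := d3a A B h j N hh σ hσ s k n q hn1
      have h4 : ((s * q : ℕ) : ℝ) * ((s * k : ℕ) : ℝ) ≤ (s : ℝ) * N := by
        have : ((s * k * q : ℕ) : ℝ) ≤ N := by exact_mod_cast h1.le
        calc ((s * q : ℕ) : ℝ) * ((s * k : ℕ) : ℝ) = (s : ℝ) * ((s * k * q : ℕ) : ℝ) := by
              push_cast
              ring
          _ ≤ (s : ℝ) * N := mul_le_mul_of_nonneg_left this hs'.le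
      have h5 : ((s * q : ℕ) : ℝ) * ((s * k : ℕ) : ℝ) * (4 / (h : ℝ) ^ 3) ≤
          (s : ℝ) * N * (4 / (h : ℝ) ^ 3) := mul_le_mul_of_nonneg_right h4 (by positivity)
      linarith
    · rw [d3z _ N hW σ hσ s k n q (not_lt.mp h1), abs_zero]
  -- sum over n
  have sn : ∑ n ∈ Icc 1 N, (E1 + if n = N then E2 else 0) = N * E1 + E2 := by
    rw [Finset.sum_add_distrib, Finset.sum_const, Nat.card_Icc, Nat.add_sub_cancel, nsmul_eq_mul,
      Finset.sum_ite_eq' (Icc 1 N) N (fun _ => E2), if_pos (Finset.mem_Icc.mpr ⟨hN, le_rfl⟩)]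
  have step : ∀ k ∈ Icc 1 N, ∑ n ∈ Icc 1 N, ∑ q ∈ Icc 1 N,
      |D3 (GW (spl A B h (j + 3)) N σ s) k n q| ≤
        (N : ℝ) / s * (1 / (k : ℝ)) * (N * E1 + E2) := by
    intro k hk
    have hk1 := (Finset.mem_Icc.mp hk).1
    calc ∑ n ∈ Icc 1 N, ∑ q ∈ Icc 1 N, |D3 (GW (spl A B h (j + 3)) N σ s) k n q|
        ≤ ∑ n ∈ Icc 1 N, ∑ q ∈ Icc 1 N,
          (if s * k * q < N then (E1 + if n = N then E2 else 0) else 0) :=
          Finset.sum_le_sum fun n hn => Finset.sum_le_sum fun q hq => pt k hk n hn q hq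
      _ = ∑ n ∈ Icc 1 N, (((Icc 1 N).filter (fun q => s * k * q < N)).card : ℝ) *
          (E1 + if n = N then E2 else 0) := by
          refine Finset.sum_congr rfl fun n _ => ?_
          rw [← Finset.sum_filter, Finset.sum_const, nsmul_eq_mul]
      _ = (((Icc 1 N).filter (fun q => s * k * q < N)).card : ℝ) * (N * E1 + E2) := by
          rw [← Finset.mul_sum, sn]
      _ ≤ (N : ℝ) / s * (1 / (k : ℝ)) * (N * E1 + E2) :=
          mul_le_mul_of_nonneg_right (cnt N s k hs hk1) (by positivity)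
  have tot : ∑ k ∈ Icc 1 N, ∑ n ∈ Icc 1 N, ∑ q ∈ Icc 1 N,
      |D3 (GW (spl A B h (j + 3)) N σ s) k n q| ≤
        (N : ℝ) / s * (1 + Real.log N) * (N * E1 + E2) := by
    calc _ ≤ ∑ k ∈ Icc 1 N, (N : ℝ) / s * (1 / (k : ℝ)) * (N * E1 + E2) :=
          Finset.sum_le_sum step
      _ = (N : ℝ) / s * (∑ k ∈ Icc 1 N, (1 / (k : ℝ))) * (N * E1 + E2) := by
          rw [← Finset.sum_mul, ← Finset.mul_sum]
      _ ≤ (N : ℝ) / s * (1 + Real.log N) * (N * E1 + E2) := by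
          refine mul_le_mul_of_nonneg_right ?_ (by positivity)
          exact mul_le_mul_of_nonneg_left (har N) (by positivity)
  have hlog : 0 ≤ 1 + Real.log N := by
    have : 0 ≤ Real.log N := Real.log_nonneg (by exact_mod_cast hN)
    linarith
  set x : ℝ := (N : ℝ) / h with hx
  have hx0 : 0 ≤ x := by positivity
  have hxH : x ≤ H := by
    rw [hx, div_le_iff₀ hh']
    exact hNH
  have e1 : (N : ℝ) / s * (1 + Real.log N) * (N * E1 + E2) =
      (4 * x ^ 3 + 4 * x ^ 2 + x) * (1 + Real.log N) := by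
    rw [hE1, hE2, hx]
    field_simp
    ring
  have e2 : 4 * x ^ 3 + 4 * x ^ 2 + x ≤ 9 * H ^ 3 := by
    have p1 : x ^ 3 ≤ H ^ 3 := pow_le_pow_left₀ hx0 hxH 3
    have p2 : x ^ 2 ≤ H ^ 2 := pow_le_pow_left₀ hx0 hxH 2
    have p3 : H ^ 2 ≤ H ^ 3 := pow_le_pow_right₀ hH (by norm_num)
    have p4 : H ≤ H ^ 3 := by
      calc H = H ^ 1 := (pow_one H).symm
        _ ≤ H ^ 3 := pow_le_pow_right₀ hH (by norm_num)
    linarith
  calc _ ≤ (N : ℝ) / s * (1 + Real.log N) * (N * E1 + E2) := tot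
    _ = (4 * x ^ 3 + 4 * x ^ 2 + x) * (1 + Real.log N) := e1
    _ ≤ 9 * H ^ 3 * (1 + Real.log N) := mul_le_mul_of_nonneg_right e2 hlog

end Pool.Agent.M848.SV
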