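import Pool.Agent.Lib.MP_848d44_nt.SV.Abel3
import Pool.Agent.Lib.MP_848d44_nt.SV.Wt3
import Pool.Agent.Lib.MP_848d44_nt.F.Lsp
import Pool.Agent.Lib.MP_848d44_nt.F.Pvr
import Pool.Agent.Lib.MP_848d44_nt.Div

/-!
# MP_848d44_nt, project SV, module Avg: the mean value over the moduli
-/

set_option autoImplicit false

noncomputable section

namespace Pool.Agent.M848.SV

open Finset Pool.Agent.M848 Pool.Agent.M848.FC
open scoped ArithmeticFunction.vonMangoldt ComplexConjugate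

namespace AvgAux

theorem w_zero {W : ℤ → ℝ} {N : ℕ} (hW : Wgt W N) {σ : ℤ} (hσ : σ = 1 ∨ σ = -1) {n t : ℕ}
    (hn : n ≤ N) (ht : N < t) : W ((n : ℤ) + σ * ((t : ℕ) : ℤ)) = 0 := by
  by_contra h
  obtain ⟨h1, h2⟩ := hW.supp _ h
  have hn' : (n : ℤ) ≤ N := by exact_mod_cast hn
  have ht' : (N : ℤ) < t := by exact_mod_cast ht
  have hn0 : (0 : ℤ) ≤ n := Int.natCast_nonneg n
  rcases hσ with rfl | rfl
  · linarith
  · linarith

theorem gw_zero {W : ℤ → ℝ} {N : ℕ} (hW : Wgt W N) {σ : ℤ} (hσ : σ = 1 ∨ σ = -1) {s : ℕ}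
    (hs : 1 ≤ s) (k n q : ℕ) (hk : 1 ≤ k) (hq : 1 ≤ q)
    (h : N < k ∨ N < n ∨ N < q ∨ N < k * q) : GW W N σ s k n q = 0 := by
  unfold GW
  by_cases hn : n ≤ N
  · rw [if_pos hn]
    refine w_zero hW hσ hn ?_
    have h1 : k ≤ s * k * q := by
      calc k = 1 * k * 1 := by ring
        _ ≤ s * k * q := Nat.mul_le_mul (Nat.mul_le_mul_right _ hs) hq
    have h2 : q ≤ s * k * q := by
      calc q = 1 * 1 * q := by ring
        _ ≤ s * k * q := Nat.mul_le_mul_right _ (Nat.mul_le_mul hs hk)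
    have h3 : k * q ≤ s * k * q := by
      calc k * q = 1 * k * q := by ring
        _ ≤ s * k * q := Nat.mul_le_mul_right _ (Nat.mul_le_mul_right _ hs)
    omega
  · rw [if_neg hn]

theorem phi_eq {W : ℤ → ℝ} {N : ℕ} (hW : Wgt W N) {σ : ℤ} (hσ : σ = 1 ∨ σ = -1) {s : ℕ}
    (hs : 1 ≤ s) {q : ℕ} (hq : 1 ≤ q) (χ : ℕ → ℂ) :
    Phi W N q σ s χ = ∑ k ∈ Icc 1 N, ∑ n ∈ Icc 1 N,
      (starRingEnd ℂ) (χ k) * (((Λ n : ℝ) : ℂ) * χ n) * ((GW W N σ s k n q : ℝ) : ℂ) := by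
  unfold Phi
  have h1 : Icc 1 (N / q) ⊆ Icc 1 N := by
    intro k hk
    rw [mem_Icc] at hk ⊢
    exact ⟨hk.1, hk.2.trans (Nat.div_le_self N q)⟩
  have h2 : ∀ k ∈ Icc 1 N, k ∉ Icc 1 (N / q) → ∑ n ∈ Icc 1 N,
      (starRingEnd ℂ) (χ k) * (((Λ n : ℝ) : ℂ) * χ n) * ((GW W N σ s k n q : ℝ) : ℂ) = 0 := by
    intro k hk hk2
    rw [mem_Icc] at hk hk2
    have h3 : N < k * q := by
      by_contra h
      rw [not_lt] at h
      exact hk2 ⟨hk.1, (Nat.le_div_iff_mul_le hq).2 h⟩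
    refine sum_eq_zero fun n _ => ?_
    rw [gw_zero hW hσ hs k n q hk.1 hq (Or.inr (Or.inr (Or.inr h3))), Complex.ofReal_zero,
      mul_zero]
  rw [← sum_subset h1 h2]
  refine sum_congr rfl fun k _ => ?_
  rw [mul_sum]
  refine sum_congr rfl fun n hn => ?_
  unfold GW
  rw [if_pos (mem_Icc.1 hn).2]
  ring

theorem sum_eq {W : ℤ → ℝ} {N Q : ℕ} (hW : Wgt W N) {σ : ℤ} (hσ : σ = 1 ∨ σ = -1) {s : ℕ}
    (hs : 1 ≤ s) (E : Finset ℕ) (hE : ∀ q ∈ E, Q < q ∧ q ≤ 2 * Q ∧ q ≤ N) (ξ χ : ℕ → ℂ) :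
    ∑ q ∈ E, ξ q * (starRingEnd ℂ) (χ q) * Phi W N q σ s χ =
      ∑ k ∈ Icc 1 N, ∑ n ∈ Icc 1 N, ∑ q ∈ Icc 1 N,
        (starRingEnd ℂ) (χ k) * (((Λ n : ℝ) : ℂ) * χ n) *
          (if q ∈ E then ξ q * (starRingEnd ℂ) (χ q) else 0) * ((GW W N σ s k n q : ℝ) : ℂ) := by
  have hsub : E ⊆ Icc 1 N := by
    intro q hq
    rw [mem_Icc]
    have := hE q hq
    omega
  have e1 : ∑ q ∈ E, ξ q * (starRingEnd ℂ) (χ q) * Phi W N q σ s χ =
      ∑ q ∈ Icc 1 N, (if q ∈ E then ξ q * (starRingEnd ℂ) (χ q) else 0) *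
        ∑ k ∈ Icc 1 N, ∑ n ∈ Icc 1 N,
      (starRingEnd ℂ) (χ k) * (((Λ n : ℝ) : ℂ) * χ n) * ((GW W N σ s k n q : ℝ) : ℂ) := by
    rw [← sum_subset hsub (f := fun q => (if q ∈ E then ξ q * (starRingEnd ℂ) (χ q) else 0) *
        ∑ k ∈ Icc 1 N, ∑ n ∈ Icc 1 N,
      (starRingEnd ℂ) (χ k) * (((Λ n : ℝ) : ℂ) * χ n) * ((GW W N σ s k n q : ℝ) : ℂ))]
    · refine sum_congr rfl fun q hq => ?_
      have := hE q hq
      rw [if_pos hq, phi_eq hW hσ hs (by omega) χ]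
    · intro q _ hq
      rw [if_neg hq, zero_mul]
  rw [e1]
  have e2 : ∀ q ∈ Icc 1 N, (if q ∈ E then ξ q * (starRingEnd ℂ) (χ q) else 0) *
        ∑ k ∈ Icc 1 N, ∑ n ∈ Icc 1 N,
      (starRingEnd ℂ) (χ k) * (((Λ n : ℝ) : ℂ) * χ n) * ((GW W N σ s k n q : ℝ) : ℂ) =
      ∑ k ∈ Icc 1 N, ∑ n ∈ Icc 1 N, (starRingEnd ℂ) (χ k) * (((Λ n : ℝ) : ℂ) * χ n) *
          (if q ∈ E then ξ q * (starRingEnd ℂ) (χ q) else 0) *
            ((GW W N σ s k n q : ℝ) : ℂ) := by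
    intro q _
    rw [mul_sum]
    refine sum_congr rfl fun k _ => ?_
    rw [mul_sum]
    refine sum_congr rfl fun n _ => ?_
    ring
  rw [sum_congr rfl e2, sum_comm]
  refine sum_congr rfl fun k _ => ?_
  rw [sum_comm]

theorem icc_ioc (n : ℕ) : Icc 1 n = Ioc 0 n := by
  ext r
  rw [mem_Icc, mem_Ioc]
  omega

/-- The first factor. -/
theorem first {D f : ℕ} (hD : 1 ≤ D) (hf : f ∈ Ioc D (2 * D)) {χ : ℕ → ℂ} (h : χ ∈ pc f)
    (k : ℕ) : ‖∑ i ∈ Icc 1 k, (starRingEnd ℂ) (χ i)‖ ≤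
      Real.sqrt (2 * D) * (1 + Real.log (2 * D)) := by
  rw [mem_Ioc] at hf
  rw [← map_sum, RCLike.norm_conj, icc_ioc]
  refine (pv_prim f (by omega) h k).trans ?_
  have hf0 : (0 : ℝ) < f := by
    have : 0 < f := by omega
    exact_mod_cast this
  have hf1 : (f : ℝ) ≤ 2 * D := by exact_mod_cast hf.2
  have hl : Real.log (f : ℝ) ≤ Real.log (2 * D) := Real.log_le_log hf0 hf1
  have hl0 : 0 ≤ Real.log (f : ℝ) := Real.log_natCast_nonneg _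
  gcongr

/-- The second factor. -/
theorem second {D N n : ℕ} (hD : 1 ≤ D) (hn : n ≤ N) :
    ∑ f ∈ Ioc D (2 * D), ∑ χ ∈ pc f, ‖∑ i ∈ Icc 1 n, ((Λ i : ℝ) : ℂ) * χ i‖ ^ 2 ≤
      (1 + Real.log (4 * (D : ℝ) ^ 2)) * (4 * (D : ℝ) ^ 2 + N) * (N * Real.log N ^ 2) := by
  have hD0 : (1 : ℝ) ≤ D := by exact_mod_cast hD
  have hl : 0 ≤ Real.log (4 * (D : ℝ) ^ 2) := Real.log_nonneg (by nlinarith)
  have hn' : (n : ℝ) ≤ N := by exact_mod_cast hn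
  have h := ls_prim D hD (fun i => ((Λ i : ℝ) : ℂ)) 0 n
  rw [zero_add, ← icc_ioc] at h
  refine h.trans ?_
  have h2 : ∑ v ∈ Icc 1 n, ‖(((Λ v : ℝ) : ℂ))‖ ^ 2 ≤ N * Real.log N ^ 2 := by
    calc ∑ v ∈ Icc 1 n, ‖(((Λ v : ℝ) : ℂ))‖ ^ 2 ≤ ∑ v ∈ Icc 1 n, Real.log N ^ 2 := by
          refine sum_le_sum fun v hv => ?_
          rw [mem_Icc] at hv
          rw [Complex.norm_real, Real.norm_eq_abs,
            abs_of_nonneg ArithmeticFunction.vonMangoldt_nonneg]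
          refine pow_le_pow_left₀ ArithmeticFunction.vonMangoldt_nonneg ?_ 2
          refine ArithmeticFunction.vonMangoldt_le_log.trans ?_
          refine Real.log_le_log ?_ ?_
          · exact_mod_cast hv.1
          · exact_mod_cast hv.2.trans hn
      _ = n * Real.log N ^ 2 := by
          rw [sum_const, Nat.card_Icc, nsmul_eq_mul]
          congr 2
      _ ≤ N * Real.log N ^ 2 := mul_le_mul_of_nonneg_right hn' (sq_nonneg _)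
  refine mul_le_mul ?_ h2 (sum_nonneg fun v _ => by positivity) ?_
  · refine mul_le_mul_of_nonneg_left ?_ (by linarith)
    linarith
  · have : (0 : ℝ) ≤ N := Nat.cast_nonneg N
    refine mul_nonneg (by linarith) (by positivity)

/-- The third factor. -/
theorem third {D N Q : ℕ} (hD : 1 ≤ D) (E : Finset ℕ)
    (hE : ∀ q ∈ E, Q < q ∧ q ≤ 2 * Q ∧ q ≤ N) (ξ : ℕ → ℂ) (hξ : ∀ q, ‖ξ q‖ ≤ 1) (q : ℕ) :
    ∑ f ∈ Ioc D (2 * D), ∑ χ ∈ pc f,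
      ‖∑ i ∈ Icc 1 q, (if i ∈ E then ξ i * (starRingEnd ℂ) (χ i) else 0)‖ ^ 2 ≤
      (1 + Real.log (4 * (D : ℝ) ^ 2)) * (4 * (D : ℝ) ^ 2 + Q) * E.card := by
  have hD0 : (1 : ℝ) ≤ D := by exact_mod_cast hD
  have hl : 0 ≤ Real.log (4 * (D : ℝ) ^ 2) := Real.log_nonneg (by nlinarith)
  have h := ls_prim D hD (fun i => if i ∈ E ∧ i ≤ q then (starRingEnd ℂ) (ξ i) else 0) Q Q
  have e : ∀ χ : ℕ → ℂ,
      ‖∑ i ∈ Icc 1 q, (if i ∈ E then ξ i * (starRingEnd ℂ) (χ i) else 0)‖ =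
      ‖∑ v ∈ Ioc Q (Q + Q), (if v ∈ E ∧ v ≤ q then (starRingEnd ℂ) (ξ v) else 0) * χ v‖ := by
    intro χ
    rw [← RCLike.norm_conj (∑ i ∈ Icc 1 q, (if i ∈ E then ξ i * (starRingEnd ℂ) (χ i) else 0))]
    congr 1
    rw [map_sum]
    have e1 : ∑ i ∈ Icc 1 q, (starRingEnd ℂ) (if i ∈ E then ξ i * (starRingEnd ℂ) (χ i) else 0) =
        ∑ i ∈ (Icc 1 q).filter (fun i => i ∈ E), (starRingEnd ℂ) (ξ i) * χ i := by
      rw [sum_filter]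
      refine sum_congr rfl fun i _ => ?_
      split_ifs
      · rw [map_mul, Complex.conj_conj]
      · exact map_zero _
    have e2 : ∑ v ∈ Ioc Q (Q + Q), (if v ∈ E ∧ v ≤ q then (starRingEnd ℂ) (ξ v) else 0) * χ v =
        ∑ i ∈ (Ioc Q (Q + Q)).filter (fun i => i ∈ E ∧ i ≤ q), (starRingEnd ℂ) (ξ i) * χ i := by
      rw [sum_filter]
      refine sum_congr rfl fun i _ => ?_
      split_ifs
      · rfl
      · exact zero_mul _
    rw [e1, e2]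
    refine sum_congr ?_ fun i _ => rfl
    ext i
    rw [mem_filter, mem_filter, mem_Icc, mem_Ioc]
    constructor
    · rintro ⟨h1, h2⟩
      have := hE i h2
      exact ⟨by omega, h2, h1.2⟩
    · rintro ⟨h1, h2, h3⟩
      exact ⟨by omega, h2⟩
  simp only [e]
  refine h.trans ?_
  have h2 : ∑ v ∈ Ioc Q (Q + Q), ‖(if v ∈ E ∧ v ≤ q then (starRingEnd ℂ) (ξ v) else 0)‖ ^ 2 ≤
      (E.card : ℝ) := by
    calc ∑ v ∈ Ioc Q (Q + Q), ‖(if v ∈ E ∧ v ≤ q then (starRingEnd ℂ) (ξ v) else 0)‖ ^ 2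
        ≤ ∑ v ∈ Ioc Q (Q + Q), (if v ∈ E then (1 : ℝ) else 0) := by
          refine sum_le_sum fun v _ => ?_
          by_cases hv : v ∈ E
          · rw [if_pos hv]
            split_ifs
            · rw [RCLike.norm_conj]
              exact pow_le_one₀ (norm_nonneg _) (hξ v)
            · rw [norm_zero]
              norm_num
          · rw [if_neg hv, if_neg (fun h' => hv h'.1), norm_zero]
            norm_num
      _ = (((Ioc Q (Q + Q)).filter (fun v => v ∈ E)).card : ℝ) := by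
          rw [card_filter]
          push_cast
          rfl
      _ ≤ (E.card : ℝ) := by
          have : (Ioc Q (Q + Q)).filter (fun v => v ∈ E) ⊆ E := fun v hv => (mem_filter.1 hv).2
          exact_mod_cast card_le_card this
  refine mul_le_mul_of_nonneg_left h2 ?_
  have : (0 : ℝ) ≤ Q := Nat.cast_nonneg Q
  exact mul_nonneg (by linarith) (by positivity)

end AvgAux

open AvgAux in
theorem avg_block (δ : ℝ) (hδ : 0 < δ) : ∃ C : ℝ, 0 < C ∧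
    ∀ (N Q D s h j : ℕ) (A B : ℤ) (H : ℝ), 1 ≤ N → 1 ≤ s → 1 ≤ h → 1 ≤ H → (N : ℝ) ≤ H * h →
    Wgt (spl A B h (j + 3)) N → 1 ≤ D → D ≤ N → 1 ≤ Q → Q ≤ N →
    ∀ E : Finset ℕ, (∀ q ∈ E, Q < q ∧ q ≤ 2 * Q ∧ q ≤ N) → ∀ ξ : ℕ → ℂ, (∀ q, ‖ξ q‖ ≤ 1) →
    ∀ σ : ℤ, (σ = 1 ∨ σ = -1) →
    ∑ f ∈ Ioc D (2 * D), ∑ χ ∈ pc f,
      ‖∑ q ∈ E, ξ q * (starRingEnd ℂ) (χ q) * Phi (spl A B h (j + 3)) N q σ s χ‖ ≤
      C * (N : ℝ) ^ δ * H ^ 3 * (Real.sqrt D * Real.sqrt (((D : ℝ) ^ 2 + N) * N) *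
        Real.sqrt (((D : ℝ) ^ 2 + Q) * E.card)) := by
  obtain ⟨C0, hC0, hw⟩ := weight3
  refine ⟨48 * C0 * (1 + 4 / δ) ^ 4, by positivity, ?_⟩
  intro N Q D s h j A B H hN hs hh hH hNH hW hD hDN hQ hQN E hE ξ hξ σ hσ
  set W := spl A B h (j + 3) with hWdef
  have hN0 : (1 : ℝ) ≤ N := by exact_mod_cast hN
  have hD0 : (1 : ℝ) ≤ D := by exact_mod_cast hD
  have hDN' : (D : ℝ) ≤ N := by exact_mod_cast hDN
  have hQ0 : (0 : ℝ) ≤ Q := Nat.cast_nonneg Q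
  have hlog : 0 ≤ Real.log N := Real.log_natCast_nonneg N
  set L : ℝ := 1 + Real.log N with hL
  have hL1 : 1 ≤ L := by linarith
  have hlogD : Real.log D ≤ Real.log N := Real.log_le_log (by linarith) hDN'
  have hlog2 : 1 + Real.log (2 * D) ≤ 2 * L := by
    rw [Real.log_mul (by norm_num) (by linarith)]
    have := Real.log_two_lt_d9
    linarith
  have hlog20 : 0 ≤ Real.log (2 * (D : ℝ)) := Real.log_nonneg (by linarith)
  have hlog4 : 1 + Real.log (4 * (D : ℝ) ^ 2) ≤ 3 * L := by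
    rw [Real.log_mul (by norm_num) (by positivity), Real.log_pow,
      show (4 : ℝ) = 2 ^ 2 by norm_num, Real.log_pow]
    have := Real.log_two_lt_d9
    push_cast
    linarith
  have hlog40 : 0 ≤ Real.log (4 * (D : ℝ) ^ 2) := Real.log_nonneg (by nlinarith)
  -- the index set
  set I : Finset (Σ _ : ℕ, (ℕ → ℂ)) := (Ioc D (2 * D)).sigma pc with hI
  set S2 : ℝ := Real.sqrt (((D : ℝ) ^ 2 + N) * N) with hS2
  set S3 : ℝ := Real.sqrt (((D : ℝ) ^ 2 + Q) * E.card) with hS3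
  have hS20 : 0 ≤ S2 := Real.sqrt_nonneg _
  have hS30 : 0 ≤ S3 := Real.sqrt_nonneg _
  set P : ℝ := 48 * L ^ 3 * (Real.sqrt D * S2 * S3) with hP
  have hPbound : ∀ k n q, 1 ≤ k → k ≤ N → 1 ≤ n → n ≤ N → 1 ≤ q → q ≤ N →
      ∑ x ∈ I, ‖∑ i ∈ Icc 1 k, (starRingEnd ℂ) (x.2 i)‖ *
        ‖∑ i ∈ Icc 1 n, ((Λ i : ℝ) : ℂ) * x.2 i‖ *
        ‖∑ i ∈ Icc 1 q, (if i ∈ E then ξ i * (starRingEnd ℂ) (x.2 i) else 0)‖ ≤ P := by
    intro k n q _ _ _ hn _ _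
    have h1 : ∀ x ∈ I, ‖∑ i ∈ Icc 1 k, (starRingEnd ℂ) (x.2 i)‖ ≤ 4 * L * Real.sqrt D := by
      intro x hx
      rw [hI, mem_sigma] at hx
      refine (first hD hx.1 hx.2 k).trans ?_
      have h2 : Real.sqrt (2 * (D : ℝ)) ≤ 2 * Real.sqrt D := by
        rw [Real.sqrt_le_left (by positivity), mul_pow, Real.sq_sqrt (by linarith)]
        linarith
      calc Real.sqrt (2 * (D : ℝ)) * (1 + Real.log (2 * D)) ≤ (2 * Real.sqrt D) * (2 * L) := by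
            gcongr
        _ = 4 * L * Real.sqrt D := by ring
    have h2 : ∑ x ∈ I, ‖∑ i ∈ Icc 1 n, ((Λ i : ℝ) : ℂ) * x.2 i‖ ^ 2 ≤
        12 * L ^ 3 * (((D : ℝ) ^ 2 + N) * N) := by
      rw [hI, sum_sigma]
      refine (second hD hn).trans ?_
      calc (1 + Real.log (4 * (D : ℝ) ^ 2)) * (4 * (D : ℝ) ^ 2 + N) * (N * Real.log N ^ 2)
          ≤ (3 * L) * (4 * ((D : ℝ) ^ 2 + N)) * (N * L ^ 2) := by
            gcongr
            · linarith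
            · linarith
        _ = 12 * L ^ 3 * (((D : ℝ) ^ 2 + N) * N) := by ring
    have h3 : ∑ x ∈ I, ‖∑ i ∈ Icc 1 q,
        (if i ∈ E then ξ i * (starRingEnd ℂ) (x.2 i) else 0)‖ ^ 2 ≤
        12 * L * (((D : ℝ) ^ 2 + Q) * E.card) := by
      rw [hI, sum_sigma]
      refine (third hD E hE ξ hξ q).trans ?_
      calc (1 + Real.log (4 * (D : ℝ) ^ 2)) * (4 * (D : ℝ) ^ 2 + Q) * E.card
          ≤ (3 * L) * (4 * ((D : ℝ) ^ 2 + Q)) * E.card := by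
            gcongr
            linarith
        _ = 12 * L * (((D : ℝ) ^ 2 + Q) * E.card) := by ring
    have h4 : ∑ x ∈ I, ‖∑ i ∈ Icc 1 n, ((Λ i : ℝ) : ℂ) * x.2 i‖ *
        ‖∑ i ∈ Icc 1 q, (if i ∈ E then ξ i * (starRingEnd ℂ) (x.2 i) else 0)‖ ≤
        12 * L ^ 2 * (S2 * S3) := by
      refine (Real.sum_mul_le_sqrt_mul_sqrt I _ _).trans ?_
      calc Real.sqrt (∑ x ∈ I, ‖∑ i ∈ Icc 1 n, ((Λ i : ℝ) : ℂ) * x.2 i‖ ^ 2) *
          Real.sqrt (∑ x ∈ I, ‖∑ i ∈ Icc 1 q,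
            (if i ∈ E then ξ i * (starRingEnd ℂ) (x.2 i) else 0)‖ ^ 2)
          ≤ Real.sqrt (12 * L ^ 3 * (((D : ℝ) ^ 2 + N) * N)) *
            Real.sqrt (12 * L * (((D : ℝ) ^ 2 + Q) * E.card)) := by
            gcongr
        _ = Real.sqrt ((12 * L ^ 2) ^ 2) * (S2 * S3) := by
            rw [← Real.sqrt_mul (by positivity), hS2, hS3, ← Real.sqrt_mul (by positivity),
              ← Real.sqrt_mul (by positivity)]
            congr 1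
            ring
        _ = 12 * L ^ 2 * (S2 * S3) := by
            rw [Real.sqrt_sq (by positivity)]
    calc ∑ x ∈ I, ‖∑ i ∈ Icc 1 k, (starRingEnd ℂ) (x.2 i)‖ *
        ‖∑ i ∈ Icc 1 n, ((Λ i : ℝ) : ℂ) * x.2 i‖ *
        ‖∑ i ∈ Icc 1 q, (if i ∈ E then ξ i * (starRingEnd ℂ) (x.2 i) else 0)‖
        ≤ ∑ x ∈ I, (4 * L * Real.sqrt D) * (‖∑ i ∈ Icc 1 n, ((Λ i : ℝ) : ℂ) * x.2 i‖ *
        ‖∑ i ∈ Icc 1 q, (if i ∈ E then ξ i * (starRingEnd ℂ) (x.2 i) else 0)‖) := by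
          refine sum_le_sum fun x hx => ?_
          rw [mul_assoc]
          exact mul_le_mul_of_nonneg_right (h1 x hx) (by positivity)
      _ = (4 * L * Real.sqrt D) * ∑ x ∈ I, ‖∑ i ∈ Icc 1 n, ((Λ i : ℝ) : ℂ) * x.2 i‖ *
        ‖∑ i ∈ Icc 1 q, (if i ∈ E then ξ i * (starRingEnd ℂ) (x.2 i) else 0)‖ := by
          rw [mul_sum]
      _ ≤ (4 * L * Real.sqrt D) * (12 * L ^ 2 * (S2 * S3)) := by gcongr
      _ = P := by rw [hP]; ring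
  have hP0 : 0 ≤ P := by positivity
  have hmain := abel3 I N (fun x k => (starRingEnd ℂ) (x.2 k))
    (fun x n => ((Λ n : ℝ) : ℂ) * x.2 n)
    (fun x q => if q ∈ E then ξ q * (starRingEnd ℂ) (x.2 q) else 0) (GW W N σ s)
    (fun k n q hk _ hq h' => gw_zero hW hσ hs k n q hk hq (by tauto)) P hPbound
  have hw' := hw N s h j A B H hN hs hh hH hNH hW σ hσ
  -- the left side
  have e1 : ∑ f ∈ Ioc D (2 * D), ∑ χ ∈ pc f,
      ‖∑ q ∈ E, ξ q * (starRingEnd ℂ) (χ q) * Phi W N q σ s χ‖ =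
      ∑ x ∈ I, ‖∑ k ∈ Icc 1 N, ∑ n ∈ Icc 1 N, ∑ q ∈ Icc 1 N,
        (starRingEnd ℂ) (x.2 k) * (((Λ n : ℝ) : ℂ) * x.2 n) *
          (if q ∈ E then ξ q * (starRingEnd ℂ) (x.2 q) else 0) *
            ((GW W N σ s k n q : ℝ) : ℂ)‖ := by
    rw [hI, sum_sigma]
    refine sum_congr rfl fun f _ => sum_congr rfl fun χ _ => ?_
    rw [sum_eq hW hσ hs E hE ξ χ]
  rw [e1]
  refine hmain.trans ?_
  refine (mul_le_mul_of_nonneg_left hw' hP0).trans ?_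
  -- the logarithms
  have hLpow : L ^ 4 ≤ (1 + 4 / δ) ^ 4 * (N : ℝ) ^ δ := by
    have h1 : Real.log N ≤ (N : ℝ) ^ (δ / 4) / (δ / 4) :=
      Real.log_le_rpow_div (by linarith) (by positivity)
    have h2 : (1 : ℝ) ≤ (N : ℝ) ^ (δ / 4) := Real.one_le_rpow hN0 (by positivity)
    have h3 : L ≤ (1 + 4 / δ) * (N : ℝ) ^ (δ / 4) := by
      have e : (N : ℝ) ^ (δ / 4) / (δ / 4) = 4 / δ * (N : ℝ) ^ (δ / 4) := by
        field_simp
      rw [e] at h1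
      rw [add_mul, one_mul]
      linarith
    have h4 : L ^ 4 ≤ ((1 + 4 / δ) * (N : ℝ) ^ (δ / 4)) ^ 4 :=
      pow_le_pow_left₀ (by linarith) h3 4
    refine h4.trans (le_of_eq ?_)
    rw [mul_pow, ← Real.rpow_natCast ((N : ℝ) ^ (δ / 4)) 4, ← Real.rpow_mul (by linarith)]
    congr 2
    push_cast
    ring
  have hR0 : 0 ≤ Real.sqrt D * S2 * S3 := by positivity
  calc P * (C0 * H ^ 3 * (1 + Real.log N)) = 48 * C0 * L ^ 4 * H ^ 3 * (Real.sqrt D * S2 * S3) := by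
        rw [hP, hL]; ring
    _ ≤ 48 * C0 * ((1 + 4 / δ) ^ 4 * (N : ℝ) ^ δ) * H ^ 3 * (Real.sqrt D * S2 * S3) := by
        gcongr
    _ = 48 * C0 * (1 + 4 / δ) ^ 4 * (N : ℝ) ^ δ * H ^ 3 * (Real.sqrt D * S2 * S3) := by ring

end Pool.Agent.M848.SV
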