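import Pool.Agent.Lib.MP_848d44_nt.F.Base

/-!
# MP_848d44_nt, project SV (sharp lower bounds for the variance): definitions
-/

set_option autoImplicit false

noncomputable section

namespace Pool.Agent.M848.SV

open Finset Pool.Agent.M848 Pool.Agent.M848.FC
open scoped ArithmeticFunction.vonMangoldt

/-- The Ramanujan sum `c_r(m)`. -/
def cc (r : ℕ) (m : ℤ) : ℝ :=
  ∑ d ∈ r.divisors.filter (fun d : ℕ => (d : ℤ) ∣ m), (ArithmeticFunction.moebius (r / d) : ℝ) * d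

/-- The squarefree `r ∈ (R₀, R]` coprime to `q`. -/
def RS (q R₀ R : ℕ) : Finset ℕ := (Ioc R₀ R).filter (fun r => Squarefree r ∧ r.Coprime q)

/-- The coefficient `μ(r) / φ(r)`. -/
def br (r : ℕ) : ℝ := (ArithmeticFunction.moebius r : ℝ) / r.totient

/-- The test function `F(m) = ∑_{r ∈ RS q R₀ R} μ(r)/φ(r) c_r(m)`. -/
def FS (q R₀ R : ℕ) (m : ℤ) : ℝ := ∑ r ∈ RS q R₀ R, br r * cc r m

/-- `J = ∑_{r ∈ RS q R₀ R} 1/φ(r)`. -/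
def JJ (q R₀ R : ℕ) : ℝ := ∑ r ∈ RS q R₀ R, 1 / (r.totient : ℝ)

/-- The weighted sum of the test function over a residue class modulo `q`. -/
def TS (W : ℤ → ℝ) (N q R₀ R a : ℕ) : ℝ :=
  ∑ m ∈ (Icc 1 N).filter (fun m => m % q = a), W (m : ℤ) * FS q R₀ R (m : ℤ)

/-- `ψ(N; q, a)` for the residue `a` of `n` modulo `q`. -/
def Ps (N q a : ℕ) : ℝ := ∑ n ∈ (Icc 1 N).filter (fun n => n % q = a), (Λ n : ℝ)

/-- The residues coprime to `q`. -/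
def Co (q : ℕ) : Finset ℕ := (range q).filter (fun a => a.Coprime q)

/-- Indicator function of `[A, B]`. -/
def ind (A B m : ℤ) : ℝ := if A ≤ m ∧ m ≤ B then 1 else 0

/-- The average over `h` consecutive shifts. -/
def avg (h : ℕ) (V : ℤ → ℝ) (m : ℤ) : ℝ := (1 / (h : ℝ)) * ∑ i ∈ range h, V (m - (i : ℤ))

/-- The spline of order `j`. -/
def spl (A B : ℤ) (h : ℕ) : ℕ → ℤ → ℝ
  | 0 => ind A B
  | j + 1 => avg h (spl A B h j)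

/-- A weight: values in `[0, 1]`, supported in `[1, N)`. -/
structure Wgt (W : ℤ → ℝ) (N : ℕ) : Prop where
  nonneg : ∀ m, 0 ≤ W m
  le_one : ∀ m, W m ≤ 1
  supp : ∀ m, W m ≠ 0 → 1 ≤ m ∧ m < N

/-- The diagonal term of the first moment. -/
def Dg (W : ℤ → ℝ) (N q R₀ R : ℕ) : ℝ :=
  ∑ n ∈ (Icc 1 N).filter (fun n => n.Coprime q), (Λ n : ℝ) * (W (n : ℤ) * FS q R₀ R (n : ℤ))

/-- The first moment. -/
def A1 (W : ℤ → ℝ) (N q R₀ R : ℕ) : ℝ := ∑ a ∈ Co q, Ps N q a * TS W N q R₀ R a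

/-- `∑_{k ≤ N/q} χ̄(k) ∑_{n ≤ N} Λ(n) χ(n) W(n + σ s k q)`. -/
def Phi (W : ℤ → ℝ) (N q : ℕ) (σ : ℤ) (s : ℕ) (χ : ℕ → ℂ) : ℂ :=
  ∑ k ∈ Icc 1 (N / q), (starRingEnd ℂ) (χ k) *
    ∑ n ∈ Icc 1 N, ((Λ n : ℝ) : ℂ) * χ n * ((W ((n : ℤ) + σ * ((s * k * q : ℕ) : ℤ)) : ℝ) : ℂ)

/-- `χ(-σ)`. -/
def uu (σ : ℤ) (f : ℕ) (χ : ℕ → ℂ) : ℂ := if σ = 1 then χ (f - 1) else 1

/-- The coefficient of the main off-diagonal sum. -/
def cf (f e s : ℕ) : ℝ :=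
  br (f * e) * ((ArithmeticFunction.moebius e : ℝ) / e.totient) * ((f : ℝ) / f.totient) *
    ((ArithmeticFunction.moebius (e / s) : ℝ) * s)

/-- The sum over the primitive characters modulo `f` in the off-diagonal term. -/
def Zf (W : ℤ → ℝ) (N q : ℕ) (σ : ℤ) (f s : ℕ) : ℂ :=
  ∑ χ ∈ pc f, uu σ f χ * (starRingEnd ℂ) (χ q) * (starRingEnd ℂ) (χ s) * Phi W N q σ s χ

/-- The main off-diagonal sum. -/
def MainS (W : ℤ → ℝ) (N q R₀ R : ℕ) (σ : ℤ) : ℂ :=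
  ∑ f ∈ Icc 1 R, ∑ e ∈ Icc 1 R, ∑ s ∈ e.divisors,
    (if f * e ∈ RS q R₀ R then ((cf f e s : ℝ) : ℂ) else 0) * Zf W N q σ f s

/-- The off-diagonal sum with `(n, q r) = 1`, one sign `σ`. -/
def OA (W : ℤ → ℝ) (N q R₀ R : ℕ) (σ : ℤ) : ℝ :=
  ∑ r ∈ RS q R₀ R, br r * ∑ k ∈ Icc 1 (N / q),
    ∑ n ∈ (Icc 1 N).filter (fun n => n.Coprime (q * r)),
      (Λ n : ℝ) * (W ((n : ℤ) + σ * ((k * q : ℕ) : ℤ)) * cc r ((n : ℤ) + σ * ((k * q : ℕ) : ℤ)))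

/-- The quadrature hypothesis for the products `W(t m) W(t m + k q)` and the classes modulo
`L ≤ X`. -/
def Quad (W : ℤ → ℝ) (N q t₀ X : ℕ) (E : ℝ) : Prop :=
  ∀ t ∈ t₀.divisors, ∀ k : ℤ, k.natAbs ≤ N / q → ∀ L : ℕ, 1 ≤ L → L ≤ X → ∀ b : ℕ,
    |∑ m ∈ (Icc 1 N).filter (fun m => m % L = b % L),
        W ((t : ℤ) * m) * W ((t : ℤ) * m + k * q)
      - (1 / (L : ℝ)) * ∑ m ∈ Icc 1 N, W ((t : ℤ) * m) * W ((t : ℤ) * m + k * q)| ≤ E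

/-- Total variation at most `2`. -/
def TV2 (W : ℤ → ℝ) : Prop :=
  ∀ (u : ℤ) (n : ℕ), ∑ i ∈ range n, |W (u + i + 1) - W (u + i)| ≤ 2

/-- The variance around `Y`. -/
def VV (N q : ℕ) (Y : ℝ) : ℝ := ∑ a ∈ Co q, (Ps N q a - Y) ^ 2

end Pool.Agent.M848.SV
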