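import Pool.Agent.Lib.MP_848d44_nt.SV.Spl

/-!
# MP_848d44_nt, project SV, module QuadJ: quadrature for splines of order `J`

`W = spl A B h J`.  With `S_t V m = V m - V (m - t)` one has `|S_t^i W| ≤ (2 t / h)^i` for
`i ≤ J`; by the product rule `P m = W (t m) W (t m + k q)` satisfies `|S_1^J P| ≤ (4 t / h)^J`.
The functional `T V = ∑_{m = b mod L} V m - (1 / L) ∑ V m` vanishes on the averages `avg L V`,
so `T P = T ((1 - avg L)^J P)`, and `|(1 - avg L)^J P| ≤ L^J sup |S_1^J P|`.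
-/

set_option autoImplicit false

noncomputable section

namespace Pool.Agent.M848.SV

open Finset Pool.Agent.M848 Pool.Agent.M848.FC
open scoped ArithmeticFunction.vonMangoldt ComplexConjugate

namespace QJ

/-- The difference with step `s`. -/
def dd (s : ℤ) (V : ℤ → ℝ) : ℤ → ℝ := fun m => V m - V (m - s)

/-- The deviation from the average. -/
def rr (L : ℕ) (V : ℤ → ℝ) : ℤ → ℝ := fun m => V m - avg L V m

lemma dd_avg (s : ℤ) (h : ℕ) (V : ℤ → ℝ) : dd s (avg h V) = avg h (dd s V) := by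
  funext m
  simp only [dd, avg]
  rw [← mul_sub, ← Finset.sum_sub_distrib]
  congr 1
  refine Finset.sum_congr rfl fun i _ => ?_
  have e : m - s - (i : ℤ) = m - i - s := by ring
  rw [e]

lemma ddi_avg (s : ℤ) (h : ℕ) (i : ℕ) (V : ℤ → ℝ) :
    (dd s)^[i] (avg h V) = avg h ((dd s)^[i] V) := by
  induction i generalizing V with
  | zero => rfl
  | succ i ih => rw [Function.iterate_succ_apply, Function.iterate_succ_apply, dd_avg, ih]

lemma dd_avg_le (t h : ℕ) (hh : 1 ≤ h) (U : ℤ → ℝ) (M : ℝ) (hU : ∀ m, |U m| ≤ M) (m : ℤ) :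
    |dd t (avg h U) m| ≤ (2 * t / h) * M := by
  have hh' : (0 : ℝ) < h := by exact_mod_cast hh
  have e1 : ∑ i ∈ range (h + t), U (m - (i : ℤ)) =
      ∑ i ∈ range h, U (m - (i : ℤ)) + ∑ i ∈ range t, U (m - h - (i : ℤ)) := by
    rw [Finset.sum_range_add]
    congr 1
    refine Finset.sum_congr rfl fun i _ => ?_
    have e : m - ((h + i : ℕ) : ℤ) = m - h - i := by push_cast; ring
    rw [e]
  have e2 : ∑ i ∈ range (t + h), U (m - (i : ℤ)) =
      ∑ i ∈ range t, U (m - (i : ℤ)) + ∑ i ∈ range h, U (m - t - (i : ℤ)) := by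
    rw [Finset.sum_range_add]
    congr 1
    refine Finset.sum_congr rfl fun i _ => ?_
    have e : m - ((t + i : ℕ) : ℤ) = m - t - i := by push_cast; ring
    rw [e]
  have e3 : dd t (avg h U) m = (1 / (h : ℝ)) *
      (∑ i ∈ range t, U (m - (i : ℤ)) - ∑ i ∈ range t, U (m - h - (i : ℤ))) := by
    simp only [dd, avg]
    rw [← mul_sub]
    congr 1
    rw [add_comm t h, e1] at e2
    linarith
  have b1 : |∑ i ∈ range t, U (m - (i : ℤ))| ≤ t * M := by
    refine (Finset.abs_sum_le_sum_abs _ _).trans ?_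
    refine (Finset.sum_le_sum fun i _ => hU _).trans ?_
    simp
  have b2 : |∑ i ∈ range t, U (m - h - (i : ℤ))| ≤ t * M := by
    refine (Finset.abs_sum_le_sum_abs _ _).trans ?_
    refine (Finset.sum_le_sum fun i _ => hU _).trans ?_
    simp
  rw [e3, abs_mul, abs_of_pos (by positivity : (0 : ℝ) < 1 / (h : ℝ))]
  have b3 := (abs_sub (∑ i ∈ range t, U (m - (i : ℤ))) (∑ i ∈ range t, U (m - h - (i : ℤ)))).trans
    (add_le_add b1 b2)
  calc (1 / (h : ℝ)) * |∑ i ∈ range t, U (m - (i : ℤ)) - ∑ i ∈ range t, U (m - h - (i : ℤ))|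
      ≤ (1 / (h : ℝ)) * (t * M + t * M) := mul_le_mul_of_nonneg_left b3 (by positivity)
    _ = (2 * t / h) * M := by ring

lemma spl_dd (A B : ℤ) (h : ℕ) (hh : 1 ≤ h) (t : ℕ) (i : ℕ) :
    ∀ J : ℕ, i ≤ J → ∀ m : ℤ, |(dd t)^[i] (spl A B h J) m| ≤ (2 * t / h : ℝ) ^ i := by
  induction i with
  | zero =>
    intro J _ m
    rw [Function.iterate_zero, id, pow_zero, abs_of_nonneg (spl_nonneg A B h J m)]
    exact spl_le_one A B h J m
  | succ i ih =>
    intro J hJ m
    obtain ⟨J', rfl⟩ : ∃ J', J = J' + 1 := ⟨J - 1, by omega⟩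
    have e : spl A B h (J' + 1) = avg h (spl A B h J') := rfl
    rw [e, Function.iterate_succ_apply', ddi_avg]
    refine (dd_avg_le t h hh _ _ (ih J' (by omega)) m).trans (le_of_eq ?_)
    rw [pow_succ]
    ring

lemma dd_comp (t c : ℤ) (V : ℤ → ℝ) (i : ℕ) (m : ℤ) :
    (dd 1)^[i] (fun m : ℤ => V (t * m + c)) m = (dd t)^[i] V (t * m + c) := by
  induction i generalizing V with
  | zero => rfl
  | succ i ih =>
    rw [Function.iterate_succ_apply, Function.iterate_succ_apply, ← ih]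
    have e0 : dd 1 (fun m : ℤ => V (t * m + c)) = fun m : ℤ => dd t V (t * m + c) := by
      funext m
      simp only [dd]
      have e : t * (m - 1) + c = t * m + c - t := by ring
      rw [e]
    rw [e0]

lemma ddi_add (s : ℤ) (i : ℕ) (U V : ℤ → ℝ) (m : ℤ) :
    (dd s)^[i] (fun m => U m + V m) m = (dd s)^[i] U m + (dd s)^[i] V m := by
  induction i generalizing U V with
  | zero => rfl
  | succ i ih =>
    rw [Function.iterate_succ_apply, Function.iterate_succ_apply, Function.iterate_succ_apply,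
      ← ih]
    have e0 : dd s (fun m => U m + V m) = fun m => dd s U m + dd s V m := by
      funext m
      simp only [dd]
      ring
    rw [e0]

lemma ddi_shift (s c : ℤ) (i : ℕ) (U : ℤ → ℝ) (m : ℤ) :
    (dd s)^[i] (fun m => U (m - c)) m = (dd s)^[i] U (m - c) := by
  induction i generalizing U with
  | zero => rfl
  | succ i ih =>
    rw [Function.iterate_succ_apply, Function.iterate_succ_apply, ← ih]
    have e0 : dd s (fun m => U (m - c)) = fun m => dd s U (m - c) := by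
      funext m
      simp only [dd]
      have e : m - s - c = m - c - s := by ring
      rw [e]
    rw [e0]

lemma leibniz (a : ℝ) (ha : 0 ≤ a) (i : ℕ) : ∀ (f g : ℤ → ℝ) (F G : ℝ), 0 ≤ F → 0 ≤ G →
    (∀ j ≤ i, ∀ m, |(dd 1)^[j] f m| ≤ F * a ^ j) →
    (∀ j ≤ i, ∀ m, |(dd 1)^[j] g m| ≤ G * a ^ j) →
    ∀ m, |(dd 1)^[i] (fun m => f m * g m) m| ≤ F * G * (2 * a) ^ i := by
  induction i with
  | zero =>
    intro f g F G hF hG hf hg m
    have h1 := hf 0 le_rfl m
    have h2 := hg 0 le_rfl m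
    simp only [Function.iterate_zero, id, pow_zero, mul_one] at h1 h2 ⊢
    rw [abs_mul]
    exact mul_le_mul h1 h2 (abs_nonneg _) hF
  | succ i ih =>
    intro f g F G hF hG hf hg m
    rw [Function.iterate_succ_apply]
    have e : dd 1 (fun m => f m * g m) =
        fun m => (dd 1 f m * g m) + (f (m - 1) * dd 1 g m) := by
      funext m
      simp only [dd]
      ring
    rw [e, ddi_add]
    have h1 := ih (dd 1 f) g (F * a) G (mul_nonneg hF ha) hG (fun j hj m => by
        have := hf (j + 1) (by omega) m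
        rw [Function.iterate_succ_apply] at this
        refine this.trans (le_of_eq ?_)
        rw [pow_succ]; ring) (fun j hj m => hg j (by omega) m) m
    have h2 := ih (fun m => f (m - 1)) (dd 1 g) F (G * a) hF (mul_nonneg hG ha)
      (fun j hj m => by
        rw [ddi_shift]
        exact hf j (by omega) (m - 1)) (fun j hj m => by
        have := hg (j + 1) (by omega) m
        rw [Function.iterate_succ_apply] at this
        refine this.trans (le_of_eq ?_)
        rw [pow_succ]; ring) m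
    refine (abs_add_le _ _).trans ((add_le_add h1 h2).trans (le_of_eq ?_))
    rw [pow_succ]
    ring

lemma dd_rr (L : ℕ) (V : ℤ → ℝ) : dd 1 (rr L V) = rr L (dd 1 V) := by
  funext m
  have h := congrFun (dd_avg 1 L V) m
  have h2 : avg L (dd 1 V) m = avg L V m - avg L V (m - 1) := h.symm
  have h3 : dd 1 V m = V m - V (m - 1) := rfl
  have h4 : dd 1 (rr L V) m = (V m - avg L V m) - (V (m - 1) - avg L V (m - 1)) := rfl
  have h5 : rr L (dd 1 V) m = dd 1 V m - avg L (dd 1 V) m := rfl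
  rw [h4, h5, h2, h3]
  ring

lemma ddi_rr (L : ℕ) (i : ℕ) (V : ℤ → ℝ) : (dd 1)^[i] (rr L V) = rr L ((dd 1)^[i] V) := by
  induction i generalizing V with
  | zero => rfl
  | succ i ih => rw [Function.iterate_succ_apply, Function.iterate_succ_apply, dd_rr, ih]

lemma rr_le (L : ℕ) (hL : 1 ≤ L) (U : ℤ → ℝ) (M : ℝ) (hU : ∀ m, |dd 1 U m| ≤ M) (m : ℤ) :
    |rr L U m| ≤ L * M := by
  have hL' : (0 : ℝ) < L := by exact_mod_cast hL
  have hM : 0 ≤ M := (abs_nonneg _).trans (hU 0)
  have h1 : ∀ i : ℕ, |U m - U (m - (i : ℤ))| ≤ i * M := by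
    intro i
    induction i with
    | zero => simp
    | succ i ih =>
      have e : U m - U (m - ((i + 1 : ℕ) : ℤ)) =
          (U m - U (m - (i : ℤ))) + dd 1 U (m - (i : ℤ)) := by
        simp only [dd]
        have e2 : m - ((i + 1 : ℕ) : ℤ) = m - i - 1 := by push_cast; ring
        rw [e2]
        ring
      rw [e]
      refine (abs_add_le _ _).trans ((add_le_add ih (hU _)).trans (le_of_eq ?_))
      push_cast
      ring
  have e : rr L U m = (1 / (L : ℝ)) * ∑ i ∈ range L, (U m - U (m - (i : ℤ))) := by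
    simp only [rr, avg]
    rw [Finset.sum_sub_distrib, Finset.sum_const, Finset.card_range, nsmul_eq_mul]
    field_simp
  rw [e, abs_mul, abs_of_pos (by positivity : (0 : ℝ) < 1 / (L : ℝ))]
  have h2 : |∑ i ∈ range L, (U m - U (m - (i : ℤ)))| ≤ ∑ i ∈ range L, (L * M : ℝ) := by
    refine (Finset.abs_sum_le_sum_abs _ _).trans (Finset.sum_le_sum fun i hi => ?_)
    refine (h1 i).trans (mul_le_mul_of_nonneg_right ?_ hM)
    exact_mod_cast (Finset.mem_range.mp hi).le
  rw [Finset.sum_const, Finset.card_range, nsmul_eq_mul] at h2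
  calc (1 / (L : ℝ)) * |∑ i ∈ range L, (U m - U (m - (i : ℤ)))|
      ≤ (1 / (L : ℝ)) * (L * (L * M)) := mul_le_mul_of_nonneg_left h2 (by positivity)
    _ = L * M := by field_simp

lemma rri_le (L : ℕ) (hL : 1 ≤ L) (j : ℕ) : ∀ (V : ℤ → ℝ) (M : ℝ),
    (∀ m, |(dd 1)^[j] V m| ≤ M) → ∀ m, |(rr L)^[j] V m| ≤ (L : ℝ) ^ j * M := by
  induction j with
  | zero =>
    intro V M hV m
    simpa using hV m
  | succ j ih =>
    intro V M hV m
    rw [Function.iterate_succ_apply]
    refine (ih (rr L V) (L * M) (fun m => ?_) m).trans (le_of_eq ?_)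
    · rw [ddi_rr]
      refine rr_le L hL _ M (fun m => ?_) m
      have := hV m
      rw [Function.iterate_succ_apply'] at this
      exact this
    · rw [pow_succ]; ring

/-- Support in `[1, M]`. -/
def Sp (V : ℤ → ℝ) (M : ℤ) : Prop := ∀ m, V m ≠ 0 → 1 ≤ m ∧ m ≤ M

lemma sp_rr (L : ℕ) (V : ℤ → ℝ) (M : ℤ) (hV : Sp V M) : Sp (rr L V) (M + L) := by
  intro m hm
  by_cases h0 : V m = 0
  · simp only [rr, h0, zero_sub, avg] at hm
    have hs : ∑ i ∈ range L, V (m - (i : ℤ)) ≠ 0 := fun h => hm (by rw [h]; simp)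
    obtain ⟨i, hi, hi0⟩ := Finset.exists_ne_zero_of_sum_ne_zero hs
    obtain ⟨h1, h2⟩ := hV _ hi0
    have hi' := Finset.mem_range.mp hi
    constructor <;> omega
  · obtain ⟨h1, h2⟩ := hV m h0
    constructor <;> omega

lemma sp_rri (L : ℕ) (j : ℕ) : ∀ (V : ℤ → ℝ) (M : ℤ), Sp V M →
    Sp ((rr L)^[j] V) (M + j * L) := by
  induction j with
  | zero =>
    intro V M hV
    simpa using hV
  | succ j ih =>
    intro V M hV
    rw [Function.iterate_succ_apply]
    have := ih (rr L V) (M + L) (sp_rr L V M hV)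
    have e : M + ((j + 1 : ℕ) : ℤ) * L = M + L + j * L := by push_cast; ring
    rw [e]
    exact this

/-- The coefficient of the functional. -/
def co (L b : ℕ) (m : ℤ) : ℝ := (if m % (L : ℤ) = ((b % L : ℕ) : ℤ) then 1 else 0) - 1 / (L : ℝ)

lemma co_abs (L b : ℕ) (hL : 1 ≤ L) (m : ℤ) : |co L b m| ≤ 1 := by
  have hL' : (1 : ℝ) ≤ L := by exact_mod_cast hL
  have h1 : (0 : ℝ) < 1 / (L : ℝ) := by positivity
  have h2 : 1 / (L : ℝ) ≤ 1 := by
    rw [div_le_one (by linarith)]; exact hL'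
  unfold co
  split_ifs
  · rw [abs_le]; constructor <;> linarith
  · rw [abs_le]; constructor <;> linarith

lemma co_sum (L b : ℕ) (hL : 1 ≤ L) (m : ℤ) : ∑ i ∈ range L, co L b (m + (i : ℤ)) = 0 := by
  have hL' : (0 : ℝ) < L := by exact_mod_cast hL
  have hLz : (0 : ℤ) < L := by exact_mod_cast hL
  set c : ℤ := (((b % L : ℕ) : ℤ) - m) % (L : ℤ) with hc
  have hc0 : 0 ≤ c := Int.emod_nonneg _ (by omega)
  have hcL : c < L := Int.emod_lt_of_pos _ hLz
  have hb0 : (b % L : ℕ) < L := Nat.mod_lt _ hL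
  have key : ∀ i ∈ range L, ((m + (i : ℤ)) % (L : ℤ) = ((b % L : ℕ) : ℤ)) ↔ i = c.toNat := by
    intro i hi
    have hi' : i < L := Finset.mem_range.mp hi
    have hb1 : ((b % L : ℕ) : ℤ) % (L : ℤ) = ((b % L : ℕ) : ℤ) :=
      Int.emod_eq_of_lt (by omega) (by exact_mod_cast hb0)
    have hi1 : (i : ℤ) % (L : ℤ) = i := Int.emod_eq_of_lt (by omega) (by omega)
    constructor
    · intro h
      have h1 : m + (i : ℤ) ≡ ((b % L : ℕ) : ℤ) [ZMOD L] := by
        rw [Int.ModEq, hb1]; exact h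
      have h2 : (i : ℤ) ≡ ((b % L : ℕ) : ℤ) - m [ZMOD L] := by
        have := h1.sub_right m
        have e : m + (i : ℤ) - m = i := by ring
        rwa [e] at this
      have h3 : (i : ℤ) = c := by
        rw [Int.ModEq, hi1] at h2
        rw [hc]; exact h2
      omega
    · intro h
      have h3 : (i : ℤ) = c := by omega
      have h2 : (i : ℤ) ≡ ((b % L : ℕ) : ℤ) - m [ZMOD L] := by
        rw [Int.ModEq, hi1, h3]
      have h1 := h2.add_left m
      have e : m + (((b % L : ℕ) : ℤ) - m) = ((b % L : ℕ) : ℤ) := by ring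
      rw [e, Int.ModEq, hb1] at h1
      exact h1
  unfold co
  rw [Finset.sum_sub_distrib]
  have e1 : ∑ i ∈ range L, (if (m + (i : ℤ)) % (L : ℤ) = ((b % L : ℕ) : ℤ) then (1 : ℝ) else 0)
      = ∑ i ∈ range L, (if i = c.toNat then (1 : ℝ) else 0) := by
    refine Finset.sum_congr rfl fun i hi => ?_
    simp only [key i hi]
  rw [e1, Finset.sum_ite_eq', if_pos (by rw [Finset.mem_range]; omega), Finset.sum_const,
    Finset.card_range, nsmul_eq_mul]
  field_simp
  ring

lemma summ (V : ℤ → ℝ) (M : ℤ) (hV : Sp V M) (c : ℤ → ℝ) (s : ℤ) :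
    Summable fun m => c m * V (m - s) := by
  refine summable_of_ne_finset_zero (s := Finset.Icc (1 + s) (M + s)) fun m hm => ?_
  have : V (m - s) = 0 := by
    by_contra h0
    obtain ⟨h1, h2⟩ := hV _ h0
    exact hm (Finset.mem_Icc.mpr ⟨by omega, by omega⟩)
  rw [this, mul_zero]

/-- The functional. -/
def TT (L b : ℕ) (V : ℤ → ℝ) : ℝ := ∑' m : ℤ, co L b m * V m

lemma TT_avg (L b : ℕ) (hL : 1 ≤ L) (V : ℤ → ℝ) (M : ℤ) (hV : Sp V M) :
    TT L b (avg L V) = 0 := by
  have e1 : ∀ m : ℤ, co L b m * avg L V m =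
      (1 / (L : ℝ)) * ∑ i ∈ range L, co L b m * V (m - (i : ℤ)) := by
    intro m
    simp only [avg]
    rw [← Finset.mul_sum]
    ring
  unfold TT
  simp only [e1]
  rw [tsum_mul_left, Summable.tsum_finsetSum (s := range L)
    (f := fun (i : ℕ) (m : ℤ) => co L b m * V (m - (i : ℤ)))
    (fun i _ => summ V M hV (co L b) (i : ℤ))]
  have e2 : ∀ i : ℕ, ∑' m : ℤ, co L b m * V (m - (i : ℤ)) =
      ∑' m : ℤ, co L b (m + (i : ℤ)) * V m := by
    intro i
    rw [← (Equiv.subRight (i : ℤ)).tsum_eq (fun m : ℤ => co L b (m + (i : ℤ)) * V m)]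
    refine tsum_congr fun m => ?_
    simp only [Equiv.subRight_apply, sub_add_cancel]
  simp only [e2]
  rw [← Summable.tsum_finsetSum (s := range L)
    (f := fun (i : ℕ) (m : ℤ) => co L b (m + (i : ℤ)) * V m) (fun i _ => by
    simpa using summ V M hV (fun m => co L b (m + (i : ℤ))) 0)]
  have e3 : ∀ m : ℤ, ∑ i ∈ range L, co L b (m + (i : ℤ)) * V m = 0 := by
    intro m
    rw [← Finset.sum_mul, co_sum L b hL, zero_mul]
  simp only [e3]
  simp

lemma TT_rr (L b : ℕ) (hL : 1 ≤ L) (V : ℤ → ℝ) (M : ℤ) (hV : Sp V M) :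
    TT L b (rr L V) = TT L b V := by
  have h1 : Summable fun m : ℤ => co L b m * V m := by
    simpa using summ V M hV (co L b) 0
  have h2 : Summable fun m : ℤ => co L b m * rr L V m := by
    simpa using summ (rr L V) (M + L) (sp_rr L V M hV) (co L b) 0
  have h3 : Summable fun m : ℤ => co L b m * avg L V m := by
    have := h1.sub h2
    refine this.congr fun m => ?_
    simp only [rr]
    ring
  have h4 := TT_avg L b hL V M hV
  unfold TT at h4 ⊢
  have h5 : ∑' m : ℤ, co L b m * rr L V m =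
      ∑' m : ℤ, co L b m * V m - ∑' m : ℤ, co L b m * avg L V m := by
    rw [← h1.tsum_sub h3]
    refine tsum_congr fun m => ?_
    simp only [rr]
    ring
  rw [h5, h4, sub_zero]

lemma TT_rri (L b : ℕ) (hL : 1 ≤ L) (j : ℕ) : ∀ (V : ℤ → ℝ) (M : ℤ), Sp V M →
    TT L b ((rr L)^[j] V) = TT L b V := by
  induction j with
  | zero => intro V M _; rfl
  | succ j ih =>
    intro V M hV
    rw [Function.iterate_succ_apply, ih (rr L V) (M + L) (sp_rr L V M hV), TT_rr L b hL V M hV]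

lemma TT_le (L b : ℕ) (hL : 1 ≤ L) (V : ℤ → ℝ) (M : ℕ) (hV : Sp V M) (C : ℝ)
    (hC : ∀ m, |V m| ≤ C) : |TT L b V| ≤ M * C := by
  unfold TT
  rw [tsum_eq_sum (s := Finset.Icc (1 : ℤ) M) (fun m hm => by
    have : V m = 0 := by
      by_contra h0
      exact hm (Finset.mem_Icc.mpr (hV m h0))
    rw [this, mul_zero])]
  refine (Finset.abs_sum_le_sum_abs _ _).trans ?_
  have hC0 : 0 ≤ C := (abs_nonneg _).trans (hC 0)
  have : ∑ m ∈ Finset.Icc (1 : ℤ) M, |co L b m * V m| ≤ ∑ m ∈ Finset.Icc (1 : ℤ) M, C := by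
    refine Finset.sum_le_sum fun m _ => ?_
    rw [abs_mul]
    calc |co L b m| * |V m| ≤ 1 * C :=
          mul_le_mul (co_abs L b hL m) (hC m) (abs_nonneg _) zero_le_one
      _ = C := one_mul C
  refine this.trans (le_of_eq ?_)
  rw [Finset.sum_const, nsmul_eq_mul, Int.card_Icc]
  have e : ((M : ℤ) + 1 - 1).toNat = M := by omega
  rw [e]

lemma TT_nat (L b N : ℕ) (V : ℤ → ℝ) (hV : Sp V N) :
    TT L b V = ∑ m ∈ (Icc 1 N).filter (fun m => m % L = b % L), V (m : ℤ)
      - (1 / (L : ℝ)) * ∑ m ∈ Icc 1 N, V (m : ℤ) := by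
  unfold TT
  rw [tsum_eq_sum (s := (Icc 1 N).map ⟨((↑) : ℕ → ℤ), Nat.cast_injective⟩) (fun m hm => by
    have : V m = 0 := by
      by_contra h0
      obtain ⟨h1, h2⟩ := hV m h0
      refine hm (Finset.mem_map.mpr ⟨m.toNat, Finset.mem_Icc.mpr ⟨by omega, by omega⟩, ?_⟩)
      simp only [Function.Embedding.coeFn_mk]
      omega
    rw [this, mul_zero]), Finset.sum_map, Finset.sum_filter, Finset.mul_sum,
    ← Finset.sum_sub_distrib]
  refine Finset.sum_congr rfl fun m _ => ?_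
  simp only [Function.Embedding.coeFn_mk, co]
  have e : ((m : ℤ) % (L : ℤ) = ((b % L : ℕ) : ℤ)) ↔ m % L = b % L := by
    rw [← Int.natCast_mod]
    exact_mod_cast Iff.rfl
  simp only [e]
  split_ifs <;> ring

end QJ

open QJ in
theorem quadJ (A B : ℤ) (h J N q t₀ X : ℕ) (hh : 1 ≤ h) (hJ : 1 ≤ J) (hX : X ≤ N)
    (hW : Wgt (spl A B h J) N) :
    Quad (spl A B h J) N q t₀ X (4 * J * N * ((4 * t₀ * X : ℝ) / h) ^ J) := by
  intro t ht k _ L hL hLX b
  have ht1 : 1 ≤ t := Nat.pos_of_mem_divisors ht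
  have ht2 : t ≤ t₀ := Nat.divisor_le ht
  have hh' : (0 : ℝ) < h := by exact_mod_cast hh
  set W : ℤ → ℝ := spl A B h J with hWdef
  set P : ℤ → ℝ := fun m => W ((t : ℤ) * m) * W ((t : ℤ) * m + k * q) with hP
  have hsp : Sp P N := by
    intro m hm
    have h0 : W ((t : ℤ) * m) ≠ 0 := fun h0 => hm (by simp only [hP, h0, zero_mul])
    obtain ⟨h1, h2⟩ := hW.supp _ h0
    have htz : (1 : ℤ) ≤ t := by exact_mod_cast ht1
    have hm1 : 1 ≤ m := by
      by_contra hneg
      have : m ≤ 0 := by omega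
      nlinarith
    exact ⟨hm1, by nlinarith⟩
  have hf : ∀ j ≤ J, ∀ m, |(dd 1)^[j] (fun m : ℤ => W ((t : ℤ) * m)) m| ≤
      1 * (2 * t / h : ℝ) ^ j := by
    intro j hj m
    have e := dd_comp (t : ℤ) 0 W j m
    simp only [add_zero] at e
    rw [e, one_mul]
    exact spl_dd A B h hh t j J hj _
  have hg : ∀ j ≤ J, ∀ m, |(dd 1)^[j] (fun m : ℤ => W ((t : ℤ) * m + k * q)) m| ≤
      1 * (2 * t / h : ℝ) ^ j := by
    intro j hj m
    rw [dd_comp (t : ℤ) (k * q) W j m, one_mul]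
    exact spl_dd A B h hh t j J hj _
  have hPd : ∀ m, |(dd 1)^[J] P m| ≤ (4 * t / h : ℝ) ^ J := by
    intro m
    have := leibniz (2 * t / h : ℝ) (by positivity) J (fun m : ℤ => W ((t : ℤ) * m))
      (fun m : ℤ => W ((t : ℤ) * m + k * q)) 1 1 zero_le_one zero_le_one hf hg m
    refine this.trans (le_of_eq ?_)
    rw [one_mul, one_mul]
    congr 1
    ring
  have hR : ∀ m, |(rr L)^[J] P m| ≤ (L : ℝ) ^ J * (4 * t / h : ℝ) ^ J :=
    rri_le L hL J P _ hPd
  have hspR : Sp ((rr L)^[J] P) ((N + J * L : ℕ) : ℤ) := by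
    have := sp_rri L J P N hsp
    push_cast
    exact this
  have h1 := TT_le L b hL _ (N + J * L) hspR _ hR
  rw [TT_rri L b hL J P N hsp, TT_nat L b N P hsp] at h1
  refine h1.trans ?_
  have hbase : (L : ℝ) ^ J * (4 * t / h : ℝ) ^ J ≤ ((4 * t₀ * X : ℝ) / h) ^ J := by
    rw [← mul_pow]
    refine pow_le_pow_left₀ (by positivity) ?_ J
    have hLX' : (L : ℝ) ≤ X := by exact_mod_cast hLX
    have ht2' : (t : ℝ) ≤ t₀ := by exact_mod_cast ht2
    rw [← mul_div_assoc, div_le_div_iff_of_pos_right hh']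
    calc (L : ℝ) * (4 * t) = 4 * t * L := by ring
      _ ≤ 4 * t₀ * X := by gcongr
  have hnum : ((N + J * L : ℕ) : ℝ) ≤ 4 * J * N := by
    have : N + J * L ≤ 4 * J * N := by
      have h2 : L ≤ N := hLX.trans hX
      nlinarith [Nat.mul_le_mul_left J h2, Nat.mul_le_mul_right N hJ]
    exact_mod_cast this
  exact mul_le_mul hnum hbase (by positivity) (by positivity)

end Pool.Agent.M848.SV
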