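import Pool.Agent.Lib.MP_848d44_nt.SV.Bs3
import Pool.Agent.Lib.MP_848d44_nt.SV.Spl
import Pool.Agent.Lib.MP_848d44_nt.SV.QuadJ

/-!
# MP_848d44_nt, project SV, module SplD: differences of splines
-/

set_option autoImplicit false

noncomputable section

namespace Pool.Agent.M848.SV

open Finset Pool.Agent.M848 Pool.Agent.M848.FC
open scoped ArithmeticFunction.vonMangoldt ComplexConjugate

theorem spl_dif (A B : ℤ) (h j J t : ℕ) (hh : 1 ≤ h) (hJ : J ≤ j) (m : ℤ) :
    |(dif t)^[J] (spl A B h j) m| ≤ (2 * t / h : ℝ) ^ J := by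
  have e : dif t = QJ.dd (t : ℤ) := rfl
  rw [e]
  exact QJ.spl_dd A B h hh t J j hJ m

namespace SplDAux

theorem iter_neg (b J : ℕ) (U : ℤ → ℝ) (m : ℤ) :
    (dif b)^[J] (fun m => -U m) m = -(dif b)^[J] U m := by
  induction J generalizing U with
  | zero => rfl
  | succ J ih =>
    rw [Function.iterate_succ_apply, Function.iterate_succ_apply, ← ih]
    have e : dif b (fun m => -U m) = fun m => -dif b U m := by
      funext m
      simp only [dif]
      ring
    rw [e]

end SplDAux

theorem dif_scale (V : ℤ → ℝ) (b J : ℕ) (c k : ℤ) :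
    |(dif 1)^[J] (fun k => V (c - (b : ℤ) * k)) k| =
      |(dif b)^[J] V (c - (b : ℤ) * k + J * (b : ℤ))| := by
  induction J generalizing V c with
  | zero => simp
  | succ J ih =>
    rw [Function.iterate_succ_apply, Function.iterate_succ_apply]
    have e : dif 1 (fun k => V (c - (b : ℤ) * k)) =
        fun k => (fun m => -dif b V m) ((c + b) - (b : ℤ) * k) := by
      funext k
      simp only [dif]
      have e1 : c - (b : ℤ) * (k - ((1 : ℕ) : ℤ)) = c + b - b * k := by push_cast; ring
      have e2 : c + (b : ℤ) - b * k - b = c - b * k := by ring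
      rw [e1, e2]
      ring
    have h := ih (fun m => -dif b V m) (c + b)
    have e3 : c + (b : ℤ) - b * k + J * b = c - b * k + ((J + 1 : ℕ) : ℤ) * b := by
      push_cast
      ring
    rw [e, h, SplDAux.iter_neg, abs_neg, e3]

end Pool.Agent.M848.SV
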