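import Pool.Agent.Lib.MP_848d44_nt.SV.Dual
import Pool.Agent.Lib.MP_848d44_nt.SV.SplD

/-!
# MP_848d44_nt, project SV, module Blk: one block of the dual sum

With `b = s q` and `w k = spl (c - b k)`, the function `w` has at most `2 N / b` nonzero values,
all at `|k| ≤ 3 N / b`, and its differences are bounded by `spl_dif`. The bound `dual` is applied
to every primitive character of conductor in `(D, 2 D]`.
-/

set_option autoImplicit false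

noncomputable section

namespace Pool.Agent.M848.SV

open Finset Pool.Agent.M848 Pool.Agent.M848.FC
open scoped ArithmeticFunction.vonMangoldt ComplexConjugate

namespace Blk

private theorem wsupp {N b : ℕ} {c : ℤ} {V : ℤ → ℝ} (hV : ∀ m, V m ≠ 0 → 1 ≤ m ∧ m ≤ N)
    (hc : |c| ≤ 2 * (N : ℤ)) {k : ℤ} (hk : V (c - (b : ℤ) * k) ≠ 0) :
    (b : ℤ) * |k| ≤ 3 * N := by
  have h1 := hV _ hk
  have h2 := abs_le.mp hc
  have h3 : (b : ℤ) * |k| = |(b : ℤ) * k| := by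
    rw [abs_mul, abs_of_nonneg (by positivity : (0 : ℤ) ≤ b)]
  rw [h3, abs_le]
  constructor <;> linarith

private theorem card_supp {N b : ℕ} (hb : 1 ≤ b) (hbN : b ≤ N) {c : ℤ} {V : ℤ → ℝ}
    (hV : ∀ m, V m ≠ 0 → 1 ≤ m ∧ m ≤ N) (M : ℕ) :
    (((Icc (-(M : ℤ)) M).filter (fun k => V (c - (b : ℤ) * k) ≠ 0)).card : ℝ) ≤
      2 * ((N : ℝ) / b) := by
  have hb0 : (0 : ℤ) < b := by exact_mod_cast hb
  have hbR : (0 : ℝ) < b := by exact_mod_cast hb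
  set u : ℤ := (c - 1) / b with hu
  set v : ℤ := ((N : ℤ) - c) / b with hv
  have hsub : (Icc (-(M : ℤ)) M).filter (fun k => V (c - (b : ℤ) * k) ≠ 0) ⊆ Icc (-v) u := by
    intro k hk
    rw [mem_filter] at hk
    have h1 := hV _ hk.2
    rw [mem_Icc]
    constructor
    · have h2 : -k ≤ v := by
        rw [hv, Int.le_ediv_iff_mul_le hb0]
        nlinarith
      linarith
    · rw [hu, Int.le_ediv_iff_mul_le hb0]
      nlinarith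
  have h1 := card_le_card hsub
  rw [Int.card_Icc] at h1
  have hu2 : u * b ≤ c - 1 := Int.ediv_mul_le _ hb0.ne'
  have hv2 : v * b ≤ (N : ℤ) - c := Int.ediv_mul_le _ hb0.ne'
  have h2 : (u + 1 - -v) * b ≤ 2 * N := by
    have : (b : ℤ) ≤ N := by exact_mod_cast hbN
    nlinarith
  have h3 : (((u + 1 - -v).toNat : ℤ)) * b ≤ 2 * N := by
    rcases le_or_gt 0 (u + 1 - -v) with h | h
    · rw [Int.toNat_of_nonneg h]
      exact h2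
    · rw [Int.toNat_of_nonpos h.le]
      simp
  have h4 : (((u + 1 - -v).toNat : ℝ)) * b ≤ 2 * N := by exact_mod_cast h3
  have h5 : (((Icc (-(M : ℤ)) M).filter (fun k => V (c - (b : ℤ) * k) ≠ 0)).card : ℝ) ≤
      ((u + 1 - -v).toNat : ℝ) := by exact_mod_cast h1
  rw [← mul_div_assoc, le_div_iff₀ hbR]
  exact (mul_le_mul_of_nonneg_right h5 hbR.le).trans h4

/-- The bound of one character. -/
private theorem one_char (N b D A M J j h f : ℕ) (A₀ B₀ c : ℤ) (hh : 1 ≤ h) (hJ : J ≤ j)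
    (hb : 1 ≤ b) (hbN : b ≤ N) (hD : 1 ≤ D) (hAD : 2 * A ≤ D)
    (hsupp : ∀ m, spl A₀ B₀ h j m ≠ 0 → 1 ≤ m ∧ m ≤ N) (hc : |c| ≤ 2 * (N : ℤ))
    (hM : 3 * N ≤ M * b) (hf1 : D < f) (hf2 : f ≤ 2 * D) {χ : ℕ → ℂ} (hχ : χ ∈ pc f) :
    ‖CC (fun k => spl A₀ B₀ h j (c - (b : ℤ) * k)) M f χ‖ ≤
      2 / Real.sqrt D * (12 * Real.pi * ((N : ℝ) / b) ^ 2 / D *
        ∑ t ∈ Icc 1 A, ‖∑ a ∈ Ioc 0 t, χ a‖ + 2 * ((N : ℝ) / b) * ‖∑ a ∈ Ioc 0 A, χ a‖) +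
      2 * D * (2 * M + J + 1) * ((D : ℝ) * b / (((A : ℝ) + 1) * h)) ^ J := by
  have hb0 : (0 : ℤ) < b := by exact_mod_cast hb
  have hbR : (0 : ℝ) < b := by exact_mod_cast hb
  have hhR : (0 : ℝ) < h := by exact_mod_cast hh
  have hDR : (0 : ℝ) < D := by exact_mod_cast hD
  have hfR : (D : ℝ) ≤ f := by exact_mod_cast hf1.le
  have hfR2 : (f : ℝ) ≤ 2 * D := by exact_mod_cast hf2
  have hf0 : (0 : ℝ) < f := by linarith
  have hf1R : (1 : ℝ) ≤ f := by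
    have : 1 ≤ f := by omega
    exact_mod_cast this
  have hNb : 0 ≤ (N : ℝ) / b := by positivity
  have hw0 : ∀ k : ℤ, |spl A₀ B₀ h j (c - (b : ℤ) * k)| ≤ 1 := fun k => by
    rw [abs_of_nonneg (spl_nonneg _ _ _ _ _)]
    exact spl_le_one _ _ _ _ _
  have hbk : ∀ k : ℤ, spl A₀ B₀ h j (c - (b : ℤ) * k) ≠ 0 → (b : ℤ) * |k| ≤ 3 * N :=
    fun k hk => wsupp (V := spl A₀ B₀ h j) hsupp hc hk
  have hw : ∀ k : ℤ, spl A₀ B₀ h j (c - (b : ℤ) * k) ≠ 0 → |k| ≤ (M : ℤ) := by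
    intro k hk
    have h1 := hbk k hk
    have h2 : (3 * N : ℤ) ≤ M * b := by exact_mod_cast hM
    have h3 : (b : ℤ) * |k| ≤ b * M := by linarith
    exact le_of_mul_le_mul_left h3 hb0
  have hcard := card_supp hb hbN (c := c) (V := spl A₀ B₀ h j) hsupp M
  set K := (Icc (-(M : ℤ)) M).filter (fun k => spl A₀ B₀ h j (c - (b : ℤ) * k) ≠ 0) with hK
  have h0 : ∑ k ∈ Icc (-(M : ℤ)) M, |spl A₀ B₀ h j (c - (b : ℤ) * k)| ≤ 2 * ((N : ℝ) / b) := by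
    have e1 : ∑ k ∈ Icc (-(M : ℤ)) M, |spl A₀ B₀ h j (c - (b : ℤ) * k)| =
        ∑ k ∈ K, |spl A₀ B₀ h j (c - (b : ℤ) * k)| := by
      rw [hK, sum_filter_of_ne]
      intro k _ hk hk0
      exact hk (by rw [hk0, abs_zero])
    rw [e1]
    calc _ ≤ ∑ k ∈ K, (1 : ℝ) := sum_le_sum fun k _ => hw0 k
      _ = K.card := by simp
      _ ≤ _ := hcard
  have h1 : ∑ k ∈ Icc (-(M : ℤ)) M, |(k : ℝ)| * |spl A₀ B₀ h j (c - (b : ℤ) * k)| ≤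
      6 * ((N : ℝ) / b) ^ 2 := by
    have e1 : ∑ k ∈ Icc (-(M : ℤ)) M, |(k : ℝ)| * |spl A₀ B₀ h j (c - (b : ℤ) * k)| =
        ∑ k ∈ K, |(k : ℝ)| * |spl A₀ B₀ h j (c - (b : ℤ) * k)| := by
      rw [hK, sum_filter_of_ne]
      intro k _ hk hk0
      exact hk (by rw [hk0, abs_zero, mul_zero])
    rw [e1]
    have e2 : ∀ k ∈ K, |(k : ℝ)| * |spl A₀ B₀ h j (c - (b : ℤ) * k)| ≤ 3 * ((N : ℝ) / b) := by
      intro k hk
      rw [hK, mem_filter] at hk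
      have e3 : (b : ℝ) * |(k : ℝ)| ≤ 3 * N := by exact_mod_cast hbk k hk.2
      have e4 : |(k : ℝ)| ≤ 3 * ((N : ℝ) / b) := by
        rw [← mul_div_assoc, le_div_iff₀ hbR]
        linarith
      calc |(k : ℝ)| * |spl A₀ B₀ h j (c - (b : ℤ) * k)| ≤ |(k : ℝ)| * 1 :=
            mul_le_mul_of_nonneg_left (hw0 k) (abs_nonneg _)
        _ ≤ _ := by rw [mul_one]; exact e4
    calc _ ≤ ∑ k ∈ K, 3 * ((N : ℝ) / b) := sum_le_sum e2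
      _ = K.card * (3 * ((N : ℝ) / b)) := by rw [sum_const, nsmul_eq_mul]
      _ ≤ 2 * ((N : ℝ) / b) * (3 * ((N : ℝ) / b)) :=
        mul_le_mul_of_nonneg_right hcard (by positivity)
      _ = _ := by ring
  have hV : ∑ k ∈ Icc (-(M : ℤ)) ((M : ℤ) + J),
      |(dif 1)^[J] (fun k => spl A₀ B₀ h j (c - (b : ℤ) * k)) k| ≤
      (2 * M + J + 1) * (2 * b / h : ℝ) ^ J := by
    calc _ ≤ ∑ k ∈ Icc (-(M : ℤ)) ((M : ℤ) + J), (2 * b / h : ℝ) ^ J := by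
          refine sum_le_sum fun k _ => ?_
          rw [dif_scale]
          exact spl_dif _ _ _ _ _ _ hh hJ _
      _ = _ := by
          rw [sum_const, nsmul_eq_mul, Int.card_Icc]
          have : ((M : ℤ) + J + 1 - -(M : ℤ)).toNat = 2 * M + J + 1 := by omega
          rw [this]
          push_cast
          ring
  have hmain := dual f M A J (by omega) (by omega) χ hχ
    (fun k => spl A₀ B₀ h j (c - (b : ℤ) * k)) hw _ _ _ h0 h1 hV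
  refine hmain.trans (add_le_add ?_ ?_)
  · have hsD : 0 < Real.sqrt D := Real.sqrt_pos.mpr hDR
    have hsf : Real.sqrt D ≤ Real.sqrt f := Real.sqrt_le_sqrt hfR
    have e1 : 2 / Real.sqrt f ≤ 2 / Real.sqrt D :=
      div_le_div_of_nonneg_left (by norm_num) hsD hsf
    have e2 : 2 * Real.pi / f * (6 * ((N : ℝ) / b) ^ 2) ≤ 12 * Real.pi * ((N : ℝ) / b) ^ 2 / D := by
      have e3 : 2 * Real.pi / f ≤ 2 * Real.pi / D :=
        div_le_div_of_nonneg_left (by positivity) hDR hfR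
      calc _ ≤ 2 * Real.pi / D * (6 * ((N : ℝ) / b) ^ 2) :=
            mul_le_mul_of_nonneg_right e3 (by positivity)
        _ = _ := by ring
    have e4 : 0 ≤ ∑ t ∈ Icc 1 A, ‖∑ a ∈ Ioc 0 t, χ a‖ := sum_nonneg fun t _ => norm_nonneg _
    refine mul_le_mul e1 (add_le_add (mul_le_mul_of_nonneg_right e2 e4) le_rfl) ?_ (by positivity)
    positivity
  · have e1 : Real.sqrt f ≤ 2 * D := by
      have : Real.sqrt f ≤ f := by
        rw [Real.sqrt_le_left hf0.le]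
        nlinarith
      linarith
    have e2 : (f : ℝ) / (4 * ((A : ℝ) + 1)) ≤ D / (2 * ((A : ℝ) + 1)) := by
      rw [div_le_div_iff₀ (by positivity) (by positivity)]
      have : 0 < (A : ℝ) + 1 := by positivity
      nlinarith
    have e3 : ((f : ℝ) / (4 * ((A : ℝ) + 1))) ^ J ≤ (D / (2 * ((A : ℝ) + 1))) ^ J :=
      pow_le_pow_left₀ (by positivity) e2 J
    have e4 : (D / (2 * ((A : ℝ) + 1))) ^ J * (2 * b / h : ℝ) ^ J =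
        ((D : ℝ) * b / (((A : ℝ) + 1) * h)) ^ J := by
      rw [← mul_pow]
      congr 1
      field_simp
    calc Real.sqrt f * ((f : ℝ) / (4 * ((A : ℝ) + 1))) ^ J * ((2 * M + J + 1) * (2 * b / h : ℝ) ^ J)
        ≤ 2 * D * (D / (2 * ((A : ℝ) + 1))) ^ J * ((2 * M + J + 1) * (2 * b / h : ℝ) ^ J) :=
          mul_le_mul_of_nonneg_right (mul_le_mul e1 e3 (by positivity) (by positivity))
            (by positivity)
      _ = 2 * D * (2 * M + J + 1) * ((D / (2 * ((A : ℝ) + 1))) ^ J * (2 * b / h : ℝ) ^ J) := by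
          ring
      _ = _ := by rw [e4]

private theorem SL_norm {N y f : ℕ} (hy : y ≤ N) (hψ : ∑ n ∈ Icc 1 N, (Λ n : ℝ) ≤ 2 * N)
    {χ : ℕ → ℂ} (hχ : χ ∈ pc f) : ‖SL χ y‖ ≤ 2 * N := by
  unfold SL
  calc ‖∑ n ∈ Icc 1 y, ((Λ n : ℝ) : ℂ) * χ n‖ ≤ ∑ n ∈ Icc 1 y, ‖((Λ n : ℝ) : ℂ) * χ n‖ :=
        norm_sum_le _ _
    _ ≤ ∑ n ∈ Icc 1 y, (Λ n : ℝ) := by
        refine sum_le_sum fun n _ => ?_
        rw [norm_mul, Complex.norm_real, Real.norm_of_nonneg ArithmeticFunction.vonMangoldt_nonneg]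
        exact mul_le_of_le_one_right ArithmeticFunction.vonMangoldt_nonneg (L1pAux.pc_norm hχ n)
    _ ≤ ∑ n ∈ Icc 1 N, (Λ n : ℝ) := by
        refine sum_le_sum_of_subset_of_nonneg (Icc_subset_Icc le_rfl hy) fun n _ _ => ?_
        exact ArithmeticFunction.vonMangoldt_nonneg
    _ ≤ _ := hψ

private theorem SL_total {N y D : ℕ} (hy : y ≤ N) (hψ : ∑ n ∈ Icc 1 N, (Λ n : ℝ) ≤ 2 * N) :
    ∑ f ∈ Ioc D (2 * D), ∑ χ ∈ pc f, ‖SL χ y‖ ≤ 4 * (D : ℝ) ^ 2 * N := by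
  have h1 : ∀ f ∈ Ioc D (2 * D), ∑ χ ∈ pc f, ‖SL χ y‖ ≤ 2 * D * (2 * N) := by
    intro f hf
    rw [mem_Ioc] at hf
    have hfR : (f : ℝ) ≤ 2 * D := by exact_mod_cast hf.2
    calc ∑ χ ∈ pc f, ‖SL χ y‖ ≤ ∑ χ ∈ pc f, (2 * N : ℝ) := sum_le_sum fun χ hχ => SL_norm hy hψ hχ
      _ = (pc f).card * (2 * N) := by rw [sum_const, nsmul_eq_mul]
      _ ≤ 2 * D * (2 * N) :=
        mul_le_mul_of_nonneg_right ((L1pAux.pc_card_le f).trans hfR) (by positivity)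
  calc _ ≤ ∑ f ∈ Ioc D (2 * D), (2 * D * (2 * N) : ℝ) := sum_le_sum h1
    _ = D * (2 * D * (2 * N)) := by
      rw [sum_const, nsmul_eq_mul, Nat.card_Ioc]
      congr 2
      omega
    _ = _ := by ring

private theorem main (N b D A M J j h y : ℕ) (A₀ B₀ c : ℤ) (P : ℝ) (hh : 1 ≤ h) (hJ : J ≤ j)
    (hb : 1 ≤ b) (hD : 1 ≤ D) (hAD : 2 * A ≤ D) (hbN : b ≤ N)
    (hsupp : ∀ m, spl A₀ B₀ h j m ≠ 0 → 1 ≤ m ∧ m ≤ N) (hc : |c| ≤ 2 * (N : ℤ))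
    (hM : 3 * N ≤ M * b) (hy : y ≤ N) (hψ : ∑ n ∈ Icc 1 N, (Λ n : ℝ) ≤ 2 * N)
    (hP : ∀ t ≤ A, ∑ f ∈ Ioc D (2 * D), ∑ χ ∈ pc f, ‖SL χ y‖ * ‖∑ k ∈ Ioc 0 t, χ k‖ ≤ P) :
    ∑ f ∈ Ioc D (2 * D), ∑ χ ∈ pc f, ‖SL χ y‖ *
      ‖CC (fun k => spl A₀ B₀ h j (c - (b : ℤ) * k)) M f χ‖ ≤
      80 * ((N : ℝ) / b) / Real.sqrt D * (1 + A * ((N : ℝ) / b) / D) * P +
        16 * N * (D : ℝ) ^ 3 * (2 * M + J + 1) *
          ((D : ℝ) * b / (((A : ℝ) + 1) * h)) ^ J := by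
  have hDR : (0 : ℝ) < D := by exact_mod_cast hD
  have hsD : 0 < Real.sqrt D := Real.sqrt_pos.mpr hDR
  have hP0 : 0 ≤ P := by
    refine le_trans ?_ (hP 0 (Nat.zero_le _))
    exact sum_nonneg fun f _ => sum_nonneg fun χ _ => by positivity
  set X : ℝ := ((D : ℝ) * b / (((A : ℝ) + 1) * h)) ^ J with hX
  have hX0 : 0 ≤ X := by positivity
  set z : ℝ := (N : ℝ) / b with hz
  have hz0 : 0 ≤ z := by positivity
  have h1 : ∀ f ∈ Ioc D (2 * D), ∀ χ ∈ pc f, ‖SL χ y‖ *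
      ‖CC (fun k => spl A₀ B₀ h j (c - (b : ℤ) * k)) M f χ‖ ≤
      2 / Real.sqrt D * (12 * Real.pi * z ^ 2 / D *
        ∑ t ∈ Icc 1 A, ‖SL χ y‖ * ‖∑ a ∈ Ioc 0 t, χ a‖ +
          2 * z * (‖SL χ y‖ * ‖∑ a ∈ Ioc 0 A, χ a‖)) +
      2 * D * (2 * M + J + 1) * X * ‖SL χ y‖ := by
    intro f hf χ hχ
    rw [mem_Ioc] at hf
    have e1 := one_char N b D A M J j h f A₀ B₀ c hh hJ hb hbN hD hAD hsupp hc hM hf.1 hf.2 hχ
    calc _ ≤ ‖SL χ y‖ * (2 / Real.sqrt D * (12 * Real.pi * z ^ 2 / D *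
        ∑ t ∈ Icc 1 A, ‖∑ a ∈ Ioc 0 t, χ a‖ + 2 * z * ‖∑ a ∈ Ioc 0 A, χ a‖) +
          2 * D * (2 * M + J + 1) * X) := mul_le_mul_of_nonneg_left e1 (norm_nonneg _)
      _ = _ := by
        rw [← mul_sum]
        ring
  refine (sum_le_sum fun f hf => sum_le_sum fun χ hχ => h1 f hf χ hχ).trans ?_
  simp_rw [sum_add_distrib, ← mul_sum, sum_add_distrib, ← mul_sum]
  have h2 : ∑ f ∈ Ioc D (2 * D), ∑ χ ∈ pc f, ‖SL χ y‖ * ∑ t ∈ Icc 1 A, ‖∑ a ∈ Ioc 0 t, χ a‖ ≤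
      A * P := by
    have e1 : ∑ f ∈ Ioc D (2 * D), ∑ χ ∈ pc f, ‖SL χ y‖ * ∑ t ∈ Icc 1 A, ‖∑ a ∈ Ioc 0 t, χ a‖ =
        ∑ t ∈ Icc 1 A, ∑ f ∈ Ioc D (2 * D), ∑ χ ∈ pc f, ‖SL χ y‖ * ‖∑ a ∈ Ioc 0 t, χ a‖ := by
      rw [sum_comm]
      refine sum_congr rfl fun f _ => ?_
      rw [sum_comm]
      refine sum_congr rfl fun χ _ => ?_
      rw [mul_sum]
    rw [e1]
    calc _ ≤ ∑ t ∈ Icc 1 A, P := sum_le_sum fun t ht => hP t (mem_Icc.mp ht).2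
      _ = _ := by simp
  have h3 := hP A le_rfl
  have h4 := SL_total (D := D) hy hψ
  have hc1 : 0 ≤ 12 * Real.pi * z ^ 2 / D := by positivity
  have a1 : 2 / Real.sqrt D * (12 * Real.pi * z ^ 2 / D *
      ∑ f ∈ Ioc D (2 * D), ∑ χ ∈ pc f, ‖SL χ y‖ * ∑ t ∈ Icc 1 A, ‖∑ a ∈ Ioc 0 t, χ a‖ +
      2 * z * ∑ f ∈ Ioc D (2 * D), ∑ χ ∈ pc f, ‖SL χ y‖ * ‖∑ a ∈ Ioc 0 A, χ a‖) ≤
      80 * z / Real.sqrt D * (1 + A * z / D) * P := by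
    have e1 : 12 * Real.pi * z ^ 2 / D *
      ∑ f ∈ Ioc D (2 * D), ∑ χ ∈ pc f, ‖SL χ y‖ * ∑ t ∈ Icc 1 A, ‖∑ a ∈ Ioc 0 t, χ a‖ +
      2 * z * ∑ f ∈ Ioc D (2 * D), ∑ χ ∈ pc f, ‖SL χ y‖ * ‖∑ a ∈ Ioc 0 A, χ a‖ ≤
      12 * Real.pi * z ^ 2 / D * (A * P) + 2 * z * P :=
      add_le_add (mul_le_mul_of_nonneg_left h2 hc1) (mul_le_mul_of_nonneg_left h3 (by positivity))
    have e2 : 12 * Real.pi * z ^ 2 / D * (A * P) + 2 * z * P ≤ 40 * z * (1 + A * z / D) * P := by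
      have hpi : Real.pi ≤ 3.15 := Real.pi_lt_d2.le
      have hpos : 0 ≤ z ^ 2 / D * (A * P) := by positivity
      have e3 : 12 * Real.pi * z ^ 2 / D * (A * P) = 12 * Real.pi * (z ^ 2 / D * (A * P)) := by
        ring
      have e4 : 40 * z * (1 + A * z / D) * P = 40 * z * P + 40 * (z ^ 2 / D * (A * P)) := by
        ring
      rw [e3, e4]
      have e5 : 0 ≤ z * P := by positivity
      nlinarith
    calc _ ≤ 2 / Real.sqrt D * (40 * z * (1 + A * z / D) * P) :=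
          mul_le_mul_of_nonneg_left (e1.trans e2) (by positivity)
      _ = _ := by ring
  have a2 : 2 * D * (2 * M + J + 1) * X * ∑ f ∈ Ioc D (2 * D), ∑ χ ∈ pc f, ‖SL χ y‖ ≤
      16 * N * (D : ℝ) ^ 3 * (2 * M + J + 1) * X := by
    have e1 : 0 ≤ 2 * D * (2 * M + J + 1) * X := by positivity
    have e2 : 0 ≤ N * (D : ℝ) ^ 3 * (2 * M + J + 1) * X := by positivity
    calc _ ≤ 2 * D * (2 * M + J + 1) * X * (4 * (D : ℝ) ^ 2 * N) :=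
          mul_le_mul_of_nonneg_left h4 e1
      _ = 8 * (N * (D : ℝ) ^ 3 * (2 * M + J + 1) * X) := by ring
      _ ≤ 16 * (N * (D : ℝ) ^ 3 * (2 * M + J + 1) * X) := by linarith
      _ = _ := by ring
  exact add_le_add a1 a2

end Blk

theorem blk (N q s D A M J j h y : ℕ) (A₀ B₀ c : ℤ) (P : ℝ) (hh : 1 ≤ h) (hJ : J ≤ j) (hs : 1 ≤ s)
    (hq : 1 ≤ q) (hD : 1 ≤ D) (hAD : 2 * A ≤ D) (hsq : s * q ≤ N)
    (hsupp : ∀ m, spl A₀ B₀ h j m ≠ 0 → 1 ≤ m ∧ m ≤ N) (hc : |c| ≤ 2 * (N : ℤ))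
    (hM : 3 * N ≤ M * (s * q)) (hy : y ≤ N) (hψ : ∑ n ∈ Icc 1 N, (Λ n : ℝ) ≤ 2 * N)
    (hP : ∀ t ≤ A, ∑ f ∈ Ioc D (2 * D), ∑ χ ∈ pc f, ‖SL χ y‖ * ‖∑ k ∈ Ioc 0 t, χ k‖ ≤ P) :
    ∑ f ∈ Ioc D (2 * D), ∑ χ ∈ pc f, ‖SL χ y‖ *
      ‖CC (fun k => spl A₀ B₀ h j (c - ((s * q : ℕ) : ℤ) * k)) M f χ‖ ≤
      80 * ((N : ℝ) / (s * q)) / Real.sqrt D * (1 + A * ((N : ℝ) / (s * q)) / D) * P +
        16 * N * (D : ℝ) ^ 3 * (2 * M + J + 1) *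
          ((D : ℝ) * (s * q) / (((A : ℝ) + 1) * h)) ^ J := by
  have h1 := Blk.main N (s * q) D A M J j h y A₀ B₀ c P hh hJ (Nat.mul_pos hs hq) hD hAD hsq hsupp
    hc hM hy hψ hP
  have h2 : ((s * q : ℕ) : ℝ) = (s : ℝ) * q := Nat.cast_mul s q
  rw [h2] at h1
  exact h1

end Pool.Agent.M848.SV
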