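import Pool.Agent.Lib.MP_848d44_nt.SV.Base

/-!
# MP_848d44_nt, project SV, part 2 (almost all moduli): definitions
-/

set_option autoImplicit false

noncomputable section

namespace Pool.Agent.M848.SV

open Finset Pool.Agent.M848 Pool.Agent.M848.FC

/-- The mixed difference in three variables. -/
def D3 (G : ℕ → ℕ → ℕ → ℝ) (k n q : ℕ) : ℝ :=
  (G k n q - G (k + 1) n q - G k (n + 1) q + G (k + 1) (n + 1) q) -
    (G k n (q + 1) - G (k + 1) n (q + 1) - G k (n + 1) (q + 1) + G (k + 1) (n + 1) (q + 1))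

/-- The weight as a function of `(k, n, q)`. -/
def GW (W : ℤ → ℝ) (N : ℕ) (σ : ℤ) (s k n q : ℕ) : ℝ :=
  if n ≤ N then W ((n : ℤ) + σ * ((s * k * q : ℕ) : ℤ)) else 0

end Pool.Agent.M848.SV
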