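import Pool.Agent.Lib.MP_848d44_nt.SV.Base

/-!
# MP_848d44_nt, project SV, part 1' (the full range): definitions
-/

set_option autoImplicit false

noncomputable section

namespace Pool.Agent.M848.SV

open Finset Pool.Agent.M848 Pool.Agent.M848.FC

/-- The complete sum `∑_{0 < |k| ≤ M} conj χ(k) w(k)`. -/
def CC (w : ℤ → ℝ) (M f : ℕ) (χ : ℕ → ℂ) : ℂ :=
  ∑ k ∈ Icc 1 M, (starRingEnd ℂ) (χ k) *
    (((w (k : ℤ) : ℝ) : ℂ) + χ (f - 1) * ((w (-(k : ℤ)) : ℝ) : ℂ))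

/-- The difference with step `t`. -/
def dif (t : ℕ) (V : ℤ → ℝ) (m : ℤ) : ℝ := V m - V (m - (t : ℤ))

end Pool.Agent.M848.SV
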