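import Pool.Agent.Lib.MP_848d44_nt.SV.Base

set_option autoImplicit false

/-!
# MP_848d44_nt, project SV, module Cc: basic facts about the Ramanujan sum
-/

noncomputable section

namespace Pool.Agent.M848.SV

open Finset Pool.Agent.M848 Pool.Agent.M848.FC
open scoped ArithmeticFunction.vonMangoldt ComplexConjugate

/-- The arithmetic function `d ↦ d 1_{d ∣ m}`. -/
private def gm (m : ℤ) : ArithmeticFunction ℝ :=
  ⟨fun d => if d = 0 then 0 else if (d : ℤ) ∣ m then (d : ℝ) else 0, by simp⟩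

private theorem gm_apply (m : ℤ) (d : ℕ) (hd : d ≠ 0) :
    gm m d = if (d : ℤ) ∣ m then (d : ℝ) else 0 := by
  show (if d = 0 then (0:ℝ) else if (d : ℤ) ∣ m then (d : ℝ) else 0) = _
  rw [if_neg hd]

private theorem gm_mult (m : ℤ) : (gm m).IsMultiplicative := by
  rw [ArithmeticFunction.IsMultiplicative.iff_ne_zero]
  refine ⟨by rw [gm_apply m 1 one_ne_zero]; simp, ?_⟩
  intro a b ha hb hab
  rw [gm_apply m _ (mul_ne_zero ha hb), gm_apply m a ha, gm_apply m b hb]
  have hco : IsCoprime (a : ℤ) (b : ℤ) := Nat.isCoprime_iff_coprime.2 hab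
  have key : (((a * b : ℕ) : ℤ) ∣ m) ↔ ((a : ℤ) ∣ m ∧ (b : ℤ) ∣ m) := by
    constructor
    · intro h
      push_cast at h
      exact ⟨(dvd_mul_right _ _).trans h, (dvd_mul_left _ _).trans h⟩
    · rintro ⟨h1, h2⟩
      push_cast
      exact hco.mul_dvd h1 h2
  by_cases h1 : (a : ℤ) ∣ m
  · by_cases h2 : (b : ℤ) ∣ m
    · rw [if_pos (key.2 ⟨h1, h2⟩), if_pos h1, if_pos h2]
      push_cast
      ring
    · rw [if_neg (fun h => h2 (key.1 h).2), if_neg h2]
      simp
  · rw [if_neg (fun h => h1 (key.1 h).1), if_neg h1]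
    simp

private theorem cc_eq (r : ℕ) (m : ℤ) :
    cc r m = ∑ d ∈ r.divisors, (ArithmeticFunction.moebius (r / d) : ℝ) * gm m d := by
  unfold cc
  rw [Finset.sum_filter]
  refine Finset.sum_congr rfl (fun d hd => ?_)
  have hd0 : d ≠ 0 := (Nat.pos_of_mem_divisors hd).ne'
  rw [gm_apply m d hd0]
  split_ifs with h
  · rfl
  · simp

private theorem cc_conv (r : ℕ) (m : ℤ) :
    cc r m = ((ArithmeticFunction.moebius : ArithmeticFunction ℝ) * gm m) r := by
  rw [cc_eq, ArithmeticFunction.mul_apply, Nat.sum_divisorsAntidiagonal'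
    (f := fun x y => (((ArithmeticFunction.moebius : ArithmeticFunction ℤ) :
      ArithmeticFunction ℝ) x) * gm m y)]
  refine Finset.sum_congr rfl (fun d hd => ?_)
  simp [ArithmeticFunction.intCoe_apply]

theorem cc_mul (a b : ℕ) (hab : a.Coprime b) (m : ℤ) : cc (a * b) m = cc a m * cc b m := by
  rw [cc_conv, cc_conv, cc_conv]
  exact (ArithmeticFunction.isMultiplicative_moebius.intCast.mul (gm_mult m)).map_mul_of_coprime
    hab

theorem cc_scale (r t : ℕ) (hrt : r.Coprime t) (m : ℤ) : cc r ((t : ℤ) * m) = cc r m := by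
  unfold cc
  congr 1
  refine Finset.filter_congr (fun d hd => ?_)
  have hdr : d ∣ r := Nat.dvd_of_mem_divisors hd
  have hco : IsCoprime (d : ℤ) (t : ℤ) := Nat.isCoprime_iff_coprime.2 (hrt.coprime_dvd_left hdr)
  exact ⟨fun h => hco.dvd_of_dvd_mul_left h, fun h => h.mul_left _⟩

theorem cc_cop (r : ℕ) (m : ℤ) (hm : IsCoprime (r : ℤ) m) :
    cc r m = (ArithmeticFunction.moebius r : ℝ) := by
  rcases Nat.eq_zero_or_pos r with h0 | h0
  · subst h0
    simp [cc]
  · have hf : r.divisors.filter (fun d : ℕ => (d : ℤ) ∣ m) = {1} := by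
      ext d
      simp only [Finset.mem_filter, Finset.mem_singleton, Nat.mem_divisors]
      constructor
      · rintro ⟨⟨h1, _⟩, h2⟩
        have h3 : IsCoprime (d : ℤ) m := hm.of_isCoprime_of_dvd_left (Int.natCast_dvd_natCast.2 h1)
        have h4 : IsUnit (d : ℤ) := h3.isUnit_of_dvd' dvd_rfl h2
        rcases Int.isUnit_iff.1 h4 with h5 | h5
        · exact_mod_cast h5
        · omega
      · intro h
        subst h
        exact ⟨⟨one_dvd _, h0.ne'⟩, by simp⟩
    unfold cc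
    rw [hf, Finset.sum_singleton, Nat.div_one]
    simp

theorem cc_zero (r : ℕ) (hr : 1 ≤ r) : cc r 0 = (r.totient : ℝ) := by
  have h := (ArithmeticFunction.sum_eq_iff_sum_mul_moebius_eq (R := ℝ)
    (f := fun n : ℕ => (n.totient : ℝ)) (g := fun n : ℕ => (n : ℝ))).1 (fun n _ => by
      have := Nat.sum_totient n
      exact_mod_cast this) r hr
  rw [← h, cc_eq, Nat.sum_divisorsAntidiagonal'
    (f := fun x y => ((ArithmeticFunction.moebius x : ℤ) : ℝ) * (y : ℝ))]
  refine Finset.sum_congr rfl (fun d hd => ?_)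
  rw [gm_apply 0 d (Nat.pos_of_mem_divisors hd).ne']
  simp

theorem cc_add (r : ℕ) (m z : ℤ) : cc r (m + r * z) = cc r m := by
  unfold cc
  congr 1
  refine Finset.filter_congr (fun d hd => ?_)
  have hdr : (d : ℤ) ∣ (r : ℤ) := Int.natCast_dvd_natCast.2 (Nat.dvd_of_mem_divisors hd)
  exact (dvd_add_left (hdr.mul_right z))

theorem cc_abs (r : ℕ) (m : ℤ) :
    |cc r m| ≤ ∑ d ∈ r.divisors.filter (fun d : ℕ => (d : ℤ) ∣ m), (d : ℝ) := by
  unfold cc
  refine (Finset.abs_sum_le_sum_abs _ _).trans (Finset.sum_le_sum (fun d _ => ?_))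
  rw [abs_mul, abs_of_nonneg (Nat.cast_nonneg d : (0:ℝ) ≤ (d : ℝ))]
  have h1 : |((ArithmeticFunction.moebius (r / d) : ℤ) : ℝ)| ≤ 1 := by
    have := ArithmeticFunction.abs_moebius_le_one (n := r / d)
    exact_mod_cast this
  calc |((ArithmeticFunction.moebius (r / d) : ℤ) : ℝ)| * (d : ℝ) ≤ 1 * (d : ℝ) :=
        mul_le_mul_of_nonneg_right h1 (Nat.cast_nonneg d)
    _ = (d : ℝ) := one_mul _

theorem cc_prime (p : ℕ) (hp : p.Prime) (m : ℤ) :
    cc p m = (if (p : ℤ) ∣ m then (p : ℝ) else 0) - 1 := by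
  rw [cc_eq, hp.divisors, Finset.sum_pair hp.one_lt.ne, gm_apply m 1 one_ne_zero,
    gm_apply m p hp.ne_zero, Nat.div_one, Nat.div_self hp.pos,
    ArithmeticFunction.moebius_apply_prime hp]
  simp
  ring

private theorem block (d : ℕ) (hd : 0 < d) (z : ℤ) :
    ∑ j ∈ range d, (if (d : ℤ) ∣ (j : ℤ) + z then (1 : ℕ) else 0) = 1 := by
  have hdz : (0 : ℤ) < (d : ℤ) := by exact_mod_cast hd
  obtain ⟨j₀, hj⟩ := Int.eq_ofNat_of_zero_le (Int.emod_nonneg (-z) hdz.ne')
  have hlt : (j₀ : ℤ) < d := by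
    rw [← hj]
    exact Int.emod_lt_of_pos _ hdz
  have hlt' : j₀ < d := by exact_mod_cast hlt
  rw [Finset.sum_eq_single_of_mem j₀ (Finset.mem_range.2 hlt')]
  · rw [if_pos]
    have h1 : (d : ℤ) ∣ (-z) - (-z) % d := Int.dvd_self_sub_emod
    rw [hj] at h1
    have h2 : ((j₀ : ℕ) : ℤ) + z = -((-z) - (j₀ : ℤ)) := by ring
    rw [h2]
    exact (dvd_neg).2 h1
  · intro j hj' hne
    rw [if_neg]
    intro hdv
    apply hne
    have h1 : (d : ℤ) ∣ (-z) - (-z) % d := Int.dvd_self_sub_emod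
    rw [hj] at h1
    have h3 : (d : ℤ) ∣ (j : ℤ) - (j₀ : ℤ) := by
      have := dvd_add hdv h1
      have h4 : (j : ℤ) + z + (-z - (j₀ : ℤ)) = (j : ℤ) - (j₀ : ℤ) := by ring
      rwa [h4] at this
    have hj'' : (j : ℤ) < d := by exact_mod_cast Finset.mem_range.1 hj'
    have h5 : (j : ℤ) - (j₀ : ℤ) = 0 := by
      apply Int.eq_zero_of_abs_lt_dvd h3
      rw [abs_lt]
      constructor <;> omega
    omega

private theorem cnt (d k : ℕ) (hd : 0 < d) (z : ℤ) :
    ∑ b ∈ range (d * k), (if (d : ℤ) ∣ (b : ℤ) + z then (1 : ℕ) else 0) = k := by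
  induction k with
  | zero => simp
  | succ k ih =>
    rw [Nat.mul_succ, Finset.sum_range_add, ih]
    congr 1
    refine Eq.trans ?_ (block d hd z)
    refine Finset.sum_congr rfl (fun j _ => ?_)
    have h : ((d : ℤ) ∣ (((d * k + j : ℕ) : ℤ) + z)) ↔ ((d : ℤ) ∣ (j : ℤ) + z) := by
      have e : (((d * k + j : ℕ) : ℤ) + z) = (d : ℤ) * k + ((j : ℤ) + z) := by
        push_cast
        ring
      rw [e]
      exact dvd_add_right (dvd_mul_right _ _)
    simp only [h]

private theorem cntr (d r : ℕ) (hd : d ∈ r.divisors) (z : ℤ) :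
    ∑ b ∈ range r, (if (d : ℤ) ∣ (b : ℤ) + z then (1 : ℝ) else 0) * (d : ℝ) = (r : ℝ) := by
  have hdp := Nat.pos_of_mem_divisors hd
  obtain ⟨k, hk⟩ := Nat.dvd_of_mem_divisors hd
  have h := cnt d k hdp z
  rw [← hk] at h
  rw [← Finset.sum_mul]
  have h2 : ∑ b ∈ range r, (if (d : ℤ) ∣ (b : ℤ) + z then (1 : ℝ) else 0) = (k : ℝ) := by
    have h3 := congrArg (Nat.cast : ℕ → ℝ) h
    push_cast at h3
    exact h3
  rw [h2, hk]
  push_cast
  ring

theorem cc_mean (r : ℕ) (hr : 2 ≤ r) (z : ℤ) : ∑ b ∈ range r, cc r (b + z) = 0 := by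
  have h1 : ∀ b ∈ range r, cc r (b + z) = ∑ d ∈ r.divisors,
      (ArithmeticFunction.moebius (r / d) : ℝ) *
        ((if (d : ℤ) ∣ (b : ℤ) + z then (1 : ℝ) else 0) * (d : ℝ)) := by
    intro b _
    rw [cc_eq]
    refine Finset.sum_congr rfl (fun d hd => ?_)
    rw [gm_apply _ d (Nat.pos_of_mem_divisors hd).ne']
    split_ifs <;> simp
  rw [Finset.sum_congr rfl h1, Finset.sum_comm]
  have h2 : ∀ d ∈ r.divisors, ∑ b ∈ range r, (ArithmeticFunction.moebius (r / d) : ℝ) *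
      ((if (d : ℤ) ∣ (b : ℤ) + z then (1 : ℝ) else 0) * (d : ℝ)) =
      (ArithmeticFunction.moebius (r / d) : ℝ) * (r : ℝ) := by
    intro d hd
    rw [← Finset.mul_sum, cntr d r hd z]
  rw [Finset.sum_congr rfl h2, ← Finset.sum_mul]
  have h3 : ∑ d ∈ r.divisors, ((ArithmeticFunction.moebius (r / d) : ℤ) : ℝ) = 0 := by
    rw [Nat.sum_div_divisors r (fun d => ((ArithmeticFunction.moebius d : ℤ) : ℝ))]
    have h4 : ∑ d ∈ r.divisors, ArithmeticFunction.moebius d = 0 := by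
      have h5 := ArithmeticFunction.coe_mul_zeta_apply (f := ArithmeticFunction.moebius) (x := r)
      rw [ArithmeticFunction.moebius_mul_coe_zeta] at h5
      rw [← h5, ArithmeticFunction.one_apply_ne (by omega)]
    exact_mod_cast h4
  rw [h3, zero_mul]

theorem cc_abs_mean (r : ℕ) (hr : 1 ≤ r) (z : ℤ) :
    ∑ b ∈ range r, |cc r (b + z)| ≤ r * r.divisors.card := by
  have h1 : ∀ b ∈ range r, |cc r (b + z)| ≤ ∑ d ∈ r.divisors,
      ((if (d : ℤ) ∣ (b : ℤ) + z then (1 : ℝ) else 0) * (d : ℝ)) := by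
    intro b _
    refine (cc_abs r _).trans (le_of_eq ?_)
    rw [Finset.sum_filter]
    refine Finset.sum_congr rfl (fun d hd => ?_)
    split_ifs <;> simp
  refine (Finset.sum_le_sum h1).trans (le_of_eq ?_)
  rw [Finset.sum_comm, Finset.sum_congr rfl (fun d hd => cntr d r hd z), Finset.sum_const,
    nsmul_eq_mul]
  ring

theorem cc_abs_sum (e K : ℕ) : ∑ k ∈ Icc 1 K, |cc e k| ≤ K * e.divisors.card := by
  have h1 : ∀ k ∈ Icc 1 K, |cc e k| ≤ ∑ d ∈ e.divisors,
      ((if d ∣ k then (1 : ℝ) else 0) * (d : ℝ)) := by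
    intro b _
    refine (cc_abs e _).trans (le_of_eq ?_)
    rw [Finset.sum_filter]
    refine Finset.sum_congr rfl (fun d hd => ?_)
    simp only [Int.natCast_dvd_natCast]
    split_ifs <;> simp
  refine (Finset.sum_le_sum h1).trans ?_
  rw [Finset.sum_comm]
  have h2 : ∀ d ∈ e.divisors, ∑ k ∈ Icc 1 K, ((if d ∣ k then (1 : ℝ) else 0) * (d : ℝ)) ≤
      (K : ℝ) := by
    intro d hd
    rw [← Finset.sum_mul, ← Finset.sum_filter, Finset.sum_const, nsmul_eq_mul, mul_one]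
    have h3 : (Icc 1 K).filter (fun k => d ∣ k) = (Ioc 0 K).filter (fun k => d ∣ k) := by
      rfl
    rw [h3, Nat.Ioc_filter_dvd_card_eq_div]
    have h4 : K / d * d ≤ K := Nat.div_mul_le_self K d
    exact_mod_cast h4
  refine (Finset.sum_le_sum h2).trans (le_of_eq ?_)
  rw [Finset.sum_const, nsmul_eq_mul]
  ring

end Pool.Agent.M848.SV
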