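import Pool.Agent.Lib.MP_848d44_nt.SV.Cc

set_option autoImplicit false

/-!
# MP_848d44_nt, project SV, module Corr

Correlations of Ramanujan sums: orthogonality for squarefree moduli, and a bound with absolute values.
-/

noncomputable section

namespace Pool.Agent.M848.SV

open Finset Pool.Agent.M848 Pool.Agent.M848.FC
open scoped ArithmeticFunction.vonMangoldt ComplexConjugate

namespace CorrAux

open ArithmeticFunction (moebius)

lemma sum_div {p m : ℕ} (hp : p.Prime) (hpm : ¬ p ∣ m) (f : ℕ → ℝ) :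
    ∑ d ∈ (p * m).divisors, f d = ∑ d ∈ m.divisors, (f d + f (p * d)) := by
  have hm0 : m ≠ 0 := fun h => hpm (h ▸ dvd_zero p)
  have h1 : (p * m).divisors = m.divisors ∪ m.divisors.image (fun d => p * d) := by
    ext d
    simp only [Nat.mem_divisors, mem_union, mem_image]
    constructor
    · rintro ⟨hd, _⟩
      by_cases hpd : p ∣ d
      · obtain ⟨e, rfl⟩ := hpd
        exact Or.inr ⟨e, ⟨Nat.dvd_of_mul_dvd_mul_left hp.pos hd, hm0⟩, rfl⟩
      · exact Or.inl ⟨(((Nat.Prime.coprime_iff_not_dvd hp).2 hpd).symm).dvd_of_dvd_mul_left hd, hm0⟩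
    · rintro (⟨hd, _⟩ | ⟨e, ⟨he, _⟩, rfl⟩)
      · exact ⟨hd.mul_left p, mul_ne_zero hp.ne_zero hm0⟩
      · exact ⟨Nat.mul_dvd_mul_left p he, mul_ne_zero hp.ne_zero hm0⟩
  have h2 : Disjoint m.divisors (m.divisors.image (fun d => p * d)) := by
    rw [Finset.disjoint_left]
    intro d hd hd'
    rw [Nat.mem_divisors] at hd
    obtain ⟨e, _, rfl⟩ := Finset.mem_image.1 hd'
    exact hpm ((Nat.dvd_mul_right p e).trans hd.1)
  rw [h1, Finset.sum_union h2, Finset.sum_image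
    (by intro a _ b _ h; exact Nat.eq_of_mul_eq_mul_left hp.pos h), ← Finset.sum_add_distrib]

/-- `g` if `g` divides `z`, zero otherwise. -/
def g1 (z : ℤ) (g : ℕ) : ℝ := if (g : ℤ) ∣ z then (g : ℝ) else 0

lemma g1_mul (z : ℤ) {p g : ℕ} (hc : p.Coprime g) :
    g1 z (p * g) = (if (p : ℤ) ∣ z then (p : ℝ) else 0) * g1 z g := by
  unfold g1
  have h : ((p * g : ℕ) : ℤ) ∣ z ↔ (p : ℤ) ∣ z ∧ (g : ℤ) ∣ z := by
    rw [Nat.cast_mul]
    constructor
    · intro h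
      exact ⟨(Dvd.intro _ rfl).trans h, (Dvd.intro_left _ rfl).trans h⟩
    · rintro ⟨h1, h2⟩
      exact IsCoprime.mul_dvd (Nat.isCoprime_iff_coprime.2 hc) h1 h2
  by_cases h1 : (p : ℤ) ∣ z
  · by_cases h2 : (g : ℤ) ∣ z
    · rw [if_pos (h.2 ⟨h1, h2⟩), if_pos h1, if_pos h2]
      push_cast
      ring
    · rw [if_neg (fun h3 => h2 (h.1 h3).2), if_neg h2, mul_zero]
  · rw [if_neg (fun h3 => h1 (h.1 h3).1), if_neg h1, zero_mul]

/-- The double sum. -/
def GG (r r' : ℕ) (z : ℤ) : ℝ :=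
  ∑ d ∈ r.divisors, ∑ d' ∈ r'.divisors,
    (moebius (r / d) : ℝ) * (moebius (r' / d') : ℝ) * g1 z (d.gcd d')

lemma mu_left {p m d : ℕ} (hp : p.Prime) (hpm : ¬ p ∣ m) (hd : d ∈ m.divisors) :
    (moebius (p * m / d) : ℝ) = - (moebius (m / d) : ℝ) := by
  have hdm := (Nat.mem_divisors.1 hd).1
  rw [Nat.mul_div_assoc p hdm]
  have hc : p.Coprime (m / d) := by
    rw [Nat.Prime.coprime_iff_not_dvd hp]
    exact fun h => hpm (h.trans (Nat.div_dvd_of_dvd hdm))
  rw [ArithmeticFunction.isMultiplicative_moebius.map_mul_of_coprime hc,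
    ArithmeticFunction.moebius_apply_prime hp]
  push_cast
  ring

lemma mu_right {p m d : ℕ} (hp : p.Prime) :
    (moebius (p * m / (p * d)) : ℝ) = (moebius (m / d) : ℝ) := by
  rw [Nat.mul_div_mul_left _ _ hp.pos]

lemma cop_of {p m d : ℕ} (hp : p.Prime) (hpm : ¬ p ∣ m) (hd : d ∈ m.divisors) : p.Coprime d := by
  rw [Nat.Prime.coprime_iff_not_dvd hp]
  exact fun h => hpm (h.trans (Nat.mem_divisors.1 hd).1)

lemma GG_left {p m : ℕ} (hp : p.Prime) (hpm : ¬ p ∣ m) (r' : ℕ) (hr' : ¬ p ∣ r') (z : ℤ) :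
    GG (p * m) r' z = 0 := by
  unfold GG
  rw [sum_div hp hpm]
  refine Finset.sum_eq_zero fun d hd => ?_
  rw [← Finset.sum_add_distrib]
  refine Finset.sum_eq_zero fun d' hd' => ?_
  have h1 : (p * d).gcd d' = d.gcd d' :=
    Nat.Coprime.gcd_mul_left_cancel d (cop_of hp hr' hd')
  rw [mu_left hp hpm hd, mu_right hp, h1]
  ring

lemma GG_comm (r r' : ℕ) (z : ℤ) : GG r r' z = GG r' r z := by
  unfold GG
  rw [Finset.sum_comm]
  refine Finset.sum_congr rfl fun d hd => Finset.sum_congr rfl fun d' hd' => ?_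
  rw [Nat.gcd_comm]
  ring

lemma GG_both {p m m' : ℕ} (hp : p.Prime) (hpm : ¬ p ∣ m) (hpm' : ¬ p ∣ m') (z : ℤ) :
    GG (p * m) (p * m') z = ((if (p : ℤ) ∣ z then (p : ℝ) else 0) - 1) * GG m m' z := by
  unfold GG
  rw [sum_div hp hpm, Finset.mul_sum]
  refine Finset.sum_congr rfl fun d hd => ?_
  rw [sum_div hp hpm', sum_div hp hpm', ← Finset.sum_add_distrib, Finset.mul_sum]
  refine Finset.sum_congr rfl fun d' hd' => ?_
  have hc := cop_of hp hpm hd
  have hc' := cop_of hp hpm' hd'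
  have h1 : (p * d).gcd d' = d.gcd d' := Nat.Coprime.gcd_mul_left_cancel d hc'
  have h2 : d.gcd (p * d') = d.gcd d' := by
    rw [Nat.gcd_comm, Nat.Coprime.gcd_mul_left_cancel d' hc, Nat.gcd_comm]
  have h3 : (p * d).gcd (p * d') = p * d.gcd d' := Nat.gcd_mul_left p d d'
  have h4 : p.Coprime (d.gcd d') := Nat.Coprime.coprime_dvd_right (Nat.gcd_dvd_left d d') hc
  rw [mu_left hp hpm hd, mu_left hp hpm' hd', mu_right hp, mu_right hp, h1, h2, h3,
    g1_mul z h4]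
  ring

lemma cc_one (z : ℤ) : cc 1 z = 1 := by
  unfold cc
  simp [Finset.filter_singleton]

lemma GG_eq : ∀ r r' : ℕ, Squarefree r → Squarefree r' → ∀ z : ℤ,
    GG r r' z = if r = r' then cc r z else 0 := by
  intro r
  induction r using Nat.strong_induction_on with
  | _ r ih =>
    intro r' hr hr' z
    by_cases h1 : r = 1
    · subst h1
      by_cases h2 : r' = 1
      · subst h2
        rw [if_pos rfl, cc_one]
        unfold GG g1
        simp
      · obtain ⟨p, hp, m', rfl⟩ := Nat.exists_prime_and_dvd h2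
        have hpm' : ¬ p ∣ m' := by
          rintro ⟨k, rfl⟩
          have := hr' p ⟨k, by ring⟩
          exact hp.one_lt.ne' (Nat.isUnit_iff.1 this)
        rw [if_neg (fun h => h2 h.symm), GG_comm]
        exact GG_left hp hpm' 1 (fun h => hp.one_lt.ne' (Nat.dvd_one.1 h)) z
    · obtain ⟨p, hp, m, rfl⟩ := Nat.exists_prime_and_dvd h1
      have hpm : ¬ p ∣ m := by
        rintro ⟨k, rfl⟩
        have := hr p ⟨k, by ring⟩
        exact hp.one_lt.ne' (Nat.isUnit_iff.1 this)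
      have hm0 : m ≠ 0 := fun h => hpm (h ▸ dvd_zero p)
      by_cases h2 : p ∣ r'
      · obtain ⟨m', rfl⟩ := h2
        have hpm' : ¬ p ∣ m' := by
          rintro ⟨k, rfl⟩
          have := hr' p ⟨k, by ring⟩
          exact hp.one_lt.ne' (Nat.isUnit_iff.1 this)
        have hlt : m < p * m := by
          have := Nat.pos_of_ne_zero hm0
          nlinarith [hp.two_le]
        rw [GG_both hp hpm hpm', ih m hlt m' (hr.of_mul_right) (hr'.of_mul_right) z]
        by_cases h3 : m = m'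
        · subst h3
          rw [if_pos rfl, if_pos rfl, cc_mul p m ((Nat.Prime.coprime_iff_not_dvd hp).2 hpm) z,
            cc_prime p hp z]
        · rw [if_neg h3, if_neg (fun h => h3 (Nat.eq_of_mul_eq_mul_left hp.pos h)), mul_zero]
      · rw [GG_left hp hpm r' h2 z, if_neg]
        rintro rfl
        exact h2 (Dvd.intro _ rfl)

lemma count (d d' k : ℕ) (hd : 1 ≤ d) (hd' : 1 ≤ d') (z : ℤ) :
    (((range (k * d.lcm d')).filter
      (fun b : ℕ => (d : ℤ) ∣ (b : ℤ) ∧ (d' : ℤ) ∣ (b : ℤ) + z)).card : ℝ) =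
      if ((d.gcd d' : ℕ) : ℤ) ∣ z then (k : ℝ) else 0 := by
  have hL : 0 < d.lcm d' := Nat.lcm_pos hd hd'
  by_cases hg : ((d.gcd d' : ℕ) : ℤ) ∣ z
  · rw [if_pos hg]
    obtain ⟨t, ht⟩ := hg
    -- a solution
    obtain ⟨v, hv1, hv2⟩ : ∃ v : ℤ, (d : ℤ) ∣ v ∧ (d' : ℤ) ∣ v + z := by
      refine ⟨- (d : ℤ) * (Nat.gcdA d d' * t), ⟨- (Nat.gcdA d d' * t), by ring⟩, ?_⟩
      have h := Nat.gcd_eq_gcd_ab d d'
      rw [ht, h]
      exact ⟨Nat.gcdB d d' * t, by ring⟩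
    have h1 : ∀ b : ℤ, ((d : ℤ) ∣ b ∧ (d' : ℤ) ∣ b + z) ↔ b ≡ v [ZMOD ((d.lcm d' : ℕ) : ℤ)] := by
      intro b
      have e1 : ((d : ℤ) ∣ b) ↔ (d : ℤ) ∣ b - v := by
        constructor
        · intro h; exact dvd_sub h hv1
        · intro h; have := dvd_add h hv1; rwa [sub_add_cancel] at this
      have e2 : ((d' : ℤ) ∣ b + z) ↔ (d' : ℤ) ∣ b - v := by
        constructor
        · intro h
          have := dvd_sub h hv2
          rwa [add_sub_add_right_eq_sub] at this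
        · intro h
          have := dvd_add h hv2
          have e : b - v + (v + z) = b + z := by ring
          rwa [e] at this
      rw [e1, e2, Int.modEq_comm, Int.modEq_iff_dvd]
      constructor
      · rintro ⟨h1, h2⟩
        exact Int.natCast_dvd.2 (Nat.lcm_dvd (Int.natCast_dvd.1 h1) (Int.natCast_dvd.1 h2))
      · intro h
        exact ⟨(Int.natCast_dvd_natCast.2 (Nat.dvd_lcm_left d d')).trans h,
          (Int.natCast_dvd_natCast.2 (Nat.dvd_lcm_right d d')).trans h⟩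
    have h2 : ((range (k * d.lcm d')).filter
        (fun b : ℕ => (d : ℤ) ∣ (b : ℤ) ∧ (d' : ℤ) ∣ (b : ℤ) + z)).card =
        ((Ico (0 : ℤ) ((k * d.lcm d' : ℕ) : ℤ)).filter
          (fun x => x ≡ v [ZMOD ((d.lcm d' : ℕ) : ℤ)])).card := by
      refine Finset.card_bij (fun b _ => (b : ℤ)) ?_ ?_ ?_
      · intro b hb
        rw [Finset.mem_filter, Finset.mem_range] at hb
        rw [Finset.mem_filter, Finset.mem_Ico]
        exact ⟨⟨Int.natCast_nonneg b, by exact_mod_cast hb.1⟩, (h1 b).1 hb.2⟩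
      · intro a _ b _ h
        exact_mod_cast h
      · intro x hx
        rw [Finset.mem_filter, Finset.mem_Ico] at hx
        lift x to ℕ using hx.1.1
        refine ⟨x, ?_, rfl⟩
        rw [Finset.mem_filter, Finset.mem_range]
        exact ⟨by exact_mod_cast hx.1.2, (h1 x).2 hx.2⟩
    have h3 := Int.Ico_filter_modEq_card (0 : ℤ) ((k * d.lcm d' : ℕ) : ℤ)
      (r := ((d.lcm d' : ℕ) : ℤ)) (by exact_mod_cast hL) v
    have hLq : (((d.lcm d' : ℕ) : ℤ) : ℚ) ≠ 0 := by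
      have : ((d.lcm d' : ℕ) : ℚ) ≠ 0 := by exact_mod_cast hL.ne'
      exact_mod_cast this
    have h4 : ((((k * d.lcm d' : ℕ) : ℤ) : ℚ) - (v : ℚ)) / (((d.lcm d' : ℕ) : ℤ) : ℚ) =
        ((0 : ℤ) - (v : ℚ)) / (((d.lcm d' : ℕ) : ℤ) : ℚ) + ((k : ℤ) : ℚ) := by
      field_simp
      push_cast
      ring
    rw [h4, Int.ceil_add_intCast] at h3
    have h5 : ((((Ico (0 : ℤ) ((k * d.lcm d' : ℕ) : ℤ)).filter
          (fun x => x ≡ v [ZMOD ((d.lcm d' : ℕ) : ℤ)])).card : ℕ) : ℤ) = (k : ℤ) := by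
      rw [h3, add_sub_cancel_left]
      exact max_eq_left (Int.natCast_nonneg k)
    rw [h2]
    exact_mod_cast h5
  · rw [if_neg hg]
    have : (range (k * d.lcm d')).filter
      (fun b : ℕ => (d : ℤ) ∣ (b : ℤ) ∧ (d' : ℤ) ∣ (b : ℤ) + z) = ∅ := by
      rw [Finset.filter_eq_empty_iff]
      rintro b _ ⟨h1, h2⟩
      apply hg
      have e1 : ((d.gcd d' : ℕ) : ℤ) ∣ (b : ℤ) :=
        (Int.natCast_dvd_natCast.2 (Nat.gcd_dvd_left d d')).trans h1
      have e2 : ((d.gcd d' : ℕ) : ℤ) ∣ (b : ℤ) + z :=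
        (Int.natCast_dvd_natCast.2 (Nat.gcd_dvd_right d d')).trans h2
      exact (dvd_add_right e1).1 e2
    rw [this]
    simp

/-- The weighted count. -/
lemma wcount (r r' d d' : ℕ) (hr : 1 ≤ r) (hr' : 1 ≤ r') (hd : d ∣ r) (hd' : d' ∣ r') (z : ℤ) :
    ∑ b ∈ range (r * r'), (if (d : ℤ) ∣ (b : ℤ) then (d : ℝ) else 0) *
      (if (d' : ℤ) ∣ (b : ℤ) + z then (d' : ℝ) else 0) =
      (r * r' : ℝ) * g1 z (d.gcd d') := by
  have hd1 : 1 ≤ d := Nat.pos_of_dvd_of_pos hd hr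
  have hd1' : 1 ≤ d' := Nat.pos_of_dvd_of_pos hd' hr'
  obtain ⟨k, hk⟩ : d.lcm d' ∣ r * r' :=
    Nat.lcm_dvd (hd.mul_right r') (hd'.mul_left r)
  have h1 : ∑ b ∈ range (r * r'), (if (d : ℤ) ∣ (b : ℤ) then (d : ℝ) else 0) *
      (if (d' : ℤ) ∣ (b : ℤ) + z then (d' : ℝ) else 0) =
      (d * d' : ℝ) * (((range (r * r')).filter
      (fun b : ℕ => (d : ℤ) ∣ (b : ℤ) ∧ (d' : ℤ) ∣ (b : ℤ) + z)).card : ℝ) := by
    rw [Finset.card_filter, Nat.cast_sum, Finset.mul_sum]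
    refine Finset.sum_congr rfl fun b _ => ?_
    by_cases h1 : (d : ℤ) ∣ (b : ℤ)
    · by_cases h2 : (d' : ℤ) ∣ (b : ℤ) + z
      · rw [if_pos h1, if_pos h2, if_pos ⟨h1, h2⟩]
        push_cast
        ring
      · simp [h2]
    · simp [h1]
  rw [h1, hk, mul_comm (d.lcm d') k, count d d' k hd1 hd1' z]
  unfold g1
  have hrr : (r * r' : ℝ) = (d.lcm d' : ℝ) * k := by exact_mod_cast hk
  have hgl : (d * d' : ℝ) = (d.gcd d' : ℝ) * (d.lcm d' : ℝ) := by
    exact_mod_cast (Nat.gcd_mul_lcm d d').symm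
  split_ifs
  · rw [hrr, hgl]
    ring
  · ring

lemma cc_eq (r : ℕ) (m : ℤ) :
    cc r m = ∑ d ∈ r.divisors, (moebius (r / d) : ℝ) * (if (d : ℤ) ∣ m then (d : ℝ) else 0) := by
  unfold cc
  rw [Finset.sum_filter]
  refine Finset.sum_congr rfl fun d _ => ?_
  split_ifs <;> simp

lemma corr_eq (r r' : ℕ) (hr : 1 ≤ r) (hr' : 1 ≤ r') (z : ℤ) :
    ∑ b ∈ range (r * r'), cc r b * cc r' (b + z) = (r * r' : ℝ) * GG r r' z := by
  have h1 : ∀ b ∈ range (r * r'), cc r b * cc r' (b + z) =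
      ∑ d ∈ r.divisors, ∑ d' ∈ r'.divisors, ((moebius (r / d) : ℝ) * (moebius (r' / d') : ℝ)) *
        ((if (d : ℤ) ∣ (b : ℤ) then (d : ℝ) else 0) *
      (if (d' : ℤ) ∣ (b : ℤ) + z then (d' : ℝ) else 0)) := by
    intro b _
    rw [cc_eq r, cc_eq r', Finset.sum_mul_sum]
    refine Finset.sum_congr rfl fun d _ => Finset.sum_congr rfl fun d' _ => ?_
    ring
  rw [Finset.sum_congr rfl h1, Finset.sum_comm]
  unfold GG
  rw [Finset.mul_sum]
  refine Finset.sum_congr rfl fun d hd => ?_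
  rw [Finset.sum_comm, Finset.mul_sum]
  refine Finset.sum_congr rfl fun d' hd' => ?_
  rw [← Finset.mul_sum, wcount r r' d d' hr hr' (Nat.mem_divisors.1 hd).1
    (Nat.mem_divisors.1 hd').1 z]
  ring

end CorrAux

open CorrAux in
theorem cc_corr (r r' : ℕ) (hr : Squarefree r) (hr' : Squarefree r') (z : ℤ) :
    ∑ b ∈ range (r * r'), cc r b * cc r' (b + z) = if r = r' then (r * r' : ℝ) * cc r z else 0 := by
  rw [corr_eq r r' (Nat.pos_of_ne_zero hr.ne_zero) (Nat.pos_of_ne_zero hr'.ne_zero) z,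
    CorrAux.GG_eq r r' hr hr' z]
  split_ifs
  · rfl
  · ring

open CorrAux in
theorem cc_corr_abs (r r' : ℕ) (hr : 1 ≤ r) (hr' : 1 ≤ r') (z : ℤ) :
    ∑ b ∈ range (r * r'), |cc r b| * |cc r' (b + z)| ≤
      (r * r' : ℝ) * (r.divisors.card * r'.divisors.card * (r.gcd r' : ℝ)) := by
  have h1 : ∀ b ∈ range (r * r'), |cc r b| * |cc r' (b + z)| ≤
      ∑ d ∈ r.divisors, ∑ d' ∈ r'.divisors,
        ((if (d : ℤ) ∣ (b : ℤ) then (d : ℝ) else 0) *
      (if (d' : ℤ) ∣ (b : ℤ) + z then (d' : ℝ) else 0)) := by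
    intro b _
    rw [← Finset.sum_mul_sum, ← Finset.sum_filter, ← Finset.sum_filter]
    exact mul_le_mul (cc_abs r b) (cc_abs r' (b + z)) (abs_nonneg _)
      (Finset.sum_nonneg fun _ _ => Nat.cast_nonneg _)
  refine (Finset.sum_le_sum h1).trans ?_
  rw [Finset.sum_comm]
  have h2 : ∀ d ∈ r.divisors, ∑ b ∈ range (r * r'), ∑ d' ∈ r'.divisors,
        ((if (d : ℤ) ∣ (b : ℤ) then (d : ℝ) else 0) *
      (if (d' : ℤ) ∣ (b : ℤ) + z then (d' : ℝ) else 0)) ≤
      (r * r' : ℝ) * (r'.divisors.card * (r.gcd r' : ℝ)) := by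
    intro d hd
    rw [Finset.sum_comm]
    have h3 : ∀ d' ∈ r'.divisors, ∑ b ∈ range (r * r'),
        ((if (d : ℤ) ∣ (b : ℤ) then (d : ℝ) else 0) *
      (if (d' : ℤ) ∣ (b : ℤ) + z then (d' : ℝ) else 0)) ≤ (r * r' : ℝ) * (r.gcd r' : ℝ) := by
      intro d' hd'
      rw [wcount r r' d d' hr hr' (Nat.mem_divisors.1 hd).1 (Nat.mem_divisors.1 hd').1 z]
      refine mul_le_mul_of_nonneg_left ?_ (by positivity)
      unfold g1
      have hle : d.gcd d' ≤ r.gcd r' := Nat.le_of_dvd (Nat.gcd_pos_of_pos_left _ hr)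
        (Nat.gcd_dvd_gcd_of_dvd_left _ (Nat.mem_divisors.1 hd).1 |>.trans
          (Nat.gcd_dvd_gcd_of_dvd_right _ (Nat.mem_divisors.1 hd').1))
      split_ifs
      · exact_mod_cast hle
      · positivity
    refine (Finset.sum_le_sum h3).trans ?_
    rw [Finset.sum_const, nsmul_eq_mul]
    exact le_of_eq (by ring)
  refine (Finset.sum_le_sum h2).trans ?_
  rw [Finset.sum_const, nsmul_eq_mul]
  exact le_of_eq (by ring)

end Pool.Agent.M848.SV
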