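import Pool.Agent.Lib.MP_848d44_nt.SV.Base
import Pool.Agent.Lib.MP_848d44_nt.F.Selk
import Pool.Agent.Lib.MP_848d44_nt.F.L1r

set_option autoImplicit false

/-!
# MP_848d44_nt, project SV, module Jlow: the sum `J`

For `m` in `(R₀, R]` let `rho m` be the product of the primes of `m` not dividing `q`. The `m` with
`rho m > R₀` contribute at most `(q / φ(q)) J` to the harmonic sum. The others are `m = l c² a` with
`l` composed of primes of `q`, `a` squarefree coprime to `q` and `a ≤ R₀ < l c² a`, and contribute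
at most `(q / φ(q)) (C + 2 ∑_{p ∣ q} log p / (p - 1)) = O((1 + log N) ^ (3/4))`.
-/

noncomputable section

namespace Pool.Agent.M848.SV

open Finset Pool.Agent.M848 Pool.Agent.M848.FC
open scoped ArithmeticFunction.vonMangoldt ComplexConjugate

namespace Jl

/-- The homomorphism `n ↦ 1/n`. -/
private def ih : ℕ →* ℝ where
  toFun := fun x => ((x : ℝ))⁻¹
  map_one' := by simp
  map_mul' := by
    intro x y
    push_cast
    exact mul_inv _ _

theorem div_tot (n : ℕ) (hn : 1 ≤ n) :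
    (n : ℝ) / n.totient = ∏ p ∈ n.primeFactors with p.Prime, (1 - ((p : ℝ))⁻¹)⁻¹ := by
  have h4 : (n.totient : ℝ) = n * ∏ p ∈ n.primeFactors, (1 - (p : ℝ)⁻¹) := by
    have h5 := Nat.totient_eq_mul_prod_factors n
    have h6 := congrArg (fun x : ℚ => (x : ℝ)) h5
    push_cast at h6
    exact h6
  have h7 : (n : ℝ) ≠ 0 := by
    have : (0 : ℝ) < n := by exact_mod_cast hn
    exact this.ne'
  have h8 : n.primeFactors.filter (fun p => p.Prime) = n.primeFactors := by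
    rw [filter_eq_self]
    intro p hp
    exact Nat.prime_of_mem_primeFactors hp
  rw [h4, ← div_div, div_self h7, one_div, ← prod_inv_distrib, h8]

theorem fac_sum (n : ℕ) (hn : 1 ≤ n) (M : Finset ℕ)
    (hM : ∀ m ∈ M, m ∈ Nat.factoredNumbers n.primeFactors) :
    ∑ m ∈ M, 1 / (m : ℝ) ≤ (n : ℝ) / n.totient := by
  have h := (EulerProduct.summable_and_hasSum_factoredNumbers_prod_filter_prime_geometric
    (f := ih) (by
      intro p hp
      have h2 : (2 : ℝ) ≤ p := by exact_mod_cast hp.two_le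
      have h3 : ih p = ((p : ℝ))⁻¹ := rfl
      rw [h3, Real.norm_of_nonneg (by positivity)]
      exact inv_lt_one_of_one_lt₀ (by linarith)) n.primeFactors).2
  rw [div_tot n hn]
  have h2 := sum_le_hasSum (M.subtype (fun m => m ∈ Nat.factoredNumbers n.primeFactors))
    (by
      intro i _
      have h3 : ih i.1 = ((i.1 : ℝ))⁻¹ := rfl
      rw [h3]
      positivity) h
  refine le_trans (le_of_eq ?_) h2
  rw [sum_subtype_of_mem (f := fun m : ℕ => ih m) hM]
  refine sum_congr rfl fun m _ => ?_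
  rw [one_div]
  rfl

theorem tot_pos' {n : ℕ} (hn : 1 ≤ n) : (0 : ℝ) < n.totient := by
  exact_mod_cast Nat.totient_pos.mpr hn

/-- The product of the primes of `m` which do not divide `q`. -/
private def rho (q m : ℕ) : ℕ := ∏ p ∈ m.primeFactors \ q.primeFactors, p

private theorem rho_pf (q m : ℕ) : (rho q m).primeFactors = m.primeFactors \ q.primeFactors := by
  unfold rho
  exact Nat.primeFactors_prod fun p hp => Nat.prime_of_mem_primeFactors (mem_sdiff.mp hp).1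

private theorem rho_pos (q m : ℕ) : 0 < rho q m := by
  unfold rho
  exact prod_pos fun p hp => (Nat.prime_of_mem_primeFactors (mem_sdiff.mp hp).1).pos

private theorem rho_dvd (q m : ℕ) : rho q m ∣ m := by
  unfold rho
  exact (prod_dvd_prod_of_subset _ _ _ sdiff_subset).trans (Nat.prod_primeFactors_dvd m)

private theorem rho_sf (q m : ℕ) : Squarefree (rho q m) := by
  unfold rho
  refine Finset.squarefree_prod_of_pairwise_isCoprime (fun p hp r hr hpr => ?_) fun p hp => ?_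
  · have hp2 := Nat.prime_of_mem_primeFactors (mem_sdiff.mp (mem_coe.mp hp)).1
    have hr2 := Nat.prime_of_mem_primeFactors (mem_sdiff.mp (mem_coe.mp hr)).1
    show IsRelPrime p r
    rw [← Nat.coprime_iff_isRelPrime]
    exact (Nat.coprime_primes hp2 hr2).mpr hpr
  · exact (Nat.prime_of_mem_primeFactors (mem_sdiff.mp hp).1).squarefree

private theorem rho_cop (q m : ℕ) (hq : 1 ≤ q) : (rho q m).Coprime q := by
  rw [← Nat.disjoint_primeFactors (rho_pos q m).ne' (by omega), rho_pf]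
  exact sdiff_disjoint

private theorem rho_le {q m : ℕ} (hm : 1 ≤ m) : rho q m ≤ m := Nat.le_of_dvd hm (rho_dvd q m)

private theorem rho_fac {q m r : ℕ} (hq : 1 ≤ q) (hm : 1 ≤ m) (h : rho q m = r) :
    m / r ∈ Nat.factoredNumbers (q * r).primeFactors := by
  have hr : 0 < r := by
    rw [← h]
    exact rho_pos q m
  have hd : r ∣ m := by
    rw [← h]
    exact rho_dvd q m
  have hpos : 0 < m / r := Nat.div_pos (Nat.le_of_dvd hm hd) hr
  rw [Nat.mem_factoredNumbers_iff_primeFactors_subset]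
  refine ⟨hpos.ne', fun p hp => ?_⟩
  have hp2 : p ∈ m.primeFactors :=
    Nat.primeFactors_mono (Nat.div_dvd_of_dvd hd) (by omega) hp
  rw [Nat.primeFactors_mul (by omega) (by omega), mem_union]
  by_cases hpq : p ∈ q.primeFactors
  · exact Or.inl hpq
  · right
    rw [← h, rho_pf, mem_sdiff]
    exact ⟨hp2, hpq⟩

private theorem fiber_le {q r : ℕ} (hq : 1 ≤ q) (hr : 1 ≤ r) (hc : r.Coprime q) (M : Finset ℕ)
    (hM : ∀ m ∈ M, 1 ≤ m ∧ rho q m = r) :
    ∑ m ∈ M, 1 / (m : ℝ) ≤ (q : ℝ) / q.totient * (1 / (r.totient : ℝ)) := by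
  have hrR : (0 : ℝ) < r := by exact_mod_cast hr
  have h1 : ∀ m ∈ M, 1 / (m : ℝ) = 1 / (r : ℝ) * (1 / ((m / r : ℕ) : ℝ)) := by
    intro m hm
    have hd : r ∣ m := by
      rw [← (hM m hm).2]
      exact rho_dvd q m
    rw [Nat.cast_div hd hrR.ne']
    have : (0 : ℝ) < m := by exact_mod_cast (hM m hm).1
    field_simp
  rw [sum_congr rfl h1, ← mul_sum]
  have hinj : ∀ a ∈ M, ∀ b ∈ M, a / r = b / r → a = b := by
    intro a ha b hb hab
    have hda : r ∣ a := by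
      rw [← (hM a ha).2]
      exact rho_dvd q a
    have hdb : r ∣ b := by
      rw [← (hM b hb).2]
      exact rho_dvd q b
    rw [← Nat.div_mul_cancel hda, ← Nat.div_mul_cancel hdb, hab]
  have h2 : ∑ m ∈ M, 1 / ((m / r : ℕ) : ℝ) = ∑ x ∈ M.image (fun m => m / r), 1 / (x : ℝ) := by
    rw [sum_image hinj]
  rw [h2]
  have h3 := fac_sum (q * r) (Nat.mul_pos hq hr) (M.image (fun m => m / r)) (by
    intro x hx
    obtain ⟨m, hm, rfl⟩ := mem_image.mp hx
    exact rho_fac hq (hM m hm).1 (hM m hm).2)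
  have h4 : ((q * r : ℕ) : ℝ) / ((q * r).totient : ℕ) = (q : ℝ) / q.totient * ((r : ℝ) / r.totient) := by
    rw [Nat.totient_mul hc.symm]
    push_cast
    rw [mul_div_mul_comm]
  rw [h4] at h3
  calc 1 / (r : ℝ) * ∑ x ∈ M.image (fun m => m / r), 1 / (x : ℝ)
      ≤ 1 / (r : ℝ) * ((q : ℝ) / q.totient * ((r : ℝ) / r.totient)) :=
        mul_le_mul_of_nonneg_left h3 (by positivity)
    _ = (q : ℝ) / q.totient * (1 / (r.totient : ℝ)) := by
        have := tot_pos' hr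
        field_simp

private theorem partA {q : ℕ} (hq : 1 ≤ q) (R₀ R : ℕ) :
    ∑ m ∈ (Ioc R₀ R).filter (fun m => R₀ < rho q m), 1 / (m : ℝ) ≤
      (q : ℝ) / q.totient * JJ q R₀ R := by
  unfold JJ
  rw [mul_sum, ← sum_fiberwise_of_maps_to (s := (Ioc R₀ R).filter (fun m => R₀ < rho q m))
    (t := RS q R₀ R) (g := fun m => rho q m) (f := fun m : ℕ => 1 / (m : ℝ))]
  · refine sum_le_sum fun r hr => ?_
    unfold RS at hr
    rw [mem_filter, mem_Ioc] at hr
    refine fiber_le hq (by omega) hr.2.2 _ ?_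
    intro m hm
    rw [mem_filter, mem_filter, mem_Ioc] at hm
    exact ⟨by omega, hm.2⟩
  · intro m hm
    rw [mem_filter, mem_Ioc] at hm
    unfold RS
    rw [mem_filter, mem_Ioc]
    exact ⟨⟨hm.2, (rho_le (by omega)).trans hm.1.2⟩, rho_sf q m, rho_cop q m hq⟩

private theorem tail_inv (b : ℕ) (X : ℕ) (hX : b + 1 ≤ X) :
    ∑ a ∈ Ioc b X, 1 / (a : ℝ) ≤ 1 + Real.log (X / (b + 1)) := by
  induction X, hX using Nat.le_induction with
  | base =>
    have h1 : Ioc b (b + 1) = {b + 1} := by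
      ext x
      simp only [mem_Ioc, mem_singleton]
      omega
    rw [h1, sum_singleton]
    push_cast
    rw [div_self (by positivity), Real.log_one, add_zero, div_le_one (by positivity)]
    have : (0 : ℝ) ≤ b := by positivity
    linarith
  | succ X hX ih =>
    rw [sum_Ioc_succ_top (by omega)]
    have hX0 : (0 : ℝ) < X := by
      have : 0 < X := by omega
      exact_mod_cast this
    have hb0 : (0 : ℝ) < (b : ℝ) + 1 := by positivity
    have h2 : Real.log (((X + 1 : ℕ) : ℝ) / (b + 1)) =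
        Real.log (X / (b + 1)) - Real.log (X / (X + 1)) := by
      push_cast
      rw [Real.log_div (by positivity) hb0.ne', Real.log_div hX0.ne' hb0.ne',
        Real.log_div hX0.ne' (by positivity)]
      ring
    have h3 : Real.log ((X : ℝ) / (X + 1)) ≤ (X : ℝ) / (X + 1) - 1 :=
      Real.log_le_sub_one_of_pos (by positivity)
    have h4 : (X : ℝ) / (X + 1) - 1 = - (1 / ((X : ℝ) + 1)) := by
      field_simp
      ring
    rw [h2]
    push_cast
    linarith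

/-- The sum of `1/a` over `a ≤ X < K a`. -/
private theorem short_inv (X K : ℕ) (hK : 1 ≤ K) :
    ∑ a ∈ (Icc 1 X).filter (fun a => X < K * a), 1 / (a : ℝ) ≤ 1 + Real.log K := by
  have hKR : (1 : ℝ) ≤ K := by exact_mod_cast hK
  by_cases hX : X = 0
  · subst hX
    simp
    exact add_nonneg zero_le_one (Real.log_nonneg hKR)
  · by_cases hK1 : K = 1
    · subst hK1
      have : (Icc 1 X).filter (fun a => X < 1 * a) = ∅ := by
        rw [filter_eq_empty_iff]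
        intro a ha
        have := (mem_Icc.mp ha).2
        omega
      rw [this, sum_empty]
      simp
    · have hb : X / K + 1 ≤ X := by
        have : X / K < X := Nat.div_lt_self (by omega) (by omega)
        omega
      have h1 := tail_inv (X / K) X hb
      have h2 : (Icc 1 X).filter (fun a => X < K * a) ⊆ Ioc (X / K) X := by
        intro a ha
        rw [mem_filter, mem_Icc] at ha
        rw [mem_Ioc]
        refine ⟨?_, ha.1.2⟩
        rw [Nat.div_lt_iff_lt_mul (by omega), mul_comm]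
        exact ha.2
      refine (sum_le_sum_of_subset_of_nonneg h2 fun a _ _ => by positivity).trans
        (h1.trans ?_)
      have h3 : (X : ℝ) / ((X / K : ℕ) + 1) ≤ K := by
        rw [div_le_iff₀ (by positivity)]
        have h4 : X < K * (X / K + 1) := Nat.lt_mul_div_succ X (by omega)
        have h5 : (X : ℝ) < K * ((X / K : ℕ) + 1) := by exact_mod_cast h4
        exact h5.le
      have h6 : (0 : ℝ) < (X : ℝ) / ((X / K : ℕ) + 1) := by
        have : (0 : ℝ) < X := by exact_mod_cast Nat.pos_of_ne_zero hX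
        positivity
      have := Real.log_le_log h6 h3
      linarith

/-- Lower bound for a harmonic sum. -/
private theorem harm_lower (R₀ R : ℕ) (h0 : 1 ≤ R₀) (h : R₀ ≤ R) :
    Real.log R - Real.log R₀ - Real.log 2 ≤ ∑ m ∈ Ioc R₀ R, 1 / (m : ℝ) := by
  have h1 : ∀ R : ℕ, R₀ ≤ R → Real.log ((R : ℝ) + 1) - Real.log ((R₀ : ℝ) + 1) ≤
      ∑ m ∈ Ioc R₀ R, 1 / (m : ℝ) := by
    intro R hR
    induction R, hR using Nat.le_induction with
    | base => simp
    | succ R hR ih =>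
      rw [sum_Ioc_succ_top (by omega)]
      have hR0 : (0 : ℝ) < (R : ℝ) + 1 := by positivity
      have h2 : Real.log (((R : ℝ) + 1 + 1) / ((R : ℝ) + 1)) ≤
          ((R : ℝ) + 1 + 1) / ((R : ℝ) + 1) - 1 :=
        Real.log_le_sub_one_of_pos (by positivity)
      have h3 : ((R : ℝ) + 1 + 1) / ((R : ℝ) + 1) - 1 = 1 / ((R : ℝ) + 1) := by
        field_simp
        ring
      rw [Real.log_div (by positivity) (by positivity)] at h2
      push_cast
      linarith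
  have h2 := h1 R h
  have hR0 : (1 : ℝ) ≤ R₀ := by exact_mod_cast h0
  have hR : (1 : ℝ) ≤ R := by exact_mod_cast h0.trans h
  have h3 : Real.log R ≤ Real.log ((R : ℝ) + 1) := Real.log_le_log (by linarith) (by linarith)
  have h4 : Real.log ((R₀ : ℝ) + 1) ≤ Real.log 2 + Real.log R₀ := by
    rw [← Real.log_mul (by norm_num) (by linarith)]
    exact Real.log_le_log (by linarith) (by linarith)
  linarith

private theorem odd_card (s : Finset ℕ) (a : ℕ) (hs : ∀ p ∈ s, 3 ≤ p ∧ p % 2 = 1 ∧ p < a)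
    (ha : a % 2 = 1) (ha3 : 3 ≤ a) : 2 * s.card + 3 ≤ a := by
  have h1 : s.card ≤ ((range ((a - 3) / 2))).card := by
    refine card_le_card_of_injOn (fun p => (p - 3) / 2) ?_ ?_
    · intro p hp
      have := hs p hp
      simp only [coe_range, Set.mem_Iio]
      omega
    · intro p hp r hr hpr
      have h2 := hs p hp
      have h3 := hs r hr
      simp only at hpr
      omega
  rw [card_range] at h1
  omega

private theorem odd_prod (s : Finset ℕ) (hs : ∀ p ∈ s, 3 ≤ p ∧ p % 2 = 1) :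
    (∏ p ∈ s, (1 - ((p : ℝ))⁻¹)⁻¹) ^ 2 ≤ 2 * s.card + 1 := by
  induction s using Finset.induction_on_max with
  | empty => simp
  | insert a s hmax ih =>
    have has : a ∉ s := fun h => lt_irrefl _ (hmax a h)
    have ih' := ih (fun p hp => hs p (mem_insert_of_mem hp))
    have ha := hs a (mem_insert_self _ _)
    have h1 := odd_card s a (fun p hp => ⟨(hs p (mem_insert_of_mem hp)).1,
      (hs p (mem_insert_of_mem hp)).2, hmax p hp⟩) ha.2 ha.1
    rw [prod_insert has, card_insert_of_notMem has, mul_pow]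
    have haR : 2 * (s.card : ℝ) + 3 ≤ (a : ℝ) := by exact_mod_cast h1
    push_cast
    have hw0 : (0 : ℝ) ≤ s.card := by positivity
    generalize (s.card : ℝ) = w at haR hw0 ih' ⊢
    have h2 : (1 - ((a : ℝ))⁻¹)⁻¹ ≤ (2 * w + 3) / (2 * w + 2) := by
      have h3 : 1 - ((a : ℝ))⁻¹ = ((a : ℝ) - 1) / a := by
        have : (a : ℝ) ≠ 0 := by linarith
        field_simp
      rw [h3, inv_div, div_le_div_iff₀ (by linarith) (by linarith)]
      nlinarith
    have h4 : 0 ≤ (1 - ((a : ℝ))⁻¹)⁻¹ := by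
      have : ((a : ℝ))⁻¹ ≤ 1 := inv_le_one_of_one_le₀ (by linarith)
      exact inv_nonneg.mpr (by linarith)
    have h5 : ((1 - ((a : ℝ))⁻¹)⁻¹) ^ 2 ≤ ((2 * w + 3) / (2 * w + 2)) ^ 2 :=
      pow_le_pow_left₀ h4 h2 2
    have h6 : ((2 * w + 3) / (2 * w + 2)) ^ 2 * (2 * w + 1) ≤ 2 * (w + 1) + 1 := by
      rw [div_pow, div_mul_eq_mul_div, div_le_iff₀ (by positivity)]
      nlinarith
    calc ((1 - ((a : ℝ))⁻¹)⁻¹) ^ 2 * (∏ p ∈ s, (1 - ((p : ℝ))⁻¹)⁻¹) ^ 2
        ≤ ((2 * w + 3) / (2 * w + 2)) ^ 2 * (2 * w + 1) :=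
          mul_le_mul h5 ih' (by positivity) (by positivity)
      _ ≤ 2 * (w + 1) + 1 := h6

private theorem prod_bd (s : Finset ℕ) (hs : ∀ p ∈ s, p.Prime) :
    (∏ p ∈ s, (1 - ((p : ℝ))⁻¹)⁻¹) ^ 2 ≤ 4 * (2 * s.card + 1) := by
  have hf : ∀ p ∈ s.filter (fun p => p ≠ 2), 3 ≤ p ∧ p % 2 = 1 := by
    intro p hp
    rw [mem_filter] at hp
    have h1 := (hs p hp.1).two_le
    have h2 := (hs p hp.1).eq_two_or_odd
    omega
  have h1 := odd_prod _ hf
  have h2 : ∏ p ∈ s, (1 - ((p : ℝ))⁻¹)⁻¹ =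
      (∏ p ∈ s.filter (fun p => p ≠ 2), (1 - ((p : ℝ))⁻¹)⁻¹) *
        ∏ p ∈ s.filter (fun p => ¬ p ≠ 2), (1 - ((p : ℝ))⁻¹)⁻¹ :=
    (prod_filter_mul_prod_filter_not s (fun p => p ≠ 2) _).symm
  have h3 : (∏ p ∈ s.filter (fun p => ¬ p ≠ 2), (1 - ((p : ℝ))⁻¹)⁻¹) ^ 2 ≤ 4 := by
    by_cases h : 2 ∈ s
    · have : s.filter (fun p => ¬ p ≠ 2) = {2} := by
        ext x
        simp only [mem_filter, mem_singleton, not_not]
        constructor
        · exact fun h => h.2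
        · rintro rfl
          exact ⟨h, rfl⟩
      rw [this, prod_singleton]
      norm_num
    · have : s.filter (fun p => ¬ p ≠ 2) = ∅ := by
        rw [filter_eq_empty_iff]
        intro x hx h2
        simp only [not_not] at h2
        exact h (h2 ▸ hx)
      rw [this, prod_empty]
      norm_num
  have h4 : ((s.filter (fun p => p ≠ 2)).card : ℝ) ≤ s.card := by
    exact_mod_cast card_filter_le _ _
  rw [h2, mul_pow]
  calc _ ≤ (2 * ((s.filter (fun p => p ≠ 2)).card : ℝ) + 1) * 4 :=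
        mul_le_mul h1 h3 (by positivity) (by positivity)
    _ ≤ 4 * (2 * s.card + 1) := by linarith

private theorem step_w (w : ℕ) : ((w : ℝ) + 1) ^ (-(3 / 4) : ℝ) ≤
    4 * ((w : ℝ) + 1) ^ ((1 / 4) : ℝ) - 4 * (w : ℝ) ^ ((1 / 4) : ℝ) := by
  have hw : (0 : ℝ) ≤ w := by positivity
  have hw1 : (0 : ℝ) < (w : ℝ) + 1 := by positivity
  have h := Real.geom_mean_le_arith_mean2_weighted (w₁ := 1 / 4) (w₂ := 3 / 4) (p₁ := (w : ℝ))
    (p₂ := (w : ℝ) + 1) (by norm_num) (by norm_num) hw hw1.le (by norm_num)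
  have hx : 0 < ((w : ℝ) + 1) ^ ((3 / 4) : ℝ) := Real.rpow_pos_of_pos hw1 _
  have h2 : ((w : ℝ) + 1) ^ (-(3 / 4) : ℝ) * ((w : ℝ) + 1) ^ ((3 / 4) : ℝ) = 1 := by
    rw [← Real.rpow_add hw1]
    norm_num
  have h3 : ((w : ℝ) + 1) ^ ((1 / 4) : ℝ) * ((w : ℝ) + 1) ^ ((3 / 4) : ℝ) = (w : ℝ) + 1 := by
    rw [← Real.rpow_add hw1]
    norm_num
  refine le_of_mul_le_mul_right ?_ hx
  rw [h2, sub_mul, mul_assoc, h3, mul_assoc]
  linarith

private theorem sum_quarter (s : Finset ℕ) (hs : ∀ p ∈ s, 1 ≤ p) :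
    ∑ p ∈ s, (p : ℝ) ^ (-(3 / 4) : ℝ) ≤ 4 * (s.card : ℝ) ^ ((1 / 4) : ℝ) := by
  induction s using Finset.induction_on_max with
  | empty => simp
  | insert a s hmax ih =>
    have has : a ∉ s := fun h => lt_irrefl _ (hmax a h)
    have ih' := ih (fun p hp => hs p (mem_insert_of_mem hp))
    have ha := hs a (mem_insert_self _ _)
    have h1 : s.card + 1 ≤ a := by
      have h2 : s ⊆ Ico 1 a := by
        intro p hp
        rw [mem_Ico]
        exact ⟨hs p (mem_insert_of_mem hp), hmax p hp⟩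
      have h3 := card_le_card h2
      rw [Nat.card_Ico] at h3
      omega
    rw [sum_insert has, card_insert_of_notMem has]
    have h4 : (a : ℝ) ^ (-(3 / 4) : ℝ) ≤ ((s.card : ℝ) + 1) ^ (-(3 / 4) : ℝ) :=
      Real.rpow_le_rpow_of_nonpos (by positivity) (by exact_mod_cast h1) (by norm_num)
    have h5 := step_w s.card
    push_cast
    linarith

private theorem sum_log_bd (s : Finset ℕ) (hs : ∀ p ∈ s, p.Prime) :
    ∑ p ∈ s, Real.log p / ((p : ℝ) - 1) ≤ 32 * (s.card : ℝ) ^ ((1 / 4) : ℝ) := by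
  have h1 := sum_quarter s (fun p hp => (hs p hp).one_le)
  have h2 : ∀ p ∈ s, Real.log p / ((p : ℝ) - 1) ≤ 8 * (p : ℝ) ^ (-(3 / 4) : ℝ) := by
    intro p hp
    have hp2 : (2 : ℝ) ≤ p := by exact_mod_cast (hs p hp).two_le
    have h3 : Real.log p ≤ (p : ℝ) ^ ((1 / 4) : ℝ) / (1 / 4) :=
      Real.log_le_rpow_div (by linarith) (by norm_num)
    rw [div_le_iff₀ (by linarith)]
    have h4 : (p : ℝ) ^ (-(3 / 4) : ℝ) * p = (p : ℝ) ^ ((1 / 4) : ℝ) := by
      conv_lhs => rw [← Real.rpow_one (p : ℝ)]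
      rw [← Real.rpow_mul (by linarith), one_mul, ← Real.rpow_add (by linarith)]
      norm_num
    have h5 : 0 < (p : ℝ) ^ (-(3 / 4) : ℝ) := Real.rpow_pos_of_pos (by linarith) _
    nlinarith
  calc _ ≤ ∑ p ∈ s, 8 * (p : ℝ) ^ (-(3 / 4) : ℝ) := sum_le_sum h2
    _ = 8 * ∑ p ∈ s, (p : ℝ) ^ (-(3 / 4) : ℝ) := by rw [mul_sum]
    _ ≤ _ := by linarith

/-- Splitting off the part of `m` composed of primes of `q`. -/
private theorem split (q : ℕ) (hq : 1 ≤ q) (m : ℕ) (hm : 1 ≤ m) :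
    ∃ l k : ℕ, l ∈ Nat.factoredNumbers q.primeFactors ∧ k.Coprime q ∧ l * k = m := by
  induction m using Nat.strong_induction_on with
  | _ m ih =>
    by_cases h : m.Coprime q
    · refine ⟨1, m, ?_, h, one_mul m⟩
      rw [Nat.mem_factoredNumbers_iff_primeFactors_subset]
      simp
    · obtain ⟨p, hp, hpm, hpq⟩ := Nat.Prime.not_coprime_iff_dvd.mp h
      obtain ⟨m', rfl⟩ := hpm
      have hm' : 1 ≤ m' := by
        rcases Nat.eq_zero_or_pos m' with h0 | h0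
        · subst h0
          omega
        · exact h0
      have hlt : m' < p * m' := by
        have := hp.two_le
        nlinarith
      obtain ⟨l, k, hl, hk, hlk⟩ := ih m' hlt hm'
      refine ⟨p * l, k, ?_, hk, by rw [mul_assoc, hlk]⟩
      have hl0 := hl.1
      rw [Nat.mem_factoredNumbers_iff_primeFactors_subset] at hl ⊢
      refine ⟨mul_ne_zero hp.ne_zero hl0, ?_⟩
      rw [Nat.primeFactors_mul hp.ne_zero hl0]
      refine union_subset ?_ hl.2
      rw [hp.primeFactors]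
      intro x hx
      rw [mem_singleton] at hx
      subst hx
      exact Nat.mem_primeFactors.mpr ⟨hp, hpq, by omega⟩

private def Lq (q R : ℕ) : Finset ℕ :=
  (Icc 1 R).filter (fun l => l ∈ Nat.factoredNumbers q.primeFactors)

private theorem triple (q : ℕ) (hq : 1 ≤ q) (R₀ R m : ℕ) (hm : 1 ≤ m) (hmR : m ≤ R)
    (hr : rho q m ≤ R₀) :
    ∃ t : (ℕ × ℕ) × ℕ, t.1.1 ∈ Lq q R ∧ t.1.2 ∈ Icc 1 R ∧ t.2 ∈ Icc 1 R₀ ∧
      t.1.1 * t.1.2 ^ 2 * t.2 = m := by
  obtain ⟨l, k, hl, hk, hlk⟩ := split q hq m hm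
  obtain ⟨a, c, hac, ha⟩ := Nat.sq_mul_squarefree k
  have hk0 : 1 ≤ k := by
    rcases Nat.eq_zero_or_pos k with h | h
    · subst h
      omega
    · exact h
  have hl0 : 1 ≤ l := by
    rcases Nat.eq_zero_or_pos l with h | h
    · subst h
      omega
    · exact h
  have ha0 : 1 ≤ a := Nat.pos_of_ne_zero ha.ne_zero
  have hc0 : 1 ≤ c := by
    rcases Nat.eq_zero_or_pos c with h | h
    · subst h
      omega
    · exact h
  have hkm : k ≤ m := by
    rw [← hlk]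
    exact Nat.le_mul_of_pos_left k hl0
  have hlm : l ≤ m := by
    rw [← hlk]
    exact Nat.le_mul_of_pos_right l hk0
  have hck : c ≤ k := by
    rw [← hac]
    calc c ≤ c ^ 2 := Nat.le_self_pow (by norm_num) c
      _ ≤ c ^ 2 * a := Nat.le_mul_of_pos_right _ ha0
  have hak : a ∣ k := ⟨c ^ 2, by rw [← hac, mul_comm]⟩
  have har : a ∣ rho q m := by
    rw [← Nat.prod_primeFactors_of_squarefree ha]
    unfold rho
    refine prod_dvd_prod_of_subset _ _ _ ?_
    intro p hp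
    have hp' := Nat.mem_primeFactors.mp hp
    rw [mem_sdiff]
    constructor
    · exact Nat.mem_primeFactors.mpr ⟨hp'.1, (hp'.2.1.trans hak).trans ⟨l, by rw [← hlk, mul_comm]⟩,
        by omega⟩
    · intro hpq
      have h1 := Nat.dvd_of_mem_primeFactors hpq
      have h2 := Nat.dvd_gcd (hp'.2.1.trans hak) h1
      rw [hk.gcd_eq_one] at h2
      exact hp'.1.one_lt.ne' (Nat.dvd_one.mp h2)
  have haR : a ≤ R₀ := (Nat.le_of_dvd (rho_pos q m) har).trans hr
  refine ⟨((l, c), a), ?_, ?_, ?_, ?_⟩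
  · unfold Lq
    rw [mem_filter, mem_Icc]
    exact ⟨⟨hl0, hlm.trans hmR⟩, hl⟩
  · rw [mem_Icc]
    exact ⟨hc0, (hck.trans hkm).trans hmR⟩
  · rw [mem_Icc]
    exact ⟨ha0, haR⟩
  · show l * c ^ 2 * a = m
    rw [mul_assoc, hac, hlk]

private theorem partB {q : ℕ} (hq : 1 ≤ q) (R₀ R : ℕ) :
    ∑ m ∈ (Ioc R₀ R).filter (fun m => ¬ R₀ < rho q m), 1 / (m : ℝ) ≤
      ∑ l ∈ Lq q R, ∑ c ∈ Icc 1 R, 1 / ((l : ℝ) * (c : ℝ) ^ 2) *
        (1 + Real.log ((l : ℝ) * (c : ℝ) ^ 2)) := by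
  classical
  set M := (Ioc R₀ R).filter (fun m => ¬ R₀ < rho q m) with hMdef
  set T : Finset ((ℕ × ℕ) × ℕ) := ((Lq q R ×ˢ Icc 1 R) ×ˢ Icc 1 R₀).filter
    (fun t => R₀ < t.1.1 * t.1.2 ^ 2 * t.2) with hT
  have hex : ∀ m : ℕ, ∃ t : (ℕ × ℕ) × ℕ, m ∈ M → t ∈ T ∧ t.1.1 * t.1.2 ^ 2 * t.2 = m := by
    intro m
    by_cases hm : m ∈ M
    · have hm' := hm
      rw [hMdef, mem_filter, mem_Ioc] at hm'
      obtain ⟨t, h1, h2, h3, h4⟩ := triple q hq R₀ R m (by omega) hm'.1.2 (by omega)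
      refine ⟨t, fun _ => ⟨?_, h4⟩⟩
      rw [hT, mem_filter, mem_product, mem_product]
      refine ⟨⟨⟨h1, h2⟩, h3⟩, ?_⟩
      rw [h4]
      exact hm'.1.1
    · exact ⟨((0, 0), 0), fun h => absurd h hm⟩
  choose g hg using hex
  have h1 : ∑ m ∈ M, 1 / (m : ℝ) =
      ∑ m ∈ M, (fun t : (ℕ × ℕ) × ℕ => 1 / ((t.1.1 : ℝ) * (t.1.2 : ℝ) ^ 2 * t.2)) (g m) := by
    refine sum_congr rfl fun m hm => ?_
    have h2 : (((g m).1.1 : ℝ) * ((g m).1.2 : ℝ) ^ 2 * (g m).2) = m := by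
      exact_mod_cast (hg m hm).2
    simp only
    rw [h2]
  have hinj : ∀ a ∈ M, ∀ b ∈ M, g a = g b → a = b := by
    intro a ha b hb hab
    rw [← (hg a ha).2, ← (hg b hb).2, hab]
  rw [h1, ← sum_image (f := fun t : (ℕ × ℕ) × ℕ => 1 / ((t.1.1 : ℝ) * (t.1.2 : ℝ) ^ 2 * t.2)) hinj]
  have h2 : M.image g ⊆ T := by
    intro t ht
    obtain ⟨m, hm, rfl⟩ := mem_image.mp ht
    exact (hg m hm).1
  refine (sum_le_sum_of_subset_of_nonneg h2 fun t _ _ => by positivity).trans ?_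
  rw [hT, sum_filter, sum_product, sum_product]
  refine sum_le_sum fun l hl => sum_le_sum fun c hc => ?_
  rw [← sum_filter]
  unfold Lq at hl
  rw [mem_filter, mem_Icc] at hl
  rw [mem_Icc] at hc
  have hK : 1 ≤ l * c ^ 2 := Nat.mul_pos (by omega) (pow_pos (by omega) 2)
  have h3 := short_inv R₀ (l * c ^ 2) hK
  have h4 : ((l * c ^ 2 : ℕ) : ℝ) = (l : ℝ) * (c : ℝ) ^ 2 := by push_cast; ring
  rw [h4] at h3
  calc ∑ a ∈ (Icc 1 R₀).filter (fun a => R₀ < l * c ^ 2 * a), 1 / ((l : ℝ) * (c : ℝ) ^ 2 * a)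
      = 1 / ((l : ℝ) * (c : ℝ) ^ 2) *
        ∑ a ∈ (Icc 1 R₀).filter (fun a => R₀ < l * c ^ 2 * a), 1 / (a : ℝ) := by
        rw [mul_sum]
        refine sum_congr rfl fun a _ => ?_
        rw [one_div_mul_one_div]
    _ ≤ _ := mul_le_mul_of_nonneg_left h3 (by positivity)

private theorem geo (p : ℕ) (hp : 2 ≤ p) (R : ℕ) :
    ∑ i ∈ Icc 1 R, 1 / (p : ℝ) ^ i ≤ 1 / ((p : ℝ) - 1) := by
  have hp2 : (2 : ℝ) ≤ p := by exact_mod_cast hp
  have h : ∀ R : ℕ, ∑ i ∈ Icc 1 R, 1 / (p : ℝ) ^ i = (1 - 1 / (p : ℝ) ^ R) / ((p : ℝ) - 1) := by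
    intro R
    induction R with
    | zero => simp
    | succ R ih =>
      rw [sum_Icc_succ_top (by omega), ih]
      have h1 : (p : ℝ) ≠ 0 := by linarith
      have h2 : (p : ℝ) - 1 ≠ 0 := by
        intro h
        linarith
      field_simp
      ring
  rw [h R]
  have h3 : 0 ≤ 1 / (p : ℝ) ^ R := by positivity
  exact div_le_div_of_nonneg_right (by linarith) (by linarith)

private theorem log_le_pow {q R l : ℕ} (hl : l ∈ Lq q R) :
    Real.log l ≤ ∑ p ∈ q.primeFactors, Real.log p *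
      ∑ i ∈ Icc 1 R, (if p ^ i ∣ l then (1 : ℝ) else 0) := by
  unfold Lq at hl
  rw [mem_filter, mem_Icc, Nat.mem_factoredNumbers_iff_primeFactors_subset] at hl
  rw [Real.log_nat_eq_sum_factorization, Finsupp.sum_of_support_subset l.factorization
    (s := q.primeFactors) (by
      rw [Nat.support_factorization]
      exact hl.2.2) _ (by intro i _; simp)]
  refine sum_le_sum fun p hp => ?_
  have hpp := Nat.prime_of_mem_primeFactors hp
  rw [mul_comm]
  refine mul_le_mul_of_nonneg_left ?_ (Real.log_nonneg (by exact_mod_cast hpp.one_le))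
  rw [Nat.factorization_eq_card_pow_dvd l hpp, sum_boole]
  have h1 : (Ico 1 l).filter (fun i => p ^ i ∣ l) ⊆ (Icc 1 R).filter (fun i => p ^ i ∣ l) := by
    intro i hi
    rw [mem_filter, mem_Ico] at hi
    rw [mem_filter, mem_Icc]
    exact ⟨by omega, hi.2⟩
  exact_mod_cast card_le_card h1

private theorem sum_L {q : ℕ} (hq : 1 ≤ q) (R : ℕ) :
    ∑ l ∈ Lq q R, 1 / (l : ℝ) ≤ (q : ℝ) / q.totient := by
  refine fac_sum q hq _ ?_
  intro m hm
  unfold Lq at hm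
  exact (mem_filter.mp hm).2

private theorem sum_L_dvd {q : ℕ} (hq : 1 ≤ q) (R d : ℕ) (hd : 1 ≤ d) :
    ∑ l ∈ (Lq q R).filter (fun l => d ∣ l), 1 / (l : ℝ) ≤ 1 / (d : ℝ) * ((q : ℝ) / q.totient) := by
  have hd0 : (0 : ℝ) < d := by exact_mod_cast hd
  have h1 : ∀ l ∈ (Lq q R).filter (fun l => d ∣ l), 1 / (l : ℝ) =
      1 / (d : ℝ) * (1 / ((l / d : ℕ) : ℝ)) := by
    intro l hl
    unfold Lq at hl
    rw [mem_filter, mem_filter, mem_Icc] at hl
    rw [Nat.cast_div hl.2 hd0.ne']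
    have : (0 : ℝ) < l := by
      have : 0 < l := by omega
      exact_mod_cast this
    field_simp
  rw [sum_congr rfl h1, ← mul_sum]
  refine mul_le_mul_of_nonneg_left ?_ (by positivity)
  have hinj : ∀ a ∈ (Lq q R).filter (fun l => d ∣ l), ∀ b ∈ (Lq q R).filter (fun l => d ∣ l),
      a / d = b / d → a = b := by
    intro a ha b hb hab
    rw [← Nat.div_mul_cancel (mem_filter.mp ha).2, ← Nat.div_mul_cancel (mem_filter.mp hb).2, hab]
  have h2 : ∑ l ∈ (Lq q R).filter (fun l => d ∣ l), 1 / ((l / d : ℕ) : ℝ) =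
      ∑ x ∈ ((Lq q R).filter (fun l => d ∣ l)).image (fun l => l / d), 1 / (x : ℝ) := by
    rw [sum_image hinj]
  rw [h2]
  refine fac_sum q hq _ ?_
  intro x hx
  obtain ⟨l, hl, rfl⟩ := mem_image.mp hx
  unfold Lq at hl
  rw [mem_filter, mem_filter, mem_Icc, Nat.mem_factoredNumbers_iff_primeFactors_subset] at hl
  rw [Nat.mem_factoredNumbers_iff_primeFactors_subset]
  refine ⟨(Nat.div_pos (Nat.le_of_dvd (by omega) hl.2) hd).ne', ?_⟩
  exact (Nat.primeFactors_mono (Nat.div_dvd_of_dvd hl.2) (by omega)).trans hl.1.2.2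

private theorem sum_L_log {q : ℕ} (hq : 1 ≤ q) (R : ℕ) :
    ∑ l ∈ Lq q R, Real.log l / l ≤
      (q : ℝ) / q.totient * ∑ p ∈ q.primeFactors, Real.log p / ((p : ℝ) - 1) := by
  have hS : 0 ≤ (q : ℝ) / q.totient := by positivity
  calc ∑ l ∈ Lq q R, Real.log l / l
      ≤ ∑ l ∈ Lq q R, ∑ p ∈ q.primeFactors, ∑ i ∈ Icc 1 R,
          Real.log p * (if p ^ i ∣ l then 1 / (l : ℝ) else 0) := by
        refine sum_le_sum fun l hl => ?_
        have h1 := log_le_pow hl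
        have hl0 : (0 : ℝ) ≤ 1 / (l : ℝ) := by positivity
        calc Real.log l / l = Real.log l * (1 / (l : ℝ)) := by rw [mul_one_div]
          _ ≤ (∑ p ∈ q.primeFactors, Real.log p *
              ∑ i ∈ Icc 1 R, (if p ^ i ∣ l then (1 : ℝ) else 0)) * (1 / (l : ℝ)) :=
            mul_le_mul_of_nonneg_right h1 hl0
          _ = _ := by
            rw [sum_mul]
            refine sum_congr rfl fun p _ => ?_
            rw [mul_sum, sum_mul]
            refine sum_congr rfl fun i _ => ?_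
            split_ifs
            · ring
            · ring
    _ = ∑ p ∈ q.primeFactors, ∑ i ∈ Icc 1 R, Real.log p *
          ∑ l ∈ (Lq q R).filter (fun l => p ^ i ∣ l), 1 / (l : ℝ) := by
        rw [sum_comm]
        refine sum_congr rfl fun p _ => ?_
        rw [sum_comm]
        refine sum_congr rfl fun i _ => ?_
        rw [← mul_sum, sum_filter]
    _ ≤ ∑ p ∈ q.primeFactors, ∑ i ∈ Icc 1 R, Real.log p *
          (1 / (p : ℝ) ^ i * ((q : ℝ) / q.totient)) := by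
        refine sum_le_sum fun p hp => sum_le_sum fun i _ => ?_
        have hpp := Nat.prime_of_mem_primeFactors hp
        have h1 := sum_L_dvd hq R (p ^ i) (Nat.pos_of_ne_zero (pow_ne_zero i hpp.ne_zero))
        push_cast at h1
        exact mul_le_mul_of_nonneg_left h1 (Real.log_nonneg (by exact_mod_cast hpp.one_le))
    _ = ∑ p ∈ q.primeFactors, (q : ℝ) / q.totient * (Real.log p *
          ∑ i ∈ Icc 1 R, 1 / (p : ℝ) ^ i) := by
        refine sum_congr rfl fun p _ => ?_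
        rw [mul_sum, mul_sum]
        refine sum_congr rfl fun i _ => ?_
        ring
    _ ≤ ∑ p ∈ q.primeFactors, (q : ℝ) / q.totient * (Real.log p * (1 / ((p : ℝ) - 1))) := by
        refine sum_le_sum fun p hp => ?_
        have hpp := Nat.prime_of_mem_primeFactors hp
        exact mul_le_mul_of_nonneg_left (mul_le_mul_of_nonneg_left (geo p hpp.two_le R)
          (Real.log_nonneg (by exact_mod_cast hpp.one_le))) hS
    _ = _ := by
        rw [mul_sum]
        refine sum_congr rfl fun p _ => ?_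
        rw [mul_one_div]

private theorem sum_c : ∃ C : ℝ, 0 ≤ C ∧ ∀ R : ℕ,
    ∑ c ∈ Icc 1 R, 2 * Real.log c / (c : ℝ) ^ 2 ≤ C := by
  have hs : Summable (fun n : ℕ => (n : ℝ) ^ (-(3 / 2) : ℝ)) :=
    Real.summable_nat_rpow.mpr (by norm_num)
  refine ⟨4 * ∑' n : ℕ, (n : ℝ) ^ (-(3 / 2) : ℝ), by
    have : 0 ≤ ∑' n : ℕ, (n : ℝ) ^ (-(3 / 2) : ℝ) := tsum_nonneg fun n => by positivity
    linarith, fun R => ?_⟩
  have h1 : ∀ c ∈ Icc 1 R, 2 * Real.log c / (c : ℝ) ^ 2 ≤ 4 * (c : ℝ) ^ (-(3 / 2) : ℝ) := by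
    intro c hc
    have hc1 : (0 : ℝ) < c := by exact_mod_cast (mem_Icc.mp hc).1
    have h2 : Real.log c ≤ (c : ℝ) ^ ((1 / 2) : ℝ) / (1 / 2) :=
      Real.log_le_rpow_div hc1.le (by norm_num)
    rw [div_le_iff₀ (by positivity)]
    have h3 : (c : ℝ) ^ (-(3 / 2) : ℝ) * (c : ℝ) ^ 2 = (c : ℝ) ^ ((1 / 2) : ℝ) := by
      have h4 : (c : ℝ) ^ 2 = (c : ℝ) ^ (2 : ℝ) := by norm_num
      rw [h4, ← Real.rpow_add hc1]
      norm_num
    rw [mul_assoc, h3]
    linarith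
  calc _ ≤ ∑ c ∈ Icc 1 R, 4 * (c : ℝ) ^ (-(3 / 2) : ℝ) := sum_le_sum h1
    _ = 4 * ∑ c ∈ Icc 1 R, (c : ℝ) ^ (-(3 / 2) : ℝ) := by rw [mul_sum]
    _ ≤ _ := by
      have := hs.sum_le_tsum (Icc 1 R) (fun n _ => by positivity)
      linarith

private theorem partC : ∃ C : ℝ, 0 ≤ C ∧ ∀ q R : ℕ, 1 ≤ q →
    ∑ l ∈ Lq q R, ∑ c ∈ Icc 1 R, 1 / ((l : ℝ) * (c : ℝ) ^ 2) *
        (1 + Real.log ((l : ℝ) * (c : ℝ) ^ 2)) ≤
      (q : ℝ) / q.totient * (C + 2 * ∑ p ∈ q.primeFactors, Real.log p / ((p : ℝ) - 1)) := by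
  obtain ⟨C, hC0, hC⟩ := sum_c
  refine ⟨2 + C, by linarith, fun q R hq => ?_⟩
  have hS0 : 0 ≤ (q : ℝ) / q.totient := by positivity
  have h1 := sum_L hq R
  have h2 := sum_L_log hq R
  have h3 := hC R
  have h4 := SelAux.sum_inv_sq_le R
  have h5 : ∀ l ∈ Lq q R, ∑ c ∈ Icc 1 R, 1 / ((l : ℝ) * (c : ℝ) ^ 2) *
        (1 + Real.log ((l : ℝ) * (c : ℝ) ^ 2)) =
      1 / (l : ℝ) * (∑ c ∈ Icc 1 R, 1 / (c : ℝ) ^ 2) +
      Real.log l / l * (∑ c ∈ Icc 1 R, 1 / (c : ℝ) ^ 2) +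
      1 / (l : ℝ) * ∑ c ∈ Icc 1 R, 2 * Real.log c / (c : ℝ) ^ 2 := by
    intro l hl
    unfold Lq at hl
    rw [mem_filter, mem_Icc] at hl
    have hl0 : (0 : ℝ) < l := by exact_mod_cast hl.1.1
    rw [mul_sum, mul_sum, mul_sum, ← sum_add_distrib, ← sum_add_distrib]
    refine sum_congr rfl fun c hc => ?_
    have hc0 : (0 : ℝ) < c := by exact_mod_cast (mem_Icc.mp hc).1
    rw [Real.log_mul hl0.ne' (by positivity), Real.log_pow]
    push_cast
    field_simp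
    ring
  rw [sum_congr rfl h5, sum_add_distrib, sum_add_distrib, ← sum_mul, ← sum_mul, ← sum_mul]
  have hL0 : 0 ≤ ∑ l ∈ Lq q R, 1 / (l : ℝ) := sum_nonneg fun l _ => by positivity
  have hLL0 : 0 ≤ ∑ l ∈ Lq q R, Real.log l / l := by
    refine sum_nonneg fun l hl => ?_
    unfold Lq at hl
    rw [mem_filter, mem_Icc] at hl
    exact div_nonneg (Real.log_nonneg (by exact_mod_cast hl.1.1)) (by positivity)
  have hc0 : 0 ≤ ∑ c ∈ Icc 1 R, 1 / (c : ℝ) ^ 2 := sum_nonneg fun l _ => by positivity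
  have a1 := mul_le_mul h1 h4 hc0 hS0
  have hP0 : 0 ≤ (q : ℝ) / q.totient * ∑ p ∈ q.primeFactors, Real.log p / ((p : ℝ) - 1) :=
    hLL0.trans h2
  have a2 := mul_le_mul h2 h4 hc0 hP0
  have a3 : (∑ l ∈ Lq q R, 1 / (l : ℝ)) * ∑ c ∈ Icc 1 R, 2 * Real.log c / (c : ℝ) ^ 2 ≤
      (q : ℝ) / q.totient * C :=
    (mul_le_mul_of_nonneg_left h3 hL0).trans (mul_le_mul_of_nonneg_right h1 hC0)
  nlinarith

private theorem card_pf {q N : ℕ} (hq : 1 ≤ q) (hN : q ≤ N) :
    (q.primeFactors.card : ℝ) ≤ 2 * Real.log N := by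
  have h1 : 2 ^ q.primeFactors.card ≤ q := by
    calc 2 ^ q.primeFactors.card = ∏ p ∈ q.primeFactors, 2 := by rw [prod_const]
      _ ≤ ∏ p ∈ q.primeFactors, p :=
        prod_le_prod (fun _ _ => by norm_num) fun p hp => (Nat.prime_of_mem_primeFactors hp).two_le
      _ ≤ q := Nat.le_of_dvd hq (Nat.prod_primeFactors_dvd q)
  have h2 : ((2 : ℝ)) ^ q.primeFactors.card ≤ N := by exact_mod_cast h1.trans hN
  have h3 : Real.log ((2 : ℝ) ^ q.primeFactors.card) ≤ Real.log N :=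
    Real.log_le_log (by positivity) h2
  rw [Real.log_pow] at h3
  have h4 := Real.log_two_gt_d9
  have h5 : (0 : ℝ) ≤ q.primeFactors.card := by positivity
  nlinarith

private theorem tail_bd : ∃ K : ℝ, 0 < K ∧ ∀ N q R₀ R : ℕ, 1 ≤ q → q ≤ N →
    ∑ m ∈ (Ioc R₀ R).filter (fun m => ¬ R₀ < rho q m), 1 / (m : ℝ) ≤
      K * (1 + 2 * Real.log N) ^ ((3 / 4) : ℝ) := by
  obtain ⟨C, hC0, hC⟩ := partC
  refine ⟨3 * (C + 64), by linarith, fun N q R₀ R hq hN => ?_⟩
  refine (partB hq R₀ R).trans ((hC q R hq).trans ?_)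
  have hw := card_pf hq hN
  have hpr : ∀ p ∈ q.primeFactors, p.Prime := fun p hp => Nat.prime_of_mem_primeFactors hp
  have h1 := prod_bd q.primeFactors hpr
  have h2 := sum_log_bd q.primeFactors hpr
  have h3 := div_tot q hq
  have h8 : q.primeFactors.filter (fun p => p.Prime) = q.primeFactors := by
    rw [filter_eq_self]
    intro p hp
    exact hpr p hp
  rw [h8] at h3
  rw [← h3] at h1
  have hS0 : 0 ≤ (q : ℝ) / q.totient := by positivity
  have hw0 : (0 : ℝ) ≤ q.primeFactors.card := by positivity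
  have hu0 : (0 : ℝ) < 1 + 2 * Real.log N := by linarith
  have hu1 : (1 : ℝ) ≤ 1 + 2 * Real.log N := by linarith
  have h4 : (q : ℝ) / q.totient ≤ 3 * (1 + 2 * Real.log N) ^ ((1 / 2) : ℝ) := by
    refine le_of_sq_le_sq ?_ (by positivity)
    rw [mul_pow, ← Real.rpow_natCast ((1 + 2 * Real.log N) ^ ((1 / 2) : ℝ)) 2, ← Real.rpow_mul hu0.le]
    norm_num
    linarith
  have h5 : (q.primeFactors.card : ℝ) ^ ((1 / 4) : ℝ) ≤ (1 + 2 * Real.log N) ^ ((1 / 4) : ℝ) :=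
    Real.rpow_le_rpow hw0 (by linarith) (by norm_num)
  have h6 : (1 : ℝ) ≤ (1 + 2 * Real.log N) ^ ((1 / 4) : ℝ) := Real.one_le_rpow hu1 (by norm_num)
  have h7 : C + 2 * ∑ p ∈ q.primeFactors, Real.log p / ((p : ℝ) - 1) ≤
      (C + 64) * (1 + 2 * Real.log N) ^ ((1 / 4) : ℝ) := by
    nlinarith
  have h9 : (1 + 2 * Real.log N) ^ ((1 / 2) : ℝ) * (1 + 2 * Real.log N) ^ ((1 / 4) : ℝ) =
      (1 + 2 * Real.log N) ^ ((3 / 4) : ℝ) := by
    rw [← Real.rpow_add hu0]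
    norm_num
  have hu2 : 0 ≤ (1 + 2 * Real.log N) ^ ((1 / 2) : ℝ) := by positivity
  calc (q : ℝ) / q.totient * (C + 2 * ∑ p ∈ q.primeFactors, Real.log p / ((p : ℝ) - 1))
      ≤ (q : ℝ) / q.totient * ((C + 64) * (1 + 2 * Real.log N) ^ ((1 / 4) : ℝ)) :=
        mul_le_mul_of_nonneg_left h7 hS0
    _ ≤ 3 * (1 + 2 * Real.log N) ^ ((1 / 2) : ℝ) *
        ((C + 64) * (1 + 2 * Real.log N) ^ ((1 / 4) : ℝ)) :=
        mul_le_mul_of_nonneg_right h4 (by positivity)
    _ = 3 * (C + 64) * ((1 + 2 * Real.log N) ^ ((1 / 2) : ℝ) *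
        (1 + 2 * Real.log N) ^ ((1 / 4) : ℝ)) := by ring
    _ = _ := by rw [h9]

private theorem choose_N (ε K : ℝ) (hε : 0 < ε) (hK : 0 < K) : ∃ N₀ : ℕ, ∀ N : ℕ, N₀ ≤ N →
    Real.log 2 + K * (1 + 2 * Real.log N) ^ ((3 / 4) : ℝ) ≤ ε * Real.log N := by
  set X : ℝ := 1 + (6 * K / ε) ^ 4 + 2 / ε with hX
  refine ⟨⌈Real.exp X⌉₊, fun N hN => ?_⟩
  have h1 : Real.exp X ≤ N := (Nat.le_ceil _).trans (by exact_mod_cast hN)
  have h2 : X ≤ Real.log N := by
    rw [← Real.log_exp X]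
    exact Real.log_le_log (Real.exp_pos _) h1
  set x : ℝ := Real.log N with hx
  have hp1 : 0 < (6 * K / ε) ^ 4 := by positivity
  have hp2 : 0 < 2 / ε := by positivity
  have hx1 : 1 ≤ x := by linarith
  have hx0 : 0 < x := by linarith
  have h3 : (1 + 2 * x) ^ ((3 / 4) : ℝ) ≤ (3 * x) ^ ((3 / 4) : ℝ) :=
    Real.rpow_le_rpow (by linarith) (by linarith) (by norm_num)
  have h4 : (3 * x) ^ ((3 / 4) : ℝ) ≤ 3 * x ^ ((3 / 4) : ℝ) := by
    rw [Real.mul_rpow (by norm_num) hx0.le]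
    refine mul_le_mul_of_nonneg_right ?_ (by positivity)
    calc (3 : ℝ) ^ ((3 / 4) : ℝ) ≤ (3 : ℝ) ^ (1 : ℝ) :=
          Real.rpow_le_rpow_of_exponent_le (by norm_num) (by norm_num)
      _ = 3 := Real.rpow_one 3
  have h5 : 6 * K / ε ≤ x ^ ((1 / 4) : ℝ) := by
    have h6 : ((6 * K / ε) ^ 4) ^ ((1 / 4) : ℝ) ≤ x ^ ((1 / 4) : ℝ) :=
      Real.rpow_le_rpow hp1.le (by linarith) (by norm_num)
    refine le_trans (le_of_eq ?_) h6
    rw [← Real.rpow_natCast (6 * K / ε) 4, ← Real.rpow_mul (by positivity)]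
    norm_num
  have h6 : x ^ ((1 / 4) : ℝ) * x ^ ((3 / 4) : ℝ) = x := by
    rw [← Real.rpow_add hx0]
    norm_num
  have h7 : 0 < x ^ ((3 / 4) : ℝ) := Real.rpow_pos_of_pos hx0 _
  have h8 : 6 * K * x ^ ((3 / 4) : ℝ) ≤ ε * x := by
    have h9 : 6 * K / ε * x ^ ((3 / 4) : ℝ) ≤ x := by
      calc _ ≤ x ^ ((1 / 4) : ℝ) * x ^ ((3 / 4) : ℝ) := mul_le_mul_of_nonneg_right h5 h7.le
        _ = x := h6
    have h10 := mul_le_mul_of_nonneg_left h9 hε.le
    have h11 : ε * (6 * K / ε * x ^ ((3 / 4) : ℝ)) = 6 * K * x ^ ((3 / 4) : ℝ) := by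
      field_simp
    linarith
  have h9 : 2 ≤ ε * x := by
    have h10 : ε * (2 / ε) = 2 := by field_simp
    have h11 : ε * (2 / ε) ≤ ε * x := mul_le_mul_of_nonneg_left (by linarith) hε.le
    linarith
  have h10 := Real.log_two_lt_d9
  have h11 : K * (1 + 2 * x) ^ ((3 / 4) : ℝ) ≤ K * (3 * x ^ ((3 / 4) : ℝ)) :=
    mul_le_mul_of_nonneg_left (h3.trans h4) hK.le
  nlinarith

end Jl

open Jl in
/-- SV-J1. Lower bound for `J`. -/
theorem JJ_lower (ε : ℝ) (hε : 0 < ε) : ∃ N₀ : ℕ, ∀ N : ℕ, N₀ ≤ N → ∀ q R₀ R : ℕ,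
    1 ≤ q → q ≤ N → 1 ≤ R₀ → R₀ ≤ R → R ≤ N →
    (q.totient : ℝ) / q * (Real.log R - Real.log R₀ - ε * Real.log N) ≤ JJ q R₀ R := by
  obtain ⟨K, hK0, hK⟩ := tail_bd
  obtain ⟨N₀, hN₀⟩ := choose_N ε K hε hK0
  refine ⟨N₀, fun N hN q R₀ R hq hqN hR0 hR0R hRN => ?_⟩
  have h1 := hN₀ N hN
  have h2 := hK N q R₀ R hq hqN
  have h3 := partA hq R₀ R
  have h4 := harm_lower R₀ R hR0 hR0R
  have h5 : ∑ m ∈ Ioc R₀ R, 1 / (m : ℝ) =
      ∑ m ∈ (Ioc R₀ R).filter (fun m => R₀ < rho q m), 1 / (m : ℝ) +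
      ∑ m ∈ (Ioc R₀ R).filter (fun m => ¬ R₀ < rho q m), 1 / (m : ℝ) :=
    (sum_filter_add_sum_filter_not _ _ _).symm
  have hq0 : (0 : ℝ) < q := by exact_mod_cast hq
  have hphi : (0 : ℝ) < q.totient := tot_pos' hq
  have h6 : Real.log R - Real.log R₀ - ε * Real.log N ≤ (q : ℝ) / q.totient * JJ q R₀ R := by
    linarith
  have h7 : (q.totient : ℝ) / q * ((q : ℝ) / q.totient * JJ q R₀ R) = JJ q R₀ R := by
    field_simp
  calc _ ≤ (q.totient : ℝ) / q * ((q : ℝ) / q.totient * JJ q R₀ R) :=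
        mul_le_mul_of_nonneg_left h6 (by positivity)
    _ = _ := h7

/-- SV-J2. Upper bound for `J`. -/
theorem JJ_le (δ : ℝ) (hδ : 0 < δ) : ∃ C : ℝ, 0 < C ∧ ∀ N q R₀ R : ℕ, 1 ≤ N → R ≤ N →
    JJ q R₀ R ≤ C * (N : ℝ) ^ δ := by
  obtain ⟨C, hC1, hC⟩ := divisor_bound (δ / 2) (by linarith)
  have hd2 : 0 < δ / 2 := by linarith
  refine ⟨C * (1 + 2 / (δ / 2)), by positivity, fun N q R₀ R hN hR => ?_⟩
  have hN1 : (1 : ℝ) ≤ N := by exact_mod_cast hN
  have hN0 : (0 : ℝ) < N := by linarith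
  have hlog : 0 ≤ Real.log N := Real.log_nonneg hN1
  have h1 : JJ q R₀ R ≤ ∑ r ∈ Icc 1 N, C * (N : ℝ) ^ (δ / 2) * (1 / (r : ℝ)) := by
    unfold JJ
    calc ∑ r ∈ RS q R₀ R, 1 / (r.totient : ℝ)
        ≤ ∑ r ∈ Icc 1 N, 1 / (r.totient : ℝ) := by
          refine sum_le_sum_of_subset_of_nonneg ?_ fun r _ _ => by positivity
          intro r hr
          unfold RS at hr
          rw [mem_filter, mem_Ioc] at hr
          rw [mem_Icc]
          omega
      _ ≤ _ := by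
          refine sum_le_sum fun r hr => ?_
          rw [mem_Icc] at hr
          rw [mul_one_div]
          exact L1rAux.inv_tot hd2 hC hC1 hr.1 hr.2
  rw [← mul_sum] at h1
  have h2 := L1rAux.sum_inv_le N
  have h3 := L1rAux.log_fac hd2 hN
  have h4 : 0 ≤ C * (N : ℝ) ^ (δ / 2) := by positivity
  calc JJ q R₀ R ≤ C * (N : ℝ) ^ (δ / 2) * ∑ r ∈ Icc 1 N, 1 / (r : ℝ) := h1
    _ ≤ C * (N : ℝ) ^ (δ / 2) * ((1 + 2 / (δ / 2)) * (N : ℝ) ^ (δ / 2)) :=
        mul_le_mul_of_nonneg_left (h2.trans (by linarith)) h4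
    _ = C * (1 + 2 / (δ / 2)) * ((N : ℝ) ^ (δ / 2) * (N : ℝ) ^ (δ / 2)) := by ring
    _ = _ := by
        rw [← Real.rpow_add hN0]
        ring_nf

end Pool.Agent.M848.SV
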