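import Pool.Agent.Lib.MP_848d44_nt.SV.Fbd
import Pool.Agent.Lib.MP_848d44_nt.SV.Jlow

set_option autoImplicit false

/-!
# MP_848d44_nt, project SV, module Diag: the diagonal term
-/

noncomputable section

namespace Pool.Agent.M848.SV

open Finset Pool.Agent.M848 Pool.Agent.M848.FC
open scoped ArithmeticFunction.vonMangoldt ComplexConjugate

/-- the test function at `n` coprime to `r` for all `r` -/
private theorem diag_FS_eq (q R₀ R n : ℕ) (h : ∀ r ∈ RS q R₀ R, r.Coprime n) :
    FS q R₀ R (n : ℤ) = JJ q R₀ R := by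
  unfold FS JJ
  refine sum_congr rfl fun r hr => ?_
  rw [cc_cop r n (Nat.isCoprime_iff_coprime.2 (h r hr))]
  unfold br
  have hsq : Squarefree r := (mem_filter.1 hr).2.1
  have h1 : (ArithmeticFunction.moebius r : ℝ) * (ArithmeticFunction.moebius r : ℝ) = 1 := by
    have h2 := ArithmeticFunction.moebius_sq_eq_one_of_squarefree hsq
    have h3 : ((ArithmeticFunction.moebius r ^ 2 : ℤ) : ℝ) = 1 := by
      rw [h2]
      simp
    rw [← h3]
    push_cast
    ring
  rw [div_mul_eq_mul_div, h1]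

/-- pointwise bound of the test function -/
private theorem diag_FS_abs (q R₀ R : ℕ) (m : ℤ) :
    |FS q R₀ R m| ≤ ∑ r ∈ Icc 1 R, |br r| * |cc r m| := by
  unfold FS
  refine (abs_sum_le_sum_abs _ _).trans ?_
  have h1 : RS q R₀ R ⊆ Icc 1 R := by
    intro r hr
    have h2 := mem_Ioc.1 (mem_filter.1 hr).1
    exact mem_Icc.2 ⟨by omega, h2.2⟩
  refine (sum_le_sum_of_subset_of_nonneg h1 fun r _ _ => abs_nonneg _).trans (le_of_eq ?_)
  exact sum_congr rfl fun r _ => abs_mul _ _

private theorem diag_JJ_nonneg (q R₀ R : ℕ) : 0 ≤ JJ q R₀ R := by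
  unfold JJ
  exact sum_nonneg fun r _ => by positivity

/-- the primes in question -/
private def diagS (q R : ℕ) : Finset ℕ := q.primeFactors ∪ Icc 1 R

private theorem diag_omega (q : ℕ) (hq : 1 ≤ q) :
    (q.primeFactors.card : ℝ) * Real.log 2 ≤ Real.log q := by
  have h1 : 2 ^ q.primeFactors.card ≤ q := by
    calc 2 ^ q.primeFactors.card = ∏ _p ∈ q.primeFactors, 2 := by rw [prod_const]
      _ ≤ ∏ p ∈ q.primeFactors, p :=
          prod_le_prod' fun p hp => (Nat.prime_of_mem_primeFactors hp).two_le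
      _ ≤ q := Nat.le_of_dvd hq (Nat.prod_primeFactors_dvd q)
  have h2 : ((2 : ℝ)) ^ q.primeFactors.card ≤ q := by exact_mod_cast h1
  have h3 := Real.log_le_log (by positivity) h2
  rwa [Real.log_pow] at h3

/-- the sum of the von Mangoldt function over the prime powers of the primes in `S` -/
private theorem diag_sum (N : ℕ) (hN : 1 ≤ N) (S : Finset ℕ) :
    ∑ n ∈ Icc 1 N, ∑ p ∈ S, (if n ∣ p ^ Nat.log p N then (Λ n : ℝ) else 0) ≤
      S.card * Real.log N := by
  rw [sum_comm, ← nsmul_eq_mul]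
  refine sum_le_card_nsmul _ _ _ fun p _ => ?_
  rcases Nat.eq_zero_or_pos p with hp | hp
  · subst hp
    have h1 : ∑ n ∈ Icc 1 N, (if n ∣ 0 ^ Nat.log 0 N then (Λ n : ℝ) else 0) = 0 := by
      refine sum_eq_zero fun n hn => ?_
      rw [Nat.log_zero_left, pow_zero]
      split_ifs with h
      · rw [Nat.dvd_one.1 h]
        simp
      · rfl
    rw [h1]
    exact Real.log_nonneg (by exact_mod_cast hN)
  · have hm : p ^ Nat.log p N ≤ N := Nat.pow_log_le_self p (by omega)
    have hm0 : 0 < p ^ Nat.log p N := Nat.pow_pos hp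
    rw [← sum_filter]
    have h1 : (Icc 1 N).filter (fun n => n ∣ p ^ Nat.log p N) ⊆ (p ^ Nat.log p N).divisors := by
      intro n hn
      exact Nat.mem_divisors.2 ⟨(mem_filter.1 hn).2, hm0.ne'⟩
    refine (sum_le_sum_of_subset_of_nonneg h1 fun n _ _ =>
      ArithmeticFunction.vonMangoldt_nonneg).trans ?_
    rw [ArithmeticFunction.vonMangoldt_sum]
    exact Real.log_le_log (by exact_mod_cast hm0) (by exact_mod_cast hm)

/-- the exceptional `n` -/
private theorem diag_exc (N q R₀ R n : ℕ) (hq : 1 ≤ q) (hn : n ∈ Icc 1 N) (hL : (Λ n : ℝ) ≠ 0)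
    (hE : ¬ (n.Coprime q ∧ ∀ r ∈ RS q R₀ R, r.Coprime n)) :
    (Λ n : ℝ) ≤ ∑ p ∈ diagS q R, (if n ∣ p ^ Nat.log p N then (Λ n : ℝ) else 0) := by
  have hpp : IsPrimePow n := by
    rwa [Ne, ArithmeticFunction.vonMangoldt_eq_zero_iff, not_not] at hL
  obtain ⟨p, k, hp, hk, rfl⟩ := (isPrimePow_nat_iff n).1 hpp
  have hmem : p ∈ diagS q R := by
    unfold diagS
    rw [mem_union]
    rw [not_and_or] at hE
    rcases hE with h | h
    · left
      rw [Nat.coprime_pow_left_iff hk, hp.coprime_iff_not_dvd, not_not] at h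
      exact Nat.mem_primeFactors.2 ⟨hp, h, by omega⟩
    · right
      rw [not_forall] at h
      obtain ⟨r, h⟩ := h
      rw [Classical.not_imp] at h
      obtain ⟨hr, hr2⟩ := h
      rw [Nat.coprime_pow_right_iff hk, Nat.coprime_comm, hp.coprime_iff_not_dvd, not_not] at hr2
      have h2 := mem_Ioc.1 (mem_filter.1 hr).1
      exact mem_Icc.2 ⟨hp.one_lt.le, (Nat.le_of_dvd (by omega) hr2).trans h2.2⟩
  have hdvd : p ^ k ∣ p ^ Nat.log p N :=
    pow_dvd_pow p (Nat.le_log_of_pow_le hp.one_lt (mem_Icc.1 hn).2)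
  have h1 := single_le_sum (f := fun p' => if p ^ k ∣ p' ^ Nat.log p' N then (Λ (p ^ k) : ℝ) else 0)
    (fun p' _ => by
      split_ifs
      · exact ArithmeticFunction.vonMangoldt_nonneg
      · exact le_rfl) hmem
  rwa [if_pos hdvd] at h1

theorem diag_one (δ : ℝ) (hδ : 0 < δ) : ∃ C : ℝ, 0 < C ∧ ∀ N q R₀ R : ℕ, 1 ≤ q → q ≤ N →
    1 ≤ R → R ≤ N → ∀ W : ℤ → ℝ, Wgt W N →
      |Dg W N q R₀ R - JJ q R₀ R * ∑ n ∈ Icc 1 N, (Λ n : ℝ) * W (n : ℤ)| ≤
        C * (N : ℝ) ^ δ * R := by
  obtain ⟨C0, hC0, hF⟩ := F_bound (δ / 4) (by linarith)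
  obtain ⟨C1, hC1, hJ⟩ := JJ_le (δ / 4) (by linarith)
  -- a bound for the logarithm
  have hlog : ∀ N : ℕ, 1 ≤ N → Real.log N ≤ (4 / δ) * (N : ℝ) ^ (δ / 4) := by
    intro N hN
    have h1 : (1 : ℝ) ≤ N := by exact_mod_cast hN
    have h2 := Real.log_le_rpow_div (by linarith : (0 : ℝ) ≤ (N : ℝ)) (by linarith : 0 < δ / 4)
    refine h2.trans (le_of_eq ?_)
    field_simp
  refine ⟨(C0 + C1) * ((8 / δ + 1) * (4 / δ)), by positivity, ?_⟩
  intro N q R₀ R hq hqN hR hRN W hW
  have hN : 1 ≤ N := hq.trans hqN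
  have hN1 : (1 : ℝ) ≤ N := by exact_mod_cast hN
  have hR1 : (1 : ℝ) ≤ R := by exact_mod_cast hR
  obtain ⟨X, hX⟩ : ∃ X : ℝ, X = (N : ℝ) ^ (δ / 4) := ⟨_, rfl⟩
  have hX1 : 1 ≤ X := by
    rw [hX]
    exact Real.one_le_rpow hN1 (by linarith)
  have hXd : X * X * X * X = (N : ℝ) ^ δ := by
    rw [hX, ← Real.rpow_add (by linarith), ← Real.rpow_add (by linarith),
      ← Real.rpow_add (by linarith)]
    congr 1
    ring
  obtain ⟨K, hK⟩ : ∃ K : ℝ, K = (C0 + C1) * X := ⟨_, rfl⟩
  have hK0 : 0 ≤ K := by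
    rw [hK]
    positivity
  -- the difference
  have h1 : Dg W N q R₀ R - JJ q R₀ R * ∑ n ∈ Icc 1 N, (Λ n : ℝ) * W (n : ℤ) =
      ∑ n ∈ Icc 1 N, (Λ n : ℝ) * W (n : ℤ) *
        ((if n.Coprime q then FS q R₀ R (n : ℤ) else 0) - JJ q R₀ R) := by
    unfold Dg
    rw [sum_filter, mul_sum, ← sum_sub_distrib]
    refine sum_congr rfl fun n _ => ?_
    split_ifs <;> ring
  rw [h1]
  refine (abs_sum_le_sum_abs _ _).trans ?_
  have h2 : ∀ n ∈ Icc 1 N, |(Λ n : ℝ) * W (n : ℤ) *
      ((if n.Coprime q then FS q R₀ R (n : ℤ) else 0) - JJ q R₀ R)| ≤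
      K * ∑ p ∈ diagS q R, (if n ∣ p ^ Nat.log p N then (Λ n : ℝ) else 0) := by
    intro n hn
    have hn1 := mem_Icc.1 hn
    have hL0 : 0 ≤ (Λ n : ℝ) := ArithmeticFunction.vonMangoldt_nonneg
    have hs0 : 0 ≤ ∑ p ∈ diagS q R, (if n ∣ p ^ Nat.log p N then (Λ n : ℝ) else 0) :=
      sum_nonneg fun p _ => by
        split_ifs
        · exact hL0
        · exact le_rfl
    by_cases hE : n.Coprime q ∧ ∀ r ∈ RS q R₀ R, r.Coprime n
    · rw [if_pos hE.1, diag_FS_eq q R₀ R n hE.2, sub_self, mul_zero, abs_zero]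
      exact mul_nonneg hK0 hs0
    · by_cases hL : (Λ n : ℝ) = 0
      · rw [hL, zero_mul, zero_mul, abs_zero]
        refine mul_nonneg hK0 (sum_nonneg fun p _ => ?_)
        rw [ite_self]
      · have h3 := diag_exc N q R₀ R n hq hn hL hE
        have h4 : |(if n.Coprime q then FS q R₀ R (n : ℤ) else 0) - JJ q R₀ R| ≤ K := by
          have h5 : |(if n.Coprime q then FS q R₀ R (n : ℤ) else 0)| ≤ C0 * X := by
            split_ifs
            · refine (diag_FS_abs q R₀ R n).trans ?_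
              rw [hX]
              exact hF N R hN hRN n (by omega) (by
                rw [Int.natAbs_natCast]
                exact hn1.2)
            · rw [abs_zero]
              positivity
          have h6 := hJ N q R₀ R hN hRN
          rw [← hX] at h6
          have h7 := diag_JJ_nonneg q R₀ R
          rw [hK]
          refine (abs_sub _ _).trans ?_
          rw [abs_of_nonneg h7]
          linarith
        have h8 : |W (n : ℤ)| ≤ 1 := by
          rw [abs_of_nonneg (hW.nonneg _)]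
          exact hW.le_one _
        rw [abs_mul, abs_mul, abs_of_nonneg hL0]
        calc (Λ n : ℝ) * |W (n : ℤ)| *
              |(if n.Coprime q then FS q R₀ R (n : ℤ) else 0) - JJ q R₀ R|
            ≤ (Λ n : ℝ) * 1 * K :=
              mul_le_mul (mul_le_mul_of_nonneg_left h8 hL0) h4 (abs_nonneg _) (by linarith)
          _ = K * (Λ n : ℝ) := by ring
          _ ≤ _ := mul_le_mul_of_nonneg_left h3 hK0
  refine (sum_le_sum h2).trans ?_
  rw [← mul_sum]
  have h3 := diag_sum N hN (diagS q R)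
  have h4 : ((diagS q R).card : ℝ) ≤ (8 / δ + 1) * X * R := by
    have h5 : (diagS q R).card ≤ q.primeFactors.card + R := by
      refine (card_union_le _ _).trans ?_
      rw [Nat.card_Icc]
      omega
    have h6 : ((diagS q R).card : ℝ) ≤ q.primeFactors.card + R := by exact_mod_cast h5
    have h7 := diag_omega q hq
    have h8 : Real.log q ≤ Real.log N :=
      Real.log_le_log (by exact_mod_cast hq) (by exact_mod_cast hqN)
    have h9 := hlog N hN
    rw [← hX] at h9
    have h10 := Real.log_two_gt_d9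
    norm_num at h10
    have h11 : (q.primeFactors.card : ℝ) ≤ 8 / δ * X := by
      have h12 : (q.primeFactors.card : ℝ) * (1 / 2) ≤ 4 / δ * X := by
        refine le_trans ?_ (h7.trans (h8.trans h9))
        exact mul_le_mul_of_nonneg_left (by linarith) (Nat.cast_nonneg _)
      have h13 : 8 / δ * X = 2 * (4 / δ * X) := by ring
      rw [h13]
      linarith
    have h14 : 0 ≤ 8 / δ * X := by positivity
    calc ((diagS q R).card : ℝ) ≤ q.primeFactors.card + R := h6
      _ ≤ 8 / δ * X + R := by linarith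
      _ ≤ 8 / δ * X * R + X * R := by
          have h15 : 8 / δ * X * 1 ≤ 8 / δ * X * R := mul_le_mul_of_nonneg_left hR1 h14
          have h16 : 1 * (R : ℝ) ≤ X * R := mul_le_mul_of_nonneg_right hX1 (by linarith)
          linarith
      _ = (8 / δ + 1) * X * R := by ring
  have h5 := hlog N hN
  rw [← hX] at h5
  have h6 : 0 ≤ Real.log N := Real.log_nonneg hN1
  calc K * ∑ n ∈ Icc 1 N, ∑ p ∈ diagS q R, (if n ∣ p ^ Nat.log p N then (Λ n : ℝ) else 0)
      ≤ K * ((diagS q R).card * Real.log N) := mul_le_mul_of_nonneg_left h3 hK0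
    _ ≤ K * ((8 / δ + 1) * X * R * (4 / δ * X)) := by
        refine mul_le_mul_of_nonneg_left ?_ hK0
        exact mul_le_mul h4 h5 h6 (by positivity)
    _ = (C0 + C1) * ((8 / δ + 1) * (4 / δ)) * (X * X * X) * R := by
        rw [hK]
        ring
    _ ≤ (C0 + C1) * ((8 / δ + 1) * (4 / δ)) * (X * X * X * X) * R := by
        refine mul_le_mul_of_nonneg_right ?_ (by linarith)
        refine mul_le_mul_of_nonneg_left ?_ (by positivity)
        have h7 : 0 ≤ X * X * X := by positivity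
        nlinarith
    _ = _ := by rw [hXd]

end Pool.Agent.M848.SV
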