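import Pool.Agent.Lib.MP_848d44_nt.SV.Bs3
import Pool.Agent.Lib.MP_848d44_nt.F.GaussP
import Pool.Agent.Lib.MP_848d44_nt.F.L1p
import Pool.Agent.Lib.MP_848d44_nt.F.Pvr

/-!
# MP_848d44_nt, project SV, module Dual: the dual form of a smooth complete character sum
-/

set_option autoImplicit false

noncomputable section

namespace Pool.Agent.M848.SV

open Finset Pool.Agent.M848 Pool.Agent.M848.FC
open scoped ArithmeticFunction.vonMangoldt ComplexConjugate

namespace Dual80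

/-- the exponential of an integer multiple of a real angle -/
def ex (θ : ℝ) (k : ℤ) : ℂ := Complex.exp (Complex.I * ((k * θ : ℝ) : ℂ))

theorem ex_norm (θ : ℝ) (k : ℤ) : ‖ex θ k‖ = 1 := by
  rw [ex, mul_comm]
  exact Complex.norm_exp_ofReal_mul_I _

theorem ex_add (θ : ℝ) (k l : ℤ) : ex θ (k + l) = ex θ k * ex θ l := by
  rw [ex, ex, ex, ← Complex.exp_add]
  congr 1
  push_cast
  ring

theorem ex_sub (θ₁ θ₂ : ℝ) (k : ℤ) : ‖ex θ₁ k - ex θ₂ k‖ ≤ |(k : ℝ)| * |θ₁ - θ₂| := by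
  have h : ex θ₁ k - ex θ₂ k =
      ex θ₂ k * (Complex.exp (Complex.I * ((k * (θ₁ - θ₂) : ℝ) : ℂ)) - 1) := by
    rw [ex, ex, mul_sub, mul_one, ← Complex.exp_add]
    congr 2
    push_cast
    ring
  rw [h, norm_mul, ex_norm, one_mul, ← abs_mul]
  exact Real.norm_exp_I_mul_ofReal_sub_one_le

theorem ex_conj (θ : ℝ) (k : ℤ) : (starRingEnd ℂ) (ex θ k) = ex (-θ) k := by
  rw [ex, ex, ← Complex.exp_conj]
  congr 1
  rw [map_mul, Complex.conj_I, Complex.conj_ofReal]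
  push_cast
  ring

/-- the finite exponential sum -/
def gg (w : ℤ → ℝ) (M : ℕ) (θ : ℝ) : ℂ := ∑ k ∈ Icc (-(M : ℤ)) M, (w k : ℂ) * ex θ k

theorem gg_norm (w : ℤ → ℝ) (M : ℕ) (θ S₀ : ℝ)
    (h0 : ∑ k ∈ Icc (-(M : ℤ)) M, |w k| ≤ S₀) : ‖gg w M θ‖ ≤ S₀ := by
  refine le_trans (norm_sum_le _ _) (le_trans (Finset.sum_le_sum fun k _ => ?_) h0)
  rw [norm_mul, ex_norm, mul_one, Complex.norm_real, Real.norm_eq_abs]

theorem gg_sub (w : ℤ → ℝ) (M : ℕ) (θ₁ θ₂ S₁ : ℝ)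
    (h1 : ∑ k ∈ Icc (-(M : ℤ)) M, |(k : ℝ)| * |w k| ≤ S₁) :
    ‖gg w M θ₁ - gg w M θ₂‖ ≤ |θ₁ - θ₂| * S₁ := by
  rw [gg, gg, ← Finset.sum_sub_distrib]
  refine le_trans (norm_sum_le _ _) ?_
  calc ∑ k ∈ Icc (-(M : ℤ)) M, ‖(w k : ℂ) * ex θ₁ k - (w k : ℂ) * ex θ₂ k‖
      ≤ ∑ k ∈ Icc (-(M : ℤ)) M, |θ₁ - θ₂| * (|(k : ℝ)| * |w k|) := by
        refine Finset.sum_le_sum fun k _ => ?_
        rw [← mul_sub, norm_mul, Complex.norm_real, Real.norm_eq_abs]
        have := mul_le_mul_of_nonneg_left (ex_sub θ₁ θ₂ k) (abs_nonneg (w k))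
        calc |w k| * ‖ex θ₁ k - ex θ₂ k‖ ≤ |w k| * (|(k : ℝ)| * |θ₁ - θ₂|) := this
          _ = |θ₁ - θ₂| * (|(k : ℝ)| * |w k|) := by ring
    _ = |θ₁ - θ₂| * ∑ k ∈ Icc (-(M : ℤ)) M, |(k : ℝ)| * |w k| := by rw [Finset.mul_sum]
    _ ≤ |θ₁ - θ₂| * S₁ := mul_le_mul_of_nonneg_left h1 (abs_nonneg _)

theorem gg_conj (w : ℤ → ℝ) (M : ℕ) (θ : ℝ) :
    gg w M (-θ) = (starRingEnd ℂ) (gg w M θ) := by
  rw [gg, gg, map_sum]
  refine Finset.sum_congr rfl fun k _ => ?_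
  rw [map_mul, Complex.conj_ofReal, ex_conj]

/-- support of the iterated difference -/
theorem dif_supp (w : ℤ → ℝ) (M : ℕ) (hw : ∀ k, w k ≠ 0 → |k| ≤ (M : ℤ)) (J : ℕ) (k : ℤ)
    (hk : (dif 1)^[J] w k ≠ 0) : k ∈ Icc (-(M : ℤ)) ((M : ℤ) + J) := by
  induction J generalizing k with
  | zero =>
    have := hw k hk
    rw [abs_le] at this
    rw [Finset.mem_Icc]
    push_cast
    omega
  | succ J ih =>
    rw [Function.iterate_succ_apply', dif] at hk
    by_cases h1 : (dif 1)^[J] w k = 0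
    · have h2 : (dif 1)^[J] w (k - ((1 : ℕ) : ℤ)) ≠ 0 := by
        intro h2
        exact hk (by rw [h1, h2, sub_zero])
      have := ih _ h2
      rw [Finset.mem_Icc] at this ⊢
      push_cast at this ⊢
      omega
    · have := ih _ h1
      rw [Finset.mem_Icc] at this ⊢
      push_cast at this ⊢
      omega

/-- summation by parts -/
theorem parts (w : ℤ → ℝ) (M : ℕ) (hw : ∀ k, w k ≠ 0 → |k| ≤ (M : ℤ)) (θ : ℝ) (J : ℕ) :
    ∑ k ∈ Icc (-(M : ℤ)) ((M : ℤ) + J), (((dif 1)^[J] w k : ℝ) : ℂ) * ex θ k =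
      (1 - ex θ 1) ^ J * gg w M θ := by
  induction J with
  | zero => simp [gg]
  | succ J ih =>
    rw [pow_succ', mul_assoc, ← ih]
    set v : ℤ → ℝ := (dif 1)^[J] w with hv
    have hs := dif_supp w M hw J
    rw [← hv] at hs
    have e1 : ∀ k : ℤ, (dif 1)^[J + 1] w k = v k - v (k - 1) := by
      intro k
      rw [Function.iterate_succ_apply', dif]
      norm_num [hv]
    have e2 : ∑ k ∈ Icc (-(M : ℤ)) ((M : ℤ) + ((J + 1 : ℕ) : ℤ)),
        (((dif 1)^[J + 1] w k : ℝ) : ℂ) * ex θ k =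
        ∑ k ∈ Icc (-(M : ℤ)) ((M : ℤ) + ((J + 1 : ℕ) : ℤ)), (v k : ℂ) * ex θ k -
        ∑ k ∈ Icc (-(M : ℤ)) ((M : ℤ) + ((J + 1 : ℕ) : ℤ)), (v (k - 1) : ℂ) * ex θ k := by
      rw [← Finset.sum_sub_distrib]
      refine Finset.sum_congr rfl fun k _ => ?_
      rw [e1]
      push_cast
      ring
    rw [e2, sub_mul, one_mul]
    congr 1
    · symm
      apply Finset.sum_subset
      · intro k hk
        rw [Finset.mem_Icc] at hk ⊢
        push_cast
        omega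
      · intro k _ hk
        have : v k = 0 := by
          by_contra h
          exact hk (hs k h)
        rw [this]
        simp
    · rw [Finset.mul_sum]
      symm
      have hsub : (Icc (-(M : ℤ)) ((M : ℤ) + J)).image (fun k => k + 1) ⊆
          Icc (-(M : ℤ)) ((M : ℤ) + ((J + 1 : ℕ) : ℤ)) := by
        intro k hk
        rw [Finset.mem_image] at hk
        obtain ⟨j, hj, rfl⟩ := hk
        rw [Finset.mem_Icc] at hj ⊢
        push_cast
        omega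
      rw [← Finset.sum_subset hsub, Finset.sum_image (by intro a _ b _ h; simpa using h)]
      · refine Finset.sum_congr rfl fun k _ => ?_
        rw [add_sub_cancel_right, ex_add]
        ring
      · intro k _ hk
        have : v (k - 1) = 0 := by
          by_contra h
          apply hk
          rw [Finset.mem_image]
          exact ⟨k - 1, hs _ h, by ring⟩
        rw [this]
        simp

theorem parts_bound (w : ℤ → ℝ) (M : ℕ) (hw : ∀ k, w k ≠ 0 → |k| ≤ (M : ℤ)) (θ V c : ℝ)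
    (J : ℕ) (hc : 0 < c) (h : c ≤ ‖1 - ex θ 1‖)
    (hV : ∑ k ∈ Icc (-(M : ℤ)) ((M : ℤ) + J), |(dif 1)^[J] w k| ≤ V) :
    ‖gg w M θ‖ ≤ (1 / c) ^ J * V := by
  have h1 : ‖(1 - ex θ 1) ^ J * gg w M θ‖ ≤ V := by
    rw [← parts w M hw]
    refine le_trans (norm_sum_le _ _) (le_trans (Finset.sum_le_sum fun k _ => ?_) hV)
    rw [norm_mul, ex_norm, mul_one, Complex.norm_real, Real.norm_eq_abs]
  rw [norm_mul, norm_pow] at h1
  have h2 : c ^ J * ‖gg w M θ‖ ≤ V :=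
    le_trans (mul_le_mul_of_nonneg_right (pow_le_pow_left₀ hc.le h J) (norm_nonneg _)) h1
  have h3 : 0 < c ^ J := pow_pos hc J
  rw [one_div, inv_pow, inv_mul_eq_div, le_div_iff₀ h3, mul_comm]
  exact h2

/-- Abel summation -/
theorem abel (A : ℕ) (x g : ℕ → ℂ) :
    ∑ b ∈ Ioc 0 A, x b * g b =
      ∑ t ∈ Icc 1 A, (∑ a ∈ Ioc 0 t, x a) * (g t - g (t + 1)) +
        (∑ a ∈ Ioc 0 A, x a) * g (A + 1) := by
  induction A with
  | zero => simp
  | succ A ih =>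
    rw [Finset.sum_Ioc_succ_top (by omega), ih, Finset.sum_Icc_succ_top (by omega),
      Finset.sum_Ioc_succ_top (by omega)]
    ring

theorem abel_bound (A : ℕ) (x g : ℕ → ℂ) (c S : ℝ) (hg : ∀ b, ‖g b‖ ≤ S)
    (hd : ∀ b, ‖g b - g (b + 1)‖ ≤ c) :
    ‖∑ b ∈ Ioc 0 A, x b * g b‖ ≤
      c * ∑ t ∈ Icc 1 A, ‖∑ a ∈ Ioc 0 t, x a‖ + S * ‖∑ a ∈ Ioc 0 A, x a‖ := by
  rw [abel]
  refine le_trans (norm_add_le _ _) (add_le_add ?_ ?_)
  · rw [Finset.mul_sum]
    refine le_trans (norm_sum_le _ _) (Finset.sum_le_sum fun t _ => ?_)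
    rw [norm_mul, mul_comm]
    exact mul_le_mul_of_nonneg_right (hd t) (norm_nonneg _)
  · rw [norm_mul, mul_comm]
    exact mul_le_mul_of_nonneg_right (hg _) (norm_nonneg _)

/-- lower bound for `|1 - e(b/f)|` -/
theorem one_sub_ex (f b A : ℕ) (hf : 2 ≤ f) (h1 : A < b) (h2 : b + A < f) :
    4 * ((A : ℝ) + 1) / f ≤ ‖1 - ex (2 * Real.pi * b / f) 1‖ := by
  have hfp : (0 : ℝ) < f := by exact_mod_cast (by omega : 0 < f)
  have hpi := Real.pi_pos
  have e1 : ‖1 - ex (2 * Real.pi * b / f) 1‖ = ‖2 * Real.sin (2 * Real.pi * b / f / 2)‖ := by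
    rw [norm_sub_rev, ex]
    rw [show (((1 : ℤ) : ℝ) * (2 * Real.pi * b / f)) = 2 * Real.pi * b / f by norm_num]
    exact Complex.norm_exp_I_mul_ofReal_sub_one _
  rw [e1, Real.norm_eq_abs]
  refine le_trans ?_ (le_abs_self _)
  rw [show 2 * Real.pi * b / f / 2 = Real.pi * b / f by ring]
  have hb1 : (A : ℝ) + 1 ≤ b := by exact_mod_cast h1
  have hb2 : (b : ℝ) + (A + 1) ≤ f := by exact_mod_cast (by omega : b + (A + 1) ≤ f)
  rcases le_total ((b : ℝ)) (f / 2) with h | h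
  · have h3 := Real.mul_le_sin (x := Real.pi * b / f) (by positivity) (by
      rw [div_le_div_iff₀ hfp (by norm_num)]
      nlinarith)
    have h4 : 2 / Real.pi * (Real.pi * b / f) = 2 * b / f := by
      field_simp
    rw [h4] at h3
    have h5 : 4 * ((A : ℝ) + 1) / f ≤ 2 * (2 * b / f) := by
      rw [← mul_div_assoc, div_le_div_iff_of_pos_right hfp]
      linarith
    linarith
  · have h0 : Real.sin (Real.pi * b / f) = Real.sin (Real.pi * ((f : ℝ) - b) / f) := by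
      rw [← Real.sin_pi_sub]
      congr 1
      field_simp
    rw [h0]
    have h3 := Real.mul_le_sin (x := Real.pi * ((f : ℝ) - b) / f)
      (by apply div_nonneg _ hfp.le; apply mul_nonneg hpi.le; linarith) (by
      rw [div_le_div_iff₀ hfp (by norm_num)]
      nlinarith)
    have h4 : 2 / Real.pi * (Real.pi * ((f : ℝ) - b) / f) = 2 * ((f : ℝ) - b) / f := by
      field_simp
    rw [h4] at h3
    have h5 : 4 * ((A : ℝ) + 1) / f ≤ 2 * (2 * ((f : ℝ) - b) / f) := by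
      rw [← mul_div_assoc, div_le_div_iff_of_pos_right hfp]
      linarith
    linarith

theorem std_eq {f : ℕ} [NeZero f] (b : ℕ) (k : ℤ) :
    (ZMod.stdAddChar ((b : ZMod f) * (k : ZMod f)) : ℂ) = ex (2 * Real.pi * b / f) k := by
  have : ((b : ZMod f) * (k : ZMod f)) = (((b : ℤ) * k : ℤ) : ZMod f) := by push_cast; ring
  rw [this, ZMod.stdAddChar_coe, ex]
  congr 1
  push_cast
  ring

theorem sum_zmod {f : ℕ} [NeZero f] (F : ZMod f → ℂ) :
    ∑ b : ZMod f, F b = ∑ b ∈ range f, F (b : ZMod f) := by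
  symm
  apply Finset.sum_nbij' (fun b : ℕ => (b : ZMod f)) (fun b : ZMod f => b.val)
  · intro b _
    exact Finset.mem_univ _
  · intro b _
    rw [Finset.mem_range]
    exact ZMod.val_lt b
  · intro b hb
    rw [Finset.mem_range] at hb
    exact ZMod.val_cast_of_lt hb
  · intro b _
    exact ZMod.natCast_zmod_val b
  · intro b _
    rfl

/-- the sum over negative and positive integers -/
theorem sum_symm (M : ℕ) (F : ℤ → ℂ) (h0 : F 0 = 0) :
    ∑ k ∈ Icc 1 M, (F (k : ℤ) + F (-(k : ℤ))) = ∑ k ∈ Icc (-(M : ℤ)) M, F k := by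
  induction M with
  | zero => simp [h0]
  | succ M ih =>
    rw [Finset.sum_Icc_succ_top (by omega), ih]
    have e1 : Icc (-((M + 1 : ℕ) : ℤ)) ((M + 1 : ℕ) : ℤ) =
        insert (-((M + 1 : ℕ) : ℤ)) (insert ((M + 1 : ℕ) : ℤ) (Icc (-(M : ℤ)) M)) := by
      ext k
      simp only [Finset.mem_insert, Finset.mem_Icc]
      push_cast
      omega
    rw [e1, Finset.sum_insert, Finset.sum_insert]
    · ring
    · rw [Finset.mem_Icc]
      push_cast
      omega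
    · rw [Finset.mem_insert, Finset.mem_Icc]
      push_cast
      omega

end Dual80

open Dual80

theorem dual (f M A J : ℕ) (hf : 2 ≤ f) (hA : 2 * A < f) (χ : ℕ → ℂ) (h : χ ∈ pc f) (w : ℤ → ℝ)
    (hw : ∀ k, w k ≠ 0 → |k| ≤ (M : ℤ)) (S₀ S₁ V : ℝ)
    (h0 : ∑ k ∈ Icc (-(M : ℤ)) M, |w k| ≤ S₀)
    (h1 : ∑ k ∈ Icc (-(M : ℤ)) M, |(k : ℝ)| * |w k| ≤ S₁)
    (hV : ∑ k ∈ Icc (-(M : ℤ)) ((M : ℤ) + J), |(dif 1)^[J] w k| ≤ V) :
    ‖CC w M f χ‖ ≤ 2 / Real.sqrt f * (2 * Real.pi / f * S₁ *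
        ∑ t ∈ Icc 1 A, ‖∑ a ∈ Ioc 0 t, χ a‖ + S₀ * ‖∑ a ∈ Ioc 0 A, χ a‖) +
      Real.sqrt f * ((f : ℝ) / (4 * ((A : ℝ) + 1))) ^ J * V := by
  have : NeZero f := ⟨by omega⟩
  have : Fact (1 < f) := ⟨hf⟩
  have hfp : (0 : ℝ) < f := by exact_mod_cast (by omega : 0 < f)
  have hsq : (0 : ℝ) < √f := Real.sqrt_pos.2 hfp
  have hss : √(f : ℝ) * √f = f := Real.mul_self_sqrt hfp.le
  obtain ⟨χ', hp, rfl⟩ := GP.mem_pc h
  have hV0 : 0 ≤ V := le_trans (Finset.sum_nonneg fun _ _ => abs_nonneg _) hV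
  set g : ℕ → ℂ := fun b => gg w M (2 * Real.pi * b / f) with hg
  have hfm : ((f - 1 : ℕ) : ZMod f) = -1 := by
    rw [Nat.cast_sub (by omega), ZMod.natCast_self]
    simp
  -- the sum as a complete sum
  have c1 : CC w M f (fun n : ℕ => χ' (n : ZMod f)) =
      ∑ k ∈ Icc (-(M : ℤ)) M, χ'⁻¹ (k : ZMod f) * (w k : ℂ) := by
    have z0 : χ'⁻¹ (((0 : ℤ)) : ZMod f) * (w 0 : ℂ) = 0 := by
      rw [Int.cast_zero, MulChar.map_nonunit χ'⁻¹ (by simp), zero_mul]
    rw [← sum_symm M (fun k : ℤ => χ'⁻¹ (k : ZMod f) * (w k : ℂ)) z0, CC]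
    refine Finset.sum_congr rfl fun k _ => ?_
    have s1 : (starRingEnd ℂ) (χ' (k : ZMod f)) = χ'⁻¹ (k : ZMod f) := MulChar.star_apply' χ' _
    have s2 : χ' (-1 : ZMod f) = χ'⁻¹ (-1 : ZMod f) := by
      rw [MulChar.inv_apply_eq_inv']
      symm
      apply inv_eq_of_mul_eq_one_left
      rw [← map_mul]
      simp
    have s3 : χ'⁻¹ (((-(k : ℤ) : ℤ)) : ZMod f) = χ'⁻¹ (-1 : ZMod f) * χ'⁻¹ (k : ZMod f) := by
      rw [← map_mul]
      congr 1
      push_cast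
      ring
    simp only [hfm]
    rw [s1, s2, s3]
    push_cast
    ring
  have c2 : CC w M f (fun n : ℕ => χ' (n : ZMod f)) *
      gaussSum χ' (ZMod.stdAddChar : AddChar (ZMod f) ℂ) =
      ∑ b ∈ range f, χ' (b : ZMod f) * g b := by
    have hx := GP.expand (GP.prim_inv hp)
    rw [inv_inv] at hx
    rw [c1, Finset.sum_mul]
    have e1 : ∀ k ∈ Icc (-(M : ℤ)) (M : ℤ), χ'⁻¹ (k : ZMod f) * (w k : ℂ) *
        gaussSum χ' (ZMod.stdAddChar : AddChar (ZMod f) ℂ) =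
        ∑ b ∈ range f, χ' (b : ZMod f) * ((w k : ℂ) * ex (2 * Real.pi * b / f) k) := by
      intro k _
      rw [mul_right_comm, hx, sum_zmod, Finset.sum_mul]
      refine Finset.sum_congr rfl fun b _ => ?_
      rw [std_eq]
      ring
    rw [Finset.sum_congr rfl e1, Finset.sum_comm]
    refine Finset.sum_congr rfl fun b _ => ?_
    rw [hg, ← Finset.mul_sum]
    rfl
  have c3 : ‖CC w M f (fun n : ℕ => χ' (n : ZMod f))‖ =
      ‖∑ b ∈ range f, χ' (b : ZMod f) * g b‖ / √f := by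
    rw [← c2, norm_mul, GP.norm_eq hp, mul_div_assoc, div_self hsq.ne', mul_one]
  -- splitting
  have c4 : ∑ b ∈ range f, χ' (b : ZMod f) * g b =
      ∑ b ∈ Ioc 0 A, χ' (b : ZMod f) * g b +
      ∑ a ∈ Ioc 0 A, χ' (((f - a : ℕ)) : ZMod f) * g (f - a) +
      ∑ b ∈ Ioo A (f - A), χ' (b : ZMod f) * g b := by
    have e1 : range f = insert 0 ((Ioc 0 A ∪ Ico (f - A) f) ∪ Ioo A (f - A)) := by
      ext b
      simp only [Finset.mem_range, Finset.mem_insert, Finset.mem_union, Finset.mem_Ioc,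
        Finset.mem_Ico, Finset.mem_Ioo]
      omega
    have e2 : ∑ b ∈ Ico (f - A) f, χ' (b : ZMod f) * g b =
        ∑ a ∈ Ioc 0 A, χ' (((f - a : ℕ)) : ZMod f) * g (f - a) := by
      apply Finset.sum_nbij' (fun b => f - b) (fun a => f - a)
      · intro b hb
        rw [Finset.mem_Ico] at hb
        rw [Finset.mem_Ioc]
        omega
      · intro b hb
        rw [Finset.mem_Ioc] at hb
        rw [Finset.mem_Ico]
        omega
      · intro b hb
        rw [Finset.mem_Ico] at hb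
        omega
      · intro b hb
        rw [Finset.mem_Ioc] at hb
        omega
      · intro b hb
        rw [Finset.mem_Ico] at hb
        rw [show f - (f - b) = b by omega]
    rw [e1, Finset.sum_insert, Finset.sum_union, Finset.sum_union, e2]
    · rw [Nat.cast_zero, MulChar.map_nonunit χ' (by simp), zero_mul, zero_add]
    · rw [Finset.disjoint_left]
      intro b hb hb'
      rw [Finset.mem_Ioc] at hb
      rw [Finset.mem_Ico] at hb'
      omega
    · rw [Finset.disjoint_left]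
      intro b hb hb'
      rw [Finset.mem_union, Finset.mem_Ioc, Finset.mem_Ico] at hb
      rw [Finset.mem_Ioo] at hb'
      omega
    · simp only [Finset.mem_union, Finset.mem_Ioc, Finset.mem_Ico, Finset.mem_Ioo]
      omega
  set E1 : ℝ := ∑ t ∈ Icc 1 A, ‖∑ a ∈ Ioc 0 t, χ' (a : ZMod f)‖ with hE1
  set E2 : ℝ := ‖∑ a ∈ Ioc 0 A, χ' (a : ZMod f)‖ with hE2
  have hgn : ∀ b : ℕ, ‖g b‖ ≤ S₀ := fun b => gg_norm w M _ S₀ h0
  have hgd : ∀ b : ℕ, ‖g b - g (b + 1)‖ ≤ 2 * Real.pi / f * S₁ := by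
    intro b
    have := gg_sub w M (2 * Real.pi * b / f) (2 * Real.pi * ((b + 1 : ℕ) : ℝ) / f) S₁ h1
    refine le_trans this (le_of_eq ?_)
    congr 1
    rw [show 2 * Real.pi * (b : ℝ) / f - 2 * Real.pi * ((b + 1 : ℕ) : ℝ) / f =
      -(2 * Real.pi / f) by push_cast; ring, abs_neg, abs_of_pos (by positivity)]
  have p1 : ‖∑ b ∈ Ioc 0 A, χ' (b : ZMod f) * g b‖ ≤ 2 * Real.pi / f * S₁ * E1 + S₀ * E2 :=
    abel_bound A (fun b => χ' (b : ZMod f)) g _ _ hgn hgd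
  have p2 : ‖∑ a ∈ Ioc 0 A, χ' (((f - a : ℕ)) : ZMod f) * g (f - a)‖ ≤
      2 * Real.pi / f * S₁ * E1 + S₀ * E2 := by
    have e1 : ∑ a ∈ Ioc 0 A, χ' (((f - a : ℕ)) : ZMod f) * g (f - a) =
        χ' (-1) * ∑ a ∈ Ioc 0 A, χ' (a : ZMod f) * (starRingEnd ℂ) (g a) := by
      rw [Finset.mul_sum]
      refine Finset.sum_congr rfl fun a ha => ?_
      rw [Finset.mem_Ioc] at ha
      have u1 : (((f - a : ℕ)) : ZMod f) = -1 * (a : ZMod f) := by
        rw [Nat.cast_sub (by omega), ZMod.natCast_self]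
        ring
      have u2 : g (f - a) = (starRingEnd ℂ) (g a) := by
        simp only [hg]
        rw [← gg_conj, gg, gg]
        refine Finset.sum_congr rfl fun k _ => ?_
        congr 1
        rw [← std_eq (f := f) (f - a) k]
        have u3 : ex (-(2 * Real.pi * a / f)) k = ex (2 * Real.pi * a / f) (-k) := by
          rw [ex, ex]
          congr 2
          push_cast
          ring
        rw [u3, ← std_eq (f := f) a (-k), u1]
        congr 1
        push_cast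
        ring
      rw [u1, u2, map_mul]
      ring
    rw [e1, norm_mul]
    have e2 : ‖χ' (-1 : ZMod f)‖ ≤ 1 := DirichletCharacter.norm_le_one _ _
    have e3 := abel_bound A (fun b => χ' (b : ZMod f)) (fun b => (starRingEnd ℂ) (g b))
      (2 * Real.pi / f * S₁) S₀ (fun b => by rw [RCLike.norm_conj]; exact hgn b)
      (fun b => by rw [← map_sub, RCLike.norm_conj]; exact hgd b)
    calc _ ≤ 1 * ‖∑ a ∈ Ioc 0 A, χ' (a : ZMod f) * (starRingEnd ℂ) (g a)‖ :=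
          mul_le_mul_of_nonneg_right e2 (norm_nonneg _)
      _ ≤ _ := by rw [one_mul]; exact e3
  have p3 : ‖∑ b ∈ Ioo A (f - A), χ' (b : ZMod f) * g b‖ ≤
      f * (((f : ℝ) / (4 * ((A : ℝ) + 1))) ^ J * V) := by
    refine le_trans (norm_sum_le _ _) ?_
    have hc0 : 0 ≤ ((f : ℝ) / (4 * ((A : ℝ) + 1))) ^ J * V := by positivity
    calc ∑ b ∈ Ioo A (f - A), ‖χ' (b : ZMod f) * g b‖
        ≤ ∑ _b ∈ Ioo A (f - A), ((f : ℝ) / (4 * ((A : ℝ) + 1))) ^ J * V := by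
          refine Finset.sum_le_sum fun b hb => ?_
          rw [Finset.mem_Ioo] at hb
          rw [norm_mul]
          have q1 : ‖χ' (b : ZMod f)‖ ≤ 1 := DirichletCharacter.norm_le_one _ _
          have q2 := parts_bound w M hw (2 * Real.pi * b / f) V (4 * ((A : ℝ) + 1) / f) J
            (by positivity) (one_sub_ex f b A hf (by omega) (by omega)) hV
          rw [one_div_div] at q2
          calc ‖χ' (b : ZMod f)‖ * ‖g b‖ ≤ 1 * ‖g b‖ :=
                mul_le_mul_of_nonneg_right q1 (norm_nonneg _)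
            _ ≤ _ := by rw [one_mul]; exact q2
      _ = ((Ioo A (f - A)).card : ℝ) * (((f : ℝ) / (4 * ((A : ℝ) + 1))) ^ J * V) := by
          rw [Finset.sum_const, nsmul_eq_mul]
      _ ≤ f * (((f : ℝ) / (4 * ((A : ℝ) + 1))) ^ J * V) := by
          refine mul_le_mul_of_nonneg_right ?_ hc0
          rw [Nat.card_Ioo]
          exact_mod_cast (by omega : f - A - A - 1 ≤ f)
  rw [c3, c4, div_le_iff₀ hsq]
  have p4 := norm_add₃_le (a := ∑ b ∈ Ioc 0 A, χ' (b : ZMod f) * g b)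
    (b := ∑ a ∈ Ioc 0 A, χ' (((f - a : ℕ)) : ZMod f) * g (f - a))
    (c := ∑ b ∈ Ioo A (f - A), χ' (b : ZMod f) * g b)
  refine le_trans p4 ?_
  have p5 : (2 / √(f : ℝ) * (2 * Real.pi / f * S₁ * E1 + S₀ * E2) +
      √f * ((f : ℝ) / (4 * ((A : ℝ) + 1))) ^ J * V) * √f =
      2 * (2 * Real.pi / f * S₁ * E1 + S₀ * E2) +
        f * (((f : ℝ) / (4 * ((A : ℝ) + 1))) ^ J * V) := by
    rw [add_mul]
    congr 1
    · rw [div_mul_eq_mul_div, div_mul_cancel₀ _ hsq.ne']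
    · calc √(f : ℝ) * ((f : ℝ) / (4 * ((A : ℝ) + 1))) ^ J * V * √f
          = (√(f : ℝ) * √f) * (((f : ℝ) / (4 * ((A : ℝ) + 1))) ^ J * V) := by ring
        _ = _ := by rw [hss]
  rw [p5]
  linarith

end Pool.Agent.M848.SV
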