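import Pool.Agent.Lib.MP_848d44_nt.SV.Cc
import Pool.Agent.Lib.MP_848d44_nt.F.L1r

set_option autoImplicit false

/-!
# MP_848d44_nt, project SV, module Fbd

A POINTWISE BOUND. |br r| <= 1/phi(r) <= C N^(delta/4)/r (divisor_bound, inv_tot), |cc r m| <= sum_{d | r, d | m} d (cc_abs), so the
sum is at most C N^(delta/4) sum_{d | m} sum_{r <= R, d | r} d/r <= C N^(delta/4) tau(|m|) (1 + log N) (r = d r'), and
tau(|m|) <= C' N^(delta/4) because 1 <= |m| <= N.
-/

noncomputable section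

namespace Pool.Agent.M848.SV

open Finset Pool.Agent.M848 Pool.Agent.M848.FC
open scoped ArithmeticFunction.vonMangoldt ComplexConjugate

namespace FbdAux

theorem br_abs (r : ℕ) : |br r| ≤ 1 / (r.totient : ℝ) := by
  unfold br
  rw [abs_div, Nat.abs_cast]
  refine div_le_div_of_nonneg_right ?_ (Nat.cast_nonneg _)
  have h := ArithmeticFunction.abs_moebius_le_one (n := r)
  have h2 : |((ArithmeticFunction.moebius r : ℤ) : ℝ)| =
      ((|ArithmeticFunction.moebius r| : ℤ) : ℝ) := by push_cast; rfl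
  rw [h2]
  exact_mod_cast h

theorem inner (R d : ℕ) (hd : 1 ≤ d) :
    ∑ r ∈ (Icc 1 R).filter (fun r => d ∣ r), (d : ℝ) / r ≤ ∑ l ∈ Icc 1 R, 1 / (l : ℝ) := by
  have hd0 : (0 : ℝ) < d := by exact_mod_cast hd
  have hsub : (Icc 1 R).filter (fun r => d ∣ r) ⊆ (Icc 1 R).image (fun l => d * l) := by
    intro r hr
    rw [mem_filter, mem_Icc] at hr
    obtain ⟨l, rfl⟩ := hr.2
    rw [mem_image]
    refine ⟨l, ?_, rfl⟩
    rw [mem_Icc]
    constructor
    · rcases Nat.eq_zero_or_pos l with h | h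
      · rw [h, mul_zero] at hr; omega
      · exact h
    · exact (Nat.le_mul_of_pos_left l hd).trans hr.1.2
  refine (sum_le_sum_of_subset_of_nonneg hsub fun _ _ _ => by positivity).trans ?_
  rw [sum_image fun a _ b _ h => Nat.eq_of_mul_eq_mul_left hd h]
  refine le_of_eq (sum_congr rfl fun l hl => ?_)
  push_cast
  rw [div_mul_eq_div_div, div_self hd0.ne']

theorem cc_le (r : ℕ) (m : ℤ) (hm : m ≠ 0) :
    |cc r m| ≤ ∑ d ∈ m.natAbs.divisors.filter (fun d => d ∣ r), (d : ℝ) := by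
  refine (cc_abs r m).trans (sum_le_sum_of_subset_of_nonneg ?_ fun _ _ _ => Nat.cast_nonneg _)
  intro d hd
  rw [mem_filter, Nat.mem_divisors] at hd ⊢
  exact ⟨⟨Int.natCast_dvd.1 hd.2, Int.natAbs_ne_zero.2 hm⟩, hd.1.1⟩

end FbdAux

open FbdAux L1rAux in
theorem F_bound (δ : ℝ) (hδ : 0 < δ) : ∃ C : ℝ, 0 < C ∧ ∀ N R : ℕ, 1 ≤ N → R ≤ N →
    ∀ m : ℤ, m ≠ 0 → m.natAbs ≤ N →
      ∑ r ∈ Icc 1 R, |br r| * |cc r m| ≤ C * (N : ℝ) ^ δ := by
  set ε : ℝ := δ / 4 with hε
  have hε0 : 0 < ε := by positivity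
  obtain ⟨C1, hC1, hdiv⟩ := divisor_bound ε hε0
  set C3 : ℝ := 1 + 2 / ε with hC3
  have hC30 : 0 < C3 := by positivity
  refine ⟨C1 ^ 2 * C3, by positivity, fun N R hN hR m hm hmN => ?_⟩
  have hNr : (1 : ℝ) ≤ N := by exact_mod_cast hN
  have hlog : 0 ≤ Real.log N := Real.log_natCast_nonneg N
  set P : ℝ := (N : ℝ) ^ ε with hP
  have hP1 : 1 ≤ P := Real.one_le_rpow hNr hε0.le
  have hP0 : 0 < P := by linarith
  have hP4 : P ^ 4 = (N : ℝ) ^ δ := by
    rw [hP, ← Real.rpow_natCast, ← Real.rpow_mul (by positivity)]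
    congr 1
    rw [hε]; push_cast; ring
  have hlf : 1 + 2 * Real.log N ≤ C3 * P := log_fac hε0 hN
  have hinv : ∑ l ∈ Icc 1 R, 1 / (l : ℝ) ≤ C3 * P := by
    rcases Nat.eq_zero_or_pos R with h0 | h0
    · rw [h0]
      simp
      positivity
    · refine (sum_inv_le R).trans (le_trans ?_ hlf)
      have h1 : Real.log R ≤ Real.log N :=
        Real.log_le_log (by exact_mod_cast h0) (by exact_mod_cast hR)
      linarith
  have hM1 : 1 ≤ m.natAbs := Nat.one_le_iff_ne_zero.2 (Int.natAbs_ne_zero.2 hm)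
  have hcard : (m.natAbs.divisors.card : ℝ) ≤ C1 * P := by
    refine (hdiv _ hM1).trans (mul_le_mul_of_nonneg_left ?_ (by linarith))
    exact Real.rpow_le_rpow (Nat.cast_nonneg _) (by exact_mod_cast hmN) hε0.le
  calc ∑ r ∈ Icc 1 R, |br r| * |cc r m|
      ≤ ∑ r ∈ Icc 1 R, ∑ d ∈ m.natAbs.divisors.filter (fun d => d ∣ r),
          C1 * P * ((d : ℝ) / r) := by
        refine sum_le_sum fun r hr => ?_
        rw [mem_Icc] at hr
        have hr0 : (0 : ℝ) < r := by exact_mod_cast hr.1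
        have h1 : |br r| ≤ C1 * P / r :=
          (br_abs r).trans (inv_tot hε0 hdiv hC1 hr.1 (hr.2.trans hR))
        refine (mul_le_mul h1 (cc_le r m hm) (abs_nonneg _) (by positivity)).trans ?_
        rw [mul_sum]
        refine le_of_eq (sum_congr rfl fun d _ => ?_)
        ring
    _ = ∑ d ∈ m.natAbs.divisors, ∑ r ∈ (Icc 1 R).filter (fun r => d ∣ r),
          C1 * P * ((d : ℝ) / r) := by
        simp_rw [sum_filter]
        exact sum_comm
    _ ≤ ∑ d ∈ m.natAbs.divisors, C1 * P * (C3 * P) := by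
        refine sum_le_sum fun d hd => ?_
        rw [← mul_sum]
        refine mul_le_mul_of_nonneg_left ?_ (by positivity)
        exact (inner R d (Nat.pos_of_mem_divisors hd)).trans hinv
    _ = m.natAbs.divisors.card * (C1 * P * (C3 * P)) := by
        rw [sum_const, nsmul_eq_mul]
    _ ≤ (C1 * P) * (C1 * P * (C3 * P)) :=
        mul_le_mul_of_nonneg_right hcard (by positivity)
    _ = C1 ^ 2 * C3 * P ^ 3 := by ring
    _ ≤ C1 ^ 2 * C3 * P ^ 4 :=
        mul_le_mul_of_nonneg_left (pow_le_pow_right₀ hP1 (by norm_num)) (by positivity)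
    _ = C1 ^ 2 * C3 * (N : ℝ) ^ δ := by rw [hP4]

end Pool.Agent.M848.SV
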