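import Pool.Agent.Lib.MP_848d44_nt.SV.Base

set_option autoImplicit false

/-!
# MP_848d44_nt, project SV: the variance is bounded below by duality
-/

noncomputable section

namespace Pool.Agent.M848.SV

open Finset Pool.Agent.M848 Pool.Agent.M848.FC
open scoped ArithmeticFunction.vonMangoldt ComplexConjugate

/-- the mean over the classes -/
def MM (N q : ℕ) : ℝ := (∑ a ∈ Co q, Ps N q a) / (Co q).card

theorem Co_card (q : ℕ) (hq : 1 ≤ q) : (Co q).card = q.totient := by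
  unfold Co
  rw [Nat.totient_eq_card_coprime]
  congr 1
  ext a
  simp only [mem_filter, Nat.coprime_comm]

theorem VV_ge_mean (N q : ℕ) (hq : 1 ≤ q) (Y : ℝ) :
    ∑ a ∈ Co q, (Ps N q a - MM N q) ^ 2 ≤ VV N q Y := by
  have hc : (0 : ℝ) < (Co q).card := by
    rw [Co_card q hq]
    exact_mod_cast Nat.totient_pos.2 hq
  have h0 : ∑ a ∈ Co q, (Ps N q a - MM N q) = 0 := by
    rw [sum_sub_distrib, sum_const, nsmul_eq_mul, MM, mul_div_cancel₀ _ hc.ne', sub_self]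
  unfold VV
  have h1 : ∑ a ∈ Co q, (Ps N q a - Y) ^ 2 = ∑ a ∈ Co q, (Ps N q a - MM N q) ^ 2 +
      (Co q).card * (MM N q - Y) ^ 2 := by
    have h2 : ∀ a ∈ Co q, (Ps N q a - Y) ^ 2 = (Ps N q a - MM N q) ^ 2 +
        2 * (MM N q - Y) * (Ps N q a - MM N q) + (MM N q - Y) ^ 2 := fun a _ => by ring
    rw [sum_congr rfl h2, sum_add_distrib, sum_add_distrib, ← mul_sum, h0, sum_const, nsmul_eq_mul]
    ring
  rw [h1]
  have : 0 ≤ ((Co q).card : ℝ) * (MM N q - Y) ^ 2 := by positivity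
  linarith

theorem VV_dual (N q : ℕ) (hq : 1 ≤ q) (Y lam : ℝ) (T : ℕ → ℝ) :
    2 * lam * (∑ a ∈ Co q, Ps N q a * T a - MM N q * ∑ a ∈ Co q, T a) -
      lam ^ 2 * ∑ a ∈ Co q, T a ^ 2 ≤ VV N q Y := by
  refine le_trans ?_ (VV_ge_mean N q hq Y)
  rw [mul_sum, ← sum_sub_distrib, mul_sum, mul_sum, ← sum_sub_distrib]
  refine sum_le_sum fun a _ => ?_
  nlinarith [sq_nonneg ((Ps N q a - MM N q) - lam * T a)]

theorem Ps_sum (N q : ℕ) (hq : 1 ≤ q) : ∑ a ∈ Co q, Ps N q a ≤ ∑ n ∈ Icc 1 N, (Λ n : ℝ) := by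
  have h1 : ∑ a ∈ Co q, Ps N q a ≤ ∑ a ∈ range q, Ps N q a := by
    refine sum_le_sum_of_subset_of_nonneg (filter_subset _ _) fun a _ _ => ?_
    exact sum_nonneg fun n _ => ArithmeticFunction.vonMangoldt_nonneg
  refine h1.trans (le_of_eq ?_)
  unfold Ps
  rw [← sum_fiberwise_of_maps_to (s := Icc 1 N) (t := range q) (g := fun n => n % q)]
  intro n _
  exact mem_range.2 (Nat.mod_lt _ hq)

theorem MM_le (N q : ℕ) (hq : 1 ≤ q) (B : ℝ) (hB : ∑ n ∈ Icc 1 N, (Λ n : ℝ) ≤ B) :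
    0 ≤ MM N q ∧ MM N q ≤ B / q.totient := by
  have hc : (0 : ℝ) < q.totient := by exact_mod_cast Nat.totient_pos.2 hq
  unfold MM
  rw [Co_card q hq]
  refine ⟨div_nonneg (sum_nonneg fun a _ => sum_nonneg fun n _ =>
    ArithmeticFunction.vonMangoldt_nonneg) hc.le, ?_⟩
  gcongr
  exact (Ps_sum N q hq).trans hB

end Pool.Agent.M848.SV
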