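import Pool.Agent.Lib.MP_848d44_nt.SV.FinA

set_option autoImplicit false

/-!
# MP_848d44_nt, project SV: the main inequality with all errors as hypotheses
-/

noncomputable section

namespace Pool.Agent.M848.SV

open Finset Pool.Agent.M848 Pool.Agent.M848.FC
open scoped ArithmeticFunction.vonMangoldt ComplexConjugate

theorem JJ_nonneg (q R₀ R : ℕ) : 0 ≤ JJ q R₀ R := sum_nonneg fun r _ => by positivity

/-- the radical -/
def rd (q : ℕ) : ℕ := ∏ p ∈ q.primeFactors, p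

theorem rd_dvd (q : ℕ) : rd q ∣ q := Nat.prod_primeFactors_dvd q

theorem rd_sf (q : ℕ) : Squarefree (rd q) := by
  have h : (UniqueFactorizationMonoid.radical q) = rd q := by
    rw [Nat.radical_eq_prod_primeFactors]
    rfl
  rw [← h]
  exact UniqueFactorizationMonoid.squarefree_radical

theorem rd_pos (q : ℕ) : 1 ≤ rd q := prod_pos fun _ hp => (Nat.prime_of_mem_primeFactors hp).pos

theorem rd_pf (q : ℕ) : (rd q).primeFactors = q.primeFactors := by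
  unfold rd
  exact Nat.primeFactors_prod fun p hp => Nat.prime_of_mem_primeFactors hp

theorem rd_tot (q : ℕ) (hq : 1 ≤ q) :
    ((rd q).totient : ℝ) / rd q = (q.totient : ℝ) / q := by
  have h : ∀ n : ℕ, 1 ≤ n → (n.totient : ℝ) / n = ∏ p ∈ n.primeFactors, (1 - (p : ℝ)⁻¹) := by
    intro n hn
    have h1 := Nat.totient_eq_mul_prod_factors n
    have h2 : (n.totient : ℝ) = n * ∏ p ∈ n.primeFactors, (1 - (p : ℝ)⁻¹) := by
      have h3 := congrArg (fun x : ℚ => (x : ℝ)) h1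
      push_cast at h3
      exact h3
    have hn0 : (n : ℝ) ≠ 0 := by
      have : n ≠ 0 := by omega
      exact_mod_cast this
    rw [h2, mul_div_cancel_left₀ _ hn0]
  rw [h _ (rd_pos q), h _ hq, rd_pf]

/-- The main inequality. -/
theorem master (N q R₀ R : ℕ) (hq : 1 ≤ q) (W : ℤ → ℝ) (η E₁ E₂ E₃ E₄ E₅ τ : ℝ)
    (hψ : ∑ n ∈ Icc 1 N, (Λ n : ℝ) ≤ 2 * N)
    (hW : (1 - 3 * η) * N ≤ ∑ n ∈ Icc 1 N, (Λ n : ℝ) * W (n : ℤ))
    (hoff : ‖((A1 W N q R₀ R - Dg W N q R₀ R : ℝ) : ℂ) -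
          (MainS W N q R₀ R 1 + MainS W N q R₀ R (-1))‖ ≤ E₁)
    (hm1 : ‖MainS W N q R₀ R 1‖ ≤ E₂) (hm2 : ‖MainS W N q R₀ R (-1)‖ ≤ E₂)
    (hdg : |Dg W N q R₀ R - JJ q R₀ R * ∑ n ∈ Icc 1 N, (Λ n : ℝ) * W (n : ℤ)| ≤ E₃)
    (hmean : |∑ a ∈ Co q, TS W N q R₀ R a| ≤ E₄)
    (hsec : ∑ a ∈ Co q, TS W N q R₀ R a ^ 2 ≤
      JJ q R₀ R * (N * ((q.totient : ℝ) / q) + τ) + E₅) (Y : ℝ) :
    (1 - 6 * η) * ((q : ℝ) / q.totient * JJ q R₀ R) * N -
      (2 * ((q : ℝ) / q.totient) * (E₁ + 2 * E₂ + E₃ + 2 * N / q.totient * E₄) +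
        ((q : ℝ) / q.totient) ^ 2 * (JJ q R₀ R * τ + E₅)) ≤ VV N q Y := by
  have hφ : (0 : ℝ) < q.totient := by exact_mod_cast Nat.totient_pos.2 hq
  have hq0 : (0 : ℝ) < q := by exact_mod_cast hq
  have hJ := JJ_nonneg q R₀ R
  set lam : ℝ := (q : ℝ) / q.totient with hlam
  have hlam0 : 0 < lam := div_pos hq0 hφ
  set J := JJ q R₀ R with hJdef
  set S := ∑ n ∈ Icc 1 N, (Λ n : ℝ) * W (n : ℤ) with hS
  have h1 := VV_dual N q hq Y lam (fun a => TS W N q R₀ R a)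
  have hA : ∑ a ∈ Co q, Ps N q a * TS W N q R₀ R a = A1 W N q R₀ R := rfl
  -- the first moment
  have h2 : |A1 W N q R₀ R - Dg W N q R₀ R| ≤ E₁ + 2 * E₂ := by
    have h3 : ‖((A1 W N q R₀ R - Dg W N q R₀ R : ℝ) : ℂ)‖ ≤ E₁ + (E₂ + E₂) := by
      have h4 := norm_add_le (((A1 W N q R₀ R - Dg W N q R₀ R : ℝ) : ℂ) -
          (MainS W N q R₀ R 1 + MainS W N q R₀ R (-1)))
        (MainS W N q R₀ R 1 + MainS W N q R₀ R (-1))
      rw [sub_add_cancel] at h4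
      exact h4.trans (add_le_add hoff ((norm_add_le _ _).trans (add_le_add hm1 hm2)))
    rw [Complex.norm_real, Real.norm_eq_abs] at h3
    linarith
  have h5 : J * ((1 - 3 * η) * N) - (E₁ + 2 * E₂ + E₃) ≤ A1 W N q R₀ R := by
    have h6 := (abs_le.1 h2).1
    have h7 := (abs_le.1 hdg).1
    have h8 : J * ((1 - 3 * η) * N) ≤ J * S := mul_le_mul_of_nonneg_left hW hJ
    linarith
  -- the mean
  obtain ⟨hM0, hM⟩ := MM_le N q hq (2 * N) hψ
  have h9 : MM N q * ∑ a ∈ Co q, TS W N q R₀ R a ≤ 2 * N / q.totient * E₄ := by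
    have hE4 : 0 ≤ E₄ := (abs_nonneg _).trans hmean
    calc MM N q * ∑ a ∈ Co q, TS W N q R₀ R a ≤ MM N q * E₄ :=
          mul_le_mul_of_nonneg_left ((le_abs_self _).trans hmean) hM0
      _ ≤ _ := mul_le_mul_of_nonneg_right hM hE4
  have h10 : lam ^ 2 * ∑ a ∈ Co q, TS W N q R₀ R a ^ 2 ≤
      lam * J * N + lam ^ 2 * (J * τ + E₅) := by
    have e : lam ^ 2 * (J * (N * ((q.totient : ℝ) / q) + τ) + E₅) =
        lam * J * N + lam ^ 2 * (J * τ + E₅) := by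
      have : lam * ((q.totient : ℝ) / q) = 1 := by
        rw [hlam]
        field_simp
      calc _ = lam * J * N * (lam * ((q.totient : ℝ) / q)) + lam ^ 2 * (J * τ + E₅) := by ring
        _ = _ := by rw [this, mul_one]
    rw [← e]
    exact mul_le_mul_of_nonneg_left hsec (by positivity)
  rw [hA] at h1
  have h11 : 2 * lam * (J * ((1 - 3 * η) * N) - (E₁ + 2 * E₂ + E₃) - 2 * N / q.totient * E₄) ≤
      2 * lam * (A1 W N q R₀ R - MM N q * ∑ a ∈ Co q, TS W N q R₀ R a) :=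
    mul_le_mul_of_nonneg_left (by linarith) (by positivity)
  nlinarith [h1, h10, h11]

end Pool.Agent.M848.SV
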