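import Pool.Agent.Lib.MP_848d44_nt.SV.TriB

/-!
# MP_848d44_nt, project SV, module TriC: the weighted mean value theorem over a family
-/

set_option autoImplicit false

noncomputable section

namespace Pool.Agent.M848.SV.TriAux

open Finset MP848 ArithmeticFunction

variable {ι : Type*} [Fintype ι] {f : ι → ℕ → ℂ} {B D P : ℝ}

/-- Vaughan's identity for one member of the family. -/
theorem vau_point (F : Fam f B D P) (N U y : ℕ) (hU : 1 ≤ U) (hUN : U ^ 3 ≤ N) (hy : y ≤ N) (i₀ : ι) :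
    ‖∑ n ∈ Ioc 0 y, ((vonMangoldt n : ℝ) : ℂ) * f i₀ n‖ ≤
      4 * (U * (P * Real.log N)) +
      ‖∑ m ∈ Ioc U (N / U), ((tru U LamR * tru U MoeR) m : ℂ) * f i₀ m *
        ∑ k ∈ Ioc 0 (y / m), (ZetR k : ℂ) * f i₀ k‖ +
      ‖∑ m ∈ Ioc U (N / U), ((LamR - tru U LamR) m : ℂ) * f i₀ m *
        ∑ k ∈ Ioc 0 (y / m), ((1 - ZetR * tru U MoeR) k : ℂ) * f i₀ k‖ := by
  classical
  set W := N / U with hW
  have hWU : W * U ≤ N := Nat.div_mul_le_self N U
  have hN1 : 1 ≤ N := le_trans (by calc 1 = 1 ^ 3 := by norm_num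
    _ ≤ U ^ 3 := Nat.pow_le_pow_left hU 3) hUN
  have hUU : U * U ≤ W := by
    rw [hW, Nat.le_div_iff_mul_le hU]
    calc U * U * U = U ^ 3 := by ring
      _ ≤ N := hUN
  have hUW : U ≤ W := (Nat.le_mul_of_pos_left U hU).trans hUU
  have hUN' : U ≤ N := hUW.trans (Nat.div_le_self N U)
  have hP := F.oneP
  have hlog : 0 ≤ Real.log N := Real.log_natCast_nonneg N
  set Fu := tru U LamR with hFu
  set Gu := tru U MoeR with hGu
  -- the terms
  set T1 : ι → ℂ := fun i => ∑ n ∈ Ioc 0 y, (Fu n : ℂ) * f i n with hT1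
  set T2 : ι → ℂ := fun i => ∑ m ∈ Ioc 0 y, (Gu m : ℂ) * f i m *
    ∑ k ∈ Ioc 0 (y / m), (log k : ℂ) * f i k with hT2
  set T3a : ι → ℂ := fun i => ∑ m ∈ Ioc 0 U, ((Fu * Gu) m : ℂ) * f i m *
    ∑ k ∈ Ioc 0 (y / m), (ZetR k : ℂ) * f i k with hT3a
  set T3b : ι → ℂ := fun i => ∑ m ∈ Ioc U W, ((Fu * Gu) m : ℂ) * f i m *
    ∑ k ∈ Ioc 0 (y / m), (ZetR k : ℂ) * f i k with hT3b
  set T4 : ι → ℂ := fun i => ∑ m ∈ Ioc U W, ((LamR - Fu) m : ℂ) * f i m *
    ∑ k ∈ Ioc 0 (y / m), ((1 - ZetR * Gu) k : ℂ) * f i k with hT4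
  have hdiv0 : ∀ m, y < m → y / m = 0 := fun m hm => Nat.div_eq_of_lt hm
  have hdec : ∀ i, ∑ n ∈ Ioc 0 y, ((vonMangoldt n : ℝ) : ℂ) * f i n =
      T1 i + T2 i - (T3a i + T3b i) + T4 i := by
    intro i
    rw [vaughan_sum (f i) (F.mul i) Fu Gu y]
    congr 1
    · congr 1
      apply split_sum _ U W y hUW
      · intro m hm
        rw [hdiv0 m hm]
        simp
      · intro m hm
        rw [FG_zero U m (lt_of_le_of_lt hUU hm)]
        simp
    · rw [split_sum _ U W y hUW]
      · have : ∑ m ∈ Ioc 0 U, ((LamR - Fu) m : ℂ) * f i m *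
            ∑ k ∈ Ioc 0 (y / m), ((1 - ZetR * Gu) k : ℂ) * f i k = 0 := by
          refine Finset.sum_eq_zero fun m hm => ?_
          rw [hFu, af_sub_apply, tru_apply, if_pos (Finset.mem_Ioc.1 hm).2, sub_self]
          simp
        rw [this, zero_add]
      · intro m hm
        rw [hdiv0 m hm]
        simp
      · intro m hm
        have h3 : ∑ k ∈ Ioc 0 (y / m), ((1 - ZetR * Gu) k : ℂ) * f i k = 0 := by
          refine Finset.sum_eq_zero fun k hk => ?_
          have hk' := Finset.mem_Ioc.1 hk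
          have hkU : k ≤ U := by
            have hm0 : 0 < m := lt_of_le_of_lt (Nat.zero_le _) hm
            have h4 : k * m ≤ y := (Nat.le_div_iff_mul_le hm0).1 hk'.2
            have h5 : N < (N / U + 1) * U := by
              rw [add_mul, one_mul]
              exact Nat.lt_div_mul_add hU
            have h6 : (N / U + 1) * U ≤ m * U := Nat.mul_le_mul_right U hm
            by_contra h7
            have h8 : U * m ≤ k * m := Nat.mul_le_mul_right m (by omega)
            rw [mul_comm U m] at h8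
            omega
          rw [hGu, beta_zero U k hk'.1 hkU]
          simp
        rw [h3, mul_zero]
  -- the bounds
  have hb1 : ∀ i, ‖T1 i‖ ≤ U * (P * Real.log N) := by
    intro i
    have e1 : T1 i = ∑ n ∈ Ioc 0 U, (if n ≤ y then (Fu n : ℂ) * f i n else 0) := by
      have e2 : T1 i = ∑ n ∈ Ioc 0 (max y U), (if n ≤ y then (Fu n : ℂ) * f i n else 0) := by
        simp only [hT1]
        rw [← Finset.sum_filter]
        refine Finset.sum_congr ?_ fun _ _ => rfl
        ext n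
        simp only [Finset.mem_filter, Finset.mem_Ioc]
        omega
      rw [e2]
      symm
      apply Finset.sum_subset (Finset.Ioc_subset_Ioc_right (le_max_right _ _))
      intro n hn hn'
      have : ¬ n ≤ U := fun h => hn' (Finset.mem_Ioc.2 ⟨(Finset.mem_Ioc.1 hn).1, h⟩)
      rw [hFu, tru_apply, if_neg this]
      simp
    rw [e1]
    refine (norm_sum_le _ _).trans ?_
    calc ∑ n ∈ Ioc 0 U, ‖(if n ≤ y then (Fu n : ℂ) * f i n else 0)‖
        ≤ ∑ n ∈ Ioc 0 U, P * Real.log N := by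
          refine Finset.sum_le_sum fun n hn => ?_
          have h1 : ‖(Fu n : ℂ)‖ ≤ Real.log N := by
            rw [Complex.norm_real, Real.norm_eq_abs]
            exact tru_lam_abs U n N ((Finset.mem_Ioc.1 hn).2.trans hUN')
          have h2 := F.norm_le i n
          split_ifs
          · rw [norm_mul]
            calc ‖(Fu n : ℂ)‖ * ‖f i n‖ ≤ Real.log N * 1 :=
                  mul_le_mul h1 h2 (norm_nonneg _) hlog
              _ ≤ P * Real.log N := by nlinarith
          · rw [norm_zero]; positivity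
      _ = U * (P * Real.log N) := by
          rw [Finset.sum_const, Nat.card_Ioc, nsmul_eq_mul, Nat.sub_zero]
  have hb2 : ∀ i, ‖T2 i‖ ≤ U * (2 * (P * Real.log N)) := by
    intro i
    have e1 : T2 i = ∑ m ∈ Ioc 0 U, (Gu m : ℂ) * f i m *
        ∑ k ∈ Ioc 0 (y / m), (log k : ℂ) * f i k := by
      simp only [hT2]
      rw [split_sum _ U U y le_rfl]
      · rw [Finset.Ioc_self, Finset.sum_empty, add_zero]
      · intro m hm
        rw [hdiv0 m hm]
        simp
      · intro m hm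
        rw [hGu, tru_apply, if_neg (by omega)]
        simp
    rw [e1]
    refine (norm_sum_le _ _).trans ?_
    calc ∑ m ∈ Ioc 0 U, ‖(Gu m : ℂ) * f i m * ∑ k ∈ Ioc 0 (y / m), (log k : ℂ) * f i k‖
        ≤ ∑ m ∈ Ioc 0 U, 2 * (P * Real.log N) := by
          refine Finset.sum_le_sum fun m hm => ?_
          have h1 : ‖(Gu m : ℂ)‖ ≤ 1 := by
            rw [Complex.norm_real, Real.norm_eq_abs]
            exact tru_moe_abs U m
          have h2 := F.norm_le i m
          have h3 := F.log_sum i (y / m)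
          have h4 : Real.log ((y / m : ℕ) : ℝ) ≤ Real.log N := by
            rcases Nat.eq_zero_or_pos (y / m) with h | h
            · rw [h]; simpa using hlog
            · exact Real.log_le_log (by exact_mod_cast h)
                (by exact_mod_cast (Nat.div_le_self y m).trans hy)
          have h5 : ‖∑ k ∈ Ioc 0 (y / m), (log k : ℂ) * f i k‖ ≤ 2 * (P * Real.log N) := by
            simp only [ArithmeticFunction.log_apply]
            refine h3.trans ?_
            gcongr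
          rw [norm_mul, norm_mul]
          calc ‖(Gu m : ℂ)‖ * ‖f i m‖ * ‖∑ k ∈ Ioc 0 (y / m), (log k : ℂ) * f i k‖
              ≤ 1 * 1 * (2 * (P * Real.log N)) := by gcongr
            _ = _ := by ring
      _ = U * (2 * (P * Real.log N)) := by
          rw [Finset.sum_const, Nat.card_Ioc, nsmul_eq_mul, Nat.sub_zero]
  have hb3a : ∀ i, ‖T3a i‖ ≤ U * (P * Real.log N) := by
    intro i
    simp only [hT3a]
    refine (norm_sum_le _ _).trans ?_
    calc ∑ m ∈ Ioc 0 U, ‖((Fu * Gu) m : ℂ) * f i m * ∑ k ∈ Ioc 0 (y / m), (ZetR k : ℂ) * f i k‖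
        ≤ ∑ m ∈ Ioc 0 U, P * Real.log N := by
          refine Finset.sum_le_sum fun m hm => ?_
          have h1 : ‖((Fu * Gu) m : ℂ)‖ ≤ Real.log N := by
            rw [Complex.norm_real, Real.norm_eq_abs]
            exact FG_abs U m N ((Finset.mem_Ioc.1 hm).2.trans hUN')
          have h2 := F.norm_le i m
          have h3 : ∑ k ∈ Ioc 0 (y / m), (ZetR k : ℂ) * f i k = ∑ k ∈ Ioc 0 (y / m), f i k := by
            refine Finset.sum_congr rfl fun k hk => ?_
            rw [ArithmeticFunction.natCoe_apply,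
              ArithmeticFunction.zeta_apply_ne (Finset.mem_Ioc.1 hk).1.ne']
            simp
          rw [h3, norm_mul, norm_mul]
          calc ‖((Fu * Gu) m : ℂ)‖ * ‖f i m‖ * ‖∑ k ∈ Ioc 0 (y / m), f i k‖
              ≤ Real.log N * 1 * P := by
                have := F.pv i (y / m)
                gcongr
            _ = _ := by ring
      _ = U * (P * Real.log N) := by
          rw [Finset.sum_const, Nat.card_Ioc, nsmul_eq_mul, Nat.sub_zero]
  rw [hdec i₀]
  have h1 := norm_add_le (T1 i₀ + T2 i₀ - (T3a i₀ + T3b i₀)) (T4 i₀)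
  have h2 := norm_sub_le (T1 i₀ + T2 i₀) (T3a i₀ + T3b i₀)
  have h3 := norm_add_le (T1 i₀) (T2 i₀)
  have h4 := norm_add_le (T3a i₀) (T3b i₀)
  have h5 := hb1 i₀
  have h6 := hb2 i₀
  have h7 := hb3a i₀
  have h8 : ‖T1 i₀ + T2 i₀ - (T3a i₀ + T3b i₀) + T4 i₀‖ ≤
      4 * (U * (P * Real.log N)) + ‖T3b i₀‖ + ‖T4 i₀‖ := by linarith
  exact h8

/-- **Weighted mean value theorem** for the von Mangoldt function over a family. -/
theorem wl1 (F : Fam f B D P) (N U y u v K : ℕ) (hU : 1 ≤ U) (hUN : U ^ 3 ≤ N) (hy : y ≤ N)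
    (hvK : v ≤ K) (τ : ℝ) (hτ0 : 0 ≤ τ)
    (hτ : ∀ l : ℕ, 0 < l → l ≤ 2 * N * K → (l.divisors.card : ℝ) ≤ τ) :
    ∑ i, ‖∑ n ∈ Ioc 0 y, ((vonMangoldt n : ℝ) : ℂ) * f i n‖ * ‖∑ k ∈ Ioc u v, f i k‖ ≤
      4 * (U * (P * Real.log N)) * ∑ i, ‖∑ k ∈ Ioc u v, f i k‖ +
      2 * (lev N * (lev N * (B * (Real.sqrt τ * ((1 + Real.log N) ^ 3 * EE D N K U))))) := by
  classical
  set W := N / U with hW
  have hWU : W * U ≤ N := Nat.div_mul_le_self N U
  have hB0 : 0 ≤ B := zero_le_one.trans F.oneB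
  have hlog : 0 ≤ Real.log N := Real.log_natCast_nonneg N
  have hE0 : 0 ≤ EE D N K U := EE_nonneg F.nonnegD (Nat.cast_nonneg N) (Nat.cast_nonneg K)
  have hlog3 : Real.log N * 1 ≤ (1 + Real.log N) ^ 3 := by
    nlinarith [pow_nonneg hlog 3, pow_nonneg hlog 2]
  have hb3b : ∑ i, ‖∑ k ∈ Ioc u v, f i k‖ *
      ‖∑ m ∈ Ioc U W, ((tru U LamR * tru U MoeR) m : ℂ) * f i m *
        ∑ k ∈ Ioc 0 (y / m), (ZetR k : ℂ) * f i k‖ ≤
      lev N * (lev N * (B * (Real.sqrt τ * ((1 + Real.log N) ^ 3 * EE D N K U)))) := by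
    have h1 := wtypeII F (fun m => ((tru U LamR * tru U MoeR) m : ℂ)) (fun k => (ZetR k : ℂ))
      N U W y u v K hU hWU hy hvK (Real.log N) 1 τ hlog zero_le_one hτ0 hτ
      (fun m hm => by
        rw [Complex.norm_real, Real.norm_eq_abs]
        exact FG_abs U m N hm)
      (fun K _ => by
        calc ∑ k ∈ Ioc 0 K, ‖(ZetR k : ℂ)‖ ^ 2 ≤ ∑ k ∈ Ioc 0 K, (1 : ℝ) := by
              refine Finset.sum_le_sum fun k hk => ?_
              rw [ArithmeticFunction.natCoe_apply,
                ArithmeticFunction.zeta_apply_ne (Finset.mem_Ioc.1 hk).1.ne']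
              simp
          _ = 1 ^ 2 * (K : ℝ) := by simp)
    refine h1.trans ?_
    gcongr
  have hb4 : ∑ i, ‖∑ k ∈ Ioc u v, f i k‖ *
      ‖∑ m ∈ Ioc U W, ((LamR - tru U LamR) m : ℂ) * f i m *
        ∑ k ∈ Ioc 0 (y / m), ((1 - ZetR * tru U MoeR) k : ℂ) * f i k‖ ≤
      lev N * (lev N * (B * (Real.sqrt τ * ((1 + Real.log N) ^ 3 * EE D N K U)))) := by
    have h1 := wtypeII F (fun m => ((LamR - tru U LamR) m : ℂ))
      (fun k => ((1 - ZetR * tru U MoeR) k : ℂ))
      N U W y u v K hU hWU hy hvK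
      (Real.log N) ((1 + Real.log N) ^ 2) τ hlog (by positivity) hτ0 hτ
      (fun m hm => by
        rw [Complex.norm_real, Real.norm_eq_abs]
        exact lam_sub_tru_abs U m N hm)
      (fun K hK => by
        have h2 : ∑ k ∈ Ioc 0 K, ‖((1 - ZetR * tru U MoeR) k : ℂ)‖ ^ 2 ≤
            ∑ k ∈ Ioc 0 K, ((k.divisors.card : ℕ) : ℝ) ^ 2 := by
          refine Finset.sum_le_sum fun k hk => ?_
          have hk' := Finset.mem_Ioc.1 hk
          rw [Complex.norm_real, Real.norm_eq_abs]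
          rcases Nat.lt_or_ge 1 k with h | h
          · exact pow_le_pow_left₀ (abs_nonneg _) (beta_le U k h) 2
          · have hk1 : k = 1 := by omega
            rw [beta_zero U k hk'.1 (by omega)]
            simp
        refine h2.trans ((tau_sq_sum_log K).trans ?_)
        rcases Nat.eq_zero_or_pos K with h | h
        · subst h; simp
        · have h3 : Real.log K ≤ Real.log N :=
            Real.log_le_log (by exact_mod_cast h) (by exact_mod_cast hK)
          have h4 : 0 ≤ Real.log K := Real.log_natCast_nonneg K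
          calc (K : ℝ) * (1 + Real.log K) ^ 3 ≤ K * (1 + Real.log N) ^ 3 := by gcongr
            _ ≤ K * (1 + Real.log N) ^ 4 := by
                gcongr
                · linarith
                · norm_num
            _ = ((1 + Real.log N) ^ 2) ^ 2 * K := by ring)
    refine h1.trans ?_
    gcongr
    calc Real.log N * (1 + Real.log N) ^ 2 ≤ (1 + Real.log N) * (1 + Real.log N) ^ 2 := by
          gcongr
          linarith
      _ = (1 + Real.log N) ^ 3 := by ring
  -- assembly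
  calc ∑ i, ‖∑ n ∈ Ioc 0 y, ((vonMangoldt n : ℝ) : ℂ) * f i n‖ * ‖∑ k ∈ Ioc u v, f i k‖
      ≤ ∑ i, (4 * (U * (P * Real.log N)) * ‖∑ k ∈ Ioc u v, f i k‖ +
          ‖∑ k ∈ Ioc u v, f i k‖ *
            ‖∑ m ∈ Ioc U W, ((tru U LamR * tru U MoeR) m : ℂ) * f i m *
              ∑ k ∈ Ioc 0 (y / m), (ZetR k : ℂ) * f i k‖ +
          ‖∑ k ∈ Ioc u v, f i k‖ *
            ‖∑ m ∈ Ioc U W, ((LamR - tru U LamR) m : ℂ) * f i m *
              ∑ k ∈ Ioc 0 (y / m), ((1 - ZetR * tru U MoeR) k : ℂ) * f i k‖) := by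
        refine Finset.sum_le_sum fun i _ => ?_
        have h1 := mul_le_mul_of_nonneg_right (vau_point F N U y hU hUN hy i)
          (norm_nonneg (∑ k ∈ Ioc u v, f i k))
        refine h1.trans (le_of_eq ?_)
        ring
    _ = 4 * (U * (P * Real.log N)) * ∑ i, ‖∑ k ∈ Ioc u v, f i k‖ +
          ∑ i, ‖∑ k ∈ Ioc u v, f i k‖ *
            ‖∑ m ∈ Ioc U W, ((tru U LamR * tru U MoeR) m : ℂ) * f i m *
              ∑ k ∈ Ioc 0 (y / m), (ZetR k : ℂ) * f i k‖ +
          ∑ i, ‖∑ k ∈ Ioc u v, f i k‖ *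
            ‖∑ m ∈ Ioc U W, ((LamR - tru U LamR) m : ℂ) * f i m *
              ∑ k ∈ Ioc 0 (y / m), ((1 - ZetR * tru U MoeR) k : ℂ) * f i k‖ := by
        rw [Finset.sum_add_distrib, Finset.sum_add_distrib, ← Finset.mul_sum]
    _ ≤ _ := by linarith

/-- The sum of the weights. -/
theorem sum_weight (F : Fam f B D P) (u v K : ℕ) (hvK : v ≤ K) :
    ∑ i, ‖∑ k ∈ Ioc u v, f i k‖ ≤
      Real.sqrt (Fintype.card ι) * Real.sqrt (B * (D + K) * K) := by
  classical
  rcases Nat.lt_or_ge v u with h | h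
  · rw [Finset.Ioc_eq_empty_of_le h.le]
    simp only [Finset.sum_empty, norm_zero, Finset.sum_const_zero]
    positivity
  have h1 := Real.sum_mul_le_sqrt_mul_sqrt (univ : Finset ι) (fun _ => (1 : ℝ))
    (fun i => ‖∑ k ∈ Ioc u v, f i k‖)
  simp only [one_mul, one_pow, Finset.sum_const, Finset.card_univ, nsmul_eq_mul, mul_one] at h1
  refine h1.trans ?_
  refine mul_le_mul_of_nonneg_left (Real.sqrt_le_sqrt ?_) (Real.sqrt_nonneg _)
  have h2 := F.ls (fun _ => 1) u (v - u)
  have e : u + (v - u) = v := by omega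
  rw [e] at h2
  simp only [one_mul, norm_one, one_pow, Finset.sum_const, Nat.card_Ioc, nsmul_eq_mul,
    mul_one] at h2
  refine h2.trans ?_
  have hB0 : 0 ≤ B := zero_le_one.trans F.oneB
  have hD := F.nonnegD
  have h3 : ((v - u : ℕ) : ℝ) ≤ K := by
    exact_mod_cast (Nat.sub_le v u).trans hvK
  gcongr

end Pool.Agent.M848.SV.TriAux
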