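import Pool.Agent.Lib.MP_848d44_nt.SV.Base
import Pool.Agent.Lib.MP_848d44_nt.F.L1p
import Pool.Agent.Lib.MP_848d44_nt.F.Lsp
import Pool.Agent.Lib.MP_848d44_nt.F.Pvr
import Pool.Agent.Lib.MP_848d44_nt.Div
import Pool.Agent.Lib.MP_848d44_nt.SV.TriC

set_option autoImplicit false

/-!
# MP_848d44_nt, project SV, module Tri: a trilinear mean value

For `H(χ) = ∑_{k ∈ (u, v]} χ(k)`, `v ≤ K ≤ M`, the sum of `|∑_{n ≤ y} Λ(n) χ(n)| |H(χ)|` over the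
primitive characters modulo `q ∈ (M, 2M]`: Vaughan's identity, `H` is given to the shorter side of
each bilinear block (TriA: weighted large sieve and bilinear sums, TriB: sums of type II,
TriC: Vaughan's identity).
-/

noncomputable section

namespace Pool.Agent.M848.SV

open Finset Pool.Agent.M848 Pool.Agent.M848.FC
open scoped ArithmeticFunction.vonMangoldt ComplexConjugate

open MP848 L1pAux TriAux in
theorem tri (δ : ℝ) (hδ : 0 < δ) : ∃ C : ℝ, 0 < C ∧ ∀ N M K U y u v : ℕ, 1 ≤ K → 1 ≤ U → K ≤ M →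
    U ≤ M → U ^ 3 ≤ N → M ≤ N → y ≤ N → v ≤ K →
      ∑ q ∈ Ioc M (2 * M), ∑ χ ∈ pc q, ‖SL χ y‖ * ‖∑ k ∈ Ioc u v, χ k‖ ≤
        C * (N : ℝ) ^ δ * (U * (M : ℝ) ^ 2 * Real.sqrt (M * K) + (M : ℝ) ^ 2 * Real.sqrt (U * K) +
          (M : ℝ) ^ 2 * Real.sqrt (N * K) + M * N * Real.sqrt (K / U) +
          M * (N : ℝ) ^ ((3 : ℝ) / 4) * K + N * K) := by
  obtain ⟨C1, hC1, hdiv⟩ := divisor_bound (δ / 4) (by positivity)
  have hC10 : 0 < C1 := zero_lt_one.trans_le hC1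
  refine ⟨128 * ((1 + 12 / δ) ^ 6 * (C1 * (2 : ℝ) ^ (δ / 4))), by positivity, ?_⟩
  intro N M K U y u v hK1 hU1 hKM _ hUN hMN hyN hvK
  have hM1 : 1 ≤ M := hK1.trans hKM
  have hN1 : 1 ≤ N := hM1.trans hMN
  have hn : (1 : ℝ) ≤ N := by exact_mod_cast hN1
  have hn0 : (0 : ℝ) < N := by linarith
  have hMr : (1 : ℝ) ≤ M := by exact_mod_cast hM1
  have hKr : (1 : ℝ) ≤ K := by exact_mod_cast hK1
  have hUr : (1 : ℝ) ≤ U := by exact_mod_cast hU1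
  have hMN' : (M : ℝ) ≤ N := by exact_mod_cast hMN
  have hKM' : (K : ℝ) ≤ M := by exact_mod_cast hKM
  -- the divisor function
  set τ : ℝ := C1 * (2 * (N : ℝ) ^ 2) ^ (δ / 4) with hτdef
  have hτ1 : 1 ≤ τ := by
    have h1 : (1 : ℝ) ≤ (2 * (N : ℝ) ^ 2) ^ (δ / 4) :=
      Real.one_le_rpow (by nlinarith) (by positivity)
    nlinarith
  have hτ0 : 0 ≤ τ := by linarith
  have hτ : ∀ l : ℕ, 0 < l → l ≤ 2 * N * K → (l.divisors.card : ℝ) ≤ τ := by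
    intro l hl hl2
    refine (hdiv l hl).trans ?_
    rw [hτdef]
    have h1 : l ≤ 2 * N * N := hl2.trans (Nat.mul_le_mul_left _ (hKM.trans hMN))
    have h2 : (l : ℝ) ≤ 2 * (N : ℝ) ^ 2 := by
      have : (l : ℝ) ≤ 2 * N * N := by exact_mod_cast h1
      linarith
    have h3 : (l : ℝ) ^ (δ / 4) ≤ (2 * (N : ℝ) ^ 2) ^ (δ / 4) :=
      Real.rpow_le_rpow (Nat.cast_nonneg l) h2 (by positivity)
    exact mul_le_mul_of_nonneg_left h3 hC10.le
  have hFam := fam_pc M hM1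
  have hmain := wl1 hFam N U y u v K hU1 hUN hyN hvK τ hτ0 hτ
  have hsw := sum_weight hFam u v K hvK
  -- the left side
  have e1 : ∑ s ∈ Ioc M (2 * M), ∑ χ ∈ pc s, ‖SL χ y‖ * ‖∑ k ∈ Ioc u v, χ k‖ =
      ∑ i : {p // p ∈ Sg M}, ‖∑ n ∈ Ioc 0 y,
        ((ArithmeticFunction.vonMangoldt n : ℝ) : ℂ) * i.1.2 n‖ * ‖∑ k ∈ Ioc u v, i.1.2 k‖ := by
    rw [Finset.sum_coe_sort (Sg M) (fun p : Σ _ : ℕ, (ℕ → ℂ) =>
      ‖∑ n ∈ Ioc 0 y, ((ArithmeticFunction.vonMangoldt n : ℝ) : ℂ) * p.2 n‖ *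
        ‖∑ k ∈ Ioc u v, p.2 k‖), Sg, Finset.sum_sigma]
    have e : Ioc 0 y = Icc 1 y := by
      ext r
      simp only [Finset.mem_Ioc, Finset.mem_Icc]
      omega
    rw [e]
    rfl
  rw [e1]
  refine hmain.trans ?_
  -- logarithms
  have hlog : 0 ≤ Real.log N := Real.log_natCast_nonneg N
  set L : ℝ := 1 + Real.log N with hL
  have hL1 : 1 ≤ L := by linarith
  have hL0 : 0 ≤ L := by linarith
  have hlogM : Real.log M ≤ Real.log N := Real.log_le_log (by linarith) hMN'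
  have hlog2M : 1 + Real.log (2 * M) ≤ 2 * L := by
    rw [Real.log_mul (by norm_num) (by linarith)]
    have := Real.log_two_lt_d9
    linarith
  have hlog4 : 1 + Real.log (4 * (M : ℝ) ^ 2) ≤ 3 * L := by
    rw [Real.log_mul (by norm_num) (by positivity), Real.log_pow,
      show (4 : ℝ) = 2 ^ 2 by norm_num, Real.log_pow]
    have := Real.log_two_lt_d9
    push_cast
    linarith
  have hlog2M0 : 0 ≤ Real.log (2 * (M : ℝ)) := Real.log_nonneg (by linarith)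
  have hlog40 : 0 ≤ Real.log (4 * (M : ℝ) ^ 2) := Real.log_nonneg (by nlinarith)
  have hlev : (lev N : ℝ) ≤ 2 * L := lev_le N
  have hlev0 : (0 : ℝ) ≤ lev N := Nat.cast_nonneg _
  have hLpow : L ^ 6 ≤ (1 + 12 / δ) ^ 6 * (N : ℝ) ^ (δ / 2) := by
    have h1 : Real.log N ≤ (N : ℝ) ^ (δ / 12) / (δ / 12) :=
      Real.log_le_rpow_div (by linarith) (by positivity)
    have h2 : (1 : ℝ) ≤ (N : ℝ) ^ (δ / 12) := Real.one_le_rpow hn (by positivity)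
    have h3 : L ≤ (1 + 12 / δ) * (N : ℝ) ^ (δ / 12) := by
      have e : (N : ℝ) ^ (δ / 12) / (δ / 12) = 12 / δ * (N : ℝ) ^ (δ / 12) := by
        field_simp
      rw [e] at h1
      rw [add_mul, one_mul]
      linarith
    have h4 : L ^ 6 ≤ ((1 + 12 / δ) * (N : ℝ) ^ (δ / 12)) ^ 6 :=
      pow_le_pow_left₀ (by linarith) h3 6
    refine h4.trans (le_of_eq ?_)
    rw [mul_pow, ← Real.rpow_natCast ((N : ℝ) ^ (δ / 12)) 6, ← Real.rpow_mul (by linarith)]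
    congr 2
    push_cast
    ring
  -- the terms of the final bound
  set X1 : ℝ := U * (M : ℝ) ^ 2 * Real.sqrt (M * K) with hX1
  set X2 : ℝ := (M : ℝ) ^ 2 * Real.sqrt (U * K) with hX2
  set X3 : ℝ := (M : ℝ) ^ 2 * Real.sqrt (N * K) with hX3
  set X4 : ℝ := M * N * Real.sqrt (K / U) with hX4
  set X5 : ℝ := M * (N : ℝ) ^ ((3 : ℝ) / 4) * K with hX5
  set X6 : ℝ := (N : ℝ) * K with hX6
  have hX10 : 0 ≤ X1 := by positivity
  have hX20 : 0 ≤ X2 := by positivity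
  have hX30 : 0 ≤ X3 := by positivity
  have hX40 : 0 ≤ X4 := by positivity
  have hX50 : 0 ≤ X5 := by positivity
  have hX60 : 0 ≤ X6 := by positivity
  -- type I
  have hsum : ∑ i : {p // p ∈ Sg M}, ‖∑ k ∈ Ioc u v, i.1.2 k‖ ≤
      8 * L * (M : ℝ) ^ 2 * Real.sqrt K := by
    refine hsw.trans ?_
    have h1 : Real.sqrt (Fintype.card {p // p ∈ Sg M} : ℝ) ≤ 2 * M := by
      rw [Real.sqrt_le_left (by positivity)]
      have h2 := card_idx M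
      have h3 := sq_nonneg (M : ℝ)
      rw [show (2 * (M : ℝ)) ^ 2 = 4 * (M : ℝ) ^ 2 by ring]
      linarith
    have h2 : Real.sqrt ((1 + Real.log (4 * (M : ℝ) ^ 2)) * (4 * (M : ℝ) ^ 2 + K) * K) ≤
        4 * L * M * Real.sqrt K := by
      rw [Real.sqrt_le_left (by positivity)]
      have h3 : (4 * L * M * Real.sqrt K) ^ 2 = 16 * L ^ 2 * (M : ℝ) ^ 2 * K := by
        rw [mul_pow, Real.sq_sqrt (by positivity)]
        ring
      rw [h3]
      have h4 : (4 * (M : ℝ) ^ 2 + K) ≤ 5 * (M : ℝ) ^ 2 := by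
        have h5 : (M : ℝ) ≤ (M : ℝ) ^ 2 := le_self_pow₀ hMr (by norm_num)
        linarith
      calc (1 + Real.log (4 * (M : ℝ) ^ 2)) * (4 * (M : ℝ) ^ 2 + K) * K
          ≤ (3 * L) * (5 * (M : ℝ) ^ 2) * K := by gcongr
        _ ≤ (16 * L ^ 2) * (M : ℝ) ^ 2 * K := by
            have h5 : 3 * L * 5 ≤ 16 * L ^ 2 := by
              have h8 : L ≤ L ^ 2 := le_self_pow₀ hL1 (by norm_num)
              linarith
            have h6 : 0 ≤ (M : ℝ) ^ 2 * K := by positivity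
            have h7 := mul_le_mul_of_nonneg_right h5 h6
            calc (3 * L) * (5 * (M : ℝ) ^ 2) * K = 3 * L * 5 * ((M : ℝ) ^ 2 * K) := by ring
              _ ≤ 16 * L ^ 2 * ((M : ℝ) ^ 2 * K) := h7
              _ = (16 * L ^ 2) * (M : ℝ) ^ 2 * K := by ring
    calc Real.sqrt (Fintype.card {p // p ∈ Sg M} : ℝ) *
        Real.sqrt ((1 + Real.log (4 * (M : ℝ) ^ 2)) * (4 * (M : ℝ) ^ 2 + K) * K)
        ≤ (2 * M) * (4 * L * M * Real.sqrt K) :=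
          mul_le_mul h1 h2 (Real.sqrt_nonneg _) (by positivity)
      _ = 8 * L * (M : ℝ) ^ 2 * Real.sqrt K := by ring
  have hsum0 : 0 ≤ ∑ i : {p // p ∈ Sg M}, ‖∑ k ∈ Ioc u v, i.1.2 k‖ :=
    Finset.sum_nonneg fun _ _ => norm_nonneg _
  have hsq2M : Real.sqrt (2 * M) ≤ 2 * Real.sqrt M := by
    rw [Real.sqrt_mul (by norm_num)]
    have h1 : Real.sqrt 2 ≤ 2 := by
      rw [Real.sqrt_le_left (by norm_num)]
      norm_num
    exact mul_le_mul_of_nonneg_right h1 (Real.sqrt_nonneg (M : ℝ))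
  have hA : 4 * (U * ((Real.sqrt (2 * M) * (1 + Real.log (2 * M))) * Real.log N)) *
      ∑ i : {p // p ∈ Sg M}, ‖∑ k ∈ Ioc u v, i.1.2 k‖ ≤ 128 * L ^ 6 * X1 := by
    have hlogL : Real.log N ≤ L := by linarith
    have h1 : 0 ≤ Real.sqrt (2 * (M : ℝ)) := Real.sqrt_nonneg _
    calc 4 * (U * ((Real.sqrt (2 * M) * (1 + Real.log (2 * M))) * Real.log N)) *
        ∑ i : {p // p ∈ Sg M}, ‖∑ k ∈ Ioc u v, i.1.2 k‖
        ≤ 4 * (U * (((2 * Real.sqrt M) * (2 * L)) * L)) *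
          (8 * L * (M : ℝ) ^ 2 * Real.sqrt K) := by gcongr
      _ = 128 * L ^ 3 * (U * (M : ℝ) ^ 2 * (Real.sqrt M * Real.sqrt K)) := by ring
      _ = 128 * L ^ 3 * X1 := by rw [hX1, Real.sqrt_mul (by positivity)]
      _ ≤ 128 * L ^ 6 * X1 := by
          gcongr
          norm_num
  -- type II
  have hEE : EE (4 * (M : ℝ) ^ 2) N K U ≤ 4 * (X3 + X4 + X5 + X6) := by
    have hsD : Real.sqrt (4 * (M : ℝ) ^ 2) = 2 * M := by
      rw [show 4 * (M : ℝ) ^ 2 = (2 * M) ^ 2 by ring]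
      exact Real.sqrt_sq (by positivity)
    have hN34 : Real.sqrt (N * K) * Real.sqrt (K * Real.sqrt N) =
        (N : ℝ) ^ ((3 : ℝ) / 4) * K := by
      rw [← Real.sqrt_mul (by positivity)]
      have h1 : (N : ℝ) * K * (K * Real.sqrt N) = ((N : ℝ) ^ ((3 : ℝ) / 4) * K) ^ 2 := by
        rw [mul_pow, ← Real.rpow_natCast ((N : ℝ) ^ ((3 : ℝ) / 4)) 2, ← Real.rpow_mul hn0.le,
          Real.sqrt_eq_rpow]
        have h2 : (N : ℝ) ^ ((3 : ℝ) / 4 * ((2 : ℕ) : ℝ)) = N * (N : ℝ) ^ ((1 : ℝ) / 2) := by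
          rw [show (3 : ℝ) / 4 * ((2 : ℕ) : ℝ) = 1 + 1 / 2 by norm_num, Real.rpow_add hn0,
            Real.rpow_one]
        rw [h2]
        ring
      rw [h1]
      exact Real.sqrt_sq (by positivity)
    rw [EE, hsD, hN34]
    have e : Real.sqrt (N * K) * (4 * (M : ℝ) ^ 2) + 2 * M * (N * Real.sqrt (K / U)) +
        2 * (2 * M * ((N : ℝ) ^ ((3 : ℝ) / 4) * K)) + 2 * (N * K) =
        4 * X3 + 2 * X4 + 4 * X5 + 2 * X6 := by
      rw [hX3, hX4, hX5, hX6]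
      ring
    rw [e]
    linarith
  have hsτ1 : 1 ≤ Real.sqrt τ := Real.one_le_sqrt.2 hτ1
  have hsτ : Real.sqrt τ ≤ τ := by
    rw [Real.sqrt_le_left hτ0]
    exact le_self_pow₀ hτ1 (by norm_num)
  have hEE0 : 0 ≤ EE (4 * (M : ℝ) ^ 2) N K U :=
    EE_nonneg (by positivity) (by positivity) (by positivity)
  have hB : 2 * ((lev N : ℝ) * (lev N * ((1 + Real.log (4 * (M : ℝ) ^ 2)) *
      (Real.sqrt τ * ((1 + Real.log N) ^ 3 * EE (4 * (M : ℝ) ^ 2) N K U))))) ≤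
      96 * L ^ 6 * τ * (X3 + X4 + X5 + X6) := by
    calc 2 * ((lev N : ℝ) * (lev N * ((1 + Real.log (4 * (M : ℝ) ^ 2)) *
          (Real.sqrt τ * ((1 + Real.log N) ^ 3 * EE (4 * (M : ℝ) ^ 2) N K U)))))
        ≤ 2 * ((2 * L) * ((2 * L) * ((3 * L) *
          (τ * (L ^ 3 * (4 * (X3 + X4 + X5 + X6))))))) := by gcongr
      _ = 96 * L ^ 6 * τ * (X3 + X4 + X5 + X6) := by ring
  have hτN : τ = C1 * (2 : ℝ) ^ (δ / 4) * (N : ℝ) ^ (δ / 2) := by
    rw [hτdef, Real.mul_rpow (by norm_num) (by positivity), ← Real.rpow_natCast (N : ℝ) 2,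
      ← Real.rpow_mul hn0.le, mul_assoc]
    congr 3
    push_cast
    ring
  have hNδ : (N : ℝ) ^ δ = (N : ℝ) ^ (δ / 2) * (N : ℝ) ^ (δ / 2) := by
    rw [← Real.rpow_add hn0]
    congr 1
    ring
  have hL60 : 0 ≤ L ^ 6 := by positivity
  calc 4 * (U * ((Real.sqrt (2 * M) * (1 + Real.log (2 * M))) * Real.log N)) *
        ∑ i : {p // p ∈ Sg M}, ‖∑ k ∈ Ioc u v, i.1.2 k‖ +
        2 * ((lev N : ℝ) * (lev N * ((1 + Real.log (4 * (M : ℝ) ^ 2)) *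
          (Real.sqrt τ * ((1 + Real.log N) ^ 3 * EE (4 * (M : ℝ) ^ 2) N K U)))))
      ≤ 128 * L ^ 6 * X1 + 96 * L ^ 6 * τ * (X3 + X4 + X5 + X6) := add_le_add hA hB
    _ ≤ 128 * L ^ 6 * τ * (X1 + X2 + X3 + X4 + X5 + X6) := by
        have h1 : 0 ≤ L ^ 6 * τ * (X3 + X4 + X5 + X6) := by positivity
        have h2 : 0 ≤ L ^ 6 * τ * X2 := by positivity
        have h3 : L ^ 6 * X1 ≤ τ * (L ^ 6 * X1) :=
          le_mul_of_one_le_left (by positivity) hτ1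
        have e : 128 * L ^ 6 * τ * (X1 + X2 + X3 + X4 + X5 + X6) =
            128 * (τ * (L ^ 6 * X1)) + 128 * (L ^ 6 * τ * X2) +
              128 * (L ^ 6 * τ * (X3 + X4 + X5 + X6)) := by ring
        rw [e]
        linarith
    _ ≤ 128 * ((1 + 12 / δ) ^ 6 * (N : ℝ) ^ (δ / 2)) * τ * (X1 + X2 + X3 + X4 + X5 + X6) := by
        gcongr
    _ = 128 * ((1 + 12 / δ) ^ 6 * (C1 * (2 : ℝ) ^ (δ / 4))) * (N : ℝ) ^ δ *
        (X1 + X2 + X3 + X4 + X5 + X6) := by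
        rw [hτN, hNδ]
        ring

end Pool.Agent.M848.SV
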