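import Pool.Agent.Lib.MP_848d44_nt.SV.PhiC
import Pool.Agent.Lib.MP_848d44_nt.SV.Tri
import Pool.Agent.Lib.MP_848d44_nt.F.L1p
import Pool.Agent.Lib.MP_848d44_nt.F.Pvr
import Pool.Agent.Lib.MP_848d44_nt.Div

set_option autoImplicit false

/-!
# MP_848d44_nt, project SV: numerical bounds for the dyadic blocks
-/

noncomputable section

namespace Pool.Agent.M848.SV

open Finset Pool.Agent.M848 Pool.Agent.M848.FC
open scoped ArithmeticFunction.vonMangoldt ComplexConjugate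

/-- a logarithm against a power -/
theorem log_pow (δ : ℝ) (hδ : 0 < δ) : ∃ C : ℝ, 1 ≤ C ∧ ∀ N : ℕ, 1 ≤ N →
    1 + Real.log N ≤ C * (N : ℝ) ^ δ := by
  refine ⟨1 + 1 / δ, by have : 0 < 1 / δ := by positivity
                        linarith, fun N hN => ?_⟩
  have hN1 : (1 : ℝ) ≤ N := by exact_mod_cast hN
  have h1 := Real.log_le_rpow_div (by linarith : (0 : ℝ) ≤ N) hδ
  have h2 : (1 : ℝ) ≤ (N : ℝ) ^ δ := Real.one_le_rpow hN1 hδ.le
  have h3 : (N : ℝ) ^ δ / δ = 1 / δ * (N : ℝ) ^ δ := by ring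
  rw [h3] at h1
  linarith

/-- The mean value by Polya-Vinogradov. -/
theorem blockA (δ : ℝ) (hδ : 0 < δ) : ∃ C : ℝ, 1 ≤ C ∧ ∀ N D y u v : ℕ, 1 ≤ D → D ^ 3 ≤ N →
    y ≤ N →
      ∑ f ∈ Ioc D (2 * D), ∑ χ ∈ pc f, ‖SL χ y‖ * ‖∑ k ∈ Ioc u v, χ k‖ ≤
        C * (N : ℝ) ^ δ * (Real.sqrt D * (N + (N : ℝ) ^ ((5 : ℝ) / 6) * D)) := by
  obtain ⟨C₁, hC₁, h1⟩ := l1_prim (δ / 2) (by positivity)
  obtain ⟨C₂, hC₂, h2⟩ := log_pow (δ / 2) (by positivity)
  refine ⟨max 1 (C₁ * (8 * C₂)), le_max_left _ _, ?_⟩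
  intro N D y u v hD hDN hy
  have hDN' : D ≤ N := (Nat.le_self_pow (by norm_num) D).trans hDN
  have hN1 : 1 ≤ N := hD.trans hDN'
  have hN1' : (1 : ℝ) ≤ N := by exact_mod_cast hN1
  have hD1' : (1 : ℝ) ≤ D := by exact_mod_cast hD
  have hX0 : (0 : ℝ) ≤ Real.sqrt D * (N + (N : ℝ) ^ ((5 : ℝ) / 6) * D) := by positivity
  -- Polya-Vinogradov
  have h3 : ∀ f ∈ Ioc D (2 * D), ∀ χ ∈ pc f, ‖∑ k ∈ Ioc u v, χ k‖ ≤
      8 * C₂ * (N : ℝ) ^ (δ / 2) * Real.sqrt D := by
    intro f hf χ hχ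
    rw [mem_Ioc] at hf
    have hf2 : 2 ≤ f := by omega
    have h4 := fun z => pv_prim f hf2 hχ z
    have h5 : ‖∑ k ∈ Ioc u v, χ k‖ ≤ 2 * (Real.sqrt f * (1 + Real.log f)) := by
      rcases le_total v u with h | h
      · rw [Ioc_eq_empty (by omega), sum_empty, norm_zero]
        have : 0 ≤ Real.log f := Real.log_natCast_nonneg f
        positivity
      · have h6 : ∑ k ∈ Ioc u v, χ k = ∑ k ∈ Ioc 0 v, χ k - ∑ k ∈ Ioc 0 u, χ k := by
          rw [eq_sub_iff_add_eq, add_comm]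
          exact sum_Ioc_consecutive _ (Nat.zero_le u) h
        rw [h6]
        refine (norm_sub_le _ _).trans ?_
        linarith [h4 v, h4 u]
    have hf' : (f : ℝ) ≤ 2 * D := by exact_mod_cast hf.2
    have hfpos : (0 : ℝ) < f := by
      have : 0 < f := by omega
      exact_mod_cast this
    have h7 : Real.sqrt f ≤ 2 * Real.sqrt D := by
      have : Real.sqrt f ≤ Real.sqrt (4 * D) := Real.sqrt_le_sqrt (by linarith)
      rw [Real.sqrt_mul (by norm_num)] at this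
      have h8 : Real.sqrt 4 = 2 := by
        rw [show (4 : ℝ) = 2 ^ 2 by norm_num, Real.sqrt_sq (by norm_num)]
      rwa [h8] at this
    have h8 : 1 + Real.log f ≤ 2 * (1 + Real.log N) := by
      have h9 : Real.log f ≤ Real.log (2 * D) := Real.log_le_log hfpos hf'
      rw [Real.log_mul (by norm_num) (by positivity)] at h9
      have h10 : Real.log D ≤ Real.log N :=
        Real.log_le_log (by positivity) (by exact_mod_cast hDN')
      have h11 : Real.log 2 ≤ 1 := by linarith [Real.log_two_lt_d9]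
      have h12 : 0 ≤ Real.log N := Real.log_natCast_nonneg N
      linarith
    have h13 := h2 N hN1
    have hlogf : 0 ≤ 1 + Real.log f := by
      have : 0 ≤ Real.log f := Real.log_natCast_nonneg f
      linarith
    calc _ ≤ 2 * (Real.sqrt f * (1 + Real.log f)) := h5
      _ ≤ 2 * (2 * Real.sqrt D * (2 * (C₂ * (N : ℝ) ^ (δ / 2)))) := by
          gcongr
          linarith
      _ = _ := by ring
  have h6 := h1 N D y hD hDN hy
  have hsplit : (N : ℝ) ^ δ = (N : ℝ) ^ (δ / 2) * (N : ℝ) ^ (δ / 2) := by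
    rw [← Real.rpow_add (by linarith)]
    congr 1
    ring
  calc ∑ f ∈ Ioc D (2 * D), ∑ χ ∈ pc f, ‖SL χ y‖ * ‖∑ k ∈ Ioc u v, χ k‖
      ≤ ∑ f ∈ Ioc D (2 * D), ∑ χ ∈ pc f, ‖SL χ y‖ *
          (8 * C₂ * (N : ℝ) ^ (δ / 2) * Real.sqrt D) := by
        refine sum_le_sum fun f hf => sum_le_sum fun χ hχ => ?_
        exact mul_le_mul_of_nonneg_left (h3 f hf χ hχ) (norm_nonneg _)
    _ = (∑ f ∈ Ioc D (2 * D), ∑ χ ∈ pc f, ‖SL χ y‖) *
          (8 * C₂ * (N : ℝ) ^ (δ / 2) * Real.sqrt D) := by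
        rw [sum_mul]
        refine sum_congr rfl fun f _ => ?_
        rw [sum_mul]
    _ ≤ (C₁ * (N : ℝ) ^ (δ / 2) * (N + (N : ℝ) ^ ((5 : ℝ) / 6) * D)) *
          (8 * C₂ * (N : ℝ) ^ (δ / 2) * Real.sqrt D) := by
        refine mul_le_mul_of_nonneg_right h6 ?_
        have : 0 ≤ C₂ := by linarith
        positivity
    _ = C₁ * (8 * C₂) * (N : ℝ) ^ δ * (Real.sqrt D * (N + (N : ℝ) ^ ((5 : ℝ) / 6) * D)) := by
        rw [hsplit]; ring
    _ ≤ _ := by
        refine mul_le_mul_of_nonneg_right ?_ hX0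
        exact mul_le_mul_of_nonneg_right (le_max_right _ _) (by positivity)

/-- The two bounds for the weight sum. -/
theorem SW_le (K R₀ i N : ℕ) (hR : 1 ≤ R₀) (hKN : K ≤ N) (hN : 1 ≤ N) :
    SW K R₀ i ≤ (1 + Real.log N) / 2 ^ i ∧ SW K R₀ i ≤ (K : ℝ) / R₀ := by
  have h2 : (0 : ℝ) < 2 ^ i := by positivity
  have hR' : (0 : ℝ) < R₀ := by exact_mod_cast hR
  constructor
  · unfold SW
    calc ∑ s ∈ Icc 1 K, min (1 / ((s : ℝ) * 2 ^ i)) (1 / (R₀ : ℝ))
        ≤ ∑ s ∈ Icc 1 K, 1 / ((s : ℝ) * 2 ^ i) := sum_le_sum fun s _ => min_le_left _ _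
      _ = (∑ s ∈ Icc 1 K, 1 / (s : ℝ)) / 2 ^ i := by
          rw [sum_div]
          refine sum_congr rfl fun s _ => ?_
          rw [div_div]
      _ ≤ (1 + Real.log N) / 2 ^ i := by
          gcongr
          have h3 : ∑ s ∈ Icc 1 K, 1 / (s : ℝ) ≤ 1 + Real.log K := by
            have h := harmonic_le_one_add_log K
            rw [harmonic_eq_sum_Icc] at h
            push_cast at h
            simp only [one_div]
            exact h
          refine h3.trans ?_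
          rcases Nat.eq_zero_or_pos K with h | h
          · subst h
            simp only [Nat.cast_zero, Real.log_zero]
            linarith [Real.log_natCast_nonneg N]
          · have : Real.log K ≤ Real.log N :=
              Real.log_le_log (by exact_mod_cast h) (by exact_mod_cast hKN)
            linarith
  · unfold SW
    calc ∑ s ∈ Icc 1 K, min (1 / ((s : ℝ) * 2 ^ i)) (1 / (R₀ : ℝ))
        ≤ ∑ s ∈ Icc 1 K, 1 / (R₀ : ℝ) := sum_le_sum fun s _ => min_le_right _ _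
      _ = (K : ℝ) / R₀ := by
          rw [sum_const, nsmul_eq_mul, Nat.card_Icc]
          simp only [add_tsub_cancel_right]
          ring

theorem SW_nonneg (K R₀ i : ℕ) : 0 ≤ SW K R₀ i := sum_nonneg fun s _ => by positivity

end Pool.Agent.M848.SV
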