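import Pool.Agent.Lib.MP_848d44_nt.SV.FinC

set_option autoImplicit false

/-!
# MP_848d44_nt, project SV: numerical bounds for one dyadic block
-/

noncomputable section

namespace Pool.Agent.M848.SV

open Finset Pool.Agent.M848 Pool.Agent.M848.FC
open scoped ArithmeticFunction.vonMangoldt ComplexConjugate

theorem numA (N K R₀ i : ℕ) (u m C₃ : ℝ) (hu : 1 ≤ u) (hm : 1 ≤ m) (hN : (N : ℝ) = m ^ 12)
    (hN56 : (N : ℝ) ^ ((5 : ℝ) / 6) = m ^ 10) (hlog : 1 + Real.log N ≤ C₃ * u) (hC₃ : 1 ≤ C₃)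
    (hR₀ : 1 ≤ R₀) (hK : (K : ℝ) * u ^ 20 ≤ R₀) (hKN : K ≤ N) (hN1 : 1 ≤ N)
    (hD : (2 : ℝ) ^ i * u ^ 20 ≤ m ^ 4) :
    (Real.sqrt (2 ^ i) * (N + (N : ℝ) ^ ((5 : ℝ) / 6) * 2 ^ i)) * SW K R₀ (i + 1) * u ^ 8 ≤
      2 * C₃ * N := by
  have hu0 : 0 < u := by linarith
  have hm0 : 0 < m := by linarith
  have hC0 : 0 < C₃ := by linarith
  obtain ⟨hs1, hs2⟩ := SW_le K R₀ (i + 1) N hR₀ hKN hN1
  have hs0 := SW_nonneg K R₀ (i + 1)
  set S := SW K R₀ (i + 1) with hS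
  set D : ℝ := 2 ^ i with hDdef
  have hD0 : 0 < D := by positivity
  have hR0' : (0 : ℝ) < R₀ := by exact_mod_cast hR₀
  have hs1' : S * D ≤ C₃ * u := by
    have h1 : (2 : ℝ) ^ (i + 1) = 2 * D := by rw [hDdef, pow_succ]; ring
    rw [h1, le_div_iff₀ (by positivity)] at hs1
    nlinarith [mul_nonneg hs0 hD0.le]
  have hs2' : S * u ^ 20 ≤ 1 := by
    rw [le_div_iff₀ hR0'] at hs2
    have h1 : S * u ^ 20 * R₀ ≤ 1 * R₀ := by
      calc S * u ^ 20 * R₀ = (S * R₀) * u ^ 20 := by ring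
        _ ≤ K * u ^ 20 := mul_le_mul_of_nonneg_right hs2 (by positivity)
        _ ≤ 1 * R₀ := by rw [one_mul]; exact hK
    exact le_of_mul_le_mul_right h1 hR0'
  set t := Real.sqrt D with ht
  have ht0 : 0 < t := Real.sqrt_pos.2 hD0
  have htt : t * t = D := Real.mul_self_sqrt hD0.le
  -- `t S u^9 ≤ C₃`
  have h1 : t * S * u ^ 9 ≤ C₃ := by
    rcases le_total t (u ^ 10) with h | h
    · calc t * S * u ^ 9 ≤ u ^ 10 * S * u ^ 9 := by gcongr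
        _ ≤ S * u ^ 20 := by
            have : u ^ 10 * S * u ^ 9 = S * u ^ 19 := by ring
            rw [this]
            gcongr
            norm_num
        _ ≤ 1 := hs2'
        _ ≤ C₃ := hC₃
    · have h2 : t * S * u ^ 9 * u ≤ C₃ * u := by
        calc t * S * u ^ 9 * u = t * S * u ^ 10 := by ring
          _ ≤ t * S * t := by gcongr
          _ = S * D := by rw [← htt]; ring
          _ ≤ C₃ * u := hs1'
      exact le_of_mul_le_mul_right h2 hu0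
  have h1' : t * S * u ^ 8 ≤ C₃ := by
    refine le_trans ?_ h1
    gcongr
    norm_num
  -- the second term
  have h2 : t * u ^ 10 ≤ m ^ 2 := by
    have h3 : (t * u ^ 10) ^ 2 ≤ (m ^ 2) ^ 2 := by
      calc (t * u ^ 10) ^ 2 = (t * t) * u ^ 20 := by ring
        _ = D * u ^ 20 := by rw [htt]
        _ ≤ (m ^ 2) ^ 2 := by
            have : (m ^ 2) ^ 2 = m ^ 4 := by ring
            rw [this]
            exact hD
    exact le_of_sq_le_sq h3 (by positivity)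
  rw [hN56]
  have e : t * ((N : ℝ) + m ^ 10 * D) * S * u ^ 8 =
      (t * S * u ^ 8) * N + m ^ 10 * (S * D) * (t * u ^ 8) := by ring
  rw [e]
  have h4 : (t * S * u ^ 8) * N ≤ C₃ * N := by gcongr
  have h5 : m ^ 10 * (S * D) * (t * u ^ 8) ≤ C₃ * N := by
    calc m ^ 10 * (S * D) * (t * u ^ 8) ≤ m ^ 10 * (C₃ * u) * (t * u ^ 8) := by gcongr
      _ = C₃ * m ^ 10 * (t * u ^ 9) := by ring
      _ ≤ C₃ * m ^ 10 * (t * u ^ 10) := by
          gcongr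
          norm_num
      _ ≤ C₃ * m ^ 10 * m ^ 2 := by gcongr
      _ = C₃ * N := by rw [hN]; ring
  linarith

theorem numB (N K R₀ i U : ℕ) (u m C₃ : ℝ) (hu : 1 ≤ u) (hum : u ^ 40 ≤ m)
    (hN : (N : ℝ) = m ^ 12)
    (hN34 : (N : ℝ) ^ ((3 : ℝ) / 4) = m ^ 9) (hlog : 1 + Real.log N ≤ C₃ * u) (hC₃ : 1 ≤ C₃)
    (hR₀ : 1 ≤ R₀) (hKN : K ≤ N) (hN1 : 1 ≤ N) (hK1 : 1 ≤ K)
    (hU1 : (K : ℝ) * u ^ 16 ≤ U) (hU2 : (U : ℝ) ≤ 2 * (K * u ^ 16))
    (hK : (K : ℝ) * u ^ 100 ≤ m ^ 3)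
    (hKD : (K : ℝ) * ((2 : ℝ) ^ i) ^ 2 * u ^ 40 ≤ m ^ 12)
    (hD : m ^ 4 ≤ (2 : ℝ) ^ i * u ^ 20) :
    (U * ((2 : ℝ) ^ i) ^ 2 * Real.sqrt (2 ^ i * K) + ((2 : ℝ) ^ i) ^ 2 * Real.sqrt (U * K) +
      ((2 : ℝ) ^ i) ^ 2 * Real.sqrt (N * K) + 2 ^ i * N * Real.sqrt (K / U) +
      2 ^ i * (N : ℝ) ^ ((3 : ℝ) / 4) * K + N * K) * SW K R₀ (i + 1) * u ^ 7 ≤
      9 * C₃ * N := by
  have hu0 : 0 < u := by linarith
  have hm1 : 1 ≤ m := le_trans (one_le_pow₀ hu) hum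
  have hm0 : 0 < m := by linarith
  have hC0 : 0 < C₃ := by linarith
  have hK0 : (0 : ℝ) < K := by exact_mod_cast hK1
  have hN0 : (0 : ℝ) < N := by exact_mod_cast hN1
  obtain ⟨hs1, -⟩ := SW_le K R₀ (i + 1) N hR₀ hKN hN1
  have hs0 := SW_nonneg K R₀ (i + 1)
  set S := SW K R₀ (i + 1) with hS
  set D : ℝ := 2 ^ i with hDdef
  have hD0 : 0 < D := by positivity
  have hs1' : S * D ≤ C₃ * u := by
    have h1 : (2 : ℝ) ^ (i + 1) = 2 * D := by rw [hDdef, pow_succ]; ring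
    rw [h1, le_div_iff₀ (by positivity)] at hs1
    nlinarith [mul_nonneg hs0 hD0.le]
  have hU0 : (0 : ℝ) < U := lt_of_lt_of_le (by positivity) hU1
  -- powers of u
  have hpu : ∀ a b : ℕ, a ≤ b → u ^ a ≤ u ^ b := fun a b h => pow_le_pow_right₀ hu h
  have hpm : ∀ a b : ℕ, a ≤ b → m ^ a ≤ m ^ b := fun a b h => pow_le_pow_right₀ hm1 h
  -- t1
  have h1 : U * D * Real.sqrt (D * K) * u ^ 8 ≤ 2 * N := by
    have h2 : Real.sqrt (D * K) ^ 2 = D * K := Real.sq_sqrt (by positivity)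
    have h3 : (K : ℝ) ^ 3 * D ^ 3 * u ^ 48 ≤ m ^ 24 := by
      have h4 : ((K : ℝ) ^ 3 * D ^ 3 * u ^ 48) ^ 2 ≤ (m ^ 24) ^ 2 := by
        calc ((K : ℝ) ^ 3 * D ^ 3 * u ^ 48) ^ 2 = (K * D ^ 2) ^ 3 * (K : ℝ) ^ 3 * u ^ 96 := by ring
          _ ≤ (K * D ^ 2) ^ 3 * (K : ℝ) ^ 3 * u ^ 420 := by
              gcongr
              norm_num
          _ = (K * D ^ 2 * u ^ 40) ^ 3 * (K * u ^ 100) ^ 3 := by ring
          _ ≤ (m ^ 12) ^ 3 * (m ^ 3) ^ 3 := by gcongr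
          _ = m ^ 45 := by ring
          _ ≤ m ^ 48 := hpm _ _ (by norm_num)
          _ = (m ^ 24) ^ 2 := by ring
      exact le_of_sq_le_sq h4 (by positivity)
    have h4 : (U * D * Real.sqrt (D * K) * u ^ 8) ^ 2 ≤ (2 * (N : ℝ)) ^ 2 := by
      calc (U * D * Real.sqrt (D * K) * u ^ 8) ^ 2 =
          (U : ℝ) ^ 2 * D ^ 2 * u ^ 16 * Real.sqrt (D * K) ^ 2 := by ring
        _ = (U : ℝ) ^ 2 * D ^ 2 * u ^ 16 * (D * K) := by rw [h2]
        _ ≤ (2 * (K * u ^ 16)) ^ 2 * D ^ 2 * u ^ 16 * (D * K) := by gcongr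
        _ = 4 * ((K : ℝ) ^ 3 * D ^ 3 * u ^ 48) := by ring
        _ ≤ 4 * m ^ 24 := by gcongr
        _ = (2 * (N : ℝ)) ^ 2 := by rw [hN]; ring
    exact le_of_sq_le_sq h4 (by positivity)
  -- t2
  have h2 : D * Real.sqrt (U * K) * u ^ 8 ≤ 2 * N := by
    have h3 : Real.sqrt (U * K) ^ 2 = U * K := Real.sq_sqrt (by positivity)
    have h4 : (D * Real.sqrt (U * K) * u ^ 8) ^ 2 ≤ (2 * (N : ℝ)) ^ 2 := by
      calc (D * Real.sqrt (U * K) * u ^ 8) ^ 2 = D ^ 2 * u ^ 16 * Real.sqrt (U * K) ^ 2 := by ring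
        _ = D ^ 2 * u ^ 16 * (U * K) := by rw [h3]
        _ ≤ D ^ 2 * u ^ 16 * (2 * (K * u ^ 16) * K) := by gcongr
        _ = 2 * ((K * D ^ 2) * K * u ^ 32) := by ring
        _ ≤ 2 * ((K * D ^ 2) * K * u ^ 140) := by
            gcongr
            norm_num
        _ = 2 * ((K * D ^ 2 * u ^ 40) * (K * u ^ 100)) := by ring
        _ ≤ 2 * (m ^ 12 * m ^ 3) := by gcongr
        _ = 2 * m ^ 15 := by ring
        _ ≤ 2 * m ^ 24 := by
            have := hpm 15 24 (by norm_num)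
            linarith
        _ ≤ 4 * m ^ 24 := by
            have : 0 < m ^ 24 := by positivity
            linarith
        _ = (2 * (N : ℝ)) ^ 2 := by rw [hN]; ring
    exact le_of_sq_le_sq h4 (by positivity)
  -- t3
  have h3 : D * Real.sqrt (N * K) * u ^ 8 ≤ N := by
    have h4 : Real.sqrt (N * K) ^ 2 = N * K := Real.sq_sqrt (by positivity)
    have h5 : (D * Real.sqrt (N * K) * u ^ 8) ^ 2 ≤ (N : ℝ) ^ 2 := by
      calc (D * Real.sqrt (N * K) * u ^ 8) ^ 2 = D ^ 2 * u ^ 16 * Real.sqrt (N * K) ^ 2 := by ring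
        _ = N * (K * D ^ 2 * u ^ 16) := by rw [h4]; ring
        _ ≤ N * (K * D ^ 2 * u ^ 40) := by
            gcongr
            norm_num
        _ ≤ N * m ^ 12 := by gcongr
        _ = (N : ℝ) ^ 2 := by rw [hN]; ring
    exact le_of_sq_le_sq h5 (by positivity)
  -- t4
  have h4 : N * Real.sqrt (K / U) * u ^ 8 ≤ N := by
    have h5 : Real.sqrt (K / U) * u ^ 8 ≤ 1 := by
      have h6 : Real.sqrt (K / U) ^ 2 = K / U := Real.sq_sqrt (by positivity)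
      have h7 : (Real.sqrt (K / U) * u ^ 8) ^ 2 ≤ (1 : ℝ) ^ 2 := by
        calc (Real.sqrt (K / U) * u ^ 8) ^ 2 = Real.sqrt (K / U) ^ 2 * u ^ 16 := by ring
          _ = K * u ^ 16 / U := by rw [h6]; ring
          _ ≤ 1 := by rw [div_le_one hU0]; exact hU1
          _ = (1 : ℝ) ^ 2 := by norm_num
      exact le_of_sq_le_sq h7 (by norm_num)
    calc (N : ℝ) * Real.sqrt (K / U) * u ^ 8 = N * (Real.sqrt (K / U) * u ^ 8) := by ring
      _ ≤ (N : ℝ) * 1 := by gcongr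
      _ = (N : ℝ) := mul_one _
  -- t5
  have h5 : (N : ℝ) ^ ((3 : ℝ) / 4) * K * u ^ 8 ≤ N := by
    rw [hN34]
    calc m ^ 9 * K * u ^ 8 ≤ m ^ 9 * K * u ^ 100 := by
          gcongr
          norm_num
      _ = m ^ 9 * (K * u ^ 100) := by ring
      _ ≤ m ^ 9 * m ^ 3 := by gcongr
      _ = N := by rw [hN]; ring
  -- t6
  have h6 : (K : ℝ) * u ^ 8 ≤ D := by
    have h7 : (K : ℝ) * u ^ 8 * u ^ 20 ≤ D * u ^ 20 := by
      calc (K : ℝ) * u ^ 8 * u ^ 20 = K * u ^ 28 := by ring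
        _ ≤ K * u ^ 100 := by
            gcongr
            norm_num
        _ ≤ m ^ 3 := hK
        _ ≤ m ^ 4 := hpm _ _ (by norm_num)
        _ ≤ D * u ^ 20 := hD
    exact le_of_mul_le_mul_right h7 (by positivity)
  have e : (U * D ^ 2 * Real.sqrt (D * K) + D ^ 2 * Real.sqrt (U * K) +
      D ^ 2 * Real.sqrt (N * K) + D * N * Real.sqrt (K / U) +
      D * (N : ℝ) ^ ((3 : ℝ) / 4) * K + N * K) * S * u ^ 8 =
      (S * D) * (U * D * Real.sqrt (D * K) * u ^ 8 + D * Real.sqrt (U * K) * u ^ 8 +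
        D * Real.sqrt (N * K) * u ^ 8 + N * Real.sqrt (K / U) * u ^ 8 +
        (N : ℝ) ^ ((3 : ℝ) / 4) * K * u ^ 8) + N * S * (K * u ^ 8) := by ring
  have h7 : (U * D ^ 2 * Real.sqrt (D * K) + D ^ 2 * Real.sqrt (U * K) +
      D ^ 2 * Real.sqrt (N * K) + D * N * Real.sqrt (K / U) +
      D * (N : ℝ) ^ ((3 : ℝ) / 4) * K + N * K) * S * u ^ 8 ≤ 9 * C₃ * N * u := by
    rw [e]
    have h8 : (S * D) * (U * D * Real.sqrt (D * K) * u ^ 8 + D * Real.sqrt (U * K) * u ^ 8 +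
        D * Real.sqrt (N * K) * u ^ 8 + N * Real.sqrt (K / U) * u ^ 8 +
        (N : ℝ) ^ ((3 : ℝ) / 4) * K * u ^ 8) ≤ (C₃ * u) * (2 * N + 2 * N + N + N + N) := by
      gcongr
    have h9 : N * S * (K * u ^ 8) ≤ N * S * D := by gcongr
    have h10 : N * S * D ≤ N * (C₃ * u) := by
      rw [mul_assoc]
      gcongr
    have h11 : 0 < C₃ * u * N := by positivity
    nlinarith
  have h12 : (U * D ^ 2 * Real.sqrt (D * K) + D ^ 2 * Real.sqrt (U * K) +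
      D ^ 2 * Real.sqrt (N * K) + D * N * Real.sqrt (K / U) +
      D * (N : ℝ) ^ ((3 : ℝ) / 4) * K + N * K) * S * u ^ 7 * u ≤ 9 * C₃ * N * u := by
    refine le_trans (le_of_eq ?_) h7
    ring
  exact le_of_mul_le_mul_right h12 hu0

end Pool.Agent.M848.SV
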