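import Pool.Agent.Lib.MP_848d44_nt.SV.FinD

set_option autoImplicit false

/-!
# MP_848d44_nt, project SV: the off-diagonal term is small
-/

noncomputable section

namespace Pool.Agent.M848.SV

open Finset Pool.Agent.M848 Pool.Agent.M848.FC
open scoped ArithmeticFunction.vonMangoldt ComplexConjugate

/-- The sizes. -/
structure Szs (N q R₀ R : ℕ) (u m C₃ : ℝ) : Prop where
  hu2 : 2 ≤ u
  hum : u ^ 80 ≤ m
  hN : (N : ℝ) = m ^ 12
  hN56 : (N : ℝ) ^ ((5 : ℝ) / 6) = m ^ 10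
  hN34 : (N : ℝ) ^ ((3 : ℝ) / 4) = m ^ 9
  hlog : 1 + Real.log N ≤ C₃ * u
  hC₃ : 1 ≤ C₃
  hN1 : 1 ≤ N
  hq : 1 ≤ q
  hqN : q ≤ N
  hR₀ : 1 ≤ R₀
  hR : 1 ≤ R
  hRN : R ≤ N
  hK : ((N / q : ℕ) : ℝ) * u ^ 20 ≤ R₀
  hcase : (R : ℝ) * u ^ 20 ≤ m ^ 4 ∨
    (((N / q : ℕ) : ℝ) * u ^ 100 ≤ m ^ 3 ∧ ((N / q : ℕ) : ℝ) * (R : ℝ) ^ 2 * u ^ 40 ≤ m ^ 12)

theorem log_count (R N : ℕ) (hR : 1 ≤ R) (hRN : R ≤ N) :
    ((Nat.log 2 R + 1 : ℕ) : ℝ) ≤ 2 * (1 + Real.log N) := by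
  have hR0 : (0 : ℝ) < R := by exact_mod_cast hR
  have h1 : (Nat.log 2 R : ℝ) ≤ Real.log R / Real.log 2 := by
    have := Real.natLog_le_logb R 2
    rw [Real.logb] at this
    exact_mod_cast this
  have h2 : Real.log R ≤ Real.log N := Real.log_le_log hR0 (by exact_mod_cast hRN)
  have h3 : Real.log R / Real.log 2 ≤ 2 * Real.log N := by
    have h4 := Real.log_two_gt_d9
    have h5 : 0 ≤ Real.log N := Real.log_natCast_nonneg N
    rw [div_le_iff₀ (by linarith)]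
    nlinarith
  push_cast
  linarith

theorem mainS_bound (κ : ℝ) (hκ : 0 < κ) : ∃ C : ℝ, 1 ≤ C ∧ ∀ (N q R₀ R : ℕ) (m C₃ : ℝ),
    Szs N q R₀ R ((N : ℝ) ^ κ) m C₃ → ∀ (A B : ℤ) (h j : ℕ) (H : ℝ), 1 ≤ h → 0 ≤ H →
    (N : ℝ) ≤ H * h → Wgt (spl A B h (j + 1)) N → ∑ n ∈ Icc 1 N, (Λ n : ℝ) ≤ 2 * N →
    ∀ σ : ℤ, (σ = 1 ∨ σ = -1) →
      ‖MainS (spl A B h (j + 1)) N q R₀ R σ‖ * ((N : ℝ) ^ κ) ^ 2 ≤ C * C₃ ^ 2 * (2 * H + 1) * N := by
  obtain ⟨Cw, hCw, hw⟩ := main_bound κ hκ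
  obtain ⟨CA, hCA, hA⟩ := blockA κ hκ
  obtain ⟨CB, hCB, hB⟩ := tri κ hκ
  refine ⟨max 1 (Cw * (2 + 18 * (CA + CB))), le_max_left _ _, ?_⟩
  intro N q R₀ R m C₃ hS A B h j H hh hH hNH hW hψ σ hσ
  set u : ℝ := (N : ℝ) ^ κ with hudef
  obtain ⟨hu2, hum, hN, hN56, hN34, hlog, hC₃, hN1, hq, hqN, hR₀, hR, hRN, hK, hcase⟩ := hS
  have hu : 1 ≤ u := by linarith
  set K := N / q with hKdef
  have hK1 : 1 ≤ K := (Nat.one_le_div_iff hq).2 hqN
  have hKN : K ≤ N := Nat.div_le_self N q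
  have hu0 : 0 < u := by linarith
  have hm1 : 1 ≤ m := le_trans (one_le_pow₀ hu) hum
  have hm0 : 0 < m := by linarith
  have hC0 : 0 < C₃ := by linarith
  have hN0 : (0 : ℝ) < N := by exact_mod_cast hN1
  have hK0 : (0 : ℝ) < K := by exact_mod_cast hK1
  have hR₀0 : (0 : ℝ) < R₀ := by exact_mod_cast hR₀
  have hh0 : (0 : ℝ) < h := by exact_mod_cast hh
  have hCA0 : 0 < CA := by linarith
  set U : ℕ := K * ⌈u ^ 16⌉₊ with hU
  have hceil1 : u ^ 16 ≤ (⌈u ^ 16⌉₊ : ℝ) := Nat.le_ceil _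
  have hceil2 : (⌈u ^ 16⌉₊ : ℝ) ≤ 2 * u ^ 16 := by
    have h1 := Nat.ceil_lt_add_one (by positivity : (0 : ℝ) ≤ u ^ 16)
    have h2 : (1 : ℝ) ≤ u ^ 16 := one_le_pow₀ hu
    linarith
  have hU1 : (K : ℝ) * u ^ 16 ≤ U := by
    rw [hU]
    push_cast
    gcongr
  have hU2 : (U : ℝ) ≤ 2 * (K * u ^ 16) := by
    rw [hU]
    push_cast
    calc (K : ℝ) * (⌈u ^ 16⌉₊ : ℝ) ≤ K * (2 * u ^ 16) := by gcongr
      _ = _ := by ring
  -- the bounds of the blocks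
  set P : ℕ → ℝ := fun i => if (2 : ℝ) ^ i * u ^ 20 ≤ m ^ 4 then
      CA * u * (Real.sqrt (2 ^ i) * (N + (N : ℝ) ^ ((5 : ℝ) / 6) * 2 ^ i))
    else CB * u * (U * ((2 : ℝ) ^ i) ^ 2 * Real.sqrt (2 ^ i * K) +
      ((2 : ℝ) ^ i) ^ 2 * Real.sqrt (U * K) + ((2 : ℝ) ^ i) ^ 2 * Real.sqrt (N * K) +
      2 ^ i * N * Real.sqrt (K / U) + 2 ^ i * (N : ℝ) ^ ((3 : ℝ) / 4) * K + N * K) with hP
  have hpm : ∀ a b : ℕ, a ≤ b → m ^ a ≤ m ^ b := fun a b h => pow_le_pow_right₀ hm1 h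
  have hum20 : u ^ 20 ≤ m := (pow_le_pow_right₀ hu (by norm_num)).trans hum
  -- facts in the second case
  have hsec : ∀ i, 2 ^ i < R → ¬ (2 : ℝ) ^ i * u ^ 20 ≤ m ^ 4 →
      (K : ℝ) * u ^ 100 ≤ m ^ 3 ∧ (K : ℝ) * ((2 : ℝ) ^ i) ^ 2 * u ^ 40 ≤ m ^ 12 := by
    intro i hi hnot
    have hi' : (2 : ℝ) ^ i ≤ R := by exact_mod_cast hi.le
    rcases hcase with h1 | ⟨h1, h2⟩
    · exact absurd ((mul_le_mul_of_nonneg_right hi' (by positivity)).trans h1) hnot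
    · refine ⟨h1, le_trans ?_ h2⟩
      gcongr
  have hPb : ∀ i, 2 ^ i < R → ∀ y ≤ N, ∀ v w : ℕ, w ≤ N / q →
      ∑ f ∈ Ioc (2 ^ i) (2 ^ (i + 1)), ∑ χ ∈ pc f, ‖SL χ y‖ * ‖∑ k ∈ Ioc v w, χ k‖ ≤ P i := by
    intro i hi y hy v w hw'
    have e2 : 2 ^ (i + 1) = 2 * 2 ^ i := by rw [pow_succ]; ring
    rw [e2]
    have h1i : 1 ≤ 2 ^ i := Nat.one_le_two_pow
    have hcast : ((2 ^ i : ℕ) : ℝ) = (2 : ℝ) ^ i := by push_cast; rfl
    by_cases hc : (2 : ℝ) ^ i * u ^ 20 ≤ m ^ 4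
    · have h3 : P i = CA * u * (Real.sqrt (2 ^ i) *
          (N + (N : ℝ) ^ ((5 : ℝ) / 6) * 2 ^ i)) := if_pos hc
      rw [h3]
      have h4 : (2 ^ i) ^ 3 ≤ N := by
        have h5 : (((2 ^ i) ^ 3 : ℕ) : ℝ) ≤ N := by
          push_cast
          have h6 : (2 : ℝ) ^ i ≤ m ^ 4 := by
            refine le_trans ?_ hc
            have : (1 : ℝ) ≤ u ^ 20 := one_le_pow₀ hu
            nlinarith [pow_pos (zero_lt_two' ℝ) i]
          calc ((2 : ℝ) ^ i) ^ 3 ≤ (m ^ 4) ^ 3 := by gcongr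
            _ = (N : ℝ) := by rw [hN]; ring
        exact_mod_cast h5
      have h5 := hA N (2 ^ i) y v w h1i h4 hy
      rw [hcast] at h5
      exact h5
    · have h3 : P i = CB * u * (U * ((2 : ℝ) ^ i) ^ 2 * Real.sqrt (2 ^ i * K) +
          ((2 : ℝ) ^ i) ^ 2 * Real.sqrt (U * K) + ((2 : ℝ) ^ i) ^ 2 * Real.sqrt (N * K) +
          2 ^ i * N * Real.sqrt (K / U) + 2 ^ i * (N : ℝ) ^ ((3 : ℝ) / 4) * K + N * K) := if_neg hc
      rw [h3]
      obtain ⟨h4, h5⟩ := hsec i hi hc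
      rw [not_le] at hc
      have hD3 : m ^ 3 ≤ (2 : ℝ) ^ i := by
        have h6 : m ^ 3 * u ^ 20 ≤ (2 : ℝ) ^ i * u ^ 20 := by
          calc m ^ 3 * u ^ 20 ≤ m ^ 3 * m := by gcongr
            _ = m ^ 4 := by ring
            _ ≤ _ := hc.le
        exact le_of_mul_le_mul_right h6 (by positivity)
      have hu16 : (K : ℝ) * u ^ 100 = K * u ^ 16 * u ^ 84 := by ring
      have hKU : 2 * ((K : ℝ) * u ^ 16) ≤ m ^ 3 := by
        have h7 : 2 ≤ u ^ 84 := hu2.trans (le_self_pow₀ hu (by norm_num))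
        calc 2 * ((K : ℝ) * u ^ 16) ≤ u ^ 84 * ((K : ℝ) * u ^ 16) := by gcongr
          _ = (K : ℝ) * u ^ 100 := by ring
          _ ≤ m ^ 3 := h4
      have h6 : K ≤ 2 ^ i := by
        have : (K : ℝ) ≤ ((2 ^ i : ℕ) : ℝ) := by
          rw [hcast]
          refine le_trans ?_ hD3
          refine le_trans ?_ hKU
          have : (1 : ℝ) ≤ u ^ 16 := one_le_pow₀ hu
          nlinarith
        exact_mod_cast this
      have h7 : U ≤ 2 ^ i := by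
        have : (U : ℝ) ≤ ((2 ^ i : ℕ) : ℝ) := by
          rw [hcast]
          exact hU2.trans (hKU.trans hD3)
        exact_mod_cast this
      have h8 : U ^ 3 ≤ N := by
        have : ((U ^ 3 : ℕ) : ℝ) ≤ N := by
          push_cast
          calc (U : ℝ) ^ 3 ≤ (m ^ 3) ^ 3 := by
                gcongr
                exact hU2.trans hKU
            _ = m ^ 9 := by ring
            _ ≤ m ^ 12 := hpm _ _ (by norm_num)
            _ = N := hN.symm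
        exact_mod_cast this
      have h9 : 1 ≤ U := by
        rw [hU]
        have : 1 ≤ ⌈u ^ 16⌉₊ := Nat.one_le_iff_ne_zero.2 (Nat.ceil_pos.2 (by positivity)).ne'
        exact Nat.one_le_iff_ne_zero.2 (Nat.mul_ne_zero (by omega) (by omega))
      have h10 : 2 ^ i ≤ N := hi.le.trans hRN
      have h11 := hB N (2 ^ i) K U y v w hK1 h9 h6 h7 h8 h10 hy hw'
      rw [hcast] at h11
      exact h11
  have h1 := hw N q R₀ R hq hR₀ hR hRN A B h j hh hW hψ P hPb σ hσ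
  have hP0 : ∀ i, 2 ^ i < R → 0 ≤ P i := fun i hi =>
    (sum_nonneg fun f _ => sum_nonneg fun χ _ => by positivity).trans
      (hPb i hi 0 (Nat.zero_le _) 0 0 (Nat.zero_le _))
  -- the principal part
  set S1 : ℝ := ∑ s ∈ Icc 1 R, min (1 / (s : ℝ)) (1 / (R₀ : ℝ)) *
    (((N / q / s : ℕ) : ℝ) * (2 * N)) with hS1
  set S2 : ℝ := ∑ i ∈ (range (Nat.log 2 R + 1)).filter (fun i => 2 ^ i < R),
    (2 * N / h + 1) * P i * SW (N / q) R₀ (i + 1) with hS2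
  have hS1b : S1 * u ^ 3 ≤ 2 * C₃ * N := by
    have h2 : S1 ≤ (K : ℝ) / R₀ * (2 * N) * (1 + Real.log N) := by
      have h3 : S1 ≤ ∑ s ∈ Icc 1 R, (K : ℝ) / R₀ * (2 * N) * (1 / (s : ℝ)) := by
        rw [hS1]
        refine sum_le_sum fun s hs => ?_
        have hs0 : (0 : ℝ) < s := by exact_mod_cast (mem_Icc.1 hs).1
        have h4 : ((N / q / s : ℕ) : ℝ) ≤ (K : ℝ) / s := Nat.cast_div_le
        calc min (1 / (s : ℝ)) (1 / (R₀ : ℝ)) * (((N / q / s : ℕ) : ℝ) * (2 * N))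
            ≤ (1 / (R₀ : ℝ)) * (((K : ℝ) / s) * (2 * N)) := by
              gcongr
              exact min_le_right _ _
          _ = _ := by ring
      refine h3.trans ?_
      rw [← mul_sum]
      refine mul_le_mul_of_nonneg_left ?_ (by positivity)
      have h5 : ∑ s ∈ Icc 1 R, 1 / (s : ℝ) ≤ 1 + Real.log R := by
        have h := harmonic_le_one_add_log R
        rw [harmonic_eq_sum_Icc] at h
        push_cast at h
        simp only [one_div]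
        exact h
      have h6 : Real.log R ≤ Real.log N :=
        Real.log_le_log (by exact_mod_cast hR) (by exact_mod_cast hRN)
      linarith
    have h3 : (K : ℝ) / R₀ * u ^ 20 ≤ 1 := by
      rw [div_mul_eq_mul_div, div_le_one hR₀0]
      exact hK
    have hL0 : 0 ≤ 1 + Real.log N := by
      have := Real.log_natCast_nonneg N
      linarith
    have h4 : S1 * u ^ 3 * u ≤ 2 * C₃ * N * u := by
      calc S1 * u ^ 3 * u = S1 * u ^ 4 := by ring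
        _ ≤ (K : ℝ) / R₀ * (2 * N) * (1 + Real.log N) * u ^ 20 := by
            gcongr
            norm_num
        _ = ((K : ℝ) / R₀ * u ^ 20) * (2 * N) * (1 + Real.log N) := by ring
        _ ≤ 1 * (2 * N) * (C₃ * u) := by gcongr
        _ = _ := by ring
    exact le_of_mul_le_mul_right h4 hu0
  -- one block
  have hblock : ∀ i, 2 ^ i < R → P i * SW (N / q) R₀ (i + 1) * u ^ 6 ≤
      9 * (CA + CB) * C₃ * N := by
    intro i hi
    have hsw := SW_nonneg (N / q) R₀ (i + 1)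
    by_cases hc : (2 : ℝ) ^ i * u ^ 20 ≤ m ^ 4
    · have h3 : P i = CA * u * (Real.sqrt (2 ^ i) *
          (N + (N : ℝ) ^ ((5 : ℝ) / 6) * 2 ^ i)) := if_pos hc
      have h4 := numA N K R₀ i u m C₃ hu hm1 hN hN56 hlog hC₃ hR₀ hK hKN hN1 hc
      rw [h3]
      calc _ = CA * ((Real.sqrt (2 ^ i) * (N + (N : ℝ) ^ ((5 : ℝ) / 6) * 2 ^ i)) *
            SW K R₀ (i + 1) * u ^ 7) := by rw [hKdef]; ring
        _ ≤ CA * ((Real.sqrt (2 ^ i) * (N + (N : ℝ) ^ ((5 : ℝ) / 6) * 2 ^ i)) *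
            SW K R₀ (i + 1) * u ^ 8) := by
            gcongr
            norm_num
        _ ≤ CA * (2 * C₃ * N) := by gcongr
        _ ≤ 9 * (CA + CB) * C₃ * N := by
            have : 0 < C₃ * N := by positivity
            nlinarith [mul_pos hCA0 this, mul_pos hCB this]
    · have h3 : P i = CB * u * (U * ((2 : ℝ) ^ i) ^ 2 * Real.sqrt (2 ^ i * K) +
          ((2 : ℝ) ^ i) ^ 2 * Real.sqrt (U * K) + ((2 : ℝ) ^ i) ^ 2 * Real.sqrt (N * K) +
          2 ^ i * N * Real.sqrt (K / U) + 2 ^ i * (N : ℝ) ^ ((3 : ℝ) / 4) * K + N * K) := if_neg hc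
      obtain ⟨h4, h5⟩ := hsec i hi hc
      have h6 := numB N K R₀ i U u m C₃ hu ((pow_le_pow_right₀ hu (by norm_num)).trans hum) hN hN34
        hlog hC₃ hR₀ hKN hN1 hK1 hU1 hU2 h4 h5 (not_le.1 hc).le
      rw [h3]
      calc _ = CB * ((U * ((2 : ℝ) ^ i) ^ 2 * Real.sqrt (2 ^ i * K) +
            ((2 : ℝ) ^ i) ^ 2 * Real.sqrt (U * K) + ((2 : ℝ) ^ i) ^ 2 * Real.sqrt (N * K) +
            2 ^ i * N * Real.sqrt (K / U) + 2 ^ i * (N : ℝ) ^ ((3 : ℝ) / 4) * K + N * K) *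
            SW K R₀ (i + 1) * u ^ 7) := by rw [hKdef]; ring
        _ ≤ CB * (9 * C₃ * N) := by gcongr
        _ ≤ 9 * (CA + CB) * C₃ * N := by
            have : 0 < C₃ * N := by positivity
            nlinarith [mul_pos hCA0 this, mul_pos hCB this]
  have hHh : 2 * (N : ℝ) / h + 1 ≤ 2 * H + 1 := by
    have : (N : ℝ) / h ≤ H := by rw [div_le_iff₀ hh0]; exact hNH
    have e : 2 * (N : ℝ) / h = 2 * ((N : ℝ) / h) := by ring
    rw [e]
    linarith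
  have hS2b : S2 * u ^ 3 ≤ 18 * (CA + CB) * C₃ ^ 2 * (2 * H + 1) * N := by
    have h2 : S2 * u ^ 6 ≤ (2 * (C₃ * u)) * ((2 * H + 1) * (9 * (CA + CB) * C₃ * N)) := by
      have h3 : S2 * u ^ 6 = ∑ i ∈ (range (Nat.log 2 R + 1)).filter (fun i => 2 ^ i < R),
          (2 * N / h + 1) * (P i * SW (N / q) R₀ (i + 1) * u ^ 6) := by
        rw [hS2, sum_mul]
        refine sum_congr rfl fun i _ => ?_
        ring
      rw [h3]
      have h4 : ∑ i ∈ (range (Nat.log 2 R + 1)).filter (fun i => 2 ^ i < R),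
          (2 * N / h + 1) * (P i * SW (N / q) R₀ (i + 1) * u ^ 6) ≤
          ∑ i ∈ (range (Nat.log 2 R + 1)).filter (fun i => 2 ^ i < R),
            (2 * H + 1) * (9 * (CA + CB) * C₃ * N) := by
        refine sum_le_sum fun i hi => ?_
        have hi' := (mem_filter.1 hi).2
        have h5 := hblock i hi'
        have h6 : 0 ≤ P i * SW (N / q) R₀ (i + 1) * u ^ 6 :=
          mul_nonneg (mul_nonneg (hP0 i hi') (SW_nonneg _ _ _)) (by positivity)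
        exact mul_le_mul hHh h5 h6 (by positivity)
      refine h4.trans ?_
      rw [sum_const, nsmul_eq_mul]
      refine mul_le_mul_of_nonneg_right ?_ (by positivity)
      calc (((range (Nat.log 2 R + 1)).filter (fun i => 2 ^ i < R)).card : ℝ)
          ≤ ((Nat.log 2 R + 1 : ℕ) : ℝ) := by
            have := card_filter_le (range (Nat.log 2 R + 1)) (fun i => 2 ^ i < R)
            rw [card_range] at this
            exact_mod_cast this
        _ ≤ 2 * (1 + Real.log N) := log_count R N hR hRN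
        _ ≤ 2 * (C₃ * u) := by linarith
    have hS20 : 0 ≤ S2 := by
      rw [hS2]
      refine sum_nonneg fun i hi => ?_
      exact mul_nonneg (mul_nonneg (by positivity) (hP0 i (mem_filter.1 hi).2)) (SW_nonneg _ _ _)
    have h3 : S2 * u ^ 3 * u ≤ 18 * (CA + CB) * C₃ ^ 2 * (2 * H + 1) * N * u := by
      calc S2 * u ^ 3 * u = S2 * u ^ 4 := by ring
        _ ≤ S2 * u ^ 6 := by
            gcongr
            norm_num
        _ ≤ _ := h2
        _ = _ := by ring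
    exact le_of_mul_le_mul_right h3 hu0
  calc ‖MainS (spl A B h (j + 1)) N q R₀ R σ‖ * u ^ 2 ≤ Cw * u * (S1 + S2) * u ^ 2 := by
        gcongr
    _ = Cw * (S1 * u ^ 3 + S2 * u ^ 3) := by ring
    _ ≤ Cw * (2 * C₃ * N + 18 * (CA + CB) * C₃ ^ 2 * (2 * H + 1) * N) := by gcongr
    _ ≤ Cw * ((2 + 18 * (CA + CB)) * C₃ ^ 2 * (2 * H + 1) * N) := by
        refine mul_le_mul_of_nonneg_left ?_ hCw.le
        have h2 : C₃ ≤ C₃ ^ 2 * (2 * H + 1) := by nlinarith [mul_nonneg hC0.le hH]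
        have h3 : 2 * C₃ * N ≤ 2 * (C₃ ^ 2 * (2 * H + 1)) * N := by gcongr
        nlinarith
    _ = Cw * (2 + 18 * (CA + CB)) * C₃ ^ 2 * (2 * H + 1) * N := by ring
    _ ≤ _ := by
        gcongr
        exact le_max_right _ _

end Pool.Agent.M848.SV
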