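import Pool.Agent.Lib.MP_848d44_nt.SV.Base

set_option autoImplicit false

/-!
# MP_848d44_nt, project SV, module Qbv

Quadrature for functions of bounded variation.
-/

noncomputable section

namespace Pool.Agent.M848.SV

open Finset Pool.Agent.M848 Pool.Agent.M848.FC
open scoped ArithmeticFunction.vonMangoldt ComplexConjugate

namespace QbvAux

/-- the increment over `n` steps is at most the variation -/
theorem abs_inc (f : ℤ → ℝ) (v : ℤ) (n : ℕ) :
    |f (v + n) - f v| ≤ ∑ s ∈ range n, |f (v + s + 1) - f (v + s)| := by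
  induction n with
  | zero => simp
  | succ n ih =>
      rw [sum_range_succ]
      have h1 : f (v + ((n + 1 : ℕ) : ℤ)) - f v
          = (f (v + n) - f v) + (f (v + n + 1) - f (v + n)) := by
        have : (v + ((n + 1 : ℕ) : ℤ)) = v + n + 1 := by push_cast; ring
        rw [this]; ring
      rw [h1]
      exact (abs_add_le _ _).trans (by linarith)

theorem sum_blocks (f : ℕ → ℝ) (K D : ℕ) :
    ∑ j ∈ range (K * D), f j = ∑ t ∈ range K, ∑ i ∈ range D, f (t * D + i) := by
  induction K with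
  | zero => simp
  | succ K ih => rw [add_mul, one_mul, sum_range_add, ih, sum_range_succ]

/-- the deviation of the value at the first point of a block from the mean -/
theorem block_dev (g : ℤ → ℝ) (v : ℤ) (L : ℕ) (hL : 1 ≤ L) :
    |g v - (1 / (L : ℝ)) * ∑ i ∈ range L, g (v + i)|
      ≤ ∑ i ∈ range L, |g (v + i + 1) - g (v + i)| := by
  have hL0 : (0 : ℝ) < L := by exact_mod_cast hL
  set V : ℝ := ∑ i ∈ range L, |g (v + i + 1) - g (v + i)| with hV
  have h1 : g v - (1 / (L : ℝ)) * ∑ i ∈ range L, g (v + i)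
      = (1 / (L : ℝ)) * ∑ i ∈ range L, (g v - g (v + i)) := by
    rw [sum_sub_distrib, sum_const, card_range, nsmul_eq_mul]
    field_simp
  rw [h1, abs_mul, abs_of_pos (by positivity : (0 : ℝ) < 1 / (L : ℝ))]
  have h2 : |∑ i ∈ range L, (g v - g (v + i))| ≤ ∑ i ∈ range L, V := by
    refine (abs_sum_le_sum_abs _ _).trans (sum_le_sum fun i hi => ?_)
    rw [abs_sub_comm]
    refine (abs_inc g v i).trans ?_
    refine sum_le_sum_of_subset_of_nonneg ?_ (fun _ _ _ => abs_nonneg _)
    intro s hs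
    rw [mem_range] at hs hi ⊢
    omega
  rw [sum_const, card_range, nsmul_eq_mul] at h2
  calc 1 / (L : ℝ) * |∑ i ∈ range L, (g v - g (v + i))|
      ≤ 1 / (L : ℝ) * (L * V) := mul_le_mul_of_nonneg_left h2 (by positivity)
    _ = V := by field_simp

end QbvAux

theorem qbv1 (g : ℤ → ℝ) (N : ℕ) (T : ℝ) (hs : ∀ m, g m ≠ 0 → 1 ≤ m ∧ m ≤ N)
    (htv : ∀ (u : ℤ) (n : ℕ), ∑ i ∈ range n, |g (u + i + 1) - g (u + i)| ≤ T)
    (L : ℕ) (hL : 1 ≤ L) (b : ℕ) :
    |∑ m ∈ (Icc 1 N).filter (fun m => m % L = b % L), g (m : ℤ)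
      - (1 / (L : ℝ)) * ∑ m ∈ Icc 1 N, g (m : ℤ)| ≤ T := by
  have hrL : b % L < L := Nat.mod_lt _ (by omega)
  set r : ℕ := b % L with hr
  set u : ℤ := (r : ℤ) - L with hu
  set K : ℕ := N + 2 with hK
  have hu0 : u < 0 := by omega
  have hKL : (N : ℤ) < u + ((K * L : ℕ) : ℤ) := by
    have h1 : (N + 1 : ℤ) * 1 ≤ (N + 1 : ℤ) * L := by
      apply mul_le_mul_of_nonneg_left
      · exact_mod_cast hL
      · positivity
    rw [hu, hK]
    push_cast
    nlinarith [Int.natCast_nonneg r]
  -- the full sum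
  have hfull : ∑ m ∈ Icc 1 N, g (m : ℤ) = ∑ i ∈ range (K * L), g (u + i) := by
    refine Finset.sum_of_injOn (fun m : ℕ => (((m : ℤ) - u).toNat)) ?_ ?_ ?_ ?_
    · intro a _ c _ hac
      simp only at hac
      omega
    · intro a ha
      simp only [coe_Icc, Set.mem_Icc] at ha
      simp only [coe_range, Set.mem_Iio]
      omega
    · intro i hi hni
      by_contra hne
      obtain ⟨h1, h2⟩ := hs _ hne
      apply hni
      refine ⟨(u + i).toNat, ?_, ?_⟩
      · simp only [coe_Icc, Set.mem_Icc]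
        omega
      · simp only
        omega
    · intro a ha
      rw [mem_Icc] at ha
      congr 1
      omega
  -- the class sum
  have hcls : ∑ m ∈ (Icc 1 N).filter (fun m => m % L = r), g (m : ℤ)
      = ∑ j ∈ range K, g (u + ((j * L : ℕ) : ℤ)) := by
    refine Finset.sum_of_injOn (fun m : ℕ => m / L + 1) ?_ ?_ ?_ ?_
    · intro a ha c hc hac
      simp only [coe_filter, mem_Icc, Set.mem_ofPred_eq] at ha hc
      simp only [Nat.add_right_cancel_iff] at hac
      have h1 := Nat.div_add_mod a L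
      have h2 := Nat.div_add_mod c L
      rw [← h1, ← h2, hac, ha.2, hc.2]
    · intro a ha
      simp only [coe_filter, mem_Icc, Set.mem_ofPred_eq] at ha
      simp only [coe_range, Set.mem_Iio]
      have := Nat.div_le_self a L
      omega
    · intro j hj hnj
      by_contra hne
      obtain ⟨h1, h2⟩ := hs _ hne
      apply hnj
      have hj1 : 1 ≤ j := by
        by_contra hj0
        have : j = 0 := by omega
        rw [this] at h1
        simp at h1
        omega
      obtain ⟨j', rfl⟩ : ∃ j', j = j' + 1 := ⟨j - 1, by omega⟩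
      have hval : u + (((j' + 1) * L : ℕ) : ℤ) = ((r + L * j' : ℕ) : ℤ) := by
        rw [hu]; push_cast; ring
      rw [hval] at h1 h2
      refine ⟨r + L * j', ?_, ?_⟩
      · simp only [coe_filter, mem_Icc, Set.mem_ofPred_eq]
        refine ⟨⟨by exact_mod_cast h1, by exact_mod_cast h2⟩, ?_⟩
        rw [Nat.add_mul_mod_self_left, Nat.mod_eq_of_lt hrL]
      · simp only
        rw [Nat.add_mul_div_left _ _ (by omega : 0 < L), Nat.div_eq_of_lt hrL]
        omega
    · intro a ha
      simp only [mem_filter, mem_Icc] at ha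
      congr 1
      have h1 := Nat.div_add_mod a L
      rw [ha.2] at h1
      rw [hu]
      have h2 : (a : ℤ) = (L : ℤ) * ((a / L : ℕ) : ℤ) + r := by exact_mod_cast h1.symm
      push_cast at h2 ⊢
      linarith [h2]
  rw [hcls, hfull]
  have hblk : ∑ i ∈ range (K * L), g (u + i)
      = ∑ j ∈ range K, ∑ i ∈ range L, g (u + ((j * L : ℕ) : ℤ) + i) := by
    rw [QbvAux.sum_blocks (fun i => g (u + (i : ℤ)))]
    refine sum_congr rfl fun j _ => sum_congr rfl fun i _ => ?_
    congr 1
    push_cast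
    ring
  have hblk2 : ∑ i ∈ range (K * L), |g (u + i + 1) - g (u + i)|
      = ∑ j ∈ range K, ∑ i ∈ range L,
          |g (u + ((j * L : ℕ) : ℤ) + i + 1) - g (u + ((j * L : ℕ) : ℤ) + i)| := by
    rw [QbvAux.sum_blocks (fun i => |g (u + (i : ℤ) + 1) - g (u + (i : ℤ))|)]
    refine sum_congr rfl fun j _ => sum_congr rfl fun i _ => ?_
    have : u + ((j * L + i : ℕ) : ℤ) = u + ((j * L : ℕ) : ℤ) + i := by push_cast; ring
    rw [this]
  rw [hblk, mul_sum, ← sum_sub_distrib]
  refine (abs_sum_le_sum_abs _ _).trans ?_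
  refine le_trans (sum_le_sum fun j _ => QbvAux.block_dev g _ L hL) ?_
  rw [← hblk2]
  exact htv u (K * L)

/-- the variation along multiples of `t` -/
theorem tv_mul (W : ℤ → ℝ) (htv : TV2 W) (t : ℕ) (c : ℤ) (u : ℤ) (n : ℕ) :
    ∑ i ∈ range n, |W ((t : ℤ) * (u + i + 1) + c) - W ((t : ℤ) * (u + i) + c)| ≤ 2 := by
  have h1 : ∀ i ∈ range n,
      |W ((t : ℤ) * (u + i + 1) + c) - W ((t : ℤ) * (u + i) + c)|
        ≤ ∑ s ∈ range t, |W ((t * u + c) + ((i * t + s : ℕ) : ℤ) + 1)
            - W ((t * u + c) + ((i * t + s : ℕ) : ℤ))| := by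
    intro i _
    have h2 := QbvAux.abs_inc W ((t : ℤ) * (u + i) + c) t
    have h3 : (t : ℤ) * (u + i) + c + t = (t : ℤ) * (u + i + 1) + c := by ring
    rw [h3] at h2
    refine h2.trans (le_of_eq (sum_congr rfl fun s _ => ?_))
    have h4 : (t : ℤ) * (u + i) + c + s = (t * u + c) + ((i * t + s : ℕ) : ℤ) := by
      push_cast; ring
    rw [h4]
  refine (sum_le_sum h1).trans ?_
  rw [← QbvAux.sum_blocks (fun j => |W ((t * u + c) + (j : ℤ) + 1) - W ((t * u + c) + (j : ℤ))|)]
  exact htv _ _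

theorem qbv (W : ℤ → ℝ) (N q t₀ X : ℕ) (hW : Wgt W N) (htv : TV2 W) : Quad W N q t₀ X 8 := by
  intro t ht k _ L hL _ b
  have ht1 : 1 ≤ t := Nat.pos_of_mem_divisors ht
  have ht1' : (1 : ℤ) ≤ t := by exact_mod_cast ht1
  refine qbv1 (fun m : ℤ => W ((t : ℤ) * m) * W ((t : ℤ) * m + k * q)) N 8 ?_ ?_ L hL b
  · intro m hm
    have h1 : W ((t : ℤ) * m) ≠ 0 := left_ne_zero_of_mul hm
    obtain ⟨h2, h3⟩ := hW.supp _ h1
    have hm1 : 1 ≤ m := by
      by_contra hneg
      have : m ≤ 0 := by omega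
      have : (t : ℤ) * m ≤ 0 := mul_nonpos_of_nonneg_of_nonpos (by omega) this
      omega
    refine ⟨hm1, ?_⟩
    have : 1 * m ≤ (t : ℤ) * m := mul_le_mul_of_nonneg_right ht1' (by omega)
    omega
  · intro u n
    have hA := tv_mul W htv t 0 u n
    have hB := tv_mul W htv t (k * q) u n
    have hstep : ∀ i ∈ range n,
        |W ((t : ℤ) * (u + i + 1)) * W ((t : ℤ) * (u + i + 1) + k * q)
            - W ((t : ℤ) * (u + i)) * W ((t : ℤ) * (u + i) + k * q)|
          ≤ |W ((t : ℤ) * (u + i + 1) + 0) - W ((t : ℤ) * (u + i) + 0)|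
            + |W ((t : ℤ) * (u + i + 1) + k * q) - W ((t : ℤ) * (u + i) + k * q)| := by
      intro i _
      simp only [add_zero]
      set a := W ((t : ℤ) * (u + i + 1))
      set a' := W ((t : ℤ) * (u + i))
      set c := W ((t : ℤ) * (u + i + 1) + k * q) with hc
      set c' := W ((t : ℤ) * (u + i) + k * q)
      have ha0 : 0 ≤ a' := hW.nonneg _
      have ha1 : a' ≤ 1 := hW.le_one _
      have hc0 : 0 ≤ c := hW.nonneg _
      have hc1 : c ≤ 1 := hW.le_one _
      have he : a * c - a' * c' = (a - a') * c + a' * (c - c') := by ring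
      rw [he]
      refine (abs_add_le _ _).trans ?_
      rw [abs_mul, abs_mul, abs_of_nonneg hc0, abs_of_nonneg ha0]
      have h1 : |a - a'| * c ≤ |a - a'| * 1 := mul_le_mul_of_nonneg_left hc1 (abs_nonneg _)
      have h2 : a' * |c - c'| ≤ 1 * |c - c'| := mul_le_mul_of_nonneg_right ha1 (abs_nonneg _)
      linarith
    refine (sum_le_sum hstep).trans ?_
    rw [sum_add_distrib]
    linarith

end Pool.Agent.M848.SV
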