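import Pool.Agent.Lib.MP_848d44_nt.SV.Cc
import Pool.Agent.Lib.MP_848d44_nt.SV.Qbv
import Pool.Agent.Lib.MP_848d44_nt.F.L1r
import Pool.Agent.Lib.MP_848d44_nt.Cop

set_option autoImplicit false

/-!
# MP_848d44_nt, project SV, module Mean: the mean of the test function over the classes
-/

noncomputable section

namespace Pool.Agent.M848.SV

open Finset Pool.Agent.M848 Pool.Agent.M848.FC
open scoped ArithmeticFunction.vonMangoldt ComplexConjugate

namespace MeanAux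

/-- the sum over the classes coprime to `q` -/
theorem sum_co (q N : ℕ) (hq : 1 ≤ q) (f : ℕ → ℝ) :
    ∑ a ∈ Co q, ∑ m ∈ (Icc 1 N).filter (fun m => m % q = a), f m =
      ∑ m ∈ Icc 1 N, (if m.Coprime q then (1 : ℝ) else 0) * f m := by
  have h1 : ∀ a ∈ Co q, ∑ m ∈ (Icc 1 N).filter (fun m => m % q = a), f m =
      ∑ m ∈ Icc 1 N, if m % q = a then f m else 0 := fun a _ => Finset.sum_filter _ _
  rw [sum_congr rfl h1, sum_comm]
  refine sum_congr rfl fun m _ => ?_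
  rw [Finset.sum_ite_eq (Co q) (m % q) (fun _ => f m)]
  have h2 : m % q ∈ Co q ↔ m.Coprime q := by
    unfold Co
    rw [mem_filter, mem_range]
    have h3 : (m % q).Coprime q ↔ m.Coprime q := by
      unfold Nat.Coprime
      rw [← Nat.gcd_rec q m, Nat.gcd_comm]
    exact ⟨fun h => h3.1 h.2, fun h => ⟨Nat.mod_lt _ (by omega), h3.2 h⟩⟩
  by_cases h : m.Coprime q
  · rw [if_pos (h2.2 h), if_pos h, one_mul]
  · rw [if_neg (fun h' => h (h2.1 h')), if_neg h, zero_mul]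

/-- the multiples of `t` -/
theorem sum_mult (N t : ℕ) (ht : 1 ≤ t) (f : ℤ → ℝ) (hf : ∀ m, f m ≠ 0 → 1 ≤ m ∧ m < N) :
    ∑ m ∈ (Icc 1 N).filter (fun m => t ∣ m), f (m : ℤ) =
      ∑ m ∈ Icc 1 N, f ((t : ℤ) * (m : ℤ)) := by
  have h1 : ∑ m ∈ Icc 1 N, f ((t : ℤ) * (m : ℤ)) =
      ∑ m ∈ (Icc 1 N).filter (fun m => t * m ≤ N), f ((t : ℤ) * (m : ℤ)) := by
    symm
    refine Finset.sum_filter_of_ne fun m _ h => ?_
    have := (hf _ h).2
    have h2 : ((t * m : ℕ) : ℤ) < N := by push_cast; exact this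
    exact_mod_cast h2.le
  rw [h1]
  symm
  refine Finset.sum_bij (fun (m : ℕ) _ => t * m) ?_ ?_ ?_ ?_
  · intro m hm
    rw [mem_filter, mem_Icc] at hm ⊢
    exact ⟨⟨Nat.mul_pos ht hm.1.1, hm.2⟩, Nat.dvd_mul_right _ _⟩
  · intro m _ m' _ h
    exact Nat.eq_of_mul_eq_mul_left (by omega) h
  · intro m hm
    rw [mem_filter, mem_Icc] at hm
    obtain ⟨⟨hm1, hm2⟩, k, rfl⟩ := hm
    have hk : 1 ≤ k := by
      rcases Nat.eq_zero_or_pos k with h | h
      · rw [h] at hm1; omega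
      · exact h
    refine ⟨k, ?_, rfl⟩
    rw [mem_filter, mem_Icc]
    exact ⟨⟨hk, (Nat.le_mul_of_pos_left k ht).trans hm2⟩, hm2⟩
  · intro m _
    push_cast
    rfl

/-- splitting into classes -/
theorem sum_class (N r : ℕ) (hr : 1 ≤ r) (f : ℕ → ℝ) :
    ∑ m ∈ Icc 1 N, f m = ∑ b ∈ range r, ∑ m ∈ (Icc 1 N).filter (fun m => m % r = b), f m := by
  symm
  refine Finset.sum_fiberwise_of_maps_to (fun m _ => ?_) _
  rw [mem_range]
  exact Nat.mod_lt _ (by omega)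

/-- one modulus -/
theorem one_r (W : ℤ → ℝ) (N : ℕ) (hW : Wgt W N) (htv : TV2 W) (t : ℕ) (ht : 1 ≤ t) (r : ℕ)
    (hr : 2 ≤ r) :
    |∑ m ∈ Icc 1 N, W ((t : ℤ) * (m : ℤ)) * cc r (m : ℤ)| ≤ 2 * (r * r.divisors.card) := by
  set g : ℤ → ℝ := fun m => W ((t : ℤ) * m) with hg
  have hs : ∀ m, g m ≠ 0 → 1 ≤ m ∧ m ≤ N := by
    intro m hm
    obtain ⟨h1, h2⟩ := hW.supp _ hm
    have ht0 : (1 : ℤ) ≤ t := by exact_mod_cast ht
    have hm1 : 1 ≤ m := by
      by_contra hc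
      rw [not_le] at hc
      have : (t : ℤ) * m ≤ 0 := by nlinarith
      omega
    refine ⟨hm1, ?_⟩
    nlinarith
  have htv' : ∀ (u : ℤ) (n : ℕ), ∑ i ∈ range n, |g (u + i + 1) - g (u + i)| ≤ 2 := by
    intro u n
    have := tv_mul W htv t 0 u n
    simp only [add_zero] at this
    exact this
  have hq := qbv1 g N 2 hs htv' r (by omega)
  set G : ℝ := (1 / (r : ℝ)) * ∑ m ∈ Icc 1 N, g (m : ℤ) with hG
  set S : ℕ → ℝ := fun b => ∑ m ∈ (Icc 1 N).filter (fun m => m % r = b), g (m : ℤ) with hS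
  have h1 : ∑ m ∈ Icc 1 N, W ((t : ℤ) * (m : ℤ)) * cc r (m : ℤ) =
      ∑ b ∈ range r, S b * cc r (b : ℤ) := by
    rw [sum_class N r (by omega)]
    refine sum_congr rfl fun b hb => ?_
    rw [hS, sum_mul]
    refine sum_congr rfl fun m hm => ?_
    rw [mem_filter] at hm
    have h2 : cc r (m : ℤ) = cc r (b : ℤ) := by
      have h3 : (m : ℤ) = (b : ℤ) + r * ((m / r : ℕ) : ℤ) := by
        have := Nat.mod_add_div m r
        rw [hm.2] at this
        exact_mod_cast this.symm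
      rw [h3]
      exact cc_add r _ _
    rw [h2]
  have h0 : ∑ b ∈ range r, G * cc r (b : ℤ) = 0 := by
    rw [← mul_sum]
    have := cc_mean r hr 0
    simp only [add_zero] at this
    rw [this, mul_zero]
  have h2 : ∑ b ∈ range r, S b * cc r (b : ℤ) = ∑ b ∈ range r, (S b - G) * cc r (b : ℤ) := by
    rw [← sub_zero (∑ b ∈ range r, S b * cc r (b : ℤ)), ← h0, ← sum_sub_distrib]
    exact sum_congr rfl fun b _ => by ring
  rw [h1, h2]
  calc |∑ b ∈ range r, (S b - G) * cc r (b : ℤ)|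
      ≤ ∑ b ∈ range r, |(S b - G) * cc r (b : ℤ)| := abs_sum_le_sum_abs _ _
    _ ≤ ∑ b ∈ range r, 2 * |cc r (b : ℤ)| := by
        refine sum_le_sum fun b hb => ?_
        rw [abs_mul]
        refine mul_le_mul_of_nonneg_right ?_ (abs_nonneg _)
        have := hq b
        rw [Nat.mod_eq_of_lt (mem_range.1 hb)] at this
        exact this
    _ = 2 * ∑ b ∈ range r, |cc r (b : ℤ)| := by rw [mul_sum]
    _ ≤ 2 * (r * r.divisors.card) := by
        have := cc_abs_mean r (by omega) 0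
        simp only [add_zero] at this
        linarith

/-- the sum over the classes coprime to `q`, as a double sum -/
theorem expand (N q R₀ R : ℕ) (hq : 1 ≤ q) (W : ℤ → ℝ) (hW : Wgt W N) :
    ∑ a ∈ Co q, TS W N q R₀ R a = ∑ t ∈ q.divisors, (ArithmeticFunction.moebius t : ℝ) *
      ∑ r ∈ RS q R₀ R, br r * ∑ m ∈ Icc 1 N, W ((t : ℤ) * (m : ℤ)) * cc r (m : ℤ) := by
  unfold TS
  rw [sum_co q N hq (fun m => W (m : ℤ) * FS q R₀ R (m : ℤ))]
  have h1 : ∀ m ∈ Icc 1 N, (if m.Coprime q then (1 : ℝ) else 0) *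
      (W (m : ℤ) * FS q R₀ R (m : ℤ)) = ∑ t ∈ q.divisors,
        (ArithmeticFunction.moebius t : ℝ) *
          (if t ∣ m then W (m : ℤ) * FS q R₀ R (m : ℤ) else 0) := by
    intro m _
    rw [CopAux.coprime_ind m q hq, sum_mul]
    refine sum_congr rfl fun t _ => ?_
    by_cases h : t ∣ m
    · rw [if_pos h, if_pos h]
    · rw [if_neg h, if_neg h, zero_mul, mul_zero]
  rw [sum_congr rfl h1, sum_comm]
  refine sum_congr rfl fun t ht => ?_
  rw [← mul_sum]
  congr 1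
  have htq := (Nat.mem_divisors.1 ht).1
  have ht1 : 1 ≤ t := Nat.pos_of_mem_divisors ht
  rw [← Finset.sum_filter, sum_mult N t ht1 (fun m => W m * FS q R₀ R m) (fun m h =>
    hW.supp m (left_ne_zero_of_mul h))]
  have h2 : ∀ m ∈ Icc 1 N, W ((t : ℤ) * (m : ℤ)) * FS q R₀ R ((t : ℤ) * (m : ℤ)) =
      ∑ r ∈ RS q R₀ R, br r * (W ((t : ℤ) * (m : ℤ)) * cc r (m : ℤ)) := by
    intro m _
    unfold FS
    rw [mul_sum]
    refine sum_congr rfl fun r hr => ?_
    unfold RS at hr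
    have hrq := (mem_filter.1 hr).2.2
    rw [cc_scale r t (Nat.Coprime.coprime_dvd_right htq hrq)]
    ring
  rw [sum_congr rfl h2, sum_comm]
  refine sum_congr rfl fun r _ => ?_
  rw [mul_sum]

end MeanAux

open MeanAux in
theorem mean_T (δ : ℝ) (hδ : 0 < δ) : ∃ C : ℝ, 0 < C ∧ ∀ N q R₀ R : ℕ, 1 ≤ q → q ≤ N →
    1 ≤ R₀ → 1 ≤ R → R ≤ N → ∀ W : ℤ → ℝ, Wgt W N → TV2 W →
      |∑ a ∈ Co q, TS W N q R₀ R a| ≤ C * (N : ℝ) ^ δ * R := by
  obtain ⟨C, hC1, hC⟩ := divisor_bound (δ / 3) (by positivity)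
  refine ⟨2 * C ^ 3, by positivity, ?_⟩
  intro N q R₀ R hq hqN hR₀ hR hRN W hW htv
  have hN1 : (1 : ℝ) ≤ N := by exact_mod_cast hq.trans hqN
  set P : ℝ := (N : ℝ) ^ (δ / 3) with hP
  have hP0 : 0 < P := by positivity
  have hP3 : P ^ 3 = (N : ℝ) ^ δ := by
    rw [hP, ← Real.rpow_natCast, ← Real.rpow_mul (by linarith)]
    congr 1
    push_cast
    ring
  have hdiv : ∀ n : ℕ, 1 ≤ n → n ≤ N → (n.divisors.card : ℝ) ≤ C * P := by
    intro n hn hnN
    refine (hC n hn).trans (mul_le_mul_of_nonneg_left ?_ (by linarith))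
    exact Real.rpow_le_rpow (by positivity) (by exact_mod_cast hnN) (by positivity)
  rw [expand N q R₀ R hq W hW]
  have hterm : ∀ t ∈ q.divisors, ∀ r ∈ RS q R₀ R,
      |br r * ∑ m ∈ Icc 1 N, W ((t : ℤ) * (m : ℤ)) * cc r (m : ℤ)| ≤ 2 * (C * P) ^ 2 := by
    intro t ht r hr
    have ht1 : 1 ≤ t := Nat.pos_of_mem_divisors ht
    unfold RS at hr
    have hr1 := mem_Ioc.1 (mem_filter.1 hr).1
    have hr2 : 2 ≤ r := by omega
    have hrN : r ≤ N := hr1.2.trans hRN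
    have hr0 : (0 : ℝ) < r := by exact_mod_cast (by omega : 0 < r)
    rw [abs_mul]
    have h1 : |br r| ≤ C * P / r := by
      unfold br
      rw [abs_div, Nat.abs_cast]
      have h2 : |(ArithmeticFunction.moebius r : ℝ)| / (r.totient : ℝ) ≤ 1 / (r.totient : ℝ) :=
        div_le_div_of_nonneg_right (CopAux.moebius_abs r) (Nat.cast_nonneg _)
      exact h2.trans (L1rAux.inv_tot (by positivity) hC hC1 (by omega) hrN)
    have h2 := one_r W N hW htv t ht1 r hr2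
    have h3 := hdiv r (by omega) hrN
    calc |br r| * |∑ m ∈ Icc 1 N, W ((t : ℤ) * (m : ℤ)) * cc r (m : ℤ)|
        ≤ (C * P / r) * (2 * (r * r.divisors.card)) :=
          mul_le_mul h1 h2 (abs_nonneg _) (by positivity)
      _ = 2 * (C * P) * r.divisors.card := by field_simp
      _ ≤ 2 * (C * P) * (C * P) := mul_le_mul_of_nonneg_left h3 (by positivity)
      _ = 2 * (C * P) ^ 2 := by ring
  have hcard : ((RS q R₀ R).card : ℝ) ≤ R := by
    have h1 : (RS q R₀ R).card ≤ (Ioc R₀ R).card := card_le_card (filter_subset _ _)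
    rw [Nat.card_Ioc] at h1
    exact_mod_cast h1.trans (Nat.sub_le _ _)
  calc |∑ t ∈ q.divisors, (ArithmeticFunction.moebius t : ℝ) *
      ∑ r ∈ RS q R₀ R, br r * ∑ m ∈ Icc 1 N, W ((t : ℤ) * (m : ℤ)) * cc r (m : ℤ)|
      ≤ ∑ t ∈ q.divisors, |(ArithmeticFunction.moebius t : ℝ) *
        ∑ r ∈ RS q R₀ R, br r * ∑ m ∈ Icc 1 N, W ((t : ℤ) * (m : ℤ)) * cc r (m : ℤ)| :=
        abs_sum_le_sum_abs _ _
    _ ≤ ∑ t ∈ q.divisors, (R : ℝ) * (2 * (C * P) ^ 2) := by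
        refine sum_le_sum fun t ht => ?_
        rw [abs_mul]
        have h1 : |∑ r ∈ RS q R₀ R, br r *
            ∑ m ∈ Icc 1 N, W ((t : ℤ) * (m : ℤ)) * cc r (m : ℤ)| ≤ R * (2 * (C * P) ^ 2) := by
          refine (abs_sum_le_sum_abs _ _).trans ?_
          refine (sum_le_sum fun r hr => hterm t ht r hr).trans ?_
          rw [sum_const, nsmul_eq_mul]
          exact mul_le_mul_of_nonneg_right hcard (by positivity)
        calc |(ArithmeticFunction.moebius t : ℝ)| * |∑ r ∈ RS q R₀ R, br r *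
            ∑ m ∈ Icc 1 N, W ((t : ℤ) * (m : ℤ)) * cc r (m : ℤ)|
            ≤ 1 * (R * (2 * (C * P) ^ 2)) :=
              mul_le_mul (CopAux.moebius_abs t) h1 (abs_nonneg _) zero_le_one
          _ = R * (2 * (C * P) ^ 2) := one_mul _
    _ = q.divisors.card * (R * (2 * (C * P) ^ 2)) := by rw [sum_const, nsmul_eq_mul]
    _ ≤ (C * P) * (R * (2 * (C * P) ^ 2)) :=
        mul_le_mul_of_nonneg_right (hdiv q hq hqN) (by positivity)
    _ = 2 * C ^ 3 * (N : ℝ) ^ δ * R := by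
        rw [← hP3]
        ring

end Pool.Agent.M848.SV
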