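import Pool.Agent.Lib.MP_848d44_nt.SV.Fbd
import Pool.Agent.Lib.MP_848d44_nt.Geq

set_option autoImplicit false

/-!
# MP_848d44_nt, project SV, module OffA: first reduction of the first moment
-/

noncomputable section

namespace Pool.Agent.M848.SV

open Finset Pool.Agent.M848 Pool.Agent.M848.FC
open scoped ArithmeticFunction.vonMangoldt ComplexConjugate

namespace OffAAux

theorem W_zero (W : ℤ → ℝ) (N : ℕ) (hW : Wgt W N) (m : ℤ) (h : m ≤ 0 ∨ (N : ℤ) ≤ m) :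
    W m = 0 := by
  by_contra h0
  have := hW.supp m h0
  omega

theorem TS_eq (W : ℤ → ℝ) (N q R₀ R : ℕ) (hq : 1 ≤ q) (hW : Wgt W N) (n : ℕ)
    (hn : n ∈ Icc 1 N) :
    TS W N q R₀ R (n % q) = W n * FS q R₀ R n + ∑ k ∈ Icc 1 (N / q),
      (W ((n : ℤ) + k * q) * FS q R₀ R ((n : ℤ) + k * q) +
        W ((n : ℤ) - k * q) * FS q R₀ R ((n : ℤ) - k * q)) := by
  unfold TS
  exact GeqAux.main (fun m => W m * FS q R₀ R m) N q hq (fun m h => by
    show W m * FS q R₀ R m = 0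
    rw [W_zero W N hW m h]
    ring) n hn

theorem coprime_mod (n q : ℕ) : (n % q).Coprime q ↔ n.Coprime q := by
  unfold Nat.Coprime
  rw [← Nat.gcd_rec q n, Nat.gcd_comm]

theorem A1_eq (W : ℤ → ℝ) (N q R₀ R : ℕ) (hq : 1 ≤ q) :
    A1 W N q R₀ R = ∑ n ∈ (Icc 1 N).filter (fun n => n.Coprime q),
      (Λ n : ℝ) * TS W N q R₀ R (n % q) := by
  unfold A1 Ps
  have h1 : ∀ n ∈ (Icc 1 N).filter (fun n => n.Coprime q), n % q ∈ Co q := by
    intro n hn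
    rw [mem_filter] at hn
    unfold Co
    rw [mem_filter, mem_range]
    exact ⟨Nat.mod_lt _ hq, (coprime_mod n q).2 hn.2⟩
  rw [← sum_fiberwise_of_maps_to h1]
  apply sum_congr rfl
  intro a ha
  rw [sum_mul]
  have h2 : ((Icc 1 N).filter (fun n => n.Coprime q)).filter (fun n => n % q = a) =
      (Icc 1 N).filter (fun n => n % q = a) := by
    ext n
    simp only [mem_filter]
    constructor
    · rintro ⟨⟨h3, h4⟩, h5⟩
      exact ⟨h3, h5⟩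
    · rintro ⟨h3, h5⟩
      refine ⟨⟨h3, ?_⟩, h5⟩
      unfold Co at ha
      rw [mem_filter] at ha
      have := ha.2
      rw [← h5] at this
      exact (coprime_mod n q).1 this
  rw [h2]
  apply sum_congr rfl
  intro n hn
  rw [(mem_filter.1 hn).2]

/-- The off-diagonal part of the first moment, sign `σ`. -/
def TOff (W : ℤ → ℝ) (N q R₀ R : ℕ) (σ : ℤ) : ℝ :=
  ∑ n ∈ (Icc 1 N).filter (fun n => n.Coprime q), (Λ n : ℝ) *
    ∑ k ∈ Icc 1 (N / q), W ((n : ℤ) + σ * ((k * q : ℕ) : ℤ)) *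
      FS q R₀ R ((n : ℤ) + σ * ((k * q : ℕ) : ℤ))

theorem A1_sub (W : ℤ → ℝ) (N q R₀ R : ℕ) (hq : 1 ≤ q) (hW : Wgt W N) :
    A1 W N q R₀ R - Dg W N q R₀ R = TOff W N q R₀ R 1 + TOff W N q R₀ R (-1) := by
  rw [A1_eq W N q R₀ R hq]
  unfold Dg TOff
  rw [← sum_sub_distrib, ← sum_add_distrib]
  apply sum_congr rfl
  intro n hn
  rw [TS_eq W N q R₀ R hq hW n (mem_filter.1 hn).1, ← mul_sub, ← mul_add, ← sum_add_distrib]
  congr 1
  rw [add_sub_cancel_left]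
  apply sum_congr rfl
  intro k _
  have e1 : (n : ℤ) + 1 * ((k * q : ℕ) : ℤ) = (n : ℤ) + k * q := by push_cast; ring
  have e2 : (n : ℤ) + (-1) * ((k * q : ℕ) : ℤ) = (n : ℤ) - k * q := by push_cast; ring
  rw [e1, e2]

theorem TOff_eq (W : ℤ → ℝ) (N q R₀ R : ℕ) (σ : ℤ) :
    TOff W N q R₀ R σ = ∑ r ∈ RS q R₀ R, br r * ∑ k ∈ Icc 1 (N / q),
      ∑ n ∈ (Icc 1 N).filter (fun n => n.Coprime q),
        (Λ n : ℝ) * (W ((n : ℤ) + σ * ((k * q : ℕ) : ℤ)) *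
          cc r ((n : ℤ) + σ * ((k * q : ℕ) : ℤ))) := by
  unfold TOff FS
  simp only [mul_sum]
  rw [sum_comm]
  rw [sum_congr rfl (fun k _ => sum_comm)]
  rw [sum_comm]
  apply sum_congr rfl
  intro r _
  apply sum_congr rfl
  intro k _
  apply sum_congr rfl
  intro n _
  ring

/-- A set containing the prime powers `p ^ j ≤ N`, `p ≤ R`. -/
def EE (N R : ℕ) : Finset ℕ :=
  ((Icc 1 R) ×ˢ (range (Nat.log 2 N + 1))).image (fun x : ℕ × ℕ => x.1 ^ x.2)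

theorem card_EE (N R : ℕ) : ((EE N R).card : ℝ) ≤ R * ((Nat.log 2 N : ℝ) + 1) := by
  have h : (EE N R).card ≤ R * (Nat.log 2 N + 1) := by
    refine card_image_le.trans ?_
    rw [card_product, Nat.card_Icc, card_range]
    simp
  calc ((EE N R).card : ℝ) ≤ ((R * (Nat.log 2 N + 1) : ℕ) : ℝ) := by exact_mod_cast h
    _ = R * ((Nat.log 2 N : ℝ) + 1) := by push_cast; ring

theorem mem_EE (N q R₀ R r n : ℕ) (hr : r ∈ RS q R₀ R) (hn : n ∈ Icc 1 N)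
    (h1 : n.Coprime q) (h2 : ¬ n.Coprime (q * r)) (h3 : Λ n ≠ 0) : n ∈ EE N R := by
  have hr2 : r ≤ R := by
    unfold RS at hr
    rw [mem_filter, mem_Ioc] at hr
    exact hr.1.2
  have hr1 : 0 < r := by
    unfold RS at hr
    rw [mem_filter] at hr
    exact Nat.pos_of_ne_zero hr.2.1.ne_zero
  have h4 : ¬ n.Coprime r := fun h => h2 (Nat.Coprime.mul_right h1 h)
  rw [ArithmeticFunction.vonMangoldt_ne_zero_iff, isPrimePow_nat_iff] at h3
  obtain ⟨p, j, hp, hj, hpj⟩ := h3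
  have h5 : p ∣ r := by
    by_contra h
    apply h4
    rw [← hpj]
    exact Nat.Coprime.pow_left j ((Nat.Prime.coprime_iff_not_dvd hp).2 h)
  have h6 : p ≤ R := (Nat.le_of_dvd hr1 h5).trans hr2
  unfold EE
  rw [mem_image]
  refine ⟨(p, j), ?_, hpj⟩
  rw [mem_product, mem_Icc, mem_range]
  refine ⟨⟨hp.one_lt.le, h6⟩, ?_⟩
  show j < Nat.log 2 N + 1
  rw [Nat.lt_succ_iff]
  rw [mem_Icc] at hn
  apply Nat.le_log_of_pow_le (by norm_num)
  calc 2 ^ j ≤ p ^ j := Nat.pow_le_pow_left hp.two_le j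
    _ = n := hpj
    _ ≤ N := hn.2

theorem inner_bd (N q R₀ R r : ℕ) (hr : r ∈ RS q R₀ R) (h : ℕ → ℝ) :
    |∑ n ∈ (Icc 1 N).filter (fun n => n.Coprime q), (Λ n : ℝ) * h n -
      ∑ n ∈ (Icc 1 N).filter (fun n => n.Coprime (q * r)), (Λ n : ℝ) * h n| ≤
      ∑ n ∈ EE N R, Real.log N * |h n| := by
  have hlog : 0 ≤ Real.log (N : ℝ) := Real.log_natCast_nonneg N
  have h1 : (Icc 1 N).filter (fun n => n.Coprime (q * r)) =
      ((Icc 1 N).filter (fun n => n.Coprime q)).filter (fun n => n.Coprime (q * r)) := by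
    ext n
    simp only [mem_filter]
    constructor
    · rintro ⟨h3, h4⟩
      exact ⟨⟨h3, Nat.Coprime.coprime_mul_right_right h4⟩, h4⟩
    · rintro ⟨⟨h3, _⟩, h5⟩
      exact ⟨h3, h5⟩
  rw [h1, ← sum_filter_add_sum_filter_not ((Icc 1 N).filter (fun n => n.Coprime q))
    (fun n => n.Coprime (q * r)) (fun n => (Λ n : ℝ) * h n), add_sub_cancel_left]
  refine (abs_sum_le_sum_abs _ _).trans ?_
  rw [← sum_filter_add_sum_filter_not
    (((Icc 1 N).filter (fun n => n.Coprime q)).filter (fun n => ¬ n.Coprime (q * r)))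
    (fun n => Λ n ≠ 0) (fun n => |(Λ n : ℝ) * h n|)]
  have h2 : ∑ n ∈ (((Icc 1 N).filter (fun n => n.Coprime q)).filter
      (fun n => ¬ n.Coprime (q * r))).filter (fun n => ¬ Λ n ≠ 0), |(Λ n : ℝ) * h n| = 0 := by
    apply sum_eq_zero
    intro n hn
    rw [mem_filter] at hn
    have : Λ n = 0 := not_not.1 hn.2
    rw [this]
    simp
  rw [h2, add_zero]
  refine le_trans (sum_le_sum (g := fun n => Real.log N * |h n|) ?_) ?_
  · intro n hn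
    rw [mem_filter, mem_filter, mem_filter, mem_Icc] at hn
    rw [abs_mul]
    apply mul_le_mul_of_nonneg_right _ (abs_nonneg _)
    rw [abs_of_nonneg ArithmeticFunction.vonMangoldt_nonneg]
    refine ArithmeticFunction.vonMangoldt_le_log.trans ?_
    apply Real.log_le_log
    · exact_mod_cast hn.1.1.1.1
    · exact_mod_cast hn.1.1.1.2
  · apply sum_le_sum_of_subset_of_nonneg
    · intro n hn
      rw [mem_filter, mem_filter, mem_filter] at hn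
      exact mem_EE N q R₀ R r n hr hn.1.1.1 hn.1.1.2 hn.1.2 hn.2
    · intro n _ _
      exact mul_nonneg hlog (abs_nonneg _)

theorem diff_bd (W : ℤ → ℝ) (N q R₀ R : ℕ) (hW : Wgt W N) (σ : ℤ)
    (B : ℝ) (hB : 0 ≤ B)
    (hF : ∀ m : ℤ, m ≠ 0 → m.natAbs ≤ N → ∑ r ∈ Icc 1 R, |br r| * |cc r m| ≤ B) :
    |TOff W N q R₀ R σ - OA W N q R₀ R σ| ≤
      ((N / q : ℕ) : ℝ) * ((EE N R).card * (Real.log N * B)) := by
  have hlog : 0 ≤ Real.log (N : ℝ) := Real.log_natCast_nonneg N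
  rw [TOff_eq]
  unfold OA
  rw [← sum_sub_distrib]
  have h1 : ∀ r ∈ RS q R₀ R,
      |br r * (∑ k ∈ Icc 1 (N / q), ∑ n ∈ (Icc 1 N).filter (fun n => n.Coprime q),
        (Λ n : ℝ) * (W ((n : ℤ) + σ * ((k * q : ℕ) : ℤ)) *
          cc r ((n : ℤ) + σ * ((k * q : ℕ) : ℤ)))) -
      br r * (∑ k ∈ Icc 1 (N / q), ∑ n ∈ (Icc 1 N).filter (fun n => n.Coprime (q * r)),
        (Λ n : ℝ) * (W ((n : ℤ) + σ * ((k * q : ℕ) : ℤ)) *
          cc r ((n : ℤ) + σ * ((k * q : ℕ) : ℤ))))| ≤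
      ∑ k ∈ Icc 1 (N / q), ∑ n ∈ EE N R, Real.log N *
        (|W ((n : ℤ) + σ * ((k * q : ℕ) : ℤ))| *
          (|br r| * |cc r ((n : ℤ) + σ * ((k * q : ℕ) : ℤ))|)) := by
    intro r hr
    rw [← mul_sub, ← sum_sub_distrib, abs_mul]
    refine (mul_le_mul_of_nonneg_left (abs_sum_le_sum_abs _ _) (abs_nonneg _)).trans ?_
    rw [mul_sum]
    apply sum_le_sum
    intro k _
    refine (mul_le_mul_of_nonneg_left (inner_bd N q R₀ R r hr
      (fun n => W ((n : ℤ) + σ * ((k * q : ℕ) : ℤ)) *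
          cc r ((n : ℤ) + σ * ((k * q : ℕ) : ℤ)))) (abs_nonneg _)).trans ?_
    rw [mul_sum]
    apply le_of_eq
    apply sum_congr rfl
    intro n _
    simp only [abs_mul]
    ring
  refine (abs_sum_le_sum_abs _ _).trans ((sum_le_sum h1).trans ?_)
  rw [sum_comm]
  rw [sum_congr rfl (fun k _ => sum_comm)]
  have h2 : ∀ k ∈ Icc 1 (N / q), ∑ n ∈ EE N R, ∑ r ∈ RS q R₀ R, Real.log N *
        (|W ((n : ℤ) + σ * ((k * q : ℕ) : ℤ))| *
          (|br r| * |cc r ((n : ℤ) + σ * ((k * q : ℕ) : ℤ))|)) ≤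
      (EE N R).card * (Real.log N * B) := by
    intro k _
    rw [← nsmul_eq_mul]
    apply sum_le_card_nsmul
    intro n _
    rw [← mul_sum, ← mul_sum]
    apply mul_le_mul_of_nonneg_left _ hlog
    set m : ℤ := (n : ℤ) + σ * ((k * q : ℕ) : ℤ) with hm
    by_cases h0 : W m = 0
    · rw [h0]
      simpa using hB
    · have h3 := hW.supp m h0
      have h4 : |W m| ≤ 1 := by
        rw [abs_of_nonneg (hW.nonneg m)]
        exact hW.le_one m
      have h5 : ∑ r ∈ RS q R₀ R, |br r| * |cc r m| ≤ ∑ r ∈ Icc 1 R, |br r| * |cc r m| := by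
        apply sum_le_sum_of_subset_of_nonneg
        · intro r hr
          unfold RS at hr
          rw [mem_filter, mem_Ioc] at hr
          rw [mem_Icc]
          exact ⟨by omega, hr.1.2⟩
        · intro r _ _
          exact mul_nonneg (abs_nonneg _) (abs_nonneg _)
      have h6 : 0 ≤ ∑ r ∈ RS q R₀ R, |br r| * |cc r m| :=
        sum_nonneg (fun r _ => mul_nonneg (abs_nonneg _) (abs_nonneg _))
      calc |W m| * ∑ r ∈ RS q R₀ R, |br r| * |cc r m|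
          ≤ 1 * ∑ r ∈ RS q R₀ R, |br r| * |cc r m| := mul_le_mul_of_nonneg_right h4 h6
        _ = ∑ r ∈ RS q R₀ R, |br r| * |cc r m| := one_mul _
        _ ≤ B := h5.trans (hF m (by omega) (by omega))
  refine (sum_le_card_nsmul _ _ _ h2).trans ?_
  rw [nsmul_eq_mul, Nat.card_Icc]
  simp

theorem log_bd (ε : ℝ) (hε : 0 < ε) (N : ℕ) (hN : 1 ≤ N) :
    ((Nat.log 2 N : ℝ) + 1) * Real.log N ≤ ((2 / ε + 1) * (1 / ε)) * (N : ℝ) ^ (2 * ε) := by
  have hN1 : (1 : ℝ) ≤ N := by exact_mod_cast hN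
  have h1 : Real.log N ≤ (N : ℝ) ^ ε / ε := Real.log_le_rpow_div (by linarith) hε
  have h2 : (1 : ℝ) ≤ (N : ℝ) ^ ε := Real.one_le_rpow hN1 hε.le
  have hl2 : (1 / 2 : ℝ) ≤ Real.log 2 := by
    have := Real.log_two_gt_d9
    linarith
  have h3 : (Nat.log 2 N : ℝ) * Real.log 2 ≤ Real.log N := by
    rw [← Real.log_pow]
    apply Real.log_le_log (by positivity)
    exact_mod_cast Nat.pow_log_le_self 2 (by omega)
  have h4 : (Nat.log 2 N : ℝ) ≤ 2 * Real.log N := by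
    have : (0 : ℝ) ≤ (Nat.log 2 N : ℝ) := Nat.cast_nonneg _
    nlinarith
  have h5 : (Nat.log 2 N : ℝ) + 1 ≤ (2 / ε + 1) * (N : ℝ) ^ ε := by
    have : (2 / ε + 1) * (N : ℝ) ^ ε = 2 * ((N : ℝ) ^ ε / ε) + (N : ℝ) ^ ε := by ring
    rw [this]
    linarith
  have h6 : 0 ≤ Real.log (N : ℝ) := Real.log_natCast_nonneg N
  have h7 : 0 ≤ (2 / ε + 1) * (N : ℝ) ^ ε := by positivity
  calc ((Nat.log 2 N : ℝ) + 1) * Real.log N
      ≤ ((2 / ε + 1) * (N : ℝ) ^ ε) * ((N : ℝ) ^ ε / ε) := mul_le_mul h5 h1 h6 h7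
    _ = ((2 / ε + 1) * (1 / ε)) * ((N : ℝ) ^ ε * (N : ℝ) ^ ε) := by ring
    _ = ((2 / ε + 1) * (1 / ε)) * (N : ℝ) ^ (2 * ε) := by
        rw [← Real.rpow_add (by linarith)]
        congr 2
        ring

end OffAAux

open OffAAux in
theorem off_a (δ : ℝ) (hδ : 0 < δ) : ∃ C : ℝ, 0 < C ∧ ∀ N q R₀ R : ℕ, 1 ≤ q → q ≤ N →
    1 ≤ R → R ≤ N → ∀ W : ℤ → ℝ, Wgt W N →
      |A1 W N q R₀ R - Dg W N q R₀ R - (OA W N q R₀ R 1 + OA W N q R₀ R (-1))| ≤
        C * (N : ℝ) ^ δ * ((((N / q : ℕ) : ℝ) + 1) * R) := by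
  obtain ⟨C₀, hC₀, hF⟩ := F_bound (δ / 2) (half_pos hδ)
  have hε : 0 < δ / 4 := by linarith
  set K : ℝ := (2 / (δ / 4) + 1) * (1 / (δ / 4)) with hK
  have hK0 : 0 < K := by positivity
  refine ⟨2 * (K * C₀), by positivity, ?_⟩
  intro N q R₀ R hq hqN hR hRN W hW
  have hN : 1 ≤ N := hq.trans hqN
  have hN1 : (1 : ℝ) ≤ N := by exact_mod_cast hN
  have hB : 0 ≤ C₀ * (N : ℝ) ^ (δ / 2) := by positivity
  have h1 := diff_bd W N q R₀ R hW 1 _ hB (hF N R hN hRN)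
  have h2 := diff_bd W N q R₀ R hW (-1) _ hB (hF N R hN hRN)
  have h3 : ((N / q : ℕ) : ℝ) * ((EE N R).card * (Real.log N * (C₀ * (N : ℝ) ^ (δ / 2)))) ≤
      K * C₀ * (N : ℝ) ^ δ * ((((N / q : ℕ) : ℝ) + 1) * R) := by
    have h4 := card_EE N R
    have h5 := log_bd (δ / 4) hε N hN
    have hlog : 0 ≤ Real.log (N : ℝ) := Real.log_natCast_nonneg N
    have hR0 : (0 : ℝ) ≤ R := Nat.cast_nonneg _
    have hQ0 : (0 : ℝ) ≤ ((N / q : ℕ) : ℝ) := Nat.cast_nonneg _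
    have h6 : ((EE N R).card : ℝ) * (Real.log N * (C₀ * (N : ℝ) ^ (δ / 2))) ≤
        R * (K * (N : ℝ) ^ (2 * (δ / 4))) * (C₀ * (N : ℝ) ^ (δ / 2)) := by
      calc ((EE N R).card : ℝ) * (Real.log N * (C₀ * (N : ℝ) ^ (δ / 2)))
          ≤ (R * ((Nat.log 2 N : ℝ) + 1)) * (Real.log N * (C₀ * (N : ℝ) ^ (δ / 2))) :=
            mul_le_mul_of_nonneg_right h4 (mul_nonneg hlog hB)
        _ = R * (((Nat.log 2 N : ℝ) + 1) * Real.log N) * (C₀ * (N : ℝ) ^ (δ / 2)) := by ring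
        _ ≤ R * (K * (N : ℝ) ^ (2 * (δ / 4))) * (C₀ * (N : ℝ) ^ (δ / 2)) :=
            mul_le_mul_of_nonneg_right (mul_le_mul_of_nonneg_left h5 hR0) hB
    have h7 : (N : ℝ) ^ (2 * (δ / 4)) * (N : ℝ) ^ (δ / 2) = (N : ℝ) ^ δ := by
      rw [← Real.rpow_add (by linarith)]
      congr 1
      ring
    have h8 : R * (K * (N : ℝ) ^ (2 * (δ / 4))) * (C₀ * (N : ℝ) ^ (δ / 2)) =
        K * C₀ * (N : ℝ) ^ δ * R := by
      rw [← h7]
      ring
    rw [h8] at h6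
    have h9 : 0 ≤ K * C₀ * (N : ℝ) ^ δ * R := by positivity
    calc ((N / q : ℕ) : ℝ) * ((EE N R).card * (Real.log N * (C₀ * (N : ℝ) ^ (δ / 2))))
        ≤ ((N / q : ℕ) : ℝ) * (K * C₀ * (N : ℝ) ^ δ * R) := mul_le_mul_of_nonneg_left h6 hQ0
      _ ≤ (((N / q : ℕ) : ℝ) + 1) * (K * C₀ * (N : ℝ) ^ δ * R) :=
          mul_le_mul_of_nonneg_right (by linarith) h9
      _ = K * C₀ * (N : ℝ) ^ δ * ((((N / q : ℕ) : ℝ) + 1) * R) := by ring
  rw [A1_sub W N q R₀ R hq hW]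
  have e : TOff W N q R₀ R 1 + TOff W N q R₀ R (-1) - (OA W N q R₀ R 1 + OA W N q R₀ R (-1)) =
      (TOff W N q R₀ R 1 - OA W N q R₀ R 1) + (TOff W N q R₀ R (-1) - OA W N q R₀ R (-1)) := by
    ring
  rw [e]
  refine (abs_add_le _ _).trans ?_
  have e2 : 2 * (K * C₀) * (N : ℝ) ^ δ * ((((N / q : ℕ) : ℝ) + 1) * R) =
      K * C₀ * (N : ℝ) ^ δ * ((((N / q : ℕ) : ℝ) + 1) * R) +
      K * C₀ * (N : ℝ) ^ δ * ((((N / q : ℕ) : ℝ) + 1) * R) := by ring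
  rw [e2]
  exact add_le_add (h1.trans h3) (h2.trans h3)

end Pool.Agent.M848.SV
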