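import Pool.Agent.Lib.MP_848d44_nt.SV.Star
import Pool.Agent.Lib.MP_848d44_nt.Div
import Pool.Agent.Lib.MP_848d44_nt.Ncp

set_option autoImplicit false

/-!
# MP_848d44_nt, project SV, module OffB

SECOND REDUCTION: CHARACTERS. In `OA` the Ramanujan sums are expanded in primitive characters
(`star`); the condition `(n, q r) = 1` is dropped at the cost of an admissible error; what remains
is `MainS`.
-/

noncomputable section

namespace Pool.Agent.M848.SV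

open Finset Pool.Agent.M848 Pool.Agent.M848.FC
open scoped ArithmeticFunction.vonMangoldt ComplexConjugate

namespace OffBAux

/-- the coefficient of the characters modulo `f` in `star` -/
def Ac (q r f k : ℕ) : ℝ :=
  ((ArithmeticFunction.moebius (r / f) : ℝ) * cc (r / f) ((k * q : ℕ) : ℤ) / (r / f).totient) *
    ((f : ℝ) / f.totient)

/-- the character side of `star` -/
def Tt (q : ℕ) (σ : ℤ) (r k n : ℕ) : ℂ :=
  ∑ f ∈ r.divisors, ((Ac q r f k : ℝ) : ℂ) * ∑ χ ∈ pc f, uu σ f χ * χ n * conj (χ (k * q))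

theorem star' (q r n k : ℕ) (σ : ℤ) (hσ : σ = 1 ∨ σ = -1) (hr : Squarefree r)
    (hn : n.Coprime r) :
    ((cc r ((n : ℤ) + σ * ((k * q : ℕ) : ℤ)) : ℝ) : ℂ) = Tt q σ r k n :=
  star r n (k * q) σ hσ hr hn

theorem uu_norm {σ : ℤ} {f : ℕ} {χ : ℕ → ℂ} (h : χ ∈ pc f) : ‖uu σ f χ‖ ≤ 1 := by
  unfold uu
  split_ifs
  · exact L1pAux.pc_norm h _
  · rw [norm_one]

theorem cc_kq {e q : ℕ} (h : e.Coprime q) (k : ℕ) :
    cc e ((k * q : ℕ) : ℤ) = cc e (k : ℤ) := by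
  have h1 := cc_scale e q h (k : ℤ)
  rw [← h1]
  congr 1
  push_cast
  ring

theorem mu_abs (n : ℕ) : |(ArithmeticFunction.moebius n : ℝ)| ≤ 1 := by
  have h := ArithmeticFunction.abs_moebius_le_one (n := n)
  exact_mod_cast h

theorem Tt_norm (q : ℕ) (σ : ℤ) (r k n : ℕ) (hrq : r.Coprime q) :
    ‖Tt q σ r k n‖ ≤ ∑ f ∈ r.divisors,
      |cc (r / f) (k : ℤ)| / (r / f).totient * ((f : ℝ) / f.totient) * f := by
  unfold Tt
  refine (norm_sum_le _ _).trans (Finset.sum_le_sum fun f hf => ?_)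
  have hfr : f ∣ r := Nat.dvd_of_mem_divisors hf
  have hcop : (r / f).Coprime q := Nat.Coprime.coprime_dvd_left (Nat.div_dvd_of_dvd hfr) hrq
  rw [norm_mul]
  refine mul_le_mul ?_ ?_ (norm_nonneg _) (by positivity)
  · rw [Complex.norm_real, Real.norm_eq_abs]
    unfold Ac
    rw [cc_kq hcop, abs_mul, abs_div, abs_mul,
      abs_of_nonneg (show (0 : ℝ) ≤ ((r / f).totient : ℝ) by positivity),
      abs_of_nonneg (show (0 : ℝ) ≤ (f : ℝ) / f.totient by positivity)]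
    refine mul_le_mul_of_nonneg_right ?_ (by positivity)
    refine div_le_div_of_nonneg_right ?_ (by positivity)
    calc |(ArithmeticFunction.moebius (r / f) : ℝ)| * |cc (r / f) (k : ℤ)|
        ≤ 1 * |cc (r / f) (k : ℤ)| :=
          mul_le_mul_of_nonneg_right (mu_abs _) (abs_nonneg _)
      _ = |cc (r / f) (k : ℤ)| := one_mul _
  · refine (norm_sum_le _ _).trans ?_
    calc ∑ χ ∈ pc f, ‖uu σ f χ * χ n * conj (χ (k * q))‖
        ≤ ∑ _χ ∈ pc f, (1 : ℝ) := by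
          refine Finset.sum_le_sum fun χ hχ => ?_
          rw [norm_mul, norm_mul, RCLike.norm_conj]
          have h1 := uu_norm (σ := σ) hχ
          have h2 := L1pAux.pc_norm hχ n
          have h3 := L1pAux.pc_norm hχ (k * q)
          have h4 : ‖uu σ f χ‖ * ‖χ n‖ ≤ 1 * 1 :=
            mul_le_mul h1 h2 (norm_nonneg _) zero_le_one
          calc ‖uu σ f χ‖ * ‖χ n‖ * ‖χ (k * q)‖ ≤ (1 * 1) * 1 :=
                mul_le_mul h4 h3 (norm_nonneg _) (by norm_num)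
            _ = 1 := by norm_num
      _ = ((pc f).card : ℝ) := by rw [Finset.sum_const, nsmul_eq_mul, mul_one]
      _ ≤ f := L1pAux.pc_card_le f

/-- reindexing of the multiples of `s` -/
theorem reindex (s K : ℕ) (hs : 1 ≤ s) (g : ℕ → ℂ) (hg : ∀ m, K < m → g m = 0) :
    ∑ k ∈ Icc 1 K, (if s ∣ k then g k else 0) = ∑ k ∈ Icc 1 K, g (s * k) := by
  rw [← Finset.sum_filter]
  have h1 : ∑ k ∈ (Icc 1 K).filter (fun k => s * k ≤ K), g (s * k) =
      ∑ k ∈ Icc 1 K, g (s * k) := by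
    refine Finset.sum_filter_of_ne fun k _ hk => ?_
    by_contra h
    exact hk (hg _ (by omega))
  rw [← h1]
  symm
  refine Finset.sum_nbij' (fun k => s * k) (fun k => k / s) ?_ ?_ ?_ ?_ ?_
  · intro k hk
    rw [mem_filter, mem_Icc] at hk ⊢
    refine ⟨⟨?_, hk.2⟩, Nat.dvd_mul_right _ _⟩
    exact Nat.mul_pos hs hk.1.1
  · intro k hk
    rw [mem_filter, mem_Icc] at hk ⊢
    obtain ⟨⟨h1, h2⟩, h3⟩ := hk
    refine ⟨⟨Nat.div_pos (Nat.le_of_dvd h1 h3) hs, (Nat.div_le_self _ _).trans h2⟩, ?_⟩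
    rw [Nat.mul_div_cancel' h3]
    exact h2
  · intro k _
    exact Nat.mul_div_cancel_left k hs
  · intro k hk
    rw [mem_filter] at hk
    exact Nat.mul_div_cancel' hk.2
  · intro k _
    rfl

/-- the inner sum vanishes for `m > N / q` -/
theorem W_zero {W : ℤ → ℝ} {N q : ℕ} (hW : Wgt W N) (hq : 1 ≤ q) {σ : ℤ}
    (hσ : σ = 1 ∨ σ = -1) {m n : ℕ} (hm : N / q < m) (hn : n ≤ N) :
    W ((n : ℤ) + σ * ((m * q : ℕ) : ℤ)) = 0 := by
  by_contra h
  have h1 := hW.supp _ h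
  have h2 : N < m * q := by
    have := (Nat.div_lt_iff_lt_mul hq).1 hm
    exact this
  have h3 : (N : ℤ) < ((m * q : ℕ) : ℤ) := by exact_mod_cast h2
  have h4 : (n : ℤ) ≤ N := by exact_mod_cast hn
  have h5 : (0 : ℤ) ≤ n := Int.natCast_nonneg n
  rcases hσ with rfl | rfl
  · omega
  · omega

/-- the value of the double sum for one `f` -/
theorem piece {W : ℤ → ℝ} {N q : ℕ} (hW : Wgt W N) (hq : 1 ≤ q) {σ : ℤ}
    (hσ : σ = 1 ∨ σ = -1) (r f : ℕ) (hrq : r.Coprime q) (hf : f ∣ r) :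
    ∑ k ∈ Icc 1 (N / q), ∑ n ∈ Icc 1 N, ((Λ n : ℝ) : ℂ) *
      ((W ((n : ℤ) + σ * ((k * q : ℕ) : ℤ)) : ℝ) : ℂ) *
        (((Ac q r f k : ℝ) : ℂ) * ∑ χ ∈ pc f, uu σ f χ * χ n * conj (χ (k * q))) =
      ∑ s ∈ (r / f).divisors,
        ((((ArithmeticFunction.moebius (r / f) : ℝ) / (r / f).totient) * ((f : ℝ) / f.totient) *
          ((ArithmeticFunction.moebius ((r / f) / s) : ℝ) * s) : ℝ) : ℂ) * Zf W N q σ f s := by
  have hcop : (r / f).Coprime q := Nat.Coprime.coprime_dvd_left (Nat.div_dvd_of_dvd hf) hrq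
  set e := r / f with he
  -- the sum over `k` and `n` for one `s` and one `χ`
  have key : ∀ s ∈ e.divisors, ∀ χ ∈ pc f,
      uu σ f χ * conj (χ q) * conj (χ s) * Phi W N q σ s χ =
        ∑ k ∈ Icc 1 (N / q), ∑ n ∈ Icc 1 N, (if s ∣ k then
          uu σ f χ * conj (χ (k * q)) * (((Λ n : ℝ) : ℂ) * χ n *
            ((W ((n : ℤ) + σ * ((k * q : ℕ) : ℤ)) : ℝ) : ℂ)) else 0) := by
    intro s hs χ hχ
    have hs1 : 1 ≤ s := Nat.pos_of_mem_divisors hs
    have h1 := reindex s (N / q) hs1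
      (fun m => ∑ n ∈ Icc 1 N, uu σ f χ * conj (χ (m * q)) * (((Λ n : ℝ) : ℂ) * χ n *
            ((W ((n : ℤ) + σ * ((m * q : ℕ) : ℤ)) : ℝ) : ℂ))) (by
        intro m hm
        refine Finset.sum_eq_zero fun n hn => ?_
        rw [W_zero hW hq hσ hm (mem_Icc.1 hn).2]
        push_cast
        ring)
    have h2 : ∀ k ∈ Icc 1 (N / q), ∑ n ∈ Icc 1 N, (if s ∣ k then
          uu σ f χ * conj (χ (k * q)) * (((Λ n : ℝ) : ℂ) * χ n *
            ((W ((n : ℤ) + σ * ((k * q : ℕ) : ℤ)) : ℝ) : ℂ)) else 0) =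
        if s ∣ k then ∑ n ∈ Icc 1 N, uu σ f χ * conj (χ (k * q)) * (((Λ n : ℝ) : ℂ) * χ n *
            ((W ((n : ℤ) + σ * ((k * q : ℕ) : ℤ)) : ℝ) : ℂ)) else 0 := by
      intro k _
      split_ifs
      · rfl
      · exact Finset.sum_const_zero
    rw [Finset.sum_congr rfl h2, h1]
    unfold Phi
    rw [Finset.mul_sum]
    refine Finset.sum_congr rfl fun k _ => ?_
    rw [Finset.mul_sum, Finset.mul_sum]
    refine Finset.sum_congr rfl fun n _ => ?_
    rw [L1pAux.pc_map hχ, L1pAux.pc_map hχ, map_mul, map_mul]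
    ring
  -- the expansion of the Ramanujan sum
  have hcc : ∀ k : ℕ, cc e ((k * q : ℕ) : ℤ) =
      ∑ s ∈ e.divisors, if s ∣ k then (ArithmeticFunction.moebius (e / s) : ℝ) * s else 0 := by
    intro k
    rw [cc_kq hcop]
    unfold cc
    rw [Finset.sum_filter]
    refine Finset.sum_congr rfl fun s _ => ?_
    by_cases h : s ∣ k
    · rw [if_pos h, if_pos (Int.natCast_dvd_natCast.2 h)]
    · rw [if_neg h, if_neg fun h' => h (Int.natCast_dvd_natCast.1 h')]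
  set c : ℕ → ℂ := fun s => ((((ArithmeticFunction.moebius e : ℝ) / e.totient) *
    ((f : ℝ) / f.totient) * ((ArithmeticFunction.moebius (e / s) : ℝ) * s) : ℝ) : ℂ) with hc
  have hL : ∀ k ∈ Icc 1 (N / q), ∀ n ∈ Icc 1 N, ((Λ n : ℝ) : ℂ) *
      ((W ((n : ℤ) + σ * ((k * q : ℕ) : ℤ)) : ℝ) : ℂ) *
        (((Ac q r f k : ℝ) : ℂ) * ∑ χ ∈ pc f, uu σ f χ * χ n * conj (χ (k * q))) =
      ∑ s ∈ e.divisors, ∑ χ ∈ pc f, c s * (if s ∣ k then
          uu σ f χ * conj (χ (k * q)) * (((Λ n : ℝ) : ℂ) * χ n *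
            ((W ((n : ℤ) + σ * ((k * q : ℕ) : ℤ)) : ℝ) : ℂ)) else 0) := by
    intro k _ n _
    have hA : ((Ac q r f k : ℝ) : ℂ) = ∑ s ∈ e.divisors, c s * (if s ∣ k then 1 else 0) := by
      unfold Ac
      rw [← he, hcc k, Finset.mul_sum, Finset.sum_div, Finset.sum_mul]
      push_cast
      refine Finset.sum_congr rfl fun s _ => ?_
      rw [hc]
      by_cases h : s ∣ k
      · simp only [h, if_true]
        push_cast
        ring
      · simp only [h, if_false]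
        push_cast
        ring
    rw [hA, Finset.sum_mul, Finset.mul_sum]
    refine Finset.sum_congr rfl fun s _ => ?_
    rw [Finset.mul_sum, Finset.mul_sum]
    refine Finset.sum_congr rfl fun χ _ => ?_
    by_cases h : s ∣ k
    · simp only [h, if_true]
      ring
    · simp only [h, if_false]
      ring
  rw [Finset.sum_congr rfl fun k hk => Finset.sum_congr rfl (hL k hk)]
  unfold Zf
  have hR : ∀ s ∈ e.divisors, c s * ∑ χ ∈ pc f, uu σ f χ * conj (χ q) * conj (χ s) *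
      Phi W N q σ s χ = ∑ k ∈ Icc 1 (N / q), ∑ n ∈ Icc 1 N, ∑ χ ∈ pc f, c s * (if s ∣ k then
          uu σ f χ * conj (χ (k * q)) * (((Λ n : ℝ) : ℂ) * χ n *
            ((W ((n : ℤ) + σ * ((k * q : ℕ) : ℤ)) : ℝ) : ℂ)) else 0) := by
    intro s hs
    rw [Finset.sum_congr rfl (key s hs), Finset.sum_comm, Finset.mul_sum]
    refine Finset.sum_congr rfl fun k _ => ?_
    rw [Finset.sum_comm, Finset.mul_sum]
    refine Finset.sum_congr rfl fun n _ => ?_
    rw [Finset.mul_sum]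
  have hR' : ∑ s ∈ e.divisors, c s * ∑ χ ∈ pc f, uu σ f χ * conj (χ q) * conj (χ s) *
      Phi W N q σ s χ = ∑ k ∈ Icc 1 (N / q), ∑ n ∈ Icc 1 N, ∑ s ∈ e.divisors, ∑ χ ∈ pc f,
        c s * (if s ∣ k then
          uu σ f χ * conj (χ (k * q)) * (((Λ n : ℝ) : ℂ) * χ n *
            ((W ((n : ℤ) + σ * ((k * q : ℕ) : ℤ)) : ℝ) : ℂ)) else 0) := by
    rw [Finset.sum_congr rfl hR, Finset.sum_comm]
    refine Finset.sum_congr rfl fun k _ => ?_
    rw [Finset.sum_comm]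
  exact hR'.symm

/-- pairs of factors -/
theorem pairs (S : Finset ℕ) (R : ℕ) (hS : ∀ r ∈ S, 1 ≤ r ∧ r ≤ R) (G : ℕ → ℕ → ℂ) :
    ∑ r ∈ S, ∑ f ∈ r.divisors, G f (r / f) =
      ∑ f ∈ Icc 1 R, ∑ e ∈ Icc 1 R, if f * e ∈ S then G f e else 0 := by
  have h1 : ∑ f ∈ Icc 1 R, ∑ e ∈ Icc 1 R, (if f * e ∈ S then G f e else 0) =
      ∑ p ∈ (Icc 1 R ×ˢ Icc 1 R).filter (fun p => p.1 * p.2 ∈ S), G p.1 p.2 := by
    rw [Finset.sum_filter, Finset.sum_product]
  rw [h1]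
  have h2 : ∑ p ∈ (Icc 1 R ×ˢ Icc 1 R).filter (fun p => p.1 * p.2 ∈ S), G p.1 p.2 =
      ∑ r ∈ S, ∑ p ∈ ((Icc 1 R ×ˢ Icc 1 R).filter (fun p => p.1 * p.2 ∈ S)).filter
        (fun p => p.1 * p.2 = r), G p.1 p.2 := by
    symm
    refine Finset.sum_fiberwise_of_maps_to (fun p hp => ?_) _
    exact (mem_filter.1 hp).2
  rw [h2]
  refine Finset.sum_congr rfl fun r hr => ?_
  rw [← Nat.sum_divisorsAntidiagonal (fun f e => G f e)]
  refine Finset.sum_congr ?_ fun _ _ => rfl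
  ext p
  obtain ⟨h3, h4⟩ := hS r hr
  rw [Nat.mem_divisorsAntidiagonal, mem_filter, mem_filter, mem_product, mem_Icc, mem_Icc]
  constructor
  · rintro ⟨h5, _⟩
    have h6 : 0 < p.1 * p.2 := by omega
    have h7 : 1 ≤ p.1 := Nat.pos_of_mul_pos_right h6
    have h8 : 1 ≤ p.2 := Nat.pos_of_mul_pos_left h6
    have h9 : p.1 ≤ p.1 * p.2 := Nat.le_mul_of_pos_right _ h8
    have h10 : p.2 ≤ p.1 * p.2 := Nat.le_mul_of_pos_left _ h7
    refine ⟨⟨⟨⟨h7, by omega⟩, ⟨h8, by omega⟩⟩, ?_⟩, h5⟩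
    rw [h5]
    exact hr
  · rintro ⟨_, h5⟩
    exact ⟨h5, by omega⟩

theorem RS_mem {q R₀ R r : ℕ} (h : r ∈ RS q R₀ R) :
    1 ≤ r ∧ r ≤ R ∧ Squarefree r ∧ r.Coprime q := by
  unfold RS at h
  rw [mem_filter, mem_Ioc] at h
  exact ⟨by omega, h.1.2, h.2.1, h.2.2⟩

/-- the full sum of the character sides is `MainS` -/
theorem full_eq {W : ℤ → ℝ} {N q : ℕ} (hW : Wgt W N) (hq : 1 ≤ q) {σ : ℤ}
    (hσ : σ = 1 ∨ σ = -1) (R₀ R : ℕ) :
    ∑ r ∈ RS q R₀ R, ((br r : ℝ) : ℂ) * ∑ k ∈ Icc 1 (N / q), ∑ n ∈ Icc 1 N,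
      ((Λ n : ℝ) : ℂ) * ((W ((n : ℤ) + σ * ((k * q : ℕ) : ℤ)) : ℝ) : ℂ) * Tt q σ r k n =
      MainS W N q R₀ R σ := by
  have h1 : ∀ r ∈ RS q R₀ R, ((br r : ℝ) : ℂ) * ∑ k ∈ Icc 1 (N / q), ∑ n ∈ Icc 1 N,
      ((Λ n : ℝ) : ℂ) * ((W ((n : ℤ) + σ * ((k * q : ℕ) : ℤ)) : ℝ) : ℂ) * Tt q σ r k n =
      ∑ f ∈ r.divisors, ∑ s ∈ (r / f).divisors,
        ((cf f (r / f) s : ℝ) : ℂ) * Zf W N q σ f s := by
    intro r hr
    obtain ⟨_, _, _, hrq⟩ := RS_mem hr
    have h2 : ∑ k ∈ Icc 1 (N / q), ∑ n ∈ Icc 1 N,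
        ((Λ n : ℝ) : ℂ) * ((W ((n : ℤ) + σ * ((k * q : ℕ) : ℤ)) : ℝ) : ℂ) * Tt q σ r k n =
        ∑ f ∈ r.divisors, ∑ k ∈ Icc 1 (N / q), ∑ n ∈ Icc 1 N, ((Λ n : ℝ) : ℂ) *
          ((W ((n : ℤ) + σ * ((k * q : ℕ) : ℤ)) : ℝ) : ℂ) *
          (((Ac q r f k : ℝ) : ℂ) * ∑ χ ∈ pc f, uu σ f χ * χ n * conj (χ (k * q))) := by
      symm
      rw [Finset.sum_comm]
      refine Finset.sum_congr rfl fun k _ => ?_
      rw [Finset.sum_comm]
      refine Finset.sum_congr rfl fun n _ => ?_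
      unfold Tt
      rw [Finset.mul_sum]
    rw [h2, Finset.mul_sum]
    refine Finset.sum_congr rfl fun f hf => ?_
    have hfr : f ∣ r := Nat.dvd_of_mem_divisors hf
    rw [piece hW hq hσ r f hrq hfr, Finset.mul_sum]
    refine Finset.sum_congr rfl fun s _ => ?_
    unfold cf
    rw [Nat.mul_div_cancel' hfr]
    push_cast
    ring
  rw [Finset.sum_congr rfl h1,
    pairs (RS q R₀ R) R (fun r hr => ⟨(RS_mem hr).1, (RS_mem hr).2.1⟩)
      (fun f e => ∑ s ∈ e.divisors, ((cf f e s : ℝ) : ℂ) * Zf W N q σ f s)]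
  unfold MainS
  refine Finset.sum_congr rfl fun f _ => Finset.sum_congr rfl fun e _ => ?_
  by_cases h : f * e ∈ RS q R₀ R
  · simp only [h, if_true]
  · simp only [h, if_false, zero_mul, Finset.sum_const_zero]

/-- `OA` in terms of `Tt` -/
theorem OA_eq (W : ℤ → ℝ) (N q R₀ R : ℕ) {σ : ℤ} (hσ : σ = 1 ∨ σ = -1) :
    ((OA W N q R₀ R σ : ℝ) : ℂ) = ∑ r ∈ RS q R₀ R, ((br r : ℝ) : ℂ) * ∑ k ∈ Icc 1 (N / q),
      ∑ n ∈ (Icc 1 N).filter (fun n => n.Coprime (q * r)),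
        ((Λ n : ℝ) : ℂ) * ((W ((n : ℤ) + σ * ((k * q : ℕ) : ℤ)) : ℝ) : ℂ) * Tt q σ r k n := by
  unfold OA
  rw [Complex.ofReal_sum]
  refine Finset.sum_congr rfl fun r hr => ?_
  rw [Complex.ofReal_mul, Complex.ofReal_sum]
  congr 1
  refine Finset.sum_congr rfl fun k _ => ?_
  rw [Complex.ofReal_sum]
  refine Finset.sum_congr rfl fun n hn => ?_
  have hnr : n.Coprime r := Nat.Coprime.coprime_dvd_right (Nat.dvd_mul_left r q)
    (mem_filter.1 hn).2
  rw [Complex.ofReal_mul, Complex.ofReal_mul, star' q r n k σ hσ (RS_mem hr).2.2.1 hnr]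
  ring

/-- the terms with `n` not coprime to `q r`, for one `r` -/
theorem nonc {W : ℤ → ℝ} {N q : ℕ} (hW : Wgt W N) (hq : 1 ≤ q) (σ : ℤ) (r : ℕ) (hr : 1 ≤ r)
    (hrq : r.Coprime q) :
    ‖∑ k ∈ Icc 1 (N / q), ∑ n ∈ (Icc 1 N).filter (fun n => ¬ n.Coprime (q * r)),
      ((Λ n : ℝ) : ℂ) * ((W ((n : ℤ) + σ * ((k * q : ℕ) : ℤ)) : ℝ) : ℂ) * Tt q σ r k n‖ ≤
      (Nat.log 2 (q * r) * Real.log N) * ∑ f ∈ r.divisors,
        (((N / q : ℕ) : ℝ) * (r / f).divisors.card) / (r / f).totient *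
          ((f : ℝ) / f.totient) * f := by
  set B : ℕ → ℝ := fun k => ∑ f ∈ r.divisors,
      |cc (r / f) (k : ℤ)| / (r / f).totient * ((f : ℝ) / f.totient) * f with hB
  have hB0 : ∀ k, 0 ≤ B k := fun k => Finset.sum_nonneg fun f _ => by positivity
  have h1 : ∀ k ∈ Icc 1 (N / q),
      ‖∑ n ∈ (Icc 1 N).filter (fun n => ¬ n.Coprime (q * r)),
        ((Λ n : ℝ) : ℂ) * ((W ((n : ℤ) + σ * ((k * q : ℕ) : ℤ)) : ℝ) : ℂ) * Tt q σ r k n‖ ≤
        (Nat.log 2 (q * r) * Real.log N) * B k := by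
    intro k _
    refine (norm_sum_le _ _).trans ?_
    calc ∑ n ∈ (Icc 1 N).filter (fun n => ¬ n.Coprime (q * r)),
          ‖((Λ n : ℝ) : ℂ) * ((W ((n : ℤ) + σ * ((k * q : ℕ) : ℤ)) : ℝ) : ℂ) * Tt q σ r k n‖
        ≤ ∑ n ∈ (Icc 1 N).filter (fun n => ¬ n.Coprime (q * r)), Λ n * B k := by
          refine Finset.sum_le_sum fun n _ => ?_
          rw [norm_mul, norm_mul, Complex.norm_real, Complex.norm_real, Real.norm_eq_abs,
            Real.norm_eq_abs, abs_of_nonneg ArithmeticFunction.vonMangoldt_nonneg,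
            abs_of_nonneg (hW.nonneg _)]
          have h2 : (Λ n : ℝ) * W ((n : ℤ) + σ * ((k * q : ℕ) : ℤ)) ≤ Λ n * 1 :=
            mul_le_mul_of_nonneg_left (hW.le_one _) ArithmeticFunction.vonMangoldt_nonneg
          rw [mul_one] at h2
          exact mul_le_mul h2 (Tt_norm q σ r k n hrq) (norm_nonneg _)
            ArithmeticFunction.vonMangoldt_nonneg
      _ = (∑ n ∈ (Icc 1 N).filter (fun n => ¬ n.Coprime (q * r)), Λ n) * B k := by
          rw [Finset.sum_mul]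
      _ ≤ (Nat.log 2 (q * r) * Real.log N) * B k :=
          mul_le_mul_of_nonneg_right (noncoprime_sum N (q * r) (Nat.mul_pos hq hr)) (hB0 k)
  refine (norm_sum_le _ _).trans ((Finset.sum_le_sum h1).trans ?_)
  rw [← Finset.mul_sum]
  refine mul_le_mul_of_nonneg_left ?_ (mul_nonneg (by positivity) (Real.log_natCast_nonneg N))
  rw [hB, Finset.sum_comm]
  refine Finset.sum_le_sum fun f _ => ?_
  rw [← Finset.sum_mul, ← Finset.sum_mul, ← Finset.sum_div]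
  refine mul_le_mul_of_nonneg_right (mul_le_mul_of_nonneg_right ?_ (by positivity))
    (by positivity)
  exact div_le_div_of_nonneg_right (cc_abs_sum (r / f) (N / q)) (by positivity)

/-- the size of the error for one `r` -/
theorem size {C ε : ℝ} (hε : 0 < ε)
    (hC : ∀ n : ℕ, 1 ≤ n → (n.divisors.card : ℝ) ≤ C * (n : ℝ) ^ ε) (hC1 : 1 ≤ C)
    {N r : ℕ} (hr : 1 ≤ r) (hrN : r ≤ N) (K : ℝ) (hK : 0 ≤ K) :
    |br r| * ∑ f ∈ r.divisors, (K * (r / f).divisors.card) / (r / f).totient *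
          ((f : ℝ) / f.totient) * f ≤ K * (C * (N : ℝ) ^ ε) ^ 5 := by
  set Y : ℝ := C * (N : ℝ) ^ ε with hY
  have hN1 : (1 : ℝ) ≤ N := by exact_mod_cast hr.trans hrN
  have hX1 : 1 ≤ (N : ℝ) ^ ε := Real.one_le_rpow hN1 hε.le
  have hY1 : 1 ≤ Y := by rw [hY]; nlinarith
  have hY0 : 0 ≤ Y := by linarith
  have hd : ∀ m : ℕ, 1 ≤ m → m ≤ N → (m.divisors.card : ℝ) ≤ Y := by
    intro m h1 h2
    refine (hC m h1).trans ?_
    rw [hY]
    refine mul_le_mul_of_nonneg_left ?_ (by linarith)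
    exact Real.rpow_le_rpow (by positivity) (by exact_mod_cast h2) hε.le
  have ht : ∀ m : ℕ, 1 ≤ m → m ≤ N → 1 / (m.totient : ℝ) ≤ Y / m := fun m h1 h2 =>
    L1rAux.inv_tot hε hC hC1 h1 h2
  have hr0 : (0 : ℝ) < r := by exact_mod_cast hr
  have hterm : ∀ f ∈ r.divisors, (K * (r / f).divisors.card) / (r / f).totient *
          ((f : ℝ) / f.totient) * f ≤ K * Y ^ 3 * r := by
    intro f hf
    have hfr : f ∣ r := Nat.dvd_of_mem_divisors hf
    have hf1 : 1 ≤ f := Nat.pos_of_mem_divisors hf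
    have hfr' : f ≤ r := Nat.le_of_dvd hr hfr
    have he1 : 1 ≤ r / f := Nat.div_pos hfr' hf1
    have he2 : r / f ≤ N := (Nat.div_le_self _ _).trans hrN
    have h1 := hd (r / f) he1 he2
    have h2 := ht (r / f) he1 he2
    have h3 := ht f hf1 (hfr'.trans hrN)
    have hf0 : (0 : ℝ) < f := by exact_mod_cast hf1
    have he0 : (1 : ℝ) ≤ ((r / f : ℕ) : ℝ) := by exact_mod_cast he1
    have h4 : 1 / ((r / f : ℕ).totient : ℝ) ≤ Y :=
      h2.trans (div_le_self hY0 he0)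
    have h5 : (f : ℝ) / f.totient ≤ Y := by
      calc (f : ℝ) / f.totient = f * (1 / (f.totient : ℝ)) := by ring
        _ ≤ f * (Y / f) := mul_le_mul_of_nonneg_left h3 hf0.le
        _ = Y := by field_simp
    have h6 : (K * (r / f).divisors.card) / (r / f).totient ≤ K * Y * Y := by
      calc (K * (r / f).divisors.card) / (r / f).totient =
            (K * (r / f).divisors.card) * (1 / ((r / f).totient : ℝ)) := by ring
        _ ≤ (K * Y) * Y := by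
            refine mul_le_mul (mul_le_mul_of_nonneg_left h1 hK) h4 (by positivity)
              (by positivity)
    calc (K * (r / f).divisors.card) / (r / f).totient * ((f : ℝ) / f.totient) * f
        ≤ (K * Y * Y) * Y * r := by
          refine mul_le_mul (mul_le_mul h6 h5 (by positivity) (by positivity)) ?_
            (by positivity) (by positivity)
          exact_mod_cast hfr'
      _ = K * Y ^ 3 * r := by ring
  have hsum : ∑ f ∈ r.divisors, (K * (r / f).divisors.card) / (r / f).totient *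
          ((f : ℝ) / f.totient) * f ≤ Y * (K * Y ^ 3 * r) := by
    refine (Finset.sum_le_sum hterm).trans ?_
    rw [Finset.sum_const, nsmul_eq_mul]
    exact mul_le_mul_of_nonneg_right (hd r hr hrN) (by positivity)
  have hbr : |br r| ≤ Y / r := by
    unfold br
    rw [abs_div, abs_of_nonneg (show (0 : ℝ) ≤ (r.totient : ℝ) by positivity)]
    refine le_trans ?_ (ht r hr hrN)
    exact div_le_div_of_nonneg_right (mu_abs r) (by positivity)
  calc |br r| * ∑ f ∈ r.divisors, (K * (r / f).divisors.card) / (r / f).totient *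
          ((f : ℝ) / f.totient) * f ≤ (Y / r) * (Y * (K * Y ^ 3 * r)) :=
        mul_le_mul hbr hsum (Finset.sum_nonneg fun f _ => by positivity) (by positivity)
    _ = K * Y ^ 5 := by
        field_simp

end OffBAux

open OffBAux in
theorem off_b (δ : ℝ) (hδ : 0 < δ) : ∃ C : ℝ, 0 < C ∧ ∀ N q R₀ R : ℕ, 1 ≤ q → q ≤ N →
    1 ≤ R → R ≤ N → ∀ W : ℤ → ℝ, Wgt W N → ∀ σ : ℤ, σ = 1 ∨ σ = -1 →
      ‖((OA W N q R₀ R σ : ℝ) : ℂ) - MainS W N q R₀ R σ‖ ≤
        C * (N : ℝ) ^ δ * ((((N / q : ℕ) : ℝ) + 1) * R) := by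
  set ε : ℝ := δ / 7 with hε
  have hε0 : 0 < ε := by positivity
  obtain ⟨C, hC1, hC⟩ := divisor_bound ε hε0
  refine ⟨4 * C ^ 5 / ε ^ 2, by positivity, ?_⟩
  intro N q R₀ R hq hqN hR hRN W hW σ hσ
  have hN1 : (1 : ℝ) ≤ N := by exact_mod_cast hR.trans hRN
  have hN0 : (0 : ℝ) < N := by linarith
  set X : ℝ := (N : ℝ) ^ ε with hX
  have hX0 : 0 < X := Real.rpow_pos_of_pos hN0 _
  have hlog : Real.log N ≤ X / ε := Real.log_le_rpow_div hN0.le hε0
  have hlog0 : 0 ≤ Real.log N := Real.log_nonneg hN1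
  set K : ℝ := ((N / q : ℕ) : ℝ) with hK
  have hK0 : 0 ≤ K := by positivity
  -- the difference
  have hdiff : ((OA W N q R₀ R σ : ℝ) : ℂ) - MainS W N q R₀ R σ =
      - ∑ r ∈ RS q R₀ R, ((br r : ℝ) : ℂ) * ∑ k ∈ Icc 1 (N / q),
        ∑ n ∈ (Icc 1 N).filter (fun n => ¬ n.Coprime (q * r)),
        ((Λ n : ℝ) : ℂ) * ((W ((n : ℤ) + σ * ((k * q : ℕ) : ℤ)) : ℝ) : ℂ) * Tt q σ r k n := by
    rw [← full_eq hW hq hσ R₀ R, OA_eq W N q R₀ R hσ, ← Finset.sum_sub_distrib,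
      ← Finset.sum_neg_distrib]
    refine Finset.sum_congr rfl fun r _ => ?_
    rw [← mul_sub, ← Finset.sum_sub_distrib, ← mul_neg, ← Finset.sum_neg_distrib]
    congr 1
    refine Finset.sum_congr rfl fun k _ => ?_
    rw [← Finset.sum_filter_add_sum_filter_not (Icc 1 N) (fun n => n.Coprime (q * r))]
    ring
  rw [hdiff, norm_neg]
  refine (norm_sum_le _ _).trans ?_
  have hone : ∀ r ∈ RS q R₀ R, ‖((br r : ℝ) : ℂ) * ∑ k ∈ Icc 1 (N / q),
        ∑ n ∈ (Icc 1 N).filter (fun n => ¬ n.Coprime (q * r)),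
        ((Λ n : ℝ) : ℂ) * ((W ((n : ℤ) + σ * ((k * q : ℕ) : ℤ)) : ℝ) : ℂ) * Tt q σ r k n‖ ≤
      4 * (X / ε) ^ 2 * (K * (C * X) ^ 5) := by
    intro r hr
    obtain ⟨hr1, hrR, _, hrq⟩ := RS_mem hr
    have hrN : r ≤ N := hrR.trans hRN
    rw [norm_mul, Complex.norm_real, Real.norm_eq_abs]
    have h1 := nonc hW hq σ r hr1 hrq
    have h2 := size hε0 hC hC1 hr1 hrN K hK0
    set SB := ∑ f ∈ r.divisors, (K * (r / f).divisors.card) / (r / f).totient *
          ((f : ℝ) / f.totient) * f with hSB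
    have hSB0 : 0 ≤ SB := Finset.sum_nonneg fun f _ => by positivity
    have h3 : (Nat.log 2 (q * r) : ℝ) ≤ 4 * Real.log N := by
      have h4 := L1rAux.log2_le (k := q * r) (N := N * N) (Nat.mul_pos hq hr1)
        (Nat.mul_le_mul hqN hrN)
      rw [Nat.cast_mul, Real.log_mul hN0.ne' hN0.ne'] at h4
      linarith
    have h5 : (Nat.log 2 (q * r) : ℝ) * Real.log N ≤ 4 * (X / ε) ^ 2 := by
      calc (Nat.log 2 (q * r) : ℝ) * Real.log N ≤ (4 * Real.log N) * Real.log N :=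
            mul_le_mul_of_nonneg_right h3 hlog0
        _ = 4 * (Real.log N) ^ 2 := by ring
        _ ≤ 4 * (X / ε) ^ 2 := by
            refine mul_le_mul_of_nonneg_left ?_ (by norm_num)
            exact pow_le_pow_left₀ hlog0 hlog 2
    calc |br r| * ‖∑ k ∈ Icc 1 (N / q), ∑ n ∈ (Icc 1 N).filter (fun n => ¬ n.Coprime (q * r)),
          ((Λ n : ℝ) : ℂ) * ((W ((n : ℤ) + σ * ((k * q : ℕ) : ℤ)) : ℝ) : ℂ) * Tt q σ r k n‖
        ≤ |br r| * ((4 * (X / ε) ^ 2) * SB) := by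
          refine mul_le_mul_of_nonneg_left (h1.trans ?_) (abs_nonneg _)
          exact mul_le_mul_of_nonneg_right h5 hSB0
      _ = (4 * (X / ε) ^ 2) * (|br r| * SB) := by ring
      _ ≤ 4 * (X / ε) ^ 2 * (K * (C * X) ^ 5) :=
          mul_le_mul_of_nonneg_left h2 (by positivity)
  refine (Finset.sum_le_sum hone).trans ?_
  rw [Finset.sum_const, nsmul_eq_mul]
  have hcard : ((RS q R₀ R).card : ℝ) ≤ R := by
    have h1 : (RS q R₀ R).card ≤ R := by
      unfold RS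
      refine (Finset.card_filter_le _ _).trans ?_
      rw [Nat.card_Ioc]
      omega
    exact_mod_cast h1
  have hX7 : X ^ 7 = (N : ℝ) ^ δ := by
    rw [hX, ← Real.rpow_natCast, ← Real.rpow_mul hN0.le]
    congr 1
    rw [hε]
    push_cast
    ring
  have hC0 : 0 < C := by linarith
  calc ((RS q R₀ R).card : ℝ) * (4 * (X / ε) ^ 2 * (K * (C * X) ^ 5))
      ≤ R * (4 * (X / ε) ^ 2 * (K * (C * X) ^ 5)) :=
        mul_le_mul_of_nonneg_right hcard (by positivity)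
    _ = 4 * C ^ 5 / ε ^ 2 * X ^ 7 * (K * R) := by
        field_simp
    _ ≤ 4 * C ^ 5 / ε ^ 2 * X ^ 7 * ((K + 1) * R) := by
        refine mul_le_mul_of_nonneg_left ?_ (by positivity)
        refine mul_le_mul_of_nonneg_right (by linarith) (by positivity)
    _ = 4 * C ^ 5 / ε ^ 2 * (N : ℝ) ^ δ * ((K + 1) * R) := by rw [hX7]

end Pool.Agent.M848.SV
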