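import Pool.Agent.Lib.MP_848d44_nt.SV.Base
import Pool.Agent.Lib.MP_ec0ede_nt_EN.Pnt

set_option autoImplicit false

/-!
# MP_848d44_nt, project SV, module Pntw

FROM THE PRIME NUMBER THEOREM (Pool.Agent.EN.pnt / Pnt.psi_div_tendsto: Chebyshev.psi x / x -> 1, in
Pool/Agent/Lib/MP_ec0ede_nt_EN/Pnt.lean). pnt_w: all terms are >= 0 and W = 1 on [eta N, (1-eta) N], so the sum is at least
psi((1-eta)N) - psi(eta N) >= (1 - 2 eta) N - eta N for N large (if 1 - 3 eta <= 0 it is trivial). psi_le: psi(N) <= 2 N.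
(Chebyshev.psi is the sum of Lambda over Ioc 0 floor(x) or Icc; see Mathlib and the end of Pnt.lean.)
-/

noncomputable section

namespace Pool.Agent.M848.SV

open Finset Pool.Agent.M848 Pool.Agent.M848.FC
open scoped ArithmeticFunction.vonMangoldt ComplexConjugate

namespace PntwAux

open Filter Topology

theorem psi_two_sided (δ : ℝ) (hδ : 0 < δ) :
    ∃ X : ℝ, 0 < X ∧ ∀ x : ℝ, X ≤ x →
      (1 - δ) * x ≤ Chebyshev.psi x ∧ Chebyshev.psi x ≤ (1 + δ) * x := by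
  have h := Pool.Agent.EN.Pnt.psi_div_tendsto
  have h1 : ∀ᶠ x : ℝ in atTop, 1 - δ < Chebyshev.psi x / x :=
    h.eventually (lt_mem_nhds (by linarith))
  have h2 : ∀ᶠ x : ℝ in atTop, Chebyshev.psi x / x < 1 + δ :=
    h.eventually (gt_mem_nhds (by linarith))
  obtain ⟨X, hX⟩ := eventually_atTop.1 ((h1.and h2).and (eventually_gt_atTop (0 : ℝ)))
  refine ⟨max X 1, lt_of_lt_of_le one_pos (le_max_right _ _), fun x hx => ?_⟩
  obtain ⟨⟨ha, hb⟩, hc⟩ := hX x (le_trans (le_max_left _ _) hx)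
  exact ⟨((lt_div_iff₀ hc).1 ha).le, ((div_lt_iff₀ hc).1 hb).le⟩

theorem sum_Ioc_eq (a b : ℝ) (hab : a ≤ b) :
    ∑ n ∈ Ioc ⌊a⌋₊ ⌊b⌋₊, (Λ n : ℝ) = Chebyshev.psi b - Chebyshev.psi a := by
  have h : ⌊a⌋₊ ≤ ⌊b⌋₊ := Nat.floor_le_floor hab
  have h1 : ∑ n ∈ Ioc 0 ⌊a⌋₊, (Λ n : ℝ) + ∑ n ∈ Ioc ⌊a⌋₊ ⌊b⌋₊, (Λ n : ℝ) =
      ∑ n ∈ Ioc 0 ⌊b⌋₊, (Λ n : ℝ) :=
    Finset.sum_Ioc_consecutive _ (Nat.zero_le _) h
  unfold Chebyshev.psi
  linarith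

end PntwAux

theorem pnt_w (η : ℝ) (hη : 0 < η) : ∃ N₀ : ℕ, ∀ N : ℕ, N₀ ≤ N → ∀ W : ℤ → ℝ, Wgt W N →
    (∀ m : ℤ, η * N ≤ (m : ℝ) → (m : ℝ) ≤ (1 - η) * N → W m = 1) →
      (1 - 3 * η) * N ≤ ∑ n ∈ Icc 1 N, (Λ n : ℝ) * W (n : ℤ) := by
  have hterm : ∀ (W : ℤ → ℝ) (N : ℕ), Wgt W N → ∀ n : ℕ, 0 ≤ (Λ n : ℝ) * W (n : ℤ) :=
    fun W N hW n => mul_nonneg ArithmeticFunction.vonMangoldt_nonneg (hW.nonneg _)
  rcases le_or_gt (1 - 3 * η) 0 with hη3 | hη3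
  · refine ⟨0, fun N _ W hW _ => ?_⟩
    refine le_trans (mul_nonpos_of_nonpos_of_nonneg hη3 (Nat.cast_nonneg N)) ?_
    exact Finset.sum_nonneg fun n _ => hterm W N hW n
  · obtain ⟨X, hX0, hX⟩ := PntwAux.psi_two_sided η hη
    refine ⟨⌈X / η⌉₊, fun N hN W hW hW1 => ?_⟩
    have hN1 : X / η ≤ (N : ℝ) := Nat.ceil_le.1 hN
    have hN2 : X ≤ η * N := by
      rw [div_le_iff₀ hη] at hN1
      linarith
    have hN0 : (0 : ℝ) ≤ N := Nat.cast_nonneg N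
    have hab : η * N ≤ (1 - η) * N := mul_le_mul_of_nonneg_right (by linarith) hN0
    have hN3 : X ≤ (1 - η) * N := hN2.trans hab
    have hb := (hX _ hN3).1
    have ha := (hX _ hN2).2
    have hsub : Ioc ⌊η * (N : ℝ)⌋₊ ⌊(1 - η) * (N : ℝ)⌋₊ ⊆ Icc 1 N := by
      intro n hn
      rw [Finset.mem_Ioc] at hn
      rw [Finset.mem_Icc]
      refine ⟨by omega, ?_⟩
      have h1 : ((n : ℕ) : ℝ) ≤ (1 - η) * N :=
        le_trans (Nat.cast_le.2 hn.2) (Nat.floor_le (by nlinarith))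
      have h2 : (1 - η) * (N : ℝ) ≤ N := by nlinarith
      exact_mod_cast h1.trans h2
    calc (1 - 3 * η) * (N : ℝ)
        ≤ Chebyshev.psi ((1 - η) * N) - Chebyshev.psi (η * N) := by nlinarith
      _ = ∑ n ∈ Ioc ⌊η * (N : ℝ)⌋₊ ⌊(1 - η) * (N : ℝ)⌋₊, (Λ n : ℝ) :=
          (PntwAux.sum_Ioc_eq _ _ hab).symm
      _ = ∑ n ∈ Ioc ⌊η * (N : ℝ)⌋₊ ⌊(1 - η) * (N : ℝ)⌋₊, (Λ n : ℝ) * W (n : ℤ) := by
          refine Finset.sum_congr rfl fun n hn => ?_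
          rw [Finset.mem_Ioc] at hn
          have h1 : η * (N : ℝ) ≤ ((n : ℤ) : ℝ) := by
            have := Nat.lt_of_floor_lt hn.1
            rw [Int.cast_natCast]
            exact this.le
          have h2 : ((n : ℤ) : ℝ) ≤ (1 - η) * N := by
            rw [Int.cast_natCast]
            exact le_trans (Nat.cast_le.2 hn.2) (Nat.floor_le (by nlinarith))
          rw [hW1 _ h1 h2, mul_one]
      _ ≤ ∑ n ∈ Icc 1 N, (Λ n : ℝ) * W (n : ℤ) :=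
          Finset.sum_le_sum_of_subset_of_nonneg hsub fun n _ _ => hterm W N hW n

theorem psi_le : ∃ N₀ : ℕ, ∀ N : ℕ, N₀ ≤ N → ∑ n ∈ Icc 1 N, (Λ n : ℝ) ≤ 2 * N := by
  obtain ⟨X, hX0, hX⟩ := PntwAux.psi_two_sided 1 one_pos
  refine ⟨⌈X⌉₊, fun N hN => ?_⟩
  have hN1 : X ≤ (N : ℝ) := Nat.ceil_le.1 hN
  have h := (hX _ hN1).2
  have h1 : Chebyshev.psi (N : ℝ) = ∑ n ∈ Icc 1 N, (Λ n : ℝ) := by
    unfold Chebyshev.psi
    rw [Nat.floor_natCast]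
    rfl
  rw [← h1]
  linarith

end Pool.Agent.M848.SV
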