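import Pool.Agent.Lib.MP_848d44_nt.SV.Corr
import Pool.Agent.Lib.MP_848d44_nt.SV.Fbd
import Pool.Agent.Lib.MP_848d44_nt.Cop
import Pool.Agent.Lib.MP_848d44_nt.Geq
import Pool.Agent.Lib.MP_848d44_nt.Div

set_option autoImplicit false

/-!
# MP_848d44_nt, project SV, module Sec: the second moment
-/

noncomputable section

namespace Pool.Agent.M848.SV

open Finset Pool.Agent.M848 Pool.Agent.M848.FC
open scoped ArithmeticFunction.vonMangoldt ComplexConjugate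

namespace SecAux

/-- the weighted test function -/
def GW (W : ℤ → ℝ) (q R₀ R : ℕ) (m : ℤ) : ℝ := W m * FS q R₀ R m

theorem GW_zero {W : ℤ → ℝ} {N : ℕ} (hW : Wgt W N) (q R₀ R : ℕ) (m : ℤ)
    (h : m ≤ 0 ∨ (N : ℤ) ≤ m) : GW W q R₀ R m = 0 := by
  have : W m = 0 := by
    by_contra h0
    have := hW.supp m h0
    omega
  rw [GW, this, zero_mul]

/-- the correlation with shift `k q` over the multiples of `t` -/
def HH (W : ℤ → ℝ) (N q R₀ R t : ℕ) (k : ℤ) : ℝ :=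
  ∑ n ∈ (Icc 1 N).filter (fun n => t ∣ n),
    GW W q R₀ R (n : ℤ) * GW W q R₀ R ((n : ℤ) + k * q)

theorem step_a (W : ℤ → ℝ) (N q R₀ R t : ℕ) (hq : 1 ≤ q) (htq : t ∣ q) :
    ∑ a ∈ (range q).filter (fun a => t ∣ a), TS W N q R₀ R a ^ 2 =
      ∑ n ∈ (Icc 1 N).filter (fun n => t ∣ n), GW W q R₀ R (n : ℤ) * TS W N q R₀ R (n % q) := by
  have h1 : ∀ a ∈ (range q).filter (fun a => t ∣ a), TS W N q R₀ R a ^ 2 =
      ∑ n ∈ ((Icc 1 N).filter (fun n => t ∣ n)).filter (fun n => n % q = a),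
        GW W q R₀ R (n : ℤ) * TS W N q R₀ R (n % q) := by
    intro a ha
    rw [mem_filter] at ha
    have e1 : ((Icc 1 N).filter (fun n => t ∣ n)).filter (fun n => n % q = a) =
        (Icc 1 N).filter (fun n => n % q = a) := by
      ext n
      simp only [mem_filter]
      constructor
      · rintro ⟨⟨h1, _⟩, h2⟩
        exact ⟨h1, h2⟩
      · rintro ⟨h1, h2⟩
        refine ⟨⟨h1, ?_⟩, h2⟩
        rw [← Nat.dvd_mod_iff htq, h2]
        exact ha.2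
    rw [e1]
    calc TS W N q R₀ R a ^ 2 = TS W N q R₀ R a * TS W N q R₀ R a := pow_two _
      _ = (∑ n ∈ (Icc 1 N).filter (fun n => n % q = a), GW W q R₀ R (n : ℤ)) *
            TS W N q R₀ R a := rfl
      _ = ∑ n ∈ (Icc 1 N).filter (fun n => n % q = a),
            GW W q R₀ R (n : ℤ) * TS W N q R₀ R a := sum_mul _ _ _
      _ = _ := by
        refine sum_congr rfl fun n hn => ?_
        rw [(mem_filter.1 hn).2]
  rw [sum_congr rfl h1]
  refine sum_fiberwise_of_maps_to (fun n hn => ?_) _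
  rw [mem_filter] at hn ⊢
  exact ⟨mem_range.2 (Nat.mod_lt _ hq), (Nat.dvd_mod_iff htq).2 hn.2⟩

theorem step_b {W : ℤ → ℝ} {N : ℕ} (hW : Wgt W N) (q R₀ R t₀ : ℕ) (hq : 1 ≤ q)
    (ht : t₀ ∣ q) :
    ∑ a ∈ Co q, TS W N q R₀ R a ^ 2 ≤
      ∑ t ∈ t₀.divisors, (ArithmeticFunction.moebius t : ℝ) *
        (HH W N q R₀ R t 0 + ∑ h ∈ Icc 1 (N / q),
          (HH W N q R₀ R t (h : ℤ) + HH W N q R₀ R t (-(h : ℤ)))) := by
  have ht0 : 1 ≤ t₀ := Nat.pos_of_dvd_of_pos ht hq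
  calc ∑ a ∈ Co q, TS W N q R₀ R a ^ 2
      ≤ ∑ a ∈ (range q).filter (fun a => a.Coprime t₀), TS W N q R₀ R a ^ 2 := by
        refine sum_le_sum_of_subset_of_nonneg ?_ fun _ _ _ => sq_nonneg _
        intro a ha
        rw [Co, mem_filter] at ha
        rw [mem_filter]
        exact ⟨ha.1, Nat.Coprime.coprime_dvd_right ht ha.2⟩
    _ = ∑ a ∈ range q, (if a.Coprime t₀ then (1 : ℝ) else 0) * TS W N q R₀ R a ^ 2 := by
        rw [sum_filter]
        refine sum_congr rfl fun a _ => ?_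
        split_ifs <;> simp
    _ = ∑ a ∈ range q, ∑ t ∈ t₀.divisors,
          (if t ∣ a then (ArithmeticFunction.moebius t : ℝ) else 0) * TS W N q R₀ R a ^ 2 := by
        refine sum_congr rfl fun a _ => ?_
        rw [CopAux.coprime_ind a t₀ ht0, sum_mul]
    _ = ∑ t ∈ t₀.divisors, (ArithmeticFunction.moebius t : ℝ) *
          ∑ a ∈ (range q).filter (fun a => t ∣ a), TS W N q R₀ R a ^ 2 := by
        rw [sum_comm]
        refine sum_congr rfl fun t _ => ?_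
        rw [sum_filter, mul_sum]
        refine sum_congr rfl fun a _ => ?_
        split_ifs <;> simp
    _ = _ := by
        refine sum_congr rfl fun t htt => ?_
        congr 1
        rw [step_a W N q R₀ R t hq ((Nat.dvd_of_mem_divisors htt).trans ht)]
        have h2 : ∀ n ∈ (Icc 1 N).filter (fun n => t ∣ n),
            GW W q R₀ R (n : ℤ) * TS W N q R₀ R (n % q) =
              GW W q R₀ R (n : ℤ) * GW W q R₀ R ((n : ℤ) + 0 * q) +
              ∑ h ∈ Icc 1 (N / q), (GW W q R₀ R (n : ℤ) * GW W q R₀ R ((n : ℤ) + (h : ℤ) * q) +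
                GW W q R₀ R (n : ℤ) * GW W q R₀ R ((n : ℤ) + (-(h : ℤ)) * q)) := by
          intro n hn
          have h3 : TS W N q R₀ R (n % q) = GW W q R₀ R (n : ℤ) +
              ∑ h ∈ Icc 1 (N / q), (GW W q R₀ R ((n : ℤ) + h * q) +
                GW W q R₀ R ((n : ℤ) - h * q)) :=
            GeqAux.main (GW W q R₀ R) N q hq (fun m hm => GW_zero hW q R₀ R m hm) n
              (mem_filter.1 hn).1
          rw [h3, mul_add, mul_sum, zero_mul, add_zero]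
          congr 1
          refine sum_congr rfl fun h _ => ?_
          rw [mul_add]
          congr 2
          rw [neg_mul, sub_eq_add_neg]
        rw [sum_congr rfl h2, sum_add_distrib]
        congr 1
        rw [sum_comm]
        refine sum_congr rfl fun h _ => ?_
        rw [sum_add_distrib]
        rfl

/-- `HH` as a sum over `m = n / t` -/
theorem HH_eq {W : ℤ → ℝ} {N : ℕ} (hW : Wgt W N) (q R₀ R t : ℕ) (k : ℤ) (ht : 1 ≤ t) :
    HH W N q R₀ R t k = ∑ m ∈ Icc 1 N, W ((t : ℤ) * m) * W ((t : ℤ) * m + k * q) *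
      (FS q R₀ R ((t : ℤ) * m) * FS q R₀ R ((t : ℤ) * m + k * q)) := by
  have h1 : ∑ m ∈ Icc 1 N, W ((t : ℤ) * m) * W ((t : ℤ) * m + k * q) *
      (FS q R₀ R ((t : ℤ) * m) * FS q R₀ R ((t : ℤ) * m + k * q)) =
      ∑ m ∈ (Icc 1 N).filter (fun m => t * m ≤ N), W ((t : ℤ) * m) * W ((t : ℤ) * m + k * q) *
      (FS q R₀ R ((t : ℤ) * m) * FS q R₀ R ((t : ℤ) * m + k * q)) := by
    symm
    refine sum_subset (filter_subset _ _) fun m hm hm2 => ?_
    have h2 : ¬ t * m ≤ N := fun h => hm2 (mem_filter.2 ⟨hm, h⟩)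
    have h3 : W ((t : ℤ) * m) = 0 := by
      by_contra h0
      have := (hW.supp _ h0).2
      have h4 : t * m < N := by exact_mod_cast this
      omega
    rw [h3]
    ring
  rw [h1, HH]
  symm
  refine sum_bij (fun m _ => t * m) ?_ ?_ ?_ ?_
  · intro m hm
    rw [mem_filter, mem_Icc] at hm
    rw [mem_filter, mem_Icc]
    exact ⟨⟨Nat.mul_pos ht hm.1.1, hm.2⟩, dvd_mul_right _ _⟩
  · intro m _ m' _ h
    exact Nat.eq_of_mul_eq_mul_left ht h
  · intro n hn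
    rw [mem_filter, mem_Icc] at hn
    obtain ⟨⟨h2, h3⟩, m, rfl⟩ := hn
    have hm1 : 1 ≤ m := by
      rcases Nat.eq_zero_or_pos m with h | h
      · subst h
        omega
      · exact h
    refine ⟨m, ?_, rfl⟩
    rw [mem_filter, mem_Icc]
    exact ⟨⟨hm1, (Nat.le_mul_of_pos_left m ht).trans h3⟩, h3⟩
  · intro m _
    rw [GW, GW]
    push_cast
    ring

theorem mem_RS {q R₀ R r : ℕ} (h : r ∈ RS q R₀ R) :
    R₀ < r ∧ r ≤ R ∧ Squarefree r ∧ r.Coprime q := by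
  rw [RS, mem_filter, mem_Ioc] at h
  exact ⟨h.1.1, h.1.2, h.2.1, h.2.2⟩

theorem FS_scale (q R₀ R t : ℕ) (htq : t ∣ q) (m : ℤ) :
    FS q R₀ R ((t : ℤ) * m) = FS q R₀ R m := by
  refine sum_congr rfl fun r hr => ?_
  rw [cc_scale r t (Nat.Coprime.coprime_dvd_right htq (mem_RS hr).2.2.2)]

/-- splitting into classes -/
theorem class_split (g : ℤ → ℝ) (N r r' : ℕ) (hr : 1 ≤ r) (hr' : 1 ≤ r') (z : ℤ) :
    ∑ m ∈ Icc 1 N, g (m : ℤ) * (cc r (m : ℤ) * cc r' ((m : ℤ) + z)) =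
      ∑ b ∈ range (r * r'), cc r (b : ℤ) * cc r' ((b : ℤ) + z) *
        ∑ m ∈ (Icc 1 N).filter (fun m => m % (r * r') = b % (r * r')), g (m : ℤ) := by
  have hL : 0 < r * r' := Nat.mul_pos hr hr'
  have h1 : ∀ b ∈ range (r * r'), cc r (b : ℤ) * cc r' ((b : ℤ) + z) *
        ∑ m ∈ (Icc 1 N).filter (fun m => m % (r * r') = b % (r * r')), g (m : ℤ) =
      ∑ m ∈ (Icc 1 N).filter (fun m => m % (r * r') = b),
        g (m : ℤ) * (cc r (m : ℤ) * cc r' ((m : ℤ) + z)) := by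
    intro b hb
    rw [Nat.mod_eq_of_lt (mem_range.1 hb), mul_sum]
    refine sum_congr rfl fun m hm => ?_
    have h2 := (mem_filter.1 hm).2
    have h3 : (m : ℤ) = (b : ℤ) + (r : ℤ) * ((r' : ℤ) * ((m / (r * r') : ℕ) : ℤ)) := by
      have := Nat.mod_add_div m (r * r')
      rw [h2] at this
      have h4 : (m : ℤ) = ((b + r * r' * (m / (r * r')) : ℕ) : ℤ) := by rw [this]
      rw [h4]
      push_cast
      ring
    have h5 : cc r (m : ℤ) = cc r (b : ℤ) := by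
      rw [h3, cc_add]
    have h6 : cc r' ((m : ℤ) + z) = cc r' ((b : ℤ) + z) := by
      have h7 : (m : ℤ) + z = ((b : ℤ) + z) + (r' : ℤ) * ((r : ℤ) * ((m / (r * r') : ℕ) : ℤ)) := by
        rw [h3]
        ring
      rw [h7, cc_add]
    rw [h5, h6]
    ring
  rw [sum_congr rfl h1]
  symm
  exact sum_fiberwise_of_maps_to (fun m _ => mem_range.2 (Nat.mod_lt _ hL)) _

/-- one pair `r, r'` -/
theorem pair_est {W : ℤ → ℝ} {N q t₀ X : ℕ} {E : ℝ} (hQ : Quad W N q t₀ X E) (t : ℕ)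
    (ht : t ∈ t₀.divisors) (k : ℤ) (hk : k.natAbs ≤ N / q) (r r' : ℕ) (hr : 1 ≤ r)
    (hr' : 1 ≤ r') (hX : r * r' ≤ X) (hs : Squarefree r) (hs' : Squarefree r') (hE : 0 ≤ E)
    (z : ℤ) :
    |∑ m ∈ Icc 1 N, W ((t : ℤ) * m) * W ((t : ℤ) * m + k * q) *
        (cc r (m : ℤ) * cc r' ((m : ℤ) + z)) -
      (if r = r' then cc r z else 0) *
        ∑ m ∈ Icc 1 N, W ((t : ℤ) * m) * W ((t : ℤ) * m + k * q)| ≤
      E * ((r * r' : ℝ) * (r.divisors.card * r'.divisors.card * (r.gcd r' : ℝ))) := by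
  have hL : 0 < r * r' := Nat.mul_pos hr hr'
  have hr0 : (0 : ℝ) < r := by exact_mod_cast hr
  have hr0' : (0 : ℝ) < r' := by exact_mod_cast hr'
  set g : ℤ → ℝ := fun m => W ((t : ℤ) * m) * W ((t : ℤ) * m + k * q) with hg
  set G : ℝ := ∑ m ∈ Icc 1 N, g (m : ℤ) with hG
  have h1 : ∑ m ∈ Icc 1 N, W ((t : ℤ) * m) * W ((t : ℤ) * m + k * q) *
        (cc r (m : ℤ) * cc r' ((m : ℤ) + z)) =
      ∑ b ∈ range (r * r'), cc r (b : ℤ) * cc r' ((b : ℤ) + z) *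
        ∑ m ∈ (Icc 1 N).filter (fun m => m % (r * r') = b % (r * r')), g (m : ℤ) :=
    class_split g N r r' hr hr' z
  have h2 : (if r = r' then cc r z else 0) * G =
      ∑ b ∈ range (r * r'), cc r (b : ℤ) * cc r' ((b : ℤ) + z) *
        ((1 / ((r * r' : ℕ) : ℝ)) * G) := by
    rw [← sum_mul, cc_corr r r' hs hs' z]
    by_cases h : r = r'
    · rw [if_pos h, if_pos h]
      push_cast
      field_simp
    · rw [if_neg h, if_neg h]
      ring
  rw [h1]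
  change |_ - (if r = r' then cc r z else 0) * G| ≤ _
  rw [h2, ← sum_sub_distrib]
  refine (abs_sum_le_sum_abs _ _).trans ?_
  have h3 : ∀ b ∈ range (r * r'), |cc r (b : ℤ) * cc r' ((b : ℤ) + z) *
        ∑ m ∈ (Icc 1 N).filter (fun m => m % (r * r') = b % (r * r')), g (m : ℤ) -
      cc r (b : ℤ) * cc r' ((b : ℤ) + z) * ((1 / ((r * r' : ℕ) : ℝ)) * G)| ≤
      E * (|cc r (b : ℤ)| * |cc r' ((b : ℤ) + z)|) := by
    intro b _
    rw [← mul_sub, abs_mul, abs_mul, mul_comm E]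
    exact mul_le_mul_of_nonneg_left (hQ t ht k hk (r * r') hL hX b) (by positivity)
  refine (sum_le_sum h3).trans ?_
  rw [← mul_sum]
  exact mul_le_mul_of_nonneg_left (cc_corr_abs r r' hr hr' z) hE

/-- the sum of the error terms -/
def SB (q R₀ R : ℕ) : ℝ :=
  ∑ r ∈ RS q R₀ R, ∑ r' ∈ RS q R₀ R, |br r| * |br r'| *
    ((r * r' : ℝ) * (r.divisors.card * r'.divisors.card * (r.gcd r' : ℝ)))

theorem HH_est {W : ℤ → ℝ} {N q R₀ R t₀ : ℕ} {E : ℝ} (hW : Wgt W N) (hq : 1 ≤ q)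
    (htq : t₀ ∣ q) (hQ : Quad W N q t₀ (R ^ 2) E) (hE : 0 ≤ E) (t : ℕ)
    (ht : t ∈ t₀.divisors) (k : ℤ) (hk : k.natAbs ≤ N / q) :
    |HH W N q R₀ R t k - (∑ r ∈ RS q R₀ R, br r ^ 2 * cc r (k * ((q / t : ℕ) : ℤ))) *
        ∑ m ∈ Icc 1 N, W ((t : ℤ) * m) * W ((t : ℤ) * m + k * q)| ≤ E * SB q R₀ R := by
  have ht1 : t ∣ q := (Nat.dvd_of_mem_divisors ht).trans htq
  have ht0 : 1 ≤ t := Nat.pos_of_dvd_of_pos ht1 hq
  set z : ℤ := k * ((q / t : ℕ) : ℤ) with hz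
  set G : ℝ := ∑ m ∈ Icc 1 N, W ((t : ℤ) * m) * W ((t : ℤ) * m + k * q) with hG
  have h0 : ∀ m : ℤ, (t : ℤ) * m + k * q = (t : ℤ) * (m + z) := by
    intro m
    have : (q : ℤ) = (t : ℤ) * ((q / t : ℕ) : ℤ) := by
      exact_mod_cast (Nat.mul_div_cancel' ht1).symm
    rw [hz]
    conv_lhs => rw [this]
    ring
  have h1 : HH W N q R₀ R t k = ∑ r ∈ RS q R₀ R, ∑ r' ∈ RS q R₀ R, br r * br r' *
      ∑ m ∈ Icc 1 N, W ((t : ℤ) * m) * W ((t : ℤ) * m + k * q) *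
        (cc r (m : ℤ) * cc r' ((m : ℤ) + z)) := by
    rw [HH_eq hW q R₀ R t k ht0]
    have h2 : ∀ m ∈ Icc 1 N, W ((t : ℤ) * m) * W ((t : ℤ) * m + k * q) *
        (FS q R₀ R ((t : ℤ) * m) * FS q R₀ R ((t : ℤ) * m + k * q)) =
        ∑ r ∈ RS q R₀ R, ∑ r' ∈ RS q R₀ R, br r * br r' *
          (W ((t : ℤ) * m) * W ((t : ℤ) * m + k * q) *
            (cc r (m : ℤ) * cc r' ((m : ℤ) + z))) := by
      intro m _
      have h3 : FS q R₀ R ((t : ℤ) * m + k * q) = FS q R₀ R ((m : ℤ) + z) := by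
        rw [h0, FS_scale q R₀ R t ht1]
      rw [h3, FS_scale q R₀ R t ht1, FS, FS, sum_mul_sum, mul_sum]
      refine sum_congr rfl fun r _ => ?_
      rw [mul_sum]
      refine sum_congr rfl fun r' _ => ?_
      ring
    rw [sum_congr rfl h2, sum_comm]
    refine sum_congr rfl fun r _ => ?_
    rw [sum_comm]
    refine sum_congr rfl fun r' _ => ?_
    rw [mul_sum]
  have h4 : (∑ r ∈ RS q R₀ R, br r ^ 2 * cc r z) * G =
      ∑ r ∈ RS q R₀ R, ∑ r' ∈ RS q R₀ R, br r * br r' *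
        ((if r = r' then cc r z else 0) * G) := by
    rw [sum_mul]
    refine sum_congr rfl fun r hr => ?_
    rw [sum_eq_single r]
    · rw [if_pos rfl]
      ring
    · intro r' _ h
      rw [if_neg (fun h' => h h'.symm)]
      ring
    · intro h
      exact absurd hr h
  rw [h1, h4, ← sum_sub_distrib, SB, mul_sum]
  refine (abs_sum_le_sum_abs _ _).trans (sum_le_sum fun r hr => ?_)
  rw [← sum_sub_distrib, mul_sum]
  refine (abs_sum_le_sum_abs _ _).trans (sum_le_sum fun r' hr' => ?_)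
  obtain ⟨a1, a2, a3, _⟩ := mem_RS hr
  obtain ⟨b1, b2, b3, _⟩ := mem_RS hr'
  rw [← mul_sub, abs_mul, abs_mul]
  have h5 := pair_est hQ t ht k hk r r' (by omega) (by omega)
    (by rw [pow_two]; exact Nat.mul_le_mul a2 b2) a3 b3 hE z
  calc |br r| * |br r'| * _ ≤ |br r| * |br r'| * (E * ((r * r' : ℝ) *
        (r.divisors.card * r'.divisors.card * (r.gcd r' : ℝ)))) :=
        mul_le_mul_of_nonneg_left h5 (by positivity)
    _ = _ := by ring

theorem cc_neg (r : ℕ) (m : ℤ) : cc r (-m) = cc r m := by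
  unfold cc
  congr 1
  ext d
  rw [mem_filter, mem_filter, dvd_neg]

theorem br_sq_phi {r : ℕ} (hr : 1 ≤ r) (hs : Squarefree r) :
    br r ^ 2 * (r.totient : ℝ) = 1 / (r.totient : ℝ) := by
  have h1 : (0 : ℝ) < r.totient := by exact_mod_cast Nat.totient_pos.2 hr
  have h2 : (ArithmeticFunction.moebius r : ℝ) ^ 2 = 1 := by
    exact_mod_cast ArithmeticFunction.moebius_sq_eq_one_of_squarefree hs
  rw [br, div_pow, h2]
  field_simp

theorem J_eq (q R₀ R : ℕ) (x : ℤ) :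
    ∑ r ∈ RS q R₀ R, br r ^ 2 * cc r (0 * x) = JJ q R₀ R := by
  refine sum_congr rfl fun r hr => ?_
  obtain ⟨a1, a2, a3, _⟩ := mem_RS hr
  rw [zero_mul, cc_zero r (by omega), br_sq_phi (by omega) a3]

/-- dilation -/
theorem dil (h : ℤ → ℝ) (N t : ℕ) (ht : 1 ≤ t) (h0 : ∀ m : ℤ, (N : ℤ) ≤ m → h m = 0) :
    ∑ m ∈ Icc 1 N, h ((t : ℤ) * m) = ∑ n ∈ (Icc 1 N).filter (fun n => t ∣ n), h (n : ℤ) := by
  have h1 : ∑ m ∈ Icc 1 N, h ((t : ℤ) * m) =
      ∑ m ∈ (Icc 1 N).filter (fun m => t * m ≤ N), h ((t : ℤ) * m) := by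
    symm
    refine sum_subset (filter_subset _ _) fun m hm hm2 => ?_
    have h2 : ¬ t * m ≤ N := fun h => hm2 (mem_filter.2 ⟨hm, h⟩)
    refine h0 _ ?_
    have h4 : N ≤ t * m := by omega
    exact_mod_cast h4
  rw [h1]
  refine sum_bij (fun m _ => t * m) ?_ ?_ ?_ ?_
  · intro m hm
    rw [mem_filter, mem_Icc] at hm
    rw [mem_filter, mem_Icc]
    exact ⟨⟨Nat.mul_pos ht hm.1.1, hm.2⟩, dvd_mul_right _ _⟩
  · intro m _ m' _ h
    exact Nat.eq_of_mul_eq_mul_left ht h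
  · intro n hn
    rw [mem_filter, mem_Icc] at hn
    obtain ⟨⟨h2, h3⟩, m, rfl⟩ := hn
    have hm1 : 1 ≤ m := by
      rcases Nat.eq_zero_or_pos m with h | h
      · subst h
        omega
      · exact h
    refine ⟨m, ?_, rfl⟩
    rw [mem_filter, mem_Icc]
    exact ⟨⟨hm1, (Nat.le_mul_of_pos_left m ht).trans h3⟩, h3⟩
  · intro m _
    push_cast
    rfl

theorem card_mult (N t : ℕ) : (((Icc 1 N).filter (fun n => t ∣ n)).card) = N / t := by
  have h1 : Icc 1 N = Ioc 0 N := by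
    ext n
    rw [mem_Icc, mem_Ioc]
    omega
  rw [h1, Nat.Ioc_filter_dvd_card_eq_div]

/-- sieving out the prime factors of `t₀` -/
theorem sieve (f : ℕ → ℝ) (N t₀ : ℕ) (ht : 1 ≤ t₀) :
    ∑ t ∈ t₀.divisors, (ArithmeticFunction.moebius t : ℝ) *
      ∑ n ∈ (Icc 1 N).filter (fun n => t ∣ n), f n =
      ∑ n ∈ (Icc 1 N).filter (fun n => n.Coprime t₀), f n := by
  rw [sum_filter]
  have h1 : ∀ n ∈ Icc 1 N, (if n.Coprime t₀ then f n else 0) =
      ∑ t ∈ t₀.divisors, (if t ∣ n then (ArithmeticFunction.moebius t : ℝ) else 0) * f n := by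
    intro n _
    rw [← sum_mul, ← CopAux.coprime_ind n t₀ ht]
    split_ifs <;> simp
  rw [sum_congr rfl h1, sum_comm]
  refine sum_congr rfl fun t _ => ?_
  rw [sum_filter, mul_sum]
  refine sum_congr rfl fun n _ => ?_
  split_ifs <;> simp

theorem phi_eq (t₀ : ℕ) (ht : 1 ≤ t₀) :
    ∑ t ∈ t₀.divisors, (ArithmeticFunction.moebius t : ℝ) * (1 / (t : ℝ)) =
      (t₀.totient : ℝ) / t₀ := by
  have h0 : (0 : ℝ) < t₀ := by exact_mod_cast ht
  have h1 := cc_zero t₀ ht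
  unfold cc at h1
  have h2 : t₀.divisors.filter (fun d : ℕ => (d : ℤ) ∣ 0) = t₀.divisors :=
    filter_true_of_mem fun d _ => dvd_zero _
  rw [h2, ← Nat.sum_div_divisors t₀ (fun d => (ArithmeticFunction.moebius (t₀ / d) : ℝ) * d)] at h1
  rw [← h1, sum_div]
  refine sum_congr rfl fun d hd => ?_
  have h3 := Nat.dvd_of_mem_divisors hd
  have h4 : 0 < d := Nat.pos_of_mem_divisors hd
  have h5 : (0 : ℝ) < d := by exact_mod_cast h4
  rw [Nat.div_div_self h3 (by omega), Nat.cast_div h3 h5.ne']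
  field_simp

theorem count_cop (N t₀ : ℕ) (ht : 1 ≤ t₀) :
    (((Icc 1 N).filter (fun n => n.Coprime t₀)).card : ℝ) ≤
      N * ((t₀.totient : ℝ) / t₀) + t₀.divisors.card := by
  have h1 := sieve (fun _ => 1) N t₀ ht
  have h2 : ∑ n ∈ (Icc 1 N).filter (fun n => n.Coprime t₀), (1 : ℝ) =
      (((Icc 1 N).filter (fun n => n.Coprime t₀)).card : ℝ) := by simp
  rw [← h2, ← h1, ← phi_eq t₀ ht, mul_sum]
  have h3 : (t₀.divisors.card : ℝ) = ∑ t ∈ t₀.divisors, (1 : ℝ) := by simp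
  rw [h3, ← sum_add_distrib]
  refine sum_le_sum fun t htt => ?_
  have h4 : 0 < t := Nat.pos_of_mem_divisors htt
  have h5 : (0 : ℝ) < t := by exact_mod_cast h4
  have h6 : ∑ n ∈ (Icc 1 N).filter (fun n => t ∣ n), (1 : ℝ) = ((N / t : ℕ) : ℝ) := by
    rw [← card_mult N t]
    simp
  rw [h6]
  have h7 : ((N / t : ℕ) : ℝ) ≤ (N : ℝ) / t := Nat.cast_div_le
  have h8 : (N : ℝ) / t ≤ ((N / t : ℕ) : ℝ) + 1 := by
    rw [div_le_iff₀ h5]
    have := Nat.lt_div_mul_add h4 (a := N)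
    have h9 : (N : ℝ) ≤ ((N / t * t + t : ℕ) : ℝ) := by exact_mod_cast this.le
    push_cast at h9
    linarith
  have h9 := abs_le.1 (CopAux.moebius_abs t)
  set mu : ℝ := (ArithmeticFunction.moebius t : ℝ)
  set u : ℝ := ((N / t : ℕ) : ℝ)
  have h10 : (N : ℝ) * (mu * (1 / t)) = mu * (N / t) := by ring
  rw [h10]
  nlinarith [h9.1, h9.2]

/-- the main term for `k = 0` -/
theorem main_zero {W : ℤ → ℝ} {N : ℕ} (hW : Wgt W N) (q R₀ R t₀ : ℕ) (ht : 1 ≤ t₀) :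
    ∑ t ∈ t₀.divisors, (ArithmeticFunction.moebius t : ℝ) *
      ((∑ r ∈ RS q R₀ R, br r ^ 2 * cc r (0 * ((q / t : ℕ) : ℤ))) *
        ∑ m ∈ Icc 1 N, W ((t : ℤ) * m) * W ((t : ℤ) * m + 0 * q)) ≤
      JJ q R₀ R * (N * ((t₀.totient : ℝ) / t₀) + t₀.divisors.card) := by
  have hJ : 0 ≤ JJ q R₀ R := sum_nonneg fun r _ => by positivity
  have h1 : ∀ t ∈ t₀.divisors, (ArithmeticFunction.moebius t : ℝ) *
      ((∑ r ∈ RS q R₀ R, br r ^ 2 * cc r (0 * ((q / t : ℕ) : ℤ))) *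
        ∑ m ∈ Icc 1 N, W ((t : ℤ) * m) * W ((t : ℤ) * m + 0 * q)) =
      JJ q R₀ R * ((ArithmeticFunction.moebius t : ℝ) *
        ∑ n ∈ (Icc 1 N).filter (fun n => t ∣ n), W (n : ℤ) ^ 2) := by
    intro t htt
    have h4 : 0 < t := Nat.pos_of_mem_divisors htt
    rw [J_eq, ← dil (fun m => W m ^ 2) N t h4 ?_]
    · have h2 : ∑ m ∈ Icc 1 N, W ((t : ℤ) * m) * W ((t : ℤ) * m + 0 * q) =
          ∑ m ∈ Icc 1 N, W ((t : ℤ) * m) ^ 2 := by
        refine sum_congr rfl fun m _ => ?_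
        rw [zero_mul, add_zero, pow_two]
      rw [h2]
      ring
    · intro m hm
      have : W m = 0 := by
        by_contra h0
        have := hW.supp m h0
        omega
      rw [this]
      ring
  rw [sum_congr rfl h1, ← mul_sum, sieve (fun n => W (n : ℤ) ^ 2) N t₀ ht]
  refine mul_le_mul_of_nonneg_left (le_trans ?_ (count_cop N t₀ ht)) hJ
  have h2 : (((Icc 1 N).filter (fun n => n.Coprime t₀)).card : ℝ) =
      ∑ n ∈ (Icc 1 N).filter (fun n => n.Coprime t₀), (1 : ℝ) := by simp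
  rw [h2]
  refine sum_le_sum fun n _ => ?_
  exact pow_le_one₀ (hW.nonneg _) (hW.le_one _)

/-- the sum of the `r`-factors for `k` not zero -/
def S1 (q R₀ R : ℕ) : ℝ := ∑ r ∈ RS q R₀ R, br r ^ 2 * (r.divisors.card : ℝ)

theorem main_k {W : ℤ → ℝ} {N : ℕ} (hW : Wgt W N) (q R₀ R t : ℕ) (htq : t ∣ q) (k : ℤ) :
    |(∑ r ∈ RS q R₀ R, br r ^ 2 * cc r (k * ((q / t : ℕ) : ℤ))) *
        ∑ m ∈ Icc 1 N, W ((t : ℤ) * m) * W ((t : ℤ) * m + k * q)| ≤
      N * ∑ r ∈ RS q R₀ R, br r ^ 2 * |cc r k| := by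
  rw [abs_mul, mul_comm (N : ℝ)]
  refine mul_le_mul ?_ ?_ (abs_nonneg _) (sum_nonneg fun r _ => by positivity)
  · refine (abs_sum_le_sum_abs _ _).trans (sum_le_sum fun r hr => ?_)
    have h1 : r.Coprime (q / t) :=
      Nat.Coprime.coprime_dvd_right (Nat.div_dvd_of_dvd htq) (mem_RS hr).2.2.2
    rw [abs_mul, mul_comm k, cc_scale r (q / t) h1, abs_of_nonneg (sq_nonneg (br r))]
  · refine (abs_sum_le_sum_abs _ _).trans ?_
    have h2 : (N : ℝ) = ∑ m ∈ Icc 1 N, (1 : ℝ) := by simp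
    rw [h2]
    refine sum_le_sum fun m _ => ?_
    rw [abs_of_nonneg (mul_nonneg (hW.nonneg _) (hW.nonneg _))]
    exact mul_le_one₀ (hW.le_one _) (hW.nonneg _) (hW.le_one _)

theorem main_sum {W : ℤ → ℝ} {N : ℕ} (hW : Wgt W N) (q R₀ R t K : ℕ) (htq : t ∣ q) :
    ∑ h ∈ Icc 1 K, (|(∑ r ∈ RS q R₀ R, br r ^ 2 * cc r ((h : ℤ) * ((q / t : ℕ) : ℤ))) *
        ∑ m ∈ Icc 1 N, W ((t : ℤ) * m) * W ((t : ℤ) * m + (h : ℤ) * q)| +
      |(∑ r ∈ RS q R₀ R, br r ^ 2 * cc r (-(h : ℤ) * ((q / t : ℕ) : ℤ))) *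
        ∑ m ∈ Icc 1 N, W ((t : ℤ) * m) * W ((t : ℤ) * m + -(h : ℤ) * q)|) ≤
      2 * (N * K) * S1 q R₀ R := by
  have h1 : ∀ h ∈ Icc 1 K,
      (|(∑ r ∈ RS q R₀ R, br r ^ 2 * cc r ((h : ℤ) * ((q / t : ℕ) : ℤ))) *
        ∑ m ∈ Icc 1 N, W ((t : ℤ) * m) * W ((t : ℤ) * m + (h : ℤ) * q)| +
      |(∑ r ∈ RS q R₀ R, br r ^ 2 * cc r (-(h : ℤ) * ((q / t : ℕ) : ℤ))) *
        ∑ m ∈ Icc 1 N, W ((t : ℤ) * m) * W ((t : ℤ) * m + -(h : ℤ) * q)|) ≤
      2 * N * ∑ r ∈ RS q R₀ R, br r ^ 2 * |cc r (h : ℤ)| := by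
    intro h _
    have h2 := main_k hW q R₀ R t htq (h : ℤ)
    have h3 := main_k hW q R₀ R t htq (-(h : ℤ))
    simp only [cc_neg] at h3
    have h4 : ∀ x : ℝ, 2 * (N : ℝ) * x = N * x + N * x := fun x => by ring
    rw [h4]
    refine add_le_add h2 ?_
    exact h3
  refine (sum_le_sum h1).trans ?_
  rw [← mul_sum, sum_comm]
  have h5 : ∑ r ∈ RS q R₀ R, ∑ h ∈ Icc 1 K, br r ^ 2 * |cc r (h : ℤ)| ≤ K * S1 q R₀ R := by
    rw [S1, mul_sum]
    refine sum_le_sum fun r _ => ?_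
    rw [← mul_sum]
    calc br r ^ 2 * ∑ h ∈ Icc 1 K, |cc r (h : ℤ)| ≤ br r ^ 2 * (K * r.divisors.card) :=
          mul_le_mul_of_nonneg_left (cc_abs_sum r K) (sq_nonneg _)
      _ = _ := by ring
  calc 2 * (N : ℝ) * _ ≤ 2 * N * (K * S1 q R₀ R) := mul_le_mul_of_nonneg_left h5 (by positivity)
    _ = _ := by ring

theorem gcd_sum (R : ℕ) :
    ∑ r ∈ Icc 1 R, ∑ r' ∈ Icc 1 R, (r.gcd r' : ℝ) ≤
      (R : ℝ) ^ 2 * ∑ d ∈ Icc 1 R, 1 / (d : ℝ) := by
  have h1 : ∀ r ∈ Icc 1 R, ∀ r' ∈ Icc 1 R, (r.gcd r' : ℝ) ≤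
      ∑ d ∈ Icc 1 R, (d : ℝ) * ((if d ∣ r then 1 else 0) * (if d ∣ r' then 1 else 0)) := by
    intro r hr r' hr'
    rw [mem_Icc] at hr hr'
    have h2 : r.gcd r' ∈ Icc 1 R := by
      rw [mem_Icc]
      exact ⟨Nat.gcd_pos_of_pos_left _ (by omega),
        (Nat.gcd_le_left _ (by omega)).trans hr.2⟩
    refine le_trans (le_of_eq ?_) (single_le_sum (f := fun d : ℕ => (d : ℝ) *
      ((if d ∣ r then 1 else 0) * (if d ∣ r' then 1 else 0))) (fun d _ => ?_) h2)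
    · rw [if_pos (Nat.gcd_dvd_left _ _), if_pos (Nat.gcd_dvd_right _ _)]
      ring
    · positivity
  refine (sum_le_sum fun r hr => sum_le_sum fun r' hr' => h1 r hr r' hr').trans ?_
  have h2 : ∑ r ∈ Icc 1 R, ∑ r' ∈ Icc 1 R, ∑ d ∈ Icc 1 R,
      (d : ℝ) * ((if d ∣ r then 1 else 0) * (if d ∣ r' then 1 else 0)) =
      ∑ d ∈ Icc 1 R, (d : ℝ) * ((∑ r ∈ Icc 1 R, if d ∣ r then (1 : ℝ) else 0) *
        (∑ r' ∈ Icc 1 R, if d ∣ r' then (1 : ℝ) else 0)) := by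
    have h3 : ∀ r ∈ Icc 1 R, ∑ r' ∈ Icc 1 R, ∑ d ∈ Icc 1 R,
        (d : ℝ) * ((if d ∣ r then 1 else 0) * (if d ∣ r' then 1 else 0)) =
        ∑ d ∈ Icc 1 R, ∑ r' ∈ Icc 1 R,
          (d : ℝ) * ((if d ∣ r then 1 else 0) * (if d ∣ r' then 1 else 0)) :=
      fun r _ => sum_comm
    rw [sum_congr rfl h3, sum_comm]
    refine sum_congr rfl fun d _ => ?_
    rw [sum_mul_sum, mul_sum]
    refine sum_congr rfl fun r _ => ?_
    rw [mul_sum]
  rw [h2, mul_sum]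
  refine sum_le_sum fun d hd => ?_
  have hd0 : 0 < d := (mem_Icc.1 hd).1
  have hd1 : (0 : ℝ) < d := by exact_mod_cast hd0
  have h4 : ∑ r ∈ Icc 1 R, (if d ∣ r then (1 : ℝ) else 0) = ((R / d : ℕ) : ℝ) := by
    rw [← card_mult R d, ← sum_filter]
    simp
  have h5 : ((R / d : ℕ) : ℝ) ≤ (R : ℝ) / d := Nat.cast_div_le
  rw [h4]
  calc (d : ℝ) * (((R / d : ℕ) : ℝ) * ((R / d : ℕ) : ℝ)) ≤ d * ((R / d) * (R / d)) :=
        mul_le_mul_of_nonneg_left (mul_le_mul h5 h5 (by positivity) (by positivity)) hd1.le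
    _ = _ := by
        field_simp

theorem br_le {C ε : ℝ} (hε : 0 < ε)
    (hC : ∀ n : ℕ, 1 ≤ n → (n.divisors.card : ℝ) ≤ C * (n : ℝ) ^ ε) (hC1 : 1 ≤ C)
    {r N : ℕ} (hr : 1 ≤ r) (hN : r ≤ N) : |br r| ≤ C * (N : ℝ) ^ ε / r := by
  refine le_trans ?_ (L1rAux.inv_tot hε hC hC1 hr hN)
  have h1 : (0 : ℝ) < r.totient := by exact_mod_cast Nat.totient_pos.2 hr
  rw [br, abs_div, abs_of_pos h1]
  exact div_le_div_of_nonneg_right (CopAux.moebius_abs r) h1.le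

theorem tau_le {C ε : ℝ} (hε : 0 < ε)
    (hC : ∀ n : ℕ, 1 ≤ n → (n.divisors.card : ℝ) ≤ C * (n : ℝ) ^ ε) (hC1 : 1 ≤ C)
    {r N : ℕ} (hr : 1 ≤ r) (hN : r ≤ N) : (r.divisors.card : ℝ) ≤ C * (N : ℝ) ^ ε :=
  (hC r hr).trans (mul_le_mul_of_nonneg_left
    (Real.rpow_le_rpow (by positivity) (by exact_mod_cast hN) hε.le) (by linarith))

theorem S1_le {C ε : ℝ} (hε : 0 < ε)
    (hC : ∀ n : ℕ, 1 ≤ n → (n.divisors.card : ℝ) ≤ C * (n : ℝ) ^ ε) (hC1 : 1 ≤ C)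
    {q R₀ R N : ℕ} (h0 : 1 ≤ R₀) (hR : R₀ ≤ R) (hN : R ≤ N) :
    S1 q R₀ R ≤ (C * (N : ℝ) ^ ε) ^ 3 / R₀ := by
  set A : ℝ := C * (N : ℝ) ^ ε with hA
  have hA0 : 0 ≤ A := by positivity
  have hR0 : (0 : ℝ) < R₀ := by exact_mod_cast h0
  calc S1 q R₀ R ≤ ∑ r ∈ RS q R₀ R, A ^ 3 * ((r : ℝ) ^ 2)⁻¹ := by
        refine sum_le_sum fun r hr => ?_
        obtain ⟨a1, a2, _, _⟩ := mem_RS hr
        have h1 := br_le hε hC hC1 (show 1 ≤ r by omega) (a2.trans hN)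
        have h2 := tau_le hε hC hC1 (show 1 ≤ r by omega) (a2.trans hN)
        have hr0 : (0 : ℝ) < r := by exact_mod_cast (show 0 < r by omega)
        have h3 : br r ^ 2 ≤ (A / r) ^ 2 := by
          rw [← sq_abs (br r)]
          exact pow_le_pow_left₀ (abs_nonneg _) h1 2
        calc br r ^ 2 * (r.divisors.card : ℝ) ≤ (A / r) ^ 2 * A :=
              mul_le_mul h3 h2 (by positivity) (by positivity)
          _ = _ := by
              field_simp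
    _ ≤ ∑ r ∈ Ioc R₀ R, A ^ 3 * ((r : ℝ) ^ 2)⁻¹ :=
        sum_le_sum_of_subset_of_nonneg (filter_subset _ _) fun _ _ _ => by positivity
    _ = A ^ 3 * ∑ r ∈ Ioc R₀ R, ((r : ℝ) ^ 2)⁻¹ := (mul_sum _ _ _).symm
    _ ≤ A ^ 3 * (R₀ : ℝ)⁻¹ := by
        refine mul_le_mul_of_nonneg_left ?_ (by positivity)
        have h4 := sum_Ioc_inv_sq_le_sub (α := ℝ) (show R₀ ≠ 0 by omega) hR
        have h5 : (0 : ℝ) ≤ (R : ℝ)⁻¹ := by positivity
        linarith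
    _ = _ := by rw [div_eq_mul_inv]

theorem SB_le {C ε : ℝ} (hε : 0 < ε)
    (hC : ∀ n : ℕ, 1 ≤ n → (n.divisors.card : ℝ) ≤ C * (n : ℝ) ^ ε) (hC1 : 1 ≤ C)
    {q R₀ R N : ℕ} (h0 : 1 ≤ R) (hN : R ≤ N) :
    SB q R₀ R ≤ (C * (N : ℝ) ^ ε) ^ 4 * ((R : ℝ) ^ 2 * ((1 + 1 / ε) * (N : ℝ) ^ ε)) := by
  set A : ℝ := C * (N : ℝ) ^ ε with hA
  have hN1 : (1 : ℝ) ≤ N := by exact_mod_cast h0.trans hN
  have hA0 : 0 ≤ A := by positivity
  have h1 : ∀ r ∈ RS q R₀ R, ∀ r' ∈ RS q R₀ R, |br r| * |br r'| *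
      ((r * r' : ℝ) * (r.divisors.card * r'.divisors.card * (r.gcd r' : ℝ))) ≤
      A ^ 4 * (r.gcd r' : ℝ) := by
    intro r hr r' hr'
    obtain ⟨a1, a2, _, _⟩ := mem_RS hr
    obtain ⟨b1, b2, _, _⟩ := mem_RS hr'
    have e1 := br_le hε hC hC1 (show 1 ≤ r by omega) (a2.trans hN)
    have e2 := tau_le hε hC hC1 (show 1 ≤ r by omega) (a2.trans hN)
    have e3 := br_le hε hC hC1 (show 1 ≤ r' by omega) (b2.trans hN)
    have e4 := tau_le hε hC hC1 (show 1 ≤ r' by omega) (b2.trans hN)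
    have hr0 : (0 : ℝ) < r := by exact_mod_cast (show 0 < r by omega)
    have hr0' : (0 : ℝ) < r' := by exact_mod_cast (show 0 < r' by omega)
    have e5 : |br r| * r ≤ A := by
      rw [← le_div_iff₀ hr0]
      exact e1
    have e6 : |br r'| * r' ≤ A := by
      rw [← le_div_iff₀ hr0']
      exact e3
    calc |br r| * |br r'| *
      ((r * r' : ℝ) * (r.divisors.card * r'.divisors.card * (r.gcd r' : ℝ))) =
        ((|br r| * r) * (|br r'| * r')) * (((r.divisors.card : ℝ) * r'.divisors.card) *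
          (r.gcd r' : ℝ)) := by ring
      _ ≤ (A * A) * ((A * A) * (r.gcd r' : ℝ)) := by
        refine mul_le_mul (mul_le_mul e5 e6 (by positivity) hA0)
          (mul_le_mul_of_nonneg_right (mul_le_mul e2 e4 (by positivity) hA0) (by positivity))
          (by positivity) (by positivity)
      _ = _ := by ring
  have h2 : RS q R₀ R ⊆ Icc 1 R := by
    intro r hr
    obtain ⟨a1, a2, _, _⟩ := mem_RS hr
    exact mem_Icc.2 ⟨by omega, a2⟩
  calc SB q R₀ R ≤ ∑ r ∈ RS q R₀ R, ∑ r' ∈ RS q R₀ R, A ^ 4 * (r.gcd r' : ℝ) :=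
        sum_le_sum fun r hr => sum_le_sum fun r' hr' => h1 r hr r' hr'
    _ ≤ ∑ r ∈ Icc 1 R, ∑ r' ∈ Icc 1 R, A ^ 4 * (r.gcd r' : ℝ) := by
        refine (sum_le_sum fun r _ => sum_le_sum_of_subset_of_nonneg h2
          fun _ _ _ => by positivity).trans ?_
        exact sum_le_sum_of_subset_of_nonneg h2 fun _ _ _ => by positivity
    _ = A ^ 4 * ∑ r ∈ Icc 1 R, ∑ r' ∈ Icc 1 R, (r.gcd r' : ℝ) := by
        rw [mul_sum]
        refine sum_congr rfl fun r _ => ?_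
        rw [mul_sum]
    _ ≤ A ^ 4 * ((R : ℝ) ^ 2 * ((1 + 1 / ε) * (N : ℝ) ^ ε)) := by
        refine mul_le_mul_of_nonneg_left ((gcd_sum R).trans
          (mul_le_mul_of_nonneg_left ((L1rAux.sum_inv_le R).trans ?_) (by positivity))) (by positivity)
        have h3 : Real.log R ≤ Real.log N :=
          Real.log_le_log (by exact_mod_cast h0) (by exact_mod_cast hN)
        have h4 : Real.log N ≤ (N : ℝ) ^ ε / ε := Real.log_le_rpow_div (by linarith) hε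
        have h5 : (1 : ℝ) ≤ (N : ℝ) ^ ε := Real.one_le_rpow hN1 hε.le
        have h6 : (1 + 1 / ε) * (N : ℝ) ^ ε = (N : ℝ) ^ ε + (N : ℝ) ^ ε / ε := by ring
        rw [h6]
        linarith

end SecAux

open SecAux in
theorem sec (δ : ℝ) (hδ : 0 < δ) : ∃ C : ℝ, 0 < C ∧ ∀ N q R₀ R t₀ : ℕ, 1 ≤ q → q ≤ N →
    1 ≤ R₀ → R₀ ≤ R → R ≤ N → t₀ ∣ q → Squarefree t₀ → ∀ W : ℤ → ℝ, Wgt W N →
    ∀ E : ℝ, Quad W N q t₀ (R ^ 2) E →
      ∑ a ∈ Co q, TS W N q R₀ R a ^ 2 ≤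
        JJ q R₀ R * (N * ((t₀.totient : ℝ) / t₀) + t₀.divisors.card) +
          C * (N : ℝ) ^ δ * (N * ((N / q : ℕ) : ℝ) / R₀ + (((N / q : ℕ) : ℝ) + 1) * R ^ 2 * E) := by
  set ε : ℝ := δ / 6 with hε
  have hε0 : 0 < ε := by positivity
  obtain ⟨C, hC1, hC⟩ := divisor_bound ε hε0
  have hC0 : 0 < C := by linarith
  refine ⟨2 * C ^ 5 * (1 + 1 / ε), by positivity, ?_⟩
  intro N q R₀ R t₀ hq hqN hR0 hR hRN htq _ W hW E hQ
  have ht0 : 1 ≤ t₀ := Nat.pos_of_dvd_of_pos htq hq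
  have hE : 0 ≤ E := by
    refine le_trans (abs_nonneg _) (hQ 1 (Nat.one_mem_divisors.2 (by omega)) 0 (by simp) 1
      le_rfl (Nat.one_le_pow _ _ (by omega)) 0)
  set K : ℕ := N / q with hK
  set M : ℕ → ℤ → ℝ := fun t k =>
    (∑ r ∈ RS q R₀ R, br r ^ 2 * cc r (k * ((q / t : ℕ) : ℤ))) *
        ∑ m ∈ Icc 1 N, W ((t : ℤ) * m) * W ((t : ℤ) * m + k * q) with hM
  set D : ℝ := E * SB q R₀ R with hD
  have hN1 : (1 : ℝ) ≤ N := by exact_mod_cast hq.trans hqN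
  have hNε : (1 : ℝ) ≤ (N : ℝ) ^ ε := Real.one_le_rpow hN1 hε0.le
  have hest : ∀ t ∈ t₀.divisors, ∀ k : ℤ, k.natAbs ≤ K → |HH W N q R₀ R t k - M t k| ≤ D :=
    fun t ht k hk => HH_est hW hq htq hQ hE t ht k hk
  -- one `t`
  have hone : ∀ t ∈ t₀.divisors, (ArithmeticFunction.moebius t : ℝ) *
        (HH W N q R₀ R t 0 + ∑ h ∈ Icc 1 K,
          (HH W N q R₀ R t (h : ℤ) + HH W N q R₀ R t (-(h : ℤ)))) ≤
      (ArithmeticFunction.moebius t : ℝ) * M t 0 +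
        (2 * (N * K) * S1 q R₀ R + (2 * K + 1) * D) := by
    intro t ht
    have e0 := hest t ht 0 (by simp)
    have e1 := CopAux.moebius_abs t
    set mu : ℝ := (ArithmeticFunction.moebius t : ℝ) with hmu
    have e2 := main_sum hW q R₀ R t K ((Nat.dvd_of_mem_divisors ht).trans htq)
    have e3 : |∑ h ∈ Icc 1 K, (HH W N q R₀ R t (h : ℤ) + HH W N q R₀ R t (-(h : ℤ)))| ≤
        2 * (N * K) * S1 q R₀ R + 2 * K * D := by
      refine (abs_sum_le_sum_abs _ _).trans ?_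
      have e4 : ∀ h ∈ Icc 1 K, |HH W N q R₀ R t (h : ℤ) + HH W N q R₀ R t (-(h : ℤ))| ≤
          (|M t (h : ℤ)| + |M t (-(h : ℤ))|) + 2 * D := by
        intro h hh
        have hh1 := (mem_Icc.1 hh).2
        have a1 := hest t ht (h : ℤ) (by rw [Int.natAbs_natCast]; exact hh1)
        have a2 := hest t ht (-(h : ℤ)) (by rw [Int.natAbs_neg, Int.natAbs_natCast]; exact hh1)
        have a3 : |HH W N q R₀ R t (h : ℤ)| ≤ |M t (h : ℤ)| + D := by
          have := abs_sub_abs_le_abs_sub (HH W N q R₀ R t (h : ℤ)) (M t (h : ℤ))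
          linarith
        have a4 : |HH W N q R₀ R t (-(h : ℤ))| ≤ |M t (-(h : ℤ))| + D := by
          have := abs_sub_abs_le_abs_sub (HH W N q R₀ R t (-(h : ℤ))) (M t (-(h : ℤ)))
          linarith
        have a5 := abs_add_le (HH W N q R₀ R t (h : ℤ)) (HH W N q R₀ R t (-(h : ℤ)))
        linarith
      refine (sum_le_sum e4).trans ?_
      rw [sum_add_distrib]
      have e5 : ∑ h ∈ Icc 1 K, 2 * D = 2 * K * D := by
        rw [sum_const, Nat.card_Icc, nsmul_eq_mul, Nat.add_sub_cancel]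
        ring
      rw [e5]
      exact add_le_add e2 le_rfl
    set Z : ℝ := ∑ h ∈ Icc 1 K, (HH W N q R₀ R t (h : ℤ) + HH W N q R₀ R t (-(h : ℤ)))
    have e6 : mu * (HH W N q R₀ R t 0 - M t 0) ≤ D := by
      refine (le_abs_self _).trans ?_
      rw [abs_mul]
      calc |mu| * |HH W N q R₀ R t 0 - M t 0| ≤ 1 * |HH W N q R₀ R t 0 - M t 0| :=
            mul_le_mul_of_nonneg_right e1 (abs_nonneg _)
        _ ≤ D := by rw [one_mul]; exact e0
    have e7 : mu * Z ≤ 2 * (N * K) * S1 q R₀ R + 2 * K * D := by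
      refine (le_abs_self _).trans ?_
      rw [abs_mul]
      calc |mu| * |Z| ≤ 1 * |Z| := mul_le_mul_of_nonneg_right e1 (abs_nonneg _)
        _ ≤ _ := by rw [one_mul]; exact e3
    have e8 : mu * (HH W N q R₀ R t 0 + Z) =
        mu * M t 0 + mu * (HH W N q R₀ R t 0 - M t 0) + mu * Z := by ring
    rw [e8]
    linarith
  have hS1 := S1_le hε0 hC hC1 (q := q) hR0 hR hRN
  have hSB := SB_le hε0 hC hC1 (q := q) (R₀ := R₀) (hR0.trans hR) hRN
  have htau : (t₀.divisors.card : ℝ) ≤ C * (N : ℝ) ^ ε :=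
    tau_le hε0 hC hC1 ht0 ((Nat.le_of_dvd hq htq).trans hqN)
  set A : ℝ := C * (N : ℝ) ^ ε with hA
  have hA0 : 0 ≤ A := by positivity
  have hS10 : 0 ≤ S1 q R₀ R := sum_nonneg fun r _ => by positivity
  have hSB0 : 0 ≤ SB q R₀ R :=
    sum_nonneg fun r _ => sum_nonneg fun r' _ => by positivity
  have hD0 : 0 ≤ D := mul_nonneg hE hSB0
  refine (step_b hW q R₀ R t₀ hq htq).trans ((sum_le_sum hone).trans ?_)
  rw [sum_add_distrib]
  refine add_le_add (main_zero hW q R₀ R t₀ ht0) ?_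
  rw [sum_const, nsmul_eq_mul]
  have hR00 : (0 : ℝ) < R₀ := by exact_mod_cast hR0
  have hNδ : (N : ℝ) ^ δ = ((N : ℝ) ^ ε) ^ 6 := by
    rw [← Real.rpow_natCast, ← Real.rpow_mul (by linarith)]
    congr 1
    rw [hε]
    push_cast
    ring
  set x : ℝ := (N : ℝ) ^ ε with hx
  have f1 : (t₀.divisors.card : ℝ) * (2 * (N * K) * S1 q R₀ R) ≤
      2 * C ^ 5 * (1 + 1 / ε) * x ^ 6 * (N * K / R₀) := by
    calc (t₀.divisors.card : ℝ) * (2 * (N * K) * S1 q R₀ R) ≤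
          A * (2 * (N * K) * (A ^ 3 / R₀)) :=
          mul_le_mul htau (mul_le_mul_of_nonneg_left hS1 (by positivity)) (by positivity) hA0
      _ = 2 * (C ^ 4 * x ^ 4) * (N * K / R₀) := by
          rw [hA]
          ring
      _ ≤ 2 * ((C ^ 5 * (1 + 1 / ε)) * x ^ 6) * (N * K / R₀) := by
          have g1 : C ^ 4 ≤ C ^ 5 * (1 + 1 / ε) := by
            have g2 : C ^ 4 ≤ C ^ 5 := pow_le_pow_right₀ hC1 (by norm_num)
            have g3 : (1 : ℝ) ≤ 1 + 1 / ε := by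
              have : 0 < 1 / ε := by positivity
              linarith
            calc C ^ 4 = C ^ 4 * 1 := (mul_one _).symm
              _ ≤ C ^ 5 * (1 + 1 / ε) := mul_le_mul g2 g3 (by norm_num) (by positivity)
          have g4 : x ^ 4 ≤ x ^ 6 := pow_le_pow_right₀ hNε (by norm_num)
          have g5 : C ^ 4 * x ^ 4 ≤ (C ^ 5 * (1 + 1 / ε)) * x ^ 6 :=
            mul_le_mul g1 g4 (by positivity) (by positivity)
          have g6 : (0 : ℝ) ≤ N * K / R₀ := by positivity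
          nlinarith [mul_le_mul_of_nonneg_right g5 g6]
      _ = _ := by ring
  have f2 : (t₀.divisors.card : ℝ) * ((2 * K + 1) * D) ≤
      2 * C ^ 5 * (1 + 1 / ε) * x ^ 6 * ((K + 1) * R ^ 2 * E) := by
    have g1 : D ≤ E * (A ^ 4 * ((R : ℝ) ^ 2 * ((1 + 1 / ε) * x))) :=
      mul_le_mul_of_nonneg_left hSB hE
    have g2 : (2 * (K : ℝ) + 1) ≤ 2 * (K + 1) := by linarith
    calc (t₀.divisors.card : ℝ) * ((2 * K + 1) * D) ≤
          A * ((2 * (K + 1)) * (E * (A ^ 4 * ((R : ℝ) ^ 2 * ((1 + 1 / ε) * x))))) :=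
          mul_le_mul htau (mul_le_mul g2 g1 hD0 (by positivity)) (by positivity) hA0
      _ = _ := by
          rw [hA]
          ring
  rw [hNδ]
  calc (t₀.divisors.card : ℝ) * (2 * (N * K) * S1 q R₀ R + (2 * K + 1) * D) =
        (t₀.divisors.card : ℝ) * (2 * (N * K) * S1 q R₀ R) +
          (t₀.divisors.card : ℝ) * ((2 * K + 1) * D) := by ring
    _ ≤ _ := add_le_add f1 f2
    _ = _ := by ring

end Pool.Agent.M848.SV
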