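import Pool.Agent.Lib.MP_848d44_nt.SV.FinB
import Pool.Agent.Lib.MP_848d44_nt.SV.FinE
import Pool.Agent.Lib.MP_848d44_nt.SV.Sec
import Pool.Agent.Lib.MP_848d44_nt.SV.Mean
import Pool.Agent.Lib.MP_848d44_nt.SV.Diag
import Pool.Agent.Lib.MP_848d44_nt.SV.Pntw
import Pool.Agent.Lib.MP_848d44_nt.SV.OffA
import Pool.Agent.Lib.MP_848d44_nt.SV.OffB
import Pool.Agent.Lib.MP_848d44_nt.SV.Qbv
import Pool.Agent.Lib.MP_848d44_nt.SV.Jlow

set_option autoImplicit false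

/-!
# MP_848d44_nt, project SV: the lower bound for the variance in terms of `R₀` and `R`
-/

noncomputable section

namespace Pool.Agent.M848.SV

open Finset Filter Pool.Agent.M848 Pool.Agent.M848.FC
open scoped ArithmeticFunction.vonMangoldt ComplexConjugate

theorem offexp (δ : ℝ) (hδ : 0 < δ) : ∃ C : ℝ, 0 < C ∧ ∀ N q R₀ R : ℕ, 1 ≤ q → q ≤ N →
    1 ≤ R → R ≤ N → ∀ W : ℤ → ℝ, Wgt W N →
      ‖((A1 W N q R₀ R - Dg W N q R₀ R : ℝ) : ℂ) -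
          (MainS W N q R₀ R 1 + MainS W N q R₀ R (-1))‖ ≤
        C * (N : ℝ) ^ δ * ((((N / q : ℕ) : ℝ) + 1) * R) := by
  obtain ⟨Ca, hCa, ha⟩ := off_a δ hδ
  obtain ⟨Cb, hCb, hb⟩ := off_b δ hδ
  refine ⟨Ca + 2 * Cb, by positivity, ?_⟩
  intro N q R₀ R hq hqN hR hRN W hW
  have h1 := ha N q R₀ R hq hqN hR hRN W hW
  have h2 := hb N q R₀ R hq hqN hR hRN W hW 1 (Or.inl rfl)
  have h3 := hb N q R₀ R hq hqN hR hRN W hW (-1) (Or.inr rfl)
  have h1' : ‖((A1 W N q R₀ R - Dg W N q R₀ R -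
      (OA W N q R₀ R 1 + OA W N q R₀ R (-1)) : ℝ) : ℂ)‖ ≤
      Ca * (N : ℝ) ^ δ * ((((N / q : ℕ) : ℝ) + 1) * R) := by
    rw [Complex.norm_real, Real.norm_eq_abs]
    exact h1
  have e : ((A1 W N q R₀ R - Dg W N q R₀ R : ℝ) : ℂ) -
      (MainS W N q R₀ R 1 + MainS W N q R₀ R (-1)) =
      ((A1 W N q R₀ R - Dg W N q R₀ R - (OA W N q R₀ R 1 + OA W N q R₀ R (-1)) : ℝ) : ℂ) +
      ((((OA W N q R₀ R 1 : ℝ) : ℂ) - MainS W N q R₀ R 1) +
        (((OA W N q R₀ R (-1) : ℝ) : ℂ) - MainS W N q R₀ R (-1))) := by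
    push_cast
    ring
  rw [e]
  refine (norm_add_le _ _).trans ((add_le_add h1' ((norm_add_le _ _).trans
    (add_le_add h2 h3))).trans (le_of_eq ?_))
  ring

theorem spl_wgt (N h : ℕ) (hh : 1 ≤ h) : Wgt (spl 1 ((N : ℤ) - h) h 1) N := by
  refine ⟨fun m => spl_nonneg _ _ _ _ m, fun m => spl_le_one _ _ _ _ m, fun m hm => ?_⟩
  have h1 := spl_supp 1 ((N : ℤ) - h) h 1 hh m hm
  refine ⟨h1.1, ?_⟩
  have h2 := h1.2
  push_cast at h2
  linarith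

theorem gen_err (N K R R₀ u lam Co' CM C₃ H Cd Cm Cs C₂ CJ J τ φ : ℝ) (hN0 : 0 < N) (hu : 1 ≤ u)
    (hφ : 0 < φ) (hK0 : 0 ≤ K) (hR1 : 1 ≤ R) (hR₀0 : 0 < R₀) (hlam0 : 0 < lam) (hCo : 0 < Co')
    (hCM0 : 0 < CM) (hC₃0 : 0 < C₃) (hH0 : 0 < H) (hCd : 0 < Cd) (hCm : 0 < Cm) (hCs : 0 < Cs)
    (hC₂0 : 0 < C₂) (hCJ : 0 < CJ) (hJ0 : 0 ≤ J) (hτ0 : 0 ≤ τ)
    (hlamC : lam ≤ C₂ * u) (hτ : τ ≤ C₂ * u) (hJu : J ≤ CJ * u)
    (hφK : 2 * N / φ ≤ 2 * (K + 1) * lam)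
    (hb1 : (K + 1) * R * u ^ 30 ≤ N) (hbig : (K + 1) * R ^ 2 * u ^ 30 ≤ N) (hu5 : u ^ 5 ≤ N)
    (hK : K * u ^ 20 ≤ R₀) :
    (2 * lam * (Co' * u * ((K + 1) * R) +
      2 * (CM * C₃ ^ 2 * (2 * H + 1) * N / u ^ 2) + Cd * u * R +
      2 * N / φ * (Cm * u * R)) +
      lam ^ 2 * (J * τ + Cs * u * (N * K / R₀ + (K + 1) * R ^ 2 * 8))) * u ≤
      (2 * C₂ * (Co' + 2 * (CM * C₃ ^ 2 * (2 * H + 1)) + Cd + 2 * C₂ * Cm) +
        C₂ ^ 2 * (CJ * C₂ + 9 * Cs)) * N := by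
  have hu0 : 0 < u := by linarith
  have hpu : ∀ a b : ℕ, a ≤ b → u ^ a ≤ u ^ b := fun a b h => pow_le_pow_right₀ hu h
  have t1 : lam * (Co' * u * ((K + 1) * R)) * u ≤ C₂ * Co' * N := by
    calc _ ≤ (C₂ * u) * (Co' * u * ((K + 1) * R)) * u := by gcongr
      _ = C₂ * Co' * ((K + 1) * R * u ^ 3) := by ring
      _ ≤ C₂ * Co' * ((K + 1) * R * u ^ 30) := by
          have := hpu 3 30 (by norm_num)
          gcongr
      _ ≤ _ := by gcongr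
  have t2 : lam * (CM * C₃ ^ 2 * (2 * H + 1) * N / u ^ 2) * u ≤
      C₂ * (CM * C₃ ^ 2 * (2 * H + 1)) * N := by
    calc _ ≤ (C₂ * u) * (CM * C₃ ^ 2 * (2 * H + 1) * N / u ^ 2) * u := by gcongr
      _ = _ := by field_simp
  have t3 : lam * (Cd * u * R) * u ≤ C₂ * Cd * N := by
    calc _ ≤ (C₂ * u) * (Cd * u * R) * u := by gcongr
      _ = C₂ * Cd * (1 * R * u ^ 3) := by ring
      _ ≤ C₂ * Cd * ((K + 1) * R * u ^ 30) := by
          have := hpu 3 30 (by norm_num)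
          have h1 : 1 ≤ K + 1 := by linarith
          gcongr
      _ ≤ _ := by gcongr
  have t4 : lam * (2 * N / φ * (Cm * u * R)) * u ≤ C₂ * (2 * C₂ * Cm) * N := by
    calc _ ≤ (C₂ * u) * (2 * (K + 1) * (C₂ * u) * (Cm * u * R)) * u := by
          have h1 : 2 * N / φ ≤ 2 * (K + 1) * (C₂ * u) :=
            hφK.trans (mul_le_mul_of_nonneg_left hlamC (by positivity))
          gcongr
      _ = C₂ * (2 * C₂ * Cm) * ((K + 1) * R * u ^ 4) := by ring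
      _ ≤ C₂ * (2 * C₂ * Cm) * ((K + 1) * R * u ^ 30) := by
          have := hpu 4 30 (by norm_num)
          gcongr
      _ ≤ _ := by gcongr
  have t5 : lam ^ 2 * (J * τ) * u ≤ C₂ ^ 2 * (CJ * C₂) * N := by
    calc _ ≤ (C₂ * u) ^ 2 * ((CJ * u) * (C₂ * u)) * u := by gcongr
      _ = C₂ ^ 2 * (CJ * C₂) * u ^ 5 := by ring
      _ ≤ _ := by gcongr
  have t6 : lam ^ 2 * (Cs * u * (N * K / R₀ + (K + 1) * R ^ 2 * 8)) * u ≤
      C₂ ^ 2 * (9 * Cs) * N := by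
    have h3 : N * K / R₀ * u ^ 4 ≤ N := by
      have h4 : K * u ^ 4 / R₀ ≤ 1 := by
        rw [div_le_one hR₀0]
        refine le_trans ?_ hK
        have := hpu 4 20 (by norm_num)
        gcongr
      calc N * K / R₀ * u ^ 4 = N * (K * u ^ 4 / R₀) := by ring
        _ ≤ N * 1 := by gcongr
        _ = N := mul_one _
    have h4 : (K + 1) * R ^ 2 * 8 * u ^ 4 ≤ 8 * N := by
      calc (K + 1) * R ^ 2 * 8 * u ^ 4 = 8 * ((K + 1) * R ^ 2 * u ^ 4) := by ring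
        _ ≤ 8 * ((K + 1) * R ^ 2 * u ^ 30) := by
            have := hpu 4 30 (by norm_num)
            gcongr
        _ ≤ 8 * N := by gcongr
    calc _ ≤ (C₂ * u) ^ 2 * (Cs * u * (N * K / R₀ + (K + 1) * R ^ 2 * 8)) * u := by gcongr
      _ = C₂ ^ 2 * Cs * (N * K / R₀ * u ^ 4 + (K + 1) * R ^ 2 * 8 * u ^ 4) := by ring
      _ ≤ C₂ ^ 2 * Cs * (N + 8 * N) := by gcongr
      _ = _ := by ring
  linarith [t1, t2, t3, t4, t5, t6]

theorem gen (κ C₃ ε' : ℝ) (hκ : 0 < κ) (hκ1 : κ ≤ 1 / 10) (hε : 0 < ε') (hε1 : ε' ≤ 1) :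
    ∃ N₀ : ℕ, ∀ N : ℕ, N₀ ≤ N →
    ∀ (q R₀ R : ℕ) (m : ℝ), Szs N q R₀ R ((N : ℝ) ^ κ) m C₃ → R₀ ≤ R →
      (((N / q : ℕ) : ℝ) + 1) * (R : ℝ) ^ 2 * ((N : ℝ) ^ κ) ^ 30 ≤ N →
      ∀ Y : ℝ, N * (Real.log R - Real.log R₀ - ε' * Real.log N) ≤ VV N q Y := by
  set η : ℝ := ε' / 16 with hη
  have hη0 : 0 < η := by positivity
  have hη1 : η ≤ 1 / 16 := by rw [hη]; linarith
  obtain ⟨Co', hCo, ho⟩ := offexp κ hκ
  obtain ⟨Cs, hCs, hs⟩ := sec κ hκ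
  obtain ⟨Cm, hCm, hm⟩ := mean_T κ hκ
  obtain ⟨Cd, hCd, hd⟩ := diag_one κ hκ
  obtain ⟨CM, hCM, hM⟩ := mainS_bound κ hκ
  obtain ⟨CJ, hCJ, hJ⟩ := JJ_le κ hκ
  obtain ⟨C₂, hC₂, h2⟩ := divisor_bound κ hκ
  obtain ⟨N₁, hN₁⟩ := pnt_w η hη0
  obtain ⟨N₂, hN₂⟩ := psi_le
  obtain ⟨N₃, hN₃⟩ := JJ_lower η hη0
  set H : ℝ := 2 / η with hH
  have hH0 : 0 < H := by positivity
  set C' : ℝ := 2 * C₂ * (Co' + 2 * (CM * C₃ ^ 2 * (2 * H + 1)) + Cd + 2 * C₂ * Cm) +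
    C₂ ^ 2 * (CJ * C₂ + 9 * Cs) with hC'
  -- large N
  have htend : Tendsto (fun N : ℕ => (N : ℝ) ^ κ) atTop atTop :=
    (tendsto_rpow_atTop hκ).comp tendsto_natCast_atTop_atTop
  have hlogt : Tendsto (fun N : ℕ => Real.log (N : ℝ)) atTop atTop :=
    Real.tendsto_log_atTop.comp tendsto_natCast_atTop_atTop
  obtain ⟨N₄, hN₄⟩ := Filter.eventually_atTop.1 (hlogt.eventually_ge_atTop (C' / η))
  obtain ⟨N₅, hN₅⟩ := Filter.eventually_atTop.1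
    ((tendsto_natCast_atTop_atTop (R := ℝ)).eventually_ge_atTop (2 / η))
  refine ⟨max 1 (max N₁ (max N₂ (max N₃ (max N₄ N₅)))), ?_⟩
  intro N hN q R₀ R m hS hR₀R hbig Y
  have hNN : N₁ ≤ N ∧ N₂ ≤ N ∧ N₃ ≤ N ∧ N₄ ≤ N ∧ N₅ ≤ N := by
    simp only [max_le_iff] at hN
    tauto
  have hS' := hS
  set u : ℝ := (N : ℝ) ^ κ with hudef
  obtain ⟨hu2, hum, hNm, hN56, hN34, hlog, hC₃, hN1, hq, hqN, hR₀, hR, hRN, hK, hcase⟩ := hS
  have hu : 1 ≤ u := by linarith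
  have hu0 : 0 < u := by linarith
  have hN0 : (0 : ℝ) < N := by exact_mod_cast hN1
  have hN1' : (1 : ℝ) ≤ N := by exact_mod_cast hN1
  have hL4 := hN₄ N hNN.2.2.2.1
  have hL5 := hN₅ N hNN.2.2.2.2
  -- the weight
  set h : ℕ := ⌊η * N⌋₊ with hhdef
  have hηN : 2 ≤ η * N := by
    have h3 := (div_le_iff₀ hη0).1 hL5
    linarith
  have hh1 : 1 ≤ h := by
    rw [hhdef]
    exact Nat.le_floor (by push_cast; linarith)
  have hh2 : (h : ℝ) ≤ η * N := Nat.floor_le (by positivity)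
  have hh3 : η * N / 2 ≤ h := by
    have := Nat.lt_floor_add_one (η * N)
    rw [← hhdef] at this
    linarith
  have hNH : (N : ℝ) ≤ H * h := by
    calc (N : ℝ) = H * (η * N / 2) := by rw [hH]; field_simp
      _ ≤ H * h := by gcongr
  set W := spl 1 ((N : ℤ) - h) h 1 with hWdef
  have hW := spl_wgt N h hh1
  rw [← hWdef] at hW
  have htv : TV2 W := spl_tv _ _ _ _ hh1
  have hψ := hN₂ N hNN.2.1
  have hWs : (1 - 3 * η) * N ≤ ∑ n ∈ Icc 1 N, (Λ n : ℝ) * W (n : ℤ) := by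
    refine hN₁ N hNN.1 W hW fun m h1 h2 => ?_
    refine spl_eq_one _ _ _ _ hh1 m ?_ ?_
    · have : (h : ℝ) ≤ m := hh2.trans h1
      have h3 : (h : ℤ) ≤ m := by exact_mod_cast this
      push_cast
      linarith
    · have : (m : ℝ) ≤ N - h := by linarith
      have h3 : (m : ℤ) ≤ (N : ℤ) - h := by exact_mod_cast this
      exact h3
  -- the modules
  have e1 := ho N q R₀ R hq hqN hR hRN W hW
  have e2 : ∀ σ : ℤ, (σ = 1 ∨ σ = -1) → ‖MainS W N q R₀ R σ‖ ≤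
      CM * C₃ ^ 2 * (2 * H + 1) * N / u ^ 2 := by
    intro σ hσ
    have h3 := hM N q R₀ R m C₃ hS' 1 ((N : ℤ) - h) h 0 H hh1 hH0.le hNH hW hψ σ hσ
    rw [le_div_iff₀ (by positivity)]
    exact h3
  have e3 := hd N q R₀ R hq hqN hR hRN W hW
  have e4 := hm N q R₀ R hq hqN hR₀ hR hRN W hW htv
  have e5 := hs N q R₀ R (rd q) hq hqN hR₀ hR₀R hRN (rd_dvd q) (rd_sf q) W hW 8
    (qbv W N q (rd q) (R ^ 2) hW htv)
  rw [rd_tot q hq] at e5
  rw [← hudef] at e1 e3 e4 e5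
  have key := master N q R₀ R hq W η _ _ _ _ _ _ hψ hWs e1 (e2 1 (Or.inl rfl))
    (e2 (-1) (Or.inr rfl)) e3 e4 e5 Y
  -- sizes
  have hφ : (0 : ℝ) < q.totient := by exact_mod_cast Nat.totient_pos.2 hq
  have hq0 : (0 : ℝ) < q := by exact_mod_cast hq
  set lam : ℝ := (q : ℝ) / q.totient with hlam
  have hlam0 : 0 < lam := div_pos hq0 hφ
  have hpow : ∀ n : ℕ, 1 ≤ n → n ≤ N → (n.divisors.card : ℝ) ≤ C₂ * u := by
    intro n hn hnN
    refine (h2 n hn).trans ?_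
    have : (n : ℝ) ^ κ ≤ (N : ℝ) ^ κ :=
      Real.rpow_le_rpow (Nat.cast_nonneg _) (by exact_mod_cast hnN) hκ.le
    rw [hudef]
    gcongr
  have hlamC : lam ≤ C₂ * u := by
    have h3 := Pool.Agent.M848.totient_lower q
    rw [hlam, div_le_iff₀ hφ]
    exact h3.trans (mul_le_mul_of_nonneg_right (hpow q hq hqN) hφ.le)
  have hτ : ((rd q).divisors.card : ℝ) ≤ C₂ * u :=
    hpow _ (rd_pos q) ((Nat.le_of_dvd hq (rd_dvd q)).trans hqN)
  have hτ0 : (0 : ℝ) ≤ (rd q).divisors.card := Nat.cast_nonneg _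
  have hJu := hJ N q R₀ R hN1 hRN
  rw [← hudef] at hJu
  have hJ0 := JJ_nonneg q R₀ R
  set J := JJ q R₀ R with hJdef
  set K : ℝ := ((N / q : ℕ) : ℝ) with hKdef
  have hK0 : 0 ≤ K := Nat.cast_nonneg _
  have hR1 : (1 : ℝ) ≤ R := by exact_mod_cast hR
  have hR₀0 : (0 : ℝ) < R₀ := by exact_mod_cast hR₀
  have hC₃0 : 0 < C₃ := by linarith
  have hC₂0 : 0 < C₂ := by linarith
  have hCM0 : 0 < CM := by linarith
  have hpu : ∀ a b : ℕ, a ≤ b → u ^ a ≤ u ^ b := fun a b h => pow_le_pow_right₀ hu h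
  -- `(K + 1) R u^30 ≤ N`
  have hb1 : (K + 1) * R * u ^ 30 ≤ N := by
    refine le_trans ?_ hbig
    have : (R : ℝ) ≤ (R : ℝ) ^ 2 := le_self_pow₀ hR1 (by norm_num)
    gcongr
  have hb0 : 0 ≤ (K + 1) * R := by positivity
  have hNq : (N : ℝ) / q ≤ K + 1 := by
    rw [div_le_iff₀ hq0, hKdef]
    have h3 : N < (N / q + 1) * q := by
      rw [mul_comm]
      exact Nat.lt_mul_div_succ N hq
    have : (N : ℝ) < ((N / q : ℕ) + 1) * q := by exact_mod_cast h3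
    linarith
  -- the error
  have hu5 : u ^ 5 ≤ N := by
    have h4 : u ^ 5 = (N : ℝ) ^ (κ * 5) := by
      rw [hudef, ← Real.rpow_natCast, ← Real.rpow_mul hN0.le]
      norm_num
    rw [h4]
    calc (N : ℝ) ^ (κ * 5) ≤ (N : ℝ) ^ (1 : ℝ) :=
          Real.rpow_le_rpow_of_exponent_le hN1' (by linarith)
      _ = N := Real.rpow_one _
  have hφK : 2 * (N : ℝ) / q.totient ≤ 2 * (K + 1) * lam := by
    have h3 : 2 * (N : ℝ) / q.totient = 2 * (N / q) * lam := by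
      rw [hlam]
      field_simp
    rw [h3]
    gcongr
  have herr := gen_err N K R R₀ u lam Co' CM C₃ H Cd Cm Cs C₂ CJ J _ _ hN0 hu hφ hK0 hR1 hR₀0
    hlam0 hCo hCM0 hC₃0 hH0 hCd hCm hCs hC₂0 (by linarith) hJ0 hτ0 hlamC hτ hJu hφK hb1 hbig hu5 hK
  rw [← hC'] at herr
  -- conclusion
  have hlogN : 0 ≤ Real.log N := Real.log_natCast_nonneg N
  have hJl := hN₃ N hNN.2.2.1 q R₀ R hq hqN hR₀ hR₀R hRN
  have hℓ : Real.log R - Real.log R₀ - η * Real.log N ≤ lam * J := by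
    have h3 : lam * ((q.totient : ℝ) / q) = 1 := by
      rw [hlam]
      field_simp
    calc Real.log R - Real.log R₀ - η * Real.log N =
        lam * ((q.totient : ℝ) / q * (Real.log R - Real.log R₀ - η * Real.log N)) := by
          rw [← mul_assoc, h3, one_mul]
      _ ≤ lam * J := mul_le_mul_of_nonneg_left hJl hlam0.le
  set Err := 2 * lam * (Co' * u * ((K + 1) * R) +
      2 * (CM * C₃ ^ 2 * (2 * H + 1) * N / u ^ 2) + Cd * u * R +
      2 * N / q.totient * (Cm * u * R)) +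
      lam ^ 2 * (J * (rd q).divisors.card + Cs * u * (N * K / R₀ + (K + 1) * R ^ 2 * 8)) with hErr
  have hErr0 : 0 ≤ Err := by positivity
  have hErr2 : Err ≤ η * Real.log N * N := by
    have h3 : Err ≤ Err * u := le_mul_of_one_le_right hErr0 hu
    have h4 : C' ≤ η * Real.log N := by
      have h5 := (div_le_iff₀ hη0).1 hL4
      linarith
    calc Err ≤ Err * u := h3
      _ ≤ C' * N := herr
      _ ≤ _ := by gcongr
  have hR₀log : 0 ≤ Real.log R₀ := Real.log_natCast_nonneg R₀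
  have hRlog : Real.log R ≤ Real.log N :=
    Real.log_le_log (by positivity) (by exact_mod_cast hRN)
  have hmain : (Real.log R - Real.log R₀ - 7 * η * Real.log N) ≤ (1 - 6 * η) * (lam * J) := by
    have h3 : 0 ≤ 1 - 6 * η := by linarith
    have h4 := mul_le_mul_of_nonneg_left hℓ h3
    have h5 : Real.log R - Real.log R₀ - η * Real.log N ≤ Real.log N := by
      have : 0 ≤ η * Real.log N := by positivity
      linarith
    have h6 : 6 * η * (Real.log R - Real.log R₀ - η * Real.log N) ≤ 6 * η * Real.log N := by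
      gcongr
    linarith
  have hfin : N * (Real.log R - Real.log R₀ - 7 * η * Real.log N) ≤
      (1 - 6 * η) * (lam * J) * N := by
    rw [mul_comm (N : ℝ)]
    exact mul_le_mul_of_nonneg_right hmain hN0.le
  have h8 : N * (Real.log R - Real.log R₀ - ε' * Real.log N) ≤
      N * (Real.log R - Real.log R₀ - 7 * η * Real.log N) - η * Real.log N * N := by
    have h9 : ε' = 16 * η := by rw [hη]; ring
    rw [h9]
    have h10 : 0 ≤ η * Real.log N * N := by positivity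
    have h11 : (N : ℝ) * (Real.log R - Real.log R₀ - 16 * η * Real.log N) =
        N * (Real.log R - Real.log R₀ - 7 * η * Real.log N) - 9 * (η * Real.log N * N) := by ring
    rw [h11]
    linarith
  linarith [key]

end Pool.Agent.M848.SV
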