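import Pool.Agent.Lib.MP_848d44_nt.SV.FinF

set_option autoImplicit false

/-!
# MP_848d44_nt, project SV: the sharp lower bounds, for integers `N` and for real `x`
-/

noncomputable section

namespace Pool.Agent.M848.SV

open Finset Filter Pool.Agent.M848 Pool.Agent.M848.FC
open scoped ArithmeticFunction.vonMangoldt ComplexConjugate

theorem core (ε : ℝ) (hε : 0 < ε) (hε1 : ε ≤ 1 / 100) :
    ∃ N₀ : ℕ, ∀ N : ℕ, N₀ ≤ N → ∀ q : ℕ, 1 ≤ q → q ≤ N → ∀ T : ℝ,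
      4 * ((N : ℝ) / q) * (N : ℝ) ^ (2 * ε / 5) ≤ T → T ^ 2 ≤ q →
      (T ≤ (N : ℝ) ^ ((1 : ℝ) / 3) ∨ (N : ℝ) ^ ((3 : ℝ) / 4 + ε) ≤ q) → ∀ Y : ℝ,
      N * (Real.log T + Real.log q - Real.log N - 3 / 4 * ε * Real.log N) ≤ VV N q Y := by
  set κ : ℝ := ε / 100 with hκ
  have hκ0 : 0 < κ := by positivity
  have hκ1 : κ ≤ 1 / 10 := by rw [hκ]; linarith
  obtain ⟨C₃, hC₃, h3⟩ := log_pow κ hκ0
  obtain ⟨N₁, hN₁⟩ := gen κ C₃ (ε / 4) hκ0 hκ1 (by positivity) (by linarith)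
  have htend : Tendsto (fun N : ℕ => (N : ℝ) ^ κ) atTop atTop :=
    (tendsto_rpow_atTop hκ0).comp tendsto_natCast_atTop_atTop
  have hlogt : Tendsto (fun N : ℕ => Real.log (N : ℝ)) atTop atTop :=
    Real.tendsto_log_atTop.comp tendsto_natCast_atTop_atTop
  obtain ⟨N₂, hN₂⟩ := Filter.eventually_atTop.1 (htend.eventually_ge_atTop 2)
  obtain ⟨N₃, hN₃⟩ := Filter.eventually_atTop.1 (hlogt.eventually_ge_atTop (20 / ε))
  refine ⟨max 1 (max N₁ (max N₂ N₃)), ?_⟩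
  intro N hN q hq hqN T hT4 hT2 hT Y
  have hNN : 1 ≤ N ∧ N₁ ≤ N ∧ N₂ ≤ N ∧ N₃ ≤ N := by
    simp only [max_le_iff] at hN
    tauto
  have hN1 : 1 ≤ N := hNN.1
  have hN1' : (1 : ℝ) ≤ N := by exact_mod_cast hN1
  have hN0 : (0 : ℝ) < N := by linarith
  have hq0 : (0 : ℝ) < q := by exact_mod_cast hq
  have hqN' : (q : ℝ) ≤ N := by exact_mod_cast hqN
  have hu2 : 2 ≤ (N : ℝ) ^ κ := hN₂ N hNN.2.2.1
  have hL : 20 / ε ≤ Real.log N := hN₃ N hNN.2.2.2
  have hL20 : 20 ≤ Real.log N * ε := (div_le_iff₀ hε).1 hL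
  set u : ℝ := (N : ℝ) ^ κ with hudef
  have hu1 : 1 ≤ u := by linarith
  have hu0 : 0 < u := by linarith
  have hup : ∀ j : ℕ, u ^ j = (N : ℝ) ^ (κ * j) := by
    intro j
    rw [hudef, ← Real.rpow_natCast, ← Real.rpow_mul hN0.le]
  set m : ℝ := (N : ℝ) ^ ((1 : ℝ) / 12) with hm
  have hmp : ∀ j : ℕ, m ^ j = (N : ℝ) ^ ((1 : ℝ) / 12 * j) := by
    intro j
    rw [hm, ← Real.rpow_natCast, ← Real.rpow_mul hN0.le]
  have hmono : ∀ a b : ℝ, a ≤ b → (N : ℝ) ^ a ≤ (N : ℝ) ^ b := fun a b h =>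
    Real.rpow_le_rpow_of_exponent_le hN1' h
  have hm12 : m ^ 12 = N := by rw [hmp]; norm_num
  have hm3 : m ^ 3 = (N : ℝ) ^ ((1 : ℝ) / 4) := by rw [hmp]; norm_num
  have hm4 : m ^ 4 = (N : ℝ) ^ ((1 : ℝ) / 3) := by rw [hmp]; norm_num
  have hm10 : m ^ 10 = (N : ℝ) ^ ((5 : ℝ) / 6) := by rw [hmp]; norm_num
  have hm9 : m ^ 9 = (N : ℝ) ^ ((3 : ℝ) / 4) := by rw [hmp]; norm_num
  have hu40 : u ^ 40 = (N : ℝ) ^ (2 * ε / 5) := by
    rw [hup, hκ]
    congr 1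
    push_cast
    ring
  have hu100 : u ^ 100 = (N : ℝ) ^ ε := by
    rw [hup, hκ]
    congr 1
    push_cast
    ring
  -- the parameters
  set K : ℕ := N / q with hK
  have hK1 : 1 ≤ K := (Nat.one_le_div_iff hq).2 hqN
  have hK1' : (1 : ℝ) ≤ K := by exact_mod_cast hK1
  have hKle : (K : ℝ) ≤ (N : ℝ) / q := Nat.cast_div_le
  have hKq : (K : ℝ) * q ≤ N := by
    have := Nat.div_mul_le_self N q
    exact_mod_cast this
  set P : ℕ := ⌈u ^ 20⌉₊ with hP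
  have hu20 : 1 ≤ u ^ 20 := one_le_pow₀ hu1
  have hP1 : u ^ 20 ≤ P := Nat.le_ceil _
  have hP2 : (P : ℝ) ≤ 2 * u ^ 20 := by
    have := Nat.ceil_lt_add_one (by positivity : 0 ≤ u ^ 20)
    rw [← hP] at this
    linarith
  have hP0 : 1 ≤ P := by
    have : (1 : ℝ) ≤ P := hu20.trans hP1
    exact_mod_cast this
  set R₀ : ℕ := K * P with hR₀
  set R : ℕ := ⌊T / u ^ 20⌋₊ with hR
  have hT40 : 4 * (K : ℝ) * u ^ 40 ≤ T := by
    rw [hu40]
    refine le_trans ?_ hT4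
    gcongr
  have hT0 : 0 < T := lt_of_lt_of_le (by positivity) hT40
  have hT20 : 4 * (K : ℝ) * u ^ 20 ≤ T / u ^ 20 := by
    rw [le_div_iff₀ (by positivity)]
    calc 4 * (K : ℝ) * u ^ 20 * u ^ 20 = 4 * (K : ℝ) * u ^ 40 := by ring
      _ ≤ T := hT40
  have hTu1 : 1 ≤ T / u ^ 20 := by
    refine le_trans ?_ hT20
    nlinarith
  have hRle : (R : ℝ) ≤ T / u ^ 20 := Nat.floor_le (by positivity)
  have hRge : T / u ^ 20 / 2 ≤ R := by
    have := Nat.lt_floor_add_one (T / u ^ 20)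
    rw [← hR] at this
    rcases le_or_gt (T / u ^ 20) 2 with h | h
    · have h1 : 1 ≤ R := by
        rw [hR]
        exact Nat.le_floor (by push_cast; exact hTu1)
      have h2 : (1 : ℝ) ≤ R := by exact_mod_cast h1
      linarith
    · linarith
  have hR1 : 1 ≤ R := by
    rw [hR]
    exact Nat.le_floor (by push_cast; exact hTu1)
  have hR1' : (1 : ℝ) ≤ R := by exact_mod_cast hR1
  have hR₀1 : 1 ≤ R₀ := Nat.mul_pos hK1 hP0
  have hR₀le : (R₀ : ℝ) ≤ 2 * (K : ℝ) * u ^ 20 := by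
    rw [hR₀]
    push_cast
    nlinarith
  have hR₀R : R₀ ≤ R := by
    have : (R₀ : ℝ) ≤ R := by linarith
    exact_mod_cast this
  have hRu : (R : ℝ) * u ^ 20 ≤ T := (le_div_iff₀ (by positivity)).1 hRle
  have hRT : (R : ℝ) ≤ T := by
    refine le_trans ?_ hRu
    nlinarith
  have hTq : T ≤ q := by
    have : 1 ≤ T := hR1'.trans hRT
    nlinarith
  have hRN : R ≤ N := by
    have : (R : ℝ) ≤ N := hRT.trans (hTq.trans hqN')
    exact_mod_cast this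
  have hR2 : (R : ℝ) ^ 2 * u ^ 40 ≤ q := by
    calc (R : ℝ) ^ 2 * u ^ 40 = ((R : ℝ) * u ^ 20) ^ 2 := by ring
      _ ≤ T ^ 2 := by gcongr
      _ ≤ q := hT2
  have hKR2 : (K : ℝ) * (R : ℝ) ^ 2 * u ^ 40 ≤ N := by
    calc (K : ℝ) * (R : ℝ) ^ 2 * u ^ 40 = (K : ℝ) * ((R : ℝ) ^ 2 * u ^ 40) := by ring
      _ ≤ (K : ℝ) * (q : ℝ) := by gcongr
      _ ≤ (N : ℝ) := hKq
  have hS : Szs N q R₀ R u m C₃ := by
    refine ⟨hu2, ?_, hm12.symm, hm10.symm, hm9.symm, h3 N hN1, hC₃, hN1, hq, hqN, hR₀1, hR1, hRN,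
      ?_, ?_⟩
    · rw [hup, hm]
      refine hmono _ _ ?_
      rw [hκ]
      push_cast
      linarith
    · rw [hR₀]
      push_cast
      gcongr
    · rcases hT with h | h
      · left
        rw [hm4]
        exact hRu.trans h
      · right
        refine ⟨?_, ?_⟩
        · rw [hu100, hm3]
          have h4 : (N : ℝ) / q ≤ (N : ℝ) ^ ((1 : ℝ) / 4 - ε) := by
            rw [div_le_iff₀ hq0]
            calc (N : ℝ) = (N : ℝ) ^ ((1 : ℝ) / 4 - ε) * (N : ℝ) ^ ((3 : ℝ) / 4 + ε) := by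
                  rw [← Real.rpow_add hN0]
                  norm_num
              _ ≤ _ := by gcongr
          calc (K : ℝ) * (N : ℝ) ^ ε ≤ (N : ℝ) ^ ((1 : ℝ) / 4 - ε) * (N : ℝ) ^ ε := by
                gcongr
                exact hKle.trans h4
            _ = (N : ℝ) ^ ((1 : ℝ) / 4) := by
                rw [← Real.rpow_add hN0]
                norm_num
        · rw [hm12]
          exact hKR2
  have hbig : (((N / q : ℕ) : ℝ) + 1) * (R : ℝ) ^ 2 * u ^ 30 ≤ N := by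
    have h4 : (1024 : ℝ) ≤ u ^ 10 := by
      calc (1024 : ℝ) = 2 ^ 10 := by norm_num
        _ ≤ u ^ 10 := by gcongr
    calc (((N / q : ℕ) : ℝ) + 1) * (R : ℝ) ^ 2 * u ^ 30 ≤ (2 * (K : ℝ)) * (R : ℝ) ^ 2 * u ^ 30 := by
          gcongr
          linarith
      _ ≤ (u ^ 10 * (K : ℝ)) * (R : ℝ) ^ 2 * u ^ 30 := by
          gcongr
          linarith
      _ = (K : ℝ) * (R : ℝ) ^ 2 * u ^ 40 := by ring
      _ ≤ N := hKR2
  have key := hN₁ N hNN.2.1 q R₀ R m hS hR₀R hbig Y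
  refine le_trans ?_ key
  refine mul_le_mul_of_nonneg_left ?_ hN0.le
  -- the logarithms
  have hlogu : Real.log u = κ * Real.log N := by
    rw [hudef, Real.log_rpow hN0]
  have hl1 : Real.log T - 20 * Real.log u - Real.log 2 ≤ Real.log R := by
    have h4 : Real.log (T / u ^ 20 / 2) = Real.log T - 20 * Real.log u - Real.log 2 := by
      rw [Real.log_div (by positivity) (by norm_num), Real.log_div (by positivity) (by positivity),
        Real.log_pow]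
      push_cast
      ring
    rw [← h4]
    exact Real.log_le_log (by positivity) hRge
  have hl2 : Real.log R₀ ≤ Real.log 2 + (Real.log N - Real.log q) + 20 * Real.log u := by
    have h4 : Real.log (2 * ((N : ℝ) / q) * u ^ 20) =
        Real.log 2 + (Real.log N - Real.log q) + 20 * Real.log u := by
      rw [Real.log_mul (by positivity) (by positivity), Real.log_mul (by norm_num) (by positivity),
        Real.log_div (by positivity) (by positivity), Real.log_pow]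
      push_cast
      ring
    rw [← h4]
    refine Real.log_le_log (by exact_mod_cast hR₀1) (hR₀le.trans ?_)
    gcongr
  have hlog2 : Real.log 2 ≤ 1 := by
    have := Real.log_two_lt_d9
    linarith
  have hκ40 : 40 * (κ * Real.log N) = 2 / 5 * ε * Real.log N := by rw [hκ]; ring
  rw [hlogu] at hl1 hl2
  nlinarith

theorem int_thm (ε : ℝ) (hε : 0 < ε) (hε1 : ε ≤ 1 / 100) :
    ∃ N₀ : ℕ, ∀ N : ℕ, N₀ ≤ N → ∀ q : ℕ, 1 ≤ q → q ≤ N →
      (N : ℝ) ^ ((2 : ℝ) / 3 + ε) ≤ q → ∀ Y : ℝ,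
      N * (Real.log q - (2 / 3 + 3 / 4 * ε) * Real.log N) ≤ VV N q Y ∧
      ((N : ℝ) ^ ((3 : ℝ) / 4 + ε) ≤ q →
        N * (3 / 2 * Real.log q - (1 + 3 / 4 * ε) * Real.log N) ≤ VV N q Y) := by
  obtain ⟨N₁, hN₁⟩ := core ε hε hε1
  have htend : Tendsto (fun N : ℕ => (N : ℝ) ^ (3 * ε / 5)) atTop atTop :=
    (tendsto_rpow_atTop (by positivity)).comp tendsto_natCast_atTop_atTop
  obtain ⟨N₂, hN₂⟩ := Filter.eventually_atTop.1 (htend.eventually_ge_atTop 4)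
  refine ⟨max 1 (max N₁ N₂), ?_⟩
  intro N hN q hq hqN hqb Y
  have hNN : 1 ≤ N ∧ N₁ ≤ N ∧ N₂ ≤ N := by
    simp only [max_le_iff] at hN
    tauto
  have hN1' : (1 : ℝ) ≤ N := by exact_mod_cast hNN.1
  have hN0 : (0 : ℝ) < N := by linarith
  have hq0 : (0 : ℝ) < q := by exact_mod_cast hq
  have h4 : 4 ≤ (N : ℝ) ^ (3 * ε / 5) := hN₂ N hNN.2.2
  have hmono : ∀ a b : ℝ, a ≤ b → (N : ℝ) ^ a ≤ (N : ℝ) ^ b := fun a b h =>
    Real.rpow_le_rpow_of_exponent_le hN1' h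
  have hNq : (N : ℝ) / q ≤ (N : ℝ) ^ ((1 : ℝ) / 3 - ε) := by
    rw [div_le_iff₀ hq0]
    calc (N : ℝ) = (N : ℝ) ^ ((1 : ℝ) / 3 - ε) * (N : ℝ) ^ ((2 : ℝ) / 3 + ε) := by
          rw [← Real.rpow_add hN0]
          norm_num
      _ ≤ _ := by gcongr
  have hsmall : 4 * ((N : ℝ) / q) * (N : ℝ) ^ (2 * ε / 5) ≤ (N : ℝ) ^ ((1 : ℝ) / 3) := by
    calc 4 * ((N : ℝ) / q) * (N : ℝ) ^ (2 * ε / 5) ≤
        (N : ℝ) ^ (3 * ε / 5) * (N : ℝ) ^ ((1 : ℝ) / 3 - ε) * (N : ℝ) ^ (2 * ε / 5) := by gcongr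
      _ = (N : ℝ) ^ ((1 : ℝ) / 3) := by
          rw [← Real.rpow_add hN0, ← Real.rpow_add hN0]
          congr 1
          ring
  have hq23 : (N : ℝ) ^ ((2 : ℝ) / 3) ≤ q := (hmono _ _ (by linarith)).trans hqb
  refine ⟨?_, fun hq34 => ?_⟩
  · have h5 : ((N : ℝ) ^ ((1 : ℝ) / 3)) ^ 2 ≤ q := by
      rw [← Real.rpow_natCast, ← Real.rpow_mul hN0.le]
      norm_num
      exact hq23
    have h6 := hN₁ N hNN.2.1 q hq hqN _ hsmall h5 (Or.inl le_rfl) Y
    rw [Real.log_rpow hN0] at h6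
    refine le_trans (le_of_eq ?_) h6
    ring
  · have h7 : (N : ℝ) ^ ((1 : ℝ) / 3) ≤ Real.sqrt q := by
      rw [Real.le_sqrt (by positivity) hq0.le, ← Real.rpow_natCast, ← Real.rpow_mul hN0.le]
      norm_num
      exact hq23
    have h5 : (Real.sqrt q) ^ 2 ≤ (q : ℝ) := by
      rw [Real.sq_sqrt hq0.le]
    have h6 := hN₁ N hNN.2.1 q hq hqN _ (hsmall.trans h7) h5 (Or.inr hq34) Y
    rw [Real.log_sqrt hq0.le] at h6
    refine le_trans (le_of_eq ?_) h6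
    ring

theorem VV_nonneg (N q : ℕ) (Y : ℝ) : 0 ≤ VV N q Y :=
  Finset.sum_nonneg fun _ _ => sq_nonneg _

theorem real_thm (ε : ℝ) (hε : 0 < ε) :
    ∃ x₀ : ℝ, ∀ x : ℝ, x₀ ≤ x → ∀ q : ℕ, 1 ≤ q → (q : ℝ) ≤ x → ∀ Y : ℝ,
      x * (Real.log q - (2 / 3 + ε) * Real.log x) ≤ VV ⌊x⌋₊ q Y ∧
      (x ^ ((3 : ℝ) / 4 + ε) ≤ q →
        x * (3 / 2 * Real.log q - (1 + ε) * Real.log x) ≤ VV ⌊x⌋₊ q Y) := by
  set δ : ℝ := min ε (1 / 100) with hδ
  have hδ0 : 0 < δ := lt_min hε (by norm_num)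
  have hδε : δ ≤ ε := min_le_left _ _
  obtain ⟨N₁, hN₁⟩ := int_thm δ hδ0 (min_le_right _ _)
  refine ⟨max (N₁ + 2) (max 2 (8 / δ)), ?_⟩
  intro x hx q hq hqx Y
  have hx1 : (N₁ : ℝ) + 2 ≤ x := (le_max_left _ _).trans hx
  have hx2 : 2 ≤ x := ((le_max_left _ _).trans (le_max_right _ _)).trans hx
  have hx3 : 8 / δ ≤ x := ((le_max_right _ _).trans (le_max_right _ _)).trans hx
  have hx0 : 0 < x := by linarith
  have hxδ : 8 ≤ x * δ := (div_le_iff₀ hδ0).1 hx3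
  have hlx : 0 < Real.log x := Real.log_pos (by linarith)
  set N : ℕ := ⌊x⌋₊ with hN
  have hNx : (N : ℝ) ≤ x := Nat.floor_le hx0.le
  have hxN : x < N + 1 := Nat.lt_floor_add_one x
  have hN1 : (1 : ℝ) < N := by
    have : 2 ≤ N := Nat.le_floor (by push_cast; exact hx2)
    have : (2 : ℝ) ≤ N := by exact_mod_cast this
    linarith
  have hNN : N₁ ≤ N := Nat.le_floor (by linarith)
  have hqN : q ≤ N := Nat.le_floor hqx
  have hq0 : (0 : ℝ) < q := by exact_mod_cast hq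
  have hlN : Real.log N ≤ Real.log x := Real.log_le_log (by linarith) hNx
  have hlN0 : 0 < Real.log N := Real.log_pos hN1
  have hlq : Real.log q ≤ Real.log N := Real.log_le_log hq0 (by exact_mod_cast hqN)
  have hV0 := VV_nonneg N q Y
  -- the passage to `x`: if `A ≤ log x` then `x (A - δ/4 log x) ≤ N A` or `A < 0`
  have hpass : ∀ A V : ℝ, A ≤ Real.log x → 0 ≤ V → N * A ≤ V →
      x * (A - δ / 4 * Real.log x) ≤ V := by
    intro A V hA hV hNA
    rcases le_or_gt A 0 with h | h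
    · refine le_trans ?_ hV
      have : A - δ / 4 * Real.log x ≤ 0 := by
        have : 0 ≤ δ / 4 * Real.log x := by positivity
        linarith
      exact mul_nonpos_of_nonneg_of_nonpos hx0.le this
    · refine le_trans ?_ hNA
      have h1 : (x - N) * A ≤ Real.log x := by
        have h2 : x - N ≤ 1 := by linarith
        have h3 : 0 ≤ x - N := by linarith
        nlinarith
      have h4 : Real.log x ≤ x * (δ / 4 * Real.log x) := by
        have : Real.log x * 1 ≤ Real.log x * (x * δ / 4) := by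
          gcongr
          linarith
        linarith
      nlinarith
  constructor
  · rcases le_or_gt ((N : ℝ) ^ ((2 : ℝ) / 3 + δ)) q with h | h
    · have h1 := (hN₁ N hNN q hq hqN h Y).1
      have h2 := hpass (Real.log q - (2 / 3 + 3 / 4 * δ) * Real.log N) _ (by nlinarith) hV0 h1
      refine le_trans ?_ h2
      refine mul_le_mul_of_nonneg_left ?_ hx0.le
      nlinarith
    · refine le_trans ?_ hV0
      refine mul_nonpos_of_nonneg_of_nonpos hx0.le ?_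
      have h1 : Real.log q ≤ ((2 : ℝ) / 3 + δ) * Real.log N := by
        rw [← Real.log_rpow (by linarith)]
        exact Real.log_le_log hq0 h.le
      nlinarith
  · intro hq34
    have hx1' : (1 : ℝ) ≤ x := by linarith
    have hN34 : (N : ℝ) ^ ((3 : ℝ) / 4 + δ) ≤ q := by
      calc (N : ℝ) ^ ((3 : ℝ) / 4 + δ) ≤ x ^ ((3 : ℝ) / 4 + δ) :=
            Real.rpow_le_rpow (by linarith) hNx (by positivity)
        _ ≤ x ^ ((3 : ℝ) / 4 + ε) := Real.rpow_le_rpow_of_exponent_le hx1' (by linarith)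
        _ ≤ q := hq34
    have hN23 : (N : ℝ) ^ ((2 : ℝ) / 3 + δ) ≤ q :=
      (Real.rpow_le_rpow_of_exponent_le hN1.le (by linarith)).trans hN34
    have h1 := (hN₁ N hNN q hq hqN hN23 Y).2 hN34
    have h2 := hpass (3 / 2 * Real.log q - (1 + 3 / 4 * δ) * Real.log N) _ (by nlinarith) hV0 h1
    refine le_trans ?_ h2
    refine mul_le_mul_of_nonneg_left ?_ hx0.le
    nlinarith

end Pool.Agent.M848.SV
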