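import Pool.Agent.Lib.MP_848d44_nt.SV.Bs3
import Pool.Agent.Lib.MP_848d44_nt.SV.Spl
import Pool.Agent.Lib.MP_848d44_nt.F.L1p

/-!
# MP_848d44_nt, project SV, module PhiD

Abel summation for both signs together: the sums `Phi` for the signs `1` and `-1` combine to a sum
over `n` of `Λ(n) χ(n)` times the complete sum `CC`.
-/

set_option autoImplicit false

noncomputable section

namespace Pool.Agent.M848.SV

open Finset Pool.Agent.M848 Pool.Agent.M848.FC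
open scoped ArithmeticFunction.vonMangoldt ComplexConjugate

private theorem phid_abel (a w : ℕ → ℂ) (N : ℕ) :
    ∑ n ∈ Icc 1 N, a n * w n =
      ∑ n ∈ Icc 1 N, (∑ m ∈ Icc 1 n, a m) * (w n - w (n + 1)) +
        (∑ m ∈ Icc 1 N, a m) * w (N + 1) := by
  induction N with
  | zero => simp
  | succ N ih =>
    rw [sum_Icc_succ_top (by omega), sum_Icc_succ_top (by omega), ih,
      sum_Icc_succ_top (by omega : 1 ≤ N + 1) a]
    ring

/-- the complete sum at the argument `c` -/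
private def pdw (V : ℤ → ℝ) (s q M f : ℕ) (χ : ℕ → ℂ) (c : ℤ) : ℂ :=
  CC (fun k => V (c - ((s * q : ℕ) : ℤ) * k)) M f χ

private theorem pdw_diff (A B : ℤ) (h j s q M f : ℕ) (χ : ℕ → ℂ) (hh : 1 ≤ h) (c : ℤ) :
    pdw (spl A B h (j + 1)) s q M f χ c - pdw (spl A B h (j + 1)) s q M f χ (c + 1) =
      (1 / (h : ℂ)) * (pdw (spl A B h j) s q M f χ (c - h + 1) -
        pdw (spl A B h j) s q M f χ (c + 1)) := by
  have key : ∀ d : ℤ, ((spl A B h (j + 1) (c - d) : ℝ) : ℂ) -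
      ((spl A B h (j + 1) (c + 1 - d) : ℝ) : ℂ) =
      (1 / (h : ℂ)) * (((spl A B h j (c - h + 1 - d) : ℝ) : ℂ) -
        ((spl A B h j (c + 1 - d) : ℝ) : ℂ)) := by
    intro d
    have h1 := spl_diff A B h j hh (c - d)
    have e1 : c + 1 - d = c - d + 1 := by ring
    have e2 : c - h + 1 - d = c - d - h + 1 := by ring
    rw [e1, e2, ← Complex.ofReal_sub, h1]
    push_cast
    ring
  unfold pdw CC
  rw [← sum_sub_distrib, ← sum_sub_distrib, mul_sum]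
  refine sum_congr rfl fun k _ => ?_
  have h1 := key (((s * q : ℕ) : ℤ) * (k : ℤ))
  have h2 := key (((s * q : ℕ) : ℤ) * (-(k : ℤ)))
  linear_combination (starRingEnd ℂ) (χ k) * h1 + (starRingEnd ℂ) (χ k) * χ (f - 1) * h2

private theorem phid_ext (W : ℤ → ℝ) (N q s M : ℕ) (σ : ℤ) (g : ℕ → ℂ) (hq : 1 ≤ q) (hs : 1 ≤ s)
    (hσ : σ = 1 ∨ σ = -1) (hM : N ≤ M * q) (hW : Wgt W N) :
    Phi W N q σ s g = ∑ k ∈ Icc 1 M, (starRingEnd ℂ) (g k) *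
      ∑ n ∈ Icc 1 N, ((Λ n : ℝ) : ℂ) * g n *
        ((W ((n : ℤ) + σ * ((s * k * q : ℕ) : ℤ)) : ℝ) : ℂ) := by
  unfold Phi
  have hsub : Icc 1 (N / q) ⊆ Icc 1 M := by
    apply Icc_subset_Icc le_rfl
    calc N / q ≤ M * q / q := Nat.div_le_div_right hM
      _ = M := Nat.mul_div_cancel _ hq
  refine sum_subset hsub fun k hk hk' => ?_
  rw [mem_Icc] at hk hk'
  have h1 : N / q < k := by
    by_contra h0
    exact hk' ⟨hk.1, not_lt.mp h0⟩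
  have h2 : N < k * q := (Nat.div_lt_iff_lt_mul hq).mp h1
  have h3 : N < s * k * q := by
    calc N < k * q := h2
      _ = 1 * (k * q) := (one_mul _).symm
      _ ≤ s * (k * q) := Nat.mul_le_mul_right _ hs
      _ = s * k * q := by ring
  have h3' : (N : ℤ) < ((s * k * q : ℕ) : ℤ) := by exact_mod_cast h3
  have h4 : ∑ n ∈ Icc 1 N, ((Λ n : ℝ) : ℂ) * g n *
      ((W ((n : ℤ) + σ * ((s * k * q : ℕ) : ℤ)) : ℝ) : ℂ) = 0 := by
    refine sum_eq_zero fun n hn => ?_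
    rw [mem_Icc] at hn
    have hn1 : (1 : ℤ) ≤ n := by exact_mod_cast hn.1
    have hn2 : (n : ℤ) ≤ N := by exact_mod_cast hn.2
    have h5 : W ((n : ℤ) + σ * ((s * k * q : ℕ) : ℤ)) = 0 := by
      by_contra h6
      obtain ⟨h7, h8⟩ := hW.supp _ h6
      rcases hσ with rfl | rfl
      · linarith
      · linarith
    rw [h5]
    simp
  rw [h4, mul_zero]

private theorem phid_eq (W : ℤ → ℝ) (N q s M f : ℕ) (χ : ℕ → ℂ) (hq : 1 ≤ q) (hs : 1 ≤ s)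
    (hM : N ≤ M * q) (hW : Wgt W N) :
    uu 1 f χ * Phi W N q 1 s χ + uu (-1) f χ * Phi W N q (-1) s χ =
      ∑ n ∈ Icc 1 N, (((Λ n : ℝ) : ℂ) * χ n) * pdw W s q M f χ n := by
  rw [phid_ext W N q s M 1 χ hq hs (Or.inl rfl) hM hW,
    phid_ext W N q s M (-1) χ hq hs (Or.inr rfl) hM hW]
  have hu1 : uu 1 f χ = χ (f - 1) := by
    unfold uu
    rw [if_pos rfl]
  have hu2 : uu (-1) f χ = 1 := by
    unfold uu
    rw [if_neg (by norm_num)]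
  rw [hu1, hu2, one_mul]
  unfold pdw CC
  simp only [mul_sum]
  rw [sum_comm, sum_comm (s := Icc 1 M), ← sum_add_distrib]
  refine sum_congr rfl fun n _ => ?_
  rw [← sum_add_distrib]
  refine sum_congr rfl fun k _ => ?_
  have e1 : (n : ℤ) + 1 * ((s * k * q : ℕ) : ℤ) = (n : ℤ) - ((s * q : ℕ) : ℤ) * (-(k : ℤ)) := by
    push_cast
    ring
  have e2 : (n : ℤ) + -1 * ((s * k * q : ℕ) : ℤ) = (n : ℤ) - ((s * q : ℕ) : ℤ) * (k : ℤ) := by
    push_cast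
    ring
  rw [e1, e2]
  ring

theorem phi_dual (A B : ℤ) (N q h j D s M : ℕ) (P : ℝ) (hq : 1 ≤ q) (hh : 1 ≤ h) (hhN : h ≤ N)
    (hs : 1 ≤ s) (hM : N ≤ M * q) (hW : Wgt (spl A B h (j + 1)) N)
    (hP : ∀ y ≤ N, ∀ c : ℤ, |c| ≤ (N : ℤ) + 1 → ∀ i, (i = j ∨ i = j + 1) →
      ∑ f ∈ Ioc D (2 * D), ∑ χ ∈ pc f, ‖SL χ y‖ *
        ‖CC (fun k => spl A B h i (c - ((s * q : ℕ) : ℤ) * k)) M f χ‖ ≤ P) :
    ∑ f ∈ Ioc D (2 * D), ∑ χ ∈ pc f,
      ‖uu 1 f χ * Phi (spl A B h (j + 1)) N q 1 s χ +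
        uu (-1) f χ * Phi (spl A B h (j + 1)) N q (-1) s χ‖ ≤ (2 * N / h + 1) * P := by
  have hh0 : (0 : ℝ) < h := by exact_mod_cast hh
  have hP' : ∀ y ≤ N, ∀ c : ℤ, |c| ≤ (N : ℤ) + 1 → ∀ i, (i = j ∨ i = j + 1) →
      ∑ f ∈ Ioc D (2 * D), ∑ χ ∈ pc f, ‖SL χ y‖ * ‖pdw (spl A B h i) s q M f χ c‖ ≤ P := hP
  have key : ∀ f ∈ Ioc D (2 * D), ∀ χ ∈ pc f,
      ‖uu 1 f χ * Phi (spl A B h (j + 1)) N q 1 s χ +
        uu (-1) f χ * Phi (spl A B h (j + 1)) N q (-1) s χ‖ ≤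
      ∑ n ∈ Icc 1 N, (1 / (h : ℝ)) *
        (‖SL χ n‖ * ‖pdw (spl A B h j) s q M f χ ((n : ℤ) - h + 1)‖ +
          ‖SL χ n‖ * ‖pdw (spl A B h j) s q M f χ ((n : ℤ) + 1)‖) +
      ‖SL χ N‖ * ‖pdw (spl A B h (j + 1)) s q M f χ ((N : ℤ) + 1)‖ := by
    intro f _ χ _
    rw [phid_eq (spl A B h (j + 1)) N q s M f χ hq hs hM hW,
      phid_abel (fun n => ((Λ n : ℝ) : ℂ) * χ n)
        (fun n => pdw (spl A B h (j + 1)) s q M f χ (n : ℤ)) N]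
    refine (norm_add_le _ _).trans (add_le_add ?_ ?_)
    · refine (norm_sum_le _ _).trans (sum_le_sum fun n _ => ?_)
      rw [norm_mul]
      push_cast
      rw [pdw_diff A B h j s q M f χ hh (n : ℤ), norm_mul]
      have h1 : ‖(1 / (h : ℂ))‖ = 1 / (h : ℝ) := by
        rw [norm_div, norm_one, Complex.norm_natCast]
      rw [h1]
      have h2 := norm_sub_le (pdw (spl A B h j) s q M f χ ((n : ℤ) - h + 1))
        (pdw (spl A B h j) s q M f χ ((n : ℤ) + 1))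
      have h3 : (∑ m ∈ Icc 1 n, ((Λ m : ℝ) : ℂ) * χ m) = SL χ n := rfl
      rw [h3]
      have h4 : 0 ≤ 1 / (h : ℝ) := by positivity
      calc ‖SL χ n‖ * (1 / (h : ℝ) * ‖pdw (spl A B h j) s q M f χ ((n : ℤ) - h + 1) -
            pdw (spl A B h j) s q M f χ ((n : ℤ) + 1)‖)
          ≤ ‖SL χ n‖ * (1 / (h : ℝ) * (‖pdw (spl A B h j) s q M f χ ((n : ℤ) - h + 1)‖ +
            ‖pdw (spl A B h j) s q M f χ ((n : ℤ) + 1)‖)) :=
            mul_le_mul_of_nonneg_left (mul_le_mul_of_nonneg_left h2 h4) (norm_nonneg _)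
        _ = _ := by ring
    · rw [norm_mul]
      push_cast
      exact le_rfl
  refine (sum_le_sum fun f hf => sum_le_sum fun χ hχ => key f hf χ hχ).trans ?_
  have h5 : ∀ n ∈ Icc 1 N, ∑ f ∈ Ioc D (2 * D), ∑ χ ∈ pc f, (1 / (h : ℝ)) *
        (‖SL χ n‖ * ‖pdw (spl A B h j) s q M f χ ((n : ℤ) - h + 1)‖ +
          ‖SL χ n‖ * ‖pdw (spl A B h j) s q M f χ ((n : ℤ) + 1)‖) ≤ (1 / (h : ℝ)) * (P + P) := by
    intro n hn
    rw [mem_Icc] at hn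
    simp only [← mul_sum, sum_add_distrib]
    have hn1 : (1 : ℤ) ≤ n := by exact_mod_cast hn.1
    have hn2 : (n : ℤ) ≤ N := by exact_mod_cast hn.2
    have hh1 : (1 : ℤ) ≤ h := by exact_mod_cast hh
    have hh2 : (h : ℤ) ≤ N := by exact_mod_cast hhN
    refine mul_le_mul_of_nonneg_left (add_le_add ?_ ?_) (by positivity)
    · refine hP' n hn.2 _ ?_ j (Or.inl rfl)
      rw [abs_le]
      constructor <;> linarith
    · refine hP' n hn.2 _ ?_ j (Or.inl rfl)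
      rw [abs_le]
      constructor <;> linarith
  have h6 := hP' N le_rfl ((N : ℤ) + 1) (by rw [abs_of_nonneg (by positivity)]) (j + 1)
    (Or.inr rfl)
  have h9 : ∑ f ∈ Ioc D (2 * D), ∑ χ ∈ pc f, (∑ n ∈ Icc 1 N, (1 / (h : ℝ)) *
        (‖SL χ n‖ * ‖pdw (spl A B h j) s q M f χ ((n : ℤ) - h + 1)‖ +
          ‖SL χ n‖ * ‖pdw (spl A B h j) s q M f χ ((n : ℤ) + 1)‖) +
      ‖SL χ N‖ * ‖pdw (spl A B h (j + 1)) s q M f χ ((N : ℤ) + 1)‖) =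
      ∑ n ∈ Icc 1 N, ∑ f ∈ Ioc D (2 * D), ∑ χ ∈ pc f, (1 / (h : ℝ)) *
        (‖SL χ n‖ * ‖pdw (spl A B h j) s q M f χ ((n : ℤ) - h + 1)‖ +
          ‖SL χ n‖ * ‖pdw (spl A B h j) s q M f χ ((n : ℤ) + 1)‖) +
      ∑ f ∈ Ioc D (2 * D), ∑ χ ∈ pc f,
        ‖SL χ N‖ * ‖pdw (spl A B h (j + 1)) s q M f χ ((N : ℤ) + 1)‖ := by
    simp only [sum_add_distrib (s := pc _), sum_add_distrib (s := Ioc D (2 * D))]
    congr 1
    rw [sum_comm (s := Icc 1 N)]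
    refine sum_congr rfl fun f _ => ?_
    rw [sum_comm]
  rw [h9]
  have h7 : ∑ n ∈ Icc 1 N, ∑ f ∈ Ioc D (2 * D), ∑ χ ∈ pc f, (1 / (h : ℝ)) *
        (‖SL χ n‖ * ‖pdw (spl A B h j) s q M f χ ((n : ℤ) - h + 1)‖ +
          ‖SL χ n‖ * ‖pdw (spl A B h j) s q M f χ ((n : ℤ) + 1)‖) ≤
      N * (1 / (h : ℝ) * (P + P)) := by
    refine (sum_le_sum h5).trans (le_of_eq ?_)
    rw [sum_const, Nat.card_Icc, nsmul_eq_mul, Nat.add_sub_cancel]
  have h8 : (2 * (N : ℝ) / h + 1) * P = N * (1 / (h : ℝ) * (P + P)) + P := by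
    field_simp
    ring
  rw [h8]
  exact add_le_add h7 h6

end Pool.Agent.M848.SV
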