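import Pool.Agent.Lib.MP_848d44_nt.SV.PhiC
import Pool.Agent.Lib.MP_848d44_nt.SV.PhiD

set_option autoImplicit false

/-!
# MP_848d44_nt, project SV: the bound for the sum of the two main off-diagonal sums
-/

noncomputable section

namespace Pool.Agent.M848.SV

open Finset Pool.Agent.M848 Pool.Agent.M848.FC
open scoped ArithmeticFunction.vonMangoldt ComplexConjugate

/-- The two signs together. -/
def PP (W : ℤ → ℝ) (N q s f : ℕ) (χ : ℕ → ℂ) : ℂ :=
  uu 1 f χ * Phi W N q 1 s χ + uu (-1) f χ * Phi W N q (-1) s χ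

theorem Zf2_norm (W : ℤ → ℝ) (N q : ℕ) (f s : ℕ) :
    ‖Zf W N q 1 f s + Zf W N q (-1) f s‖ ≤ ∑ χ ∈ pc f, ‖PP W N q s f χ‖ := by
  have e : Zf W N q 1 f s + Zf W N q (-1) f s = ∑ χ ∈ pc f,
      (starRingEnd ℂ) (χ q) * (starRingEnd ℂ) (χ s) * PP W N q s f χ := by
    unfold Zf PP
    rw [← sum_add_distrib]
    refine sum_congr rfl fun χ _ => ?_
    ring
  rw [e]
  refine (norm_sum_le _ _).trans (sum_le_sum fun χ h => ?_)
  rw [norm_mul, norm_mul, RCLike.norm_conj, RCLike.norm_conj]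
  have h2 := L1pAux.pc_norm h q
  have h3 := L1pAux.pc_norm h s
  have h4 : ‖χ q‖ * ‖χ s‖ ≤ 1 := by
    have := mul_le_mul h2 h3 (norm_nonneg _) zero_le_one
    linarith
  calc _ ≤ 1 * ‖PP W N q s f χ‖ := mul_le_mul_of_nonneg_right h4 (norm_nonneg _)
    _ = _ := one_mul _

theorem PP_norm (W : ℤ → ℝ) (N q s f : ℕ) (χ : ℕ → ℂ) (h : χ ∈ pc f) :
    ‖PP W N q s f χ‖ ≤ ‖Phi W N q 1 s χ‖ + ‖Phi W N q (-1) s χ‖ := by
  unfold PP
  refine (norm_add_le _ _).trans ?_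
  rw [norm_mul, norm_mul]
  have h1 := uu_norm 1 f χ h
  have h2 := uu_norm (-1) f χ h
  have h3 := norm_nonneg (Phi W N q 1 s χ)
  have h4 := norm_nonneg (Phi W N q (-1) s χ)
  nlinarith

theorem main_bound2 (δ : ℝ) (hδ : 0 < δ) : ∃ C : ℝ, 0 < C ∧ ∀ N q R₀ R : ℕ, 1 ≤ q → 1 ≤ R₀ →
    1 ≤ R → R ≤ N → ∀ W : ℤ → ℝ, Wgt W N →
    ∑ n ∈ Icc 1 N, (Λ n : ℝ) ≤ 2 * N → ∀ P : ℕ → ℕ → ℝ,
    (∀ i s, 2 ^ i < R → 1 ≤ s → s ≤ N / q →
      ∑ f ∈ Ioc (2 ^ i) (2 ^ (i + 1)), ∑ χ ∈ pc f, ‖PP W N q s f χ‖ ≤ P i s) →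
      ‖MainS W N q R₀ R 1 + MainS W N q R₀ R (-1)‖ ≤ C * (N : ℝ) ^ δ *
        (∑ s ∈ Icc 1 R, min (1 / (s : ℝ)) (1 / (R₀ : ℝ)) * (((N / q / s : ℕ) : ℝ) * (4 * N)) +
          ∑ i ∈ (range (Nat.log 2 R + 1)).filter (fun i => 2 ^ i < R),
            ∑ s ∈ Icc 1 (N / q), min (1 / ((s : ℝ) * 2 ^ (i + 1))) (1 / (R₀ : ℝ)) * P i s) := by
  obtain ⟨C, hC, hw⟩ := weight_sum δ hδ
  refine ⟨C, hC, ?_⟩
  intro N q R₀ R hq hR₀ hR hRN W hW hψ P hP
  have hP0 : ∀ i s, 2 ^ i < R → 1 ≤ s → s ≤ N / q → 0 ≤ P i s := fun i s hi h1 h2 =>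
    (sum_nonneg fun f _ => sum_nonneg fun χ _ => norm_nonneg _).trans (hP i s hi h1 h2)
  set B' : ℕ → ℕ → ℝ := fun i s => match i with
    | 0 => ((N / q / s : ℕ) : ℝ) * (4 * N)
    | i + 1 => if 2 ^ i < R ∧ 1 ≤ s ∧ s ≤ N / q then P i s else 0 with hB'
  have hB0 : ∀ s, B' 0 s = ((N / q / s : ℕ) : ℝ) * (4 * N) := fun s => rfl
  have hB1 : ∀ i s, B' (i + 1) s = if 2 ^ i < R ∧ 1 ≤ s ∧ s ≤ N / q then P i s else 0 :=
    fun i s => rfl
  set Z : ℕ → ℕ → ℕ → ℂ := fun f _ s =>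
    if f ≤ R then Zf W N q 1 f s + Zf W N q (-1) f s else 0 with hZ
  have hphi : ∀ (σ : ℤ), (σ = 1 ∨ σ = -1) → ∀ s, 1 ≤ s → ∀ f, ∀ χ ∈ pc f,
      ‖Phi W N q σ s χ‖ ≤ ((N / q / s : ℕ) : ℝ) * (2 * N) := by
    intro σ hσ s hs f χ hχ
    refine (phi_triv W N q hq hW σ hσ s hs χ (L1pAux.pc_norm hχ)).trans ?_
    exact mul_le_mul_of_nonneg_left hψ (Nat.cast_nonneg _)
  have hpp : ∀ s, 1 ≤ s → ∀ f, ∀ χ ∈ pc f,
      ‖PP W N q s f χ‖ ≤ ((N / q / s : ℕ) : ℝ) * (4 * N) := by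
    intro s hs f χ hχ
    have h1 := hphi 1 (Or.inl rfl) s hs f χ hχ
    have h2 := hphi (-1) (Or.inr rfl) s hs f χ hχ
    refine (PP_norm W N q s f χ hχ).trans ((add_le_add h1 h2).trans (le_of_eq ?_))
    ring
  have h1 := hw N q R₀ R hR₀ hR hRN Z B' ?_ ?_ ?_
  · have e1 : MainS W N q R₀ R 1 + MainS W N q R₀ R (-1) =
        ∑ f ∈ Icc 1 R, ∑ e ∈ Icc 1 R, ∑ s ∈ e.divisors,
        (if f * e ∈ RS q R₀ R then ((cf f e s : ℝ) : ℂ) else 0) * Z f e s := by
      unfold MainS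
      rw [← sum_add_distrib]
      refine sum_congr rfl fun f hf => ?_
      rw [← sum_add_distrib]
      refine sum_congr rfl fun e _ => ?_
      rw [← sum_add_distrib]
      refine sum_congr rfl fun s _ => ?_
      rw [hZ]
      simp only
      rw [if_pos (mem_Icc.1 hf).2]
      ring
    rw [e1]
    refine h1.trans (mul_le_mul_of_nonneg_left ?_ (by positivity))
    rw [sum_range_succ']
    rw [add_comm]
    refine add_le_add (le_of_eq ?_) ?_
    · refine sum_congr rfl fun s _ => ?_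
      rw [hB0]
      simp
    · rw [sum_filter]
      refine sum_le_sum fun i _ => ?_
      by_cases hi : 2 ^ i < R
      · rw [if_pos hi]
        have e2 : ∑ s ∈ Icc 1 R, min (1 / ((s : ℝ) * 2 ^ (i + 1))) (1 / (R₀ : ℝ)) * B' (i + 1) s =
            ∑ s ∈ (Icc 1 R).filter (fun s => s ≤ N / q),
              min (1 / ((s : ℝ) * 2 ^ (i + 1))) (1 / (R₀ : ℝ)) * P i s := by
          rw [sum_filter]
          refine sum_congr rfl fun s hs => ?_
          rw [hB1]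
          by_cases hs' : s ≤ N / q
          · rw [if_pos ⟨hi, (mem_Icc.1 hs).1, hs'⟩, if_pos hs']
          · rw [if_neg (fun h => hs' h.2.2), if_neg hs', mul_zero]
        rw [e2]
        refine sum_le_sum_of_subset_of_nonneg ?_ fun s hs _ => ?_
        · intro s hs
          rw [mem_filter, mem_Icc] at hs
          exact mem_Icc.2 ⟨hs.1.1, hs.2⟩
        · have := hP0 i s hi (mem_Icc.1 hs).1 (mem_Icc.1 hs).2
          positivity
      · rw [if_neg hi]
        refine le_of_eq (sum_eq_zero fun s _ => ?_)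
        rw [hB1, if_neg (fun h => hi h.1), mul_zero]
  · intro i s
    cases i with
    | zero => rw [hB0]; positivity
    | succ i =>
      rw [hB1]
      split_ifs with h
      · exact hP0 i s h.1 h.2.1 h.2.2
      · exact le_rfl
  · intro e s hs
    rw [hB0, hZ]
    simp only
    rw [if_pos hR]
    refine (Zf2_norm W N q 1 s).trans ?_
    have hcard : ((pc 1).card : ℝ) ≤ 1 := by
      have := L1pAux.pc_card_le 1
      simpa using this
    calc ∑ χ ∈ pc 1, ‖PP W N q s 1 χ‖ ≤ ∑ χ ∈ pc 1, ((N / q / s : ℕ) : ℝ) * (4 * N) :=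
          sum_le_sum fun χ hχ => hpp s hs 1 χ hχ
      _ = (pc 1).card * (((N / q / s : ℕ) : ℝ) * (4 * N)) := by rw [sum_const, nsmul_eq_mul]
      _ ≤ 1 * (((N / q / s : ℕ) : ℝ) * (4 * N)) :=
          mul_le_mul_of_nonneg_right hcard (by positivity)
      _ = _ := one_mul _
  · intro i e s hs
    rw [hB1]
    by_cases hi : 2 ^ i < R
    · by_cases hsK : s ≤ N / q
      · rw [if_pos ⟨hi, hs, hsK⟩]
        refine le_trans ?_ (hP i s hi hs hsK)
        refine sum_le_sum fun f _ => ?_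
        rw [hZ]
        simp only
        split_ifs
        · exact Zf2_norm W N q f s
        · rw [norm_zero]
          exact sum_nonneg fun χ _ => norm_nonneg _
      · rw [if_neg (fun h => hsK h.2.2)]
        refine le_of_eq (sum_eq_zero fun f _ => ?_)
        rw [hZ]
        simp only
        split_ifs
        · rw [norm_eq_zero, ← norm_le_zero_iff]
          refine (Zf2_norm W N q f s).trans ?_
          refine le_of_eq (sum_eq_zero fun χ hχ => ?_)
          have h3 := hpp s hs f χ hχ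
          have h4 : N / q / s = 0 := Nat.div_eq_of_lt (not_le.1 hsK)
          rw [h4, Nat.cast_zero, zero_mul] at h3
          exact le_antisymm h3 (norm_nonneg _)
        · exact norm_zero
    · rw [if_neg (fun h => hi h.1)]
      refine le_of_eq (sum_eq_zero fun f hf => ?_)
      rw [hZ]
      simp only
      rw [if_neg, norm_zero]
      have := (mem_Ioc.1 hf).1
      omega

end Pool.Agent.M848.SV
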