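import Pool.Agent.Lib.MP_848d44_nt.SV.FinH
import Pool.Agent.Lib.MP_848d44_nt.SV.Blk

set_option autoImplicit false

/-!
# MP_848d44_nt, project SV: a dyadic block, the dual and the trivial bound
-/

noncomputable section

namespace Pool.Agent.M848.SV

open Finset Pool.Agent.M848 Pool.Agent.M848.FC
open scoped ArithmeticFunction.vonMangoldt ComplexConjugate

/-- The number of `k` with `1 ≤ c - b k ≤ N`. -/
theorem count_ap (N b : ℕ) (hb : 1 ≤ b) (c : ℤ) (S : Finset ℤ)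
    (hS : ∀ k ∈ S, 1 ≤ c - (b : ℤ) * k ∧ c - (b : ℤ) * k ≤ N) :
    S.card ≤ N / b + 1 := by
  rcases S.eq_empty_or_nonempty with rfl | hne
  · simp
  · set k₀ := S.min' hne with hk₀
    have h0 := hS k₀ (S.min'_mem hne)
    have hsub : S ⊆ Icc k₀ (k₀ + ((N / b : ℕ) : ℤ)) := by
      intro k hk
      have h1 := hS k hk
      have h2 : k₀ ≤ k := S.min'_le k hk
      rw [mem_Icc]
      refine ⟨h2, ?_⟩
      have h3 : (b : ℤ) * (k - k₀) ≤ N := by linarith [h1.1, h0.2, mul_sub (b : ℤ) k k₀]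
      obtain ⟨n, hn⟩ := Int.eq_ofNat_of_zero_le (sub_nonneg.2 h2)
      rw [hn] at h3
      have h4 : b * n ≤ N := by exact_mod_cast h3
      have h5 : n ≤ N / b := by
        rw [Nat.le_div_iff_mul_le (by omega)]
        rw [mul_comm]
        exact h4
      have h6 : (n : ℤ) ≤ ((N / b : ℕ) : ℤ) := by exact_mod_cast h5
      linarith
    calc S.card ≤ (Icc k₀ (k₀ + ((N / b : ℕ) : ℤ))).card := card_le_card hsub
      _ = N / b + 1 := by
        rw [Int.card_Icc]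
        have : k₀ + ((N / b : ℕ) : ℤ) + 1 - k₀ = ((N / b + 1 : ℕ) : ℤ) := by push_cast; ring
        rw [this, Int.toNat_natCast]

theorem cc_triv (V : ℤ → ℝ) (N b M f : ℕ) (hb : 1 ≤ b) (hbN : b ≤ N) (c : ℤ)
    (hV1 : ∀ m, |V m| ≤ 1) (hsupp : ∀ m, V m ≠ 0 → 1 ≤ m ∧ m ≤ N) (χ : ℕ → ℂ)
    (hχ : ∀ n, ‖χ n‖ ≤ 1) :
    ‖CC (fun k => V (c - (b : ℤ) * k)) M f χ‖ ≤ 2 * ((N : ℝ) / b) := by
  have hb0 : (0 : ℝ) < b := by exact_mod_cast hb
  set w : ℤ → ℝ := fun k => V (c - (b : ℤ) * k) with hw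
  have h1 : ‖CC w M f χ‖ ≤ ∑ k ∈ Icc 1 M, (|w (k : ℤ)| + |w (-(k : ℤ))|) := by
    unfold CC
    refine (norm_sum_le _ _).trans (sum_le_sum fun k _ => ?_)
    rw [norm_mul, RCLike.norm_conj]
    have h2 : ‖(((w (k : ℤ) : ℝ) : ℂ) + χ (f - 1) * ((w (-(k : ℤ)) : ℝ) : ℂ))‖ ≤
        |w (k : ℤ)| + |w (-(k : ℤ))| := by
      refine (norm_add_le _ _).trans ?_
      rw [norm_mul, Complex.norm_real, Complex.norm_real, Real.norm_eq_abs, Real.norm_eq_abs]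
      have := mul_le_mul_of_nonneg_right (hχ (f - 1)) (abs_nonneg (w (-(k : ℤ))))
      linarith
    calc _ ≤ 1 * (|w (k : ℤ)| + |w (-(k : ℤ))|) :=
          mul_le_mul (hχ k) h2 (norm_nonneg _) zero_le_one
      _ = _ := one_mul _
  refine h1.trans ?_
  set S : Finset ℤ := (Icc (-(M : ℤ)) M).filter (fun k => w k ≠ 0) with hS
  have h2 : ∑ k ∈ Icc 1 M, (|w (k : ℤ)| + |w (-(k : ℤ))|) ≤ ∑ k ∈ Icc (-(M : ℤ)) M, |w k| := by
    rw [sum_add_distrib]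
    have e1 : ∑ k ∈ Icc 1 M, |w (k : ℤ)| = ∑ k ∈ (Icc 1 M).image (fun k : ℕ => (k : ℤ)), |w k| := by
      rw [sum_image]
      intro a _ b _ h
      have h' : (a : ℤ) = b := h
      exact_mod_cast h'
    have e2 : ∑ k ∈ Icc 1 M, |w (-(k : ℤ))| =
        ∑ k ∈ (Icc 1 M).image (fun k : ℕ => -(k : ℤ)), |w k| := by
      rw [sum_image]
      intro a _ b _ h
      have : (a : ℤ) = b := neg_injective h
      exact_mod_cast this
    rw [e1, e2, ← sum_union]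
    · refine sum_le_sum_of_subset_of_nonneg ?_ fun _ _ _ => abs_nonneg _
      intro k hk
      rw [mem_union, mem_image, mem_image] at hk
      rw [mem_Icc]
      rcases hk with ⟨a, ha, rfl⟩ | ⟨a, ha, rfl⟩
      · have := mem_Icc.1 ha
        constructor <;> omega
      · have := mem_Icc.1 ha
        constructor <;> omega
    · rw [disjoint_left]
      intro k hk hk'
      rw [mem_image] at hk hk'
      obtain ⟨a, ha, rfl⟩ := hk
      obtain ⟨b, hb, h⟩ := hk'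
      have := mem_Icc.1 ha
      have := mem_Icc.1 hb
      omega
  have h3 : ∑ k ∈ Icc (-(M : ℤ)) M, |w k| ≤ S.card := by
    rw [hS, card_filter, Nat.cast_sum]
    refine sum_le_sum fun k _ => ?_
    by_cases hk : w k = 0
    · simp [hk]
    · rw [if_pos hk]
      simpa using hV1 _
  have h4 : S.card ≤ N / b + 1 := by
    refine count_ap N b hb c S fun k hk => ?_
    exact hsupp _ (mem_filter.1 hk).2
  have h5 : (S.card : ℝ) ≤ ((N / b : ℕ) : ℝ) + 1 := by exact_mod_cast h4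
  have h6 : ((N / b : ℕ) : ℝ) ≤ (N : ℝ) / b := Nat.cast_div_le
  have h7 : 1 ≤ (N : ℝ) / b := by
    rw [one_le_div hb0]
    exact_mod_cast hbN
  linarith

/-- The weight of order `j + 1`. -/
def Wj (N h j : ℕ) : ℤ → ℝ := spl 1 ((N : ℤ) - (j + 1) * h) h (j + 1)

theorem wj_supp (N h j i : ℕ) (hh : 1 ≤ h) (hi : i ≤ j + 1) (m : ℤ)
    (hm : spl 1 ((N : ℤ) - (j + 1) * h) h i m ≠ 0) : 1 ≤ m ∧ m ≤ N := by
  obtain ⟨h1, h2⟩ := spl_supp _ _ h i hh m hm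
  refine ⟨h1, h2.trans ?_⟩
  have h3 : (i : ℤ) * ((h : ℤ) - 1) ≤ ((j : ℤ) + 1) * ((h : ℤ) - 1) := by
    have h4 : (1 : ℤ) ≤ h := by exact_mod_cast hh
    have h5 : (i : ℤ) ≤ (j : ℤ) + 1 := by exact_mod_cast hi
    exact mul_le_mul_of_nonneg_right h5 (by linarith)
  nlinarith

theorem wj_wgt (N h j : ℕ) (hh : 1 ≤ h) : Wgt (Wj N h j) N := by
  refine ⟨fun m => spl_nonneg _ _ _ _ m, fun m => spl_le_one _ _ _ _ m, fun m hm => ?_⟩
  have h1 := spl_supp 1 ((N : ℤ) - (j + 1) * h) h (j + 1) hh m hm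
  refine ⟨h1.1, lt_of_le_of_lt h1.2 ?_⟩
  push_cast
  nlinarith

theorem pp_blk (N q s D A h j : ℕ) (P : ℝ) (hN : 1 ≤ N) (hq : 1 ≤ q) (hh : 1 ≤ h) (hhN : h ≤ N)
    (hs : 1 ≤ s) (hsq : s * q ≤ N) (hD : 1 ≤ D) (hAD : 2 * A ≤ D)
    (hψ : ∑ n ∈ Icc 1 N, (Λ n : ℝ) ≤ 2 * N)
    (hP : ∀ y ≤ N, ∀ t ≤ A, ∑ f ∈ Ioc D (2 * D), ∑ χ ∈ pc f,
      ‖SL χ y‖ * ‖∑ k ∈ Ioc 0 t, χ k‖ ≤ P) :
    ∑ f ∈ Ioc D (2 * D), ∑ χ ∈ pc f, ‖PP (Wj N h j) N q s f χ‖ ≤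
      (2 * N / h + 1) * (80 * ((N : ℝ) / (s * q)) / Real.sqrt D *
        (1 + A * ((N : ℝ) / (s * q)) / D) * P +
        16 * N * (D : ℝ) ^ 3 * (2 * (3 * N) + j + 1) *
          ((D : ℝ) * (s * q) / (((A : ℝ) + 1) * h)) ^ j) := by
  refine phi_dual 1 ((N : ℤ) - (j + 1) * h) N q h j D s (3 * N) _ hq hh hhN hs ?_
    (wj_wgt N h j hh) ?_
  · nlinarith
  · intro y hy c hc i hi
    have h1 := blk N q s D A (3 * N) j i h y 1 ((N : ℤ) - (j + 1) * h) c P hh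
      (by rcases hi with rfl | rfl <;> omega) hs hq hD hAD hsq
      (wj_supp N h j i hh (by rcases hi with rfl | rfl <;> omega))
      (by have : (1 : ℤ) ≤ N := by exact_mod_cast hN
          linarith)
      (by have : 1 ≤ s * q := Nat.mul_pos hs hq
          exact Nat.le_mul_of_pos_right _ this) hy hψ (hP y hy)
    refine h1.trans (le_of_eq ?_)
    push_cast
    ring

theorem pp_triv (N q s D h j : ℕ) (P : ℝ) (hN : 1 ≤ N) (hq : 1 ≤ q) (hh : 1 ≤ h) (hhN : h ≤ N)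
    (hs : 1 ≤ s) (hsq : s * q ≤ N)
    (hP : ∀ y ≤ N, ∑ f ∈ Ioc D (2 * D), ∑ χ ∈ pc f, ‖SL χ y‖ ≤ P) :
    ∑ f ∈ Ioc D (2 * D), ∑ χ ∈ pc f, ‖PP (Wj N h j) N q s f χ‖ ≤
      (2 * N / h + 1) * (2 * ((N : ℝ) / (s * q)) * P) := by
  refine phi_dual 1 ((N : ℤ) - (j + 1) * h) N q h j D s (3 * N) _ hq hh hhN hs ?_
    (wj_wgt N h j hh) ?_
  · nlinarith
  · intro y hy c hc i hi
    have h2 : ∀ f ∈ Ioc D (2 * D), ∀ χ ∈ pc f, ‖SL χ y‖ *
        ‖CC (fun k => spl 1 ((N : ℤ) - (j + 1) * h) h i (c - ((s * q : ℕ) : ℤ) * k)) (3 * N) f χ‖ ≤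
        ‖SL χ y‖ * (2 * ((N : ℝ) / (s * q : ℕ))) := by
      intro f _ χ hχ
      refine mul_le_mul_of_nonneg_left ?_ (norm_nonneg _)
      refine cc_triv _ N (s * q) (3 * N) f (Nat.mul_pos hs hq) hsq c ?_
        (wj_supp N h j i hh (by rcases hi with rfl | rfl <;> omega)) χ (L1pAux.pc_norm hχ)
      intro m
      rw [abs_of_nonneg (spl_nonneg _ _ _ _ m)]
      exact spl_le_one _ _ _ _ m
    calc _ ≤ ∑ f ∈ Ioc D (2 * D), ∑ χ ∈ pc f, ‖SL χ y‖ * (2 * ((N : ℝ) / (s * q : ℕ))) :=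
          sum_le_sum fun f hf => sum_le_sum fun χ hχ => h2 f hf χ hχ
      _ = (∑ f ∈ Ioc D (2 * D), ∑ χ ∈ pc f, ‖SL χ y‖) * (2 * ((N : ℝ) / (s * q : ℕ))) := by
          rw [sum_mul]
          refine sum_congr rfl fun f _ => ?_
          rw [sum_mul]
      _ ≤ P * (2 * ((N : ℝ) / (s * q : ℕ))) := by
          gcongr
          exact hP y hy
      _ = _ := by push_cast; ring

end Pool.Agent.M848.SV
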