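import Mathlib

set_option autoImplicit false

/-!
# MP_848d44_nt, project SV: numerical inequalities for the dual block
-/

noncomputable section

namespace Pool.Agent.M848.SV

/-- The six terms of the dual block: `D = τ²`, `N / (s q) = σ²`, `N / q = ξ²`, `U = v²`,
`a = √A`. -/
theorem numE (m u τ σ ξ g v a N : ℝ) (hm : 1 ≤ m) (hu : 1 ≤ u) (hum : u ^ 80 ≤ m)
    (hN : N = m ^ 12) (hτ : 0 < τ) (hσ : 0 < σ) (hσξ : σ ≤ ξ) (hg : 1 ≤ g)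
    (hU1 : ξ * u ^ 10 ≤ v) (hU2 : v ≤ 2 * (ξ * u ^ 10)) (h1 : ξ * τ ^ 2 * u ^ 20 ≤ m ^ 6)
    (h2 : ξ ^ 2 * u ^ 200 ≤ m ^ 4) (h3 : m ^ 4 ≤ τ ^ 2 * u ^ 20) (ha : 0 ≤ a)
    (haσ : a * σ ≤ g * τ) (hξ1 : 1 ≤ ξ) :
    (v ^ 2 * τ ^ 4 * (τ * a) + τ ^ 4 * (v * a) + τ ^ 4 * (m ^ 6 * a) + τ ^ 2 * N * (a / v) +
      τ ^ 2 * m ^ 9 * a ^ 2 + N * a ^ 2) * (σ ^ 2 / τ) * u ^ 10 ≤ 10 * g ^ 2 * τ ^ 2 * m ^ 12 := by
  have hu0 : 0 < u := by linarith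
  have hm0 : 0 < m := by linarith
  have hξ0 : 0 < ξ := by linarith
  have hv0 : 0 < v := lt_of_lt_of_le (by positivity) hU1
  have hg0 : 0 < g := by linarith
  have hgg : g ≤ g ^ 2 := by nlinarith
  have hpu : ∀ i j : ℕ, i ≤ j → u ^ i ≤ u ^ j := fun i j h => pow_le_pow_right₀ hu h
  -- `ξ τ ≤ m^4 u^{-60}`
  have hξτ : ξ * τ * u ^ 60 ≤ m ^ 4 := by
    have e : (ξ * τ * u ^ 60) ^ 4 ≤ (m ^ 4) ^ 4 := by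
      calc (ξ * τ * u ^ 60) ^ 4 = (ξ ^ 2 * u ^ 200) * (ξ * τ ^ 2 * u ^ 20) ^ 2 := by ring
        _ ≤ m ^ 4 * (m ^ 6) ^ 2 := by gcongr
        _ = (m ^ 4) ^ 4 := by ring
    exact le_of_pow_le_pow_left₀ (by norm_num) (by positivity) e
  have hτm : τ * u ^ 10 ≤ m ^ 3 := by
    have e : (τ * u ^ 10) ^ 2 ≤ (m ^ 3) ^ 2 := by
      calc (τ * u ^ 10) ^ 2 = 1 * τ ^ 2 * u ^ 20 := by ring
        _ ≤ ξ * τ ^ 2 * u ^ 20 := by gcongr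
        _ ≤ m ^ 6 := h1
        _ = (m ^ 3) ^ 2 := by ring
    exact le_of_pow_le_pow_left₀ (by norm_num) (by positivity) e
  have hτm2 : m ^ 2 ≤ τ * u ^ 10 := by
    have e : (m ^ 2) ^ 2 ≤ (τ * u ^ 10) ^ 2 := by
      calc (m ^ 2) ^ 2 = m ^ 4 := by ring
        _ ≤ τ ^ 2 * u ^ 20 := h3
        _ = (τ * u ^ 10) ^ 2 := by ring
    exact le_of_pow_le_pow_left₀ (by norm_num) (by positivity) e
  have hσg : σ * (a * σ) ≤ ξ * (g * τ) := by gcongr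
  have hσg2 : σ * a ≤ g * τ := by linarith [haσ, mul_comm a σ]
  -- E1
  have e1 : v ^ 2 * τ ^ 4 * (τ * a) * (σ ^ 2 / τ) * u ^ 10 ≤ 4 * g ^ 2 * τ ^ 2 * m ^ 12 := by
    calc v ^ 2 * τ ^ 4 * (τ * a) * (σ ^ 2 / τ) * u ^ 10 =
          v ^ 2 * τ ^ 4 * (σ * (a * σ)) * u ^ 10 := by field_simp
      _ ≤ (2 * (ξ * u ^ 10)) ^ 2 * τ ^ 4 * (ξ * (g * τ)) * u ^ 10 := by gcongr
      _ = 4 * g * τ ^ 2 * ((ξ * τ) ^ 3 * u ^ 30) := by ring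
      _ ≤ 4 * g * τ ^ 2 * ((ξ * τ) ^ 3 * u ^ 180) := by
          have := hpu 30 180 (by norm_num)
          gcongr
      _ = 4 * g * τ ^ 2 * (ξ * τ * u ^ 60) ^ 3 := by ring
      _ ≤ 4 * g * τ ^ 2 * (m ^ 4) ^ 3 := by gcongr
      _ ≤ 4 * g ^ 2 * τ ^ 2 * (m ^ 4) ^ 3 := by gcongr
      _ = _ := by ring
  have e2 : τ ^ 4 * (v * a) * (σ ^ 2 / τ) * u ^ 10 ≤ 2 * g ^ 2 * τ ^ 2 * m ^ 12 := by
    calc τ ^ 4 * (v * a) * (σ ^ 2 / τ) * u ^ 10 = v * τ ^ 3 * (σ * (a * σ)) * u ^ 10 := by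
          field_simp
      _ ≤ (2 * (ξ * u ^ 10)) * τ ^ 3 * (ξ * (g * τ)) * u ^ 10 := by gcongr
      _ = 2 * g * τ ^ 2 * ((ξ * τ) ^ 2 * u ^ 20) := by ring
      _ ≤ 2 * g * τ ^ 2 * ((ξ * τ) ^ 2 * u ^ 120) := by
          have := hpu 20 120 (by norm_num)
          gcongr
      _ = 2 * g * τ ^ 2 * (ξ * τ * u ^ 60) ^ 2 := by ring
      _ ≤ 2 * g * τ ^ 2 * (m ^ 4) ^ 2 := by gcongr
      _ ≤ 2 * g ^ 2 * τ ^ 2 * (m ^ 4) ^ 3 := by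
          have h5 : (m ^ 4) ^ 2 ≤ (m ^ 4) ^ 3 :=
            pow_le_pow_right₀ (one_le_pow₀ hm) (by norm_num)
          gcongr
      _ = _ := by ring
  have e3 : τ ^ 4 * (m ^ 6 * a) * (σ ^ 2 / τ) * u ^ 10 ≤ g ^ 2 * τ ^ 2 * m ^ 12 := by
    calc τ ^ 4 * (m ^ 6 * a) * (σ ^ 2 / τ) * u ^ 10 = m ^ 6 * τ ^ 3 * (σ * (a * σ)) * u ^ 10 := by
          field_simp
      _ ≤ m ^ 6 * τ ^ 3 * (ξ * (g * τ)) * u ^ 10 := by gcongr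
      _ = g * τ ^ 2 * m ^ 6 * (ξ * τ ^ 2 * u ^ 10) := by ring
      _ ≤ g * τ ^ 2 * m ^ 6 * (ξ * τ ^ 2 * u ^ 20) := by
          have := hpu 10 20 (by norm_num)
          gcongr
      _ ≤ g * τ ^ 2 * m ^ 6 * m ^ 6 := by gcongr
      _ ≤ g ^ 2 * τ ^ 2 * m ^ 6 * m ^ 6 := by gcongr
      _ = _ := by ring
  have e4 : τ ^ 2 * N * (a / v) * (σ ^ 2 / τ) * u ^ 10 ≤ g ^ 2 * τ ^ 2 * m ^ 12 := by
    calc τ ^ 2 * N * (a / v) * (σ ^ 2 / τ) * u ^ 10 = τ * N * (σ * (a * σ)) * (u ^ 10 / v) := by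
          field_simp
      _ ≤ τ * N * (ξ * (g * τ)) * (u ^ 10 / (ξ * u ^ 10)) := by
          have hN0 : 0 ≤ N := by rw [hN]; positivity
          gcongr
      _ = g * τ ^ 2 * N := by field_simp
      _ ≤ g ^ 2 * τ ^ 2 * N := by
          have hN0 : 0 ≤ N := by rw [hN]; positivity
          gcongr
      _ = _ := by rw [hN]
  have e5 : τ ^ 2 * m ^ 9 * a ^ 2 * (σ ^ 2 / τ) * u ^ 10 ≤ g ^ 2 * τ ^ 2 * m ^ 12 := by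
    calc τ ^ 2 * m ^ 9 * a ^ 2 * (σ ^ 2 / τ) * u ^ 10 = m ^ 9 * τ * (σ * a) ^ 2 * u ^ 10 := by
          field_simp
      _ ≤ m ^ 9 * τ * (g * τ) ^ 2 * u ^ 10 := by gcongr
      _ = g ^ 2 * τ ^ 2 * m ^ 9 * (τ * u ^ 10) := by ring
      _ ≤ g ^ 2 * τ ^ 2 * m ^ 9 * m ^ 3 := by gcongr
      _ = _ := by ring
  have e6 : N * a ^ 2 * (σ ^ 2 / τ) * u ^ 10 ≤ g ^ 2 * τ ^ 2 * m ^ 12 := by
    have h5 : u ^ 10 ≤ τ := by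
      have h6 : u ^ 10 * u ^ 10 ≤ τ * u ^ 10 := by
        calc u ^ 10 * u ^ 10 = u ^ 20 := by ring
          _ ≤ u ^ 80 := hpu 20 80 (by norm_num)
          _ ≤ m := hum
          _ ≤ m ^ 2 := by nlinarith
          _ ≤ τ * u ^ 10 := hτm2
      exact le_of_mul_le_mul_right h6 (by positivity)
    have hN0 : 0 ≤ N := by rw [hN]; positivity
    calc N * a ^ 2 * (σ ^ 2 / τ) * u ^ 10 = N * ((σ * a) ^ 2 / τ) * u ^ 10 := by ring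
      _ ≤ N * ((g * τ) ^ 2 / τ) * τ := by gcongr
      _ = g ^ 2 * τ ^ 2 * N := by field_simp
      _ = _ := by rw [hN]
  have e : (v ^ 2 * τ ^ 4 * (τ * a) + τ ^ 4 * (v * a) + τ ^ 4 * (m ^ 6 * a) +
      τ ^ 2 * N * (a / v) + τ ^ 2 * m ^ 9 * a ^ 2 + N * a ^ 2) * (σ ^ 2 / τ) * u ^ 10 =
      v ^ 2 * τ ^ 4 * (τ * a) * (σ ^ 2 / τ) * u ^ 10 + τ ^ 4 * (v * a) * (σ ^ 2 / τ) * u ^ 10 +
      τ ^ 4 * (m ^ 6 * a) * (σ ^ 2 / τ) * u ^ 10 + τ ^ 2 * N * (a / v) * (σ ^ 2 / τ) * u ^ 10 +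
      τ ^ 2 * m ^ 9 * a ^ 2 * (σ ^ 2 / τ) * u ^ 10 + N * a ^ 2 * (σ ^ 2 / τ) * u ^ 10 := by ring
  rw [e]
  linarith

/-- The six terms for the trivial bound of the sum over `k`: `D = τ²`, `U = v²`. -/
theorem numF (m u τ v N : ℝ) (hm : 1 ≤ m) (hu : 1 ≤ u) (hum : u ^ 80 ≤ m)
    (hN : N = m ^ 12) (hτ : 0 < τ)
    (hU1 : u ^ 10 ≤ v) (hU2 : v ≤ 2 * u ^ 10) (h1 : τ ^ 2 * u ^ 20 ≤ m ^ 6)
    (h3 : m ^ 4 ≤ τ ^ 2 * u ^ 20) :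
    (v ^ 2 * τ ^ 4 * τ + τ ^ 4 * v + τ ^ 4 * m ^ 6 + τ ^ 2 * N / v +
      τ ^ 2 * m ^ 9 + N) * u ^ 10 ≤ 10 * τ ^ 2 * m ^ 12 := by
  have hu0 : 0 < u := by linarith
  have hm0 : 0 < m := by linarith
  have hv0 : 0 < v := lt_of_lt_of_le (by positivity) hU1
  have hpu : ∀ i j : ℕ, i ≤ j → u ^ i ≤ u ^ j := fun i j h => pow_le_pow_right₀ hu h
  have hum1 : ∀ i : ℕ, i ≤ 80 → u ^ i ≤ m := fun i h => (hpu i 80 h).trans hum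
  have hmp : ∀ i j : ℕ, i ≤ j → m ^ i ≤ m ^ j := fun i j h => pow_le_pow_right₀ hm h
  have hN0 : 0 ≤ N := by rw [hN]; positivity
  have hτm : τ * u ^ 10 ≤ m ^ 3 := by
    have e : (τ * u ^ 10) ^ 2 ≤ (m ^ 3) ^ 2 := by
      calc (τ * u ^ 10) ^ 2 = τ ^ 2 * u ^ 20 := by ring
        _ ≤ m ^ 6 := h1
        _ = (m ^ 3) ^ 2 := by ring
    exact le_of_pow_le_pow_left₀ (by norm_num) (by positivity) e
  have hu10 : 1 ≤ u ^ 10 := one_le_pow₀ hu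
  have hτm' : τ ≤ m ^ 3 := by nlinarith
  have e1 : v ^ 2 * τ ^ 4 * τ * u ^ 10 ≤ 4 * τ ^ 2 * m ^ 12 := by
    calc v ^ 2 * τ ^ 4 * τ * u ^ 10 ≤ (2 * u ^ 10) ^ 2 * τ ^ 4 * τ * u ^ 10 := by gcongr
      _ = 4 * τ ^ 2 * ((τ * u ^ 10) ^ 3) := by ring
      _ ≤ 4 * τ ^ 2 * ((m ^ 3) ^ 3) := by gcongr
      _ = 4 * τ ^ 2 * m ^ 9 := by ring
      _ ≤ 4 * τ ^ 2 * m ^ 12 := by
          have := hmp 9 12 (by norm_num)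
          gcongr
  have e2 : τ ^ 4 * v * u ^ 10 ≤ 2 * τ ^ 2 * m ^ 12 := by
    calc τ ^ 4 * v * u ^ 10 ≤ τ ^ 4 * (2 * u ^ 10) * u ^ 10 := by gcongr
      _ = 2 * τ ^ 2 * (τ * u ^ 10) ^ 2 := by ring
      _ ≤ 2 * τ ^ 2 * (m ^ 3) ^ 2 := by gcongr
      _ = 2 * τ ^ 2 * m ^ 6 := by ring
      _ ≤ 2 * τ ^ 2 * m ^ 12 := by
          have := hmp 6 12 (by norm_num)
          gcongr
  have e3 : τ ^ 4 * m ^ 6 * u ^ 10 ≤ τ ^ 2 * m ^ 12 := by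
    calc τ ^ 4 * m ^ 6 * u ^ 10 ≤ τ ^ 4 * m ^ 6 * u ^ 20 := by
          have := hpu 10 20 (by norm_num)
          gcongr
      _ = τ ^ 2 * m ^ 6 * (τ ^ 2 * u ^ 20) := by ring
      _ ≤ τ ^ 2 * m ^ 6 * m ^ 6 := by gcongr
      _ = _ := by ring
  have e4 : τ ^ 2 * N / v * u ^ 10 ≤ τ ^ 2 * m ^ 12 := by
    calc τ ^ 2 * N / v * u ^ 10 = τ ^ 2 * N * (u ^ 10 / v) := by ring
      _ ≤ τ ^ 2 * N * 1 := by
          gcongr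
          rw [div_le_one hv0]
          exact hU1
      _ = _ := by rw [hN]; ring
  have e5 : τ ^ 2 * m ^ 9 * u ^ 10 ≤ τ ^ 2 * m ^ 12 := by
    calc τ ^ 2 * m ^ 9 * u ^ 10 ≤ τ ^ 2 * m ^ 9 * m := by
          have := hum1 10 (by norm_num)
          gcongr
      _ = τ ^ 2 * m ^ 10 := by ring
      _ ≤ τ ^ 2 * m ^ 12 := by
          have := hmp 10 12 (by norm_num)
          gcongr
  have e6 : N * u ^ 10 ≤ τ ^ 2 * m ^ 12 := by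
    have h5 : u ^ 10 ≤ τ ^ 2 := by
      have h6 : u ^ 10 * u ^ 20 ≤ τ ^ 2 * u ^ 20 := by
        calc u ^ 10 * u ^ 20 = u ^ 30 := by ring
          _ ≤ m := hum1 30 (by norm_num)
          _ = m ^ 1 := (pow_one m).symm
          _ ≤ m ^ 4 := hmp 1 4 (by norm_num)
          _ ≤ τ ^ 2 * u ^ 20 := h3
      exact le_of_mul_le_mul_right h6 (by positivity)
    calc N * u ^ 10 ≤ N * τ ^ 2 := by gcongr
      _ = _ := by rw [hN]; ring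
  have e : (v ^ 2 * τ ^ 4 * τ + τ ^ 4 * v + τ ^ 4 * m ^ 6 + τ ^ 2 * N / v +
      τ ^ 2 * m ^ 9 + N) * u ^ 10 = v ^ 2 * τ ^ 4 * τ * u ^ 10 + τ ^ 4 * v * u ^ 10 +
      τ ^ 4 * m ^ 6 * u ^ 10 + τ ^ 2 * N / v * u ^ 10 + τ ^ 2 * m ^ 9 * u ^ 10 + N * u ^ 10 := by
    ring
  rw [e]
  linarith

end Pool.Agent.M848.SV
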