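import Pool.Agent.Lib.MP_848d44_nt.SV.FinI
import Pool.Agent.Lib.MP_848d44_nt.SV.FinJ
import Pool.Agent.Lib.MP_848d44_nt.SV.Tri

set_option autoImplicit false

/-!
# MP_848d44_nt, project SV: the bound for a dyadic block above `N^(1/3)`
-/

noncomputable section

namespace Pool.Agent.M848.SV

open Finset Pool.Agent.M848 Pool.Agent.M848.FC
open scoped ArithmeticFunction.vonMangoldt ComplexConjugate

theorem pc_one' {q : ℕ} {χ : ℕ → ℂ} (h : χ ∈ pc q) : χ 1 = 1 := by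
  by_cases hq : q = 0
  · subst hq
    simp [pc] at h
  · haveI : NeZero q := ⟨hq⟩
    obtain ⟨χ', -, rfl⟩ := GP.mem_pc h
    simp

/-- The sizes for one block. -/
structure Blk1 (N q D : ℕ) (u m : ℝ) : Prop where
  hN1 : 1 ≤ N
  hu2 : 2 ≤ u
  hum : u ^ 80 ≤ m
  hN : (N : ℝ) = m ^ 12
  hN34 : (N : ℝ) ^ ((3 : ℝ) / 4) = m ^ 9
  hq : 1 ≤ q
  hqN : q ≤ N
  hD : 1 ≤ D
  hDN : D ≤ N
  hDm : m ^ 4 ≤ D * u ^ 20
  hDq : (D : ℝ) ^ 2 * u ^ 40 ≤ q
  hNq : (N : ℝ) * u ^ 200 ≤ m ^ 4 * q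

theorem blk1_D4 {N q D : ℕ} {u m : ℝ} (hS : Blk1 N q D u m) : u ^ 60 ≤ D := by
  obtain ⟨hN1, hu2, hum, hN, hN34, hq, hqN, hD, hDN, hDm, hDq, hNq⟩ := hS
  have hu : 1 ≤ u := by linarith
  have hm1 : 1 ≤ m := le_trans (one_le_pow₀ hu) hum
  have h1 : u ^ 60 * u ^ 20 ≤ D * u ^ 20 := by
    calc u ^ 60 * u ^ 20 = u ^ 80 := by ring
      _ ≤ m := hum
      _ = m ^ 1 := (pow_one m).symm
      _ ≤ m ^ 4 := pow_le_pow_right₀ hm1 (by norm_num)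
      _ ≤ _ := hDm
  exact le_of_mul_le_mul_right h1 (by positivity)

/-- The parameter `U`. -/
theorem blk1_U {N q D : ℕ} {u m : ℝ} (hS : Blk1 N q D u m) : ∃ U : ℕ, 1 ≤ U ∧ U ≤ D ∧ U ^ 3 ≤ N ∧
    (N : ℝ) / q * u ^ 20 ≤ U ∧ (U : ℝ) ≤ 2 * ((N : ℝ) / q * u ^ 20) := by
  obtain ⟨hN1, hu2, hum, hN, hN34, hq, hqN, hD, hDN, hDm, hDq, hNq⟩ := hS
  have hu : 1 ≤ u := by linarith
  have hu0 : 0 < u := by linarith
  have hm1 : 1 ≤ m := le_trans (one_le_pow₀ hu) hum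
  have hm0 : 0 < m := by linarith
  have hq0 : (0 : ℝ) < q := by exact_mod_cast hq
  have hx1 : 1 ≤ (N : ℝ) / q := by
    rw [one_le_div hq0]
    exact_mod_cast hqN
  set x : ℝ := (N : ℝ) / q with hx
  have hxm : x * u ^ 200 ≤ m ^ 4 := by
    rw [hx, div_mul_eq_mul_div, div_le_iff₀ hq0]
    exact hNq
  have hu20 : 1 ≤ u ^ 20 := one_le_pow₀ hu
  have hxu : 1 ≤ x * u ^ 20 := one_le_mul_of_one_le_of_one_le hx1 hu20
  refine ⟨⌈x * u ^ 20⌉₊, ?_, ?_, ?_, Nat.le_ceil _, ?_⟩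
  · exact Nat.one_le_iff_ne_zero.2 (Nat.ceil_pos.2 (by positivity)).ne'
  · rw [Nat.ceil_le]
    have h1 : x * u ^ 20 * u ^ 20 ≤ D * u ^ 20 := by
      calc x * u ^ 20 * u ^ 20 = x * u ^ 40 := by ring
        _ ≤ x * u ^ 200 := by
            have := pow_le_pow_right₀ hu (show 40 ≤ 200 by norm_num)
            gcongr
        _ ≤ m ^ 4 := hxm
        _ ≤ _ := hDm
    exact le_of_mul_le_mul_right h1 (by positivity)
  · have h2 : (⌈x * u ^ 20⌉₊ : ℝ) ≤ 2 * (x * u ^ 20) := by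
      have := Nat.ceil_lt_add_one (by positivity : 0 ≤ x * u ^ 20)
      linarith
    have h3 : 2 * (x * u ^ 20) ≤ m ^ 4 := by
      calc 2 * (x * u ^ 20) ≤ u * (x * u ^ 20) := by gcongr
        _ = x * u ^ 21 := by ring
        _ ≤ x * u ^ 200 := by
            have := pow_le_pow_right₀ hu (show 21 ≤ 200 by norm_num)
            gcongr
        _ ≤ _ := hxm
    have h4 : ((⌈x * u ^ 20⌉₊ ^ 3 : ℕ) : ℝ) ≤ N := by
      push_cast
      calc (⌈x * u ^ 20⌉₊ : ℝ) ^ 3 ≤ (m ^ 4) ^ 3 := by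
            gcongr
            exact h2.trans h3
        _ = (N : ℝ) := by rw [hN]; ring
    exact_mod_cast h4
  · have := Nat.ceil_lt_add_one (by positivity : 0 ≤ x * u ^ 20)
    linarith

theorem tail_bd (κ N D b A h u m : ℝ) (j : ℕ) (hN1' : 1 ≤ N) (hD0 : 0 < D) (hb : 0 < b)
    (hA0 : 0 ≤ A) (hh0 : 0 < h) (hu : 1 ≤ u) (hum : u ^ 80 ≤ m) (hN : N = m ^ 12)
    (hudef : u = N ^ κ) (hj : 6 ≤ κ * j) (hDN' : D ≤ N) (hm1 : 1 ≤ m)
    (hAl : 2 * D * b * u / h ≤ A) :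
    16 * N * D ^ 3 * (2 * (3 * N) + j + 1) * (D * b / ((A + 1) * h)) ^ j * u ^ 7 ≤
      16 * (7 + j) * D * N := by
  have hu0 : 0 < u := by linarith
  have hN0 : 0 < N := by linarith
  have h4 : D * b / ((A + 1) * h) ≤ 1 / u := by
    rw [div_le_div_iff₀ (by positivity) hu0]
    have h5 : 2 * D * b * u ≤ A * h := (div_le_iff₀ hh0).1 hAl
    have h6 : 0 ≤ D * b * u := by positivity
    linarith
  have h5 : (D * b / ((A + 1) * h)) ^ j ≤ 1 / N ^ 6 := by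
    calc (D * b / ((A + 1) * h)) ^ j ≤ (1 / u) ^ j := by gcongr
      _ = 1 / u ^ j := by rw [one_div_pow]
      _ ≤ 1 / N ^ 6 := by
          have h6 : u ^ j = N ^ (κ * j) := by
            rw [hudef, ← Real.rpow_natCast, ← Real.rpow_mul hN0.le]
          have h7 : N ^ 6 ≤ u ^ j := by
            rw [h6]
            calc N ^ 6 = N ^ (6 : ℝ) := by norm_cast
              _ ≤ _ := Real.rpow_le_rpow_of_exponent_le hN1' hj
          gcongr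
  have h6 : (2 * (3 * N) + j + 1) ≤ (7 + j) * N := by
    have h8 : (j : ℝ) * 1 ≤ j * N := by gcongr
    linarith
  have h7 : u ^ 7 ≤ N ^ 3 := by
    calc u ^ 7 ≤ u ^ 80 := pow_le_pow_right₀ hu (by norm_num)
      _ ≤ m := hum
      _ = m ^ 1 := (pow_one m).symm
      _ ≤ m ^ 36 := pow_le_pow_right₀ hm1 (by norm_num)
      _ = N ^ 3 := by rw [hN]; ring
  calc 16 * N * D ^ 3 * (2 * (3 * N) + j + 1) * (D * b / ((A + 1) * h)) ^ j * u ^ 7 ≤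
        16 * N * (D * N ^ 2) * ((7 + j) * N) * (1 / N ^ 6) * N ^ 3 := by
          have h8 : D ^ 3 ≤ D * N ^ 2 := by
            calc D ^ 3 = D * D ^ 2 := by ring
              _ ≤ _ := by gcongr
          gcongr
    _ = 16 * (7 + j) * D * N := by
        field_simp

theorem main_bd (Ks τ σ A D P CB u S H N : ℝ) (hHu1 : 1 ≤ H * u) (hu0 : 0 < u) (hH0 : 0 < H)
    (hAKD : A * Ks / D ≤ 3 * H * u) (hPe : P = CB * u * S) (hσ2 : σ ^ 2 = Ks) (hCB : 0 < CB)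
    (hS0 : 0 ≤ S) (hτ0 : 0 < τ) (hE : S * (σ ^ 2 / τ) * u ^ 10 ≤ 10 * (3 * H * u) * D * N) :
    80 * Ks / τ * (1 + A * Ks / D) * P * u ^ 7 ≤ 9600 * CB * H ^ 2 * D * N := by
  have h4 : 1 + A * Ks / D ≤ 4 * H * u := by linarith
  have h5 : S * (σ ^ 2 / τ) * u ^ 9 * u ≤ 30 * H * D * N * u := by
    calc S * (σ ^ 2 / τ) * u ^ 9 * u = S * (σ ^ 2 / τ) * u ^ 10 := by ring
      _ ≤ 10 * (3 * H * u) * D * N := hE
      _ = _ := by ring
  have h6 : S * (σ ^ 2 / τ) * u ^ 9 ≤ 30 * H * D * N := le_of_mul_le_mul_right h5 hu0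
  calc 80 * Ks / τ * (1 + A * Ks / D) * P * u ^ 7 =
        80 * (1 + A * Ks / D) * (CB * u) * (S * (σ ^ 2 / τ)) * u ^ 7 := by
          rw [hPe, hσ2]
          ring
    _ ≤ 80 * (4 * H * u) * (CB * u) * (S * (σ ^ 2 / τ)) * u ^ 7 := by gcongr
    _ = 320 * H * CB * (S * (σ ^ 2 / τ) * u ^ 9) := by ring
    _ ≤ 320 * H * CB * (30 * H * D * N) := by gcongr
    _ = _ := by ring

/-- The dual case. -/
theorem blockD1 (κ : ℝ) (hκ : 0 < κ) (j : ℕ) (hj : 6 ≤ κ * j) : ∃ C : ℝ, 0 < C ∧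
    ∀ (N q s D h A : ℕ) (m H : ℝ), Blk1 N q D ((N : ℝ) ^ κ) m → 1 ≤ s → s * q ≤ N → 1 ≤ h → h ≤ N →
    1 ≤ H → (N : ℝ) ≤ H * h → ∑ n ∈ Icc 1 N, (Λ n : ℝ) ≤ 2 * N → 1 ≤ A → 2 * A ≤ D →
    2 * D * (s * q) * (N : ℝ) ^ κ / h ≤ A → (A : ℝ) ≤ 2 * D * (s * q) * (N : ℝ) ^ κ / h + 1 →
    (∑ f ∈ Ioc D (2 * D), ∑ χ ∈ pc f, ‖PP (Wj N h j) N q s f χ‖) * ((N : ℝ) ^ κ) ^ 7 ≤
      C * H ^ 3 * D * N := by
  obtain ⟨CB, hCB, hB⟩ := tri κ hκ
  refine ⟨28800 * CB + 48 * (7 + j), by positivity, ?_⟩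
  intro N q s D h A m H hS hs hsq hh hhN hH hNH hψ hA1 hAD hAl hAu
  obtain ⟨U, hU1, hUD, hUN, hUl, hUu⟩ := blk1_U hS
  have hD60 := blk1_D4 hS
  set u : ℝ := (N : ℝ) ^ κ with hudef
  obtain ⟨hN1, hu2, hum, hN, hN34, hq, hqN, hD, hDN, hDm, hDq, hNq⟩ := hS
  have hu : 1 ≤ u := by linarith
  have hu0 : 0 < u := by linarith
  have hm1 : 1 ≤ m := le_trans (one_le_pow₀ hu) hum
  have hm0 : 0 < m := by linarith
  have hq0 : (0 : ℝ) < q := by exact_mod_cast hq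
  have hs0 : (0 : ℝ) < s := by exact_mod_cast hs
  have hh0 : (0 : ℝ) < h := by exact_mod_cast hh
  have hD0 : (0 : ℝ) < D := by exact_mod_cast hD
  have hN0 : (0 : ℝ) < N := by exact_mod_cast hN1
  have hN1' : (1 : ℝ) ≤ N := by exact_mod_cast hN1
  have hA0 : (0 : ℝ) < A := by exact_mod_cast hA1
  have hU0 : (0 : ℝ) < U := by exact_mod_cast hU1
  have hs1 : (1 : ℝ) ≤ s := by exact_mod_cast hs
  have hsq' : (s : ℝ) * q ≤ N := by exact_mod_cast hsq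
  have hDN' : (D : ℝ) ≤ N := by exact_mod_cast hDN
  set P : ℝ := CB * u * (U * (D : ℝ) ^ 2 * Real.sqrt (D * A) + (D : ℝ) ^ 2 * Real.sqrt (U * A) +
          (D : ℝ) ^ 2 * Real.sqrt (N * A) + D * N * Real.sqrt (A / U) +
          D * (N : ℝ) ^ ((3 : ℝ) / 4) * A + N * A) with hP
  have h1 := pp_blk N q s D A h j P hN1 hq hh hhN hs hsq hD hAD hψ ?_
  swap
  · intro y hy t ht
    exact hB N D A U y 0 t hA1 hU1 (by omega) hUD hUN hDN hy ht
  -- square roots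
  set τ := Real.sqrt D with hτ
  have hτ0 : 0 < τ := Real.sqrt_pos.2 hD0
  have hτ2 : τ ^ 2 = D := Real.sq_sqrt hD0.le
  set a := Real.sqrt A with ha
  have ha0 : 0 < a := Real.sqrt_pos.2 hA0
  have ha2 : a ^ 2 = A := Real.sq_sqrt hA0.le
  set v := Real.sqrt U with hv
  have hv0 : 0 < v := Real.sqrt_pos.2 hU0
  have hv2 : v ^ 2 = U := Real.sq_sqrt hU0.le
  set Ks : ℝ := (N : ℝ) / (s * q) with hKs
  have hKs1 : 1 ≤ Ks := by
    rw [hKs, one_le_div (by positivity)]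
    exact hsq'
  have hKs0 : 0 < Ks := by linarith
  set σ := Real.sqrt Ks with hσ
  have hσ0 : 0 < σ := Real.sqrt_pos.2 hKs0
  have hσ2 : σ ^ 2 = Ks := Real.sq_sqrt hKs0.le
  set x : ℝ := (N : ℝ) / q with hx
  have hx1 : 1 ≤ x := by
    rw [hx, one_le_div hq0]
    exact_mod_cast hqN
  have hx0 : 0 < x := by linarith
  set ξ := Real.sqrt x with hξ
  have hξ0 : 0 < ξ := Real.sqrt_pos.2 hx0
  have hξ2 : ξ ^ 2 = x := Real.sq_sqrt hx0.le
  have hKx : Ks ≤ x := by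
    rw [hKs, hx, div_le_div_iff_of_pos_left hN0 (by positivity) hq0]
    exact le_mul_of_one_le_left hq0.le hs1
  have hsqN : Real.sqrt N = m ^ 6 := by
    rw [hN, show m ^ 12 = (m ^ 6) ^ 2 by ring, Real.sqrt_sq (by positivity)]
  set g := Real.sqrt (3 * H * u) with hg
  have hHu : 0 < 3 * H * u := by positivity
  have hg2 : g ^ 2 = 3 * H * u := Real.sq_sqrt hHu.le
  have hg1 : 1 ≤ g := by
    rw [hg, Real.le_sqrt (by norm_num) hHu.le]
    have hHu0 : 1 ≤ H * u := one_le_mul_of_one_le_of_one_le hH hu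
    linarith only [hHu0]
  have hx40 : x * D ^ 2 * u ^ 40 ≤ m ^ 12 := by
    calc x * D ^ 2 * u ^ 40 = x * ((D : ℝ) ^ 2 * u ^ 40) := by ring
      _ ≤ x * q := by gcongr
      _ = N := by rw [hx]; field_simp
      _ = m ^ 12 := hN
  have hxm : x * u ^ 200 ≤ m ^ 4 := by
    rw [hx, div_mul_eq_mul_div, div_le_iff₀ hq0]
    exact hNq
  have hxD : x ≤ D := by
    have h2 : x * u ^ 20 ≤ D * u ^ 20 := by
      refine le_trans ?_ (hxm.trans hDm)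
      have := pow_le_pow_right₀ hu (show 20 ≤ 200 by norm_num)
      gcongr
    exact le_of_mul_le_mul_right h2 (by positivity)
  have hNh : (N : ℝ) / h ≤ H := by rw [div_le_iff₀ hh0]; exact hNH
  -- `A Ks ≤ 3 H u D`
  have hAK : A * Ks ≤ 3 * H * u * D := by
    have h2 : (2 * D * (s * q) * u / h) * Ks = 2 * (N / h) * u * D := by
      rw [hKs]
      field_simp
    calc A * Ks ≤ (2 * D * (s * q) * u / h + 1) * Ks := by gcongr
      _ = 2 * (N / h) * u * D + Ks := by rw [add_mul, h2, one_mul]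
      _ ≤ 2 * H * u * D + D := by
          have := hKx.trans hxD
          gcongr
      _ ≤ 2 * H * u * D + H * u * D := by
          have : 1 ≤ H * u := one_le_mul_of_one_le_of_one_le hH hu
          have : 1 * (D : ℝ) ≤ H * u * D := by gcongr
          linarith
      _ = _ := by ring
  have haσ : a * σ ≤ g * τ := by
    rw [ha, hσ, hg, hτ, ← Real.sqrt_mul hA0.le, ← Real.sqrt_mul hHu.le]
    exact Real.sqrt_le_sqrt hAK
  have hE := numE m u τ σ ξ g v a N hm1 hu hum hN hτ0 hσ0 (Real.sqrt_le_sqrt hKx) hg1 ?_ ?_ ?_ ?_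
    ?_ ha0.le haσ ?_
  rotate_left
  · -- `ξ u^10 ≤ v`
    rw [hv, Real.le_sqrt (by positivity) hU0.le, mul_pow, hξ2]
    calc x * (u ^ 10) ^ 2 = x * u ^ 20 := by ring
      _ ≤ (U : ℝ) := hUl
  · rw [hv, Real.sqrt_le_left (by positivity)]
    calc (U : ℝ) ≤ 2 * (x * u ^ 20) := hUu
      _ ≤ 4 * (x * u ^ 20) := by
          have : 0 ≤ x * u ^ 20 := by positivity
          linarith
      _ = (2 * (ξ * u ^ 10)) ^ 2 := by
          rw [mul_pow, mul_pow, hξ2]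
          ring
  · have e : (ξ * τ ^ 2 * u ^ 20) ^ 2 ≤ (m ^ 6) ^ 2 := by
      calc (ξ * τ ^ 2 * u ^ 20) ^ 2 = ξ ^ 2 * (τ ^ 2) ^ 2 * u ^ 40 := by ring
        _ = x * D ^ 2 * u ^ 40 := by rw [hξ2, hτ2]
        _ ≤ m ^ 12 := hx40
        _ = (m ^ 6) ^ 2 := by ring
    exact le_of_pow_le_pow_left₀ (by norm_num) (by positivity) e
  · rw [hξ2]
    exact hxm
  · rw [hτ2]
    exact hDm
  · rw [hξ, Real.le_sqrt (by norm_num) hx0.le]
    linarith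
  -- `P` in terms of the square roots
  have hPe : P = CB * u * (v ^ 2 * τ ^ 4 * (τ * a) + τ ^ 4 * (v * a) + τ ^ 4 * (m ^ 6 * a) +
      τ ^ 2 * N * (a / v) + τ ^ 2 * m ^ 9 * a ^ 2 + N * a ^ 2) := by
    rw [hP, Real.sqrt_mul hD0.le, Real.sqrt_mul hU0.le, Real.sqrt_mul hN0.le,
      Real.sqrt_div hA0.le, hsqN, hN34, ← hτ, ← ha, ← hv, ha2, hv2]
    have h4 : τ ^ 4 = (D : ℝ) ^ 2 := by rw [← hτ2]; ring
    rw [h4, hτ2]
  set S : ℝ := v ^ 2 * τ ^ 4 * (τ * a) + τ ^ 4 * (v * a) + τ ^ 4 * (m ^ 6 * a) +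
      τ ^ 2 * N * (a / v) + τ ^ 2 * m ^ 9 * a ^ 2 + N * a ^ 2 with hSdef
  have hS0 : 0 ≤ S := by positivity
  rw [hg2, hτ2, ← hN] at hE
  -- the main part
  have hAKD : A * Ks / D ≤ 3 * H * u := by
    rw [div_le_iff₀ hD0]
    exact hAK
  have hHu1 : 1 ≤ H * u := one_le_mul_of_one_le_of_one_le hH hu
  have hmain := main_bd Ks τ σ A D P CB u S H N hHu1 hu0 (by linarith) hAKD hPe hσ2 hCB hS0 hτ0 hE
  -- the tail
  have htail := tail_bd κ N D (s * q) A h u m j hN1' hD0 (by positivity) hA0.le hh0 hu hum hN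
    hudef hj hDN' hm1 hAl
  have hHh : 2 * (N : ℝ) / h + 1 ≤ 3 * H := by
    have e : 2 * (N : ℝ) / h = 2 * ((N : ℝ) / h) := by ring
    rw [e]
    linarith
  have hH3 : H ^ 2 ≤ H ^ 2 := le_rfl
  have hH31 : 1 ≤ H ^ 2 := one_le_pow₀ hH
  refine (mul_le_mul_of_nonneg_right h1 (by positivity)).trans ?_
  have hP0 : 0 ≤ P := by rw [hPe]; positivity
  calc (2 * (N : ℝ) / h + 1) * (80 * Ks / τ * (1 + A * Ks / D) * P +
        16 * N * (D : ℝ) ^ 3 * (2 * (3 * N) + j + 1) *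
          ((D : ℝ) * (s * q) / (((A : ℝ) + 1) * h)) ^ j) * u ^ 7 =
      (2 * (N : ℝ) / h + 1) * (80 * Ks / τ * (1 + A * Ks / D) * P * u ^ 7 +
        16 * N * (D : ℝ) ^ 3 * (2 * (3 * N) + j + 1) *
          ((D : ℝ) * (s * q) / (((A : ℝ) + 1) * h)) ^ j * u ^ 7) := by ring
    _ ≤ (3 * H) * (9600 * CB * H ^ 2 * D * N + 16 * (7 + j) * D * N) := by
        gcongr
    _ ≤ (3 * H) * (9600 * CB * H ^ 2 * D * N + 16 * (7 + j) * D * N * H ^ 2) := by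
        have : 0 ≤ 16 * (7 + (j : ℝ)) * D * N := by positivity
        have h8 : 16 * (7 + (j : ℝ)) * D * N * 1 ≤ 16 * (7 + (j : ℝ)) * D * N * H ^ 2 := by gcongr
        refine mul_le_mul_of_nonneg_left ?_ (by positivity)
        linarith
    _ = _ := by ring

/-- The trivial case. -/
theorem blockD2 (κ : ℝ) (hκ : 0 < κ) (j : ℕ) : ∃ C : ℝ, 0 < C ∧
    ∀ (N q s D h : ℕ) (m H : ℝ), Blk1 N q D ((N : ℝ) ^ κ) m → 1 ≤ s → s * q ≤ N → 1 ≤ h → h ≤ N →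
    1 ≤ H → (N : ℝ) ≤ H * h → (N : ℝ) / (s * q) ≤ 8 * H * (N : ℝ) ^ κ →
    (∑ f ∈ Ioc D (2 * D), ∑ χ ∈ pc f, ‖PP (Wj N h j) N q s f χ‖) * ((N : ℝ) ^ κ) ^ 7 ≤
      C * H ^ 3 * D * N := by
  obtain ⟨CB, hCB, hB⟩ := tri κ hκ
  refine ⟨480 * CB, by positivity, ?_⟩
  intro N q s D h m H hS hs hsq hh hhN hH hNH hKs
  have hD60 := blk1_D4 hS
  set u : ℝ := (N : ℝ) ^ κ with hudef
  obtain ⟨hN1, hu2, hum, hN, hN34, hq, hqN, hD, hDN, hDm, hDq, hNq⟩ := hS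
  have hu : 1 ≤ u := by linarith
  have hu0 : 0 < u := by linarith
  have hm1 : 1 ≤ m := le_trans (one_le_pow₀ hu) hum
  have hm0 : 0 < m := by linarith
  have hq0 : (0 : ℝ) < q := by exact_mod_cast hq
  have hs0 : (0 : ℝ) < s := by exact_mod_cast hs
  have hh0 : (0 : ℝ) < h := by exact_mod_cast hh
  have hD0 : (0 : ℝ) < D := by exact_mod_cast hD
  have hN0 : (0 : ℝ) < N := by exact_mod_cast hN1
  have hu20 : 1 ≤ u ^ 20 := one_le_pow₀ hu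
  set U : ℕ := ⌈u ^ 20⌉₊ with hU
  have hUl : u ^ 20 ≤ U := Nat.le_ceil _
  have hUu : (U : ℝ) ≤ 2 * u ^ 20 := by
    have := Nat.ceil_lt_add_one (by positivity : 0 ≤ u ^ 20)
    rw [← hU] at this
    linarith
  have hU1 : 1 ≤ U := Nat.one_le_iff_ne_zero.2 (Nat.ceil_pos.2 (by positivity)).ne'
  have hU0 : (0 : ℝ) < U := by exact_mod_cast hU1
  have hUD : U ≤ D := by
    rw [hU, Nat.ceil_le]
    exact (pow_le_pow_right₀ hu (by norm_num)).trans hD60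
  have hUm : (U : ℝ) ≤ m := by
    calc (U : ℝ) ≤ 2 * u ^ 20 := hUu
      _ ≤ u * u ^ 20 := by gcongr
      _ = u ^ 21 := by ring
      _ ≤ u ^ 80 := pow_le_pow_right₀ hu (by norm_num)
      _ ≤ m := hum
  have hUN : U ^ 3 ≤ N := by
    have : ((U ^ 3 : ℕ) : ℝ) ≤ N := by
      push_cast
      calc (U : ℝ) ^ 3 ≤ m ^ 3 := by gcongr
        _ ≤ m ^ 12 := pow_le_pow_right₀ hm1 (by norm_num)
        _ = N := hN.symm
    exact_mod_cast this
  set P : ℝ := CB * u * (U * (D : ℝ) ^ 2 * Real.sqrt (D * (1 : ℕ)) +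
          (D : ℝ) ^ 2 * Real.sqrt (U * (1 : ℕ)) +
          (D : ℝ) ^ 2 * Real.sqrt (N * (1 : ℕ)) + D * N * Real.sqrt ((1 : ℕ) / U) +
          D * (N : ℝ) ^ ((3 : ℝ) / 4) * (1 : ℕ) + N * (1 : ℕ)) with hP
  have h1 := pp_triv N q s D h j P hN1 hq hh hhN hs hsq ?_
  swap
  · intro y hy
    refine le_trans (le_of_eq ?_) (hB N D 1 U y 0 1 le_rfl hU1 hD hUD hUN hDN hy le_rfl)
    refine sum_congr rfl fun f _ => sum_congr rfl fun χ hχ => ?_
    have e : Ioc 0 1 = ({1} : Finset ℕ) := by decide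
    rw [e, sum_singleton, pc_one' hχ, norm_one, mul_one]
  set τ := Real.sqrt D with hτ
  have hτ0 : 0 < τ := Real.sqrt_pos.2 hD0
  have hτ2 : τ ^ 2 = D := Real.sq_sqrt hD0.le
  set v := Real.sqrt U with hv
  have hv0 : 0 < v := Real.sqrt_pos.2 hU0
  have hv2 : v ^ 2 = U := Real.sq_sqrt hU0.le
  have hsqN : Real.sqrt N = m ^ 6 := by
    rw [hN, show m ^ 12 = (m ^ 6) ^ 2 by ring, Real.sqrt_sq (by positivity)]
  have hE := numF m u τ v N hm1 hu hum hN hτ0 ?_ ?_ ?_ ?_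
  rotate_left
  · rw [hv, Real.le_sqrt (by positivity) hU0.le]
    calc (u ^ 10) ^ 2 = u ^ 20 := by ring
      _ ≤ (U : ℝ) := hUl
  · rw [hv, Real.sqrt_le_left (by positivity)]
    calc (U : ℝ) ≤ 2 * u ^ 20 := hUu
      _ ≤ 4 * u ^ 20 := by
          have : 0 ≤ u ^ 20 := by positivity
          linarith
      _ = (2 * u ^ 10) ^ 2 := by ring
  · have e : (τ ^ 2 * u ^ 20) ^ 2 ≤ (m ^ 6) ^ 2 := by
      calc (τ ^ 2 * u ^ 20) ^ 2 = (D : ℝ) ^ 2 * u ^ 40 := by rw [hτ2]; ring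
        _ ≤ (q : ℝ) := hDq
        _ ≤ (N : ℝ) := by exact_mod_cast hqN
        _ = (m ^ 6) ^ 2 := by rw [hN]; ring
    exact le_of_pow_le_pow_left₀ (by norm_num) (by positivity) e
  · rw [hτ2]
    exact hDm
  have hPe : P = CB * u * (v ^ 2 * τ ^ 4 * τ + τ ^ 4 * v + τ ^ 4 * m ^ 6 + τ ^ 2 * N / v +
      τ ^ 2 * m ^ 9 + N) := by
    rw [hP]
    simp only [Nat.cast_one, mul_one]
    rw [Real.sqrt_div zero_le_one, Real.sqrt_one, hsqN, hN34, ← hτ, ← hv, hv2]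
    have h4 : τ ^ 4 = (D : ℝ) ^ 2 := by rw [← hτ2]; ring
    rw [h4, hτ2]
    ring
  set S : ℝ := v ^ 2 * τ ^ 4 * τ + τ ^ 4 * v + τ ^ 4 * m ^ 6 + τ ^ 2 * N / v +
      τ ^ 2 * m ^ 9 + N with hSdef
  have hS0 : 0 ≤ S := by positivity
  rw [hτ2, ← hN] at hE
  have hNh : (N : ℝ) / h ≤ H := by rw [div_le_iff₀ hh0]; exact hNH
  have hHh : 2 * (N : ℝ) / h + 1 ≤ 3 * H := by
    have e : 2 * (N : ℝ) / h = 2 * ((N : ℝ) / h) := by ring
    rw [e]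
    linarith
  refine (mul_le_mul_of_nonneg_right h1 (by positivity)).trans ?_
  have hP0 : 0 ≤ P := by rw [hPe]; positivity
  have h6 : S * u ^ 9 * u ≤ 10 * D * N * u := by
    calc S * u ^ 9 * u = S * u ^ 10 := by ring
      _ ≤ 10 * (D : ℝ) * N := hE
      _ ≤ 10 * (D : ℝ) * N * u := by
          have : 0 ≤ 10 * (D : ℝ) * N := by positivity
          exact le_mul_of_one_le_right this hu
  have h7 : S * u ^ 9 ≤ 10 * D * N := le_of_mul_le_mul_right h6 hu0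
  calc (2 * (N : ℝ) / h + 1) * (2 * ((N : ℝ) / (s * q)) * P) * u ^ 7 ≤
      (3 * H) * (2 * (8 * H * u) * P) * u ^ 7 := by gcongr
    _ = 48 * H ^ 2 * CB * (S * u ^ 9) := by rw [hPe]; ring
    _ ≤ 48 * H ^ 2 * CB * (10 * D * N) := by gcongr
    _ = 480 * CB * H ^ 2 * D * N := by ring
    _ ≤ 480 * CB * H ^ 3 * D * N := by
        have : H ^ 2 ≤ H ^ 3 := pow_le_pow_right₀ hH (by norm_num)
        gcongr

theorem blockD (κ : ℝ) (hκ : 0 < κ) (j : ℕ) (hj : 6 ≤ κ * j) : ∃ C : ℝ, 1 ≤ C ∧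
    ∀ (N q s D h : ℕ) (m H : ℝ), Blk1 N q D ((N : ℝ) ^ κ) m → 1 ≤ s → s * q ≤ N → 1 ≤ h → h ≤ N →
    1 ≤ H → (N : ℝ) ≤ H * h → ∑ n ∈ Icc 1 N, (Λ n : ℝ) ≤ 2 * N →
    (∑ f ∈ Ioc D (2 * D), ∑ χ ∈ pc f, ‖PP (Wj N h j) N q s f χ‖) * ((N : ℝ) ^ κ) ^ 7 ≤
      C * H ^ 3 * D * N := by
  obtain ⟨C1, hC1, h1⟩ := blockD1 κ hκ j hj
  obtain ⟨C2, hC2, h2⟩ := blockD2 κ hκ j
  refine ⟨max 1 (max C1 C2), le_max_left _ _, ?_⟩
  intro N q s D h m H hS hs hsq hh hhN hH hNH hψ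
  have hD60 := blk1_D4 hS
  have hu2 := hS.hu2
  have hq := hS.hq
  set u : ℝ := (N : ℝ) ^ κ with hudef
  have hu : 1 ≤ u := by linarith
  have hu0 : 0 < u := by linarith
  have hq0 : (0 : ℝ) < q := by exact_mod_cast hq
  have hs0 : (0 : ℝ) < s := by exact_mod_cast hs
  have hh0 : (0 : ℝ) < h := by exact_mod_cast hh
  have hD0 : (0 : ℝ) < D := by exact_mod_cast hS.hD
  have hDN0 : 0 ≤ (D : ℝ) * N := by positivity
  set A : ℕ := ⌈2 * D * (s * q) * u / h⌉₊ with hA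
  have hAl : 2 * D * (s * q) * u / h ≤ A := Nat.le_ceil _
  have hAu : (A : ℝ) ≤ 2 * D * (s * q) * u / h + 1 := by
    have := Nat.ceil_lt_add_one (by positivity : 0 ≤ 2 * (D : ℝ) * (s * q) * u / h)
    rw [← hA] at this
    exact this.le
  have hA1 : 1 ≤ A := Nat.one_le_iff_ne_zero.2 (Nat.ceil_pos.2 (by positivity)).ne'
  by_cases hAD : 2 * A ≤ D
  · refine (h1 N q s D h A m H hS hs hsq hh hhN hH hNH hψ hA1 hAD hAl hAu).trans ?_
    have : C1 ≤ max 1 (max C1 C2) := (le_max_left _ _).trans (le_max_right _ _)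
    gcongr
  · refine (h2 N q s D h m H hS hs hsq hh hhN hH hNH ?_).trans ?_
    · rw [not_le] at hAD
      have h3 : (D : ℝ) < 2 * A := by exact_mod_cast hAD
      have h4 : (64 : ℝ) ≤ D := by
        calc (64 : ℝ) = 2 ^ 6 := by norm_num
          _ ≤ u ^ 6 := by gcongr
          _ ≤ u ^ 60 := pow_le_pow_right₀ hu (by norm_num)
          _ ≤ D := hD60
      have h5 : (D : ℝ) < 4 * D * (s * q) * u / h + 2 := by
        calc (D : ℝ) < 2 * A := h3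
          _ ≤ 2 * (2 * D * (s * q) * u / h + 1) := by gcongr
          _ = _ := by ring
      have h6 : (D : ℝ) / 2 < 4 * D * (s * q) * u / h := by linarith
      rw [lt_div_iff₀ hh0] at h6
      have h7 : (h : ℝ) ≤ 8 * (s * q) * u := by
        have h8 : (D : ℝ) * h ≤ D * (8 * (s * q) * u) := by linarith only [h6]
        exact le_of_mul_le_mul_left h8 hD0
      rw [div_le_iff₀ (by positivity)]
      calc (N : ℝ) ≤ H * h := hNH
        _ ≤ H * (8 * (s * q) * u) := by gcongr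
        _ = _ := by ring
    · have : C2 ≤ max 1 (max C1 C2) := (le_max_right _ _).trans (le_max_right _ _)
      gcongr

end Pool.Agent.M848.SV
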