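import Pool.Agent.Lib.MP_848d44_nt.SV.FinF
import Pool.Agent.Lib.MP_848d44_nt.SV.FinL

set_option autoImplicit false

/-!
# MP_848d44_nt, project SV: the lower bound in the full range
-/

noncomputable section

namespace Pool.Agent.M848.SV

open Finset Filter Pool.Agent.M848 Pool.Agent.M848.FC
open scoped ArithmeticFunction.vonMangoldt ComplexConjugate

theorem master2 (N q R₀ R : ℕ) (hq : 1 ≤ q) (W : ℤ → ℝ) (η E₁ E₂ E₃ E₄ E₅ τ : ℝ)
    (hψ : ∑ n ∈ Icc 1 N, (Λ n : ℝ) ≤ 2 * N)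
    (hW : (1 - 3 * η) * N ≤ ∑ n ∈ Icc 1 N, (Λ n : ℝ) * W (n : ℤ))
    (hoff : ‖((A1 W N q R₀ R - Dg W N q R₀ R : ℝ) : ℂ) -
          (MainS W N q R₀ R 1 + MainS W N q R₀ R (-1))‖ ≤ E₁)
    (hm : ‖MainS W N q R₀ R 1 + MainS W N q R₀ R (-1)‖ ≤ 2 * E₂)
    (hdg : |Dg W N q R₀ R - JJ q R₀ R * ∑ n ∈ Icc 1 N, (Λ n : ℝ) * W (n : ℤ)| ≤ E₃)
    (hmean : |∑ a ∈ Co q, TS W N q R₀ R a| ≤ E₄)
    (hsec : ∑ a ∈ Co q, TS W N q R₀ R a ^ 2 ≤
      JJ q R₀ R * (N * ((q.totient : ℝ) / q) + τ) + E₅) (Y : ℝ) :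
    (1 - 6 * η) * ((q : ℝ) / q.totient * JJ q R₀ R) * N -
      (2 * ((q : ℝ) / q.totient) * (E₁ + 2 * E₂ + E₃ + 2 * N / q.totient * E₄) +
        ((q : ℝ) / q.totient) ^ 2 * (JJ q R₀ R * τ + E₅)) ≤ VV N q Y := by
  have hφ : (0 : ℝ) < q.totient := by exact_mod_cast Nat.totient_pos.2 hq
  have hq0 : (0 : ℝ) < q := by exact_mod_cast hq
  have hJ := JJ_nonneg q R₀ R
  set lam : ℝ := (q : ℝ) / q.totient with hlam
  have hlam0 : 0 < lam := div_pos hq0 hφ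
  set J := JJ q R₀ R with hJdef
  set S := ∑ n ∈ Icc 1 N, (Λ n : ℝ) * W (n : ℤ) with hS
  have h1 := VV_dual N q hq Y lam (fun a => TS W N q R₀ R a)
  have hA : ∑ a ∈ Co q, Ps N q a * TS W N q R₀ R a = A1 W N q R₀ R := rfl
  -- the first moment
  have h2 : |A1 W N q R₀ R - Dg W N q R₀ R| ≤ E₁ + 2 * E₂ := by
    have h3 : ‖((A1 W N q R₀ R - Dg W N q R₀ R : ℝ) : ℂ)‖ ≤ E₁ + 2 * E₂ := by
      have h4 := norm_add_le (((A1 W N q R₀ R - Dg W N q R₀ R : ℝ) : ℂ) -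
          (MainS W N q R₀ R 1 + MainS W N q R₀ R (-1)))
        (MainS W N q R₀ R 1 + MainS W N q R₀ R (-1))
      rw [sub_add_cancel] at h4
      exact h4.trans (add_le_add hoff hm)
    rw [Complex.norm_real, Real.norm_eq_abs] at h3
    exact h3
  have h5 : J * ((1 - 3 * η) * N) - (E₁ + 2 * E₂ + E₃) ≤ A1 W N q R₀ R := by
    have h6 := (abs_le.1 h2).1
    have h7 := (abs_le.1 hdg).1
    have h8 : J * ((1 - 3 * η) * N) ≤ J * S := mul_le_mul_of_nonneg_left hW hJ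
    linarith
  -- the mean
  obtain ⟨hM0, hM⟩ := MM_le N q hq (2 * N) hψ
  have h9 : MM N q * ∑ a ∈ Co q, TS W N q R₀ R a ≤ 2 * N / q.totient * E₄ := by
    have hE4 : 0 ≤ E₄ := (abs_nonneg _).trans hmean
    calc MM N q * ∑ a ∈ Co q, TS W N q R₀ R a ≤ MM N q * E₄ :=
          mul_le_mul_of_nonneg_left ((le_abs_self _).trans hmean) hM0
      _ ≤ _ := mul_le_mul_of_nonneg_right hM hE4
  have h10 : lam ^ 2 * ∑ a ∈ Co q, TS W N q R₀ R a ^ 2 ≤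
      lam * J * N + lam ^ 2 * (J * τ + E₅) := by
    have e : lam ^ 2 * (J * (N * ((q.totient : ℝ) / q) + τ) + E₅) =
        lam * J * N + lam ^ 2 * (J * τ + E₅) := by
      have : lam * ((q.totient : ℝ) / q) = 1 := by
        rw [hlam]
        field_simp
      calc _ = lam * J * N * (lam * ((q.totient : ℝ) / q)) + lam ^ 2 * (J * τ + E₅) := by ring
        _ = _ := by rw [this, mul_one]
    rw [← e]
    exact mul_le_mul_of_nonneg_left hsec (by positivity)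
  rw [hA] at h1
  have h11 : 2 * lam * (J * ((1 - 3 * η) * N) - (E₁ + 2 * E₂ + E₃) - 2 * N / q.totient * E₄) ≤
      2 * lam * (A1 W N q R₀ R - MM N q * ∑ a ∈ Co q, TS W N q R₀ R a) :=
    mul_le_mul_of_nonneg_left (by linarith) (by positivity)
  nlinarith [h1, h10, h11]

theorem wj_one (N h j : ℕ) (η : ℝ) (hh1 : 1 ≤ h) (hh2 : ((j : ℝ) + 1) * h ≤ η * N) (m : ℤ)
    (h1 : η * N ≤ m) (h2 : (m : ℝ) ≤ (1 - η) * N) : Wj N h j m = 1 := by
  refine spl_eq_one _ _ _ _ hh1 m ?_ ?_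
  · have h3 : ((((j : ℤ) + 1) * (h : ℤ) : ℤ) : ℝ) ≤ m := by
      push_cast
      exact hh2.trans h1
    have h5 : ((j : ℤ) + 1) * h ≤ m := by exact_mod_cast h3
    push_cast
    nlinarith
  · have h3 : ((m + ((j : ℤ) + 1) * (h : ℤ) : ℤ) : ℝ) ≤ ((N : ℤ) : ℝ) := by
      push_cast
      linarith
    have h5 : m + ((j : ℤ) + 1) * h ≤ N := by exact_mod_cast h3
    linarith

theorem concl (N R R₀ : ℕ) (η ε' J lam Err V C' Kk : ℝ) (hN0 : (0 : ℝ) < N)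
    (hη0 : 0 < η) (hη1 : η ≤ 1 / 16) (hε' : ε' = 16 * η) (hErr0 : 0 ≤ Err)
    (herr : Err * Kk ≤ C' * N) (hKk : 1 ≤ Kk) (hC' : C' ≤ η * Real.log N) (hR₀1 : 1 ≤ R₀)
    (hR1 : 1 ≤ R) (hRN : R ≤ N) (hlogN : 0 ≤ Real.log N)
    (hℓ : Real.log R - Real.log R₀ - η * Real.log N ≤ lam * J)
    (key : (1 - 6 * η) * (lam * J) * N - Err ≤ V) :
    N * (Real.log R - Real.log R₀ - ε' * Real.log N) ≤ V := by
  have hErr2 : Err ≤ η * Real.log N * N := by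
    calc Err ≤ Err * Kk := by nlinarith
      _ ≤ C' * N := herr
      _ ≤ _ := by gcongr
  have hR₀log : 0 ≤ Real.log R₀ := Real.log_natCast_nonneg R₀
  have hR0 : (0 : ℝ) < R := by exact_mod_cast hR1
  have hRlog : Real.log R ≤ Real.log N := Real.log_le_log hR0 (by exact_mod_cast hRN)
  have hηL : 0 ≤ η * Real.log N := by positivity
  have hmain : (Real.log R - Real.log R₀ - 7 * η * Real.log N) ≤ (1 - 6 * η) * (lam * J) := by
    have h3 : 0 ≤ 1 - 6 * η := by linarith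
    have h4 := mul_le_mul_of_nonneg_left hℓ h3
    have h5 : Real.log R - Real.log R₀ - η * Real.log N ≤ Real.log N := by linarith
    have h6 : 6 * η * (Real.log R - Real.log R₀ - η * Real.log N) ≤ 6 * η * Real.log N := by
      gcongr
    linarith
  have hfin : N * (Real.log R - Real.log R₀ - 7 * η * Real.log N) ≤
      (1 - 6 * η) * (lam * J) * N := by
    rw [mul_comm (N : ℝ)]
    exact mul_le_mul_of_nonneg_right hmain hN0.le
  have h8 : N * (Real.log R - Real.log R₀ - ε' * Real.log N) ≤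
      N * (Real.log R - Real.log R₀ - 7 * η * Real.log N) - η * Real.log N * N := by
    rw [hε']
    have h10 : 0 ≤ η * Real.log N * N := by positivity
    have h11 : (N : ℝ) * (Real.log R - Real.log R₀ - 16 * η * Real.log N) =
        N * (Real.log R - Real.log R₀ - 7 * η * Real.log N) - 9 * (η * Real.log N * N) := by ring
    rw [h11]
    linarith
  linarith [key]

theorem gen2 (κ C₃ ε' : ℝ) (j : ℕ) (hκ : 0 < κ) (hκ1 : κ ≤ 1 / 10) (hj : 6 ≤ κ * j)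
    (hε : 0 < ε') (hε1 : ε' ≤ 1) :
    ∃ N₀ : ℕ, ∀ N : ℕ, N₀ ≤ N →
    ∀ (q R₀ R : ℕ) (m : ℝ), Sz2 N q R₀ R ((N : ℝ) ^ κ) m C₃ → R₀ ≤ R →
      (((N / q : ℕ) : ℝ) + 1) * (R : ℝ) ^ 2 * ((N : ℝ) ^ κ) ^ 30 ≤ N →
      ∀ Y : ℝ, N * (Real.log R - Real.log R₀ - ε' * Real.log N) ≤ VV N q Y := by
  set η : ℝ := ε' / 16 with hη
  have hη0 : 0 < η := by positivity
  have hη1 : η ≤ 1 / 16 := by rw [hη]; linarith
  obtain ⟨Co', hCo, ho⟩ := offexp κ hκ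
  obtain ⟨Cs, hCs, hs⟩ := sec κ hκ
  obtain ⟨Cm, hCm, hm⟩ := mean_T κ hκ
  obtain ⟨Cd, hCd, hd⟩ := diag_one κ hκ
  obtain ⟨CM, hCM, hM⟩ := mainS_bound2 κ hκ j hj
  obtain ⟨CJ, hCJ, hJ⟩ := JJ_le κ hκ
  obtain ⟨C₂, hC₂, h2⟩ := divisor_bound κ hκ
  obtain ⟨N₁, hN₁⟩ := pnt_w η hη0
  obtain ⟨N₂, hN₂⟩ := psi_le
  obtain ⟨N₃, hN₃⟩ := JJ_lower η hη0
  set H : ℝ := 2 * (j + 1) / η with hH
  have hH1 : 2 ≤ H := by
    rw [hH, le_div_iff₀ hη0]
    have : (0 : ℝ) ≤ j := Nat.cast_nonneg j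
    linarith
  have hH0 : 0 < H := by linarith
  set H' : ℝ := (H ^ 3 - 1) / 2 with hH'
  have hH3 : 2 ^ 3 ≤ H ^ 3 := by gcongr
  have hH'0 : 0 < H' := by rw [hH']; linarith
  have hH'e : 2 * H' + 1 = H ^ 3 := by rw [hH']; ring
  set C' : ℝ := 2 * C₂ * (Co' + 2 * (CM * C₃ ^ 2 * (2 * H' + 1)) + Cd + 2 * C₂ * Cm) +
    C₂ ^ 2 * (CJ * C₂ + 9 * Cs) with hC'
  -- large N
  have hlogt : Tendsto (fun N : ℕ => Real.log (N : ℝ)) atTop atTop :=
    Real.tendsto_log_atTop.comp tendsto_natCast_atTop_atTop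
  obtain ⟨N₄, hN₄⟩ := Filter.eventually_atTop.1 (hlogt.eventually_ge_atTop (C' / η))
  obtain ⟨N₅, hN₅⟩ := Filter.eventually_atTop.1
    ((tendsto_natCast_atTop_atTop (R := ℝ)).eventually_ge_atTop H)
  refine ⟨max 1 (max N₁ (max N₂ (max N₃ (max N₄ N₅)))), ?_⟩
  intro N hN q R₀ R m hS hR₀R hbig Y
  have hNN : N₁ ≤ N ∧ N₂ ≤ N ∧ N₃ ≤ N ∧ N₄ ≤ N ∧ N₅ ≤ N := by
    simp only [max_le_iff] at hN
    tauto
  have hS' := hS
  set u : ℝ := (N : ℝ) ^ κ with hudef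
  obtain ⟨hu2, hum, hNm, hN56, hN34, hlog, hC₃, hN1, hq, hqN, hR₀, hR, hRN, hK, hRq, hNq⟩ := hS
  have hu : 1 ≤ u := by linarith
  have hu0 : 0 < u := by linarith
  have hN0 : (0 : ℝ) < N := by exact_mod_cast hN1
  have hN1' : (1 : ℝ) ≤ N := by exact_mod_cast hN1
  have hL4 := hN₄ N hNN.2.2.2.1
  have hL5 : H ≤ N := hN₅ N hNN.2.2.2.2
  -- the weight
  have hj1 : (0 : ℝ) < (j : ℝ) + 1 := by positivity
  set h : ℕ := ⌊(N : ℝ) * 2 / H⌋₊ with hhdef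
  have hη' : (N : ℝ) * 2 / H = η * N / (j + 1) := by
    rw [hH]
    field_simp
  have h2N : 2 ≤ (N : ℝ) * 2 / H := by
    rw [le_div_iff₀ hH0]
    linarith
  have hh1 : 1 ≤ h := by
    rw [hhdef]
    exact Nat.le_floor (by push_cast; linarith)
  have hh2 : ((j : ℝ) + 1) * h ≤ η * N := by
    have h3 : (h : ℝ) ≤ (N : ℝ) * 2 / H := Nat.floor_le (by positivity)
    rw [hη', le_div_iff₀ hj1] at h3
    linarith
  have hh3 : (N : ℝ) / H ≤ h := by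
    have := Nat.lt_floor_add_one ((N : ℝ) * 2 / H)
    rw [← hhdef] at this
    have h3 : (N : ℝ) * 2 / H = 2 * (N / H) := by ring
    rw [h3] at this h2N
    linarith
  have hNH : (N : ℝ) ≤ H * h := by
    rw [div_le_iff₀ hH0] at hh3
    linarith
  have hhN : h ≤ N := by
    have h3 : (h : ℝ) ≤ (N : ℝ) * 2 / H := Nat.floor_le (by positivity)
    have h4 : (N : ℝ) * 2 / H ≤ N := by
      rw [div_le_iff₀ hH0]
      gcongr
    exact_mod_cast h3.trans h4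
  set W := Wj N h j with hWdef
  have hW := wj_wgt N h j hh1
  rw [← hWdef] at hW
  have htv : TV2 W := spl_tv _ _ _ _ hh1
  have hψ := hN₂ N hNN.2.1
  have hWs : (1 - 3 * η) * N ≤ ∑ n ∈ Icc 1 N, (Λ n : ℝ) * W (n : ℤ) := by
    refine hN₁ N hNN.1 W hW fun m h1 h2 => ?_
    exact wj_one N h j η hh1 hh2 m h1 (by linarith)
  -- the modules
  have e1 := ho N q R₀ R hq hqN hR hRN W hW
  have e2 : ‖MainS W N q R₀ R 1 + MainS W N q R₀ R (-1)‖ ≤
      2 * (CM * C₃ ^ 2 * (2 * H' + 1) * N / u ^ 2) := by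
    have h3 := hM N q R₀ R m C₃ hS' h H hh1 hhN (by linarith) hNH hψ
    have h4 : ‖MainS W N q R₀ R 1 + MainS W N q R₀ R (-1)‖ ≤
        CM * C₃ ^ 2 * (2 * H' + 1) * N / u ^ 2 := by
      rw [le_div_iff₀ (by positivity), hH'e]
      exact h3
    have h5 : 0 ≤ CM * C₃ ^ 2 * (2 * H' + 1) * N / u ^ 2 := (norm_nonneg _).trans h4
    linarith
  have e3 := hd N q R₀ R hq hqN hR hRN W hW
  have e4 := hm N q R₀ R hq hqN hR₀ hR hRN W hW htv
  have e5 := hs N q R₀ R (rd q) hq hqN hR₀ hR₀R hRN (rd_dvd q) (rd_sf q) W hW 8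
    (qbv W N q (rd q) (R ^ 2) hW htv)
  rw [rd_tot q hq] at e5
  rw [← hudef] at e1 e3 e4 e5
  have key := master2 N q R₀ R hq W η _ _ _ _ _ _ hψ hWs e1 e2 e3 e4 e5 Y
  -- sizes
  have hφ : (0 : ℝ) < q.totient := by exact_mod_cast Nat.totient_pos.2 hq
  have hq0 : (0 : ℝ) < q := by exact_mod_cast hq
  set lam : ℝ := (q : ℝ) / q.totient with hlam
  have hlam0 : 0 < lam := div_pos hq0 hφ
  have hpow : ∀ n : ℕ, 1 ≤ n → n ≤ N → (n.divisors.card : ℝ) ≤ C₂ * u := by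
    intro n hn hnN
    refine (h2 n hn).trans ?_
    have : (n : ℝ) ^ κ ≤ (N : ℝ) ^ κ :=
      Real.rpow_le_rpow (Nat.cast_nonneg _) (by exact_mod_cast hnN) hκ.le
    rw [hudef]
    gcongr
  have hlamC : lam ≤ C₂ * u := by
    have h3 := Pool.Agent.M848.totient_lower q
    rw [hlam, div_le_iff₀ hφ]
    exact h3.trans (mul_le_mul_of_nonneg_right (hpow q hq hqN) hφ.le)
  have hτ : ((rd q).divisors.card : ℝ) ≤ C₂ * u :=
    hpow _ (rd_pos q) ((Nat.le_of_dvd hq (rd_dvd q)).trans hqN)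
  have hτ0 : (0 : ℝ) ≤ (rd q).divisors.card := Nat.cast_nonneg _
  have hJu := hJ N q R₀ R hN1 hRN
  rw [← hudef] at hJu
  have hJ0 := JJ_nonneg q R₀ R
  set J := JJ q R₀ R with hJdef
  set K : ℝ := ((N / q : ℕ) : ℝ) with hKdef
  have hK0 : 0 ≤ K := Nat.cast_nonneg _
  have hR1 : (1 : ℝ) ≤ R := by exact_mod_cast hR
  have hR₀0 : (0 : ℝ) < R₀ := by exact_mod_cast hR₀
  have hC₃0 : 0 < C₃ := by linarith
  have hC₂0 : 0 < C₂ := by linarith
  have hCM0 : 0 < CM := by linarith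
  have hb1 : (K + 1) * R * u ^ 30 ≤ N := by
    refine le_trans ?_ hbig
    have : (R : ℝ) ≤ (R : ℝ) ^ 2 := by nlinarith
    gcongr
  have hNq' : (N : ℝ) / q ≤ K + 1 := by
    rw [div_le_iff₀ hq0, hKdef]
    have h3 : N < (N / q + 1) * q := by
      have h4 := Nat.div_add_mod N q
      have h5 := Nat.mod_lt N hq
      nlinarith
    have : (N : ℝ) < ((N / q : ℕ) + 1) * q := by exact_mod_cast h3
    linarith
  have hu5 : u ^ 5 ≤ N := by
    have h4 : u ^ 5 = (N : ℝ) ^ (κ * 5) := by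
      rw [hudef, ← Real.rpow_natCast, ← Real.rpow_mul hN0.le]
      norm_num
    rw [h4]
    calc (N : ℝ) ^ (κ * 5) ≤ (N : ℝ) ^ (1 : ℝ) :=
          Real.rpow_le_rpow_of_exponent_le hN1' (by linarith)
      _ = N := Real.rpow_one _
  have hφK : 2 * (N : ℝ) / q.totient ≤ 2 * (K + 1) * lam := by
    have h3 : 2 * (N : ℝ) / q.totient = 2 * (N / q) * lam := by
      rw [hlam]
      field_simp
    rw [h3]
    gcongr
  have herr := gen_err N K R R₀ u lam Co' CM C₃ H' Cd Cm Cs C₂ CJ J _ _ hN0 hu hφ hK0 hR1 hR₀0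
    hlam0 hCo hCM0 hC₃0 hH'0 hCd hCm hCs hC₂0 (by linarith) hJ0 hτ0 hlamC hτ hJu hφK hb1 hbig hu5 hK
  rw [← hC'] at herr
  have hlogN : 0 ≤ Real.log N := Real.log_natCast_nonneg N
  have hJl := hN₃ N hNN.2.2.1 q R₀ R hq hqN hR₀ hR₀R hRN
  have hℓ : Real.log R - Real.log R₀ - η * Real.log N ≤ lam * J := by
    have h3 : lam * ((q.totient : ℝ) / q) = 1 := by
      rw [hlam]
      field_simp
    calc Real.log R - Real.log R₀ - η * Real.log N =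
        lam * ((q.totient : ℝ) / q * (Real.log R - Real.log R₀ - η * Real.log N)) := by
          rw [← mul_assoc, h3, one_mul]
      _ ≤ lam * J := mul_le_mul_of_nonneg_left hJl hlam0.le
  have h4 : C' ≤ η * Real.log N := by
    have h5 := (div_le_iff₀ hη0).1 hL4
    linarith
  exact concl N R R₀ η ε' J lam _ _ C' u hN0 hη0 hη1 (by rw [hη]; ring)
    (by positivity) herr hu h4 hR₀ hR hRN hlogN hℓ key

end Pool.Agent.M848.SV
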