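import Pool.Agent.Lib.MP_848d44_nt.SV.FinL

set_option autoImplicit false

/-!
# MP_848d44_nt, project SV, part 2: the part `f ≤ 2^I` of the main off-diagonal sum
-/

noncomputable section

namespace Pool.Agent.M848.SV

open Finset Pool.Agent.M848 Pool.Agent.M848.FC
open scoped ArithmeticFunction.vonMangoldt ComplexConjugate

/-- The part `f ≤ 2^I` of the main off-diagonal sum. -/
def MainLo (W : ℤ → ℝ) (N q R₀ R I : ℕ) (σ : ℤ) : ℂ :=
  ∑ f ∈ Icc 1 R, ∑ e ∈ Icc 1 R, ∑ s ∈ e.divisors,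
    (if f * e ∈ RS q R₀ R then ((cf f e s : ℝ) : ℂ) else 0) *
      (if f ≤ 2 ^ I then Zf W N q σ f s else 0)

/-- The part `f > 2^I` of the main off-diagonal sum. -/
def MainHi (W : ℤ → ℝ) (N q R₀ R I : ℕ) (σ : ℤ) : ℂ :=
  ∑ f ∈ Icc 1 R, ∑ e ∈ Icc 1 R, ∑ s ∈ e.divisors,
    (if f * e ∈ RS q R₀ R then ((cf f e s : ℝ) : ℂ) else 0) *
      (if f ≤ 2 ^ I then 0 else Zf W N q σ f s)

theorem main_split (W : ℤ → ℝ) (N q R₀ R I : ℕ) (σ : ℤ) :
    MainS W N q R₀ R σ = MainLo W N q R₀ R I σ + MainHi W N q R₀ R I σ := by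
  unfold MainS MainLo MainHi
  rw [← sum_add_distrib]
  refine sum_congr rfl fun f _ => ?_
  rw [← sum_add_distrib]
  refine sum_congr rfl fun e _ => ?_
  rw [← sum_add_distrib]
  refine sum_congr rfl fun s _ => ?_
  rw [← mul_add]
  split_ifs <;> simp

theorem main_lo (δ : ℝ) (hδ : 0 < δ) : ∃ C : ℝ, 0 < C ∧ ∀ N q R₀ R : ℕ, 1 ≤ q → 1 ≤ R₀ →
    1 ≤ R → R ≤ N → ∀ W : ℤ → ℝ, Wgt W N →
    ∑ n ∈ Icc 1 N, (Λ n : ℝ) ≤ 2 * N → ∀ I : ℕ, ∀ P : ℕ → ℕ → ℝ,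
    (∀ i s, (2 ^ i < R ∧ i < I) → 1 ≤ s → s ≤ N / q →
      ∑ f ∈ Ioc (2 ^ i) (2 ^ (i + 1)), ∑ χ ∈ pc f, ‖PP W N q s f χ‖ ≤ P i s) →
      ‖MainLo W N q R₀ R I 1 + MainLo W N q R₀ R I (-1)‖ ≤ C * (N : ℝ) ^ δ *
        (∑ s ∈ Icc 1 R, min (1 / (s : ℝ)) (1 / (R₀ : ℝ)) * (((N / q / s : ℕ) : ℝ) * (4 * N)) +
          ∑ i ∈ (range (Nat.log 2 R + 1)).filter (fun i => 2 ^ i < R ∧ i < I),
            ∑ s ∈ Icc 1 (N / q), min (1 / ((s : ℝ) * 2 ^ (i + 1))) (1 / (R₀ : ℝ)) * P i s) := by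
  obtain ⟨C, hC, hw⟩ := weight_sum δ hδ
  refine ⟨C, hC, ?_⟩
  intro N q R₀ R hq hR₀ hR hRN W hW hψ I P hP
  have hP0 : ∀ i s, (2 ^ i < R ∧ i < I) → 1 ≤ s → s ≤ N / q → 0 ≤ P i s := fun i s hi h1 h2 =>
    (sum_nonneg fun f _ => sum_nonneg fun χ _ => norm_nonneg _).trans (hP i s hi h1 h2)
  set B' : ℕ → ℕ → ℝ := fun i s => match i with
    | 0 => ((N / q / s : ℕ) : ℝ) * (4 * N)
    | i + 1 => if (2 ^ i < R ∧ i < I) ∧ 1 ≤ s ∧ s ≤ N / q then P i s else 0 with hB'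
  have hB0 : ∀ s, B' 0 s = ((N / q / s : ℕ) : ℝ) * (4 * N) := fun s => rfl
  have hB1 : ∀ i s, B' (i + 1) s = if (2 ^ i < R ∧ i < I) ∧ 1 ≤ s ∧ s ≤ N / q then P i s else 0 :=
    fun i s => rfl
  set Z : ℕ → ℕ → ℕ → ℂ := fun f _ s =>
    if f ≤ R ∧ f ≤ 2 ^ I then Zf W N q 1 f s + Zf W N q (-1) f s else 0 with hZ
  have hphi : ∀ (σ : ℤ), (σ = 1 ∨ σ = -1) → ∀ s, 1 ≤ s → ∀ f, ∀ χ ∈ pc f,
      ‖Phi W N q σ s χ‖ ≤ ((N / q / s : ℕ) : ℝ) * (2 * N) := by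
    intro σ hσ s hs f χ hχ
    refine (phi_triv W N q hq hW σ hσ s hs χ (L1pAux.pc_norm hχ)).trans ?_
    exact mul_le_mul_of_nonneg_left hψ (Nat.cast_nonneg _)
  have hpp : ∀ s, 1 ≤ s → ∀ f, ∀ χ ∈ pc f,
      ‖PP W N q s f χ‖ ≤ ((N / q / s : ℕ) : ℝ) * (4 * N) := by
    intro s hs f χ hχ
    have h1 := hphi 1 (Or.inl rfl) s hs f χ hχ
    have h2 := hphi (-1) (Or.inr rfl) s hs f χ hχ
    refine (PP_norm W N q s f χ hχ).trans ((add_le_add h1 h2).trans (le_of_eq ?_))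
    ring
  have h1 := hw N q R₀ R hR₀ hR hRN Z B' ?_ ?_ ?_
  · have e1 : MainLo W N q R₀ R I 1 + MainLo W N q R₀ R I (-1) =
        ∑ f ∈ Icc 1 R, ∑ e ∈ Icc 1 R, ∑ s ∈ e.divisors,
        (if f * e ∈ RS q R₀ R then ((cf f e s : ℝ) : ℂ) else 0) * Z f e s := by
      unfold MainLo
      rw [← sum_add_distrib]
      refine sum_congr rfl fun f hf => ?_
      rw [← sum_add_distrib]
      refine sum_congr rfl fun e _ => ?_
      rw [← sum_add_distrib]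
      refine sum_congr rfl fun s _ => ?_
      rw [hZ]
      simp only
      by_cases hfI : f ≤ 2 ^ I
      · have h5 : f ≤ R ∧ f ≤ 2 ^ I := ⟨(mem_Icc.1 hf).2, hfI⟩
        simp only [hfI, h5, and_self, if_true]
        ring
      · have h5 : ¬ (f ≤ R ∧ f ≤ 2 ^ I) := fun h => hfI h.2
        simp only [hfI, and_false, if_false]
        ring
    rw [e1]
    refine h1.trans (mul_le_mul_of_nonneg_left ?_ (by positivity))
    rw [sum_range_succ']
    rw [add_comm]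
    refine add_le_add (le_of_eq ?_) ?_
    · refine sum_congr rfl fun s _ => ?_
      rw [hB0]
      simp
    · rw [sum_filter]
      refine sum_le_sum fun i _ => ?_
      by_cases hi : 2 ^ i < R ∧ i < I
      · rw [if_pos hi]
        have e2 : ∑ s ∈ Icc 1 R, min (1 / ((s : ℝ) * 2 ^ (i + 1))) (1 / (R₀ : ℝ)) * B' (i + 1) s =
            ∑ s ∈ (Icc 1 R).filter (fun s => s ≤ N / q),
              min (1 / ((s : ℝ) * 2 ^ (i + 1))) (1 / (R₀ : ℝ)) * P i s := by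
          rw [sum_filter]
          refine sum_congr rfl fun s hs => ?_
          rw [hB1]
          by_cases hs' : s ≤ N / q
          · rw [if_pos ⟨hi, (mem_Icc.1 hs).1, hs'⟩, if_pos hs']
          · rw [if_neg (fun h => hs' h.2.2), if_neg hs', mul_zero]
        rw [e2]
        refine sum_le_sum_of_subset_of_nonneg ?_ fun s hs _ => ?_
        · intro s hs
          rw [mem_filter, mem_Icc] at hs
          exact mem_Icc.2 ⟨hs.1.1, hs.2⟩
        · have := hP0 i s hi (mem_Icc.1 hs).1 (mem_Icc.1 hs).2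
          positivity
      · rw [if_neg hi]
        refine le_of_eq (sum_eq_zero fun s _ => ?_)
        rw [hB1, if_neg (fun h => hi h.1), mul_zero]
  · intro i s
    cases i with
    | zero => rw [hB0]; positivity
    | succ i =>
      rw [hB1]
      split_ifs with h
      · exact hP0 i s h.1 h.2.1 h.2.2
      · exact le_rfl
  · intro e s hs
    rw [hB0, hZ]
    simp only
    rw [if_pos ⟨hR, Nat.one_le_two_pow⟩]
    refine (Zf2_norm W N q 1 s).trans ?_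
    have hcard : ((pc 1).card : ℝ) ≤ 1 := by
      have := L1pAux.pc_card_le 1
      simpa using this
    calc ∑ χ ∈ pc 1, ‖PP W N q s 1 χ‖ ≤ ∑ χ ∈ pc 1, ((N / q / s : ℕ) : ℝ) * (4 * N) :=
          sum_le_sum fun χ hχ => hpp s hs 1 χ hχ
      _ = (pc 1).card * (((N / q / s : ℕ) : ℝ) * (4 * N)) := by rw [sum_const, nsmul_eq_mul]
      _ ≤ 1 * (((N / q / s : ℕ) : ℝ) * (4 * N)) :=
          mul_le_mul_of_nonneg_right hcard (by positivity)
      _ = _ := one_mul _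
  · intro i e s hs
    rw [hB1]
    by_cases hi : 2 ^ i < R ∧ i < I
    · by_cases hsK : s ≤ N / q
      · rw [if_pos ⟨hi, hs, hsK⟩]
        refine le_trans ?_ (hP i s hi hs hsK)
        refine sum_le_sum fun f _ => ?_
        rw [hZ]
        simp only
        split_ifs
        · exact Zf2_norm W N q f s
        · rw [norm_zero]
          exact sum_nonneg fun χ _ => norm_nonneg _
      · rw [if_neg (fun h => hsK h.2.2)]
        refine le_of_eq (sum_eq_zero fun f _ => ?_)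
        rw [hZ]
        simp only
        split_ifs
        · rw [norm_eq_zero, ← norm_le_zero_iff]
          refine (Zf2_norm W N q f s).trans ?_
          refine le_of_eq (sum_eq_zero fun χ hχ => ?_)
          have h3 := hpp s hs f χ hχ
          have h4 : N / q / s = 0 := Nat.div_eq_of_lt (not_le.1 hsK)
          rw [h4, Nat.cast_zero, zero_mul] at h3
          exact le_antisymm h3 (norm_nonneg _)
        · exact norm_zero
    · rw [if_neg (fun h => hi h.1)]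
      refine le_of_eq (sum_eq_zero fun f hf => ?_)
      rw [hZ]
      simp only
      rw [if_neg, norm_zero]
      intro hf'
      have h5 := (mem_Ioc.1 hf).1
      refine hi ⟨by omega, ?_⟩
      have h6 : 2 ^ i < 2 ^ I := lt_of_lt_of_le h5 hf'.2
      exact (Nat.pow_lt_pow_iff_right (by norm_num)).1 h6

/-- The sizes. -/
structure Sz3 (N q R₀ R I : ℕ) (u m C₃ : ℝ) : Prop where
  hu2 : 2 ≤ u
  hum : u ^ 80 ≤ m
  hN : (N : ℝ) = m ^ 12
  hN56 : (N : ℝ) ^ ((5 : ℝ) / 6) = m ^ 10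
  hN34 : (N : ℝ) ^ ((3 : ℝ) / 4) = m ^ 9
  hlog : 1 + Real.log N ≤ C₃ * u
  hC₃ : 1 ≤ C₃
  hN1 : 1 ≤ N
  hq : 1 ≤ q
  hqN : q ≤ N
  hR₀ : 1 ≤ R₀
  hR : 1 ≤ R
  hRN : R ≤ N
  hK : ((N / q : ℕ) : ℝ) * u ^ 20 ≤ R₀
  hI : ∀ i < I, (2 : ℝ) ^ i * u ^ 20 ≤ m ^ 4 ∨
    (((2 : ℝ) ^ i) ^ 2 * u ^ 40 ≤ q ∧ (N : ℝ) * u ^ 200 ≤ m ^ 4 * q)

/-- The term `f = 1`. -/
theorem S1_bd3 (N q R₀ R I : ℕ) (u m C₃ : ℝ) (hS : Sz3 N q R₀ R I u m C₃) :
    (∑ s ∈ Icc 1 R, min (1 / (s : ℝ)) (1 / (R₀ : ℝ)) * (((N / q / s : ℕ) : ℝ) * (4 * N))) * u ^ 3 ≤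
      4 * C₃ * N := by
  obtain ⟨hu2, hum, hN, hN56, hN34, hlog, hC₃, hN1, hq, hqN, hR₀, hR, hRN, hK, hI⟩ := hS
  have hu : 1 ≤ u := by linarith
  have hu0 : 0 < u := by linarith
  have hN0 : (0 : ℝ) < N := by exact_mod_cast hN1
  have hR₀0 : (0 : ℝ) < R₀ := by exact_mod_cast hR₀
  set K := N / q with hKdef
  set S1 : ℝ := ∑ s ∈ Icc 1 R, min (1 / (s : ℝ)) (1 / (R₀ : ℝ)) *
    (((N / q / s : ℕ) : ℝ) * (4 * N)) with hS1
  have h2 : S1 ≤ (K : ℝ) / R₀ * (4 * N) * (1 + Real.log N) := by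
    have h3 : S1 ≤ ∑ s ∈ Icc 1 R, (K : ℝ) / R₀ * (4 * N) * (1 / (s : ℝ)) := by
      rw [hS1]
      refine sum_le_sum fun s hs => ?_
      have hs0 : (0 : ℝ) < s := by exact_mod_cast (mem_Icc.1 hs).1
      have h4 : ((N / q / s : ℕ) : ℝ) ≤ (K : ℝ) / s := Nat.cast_div_le
      calc min (1 / (s : ℝ)) (1 / (R₀ : ℝ)) * (((N / q / s : ℕ) : ℝ) * (4 * N))
          ≤ (1 / (R₀ : ℝ)) * (((K : ℝ) / s) * (4 * N)) := by
            gcongr
            exact min_le_right _ _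
        _ = _ := by ring
    refine h3.trans ?_
    rw [← mul_sum]
    refine mul_le_mul_of_nonneg_left ?_ (by positivity)
    have h5 : ∑ s ∈ Icc 1 R, 1 / (s : ℝ) ≤ 1 + Real.log R := by
      have h := harmonic_le_one_add_log R
      rw [harmonic_eq_sum_Icc] at h
      push_cast at h
      simp only [one_div]
      exact h
    have h6 : Real.log R ≤ Real.log N :=
      Real.log_le_log (by exact_mod_cast hR) (by exact_mod_cast hRN)
    linarith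
  have h3 : (K : ℝ) / R₀ * u ^ 20 ≤ 1 := by
    rw [div_mul_eq_mul_div, div_le_one hR₀0]
    exact hK
  have hL0 : 0 ≤ 1 + Real.log N := by
    have := Real.log_natCast_nonneg N
    linarith
  have h4 : S1 * u ^ 3 * u ≤ 4 * C₃ * N * u := by
    calc S1 * u ^ 3 * u = S1 * u ^ 4 := by ring
      _ ≤ (K : ℝ) / R₀ * (4 * N) * (1 + Real.log N) * u ^ 20 := by
          gcongr
          norm_num
      _ = ((K : ℝ) / R₀ * u ^ 20) * (4 * N) * (1 + Real.log N) := by ring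
      _ ≤ 1 * (4 * N) * (C₃ * u) := by gcongr
      _ = _ := by ring
  exact le_of_mul_le_mul_right h4 hu0

theorem mainLo_bound (κ : ℝ) (hκ : 0 < κ) (j : ℕ) (hj : 6 ≤ κ * j) : ∃ C : ℝ, 1 ≤ C ∧
    ∀ (N q R₀ R I : ℕ) (m C₃ : ℝ), Sz3 N q R₀ R I ((N : ℝ) ^ κ) m C₃ → ∀ (h : ℕ) (H : ℝ), 1 ≤ h →
    h ≤ N → 1 ≤ H → (N : ℝ) ≤ H * h → ∑ n ∈ Icc 1 N, (Λ n : ℝ) ≤ 2 * N →
      ‖MainLo (Wj N h j) N q R₀ R I 1 + MainLo (Wj N h j) N q R₀ R I (-1)‖ * ((N : ℝ) ^ κ) ^ 2 ≤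
        C * C₃ ^ 2 * H ^ 3 * N := by
  obtain ⟨Cw, hCw, hw⟩ := main_lo κ hκ
  obtain ⟨CA, hCA, hA⟩ := blockA κ hκ
  obtain ⟨CB, hCB, hB⟩ := blockD κ hκ j hj
  refine ⟨max 1 (Cw * (4 + 2 * (12 * CA + CB))), le_max_left _ _, ?_⟩
  intro N q R₀ R I m C₃ hS h H hh hhN hH hNH hψ
  have hS1b := S1_bd3 N q R₀ R I _ m C₃ hS
  set u : ℝ := (N : ℝ) ^ κ with hudef
  obtain ⟨hu2, hum, hN, hN56, hN34, hlog, hC₃, hN1, hq, hqN, hR₀, hR, hRN, hK, hI⟩ := hS
  have hu : 1 ≤ u := by linarith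
  set K := N / q with hKdef
  have hK1 : 1 ≤ K := (Nat.one_le_div_iff hq).2 hqN
  have hKN : K ≤ N := Nat.div_le_self N q
  have hu0 : 0 < u := by linarith
  have hm1 : 1 ≤ m := le_trans (one_le_pow₀ hu) hum
  have hm0 : 0 < m := by linarith
  have hC0 : 0 < C₃ := by linarith
  have hN0 : (0 : ℝ) < N := by exact_mod_cast hN1
  have hK0 : (0 : ℝ) < K := by exact_mod_cast hK1
  have hR₀0 : (0 : ℝ) < R₀ := by exact_mod_cast hR₀
  have hh0 : (0 : ℝ) < h := by exact_mod_cast hh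
  have hCA0 : 0 < CA := by linarith
  have hCB0 : 0 < CB := by linarith
  have hNh : (N : ℝ) / h ≤ H := by rw [div_le_iff₀ hh0]; exact hNH
  have hHh : 2 * (N : ℝ) / h + 1 ≤ 3 * H := by
    have e : 2 * (N : ℝ) / h = 2 * ((N : ℝ) / h) := by ring
    rw [e]
    linarith
  have hHh0 : 0 ≤ 2 * (N : ℝ) / h + 1 := by positivity
  -- the bounds of the blocks
  set PA : ℕ → ℝ := fun i => 2 * ((2 * N / h + 1) * (CA * u * (Real.sqrt (2 ^ i) *
      (N + (N : ℝ) ^ ((5 : ℝ) / 6) * 2 ^ i)))) with hPA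
  set PB : ℕ → ℝ := fun i => CB * H ^ 3 * 2 ^ i * N / u ^ 7 with hPB
  set P : ℕ → ℕ → ℝ := fun i _ => if (2 : ℝ) ^ i * u ^ 20 ≤ m ^ 4 then PA i else PB i with hP
  have hW := wj_wgt N h j hh
  have hPb : ∀ i s, (2 ^ i < R ∧ i < I) → 1 ≤ s → s ≤ N / q →
      ∑ f ∈ Ioc (2 ^ i) (2 ^ (i + 1)), ∑ χ ∈ pc f, ‖PP (Wj N h j) N q s f χ‖ ≤ P i s := by
    intro i s hiI hs hsK
    have hi := hiI.1
    have e2 : 2 ^ (i + 1) = 2 * 2 ^ i := by rw [pow_succ]; ring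
    rw [e2]
    have h1i : 1 ≤ 2 ^ i := Nat.one_le_two_pow
    have hcast : ((2 ^ i : ℕ) : ℝ) = (2 : ℝ) ^ i := by push_cast; rfl
    have hi' : (2 : ℝ) ^ i ≤ R := by exact_mod_cast hi.le
    by_cases hc : (2 : ℝ) ^ i * u ^ 20 ≤ m ^ 4
    · have h3 : P i s = PA i := if_pos hc
      rw [h3]
      have h4 : (2 ^ i) ^ 3 ≤ N := by
        have h5 : (((2 ^ i) ^ 3 : ℕ) : ℝ) ≤ N := by
          push_cast
          have h6 : (2 : ℝ) ^ i ≤ m ^ 4 := by
            refine le_trans ?_ hc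
            have : (1 : ℝ) ≤ u ^ 20 := one_le_pow₀ hu
            nlinarith [pow_pos (zero_lt_two' ℝ) i]
          calc ((2 : ℝ) ^ i) ^ 3 ≤ (m ^ 4) ^ 3 := by gcongr
            _ = (N : ℝ) := by rw [hN]; ring
        exact_mod_cast h5
      have h5 : ∀ σ : ℤ, ∑ f ∈ Ioc (2 ^ i) (2 * 2 ^ i), ∑ χ ∈ pc f,
          ‖Phi (Wj N h j) N q σ s χ‖ ≤ (2 * N / h + 1) * (CA * u * (Real.sqrt (2 ^ i) *
            (N + (N : ℝ) ^ ((5 : ℝ) / 6) * 2 ^ i))) := by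
        intro σ
        have h6 := phi_bound ((Ioc (2 ^ i) (2 * 2 ^ i)).sigma pc) (fun x => x.2) N q
          (CA * u * (Real.sqrt (2 ^ i) * (N + (N : ℝ) ^ ((5 : ℝ) / 6) * 2 ^ i))) ?_
          1 ((N : ℤ) - (j + 1) * h) h j hh σ s
        · rw [sum_sigma] at h6
          exact h6
        · intro y hy v w hw'
          rw [sum_sigma]
          have h7 := hA N (2 ^ i) y v w h1i h4 hy
          rw [hcast] at h7
          exact h7
      calc ∑ f ∈ Ioc (2 ^ i) (2 * 2 ^ i), ∑ χ ∈ pc f, ‖PP (Wj N h j) N q s f χ‖ ≤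
          ∑ f ∈ Ioc (2 ^ i) (2 * 2 ^ i), ∑ χ ∈ pc f,
            (‖Phi (Wj N h j) N q 1 s χ‖ + ‖Phi (Wj N h j) N q (-1) s χ‖) :=
            sum_le_sum fun f _ => sum_le_sum fun χ hχ => PP_norm _ N q s f χ hχ
        _ = ∑ f ∈ Ioc (2 ^ i) (2 * 2 ^ i), ∑ χ ∈ pc f, ‖Phi (Wj N h j) N q 1 s χ‖ +
            ∑ f ∈ Ioc (2 ^ i) (2 * 2 ^ i), ∑ χ ∈ pc f, ‖Phi (Wj N h j) N q (-1) s χ‖ := by
            rw [← sum_add_distrib]
            refine sum_congr rfl fun f _ => ?_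
            rw [← sum_add_distrib]
        _ ≤ _ := (add_le_add (h5 1) (h5 (-1))).trans (le_of_eq (by rw [hPA]; ring))
    · have h3 : P i s = PB i := if_neg hc
      rw [h3]
      rw [not_le] at hc
      have hsq : s * q ≤ N := (Nat.mul_le_mul_right q hsK).trans (Nat.div_mul_le_self N q)
      have hS' : Blk1 N q (2 ^ i) u m := by
        have h9 := (hI i hiI.2).resolve_left (not_le.2 hc)
        refine ⟨hN1, hu2, hum, hN, hN34, hq, hqN, h1i, hi.le.trans hRN, ?_, ?_, h9.2⟩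
        · rw [hcast]
          exact hc.le
        · rw [hcast]
          exact h9.1
      have h4 := hB N q s (2 ^ i) h m H hS' hs hsq hh hhN hH hNH hψ
      rw [hcast] at h4
      rw [hPB]
      simp only
      rw [le_div_iff₀ (by positivity)]
      exact h4
  have h1 := hw N q R₀ R hq hR₀ hR hRN (Wj N h j) hW hψ I P hPb
  have hP0 : ∀ i s, 0 ≤ P i s := by
    intro i s
    rw [hP]
    simp only
    split_ifs
    · rw [hPA]; positivity
    · rw [hPB]; positivity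
  set S1 : ℝ := ∑ s ∈ Icc 1 R, min (1 / (s : ℝ)) (1 / (R₀ : ℝ)) *
    (((N / q / s : ℕ) : ℝ) * (4 * N)) with hS1
  set S2 : ℝ := ∑ i ∈ (range (Nat.log 2 R + 1)).filter (fun i => 2 ^ i < R ∧ i < I),
    ∑ s ∈ Icc 1 (N / q), min (1 / ((s : ℝ) * 2 ^ (i + 1))) (1 / (R₀ : ℝ)) * P i s with hS2
  -- one block
  have hblock : ∀ i, (2 ^ i < R ∧ i < I) → (∑ s ∈ Icc 1 (N / q),
      min (1 / ((s : ℝ) * 2 ^ (i + 1))) (1 / (R₀ : ℝ)) * P i s) * u ^ 6 ≤
      (12 * CA + CB) * C₃ * H ^ 3 * N := by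
    intro i hi
    have hsw := SW_nonneg (N / q) R₀ (i + 1)
    have hH3 : H ≤ H ^ 3 := le_self_pow₀ hH (by norm_num)
    by_cases hc : (2 : ℝ) ^ i * u ^ 20 ≤ m ^ 4
    · have e : ∑ s ∈ Icc 1 (N / q), min (1 / ((s : ℝ) * 2 ^ (i + 1))) (1 / (R₀ : ℝ)) * P i s =
          SW (N / q) R₀ (i + 1) * PA i := by
        unfold SW
        rw [sum_mul]
        refine sum_congr rfl fun s _ => ?_
        have h3 : P i s = PA i := if_pos hc
        rw [h3]
      have h4 := numA N K R₀ i u m C₃ hu hm1 hN hN56 hlog hC₃ hR₀ hK hKN hN1 hc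
      rw [e, hPA]
      simp only
      calc _ = 2 * (2 * N / h + 1) * CA * ((Real.sqrt (2 ^ i) *
            (N + (N : ℝ) ^ ((5 : ℝ) / 6) * 2 ^ i)) * SW K R₀ (i + 1) * u ^ 7) := by
            rw [hKdef]; ring
        _ ≤ 2 * (3 * H) * CA * ((Real.sqrt (2 ^ i) * (N + (N : ℝ) ^ ((5 : ℝ) / 6) * 2 ^ i)) *
            SW K R₀ (i + 1) * u ^ 8) := by
            gcongr
            norm_num
        _ ≤ 2 * (3 * H) * CA * (2 * C₃ * N) := by gcongr
        _ = 12 * CA * C₃ * H * N := by ring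
        _ ≤ 12 * CA * C₃ * H ^ 3 * N := by gcongr
        _ ≤ (12 * CA + CB) * C₃ * H ^ 3 * N := by
            gcongr
            linarith
    · have e : ∑ s ∈ Icc 1 (N / q), min (1 / ((s : ℝ) * 2 ^ (i + 1))) (1 / (R₀ : ℝ)) * P i s =
          SW (N / q) R₀ (i + 1) * PB i := by
        unfold SW
        rw [sum_mul]
        refine sum_congr rfl fun s _ => ?_
        have h3 : P i s = PB i := if_neg hc
        rw [h3]
      obtain ⟨hs1, -⟩ := SW_le K R₀ (i + 1) N hR₀ hKN hN1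
      rw [e, hPB]
      simp only
      have h2i : (0 : ℝ) < 2 ^ i := by positivity
      calc SW (N / q) R₀ (i + 1) * (CB * H ^ 3 * 2 ^ i * N / u ^ 7) * u ^ 6 =
            SW K R₀ (i + 1) * (CB * H ^ 3 * 2 ^ i * N / u) := by
            rw [hKdef]
            field_simp
        _ ≤ ((1 + Real.log N) / 2 ^ (i + 1)) * (CB * H ^ 3 * 2 ^ i * N / u) := by gcongr
        _ ≤ ((C₃ * u) / 2 ^ (i + 1)) * (CB * H ^ 3 * 2 ^ i * N / u) := by gcongr
        _ = CB * C₃ * H ^ 3 * N / 2 := by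
            rw [pow_succ]
            field_simp
        _ ≤ CB * C₃ * H ^ 3 * N := half_le_self (by positivity)
        _ ≤ (12 * CA + CB) * C₃ * H ^ 3 * N := by
            gcongr
            linarith
  have hS20 : 0 ≤ S2 := by
    rw [hS2]
    exact sum_nonneg fun i _ => sum_nonneg fun s _ => mul_nonneg (by positivity) (hP0 i s)
  have hS2b : S2 * u ^ 3 ≤ 2 * (12 * CA + CB) * C₃ ^ 2 * H ^ 3 * N := by
    have h2 : S2 * u ^ 6 ≤ (2 * (C₃ * u)) * ((12 * CA + CB) * C₃ * H ^ 3 * N) := by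
      rw [hS2, sum_mul]
      have h4 : ∑ i ∈ (range (Nat.log 2 R + 1)).filter (fun i => 2 ^ i < R ∧ i < I),
          (∑ s ∈ Icc 1 (N / q), min (1 / ((s : ℝ) * 2 ^ (i + 1))) (1 / (R₀ : ℝ)) * P i s) *
            u ^ 6 ≤
          ∑ i ∈ (range (Nat.log 2 R + 1)).filter (fun i => 2 ^ i < R ∧ i < I),
            (12 * CA + CB) * C₃ * H ^ 3 * N :=
        sum_le_sum fun i hi => hblock i (mem_filter.1 hi).2
      refine h4.trans ?_
      rw [sum_const, nsmul_eq_mul]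
      refine mul_le_mul_of_nonneg_right ?_ (by positivity)
      calc (((range (Nat.log 2 R + 1)).filter (fun i => 2 ^ i < R ∧ i < I)).card : ℝ)
          ≤ ((Nat.log 2 R + 1 : ℕ) : ℝ) := by
            have := card_filter_le (range (Nat.log 2 R + 1)) (fun i => 2 ^ i < R ∧ i < I)
            rw [card_range] at this
            exact_mod_cast this
        _ ≤ 2 * (1 + Real.log N) := log_count R N hR hRN
        _ ≤ 2 * (C₃ * u) := by linarith
    have h3 : S2 * u ^ 3 * u ≤ 2 * (12 * CA + CB) * C₃ ^ 2 * H ^ 3 * N * u := by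
      calc S2 * u ^ 3 * u = S2 * u ^ 4 := by ring
        _ ≤ S2 * u ^ 6 := by
            gcongr
            norm_num
        _ ≤ _ := h2
        _ = _ := by ring
    exact le_of_mul_le_mul_right h3 hu0
  calc ‖MainLo (Wj N h j) N q R₀ R I 1 + MainLo (Wj N h j) N q R₀ R I (-1)‖ * u ^ 2 ≤
        Cw * u * (S1 + S2) * u ^ 2 := by gcongr
    _ = Cw * (S1 * u ^ 3 + S2 * u ^ 3) := by ring
    _ ≤ Cw * (4 * C₃ * N + 2 * (12 * CA + CB) * C₃ ^ 2 * H ^ 3 * N) := by gcongr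
    _ ≤ Cw * (4 * (C₃ ^ 2 * H ^ 3) * N + 2 * (12 * CA + CB) * C₃ ^ 2 * H ^ 3 * N) := by
        have h2 : C₃ * 1 ≤ C₃ ^ 2 * H ^ 3 := by
          have h5 : C₃ ≤ C₃ ^ 2 := le_self_pow₀ hC₃ (by norm_num)
          have h6 : 1 ≤ H ^ 3 := one_le_pow₀ hH
          exact mul_le_mul h5 h6 zero_le_one (by positivity)
        have h3 : 4 * C₃ * (N : ℝ) ≤ 4 * (C₃ ^ 2 * H ^ 3) * N := by
          have : C₃ ≤ C₃ ^ 2 * H ^ 3 := by linarith
          gcongr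
        gcongr
    _ = Cw * (4 + 2 * (12 * CA + CB)) * C₃ ^ 2 * H ^ 3 * N := by ring
    _ ≤ _ := by
        gcongr
        exact le_max_right _ _

end Pool.Agent.M848.SV
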