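import Pool.Agent.Lib.MP_848d44_nt.SV.FinP
import Pool.Agent.Lib.MP_848d44_nt.SV.Avg

set_option autoImplicit false

/-!
# MP_848d44_nt, project SV, part 2: the part `f > 2^I` on average over the moduli
-/

noncomputable section

namespace Pool.Agent.M848.SV

open Finset Pool.Agent.M848 Pool.Agent.M848.FC
open scoped ArithmeticFunction.vonMangoldt ComplexConjugate

theorem pc_noncop {f : ℕ} {χ : ℕ → ℂ} (h : χ ∈ pc f) (q : ℕ) (hq : ¬ f.Coprime q) : χ q = 0 := by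
  by_cases hf : f = 0
  · subst hf
    simp [pc] at h
  · have : NeZero f := ⟨hf⟩
    obtain ⟨χ', -, rfl⟩ := GP.mem_pc h
    refine MulChar.map_nonunit _ fun hu => hq ?_
    exact ((ZMod.isUnit_iff_coprime q f).1 hu).symm

theorem Zf_noncop (W : ℤ → ℝ) (N q : ℕ) (σ : ℤ) (f s : ℕ) (hq : ¬ f.Coprime q) :
    Zf W N q σ f s = 0 := by
  unfold Zf
  refine sum_eq_zero fun χ hχ => ?_
  rw [pc_noncop hχ q hq]
  simp

theorem mem_RS {q R₀ R r : ℕ} : r ∈ RS q R₀ R ↔ (R₀ < r ∧ r ≤ R) ∧ Squarefree r ∧ r.Coprime q := by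
  unfold RS
  rw [mem_filter, mem_Ioc]

theorem swap_term (W : ℤ → ℝ) (N q R₀ R : ℕ) (σ : ℤ) (f e s : ℕ) :
    (if f * e ∈ RS q R₀ R then ((cf f e s : ℝ) : ℂ) else 0) * Zf W N q σ f s =
      (if f * e ∈ RS 1 R₀ R then ((cf f e s : ℝ) : ℂ) else 0) *
        ((if e.Coprime q then 1 else 0) * Zf W N q σ f s) := by
  by_cases h1 : f * e ∈ RS 1 R₀ R
  · rw [if_pos h1]
    by_cases hf : f.Coprime q
    · by_cases he : e.Coprime q
      · have h2 : f * e ∈ RS q R₀ R := by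
          rw [mem_RS] at h1 ⊢
          exact ⟨h1.1, h1.2.1, Nat.Coprime.mul_left hf he⟩
        rw [if_pos h2, if_pos he, one_mul]
      · have h2 : f * e ∉ RS q R₀ R := by
          rw [mem_RS]
          intro h
          exact he (Nat.Coprime.coprime_mul_left h.2.2)
        rw [if_neg h2, if_neg he]
        simp
    · rw [Zf_noncop W N q σ f s hf]
      simp
  · have h2 : f * e ∉ RS q R₀ R := by
      intro h
      apply h1
      rw [mem_RS] at h ⊢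
      exact ⟨h.1, h.2.1, Nat.coprime_one_right _⟩
    rw [if_neg h1, if_neg h2]
    simp

/-- The inner sum over the moduli. -/
def ZE (W : ℤ → ℝ) (N R I : ℕ) (E : Finset ℕ) (ξ : ℕ → ℂ) (σ : ℤ) (f e s : ℕ) : ℂ :=
  if 2 ^ I < f ∧ f ≤ R then
    ∑ q ∈ E, ξ q * ((if e.Coprime q then 1 else 0) * Zf W N q σ f s) else 0

theorem hi_eq (W : ℤ → ℝ) (N R₀ R I : ℕ) (E : Finset ℕ) (ξ : ℕ → ℂ) (σ : ℤ) :
    ∑ q ∈ E, ξ q * MainHi W N q R₀ R I σ =
      ∑ f ∈ Icc 1 R, ∑ e ∈ Icc 1 R, ∑ s ∈ e.divisors,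
        (if f * e ∈ RS 1 R₀ R then ((cf f e s : ℝ) : ℂ) else 0) * ZE W N R I E ξ σ f e s := by
  unfold MainHi
  simp_rw [mul_sum]
  rw [sum_comm]
  refine sum_congr rfl fun f hf => ?_
  rw [sum_comm]
  refine sum_congr rfl fun e _ => ?_
  rw [sum_comm]
  refine sum_congr rfl fun s _ => ?_
  unfold ZE
  by_cases hfI : f ≤ 2 ^ I
  · have h1 : ¬ (2 ^ I < f ∧ f ≤ R) := fun h => absurd h.1 (not_lt.2 hfI)
    rw [if_neg h1, mul_zero]
    refine sum_eq_zero fun q _ => ?_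
    rw [if_pos hfI, mul_zero, mul_zero]
  · have h1 : 2 ^ I < f ∧ f ≤ R := ⟨not_le.1 hfI, (mem_Icc.1 hf).2⟩
    rw [if_pos h1, mul_sum]
    refine sum_congr rfl fun q _ => ?_
    rw [if_neg hfI, swap_term]
    ring

theorem ZE_norm (W : ℤ → ℝ) (N R I : ℕ) (E : Finset ℕ) (ξ : ℕ → ℂ) (σ : ℤ) (f e s : ℕ) :
    ‖ZE W N R I E ξ σ f e s‖ ≤ ∑ χ ∈ pc f,
      ‖∑ q ∈ E, (ξ q * (if e.Coprime q then 1 else 0)) * (starRingEnd ℂ) (χ q) *
        Phi W N q σ s χ‖ := by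
  unfold ZE
  split_ifs with h
  · have e1 : ∑ q ∈ E, ξ q * ((if e.Coprime q then 1 else 0) * Zf W N q σ f s) =
        ∑ χ ∈ pc f, uu σ f χ * (starRingEnd ℂ) (χ s) *
          ∑ q ∈ E, (ξ q * (if e.Coprime q then 1 else 0)) * (starRingEnd ℂ) (χ q) *
            Phi W N q σ s χ := by
      unfold Zf
      simp_rw [mul_sum]
      rw [sum_comm]
      refine sum_congr rfl fun χ _ => sum_congr rfl fun q _ => ?_
      ring
    rw [e1]
    refine (norm_sum_le _ _).trans (sum_le_sum fun χ hχ => ?_)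
    rw [norm_mul, norm_mul, RCLike.norm_conj]
    have h1 := uu_norm σ f χ hχ
    have h3 := L1pAux.pc_norm hχ s
    have h4 : ‖uu σ f χ‖ * ‖χ s‖ ≤ 1 := by
      have := mul_le_mul h1 h3 (norm_nonneg _) zero_le_one
      linarith
    calc _ ≤ 1 * ‖∑ q ∈ E, (ξ q * (if e.Coprime q then 1 else 0)) * (starRingEnd ℂ) (χ q) *
            Phi W N q σ s χ‖ := mul_le_mul_of_nonneg_right h4 (norm_nonneg _)
      _ = _ := one_mul _
  · rw [norm_zero]
    exact sum_nonneg fun χ _ => norm_nonneg _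

theorem block_num (D N Q E X : ℝ) (hD : 0 < D) (hN : 0 ≤ N) (hQ : 0 ≤ Q) (hE : 0 ≤ E)
    (hDN : D ^ 2 ≤ N) (hX : D + Q / D ≤ X) :
    Real.sqrt D * Real.sqrt ((D ^ 2 + N) * N) * Real.sqrt ((D ^ 2 + Q) * E) ≤
      2 * D * N * Real.sqrt (X * E) := by
  have hX0 : 0 ≤ X := le_trans (by positivity) hX
  have h1 : Real.sqrt ((D ^ 2 + N) * N) ≤ 2 * N := by
    rw [Real.sqrt_le_left (by positivity)]
    nlinarith
  have h2 : Real.sqrt ((D ^ 2 + Q) * E) ≤ Real.sqrt D * Real.sqrt (X * E) := by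
    rw [← Real.sqrt_mul hD.le]
    refine Real.sqrt_le_sqrt ?_
    have h3 : D ^ 2 + Q = D * (D + Q / D) := by field_simp
    rw [h3, mul_assoc]
    gcongr
  calc Real.sqrt D * Real.sqrt ((D ^ 2 + N) * N) * Real.sqrt ((D ^ 2 + Q) * E) ≤
      Real.sqrt D * (2 * N) * (Real.sqrt D * Real.sqrt (X * E)) := by gcongr
    _ = (Real.sqrt D * Real.sqrt D) * (2 * N) * Real.sqrt (X * E) := by ring
    _ = _ := by
      rw [Real.mul_self_sqrt hD.le]
      ring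

theorem hi_avg (κ : ℝ) (hκ : 0 < κ) : ∃ C : ℝ, 1 ≤ C ∧
    ∀ (N Q R₀ R I h j : ℕ) (A B : ℤ) (H : ℝ), 1 ≤ N → 1 ≤ R₀ → 1 ≤ R → R ^ 2 ≤ N → 1 ≤ h → 1 ≤ H →
    (N : ℝ) ≤ H * h → Wgt (spl A B h (j + 3)) N → 1 ≤ Q → Q ≤ N →
    ∀ E : Finset ℕ, (∀ q ∈ E, Q < q ∧ q ≤ 2 * Q ∧ q ≤ N) → ∀ ξ : ℕ → ℂ, (∀ q, ‖ξ q‖ ≤ 1) →
    ∀ σ : ℤ, (σ = 1 ∨ σ = -1) → ∀ X : ℝ,
    (∀ i, I ≤ i → 2 ^ i < R → (2 : ℝ) ^ i + Q / 2 ^ i ≤ X) →
      ‖∑ q ∈ E, ξ q * MainHi (spl A B h (j + 3)) N q R₀ R I σ‖ ≤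
        C * (N : ℝ) ^ (2 * κ) * H ^ 3 * (1 + Real.log N) ^ 2 * (N * Real.sqrt (X * E.card)) := by
  obtain ⟨C1, hC1, hw⟩ := weight_sum κ hκ
  obtain ⟨C2, hC2, ha⟩ := avg_block κ hκ
  refine ⟨max 1 (2 * C1 * C2), le_max_left _ _, ?_⟩
  intro N Q R₀ R I h j A B H hN1 hR₀ hR hR2N hh hH hNH hW hQ1 hQN E hE ξ hξ σ hσ X hX
  set W := spl A B h (j + 3) with hWdef
  have hRN : R ≤ N := (Nat.le_self_pow (by norm_num) R).trans hR2N
  have hN0 : (0 : ℝ) < N := by exact_mod_cast hN1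
  have hL0 : 0 ≤ Real.log N := Real.log_natCast_nonneg N
  set u : ℝ := (N : ℝ) ^ κ with hudef
  have hu0 : 0 < u := by positivity
  set Y : ℝ := N * Real.sqrt (X * E.card) with hY
  have hY0 : 0 ≤ Y := by positivity
  set BB : ℕ → ℝ := fun i => C2 * u * H ^ 3 * (2 * 2 ^ i * Y) with hBB
  have hBB0 : ∀ i, 0 ≤ BB i := fun i => by rw [hBB]; positivity
  obtain ⟨B', hB0, hB1⟩ : ∃ B' : ℕ → ℕ → ℝ, (∀ s, B' 0 s = 0) ∧
      ∀ i s, B' (i + 1) s = if I ≤ i ∧ 2 ^ i < R then BB i else 0 :=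
    ⟨fun i _ => match i with
      | 0 => 0
      | i + 1 => if I ≤ i ∧ 2 ^ i < R then BB i else 0, fun _ => rfl, fun _ _ => rfl⟩
  have h1 := hw N 1 R₀ R hR₀ hR hRN (ZE W N R I E ξ σ) B' ?_ ?_ ?_
  · rw [← hi_eq] at h1
    refine h1.trans ?_
    rw [sum_range_succ']
    have e0 : ∑ s ∈ Icc 1 R, min (1 / ((s : ℝ) * 2 ^ 0)) (1 / (R₀ : ℝ)) * B' 0 s = 0 :=
      sum_eq_zero fun s _ => by rw [hB0, mul_zero]
    rw [e0, add_zero]
    have h2 : ∀ i, ∑ s ∈ Icc 1 R, min (1 / ((s : ℝ) * 2 ^ (i + 1))) (1 / (R₀ : ℝ)) *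
        B' (i + 1) s ≤ C2 * u * H ^ 3 * (1 + Real.log N) * Y := by
      intro i
      simp only [hB1]
      have hX0 : 0 ≤ C2 * u * H ^ 3 * (1 + Real.log N) * Y := by positivity
      by_cases hi : I ≤ i ∧ 2 ^ i < R
      · rw [if_pos hi, ← sum_mul]
        have h3 := (SW_le R R₀ (i + 1) N hR₀ hRN hN1).1
        unfold SW at h3
        calc _ ≤ (1 + Real.log N) / 2 ^ (i + 1) * BB i :=
              mul_le_mul_of_nonneg_right h3 (hBB0 i)
          _ = C2 * u * H ^ 3 * (1 + Real.log N) * Y := by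
              rw [hBB, pow_succ]
              field_simp
      · rw [if_neg hi]
        simp only [mul_zero, sum_const_zero]
        exact hX0
    calc C1 * u * ∑ i ∈ range (Nat.log 2 R + 1), ∑ s ∈ Icc 1 R,
          min (1 / ((s : ℝ) * 2 ^ (i + 1))) (1 / (R₀ : ℝ)) * B' (i + 1) s ≤
        C1 * u * ∑ i ∈ range (Nat.log 2 R + 1), C2 * u * H ^ 3 * (1 + Real.log N) * Y := by
          gcongr with i _
          exact h2 i
      _ = C1 * u * ((Nat.log 2 R + 1 : ℕ) * (C2 * u * H ^ 3 * (1 + Real.log N) * Y)) := by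
          rw [sum_const, nsmul_eq_mul, card_range]
      _ ≤ C1 * u * (2 * (1 + Real.log N) * (C2 * u * H ^ 3 * (1 + Real.log N) * Y)) := by
          gcongr
          exact log_count R N hR hRN
      _ = (2 * C1 * C2) * (u * u) * H ^ 3 * (1 + Real.log N) ^ 2 * Y := by ring
      _ ≤ max 1 (2 * C1 * C2) * (u * u) * H ^ 3 * (1 + Real.log N) ^ 2 * Y := by
          gcongr
          exact le_max_right _ _
      _ = _ := by
          have : u * u = (N : ℝ) ^ (2 * κ) := by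
            rw [hudef, ← Real.rpow_add hN0]
            congr 1
            ring
          rw [this]
  · intro i s
    cases i with
    | zero => rw [hB0]
    | succ i =>
      rw [hB1]
      split_ifs
      · exact hBB0 i
      · exact le_rfl
  · intro e s _
    rw [hB0]
    unfold ZE
    rw [if_neg, norm_zero]
    rintro ⟨h2, -⟩
    have := Nat.one_le_two_pow (n := I)
    omega
  · intro i e s hs
    rw [hB1]
    by_cases hi : I ≤ i ∧ 2 ^ i < R
    · rw [if_pos hi]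
      have h2 : ∑ f ∈ Ioc (2 ^ i) (2 ^ (i + 1)), ‖ZE W N R I E ξ σ f e s‖ ≤
          ∑ f ∈ Ioc (2 ^ i) (2 * 2 ^ i), ∑ χ ∈ pc f,
            ‖∑ q ∈ E, (ξ q * (if e.Coprime q then 1 else 0)) * (starRingEnd ℂ) (χ q) *
              Phi W N q σ s χ‖ := by
        rw [show 2 ^ (i + 1) = 2 * 2 ^ i by rw [pow_succ]; ring]
        exact sum_le_sum fun f _ => ZE_norm W N R I E ξ σ f e s
      refine h2.trans ?_
      have hiN : 2 ^ i ≤ N := hi.2.le.trans hRN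
      have h3 := ha N Q (2 ^ i) s h j A B H hN1 hs hh hH hNH hW Nat.one_le_two_pow hiN hQ1 hQN E hE
        (fun q => ξ q * (if e.Coprime q then 1 else 0)) ?_ σ hσ
      · refine h3.trans ?_
        rw [hBB]
        simp only
        refine mul_le_mul_of_nonneg_left ?_ (by positivity)
        have hcast : ((2 ^ i : ℕ) : ℝ) = (2 : ℝ) ^ i := by push_cast; rfl
        rw [hcast]
        have h4 : ((2 : ℝ) ^ i) ^ 2 ≤ N := by
          have h5 : (2 ^ i) ^ 2 ≤ N := (Nat.pow_le_pow_left hi.2.le 2).trans hR2N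
          exact_mod_cast h5
        refine (block_num ((2 : ℝ) ^ i) N Q E.card X (by positivity) hN0.le (Nat.cast_nonneg _)
          (Nat.cast_nonneg _) h4 (hX i hi.1 hi.2)).trans (le_of_eq ?_)
        rw [hY]
        ring
      · intro q
        show ‖ξ q * (if e.Coprime q then 1 else 0)‖ ≤ 1
        rw [norm_mul]
        have h5 := hξ q
        have h6 : ‖((if e.Coprime q then 1 else 0 : ℂ))‖ ≤ 1 := by split_ifs <;> simp
        have := mul_le_mul h5 h6 (norm_nonneg _) zero_le_one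
        linarith
    · rw [if_neg hi]
      refine le_of_eq (sum_eq_zero fun f hf => ?_)
      unfold ZE
      rw [if_neg, norm_zero]
      rintro ⟨h2, h3⟩
      have h4 := mem_Ioc.1 hf
      apply hi
      refine ⟨?_, by omega⟩
      have h5 : 2 ^ I < 2 ^ (i + 1) := lt_of_lt_of_le h2 h4.2
      have h6 := (Nat.pow_lt_pow_iff_right (a := 2) (by norm_num)).1 h5
      omega

end Pool.Agent.M848.SV
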