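import Pool.Agent.Lib.MP_848d44_nt.SV.Base

/-!
# MP_848d44_nt, project SV, module RadT

A small divisor of `q` with (almost) the same totient ratio: the product of the prime factors of
`q` which are at most `κ log N / 2`.
-/

set_option autoImplicit false

noncomputable section

namespace Pool.Agent.M848.SV

open Finset Pool.Agent.M848 Pool.Agent.M848.FC
open scoped ArithmeticFunction.vonMangoldt ComplexConjugate

private lemma radT_ratio (n : ℕ) (hn : n ≠ 0) :
    (n.totient : ℝ) / n = ∏ p ∈ n.primeFactors, (1 - (p : ℝ)⁻¹) := by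
  have h := Nat.totient_eq_mul_prod_factors n
  have h' : (n.totient : ℝ) = n * ∏ p ∈ n.primeFactors, (1 - (p : ℝ)⁻¹) := by
    have := congrArg (fun x : ℚ => (x : ℝ)) h
    push_cast at this
    exact this
  have hn' : (n : ℝ) ≠ 0 := by exact_mod_cast hn
  rw [h']
  field_simp

private lemma radT_main (ε κ Y L : ℝ) (hε : 0 < ε) (hκ : 0 < κ) (hY : Y = κ * L / 2)
    (hY1 : 1 < Y) (hlog : 2 / (κ * Real.log Y) ≤ ε / (1 + ε)) (N q : ℕ) (hq : 1 ≤ q) (hqN : q ≤ N)
    (hL : L = Real.log N) :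
    ∃ t₀ : ℕ, t₀ ∣ q ∧ Squarefree t₀ ∧ (t₀ : ℝ) ≤ (N : ℝ) ^ κ ∧
      (t₀.totient : ℝ) / t₀ ≤ (1 + ε) * ((q.totient : ℝ) / q) := by
  classical
  have hN : 0 < N := lt_of_lt_of_le hq hqN
  have hN' : (0 : ℝ) < N := by exact_mod_cast hN
  have hY0 : 0 < Y := by linarith
  set y : ℕ := ⌊Y⌋₊ with hy
  set S : Finset ℕ := q.primeFactors.filter (fun p => p ≤ y) with hS
  set P : Finset ℕ := q.primeFactors.filter (fun p => ¬ p ≤ y) with hP
  have hSprime : ∀ p ∈ S, p.Prime := fun p hp => Nat.prime_of_mem_primeFactors (mem_filter.1 hp).1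
  have hq0 : q ≠ 0 := by omega
  set t : ℕ := ∏ p ∈ S, p with ht
  have htpf : t.primeFactors = S := Nat.primeFactors_prod hSprime
  have ht0 : t ≠ 0 := Finset.prod_ne_zero_iff.2 fun p hp => (hSprime p hp).ne_zero
  have htdvd : t ∣ q :=
    (Finset.prod_dvd_prod_of_subset _ _ _ (filter_subset _ _)).trans (Nat.prod_primeFactors_dvd q)
  refine ⟨t, htdvd, ?_, ?_, ?_⟩
  · refine Finset.squarefree_prod_of_pairwise_isCoprime ?_ ?_
    · intro p hp r hr hpr
      exact Nat.coprime_iff_isRelPrime.1 ((Nat.coprime_primes (hSprime p hp) (hSprime r hr)).2 hpr)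
    · intro p hp
      exact (hSprime p hp).prime.squarefree
  · have h1 : t ∣ primorial y := by
      unfold primorial
      refine Finset.prod_dvd_prod_of_subset _ _ _ ?_
      intro p hp
      have h2 := (mem_filter.1 hp).2
      simp only [mem_filter, mem_range]
      exact ⟨by omega, hSprime p hp⟩
    have h2 : t ≤ 4 ^ y := (Nat.le_of_dvd (primorial_pos y) h1).trans (primorial_le_four_pow y)
    have h3 : (t : ℝ) ≤ (4 : ℝ) ^ y := by exact_mod_cast h2
    have h4 : (4 : ℝ) ^ y ≤ Real.exp (κ * L) := by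
      have h5 : (4 : ℝ) ^ y = Real.exp (y * Real.log 4) := by
        rw [mul_comm, Real.exp_mul, Real.exp_log (by norm_num), Real.rpow_natCast]
      rw [h5]
      apply Real.exp_le_exp.2
      have h6 : Real.log 4 ≤ 2 := by
        have : Real.log 4 = 2 * Real.log 2 := by
          rw [show (4 : ℝ) = 2 ^ 2 by norm_num, Real.log_pow]; norm_num
        have := Real.log_two_lt_d9
        linarith
      have h7 : (y : ℝ) ≤ Y := Nat.floor_le hY0.le
      have h8 : (y : ℝ) * Real.log 4 ≤ Y * 2 :=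
        mul_le_mul h7 h6 (Real.log_nonneg (by norm_num)) hY0.le
      rw [hY] at h8
      linarith
    have h9 : (N : ℝ) ^ κ = Real.exp (κ * L) := by
      rw [Real.rpow_def_of_pos hN', hL, mul_comm]
    rw [h9]
    exact h3.trans h4
  · rw [radT_ratio t ht0, radT_ratio q hq0, htpf]
    have hsplit : ∏ p ∈ q.primeFactors, (1 - (p : ℝ)⁻¹) =
        (∏ p ∈ S, (1 - (p : ℝ)⁻¹)) * ∏ p ∈ P, (1 - (p : ℝ)⁻¹) :=
      (Finset.prod_filter_mul_prod_filter_not _ _ _).symm
    rw [hsplit]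
    have hnn : ∀ p ∈ q.primeFactors, (0 : ℝ) ≤ 1 - (p : ℝ)⁻¹ := by
      intro p hp
      have : (1 : ℝ) ≤ p := by exact_mod_cast (Nat.prime_of_mem_primeFactors hp).one_le
      have := inv_le_one_of_one_le₀ this
      linarith
    have hSnn : 0 ≤ ∏ p ∈ S, (1 - (p : ℝ)⁻¹) :=
      Finset.prod_nonneg fun p hp => hnn p (mem_filter.1 hp).1
    -- lower bound for the product over the large primes
    have hPY : ∀ p ∈ P, Y ≤ (p : ℝ) := by
      intro p hp
      have h2 := (mem_filter.1 hp).2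
      exact ((Nat.lt_of_floor_lt (not_le.1 h2))).le
    have hPprime : ∀ p ∈ P, p.Prime := fun p hp =>
      Nat.prime_of_mem_primeFactors (mem_filter.1 hp).1
    have hcard : (P.card : ℝ) * Real.log Y ≤ L := by
      have h1 : Y ^ P.card ≤ ∏ p ∈ P, (p : ℝ) := by
        rw [← Finset.prod_const]
        exact Finset.prod_le_prod (fun _ _ => hY0.le) hPY
      have h2 : ∏ p ∈ P, p ≤ N := by
        have : ∏ p ∈ P, p ∣ q :=
          (Finset.prod_dvd_prod_of_subset _ _ _ (filter_subset _ _)).trans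
            (Nat.prod_primeFactors_dvd q)
        exact (Nat.le_of_dvd hq this).trans hqN
      have h3 : ∏ p ∈ P, (p : ℝ) ≤ N := by
        have : ((∏ p ∈ P, p : ℕ) : ℝ) ≤ N := by exact_mod_cast h2
        simpa [Nat.cast_prod] using this
      have h4 := Real.log_le_log (by positivity) (h1.trans h3)
      rw [Real.log_pow] at h4
      rw [hL]
      exact h4
    have hlogY : 0 < Real.log Y := Real.log_pos hY1
    have hratio : (P.card : ℝ) * Y⁻¹ ≤ ε / (1 + ε) := by
      have h1 : (P.card : ℝ) ≤ L / Real.log Y := (le_div_iff₀ hlogY).2 hcard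
      have h2 : L / Real.log Y * Y⁻¹ = 2 / (κ * Real.log Y) := by
        have hL' : L = 2 * Y / κ := by rw [hY]; field_simp
        rw [hL']
        field_simp
      calc (P.card : ℝ) * Y⁻¹ ≤ L / Real.log Y * Y⁻¹ :=
            mul_le_mul_of_nonneg_right h1 (by positivity)
        _ = 2 / (κ * Real.log Y) := h2
        _ ≤ _ := hlog
    have hYinv : Y⁻¹ ≤ 1 := inv_le_one_of_one_le₀ hY1.le
    have hprod : 1 / (1 + ε) ≤ ∏ p ∈ P, (1 - (p : ℝ)⁻¹) := by
      have h1 : (1 - Y⁻¹) ^ P.card ≤ ∏ p ∈ P, (1 - (p : ℝ)⁻¹) := by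
        rw [← Finset.prod_const]
        refine Finset.prod_le_prod (fun _ _ => by linarith) ?_
        intro p hp
        have := inv_anti₀ hY0 (hPY p hp)
        linarith
      have h2 : 1 + (P.card : ℝ) * (-Y⁻¹) ≤ (1 + (-Y⁻¹)) ^ P.card :=
        one_add_mul_le_pow (by linarith) _
      have h3 : 1 / (1 + ε) = 1 - ε / (1 + ε) := by field_simp; ring
      rw [h3]
      have h4 : (1 + (-Y⁻¹)) = 1 - Y⁻¹ := by ring
      rw [h4] at h2
      have h5 : 1 + (P.card : ℝ) * (-Y⁻¹) = 1 - (P.card : ℝ) * Y⁻¹ := by ring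
      linarith
    have h1e : 0 < 1 + ε := by linarith
    have : 1 ≤ (1 + ε) * ∏ p ∈ P, (1 - (p : ℝ)⁻¹) := by
      have := mul_le_mul_of_nonneg_left hprod h1e.le
      rwa [mul_one_div_cancel h1e.ne'] at this
    calc ∏ p ∈ S, (1 - (p : ℝ)⁻¹) = (∏ p ∈ S, (1 - (p : ℝ)⁻¹)) * 1 := (mul_one _).symm
      _ ≤ (∏ p ∈ S, (1 - (p : ℝ)⁻¹)) * ((1 + ε) * ∏ p ∈ P, (1 - (p : ℝ)⁻¹)) :=
          mul_le_mul_of_nonneg_left this hSnn
      _ = _ := by ring

theorem rad_t (ε κ : ℝ) (hε : 0 < ε) (hκ : 0 < κ) : ∃ N₀ : ℕ, ∀ N : ℕ, N₀ ≤ N → ∀ q : ℕ, 1 ≤ q →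
    q ≤ N → ∃ t₀ : ℕ, t₀ ∣ q ∧ Squarefree t₀ ∧ (t₀ : ℝ) ≤ (N : ℝ) ^ κ ∧
      (t₀.totient : ℝ) / t₀ ≤ (1 + ε) * ((q.totient : ℝ) / q) := by
  set A : ℝ := 2 * (1 + ε) / (κ * ε) with hA
  have hA0 : 0 < A := by positivity
  refine ⟨⌈Real.exp (2 * Real.exp A / κ)⌉₊, ?_⟩
  intro N hN q hq hqN
  have hN1 : Real.exp (2 * Real.exp A / κ) ≤ N := (Nat.le_ceil _).trans (by exact_mod_cast hN)
  have hL : 2 * Real.exp A / κ ≤ Real.log N := by
    have := Real.log_le_log (Real.exp_pos _) hN1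
    rwa [Real.log_exp] at this
  have hY : Real.exp A ≤ κ * Real.log N / 2 := by
    rw [div_le_iff₀ hκ] at hL
    linarith
  have hexp1 : 1 < Real.exp A := Real.one_lt_exp_iff.2 hA0
  have hY1 : 1 < κ * Real.log N / 2 := lt_of_lt_of_le hexp1 hY
  refine radT_main ε κ (κ * Real.log N / 2) (Real.log N) hε hκ rfl hY1 ?_ N q hq hqN rfl
  have hlogY : A ≤ Real.log (κ * Real.log N / 2) := by
    have := Real.log_le_log (Real.exp_pos _) hY
    rwa [Real.log_exp] at this
  have h1 : 2 / (κ * Real.log (κ * Real.log N / 2)) ≤ 2 / (κ * A) := by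
    apply div_le_div_of_nonneg_left (by norm_num) (by positivity)
    exact mul_le_mul_of_nonneg_left hlogY hκ.le
  have h2 : 2 / (κ * A) = ε / (1 + ε) := by
    rw [hA]
    field_simp
  linarith

end Pool.Agent.M848.SV
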