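import Pool.Agent.Lib.MP_848d44_nt.SV.FinQ
import Pool.Agent.Lib.MP_848d44_nt.SV.FinM
import Pool.Agent.Lib.MP_848d44_nt.SV.QuadJ
import Pool.Agent.Lib.MP_848d44_nt.SV.RadT

set_option autoImplicit false

/-!
# MP_848d44_nt, project SV, part 2: the number of bad moduli, and the good moduli
-/

noncomputable section

namespace Pool.Agent.M848.SV

open Finset Filter Pool.Agent.M848 Pool.Agent.M848.FC
open scoped ArithmeticFunction.vonMangoldt ComplexConjugate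

/-- The bad moduli in `(Q, 2Q]` for the sign `σ`. -/
def BadS (W : ℤ → ℝ) (N Q R₀ R I : ℕ) (u : ℝ) (σ : ℤ) : Finset ℕ :=
  (Ioc Q (2 * Q)).filter (fun q => q ≤ N ∧ (N : ℝ) < ‖MainHi W N q R₀ R I σ‖ * u ^ 2)

theorem unit_mul (z : ℂ) : ‖((‖z‖ : ℝ) : ℂ)⁻¹ * (starRingEnd ℂ) z‖ ≤ 1 ∧
    (((‖z‖ : ℝ) : ℂ)⁻¹ * (starRingEnd ℂ) z) * z = ((‖z‖ : ℝ) : ℂ) := by
  constructor
  · rw [norm_mul, norm_inv, RCLike.norm_conj, Complex.norm_real, norm_norm]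
    exact inv_mul_le_one
  · by_cases hz : z = 0
    · subst hz
      simp
    · have h1 : (starRingEnd ℂ) z * z = ((‖z‖ : ℝ) : ℂ) ^ 2 := by
        rw [mul_comm, Complex.mul_conj, Complex.normSq_eq_norm_sq]
        push_cast
        rfl
      have h2 : ((‖z‖ : ℝ) : ℂ) ≠ 0 := by
        rw [Complex.ofReal_ne_zero, norm_ne_zero_iff]
        exact hz
      rw [mul_assoc, h1]
      field_simp

theorem bad_count (κ : ℝ) (hκ : 0 < κ) : ∃ C : ℝ, 1 ≤ C ∧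
    ∀ (N Q R₀ R I h j : ℕ) (A B : ℤ) (H C₃ : ℝ), 1 ≤ N → 1 ≤ R₀ → 1 ≤ R → R ^ 2 ≤ N → 1 ≤ h →
    1 ≤ H → (N : ℝ) ≤ H * h → Wgt (spl A B h (j + 3)) N → 1 ≤ Q → Q ≤ N →
    1 + Real.log N ≤ C₃ * (N : ℝ) ^ κ → 1 ≤ C₃ →
    ∀ σ : ℤ, (σ = 1 ∨ σ = -1) → ∀ X : ℝ, 0 ≤ X →
    (∀ i, I ≤ i → 2 ^ i < R → (2 : ℝ) ^ i + Q / 2 ^ i ≤ X) →
      ((BadS (spl A B h (j + 3)) N Q R₀ R I ((N : ℝ) ^ κ) σ).card : ℝ) ≤
        C * C₃ ^ 4 * H ^ 6 * ((N : ℝ) ^ κ) ^ 12 * X := by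
  obtain ⟨C, hC, ha⟩ := hi_avg κ hκ
  refine ⟨C ^ 2, one_le_pow₀ hC, ?_⟩
  intro N Q R₀ R I h j A B H C₃ hN1 hR₀ hR hR2N hh hH hNH hW hQ1 hQN hlog hC₃ σ hσ X hX0 hX
  have hC0 : 0 < C := by linarith
  have hN0 : (0 : ℝ) < N := by exact_mod_cast hN1
  have hN1' : (1 : ℝ) ≤ N := by exact_mod_cast hN1
  set W := spl A B h (j + 3) with hWdef
  set u : ℝ := (N : ℝ) ^ κ with hudef
  have hu1 : 1 ≤ u := Real.one_le_rpow hN1' hκ.le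
  have hu0 : 0 < u := by linarith
  have hC30 : 0 < C₃ := by linarith
  set E := BadS W N Q R₀ R I u σ with hE
  set ξ : ℕ → ℂ := fun q => ((‖MainHi W N q R₀ R I σ‖ : ℝ) : ℂ)⁻¹ *
    (starRingEnd ℂ) (MainHi W N q R₀ R I σ) with hξ
  have hmem : ∀ q ∈ E, Q < q ∧ q ≤ 2 * Q ∧ q ≤ N := by
    intro q hq
    rw [hE, BadS, mem_filter, mem_Ioc] at hq
    exact ⟨hq.1.1, hq.1.2, hq.2.1⟩
  have h1 := ha N Q R₀ R I h j A B H hN1 hR₀ hR hR2N hh hH hNH hW hQ1 hQN E hmem ξ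
    (fun q => (unit_mul _).1) σ hσ X hX
  have h2 : ∑ q ∈ E, ξ q * MainHi W N q R₀ R I σ =
      ((∑ q ∈ E, ‖MainHi W N q R₀ R I σ‖ : ℝ) : ℂ) := by
    push_cast
    exact sum_congr rfl fun q _ => (unit_mul _).2
  rw [h2, Complex.norm_real, Real.norm_eq_abs,
    abs_of_nonneg (sum_nonneg fun q _ => norm_nonneg _)] at h1
  set S := ∑ q ∈ E, ‖MainHi W N q R₀ R I σ‖ with hS
  have h3 : (E.card : ℝ) * N ≤ S * u ^ 2 := by
    rw [hS, sum_mul]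
    calc (E.card : ℝ) * N = ∑ q ∈ E, (N : ℝ) := by rw [sum_const, nsmul_eq_mul]
      _ ≤ _ := by
        refine sum_le_sum fun q hq => ?_
        rw [hE, BadS, mem_filter] at hq
        exact hq.2.2.le
  have hL0 : 0 ≤ 1 + Real.log N := by
    have := Real.log_natCast_nonneg N
    linarith
  have hu2 : (N : ℝ) ^ (2 * κ) = u ^ 2 := by
    rw [hudef, ← Real.rpow_natCast, ← Real.rpow_mul hN0.le]
    congr 1
    push_cast
    ring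
  rw [hu2] at h1
  set e : ℝ := (E.card : ℝ) with he
  have he0 : 0 ≤ e := Nat.cast_nonneg _
  have h4 : e * N ≤ (C * C₃ ^ 2 * H ^ 3 * u ^ 6 * Real.sqrt (X * e)) * N := by
    calc e * N ≤ S * u ^ 2 := h3
      _ ≤ C * u ^ 2 * H ^ 3 * (1 + Real.log N) ^ 2 * (N * Real.sqrt (X * e)) * u ^ 2 := by gcongr
      _ ≤ C * u ^ 2 * H ^ 3 * (C₃ * u) ^ 2 * (N * Real.sqrt (X * e)) * u ^ 2 := by gcongr
      _ = _ := by ring
  have h5 : e ≤ C * C₃ ^ 2 * H ^ 3 * u ^ 6 * Real.sqrt (X * e) := le_of_mul_le_mul_right h4 hN0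
  have h6 : e ^ 2 ≤ (C ^ 2 * C₃ ^ 4 * H ^ 6 * u ^ 12 * X) * e := by
    calc e ^ 2 ≤ (C * C₃ ^ 2 * H ^ 3 * u ^ 6 * Real.sqrt (X * e)) ^ 2 := by gcongr
      _ = C ^ 2 * C₃ ^ 4 * H ^ 6 * u ^ 12 * (Real.sqrt (X * e)) ^ 2 := by ring
      _ = C ^ 2 * C₃ ^ 4 * H ^ 6 * u ^ 12 * (X * e) := by rw [Real.sq_sqrt (by positivity)]
      _ = _ := by ring
  rcases he0.eq_or_lt with h7 | h7
  · rw [← h7]
    positivity
  · rw [sq] at h6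
    exact le_of_mul_le_mul_right h6 h7

theorem master3 (N q R₀ R : ℕ) (hq : 1 ≤ q) (W : ℤ → ℝ) (η E₁ E₂ E₃ E₄ E₅ τ ρ : ℝ)
    (hψ : ∑ n ∈ Icc 1 N, (Λ n : ℝ) ≤ 2 * N)
    (hW : (1 - 3 * η) * N ≤ ∑ n ∈ Icc 1 N, (Λ n : ℝ) * W (n : ℤ))
    (hoff : ‖((A1 W N q R₀ R - Dg W N q R₀ R : ℝ) : ℂ) -
          (MainS W N q R₀ R 1 + MainS W N q R₀ R (-1))‖ ≤ E₁)
    (hm : ‖MainS W N q R₀ R 1 + MainS W N q R₀ R (-1)‖ ≤ 2 * E₂)
    (hdg : |Dg W N q R₀ R - JJ q R₀ R * ∑ n ∈ Icc 1 N, (Λ n : ℝ) * W (n : ℤ)| ≤ E₃)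
    (hmean : |∑ a ∈ Co q, TS W N q R₀ R a| ≤ E₄)
    (hρ : ρ ≤ (1 + η) * ((q.totient : ℝ) / q))
    (hsec : ∑ a ∈ Co q, TS W N q R₀ R a ^ 2 ≤ JJ q R₀ R * (N * ρ + τ) + E₅) (Y : ℝ) :
    (1 - 7 * η) * ((q : ℝ) / q.totient * JJ q R₀ R) * N -
      (2 * ((q : ℝ) / q.totient) * (E₁ + 2 * E₂ + E₃ + 2 * N / q.totient * E₄) +
        ((q : ℝ) / q.totient) ^ 2 * (JJ q R₀ R * τ + E₅)) ≤ VV N q Y := by
  have hφ : (0 : ℝ) < q.totient := by exact_mod_cast Nat.totient_pos.2 hq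
  have hq0 : (0 : ℝ) < q := by exact_mod_cast hq
  have hJ := JJ_nonneg q R₀ R
  have hsec' : ∑ a ∈ Co q, TS W N q R₀ R a ^ 2 ≤
      JJ q R₀ R * (N * ((q.totient : ℝ) / q) + (N * (η * ((q.totient : ℝ) / q)) + τ)) + E₅ := by
    refine hsec.trans ?_
    have h1 : N * ρ + τ ≤ N * ((q.totient : ℝ) / q) + (N * (η * ((q.totient : ℝ) / q)) + τ) := by
      have : (N : ℝ) * ρ ≤ N * ((1 + η) * ((q.totient : ℝ) / q)) := by gcongr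
      linarith
    have := mul_le_mul_of_nonneg_left h1 hJ
    linarith
  have h2 := master2 N q R₀ R hq W η E₁ E₂ E₃ E₄ E₅ _ hψ hW hoff hm hdg hmean hsec' Y
  have e : ((q : ℝ) / q.totient) ^ 2 *
      (JJ q R₀ R * (N * (η * ((q.totient : ℝ) / q)) + τ) + E₅) =
      η * ((q : ℝ) / q.totient * JJ q R₀ R) * N +
        ((q : ℝ) / q.totient) ^ 2 * (JJ q R₀ R * τ + E₅) := by
    field_simp
    ring
  rw [e] at h2
  linarith

theorem gen_err3 (N K R R₀ u lam Co' CM C₃ H Cd Cm Cs C₂ CJ J τ φ X5 : ℝ) (hN0 : 0 < N)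
    (hu : 1 ≤ u)
    (hφ : 0 < φ) (hK0 : 0 ≤ K) (hR1 : 1 ≤ R) (hR₀0 : 0 < R₀) (hlam0 : 0 < lam) (hCo : 0 < Co')
    (hCM0 : 0 < CM) (hC₃0 : 0 < C₃) (hH0 : 0 < H) (hCd : 0 < Cd) (hCm : 0 < Cm) (hCs : 0 < Cs)
    (hC₂0 : 0 < C₂) (hCJ : 0 < CJ) (hJ0 : 0 ≤ J) (hτ0 : 0 ≤ τ)
    (hlamC : lam ≤ C₂ * u) (hτ : τ ≤ C₂ * u) (hJu : J ≤ CJ * u)
    (hφK : 2 * N / φ ≤ 2 * (K + 1) * lam)
    (hb1 : (K + 1) * R * u ^ 30 ≤ N) (hX50 : 0 ≤ X5) (hX5 : X5 * u ^ 4 ≤ 8 * N) (hu5 : u ^ 5 ≤ N)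
    (hK : K * u ^ 20 ≤ R₀) :
    (2 * lam * (Co' * u * ((K + 1) * R) +
      2 * (CM * C₃ ^ 2 * (2 * H + 1) * N / u ^ 2) + Cd * u * R +
      2 * N / φ * (Cm * u * R)) +
      lam ^ 2 * (J * τ + Cs * u * (N * K / R₀ + X5))) * u ≤
      (2 * C₂ * (Co' + 2 * (CM * C₃ ^ 2 * (2 * H + 1)) + Cd + 2 * C₂ * Cm) +
        C₂ ^ 2 * (CJ * C₂ + 9 * Cs)) * N := by
  have hu0 : 0 < u := by linarith
  have hpu : ∀ a b : ℕ, a ≤ b → u ^ a ≤ u ^ b := fun a b h => pow_le_pow_right₀ hu h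
  have t1 : lam * (Co' * u * ((K + 1) * R)) * u ≤ C₂ * Co' * N := by
    calc _ ≤ (C₂ * u) * (Co' * u * ((K + 1) * R)) * u := by gcongr
      _ = C₂ * Co' * ((K + 1) * R * u ^ 3) := by ring
      _ ≤ C₂ * Co' * ((K + 1) * R * u ^ 30) := by
          have := hpu 3 30 (by norm_num)
          gcongr
      _ ≤ _ := by gcongr
  have t2 : lam * (CM * C₃ ^ 2 * (2 * H + 1) * N / u ^ 2) * u ≤
      C₂ * (CM * C₃ ^ 2 * (2 * H + 1)) * N := by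
    calc _ ≤ (C₂ * u) * (CM * C₃ ^ 2 * (2 * H + 1) * N / u ^ 2) * u := by gcongr
      _ = _ := by field_simp
  have t3 : lam * (Cd * u * R) * u ≤ C₂ * Cd * N := by
    calc _ ≤ (C₂ * u) * (Cd * u * R) * u := by gcongr
      _ = C₂ * Cd * (1 * R * u ^ 3) := by ring
      _ ≤ C₂ * Cd * ((K + 1) * R * u ^ 30) := by
          have := hpu 3 30 (by norm_num)
          have h1 : 1 ≤ K + 1 := by linarith
          gcongr
      _ ≤ _ := by gcongr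
  have t4 : lam * (2 * N / φ * (Cm * u * R)) * u ≤ C₂ * (2 * C₂ * Cm) * N := by
    calc _ ≤ (C₂ * u) * (2 * (K + 1) * (C₂ * u) * (Cm * u * R)) * u := by
          have h1 : 2 * N / φ ≤ 2 * (K + 1) * (C₂ * u) :=
            hφK.trans (mul_le_mul_of_nonneg_left hlamC (by positivity))
          gcongr
      _ = C₂ * (2 * C₂ * Cm) * ((K + 1) * R * u ^ 4) := by ring
      _ ≤ C₂ * (2 * C₂ * Cm) * ((K + 1) * R * u ^ 30) := by
          have := hpu 4 30 (by norm_num)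
          gcongr
      _ ≤ _ := by gcongr
  have t5 : lam ^ 2 * (J * τ) * u ≤ C₂ ^ 2 * (CJ * C₂) * N := by
    calc _ ≤ (C₂ * u) ^ 2 * ((CJ * u) * (C₂ * u)) * u := by gcongr
      _ = C₂ ^ 2 * (CJ * C₂) * u ^ 5 := by ring
      _ ≤ _ := by gcongr
  have t6 : lam ^ 2 * (Cs * u * (N * K / R₀ + X5)) * u ≤
      C₂ ^ 2 * (9 * Cs) * N := by
    have h3 : N * K / R₀ * u ^ 4 ≤ N := by
      have h4 : K * u ^ 4 / R₀ ≤ 1 := by
        rw [div_le_one hR₀0]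
        refine le_trans ?_ hK
        have := hpu 4 20 (by norm_num)
        gcongr
      calc N * K / R₀ * u ^ 4 = N * (K * u ^ 4 / R₀) := by ring
        _ ≤ N * 1 := by gcongr
        _ = N := mul_one _
    calc _ ≤ (C₂ * u) ^ 2 * (Cs * u * (N * K / R₀ + X5)) * u := by gcongr
      _ = C₂ ^ 2 * Cs * (N * K / R₀ * u ^ 4 + X5 * u ^ 4) := by ring
      _ ≤ C₂ ^ 2 * Cs * (N + 8 * N) := by gcongr
      _ = _ := by ring
  linarith [t1, t2, t3, t4, t5, t6]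

/-- The quadrature error. -/
theorem quad_num (κ N K R t h u H E : ℝ) (j : ℕ) (hN1 : 1 ≤ N) (hK0 : 0 ≤ K) (hKN : K ≤ N)
    (hR0 : 0 ≤ R) (hRN : R ^ 2 * u ^ 40 ≤ N) (ht : t ≤ u) (ht0 : 0 ≤ t) (hh : 0 < h)
    (hNH : N ≤ H * h) (hu : 1 ≤ u) (hudef : u = N ^ κ) (hj : 6 ≤ κ * j) (hjN : (j : ℝ) + 1 ≤ N)
    (hHu : 4 * H ≤ u) (hE : E = 4 * ((j : ℝ) + 1) * N * ((4 * t * R ^ 2) / h) ^ (j + 1))
    (hu4 : u ^ 4 ≤ N) :
    0 ≤ (K + 1) * R ^ 2 * E ∧ (K + 1) * R ^ 2 * E * u ^ 4 ≤ 8 * N := by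
  have hu0 : 0 < u := by linarith
  have hN0 : 0 < N := by linarith
  have hH0 : 0 < H := by
    by_contra hc
    have : H * h ≤ 0 := mul_nonpos_of_nonpos_of_nonneg (not_lt.1 hc) hh.le
    linarith
  have hj0 : (0 : ℝ) ≤ j := Nat.cast_nonneg j
  have h1 : (4 * t * R ^ 2) / h ≤ 1 / u := by
    rw [div_le_div_iff₀ hh hu0, one_mul]
    have h2 : R ^ 2 * u ^ 40 ≤ H * h := hRN.trans hNH
    have h3 : 4 * t * R ^ 2 * u * u ≤ h * u := by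
      calc 4 * t * R ^ 2 * u * u ≤ 4 * u * R ^ 2 * u * u := by gcongr
        _ = 4 * (R ^ 2 * u ^ 3) := by ring
        _ ≤ 4 * (R ^ 2 * u ^ 40) := by
            have := pow_le_pow_right₀ hu (show 3 ≤ 40 by norm_num)
            gcongr
        _ ≤ 4 * (H * h) := by gcongr
        _ = (4 * H) * h := by ring
        _ ≤ u * h := by gcongr
        _ = h * u := mul_comm _ _
    exact le_of_mul_le_mul_right h3 hu0
  have h2 : ((4 * t * R ^ 2) / h) ^ (j + 1) ≤ 1 / N ^ 6 := by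
    calc ((4 * t * R ^ 2) / h) ^ (j + 1) ≤ (1 / u) ^ (j + 1) := by gcongr
      _ = 1 / u ^ (j + 1) := by rw [one_div_pow]
      _ ≤ 1 / N ^ 6 := by
          have h6 : u ^ j = N ^ (κ * j) := by
            rw [hudef, ← Real.rpow_natCast, ← Real.rpow_mul hN0.le]
          have h7 : N ^ 6 ≤ u ^ (j + 1) := by
            calc N ^ 6 = N ^ (6 : ℝ) := by norm_cast
              _ ≤ N ^ (κ * j) := Real.rpow_le_rpow_of_exponent_le hN1 hj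
              _ = u ^ j := h6.symm
              _ ≤ u ^ (j + 1) := pow_le_pow_right₀ hu (by omega)
          gcongr
  have hE0 : 0 ≤ E := by rw [hE]; positivity
  have hR2 : R ^ 2 ≤ N := by
    refine le_trans ?_ hRN
    have : 1 ≤ u ^ 40 := one_le_pow₀ hu
    nlinarith [sq_nonneg R]
  refine ⟨by positivity, ?_⟩
  calc (K + 1) * R ^ 2 * E * u ^ 4 ≤ (N + N) * N * (4 * N * N * (1 / N ^ 6)) * N := by
        rw [hE]
        gcongr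
    _ = 8 / N := by
        field_simp
        ring
    _ ≤ 8 * N := by
        rw [div_le_iff₀ hN0]
        nlinarith

end Pool.Agent.M848.SV
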