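import Pool.Agent.Lib.MP_848d44_nt.SV.FinR

set_option autoImplicit false

/-!
# MP_848d44_nt, project SV, part 2: the lower bound for the good moduli
-/

noncomputable section

namespace Pool.Agent.M848.SV

open Finset Filter Pool.Agent.M848 Pool.Agent.M848.FC
open scoped ArithmeticFunction.vonMangoldt ComplexConjugate

theorem concl3 (N R R₀ : ℕ) (η ε' J lam Err V C' Kk : ℝ) (hN0 : (0 : ℝ) < N)
    (hη0 : 0 < η) (hη1 : η ≤ 1 / 16) (hε' : ε' = 16 * η) (hErr0 : 0 ≤ Err)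
    (herr : Err * Kk ≤ C' * N) (hKk : 1 ≤ Kk) (hC' : C' ≤ η * Real.log N) (hR₀1 : 1 ≤ R₀)
    (hR1 : 1 ≤ R) (hRN : R ≤ N) (hlogN : 0 ≤ Real.log N)
    (hℓ : Real.log R - Real.log R₀ - η * Real.log N ≤ lam * J)
    (key : (1 - 7 * η) * (lam * J) * N - Err ≤ V) :
    N * (Real.log R - Real.log R₀ - ε' * Real.log N) ≤ V := by
  have hErr2 : Err ≤ η * Real.log N * N := by
    calc Err ≤ Err * Kk := by nlinarith
      _ ≤ C' * N := herr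
      _ ≤ _ := by gcongr
  have hR₀log : 0 ≤ Real.log R₀ := Real.log_natCast_nonneg R₀
  have hR0 : (0 : ℝ) < R := by exact_mod_cast hR1
  have hRlog : Real.log R ≤ Real.log N := Real.log_le_log hR0 (by exact_mod_cast hRN)
  have hηL : 0 ≤ η * Real.log N := by positivity
  have hmain : (Real.log R - Real.log R₀ - 8 * η * Real.log N) ≤ (1 - 7 * η) * (lam * J) := by
    have h3 : 0 ≤ 1 - 7 * η := by linarith
    have h4 := mul_le_mul_of_nonneg_left hℓ h3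
    have h5 : Real.log R - Real.log R₀ - η * Real.log N ≤ Real.log N := by linarith
    have h6 : 7 * η * (Real.log R - Real.log R₀ - η * Real.log N) ≤ 7 * η * Real.log N := by
      gcongr
    linarith
  have hfin : N * (Real.log R - Real.log R₀ - 8 * η * Real.log N) ≤
      (1 - 7 * η) * (lam * J) * N := by
    rw [mul_comm (N : ℝ)]
    exact mul_le_mul_of_nonneg_right hmain hN0.le
  have h8 : N * (Real.log R - Real.log R₀ - ε' * Real.log N) ≤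
      N * (Real.log R - Real.log R₀ - 8 * η * Real.log N) - η * Real.log N * N := by
    rw [hε']
    have h10 : 0 ≤ η * Real.log N * N := by positivity
    have h11 : (N : ℝ) * (Real.log R - Real.log R₀ - 16 * η * Real.log N) =
        N * (Real.log R - Real.log R₀ - 8 * η * Real.log N) - 8 * (η * Real.log N * N) := by ring
    rw [h11]
    linarith
  linarith [key]

theorem gen3 (κ C₃ η H : ℝ) (j : ℕ) (hκ : 0 < κ) (hκ1 : κ ≤ 1 / 10) (hj : 6 ≤ κ * j)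
    (hη0 : 0 < η) (hη1 : η ≤ 1 / 16) (hH1 : 2 ≤ H) :
    ∃ N₀ : ℕ, ∀ N : ℕ, N₀ ≤ N → ∀ h : ℕ, 1 ≤ h → h ≤ N → ((j : ℝ) + 1) * h ≤ η * N →
    (N : ℝ) ≤ H * h →
    ∀ (q R₀ R I : ℕ) (m : ℝ), Sz3 N q R₀ R I ((N : ℝ) ^ κ) m C₃ → R₀ ≤ R →
      (R : ℝ) ^ 2 * ((N : ℝ) ^ κ) ^ 40 ≤ N →
      (((N / q : ℕ) : ℝ) + 1) * (R : ℝ) * ((N : ℝ) ^ κ) ^ 30 ≤ N →
      (∀ σ : ℤ, (σ = 1 ∨ σ = -1) →
        ‖MainHi (Wj N h j) N q R₀ R I σ‖ * ((N : ℝ) ^ κ) ^ 2 ≤ N) →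
      ∀ Y : ℝ, N * (Real.log R - Real.log R₀ - 16 * η * Real.log N) ≤ VV N q Y := by
  obtain ⟨Co', hCo, ho⟩ := offexp κ hκ
  obtain ⟨Cs, hCs, hs⟩ := sec κ hκ
  obtain ⟨Cm, hCm, hm⟩ := mean_T κ hκ
  obtain ⟨Cd, hCd, hd⟩ := diag_one κ hκ
  obtain ⟨CM, hCM, hM⟩ := mainLo_bound κ hκ j hj
  obtain ⟨CJ, hCJ, hJ⟩ := JJ_le κ hκ
  obtain ⟨C₂, hC₂, h2⟩ := divisor_bound κ hκ
  obtain ⟨N₁, hN₁⟩ := pnt_w η hη0
  obtain ⟨N₂, hN₂⟩ := psi_le
  obtain ⟨N₃, hN₃⟩ := JJ_lower η hη0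
  obtain ⟨N₆, hN₆⟩ := rad_t η κ hη0 hκ
  have hH0 : 0 < H := by linarith
  set H' : ℝ := (H ^ 3 - 1) / 2 with hH'
  have hH3 : 2 ^ 3 ≤ H ^ 3 := by gcongr
  have hH'0 : 0 < H' := by rw [hH']; linarith
  have hH'e : 2 * H' + 1 = H ^ 3 := by rw [hH']; ring
  set C' : ℝ := 2 * C₂ * (Co' + 2 * ((CM + 1) * C₃ ^ 2 * (2 * H' + 1)) + Cd + 2 * C₂ * Cm) +
    C₂ ^ 2 * (CJ * C₂ + 9 * Cs) with hC'
  -- large N
  have hlogt : Tendsto (fun N : ℕ => Real.log (N : ℝ)) atTop atTop :=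
    Real.tendsto_log_atTop.comp tendsto_natCast_atTop_atTop
  have htend : Tendsto (fun N : ℕ => (N : ℝ) ^ κ) atTop atTop :=
    (tendsto_rpow_atTop hκ).comp tendsto_natCast_atTop_atTop
  obtain ⟨N₄, hN₄⟩ := Filter.eventually_atTop.1 (hlogt.eventually_ge_atTop (C' / η))
  obtain ⟨N₅, hN₅⟩ := Filter.eventually_atTop.1 (htend.eventually_ge_atTop (4 * H))
  obtain ⟨N₇, hN₇⟩ := Filter.eventually_atTop.1
    ((tendsto_natCast_atTop_atTop (R := ℝ)).eventually_ge_atTop ((j : ℝ) + 1))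
  refine ⟨max 1 (max N₁ (max N₂ (max N₃ (max N₄ (max N₅ (max N₆ N₇)))))), ?_⟩
  intro N hN h hh1 hhN hh2 hNH q R₀ R I m hS hR₀R hR2 hb1 hbad Y
  have hNN : N₁ ≤ N ∧ N₂ ≤ N ∧ N₃ ≤ N ∧ N₄ ≤ N ∧ N₅ ≤ N ∧ N₆ ≤ N ∧ N₇ ≤ N := by
    simp only [max_le_iff] at hN
    tauto
  have hS' := hS
  have hj7 := hN₇ N hNN.2.2.2.2.2.2
  have hu4H := hN₅ N hNN.2.2.2.2.1
  set u : ℝ := (N : ℝ) ^ κ with hudef
  obtain ⟨hu2, hum, hNm, hN56, hN34, hlog, hC₃, hN1, hq, hqN, hR₀, hR, hRN, hK, hI⟩ := hS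
  have hu : 1 ≤ u := by linarith
  have hu0 : 0 < u := by linarith
  have hN0 : (0 : ℝ) < N := by exact_mod_cast hN1
  have hN1' : (1 : ℝ) ≤ N := by exact_mod_cast hN1
  have hL4 := hN₄ N hNN.2.2.2.1
  have hh0 : (0 : ℝ) < h := by exact_mod_cast hh1
  have hC₃0 : 0 < C₃ := by linarith
  have hC₂0 : 0 < C₂ := by linarith
  have hCM0 : 0 < CM := by linarith
  set W := Wj N h j with hWdef
  have hW := wj_wgt N h j hh1
  rw [← hWdef] at hW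
  have htv : TV2 W := spl_tv _ _ _ _ hh1
  have hψ := hN₂ N hNN.2.1
  have hWs : (1 - 3 * η) * N ≤ ∑ n ∈ Icc 1 N, (Λ n : ℝ) * W (n : ℤ) := by
    refine hN₁ N hNN.1 W hW fun m h1 h2 => ?_
    exact wj_one N h j η hh1 hh2 m h1 (by linarith)
  obtain ⟨t₀, ht1, ht2, ht3, ht4⟩ := hN₆ N hNN.2.2.2.2.2.1 q hq hqN
  rw [← hudef] at ht3
  have ht01 : 1 ≤ t₀ := Nat.pos_of_dvd_of_pos ht1 hq
  have ht0N : t₀ ≤ N := (Nat.le_of_dvd hq ht1).trans hqN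
  have hR2' : (R : ℝ) ^ 2 ≤ N := by
    refine le_trans ?_ hR2
    have : 1 ≤ u ^ 40 := one_le_pow₀ hu
    nlinarith [sq_nonneg (R : ℝ)]
  have hR2N : R ^ 2 ≤ N := by exact_mod_cast hR2'
  -- the modules
  have e1 := ho N q R₀ R hq hqN hR hRN W hW
  have e2 : ‖MainS W N q R₀ R 1 + MainS W N q R₀ R (-1)‖ ≤
      2 * ((CM + 1) * C₃ ^ 2 * (2 * H' + 1) * N / u ^ 2) := by
    have h3 := hM N q R₀ R I m C₃ hS' h H hh1 hhN (by linarith) hNH hψ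
    have h4 := hbad 1 (Or.inl rfl)
    have h5 := hbad (-1) (Or.inr rfl)
    rw [← hWdef] at h3
    rw [main_split W N q R₀ R I 1, main_split W N q R₀ R I (-1)]
    have h6 : ‖MainLo W N q R₀ R I 1 + MainHi W N q R₀ R I 1 +
        (MainLo W N q R₀ R I (-1) + MainHi W N q R₀ R I (-1))‖ ≤
        ‖MainLo W N q R₀ R I 1 + MainLo W N q R₀ R I (-1)‖ +
          (‖MainHi W N q R₀ R I 1‖ + ‖MainHi W N q R₀ R I (-1)‖) := by
      have e : MainLo W N q R₀ R I 1 + MainHi W N q R₀ R I 1 +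
        (MainLo W N q R₀ R I (-1) + MainHi W N q R₀ R I (-1)) =
        (MainLo W N q R₀ R I 1 + MainLo W N q R₀ R I (-1)) +
          (MainHi W N q R₀ R I 1 + MainHi W N q R₀ R I (-1)) := by ring
      rw [e]
      exact (norm_add_le _ _).trans (by gcongr; exact norm_add_le _ _)
    have h7 : 2 * ((CM + 1) * C₃ ^ 2 * (2 * H' + 1) * N / u ^ 2) =
        2 * ((CM + 1) * C₃ ^ 2 * (2 * H' + 1) * N) / u ^ 2 := by ring
    rw [h7, le_div_iff₀ (by positivity)]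
    have h8 : (1 : ℝ) ≤ C₃ ^ 2 * H ^ 3 := by
      have h9 : (1 : ℝ) ≤ C₃ ^ 2 := one_le_pow₀ hC₃
      have h10 : (1 : ℝ) ≤ H ^ 3 := one_le_pow₀ (by linarith)
      nlinarith
    calc _ ≤ (‖MainLo W N q R₀ R I 1 + MainLo W N q R₀ R I (-1)‖ +
          (‖MainHi W N q R₀ R I 1‖ + ‖MainHi W N q R₀ R I (-1)‖)) * u ^ 2 := by gcongr
      _ = ‖MainLo W N q R₀ R I 1 + MainLo W N q R₀ R I (-1)‖ * u ^ 2 +
          (‖MainHi W N q R₀ R I 1‖ * u ^ 2 + ‖MainHi W N q R₀ R I (-1)‖ * u ^ 2) := by ring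
      _ ≤ CM * C₃ ^ 2 * H ^ 3 * N + (N + N) := by gcongr
      _ = CM * C₃ ^ 2 * H ^ 3 * N + 2 * 1 * N := by ring
      _ ≤ CM * C₃ ^ 2 * H ^ 3 * N + 2 * (C₃ ^ 2 * H ^ 3) * N := by gcongr
      _ ≤ 2 * ((CM + 1) * C₃ ^ 2 * (2 * H' + 1) * N) := by
          rw [hH'e]
          have : 0 ≤ CM * C₃ ^ 2 * H ^ 3 * N := by positivity
          linarith
  have e3 := hd N q R₀ R hq hqN hR hRN W hW
  have e4 := hm N q R₀ R hq hqN hR₀ hR hRN W hW htv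
  have e5 := hs N q R₀ R t₀ hq hqN hR₀ hR₀R hRN ht1 ht2 W hW _
    (quadJ 1 ((N : ℤ) - (j + 1) * h) h (j + 1) N q t₀ (R ^ 2) hh1 (by omega) hR2N hW)
  rw [← hudef] at e1 e3 e4 e5
  have key := master3 N q R₀ R hq W η _ _ _ _ _ _ _ hψ hWs e1 e2 e3 e4 ht4 e5 Y
  -- sizes
  have hφ : (0 : ℝ) < q.totient := by exact_mod_cast Nat.totient_pos.2 hq
  have hq0 : (0 : ℝ) < q := by exact_mod_cast hq
  set lam : ℝ := (q : ℝ) / q.totient with hlam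
  have hlam0 : 0 < lam := div_pos hq0 hφ
  have hpow : ∀ n : ℕ, 1 ≤ n → n ≤ N → (n.divisors.card : ℝ) ≤ C₂ * u := by
    intro n hn hnN
    refine (h2 n hn).trans ?_
    have : (n : ℝ) ^ κ ≤ (N : ℝ) ^ κ :=
      Real.rpow_le_rpow (Nat.cast_nonneg _) (by exact_mod_cast hnN) hκ.le
    rw [hudef]
    gcongr
  have hlamC : lam ≤ C₂ * u := by
    have h3 := Pool.Agent.M848.totient_lower q
    rw [hlam, div_le_iff₀ hφ]
    exact h3.trans (mul_le_mul_of_nonneg_right (hpow q hq hqN) hφ.le)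
  have hτ : (t₀.divisors.card : ℝ) ≤ C₂ * u := hpow _ ht01 ht0N
  have hτ0 : (0 : ℝ) ≤ t₀.divisors.card := Nat.cast_nonneg _
  have hJu := hJ N q R₀ R hN1 hRN
  rw [← hudef] at hJu
  have hJ0 := JJ_nonneg q R₀ R
  set J := JJ q R₀ R with hJdef
  set K : ℝ := ((N / q : ℕ) : ℝ) with hKdef
  have hK0 : 0 ≤ K := Nat.cast_nonneg _
  have hKN : K ≤ N := by
    rw [hKdef]
    exact_mod_cast Nat.div_le_self N q
  have hR1 : (1 : ℝ) ≤ R := by exact_mod_cast hR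
  have hR₀0 : (0 : ℝ) < R₀ := by exact_mod_cast hR₀
  have hNq' : (N : ℝ) / q ≤ K + 1 := by
    rw [div_le_iff₀ hq0, hKdef]
    have h3 : N < (N / q + 1) * q := by
      have h4 := Nat.div_add_mod N q
      have h5 := Nat.mod_lt N hq
      nlinarith
    have : (N : ℝ) < ((N / q : ℕ) + 1) * q := by exact_mod_cast h3
    linarith
  have hup : ∀ i : ℕ, u ^ i = (N : ℝ) ^ (κ * i) := by
    intro i
    rw [hudef, ← Real.rpow_natCast, ← Real.rpow_mul hN0.le]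
  have hu5 : u ^ 5 ≤ N := by
    rw [hup 5]
    calc (N : ℝ) ^ (κ * (5 : ℕ)) ≤ (N : ℝ) ^ (1 : ℝ) :=
          Real.rpow_le_rpow_of_exponent_le hN1' (by push_cast; linarith)
      _ = N := Real.rpow_one _
  have hu4 : u ^ 4 ≤ N := (pow_le_pow_right₀ hu (by norm_num)).trans hu5
  have hφK : 2 * (N : ℝ) / q.totient ≤ 2 * (K + 1) * lam := by
    have h3 : 2 * (N : ℝ) / q.totient = 2 * (N / q) * lam := by
      rw [hlam]
      field_simp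
    rw [h3]
    gcongr
  obtain ⟨hX0, hX5⟩ := quad_num κ N K R t₀ h u H _ j hN1' hK0 hKN (by linarith) hR2 ht3
    (Nat.cast_nonneg _) hh0 hNH hu hudef hj hj7 hu4H rfl hu4
  have hcast : (4 * ((j + 1 : ℕ) : ℝ) * N * ((4 * (t₀ : ℝ) * ((R ^ 2 : ℕ) : ℝ)) / h) ^ (j + 1)) =
      4 * ((j : ℝ) + 1) * N * ((4 * (t₀ : ℝ) * (R : ℝ) ^ 2) / h) ^ (j + 1) := by
    push_cast
    ring
  rw [hcast] at key
  set E : ℝ := 4 * ((j : ℝ) + 1) * N * ((4 * (t₀ : ℝ) * (R : ℝ) ^ 2) / h) ^ (j + 1) with hE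
  have herr := gen_err3 N K R R₀ u lam Co' (CM + 1) C₃ H' Cd Cm Cs C₂ CJ J _ _
    ((K + 1) * (R : ℝ) ^ 2 * E) hN0 hu hφ hK0 hR1 hR₀0
    hlam0 hCo (by linarith) hC₃0 hH'0 hCd hCm hCs hC₂0 (by linarith) hJ0 hτ0 hlamC hτ hJu hφK hb1
    hX0 hX5 hu5 hK
  rw [← hC'] at herr
  have hlogN : 0 ≤ Real.log N := Real.log_natCast_nonneg N
  have hJl := hN₃ N hNN.2.2.1 q R₀ R hq hqN hR₀ hR₀R hRN
  have hℓ : Real.log R - Real.log R₀ - η * Real.log N ≤ lam * J := by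
    have h3 : lam * ((q.totient : ℝ) / q) = 1 := by
      rw [hlam]
      field_simp
    calc Real.log R - Real.log R₀ - η * Real.log N =
        lam * ((q.totient : ℝ) / q * (Real.log R - Real.log R₀ - η * Real.log N)) := by
          rw [← mul_assoc, h3, one_mul]
      _ ≤ lam * J := mul_le_mul_of_nonneg_left hJl hlam0.le
  have h4 : C' ≤ η * Real.log N := by
    have h5 := (div_le_iff₀ hη0).1 hL4
    linarith
  have hX0' : 0 ≤ (K + 1) * (R : ℝ) ^ 2 * E := hX0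
  exact concl3 N R R₀ η (16 * η) J lam _ _ C' u hN0 hη0 hη1 rfl
    (by positivity) herr hu h4 hR₀ hR hRN hlogN hℓ key

end Pool.Agent.M848.SV
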