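import Pool.Agent.Lib.MP_848d44_nt.SV.FinS
import Pool.Agent.Lib.MP_848d44_nt.SV.FinN

set_option autoImplicit false

/-!
# MP_848d44_nt, project SV, part 2: the parameters, one dyadic range of moduli
-/

noncomputable section

namespace Pool.Agent.M848.SV

open Finset Filter Pool.Agent.M848 Pool.Agent.M848.FC
open scoped ArithmeticFunction.vonMangoldt ComplexConjugate

/-- The basic sizes. -/
structure Bs (N : ℕ) (u m C₃ : ℝ) : Prop where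
  hu2 : 2 ≤ u
  hum : u ^ 1000 ≤ m
  hN : (N : ℝ) = m ^ 12
  hN56 : (N : ℝ) ^ ((5 : ℝ) / 6) = m ^ 10
  hN34 : (N : ℝ) ^ ((3 : ℝ) / 4) = m ^ 9
  hlog : 1 + Real.log N ≤ C₃ * u
  hC₃ : 1 ≤ C₃
  hN1 : 1 ≤ N

/-- `R₀`. -/
def pR0 (N Q : ℕ) (u : ℝ) : ℕ := (N / Q) * ⌈u ^ 20⌉₊

/-- `R`. -/
def pR (u m : ℝ) : ℕ := ⌊m ^ 6 / u ^ 20⌋₊

/-- `I`. -/
def pI (N Q : ℕ) (u m : ℝ) : ℕ :=
  if (N : ℝ) * u ^ 200 ≤ m ^ 4 * Q then Nat.log 2 ⌊Real.sqrt Q / u ^ 20⌋₊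
  else Nat.log 2 ⌊m ^ 4 / u ^ 20⌋₊

theorem log_pw (y : ℝ) (hy : 1 ≤ y) : (2 : ℝ) ^ (Nat.log 2 ⌊y⌋₊) ≤ y ∧
    y < 2 * (2 : ℝ) ^ (Nat.log 2 ⌊y⌋₊) := by
  have h1 : 1 ≤ ⌊y⌋₊ := Nat.le_floor (by push_cast; exact hy)
  constructor
  · have h2 : 2 ^ (Nat.log 2 ⌊y⌋₊) ≤ ⌊y⌋₊ := Nat.pow_log_le_self 2 (by omega)
    have h3 : ((2 ^ (Nat.log 2 ⌊y⌋₊) : ℕ) : ℝ) ≤ (⌊y⌋₊ : ℝ) := by exact_mod_cast h2
    push_cast at h3
    exact h3.trans (Nat.floor_le (by linarith))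
  · have h2 : ⌊y⌋₊ < 2 ^ (Nat.log 2 ⌊y⌋₊ + 1) := Nat.lt_pow_succ_log_self (by norm_num) _
    have h3 : ⌊y⌋₊ + 1 ≤ 2 ^ (Nat.log 2 ⌊y⌋₊ + 1) := h2
    have h4 : ((⌊y⌋₊ : ℝ)) + 1 ≤ 2 ^ (Nat.log 2 ⌊y⌋₊ + 1) := by exact_mod_cast h3
    have h5 := Nat.lt_floor_add_one y
    rw [pow_succ] at h4
    linarith

/-- The condition on the small conductors. -/
theorem pI_lo (N Q q : ℕ) (u m C₃ : ℝ) (hB : Bs N u m C₃) (hQ1 : 1 ≤ Q) (hQq : Q ≤ q)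
    (hQu : u ^ 40 ≤ Q) :
    ∀ i < pI N Q u m, (2 : ℝ) ^ i * u ^ 20 ≤ m ^ 4 ∨
      (((2 : ℝ) ^ i) ^ 2 * u ^ 40 ≤ q ∧ (N : ℝ) * u ^ 200 ≤ m ^ 4 * q) := by
  obtain ⟨hu2, hum, hN, hN56, hN34, hlog, hC₃, hN1⟩ := hB
  have hu : 1 ≤ u := by linarith
  have hu0 : 0 < u := by linarith
  have hm1 : 1 ≤ m := le_trans (one_le_pow₀ hu) hum
  have hQ0 : (0 : ℝ) < Q := by exact_mod_cast hQ1
  have hQq' : (Q : ℝ) ≤ q := by exact_mod_cast hQq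
  intro i hi
  unfold pI at hi
  split_ifs at hi with hc
  · right
    have hT1 : 1 ≤ Real.sqrt Q / u ^ 20 := by
      rw [one_le_div (by positivity), Real.le_sqrt (by positivity) hQ0.le]
      calc (u ^ 20) ^ 2 = u ^ 40 := by ring
        _ ≤ (Q : ℝ) := hQu
    obtain ⟨h1, -⟩ := log_pw _ hT1
    have h2 : (2 : ℝ) ^ i ≤ Real.sqrt Q / u ^ 20 :=
      (pow_le_pow_right₀ (by norm_num) hi.le).trans h1
    constructor
    · have h3 : (2 : ℝ) ^ i * u ^ 20 ≤ Real.sqrt Q := (le_div_iff₀ (by positivity)).1 h2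
      calc ((2 : ℝ) ^ i) ^ 2 * u ^ 40 = ((2 : ℝ) ^ i * u ^ 20) ^ 2 := by ring
        _ ≤ (Real.sqrt Q) ^ 2 := by gcongr
        _ = Q := Real.sq_sqrt hQ0.le
        _ ≤ q := hQq'
    · refine hc.trans ?_
      gcongr
  · left
    have hT1 : 1 ≤ m ^ 4 / u ^ 20 := by
      rw [one_le_div (by positivity)]
      calc u ^ 20 ≤ u ^ 1000 := pow_le_pow_right₀ hu (by norm_num)
        _ ≤ m := hum
        _ = m ^ 1 := (pow_one m).symm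
        _ ≤ m ^ 4 := pow_le_pow_right₀ hm1 (by norm_num)
    obtain ⟨h1, -⟩ := log_pw _ hT1
    have h2 : (2 : ℝ) ^ i ≤ m ^ 4 / u ^ 20 :=
      (pow_le_pow_right₀ (by norm_num) hi.le).trans h1
    exact (le_div_iff₀ (by positivity)).1 h2

/-- The condition on the large conductors. -/
theorem pI_hi (N Q : ℕ) (u m C₃ : ℝ) (hB : Bs N u m C₃) (hQ1 : 1 ≤ Q)
    (hQu : u ^ 40 ≤ Q) (hQN : (Q : ℝ) * u ^ 82 ≤ N) :
    ∀ i, pI N Q u m ≤ i → 2 ^ i < pR u m → (2 : ℝ) ^ i + Q / 2 ^ i ≤ 2 * (m ^ 6 / u ^ 20) := by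
  obtain ⟨hu2, hum, hN, hN56, hN34, hlog, hC₃, hN1⟩ := hB
  have hu : 1 ≤ u := by linarith
  have hu0 : 0 < u := by linarith
  have hm1 : 1 ≤ m := le_trans (one_le_pow₀ hu) hum
  have hm0 : 0 < m := by linarith
  have hQ0 : (0 : ℝ) < Q := by exact_mod_cast hQ1
  intro i hi hiR
  have h1 : (2 : ℝ) ^ i ≤ m ^ 6 / u ^ 20 := by
    have h2 : ((2 ^ i : ℕ) : ℝ) ≤ (pR u m : ℝ) := by exact_mod_cast hiR.le
    push_cast at h2
    exact h2.trans (Nat.floor_le (by positivity))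
  have h2 : (Q : ℝ) / 2 ^ i ≤ m ^ 6 / u ^ 20 := by
    have h3 : (Q : ℝ) / 2 ^ i ≤ Q / 2 ^ (pI N Q u m) := by
      have : (2 : ℝ) ^ (pI N Q u m) ≤ 2 ^ i := pow_le_pow_right₀ (by norm_num) hi
      gcongr
    refine h3.trans ?_
    unfold pI
    split_ifs with hc
    · have hT1 : 1 ≤ Real.sqrt Q / u ^ 20 := by
        rw [one_le_div (by positivity), Real.le_sqrt (by positivity) hQ0.le]
        calc (u ^ 20) ^ 2 = u ^ 40 := by ring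
          _ ≤ (Q : ℝ) := hQu
      obtain ⟨-, h4⟩ := log_pw _ hT1
      set Z : ℝ := (2 : ℝ) ^ (Nat.log 2 ⌊Real.sqrt Q / u ^ 20⌋₊) with hZ
      have hZ0 : 0 < Z := by positivity
      have hsQ : 0 < Real.sqrt Q := Real.sqrt_pos.2 hQ0
      have h5 : Real.sqrt Q < 2 * Z * u ^ 20 := (div_lt_iff₀ (by positivity)).1 h4
      rw [div_le_div_iff₀ hZ0 (by positivity)]
      have h6 : Real.sqrt Q * u ^ 41 ≤ m ^ 6 := by
        have h7 : (Real.sqrt Q * u ^ 41) ^ 2 ≤ (m ^ 6) ^ 2 := by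
          calc (Real.sqrt Q * u ^ 41) ^ 2 = (Real.sqrt Q) ^ 2 * u ^ 82 := by ring
            _ = Q * u ^ 82 := by rw [Real.sq_sqrt hQ0.le]
            _ ≤ (N : ℝ) := hQN
            _ = (m ^ 6) ^ 2 := by rw [hN]; ring
        exact le_of_pow_le_pow_left₀ (by norm_num) (by positivity) h7
      calc (Q : ℝ) * u ^ 20 = Real.sqrt Q * Real.sqrt Q * u ^ 20 := by
            rw [Real.mul_self_sqrt hQ0.le]
        _ ≤ Real.sqrt Q * (2 * Z * u ^ 20) * u ^ 20 := by gcongr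
        _ = 2 * (Real.sqrt Q * u ^ 40) * Z := by ring
        _ ≤ u * (Real.sqrt Q * u ^ 40) * Z := by gcongr
        _ = (Real.sqrt Q * u ^ 41) * Z := by ring
        _ ≤ m ^ 6 * Z := by gcongr
    · have hT1 : 1 ≤ m ^ 4 / u ^ 20 := by
        rw [one_le_div (by positivity)]
        calc u ^ 20 ≤ u ^ 1000 := pow_le_pow_right₀ hu (by norm_num)
          _ ≤ m := hum
          _ = m ^ 1 := (pow_one m).symm
          _ ≤ m ^ 4 := pow_le_pow_right₀ hm1 (by norm_num)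
      obtain ⟨-, h4⟩ := log_pw _ hT1
      set Z : ℝ := (2 : ℝ) ^ (Nat.log 2 ⌊m ^ 4 / u ^ 20⌋₊) with hZ
      have hZ0 : 0 < Z := by positivity
      have h5 : m ^ 4 < 2 * Z * u ^ 20 := (div_lt_iff₀ (by positivity)).1 h4
      rw [not_le, hN] at hc
      rw [div_le_div_iff₀ hZ0 (by positivity)]
      -- `Q < m^8 u^200`
      have h6 : (Q : ℝ) ≤ m ^ 8 * u ^ 200 := by
        have h7 : m ^ 4 * Q ≤ m ^ 4 * (m ^ 8 * u ^ 200) := by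
          calc m ^ 4 * (Q : ℝ) ≤ m ^ 12 * u ^ 200 := hc.le
            _ = _ := by ring
        exact le_of_mul_le_mul_left h7 (by positivity)
      have h8 : 2 * u ^ 240 ≤ m ^ 2 := by
        calc 2 * u ^ 240 ≤ u * u ^ 240 := by gcongr
          _ = u ^ 241 := by ring
          _ ≤ u ^ 1000 := pow_le_pow_right₀ hu (by norm_num)
          _ ≤ m := hum
          _ ≤ m ^ 2 := by nlinarith
      calc (Q : ℝ) * u ^ 20 ≤ m ^ 8 * u ^ 200 * u ^ 20 := by gcongr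
        _ = m ^ 4 * (m ^ 4 * u ^ 220) := by ring
        _ ≤ m ^ 4 * ((2 * Z * u ^ 20) * u ^ 220) := by gcongr
        _ = m ^ 4 * (2 * u ^ 240) * Z := by ring
        _ ≤ m ^ 4 * m ^ 2 * Z := by gcongr
        _ = m ^ 6 * Z := by ring
  linarith

theorem pR_facts (N : ℕ) (u m C₃ : ℝ) (hB : Bs N u m C₃) :
    1 ≤ pR u m ∧ (pR u m : ℝ) * u ^ 20 ≤ m ^ 6 ∧ (pR u m : ℝ) ^ 2 * u ^ 40 ≤ N ∧
      pR u m ^ 2 ≤ N ∧ pR u m ≤ N ∧ m ^ 6 / u ^ 20 / 2 ≤ pR u m := by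
  obtain ⟨hu2, hum, hN, hN56, hN34, hlog, hC₃, hN1⟩ := hB
  have hu : 1 ≤ u := by linarith
  have hu0 : 0 < u := by linarith
  have hm1 : 1 ≤ m := le_trans (one_le_pow₀ hu) hum
  have hm0 : 0 < m := by linarith
  have hT1 : 1 ≤ m ^ 6 / u ^ 20 := by
    rw [one_le_div (by positivity)]
    calc u ^ 20 ≤ u ^ 1000 := pow_le_pow_right₀ hu (by norm_num)
      _ ≤ m := hum
      _ = m ^ 1 := (pow_one m).symm
      _ ≤ m ^ 6 := pow_le_pow_right₀ hm1 (by norm_num)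
  have h1 : 1 ≤ pR u m := Nat.le_floor (by push_cast; exact hT1)
  have h1' : (1 : ℝ) ≤ pR u m := by exact_mod_cast h1
  have h2 : (pR u m : ℝ) ≤ m ^ 6 / u ^ 20 := Nat.floor_le (by positivity)
  have h3 : (pR u m : ℝ) * u ^ 20 ≤ m ^ 6 := (le_div_iff₀ (by positivity)).1 h2
  have h4 : (pR u m : ℝ) ^ 2 * u ^ 40 ≤ N := by
    calc (pR u m : ℝ) ^ 2 * u ^ 40 = ((pR u m : ℝ) * u ^ 20) ^ 2 := by ring
      _ ≤ (m ^ 6) ^ 2 := by gcongr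
      _ = N := by rw [hN]; ring
  have h5 : (pR u m : ℝ) ^ 2 ≤ N := by
    refine le_trans ?_ h4
    have : 1 ≤ u ^ 40 := one_le_pow₀ hu
    nlinarith [sq_nonneg (pR u m : ℝ)]
  have h6 : pR u m ^ 2 ≤ N := by exact_mod_cast h5
  refine ⟨h1, h3, h4, h6, (Nat.le_self_pow (by norm_num) _).trans h6, ?_⟩
  have h7 : m ^ 6 / u ^ 20 < (pR u m : ℝ) + 1 := Nat.lt_floor_add_one _
  linarith

/-- The bad moduli in one dyadic range, both signs. -/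
def BadQ (N h j : ℕ) (u m : ℝ) (Q : ℕ) : Finset ℕ :=
  BadS (Wj N h j) N Q (pR0 N Q u) (pR u m) (pI N Q u m) u 1 ∪
    BadS (Wj N h j) N Q (pR0 N Q u) (pR u m) (pI N Q u m) u (-1)

theorem badQ_card (κ : ℝ) (hκ : 0 < κ) (j : ℕ) : ∃ C : ℝ, 1 ≤ C ∧
    ∀ (N h : ℕ) (m C₃ H : ℝ), Bs N ((N : ℝ) ^ κ) m C₃ → 1 ≤ h → 1 ≤ H → (N : ℝ) ≤ H * h →
    ∀ Q : ℕ, 1 ≤ Q → ((N : ℝ) ^ κ) ^ 40 ≤ Q → (Q : ℝ) * ((N : ℝ) ^ κ) ^ 82 ≤ N →
      ((BadQ N h (j + 2) ((N : ℝ) ^ κ) m Q).card : ℝ) * ((N : ℝ) ^ κ) ^ 8 ≤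
        C * C₃ ^ 4 * H ^ 6 * m ^ 6 := by
  obtain ⟨C, hC, hb⟩ := bad_count κ hκ
  refine ⟨4 * C, by linarith, ?_⟩
  intro N h m C₃ H hB hh hH hNH Q hQ1 hQu hQN
  obtain ⟨hR1, -, -, hR2, -, -⟩ := pR_facts N _ m C₃ hB
  have hX := pI_hi N Q _ m C₃ hB hQ1 hQu hQN
  set u : ℝ := (N : ℝ) ^ κ with hudef
  obtain ⟨hu2, hum, hN, hN56, hN34, hlog, hC₃, hN1⟩ := hB
  have hu : 1 ≤ u := by linarith
  have hu0 : 0 < u := by linarith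
  have hm1 : 1 ≤ m := le_trans (one_le_pow₀ hu) hum
  have hm0 : 0 < m := by linarith
  have hQN' : Q ≤ N := by
    have h1 : (Q : ℝ) ≤ N := by
      refine le_trans ?_ hQN
      have : 1 ≤ u ^ 82 := one_le_pow₀ hu
      nlinarith [(Nat.cast_nonneg Q : (0 : ℝ) ≤ Q)]
    exact_mod_cast h1
  have hR₀ : 1 ≤ pR0 N Q u := by
    unfold pR0
    refine Nat.mul_pos ((Nat.one_le_div_iff hQ1).2 hQN') ?_
    exact Nat.ceil_pos.2 (by positivity)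
  have key : ∀ σ : ℤ, (σ = 1 ∨ σ = -1) →
      ((BadS (Wj N h (j + 2)) N Q (pR0 N Q u) (pR u m) (pI N Q u m) u σ).card : ℝ) * u ^ 8 ≤
        2 * C * C₃ ^ 4 * H ^ 6 * m ^ 6 := by
    intro σ hσ
    have h1 := hb N Q (pR0 N Q u) (pR u m) (pI N Q u m) h j 1 ((N : ℤ) - ((j + 2 : ℕ) + 1) * h) H C₃
      hN1 hR₀ hR1 hR2 hh hH hNH (wj_wgt N h (j + 2) hh) hQ1 hQN' hlog hC₃ σ hσ
      (2 * (m ^ 6 / u ^ 20)) (by positivity) hX
    calc _ ≤ (C * C₃ ^ 4 * H ^ 6 * u ^ 12 * (2 * (m ^ 6 / u ^ 20))) * u ^ 8 := by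
          refine mul_le_mul_of_nonneg_right ?_ (by positivity)
          exact h1
      _ = 2 * C * C₃ ^ 4 * H ^ 6 * m ^ 6 := by
          field_simp
  have h1 := key 1 (Or.inl rfl)
  have h2 := key (-1) (Or.inr rfl)
  have h3 : ((BadQ N h (j + 2) u m Q).card : ℝ) ≤
      ((BadS (Wj N h (j + 2)) N Q (pR0 N Q u) (pR u m) (pI N Q u m) u 1).card : ℝ) +
      ((BadS (Wj N h (j + 2)) N Q (pR0 N Q u) (pR u m) (pI N Q u m) u (-1)).card : ℝ) := by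
    exact_mod_cast card_union_le _ _
  calc _ ≤ (((BadS (Wj N h (j + 2)) N Q (pR0 N Q u) (pR u m) (pI N Q u m) u 1).card : ℝ) +
      ((BadS (Wj N h (j + 2)) N Q (pR0 N Q u) (pR u m) (pI N Q u m) u (-1)).card : ℝ)) * u ^ 8 := by
        gcongr
    _ ≤ _ := by
        rw [add_mul]
        linarith

end Pool.Agent.M848.SV
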