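import Pool.Agent.Lib.MP_848d44_nt.SV.FinT

set_option autoImplicit false

/-!
# MP_848d44_nt, project SV, part 2: almost all moduli
-/

noncomputable section

namespace Pool.Agent.M848.SV

open Finset Filter Pool.Agent.M848 Pool.Agent.M848.FC
open scoped ArithmeticFunction.vonMangoldt ComplexConjugate

/-- All bad moduli. -/
def BadAll (N h j : ℕ) (u m : ℝ) : Finset ℕ :=
  ((range (Nat.log 2 N + 1)).filter
    (fun a => u ^ 40 ≤ (2 : ℝ) ^ a ∧ (2 : ℝ) ^ a * u ^ 82 ≤ N)).biUnion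
      (fun a => BadQ N h j u m (2 ^ a))

theorem badAll_card (κ : ℝ) (hκ : 0 < κ) (j : ℕ) : ∃ C : ℝ, 1 ≤ C ∧
    ∀ (N h : ℕ) (m C₃ H : ℝ), Bs N ((N : ℝ) ^ κ) m C₃ → 1 ≤ h → 1 ≤ H → (N : ℝ) ≤ H * h →
      ((BadAll N h (j + 2) ((N : ℝ) ^ κ) m).card : ℝ) * ((N : ℝ) ^ κ) ^ 7 ≤
        C * C₃ ^ 5 * H ^ 6 * m ^ 6 := by
  obtain ⟨C, hC, hb⟩ := badQ_card κ hκ j
  refine ⟨2 * C, by linarith, ?_⟩
  intro N h m C₃ H hB hh hH hNH
  have hB' := hB
  set u : ℝ := (N : ℝ) ^ κ with hudef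
  obtain ⟨hu2, hum, hN, hN56, hN34, hlog, hC₃, hN1⟩ := hB
  have hu : 1 ≤ u := by linarith
  have hu0 : 0 < u := by linarith
  have hm1 : 1 ≤ m := le_trans (one_le_pow₀ hu) hum
  have hm0 : 0 < m := by linarith
  set S := (range (Nat.log 2 N + 1)).filter
    (fun a => u ^ 40 ≤ (2 : ℝ) ^ a ∧ (2 : ℝ) ^ a * u ^ 82 ≤ N) with hS
  have h1 : ((BadAll N h (j + 2) u m).card : ℝ) ≤
      ∑ a ∈ S, ((BadQ N h (j + 2) u m (2 ^ a)).card : ℝ) := by
    have := card_biUnion_le (s := S) (t := fun a => BadQ N h (j + 2) u m (2 ^ a))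
    exact_mod_cast this
  have h2 : ∀ a ∈ S, ((BadQ N h (j + 2) u m (2 ^ a)).card : ℝ) * u ^ 8 ≤
      C * C₃ ^ 4 * H ^ 6 * m ^ 6 := by
    intro a ha
    have ha' := (mem_filter.1 ha).2
    exact hb N h m C₃ H hB' hh hH hNH (2 ^ a) Nat.one_le_two_pow
      (by push_cast; exact ha'.1) (by push_cast; exact ha'.2)
  have h3 : ((BadAll N h (j + 2) u m).card : ℝ) * u ^ 8 ≤
      (2 * (C₃ * u)) * (C * C₃ ^ 4 * H ^ 6 * m ^ 6) := by
    calc _ ≤ (∑ a ∈ S, ((BadQ N h (j + 2) u m (2 ^ a)).card : ℝ)) * u ^ 8 := by gcongr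
      _ = ∑ a ∈ S, ((BadQ N h (j + 2) u m (2 ^ a)).card : ℝ) * u ^ 8 := by rw [sum_mul]
      _ ≤ ∑ a ∈ S, C * C₃ ^ 4 * H ^ 6 * m ^ 6 := sum_le_sum h2
      _ = (S.card : ℝ) * (C * C₃ ^ 4 * H ^ 6 * m ^ 6) := by rw [sum_const, nsmul_eq_mul]
      _ ≤ _ := by
        refine mul_le_mul_of_nonneg_right ?_ (by positivity)
        calc (S.card : ℝ) ≤ ((Nat.log 2 N + 1 : ℕ) : ℝ) := by
              have h9 : S.card ≤ (range (Nat.log 2 N + 1)).card := by
                rw [hS]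
                exact card_le_card (filter_subset _ _)
              rw [card_range] at h9
              exact_mod_cast h9
          _ ≤ 2 * (1 + Real.log N) := log_count N N hN1 le_rfl
          _ ≤ 2 * (C₃ * u) := by linarith
  have h4 : ((BadAll N h (j + 2) u m).card : ℝ) * u ^ 7 * u ≤
      (2 * C * C₃ ^ 5 * H ^ 6 * m ^ 6) * u := by
    calc _ = ((BadAll N h (j + 2) u m).card : ℝ) * u ^ 8 := by ring
      _ ≤ _ := h3
      _ = _ := by ring
  exact le_of_mul_le_mul_right h4 hu0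

/-- One good modulus, the sizes. -/
theorem good_q (N q Q : ℕ) (u m C₃ : ℝ) (hB : Bs N u m C₃) (hQ1 : 1 ≤ Q) (hQq : Q < q)
    (hq2 : q ≤ 2 * Q) (hqN : q ≤ N) (hQu : u ^ 40 ≤ Q) (hx1 : (N : ℝ) / q * u ^ 43 ≤ m ^ 6) :
    Sz3 N q (pR0 N Q u) (pR u m) (pI N Q u m) u m C₃ ∧ pR0 N Q u ≤ pR u m ∧
      (pR u m : ℝ) ^ 2 * u ^ 40 ≤ N ∧
      (((N / q : ℕ) : ℝ) + 1) * (pR u m : ℝ) * u ^ 30 ≤ N ∧
      (pR0 N Q u : ℝ) ≤ 4 * ((N : ℝ) / q) * u ^ 20 ∧ m ^ 6 / u ^ 20 / 2 ≤ pR u m := by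
  obtain ⟨hR1, hRu, hR2, hR2', hRN, hRl⟩ := pR_facts N _ m C₃ hB
  have hI := pI_lo N Q q u m C₃ hB hQ1 hQq.le hQu
  obtain ⟨hu2, hum, hN, hN56, hN34, hlog, hC₃, hN1⟩ := hB
  have hu : 1 ≤ u := by linarith
  have hu0 : 0 < u := by linarith
  have hm1 : 1 ≤ m := le_trans (one_le_pow₀ hu) hum
  have hm0 : 0 < m := by linarith
  have hq1 : 1 ≤ q := by omega
  have hq0 : (0 : ℝ) < q := by exact_mod_cast hq1
  have hQ0 : (0 : ℝ) < Q := by exact_mod_cast hQ1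
  have hN0 : (0 : ℝ) < N := by exact_mod_cast hN1
  have hQN : Q ≤ N := hQq.le.trans hqN
  have hKQ : 1 ≤ N / Q := (Nat.one_le_div_iff hQ1).2 hQN
  have hK1 : 1 ≤ N / q := (Nat.one_le_div_iff hq1).2 hqN
  have hu20 : 1 ≤ u ^ 20 := one_le_pow₀ hu
  set P : ℕ := ⌈u ^ 20⌉₊ with hP
  have hP1 : u ^ 20 ≤ P := Nat.le_ceil _
  have hP2 : (P : ℝ) ≤ 2 * u ^ 20 := by
    have := Nat.ceil_lt_add_one (by positivity : 0 ≤ u ^ 20)
    rw [← hP] at this
    linarith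
  have hP0 : 1 ≤ P := by
    have : (1 : ℝ) ≤ P := hu20.trans hP1
    exact_mod_cast this
  have hR₀e : pR0 N Q u = (N / Q) * P := rfl
  have hR₀1 : 1 ≤ pR0 N Q u := by rw [hR₀e]; exact Nat.mul_pos hKQ hP0
  have hNQ : (N : ℝ) / Q ≤ 2 * (N / q) := by
    have h1 : (q : ℝ) ≤ 2 * Q := by exact_mod_cast hq2
    rw [div_le_iff₀ hQ0]
    calc (N : ℝ) = (N / q) * q := by field_simp
      _ ≤ (N / q) * (2 * Q) := by gcongr
      _ = _ := by ring
  have hR₀le : (pR0 N Q u : ℝ) ≤ 4 * ((N : ℝ) / q) * u ^ 20 := by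
    rw [hR₀e]
    push_cast
    calc ((N / Q : ℕ) : ℝ) * P ≤ (N / Q) * (2 * u ^ 20) := by
          gcongr
          exact Nat.cast_div_le
      _ ≤ (2 * (N / q)) * (2 * u ^ 20) := by gcongr
      _ = _ := by ring
  have hR₀R : pR0 N Q u ≤ pR u m := by
    have h1 : (pR0 N Q u : ℝ) ≤ pR u m := by
      refine hR₀le.trans (le_trans ?_ hRl)
      rw [le_div_iff₀ (by norm_num), le_div_iff₀ (by positivity)]
      calc 4 * ((N : ℝ) / q) * u ^ 20 * 2 * u ^ 20 = (2 ^ 3) * ((N : ℝ) / q * u ^ 40) := by ring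
        _ ≤ u ^ 3 * ((N : ℝ) / q * u ^ 40) := by gcongr
        _ = (N : ℝ) / q * u ^ 43 := by ring
        _ ≤ m ^ 6 := hx1
    exact_mod_cast h1
  refine ⟨⟨hu2, ?_, hN, hN56, hN34, hlog, hC₃, hN1, hq1, hqN, hR₀1, hR1, hRN, ?_, hI⟩, hR₀R, hR2,
    ?_, hR₀le, hRl⟩
  · exact (pow_le_pow_right₀ hu (by norm_num)).trans hum
  · rw [hR₀e]
    push_cast
    have h1 : ((N / q : ℕ) : ℝ) ≤ ((N / Q : ℕ) : ℝ) := by
      exact_mod_cast Nat.div_le_div_left hQq.le (by omega)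
    gcongr
  · have h1 : (1 : ℝ) ≤ (N / q : ℕ) := by exact_mod_cast hK1
    have h2 : ((N / q : ℕ) : ℝ) ≤ (N : ℝ) / q := Nat.cast_div_le
    calc (((N / q : ℕ) : ℝ) + 1) * (pR u m : ℝ) * u ^ 30 ≤
        (2 * ((N : ℝ) / q)) * (pR u m : ℝ) * u ^ 30 := by
          gcongr
          linarith
      _ = 2 * ((N : ℝ) / q) * ((pR u m : ℝ) * u ^ 20) * u ^ 10 := by ring
      _ ≤ u * ((N : ℝ) / q) * (m ^ 6) * u ^ 10 := by gcongr
      _ = ((N : ℝ) / q * u ^ 11) * m ^ 6 := by ring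
      _ ≤ ((N : ℝ) / q * u ^ 43) * m ^ 6 := by
          have := pow_le_pow_right₀ hu (show 11 ≤ 43 by norm_num)
          gcongr
      _ ≤ m ^ 6 * m ^ 6 := by gcongr
      _ = N := by rw [hN]; ring

theorem int2 (ε : ℝ) (hε : 0 < ε) (hε1 : ε ≤ 1 / 20) :
    ∃ δ : ℝ, 0 < δ ∧ δ ≤ 1 / 2 ∧ ∃ N₀ : ℕ, ∀ N : ℕ, N₀ ≤ N → ∃ Bad : Finset ℕ,
      (Bad.card : ℝ) ≤ (N : ℝ) ^ ((1 : ℝ) / 2 - δ) ∧
      ∀ q : ℕ, q ≤ N → (N : ℝ) ^ ((1 : ℝ) / 2 + ε) ≤ q → q ∉ Bad → ∀ Y : ℝ,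
        N * (Real.log q - (1 / 2 + 3 / 5 * ε ^ 2) * Real.log N) ≤ VV N q Y := by
  set κ : ℝ := ε ^ 2 / 400 with hκ
  have hε2 : 0 < ε ^ 2 := by positivity
  have hε21 : ε ^ 2 ≤ 1 / 400 := by nlinarith
  have hε22 : ε ^ 2 ≤ ε / 20 := by nlinarith
  have hκ0 : 0 < κ := by positivity
  have hκ1 : κ ≤ 1 / 10 := by rw [hκ]; linarith
  set η : ℝ := ε ^ 2 / 64 with hη
  have hη0 : 0 < η := by positivity
  have hη1 : η ≤ 1 / 16 := by rw [hη]; linarith
  obtain ⟨j, hj'⟩ := exists_nat_ge (6 / κ)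
  have hj : 6 ≤ κ * ((j + 2 : ℕ) : ℝ) := by
    rw [div_le_iff₀ hκ0] at hj'
    push_cast
    nlinarith
  set H : ℝ := 2 * (((j + 2 : ℕ) : ℝ) + 1) / η with hH
  have hjc : (0 : ℝ) ≤ ((j + 2 : ℕ) : ℝ) := Nat.cast_nonneg _
  have hj1 : (0 : ℝ) < ((j + 2 : ℕ) : ℝ) + 1 := by positivity
  have hH1 : 2 ≤ H := by
    rw [hH, le_div_iff₀ hη0]
    linarith
  have hH0 : 0 < H := by linarith
  obtain ⟨C₃, hC₃, h3⟩ := log_pow κ hκ0
  obtain ⟨N₁, hN₁⟩ := gen3 κ C₃ η H (j + 2) hκ0 hκ1 hj hη0 hη1 hH1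
  obtain ⟨N₂, hN₂⟩ := core2 (ε ^ 2 / 2) (by positivity) (by linarith)
  obtain ⟨C, hC, hbad⟩ := badAll_card κ hκ0 j
  have htend : Tendsto (fun N : ℕ => (N : ℝ) ^ κ) atTop atTop :=
    (tendsto_rpow_atTop hκ0).comp tendsto_natCast_atTop_atTop
  have hlogt : Tendsto (fun N : ℕ => Real.log (N : ℝ)) atTop atTop :=
    Real.tendsto_log_atTop.comp tendsto_natCast_atTop_atTop
  obtain ⟨N₃, hN₃⟩ := Filter.eventually_atTop.1
    (htend.eventually_ge_atTop (max 2 (C * C₃ ^ 5 * H ^ 6)))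
  obtain ⟨N₄, hN₄⟩ := Filter.eventually_atTop.1 (hlogt.eventually_ge_atTop (12 / ε ^ 2))
  obtain ⟨N₅, hN₅⟩ := Filter.eventually_atTop.1
    ((tendsto_natCast_atTop_atTop (R := ℝ)).eventually_ge_atTop H)
  refine ⟨6 * κ, by positivity, by rw [hκ]; linarith,
    max 1 (max N₁ (max N₂ (max N₃ (max N₄ N₅)))), ?_⟩
  intro N hN
  have hNN : 1 ≤ N ∧ N₁ ≤ N ∧ N₂ ≤ N ∧ N₃ ≤ N ∧ N₄ ≤ N ∧ N₅ ≤ N := by
    simp only [max_le_iff] at hN
    tauto
  have hN1 : 1 ≤ N := hNN.1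
  have hN1' : (1 : ℝ) ≤ N := by exact_mod_cast hN1
  have hN0 : (0 : ℝ) < N := by linarith
  have h3' := hN₃ N hNN.2.2.2.1
  have hu2 : 2 ≤ (N : ℝ) ^ κ := (le_max_left _ _).trans h3'
  have huC : C * C₃ ^ 5 * H ^ 6 ≤ (N : ℝ) ^ κ := (le_max_right _ _).trans h3'
  have hL : 12 / ε ^ 2 ≤ Real.log N := hN₄ N hNN.2.2.2.2.1
  have hL12 : 12 ≤ Real.log N * ε ^ 2 := (div_le_iff₀ hε2).1 hL
  have hHN : H ≤ N := hN₅ N hNN.2.2.2.2.2
  set u : ℝ := (N : ℝ) ^ κ with hudef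
  have hu1 : 1 ≤ u := by linarith
  have hu0 : 0 < u := by linarith
  have hup : ∀ j : ℕ, u ^ j = (N : ℝ) ^ (κ * j) := by
    intro j
    rw [hudef, ← Real.rpow_natCast, ← Real.rpow_mul hN0.le]
  set m : ℝ := (N : ℝ) ^ ((1 : ℝ) / 12) with hm
  have hmp : ∀ j : ℕ, m ^ j = (N : ℝ) ^ ((1 : ℝ) / 12 * j) := by
    intro j
    rw [hm, ← Real.rpow_natCast, ← Real.rpow_mul hN0.le]
  have hmono : ∀ a b : ℝ, a ≤ b → (N : ℝ) ^ a ≤ (N : ℝ) ^ b := fun a b h =>
    Real.rpow_le_rpow_of_exponent_le hN1' h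
  have hm12 : m ^ 12 = N := by rw [hmp]; norm_num
  have hm6 : m ^ 6 = (N : ℝ) ^ ((1 : ℝ) / 2) := by rw [hmp]; norm_num
  have hm10 : m ^ 10 = (N : ℝ) ^ ((5 : ℝ) / 6) := by rw [hmp]; norm_num
  have hm9 : m ^ 9 = (N : ℝ) ^ ((3 : ℝ) / 4) := by rw [hmp]; norm_num
  have hum : u ^ 1000 ≤ m := by
    rw [hup, hm]
    refine hmono _ _ ?_
    rw [hκ]
    push_cast
    linarith
  have hB : Bs N u m C₃ := ⟨hu2, hum, hm12.symm, hm10.symm, hm9.symm, h3 N hN1, hC₃, hN1⟩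
  have hm0 : 0 < m := by positivity
  -- the weight
  set h : ℕ := ⌊(N : ℝ) * 2 / H⌋₊ with hhdef
  have hη' : (N : ℝ) * 2 / H = η * N / (((j + 2 : ℕ) : ℝ) + 1) := by
    rw [hH]
    field_simp
  have h2N : 2 ≤ (N : ℝ) * 2 / H := by
    rw [le_div_iff₀ hH0]
    linarith
  have hh1 : 1 ≤ h := by
    rw [hhdef]
    exact Nat.le_floor (by push_cast; linarith)
  have hh2 : (((j + 2 : ℕ) : ℝ) + 1) * h ≤ η * N := by
    have h3 : (h : ℝ) ≤ (N : ℝ) * 2 / H := Nat.floor_le (by positivity)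
    rw [hη', le_div_iff₀ hj1] at h3
    linarith
  have hh3 : (N : ℝ) / H ≤ h := by
    have := Nat.lt_floor_add_one ((N : ℝ) * 2 / H)
    rw [← hhdef] at this
    have h3 : (N : ℝ) * 2 / H = 2 * (N / H) := by ring
    rw [h3] at this h2N
    linarith
  have hNH : (N : ℝ) ≤ H * h := by
    rw [div_le_iff₀ hH0] at hh3
    linarith
  have hhN : h ≤ N := by
    have h3 : (h : ℝ) ≤ (N : ℝ) * 2 / H := Nat.floor_le (by positivity)
    have h4 : (N : ℝ) * 2 / H ≤ N := by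
      rw [div_le_iff₀ hH0]
      gcongr
    exact_mod_cast h3.trans h4
  refine ⟨BadAll N h (j + 2) u m, ?_, ?_⟩
  · -- the number of bad moduli
    have h1 := hbad N h m C₃ H hB hh1 (by linarith) hNH
    have h4 : ((BadAll N h (j + 2) u m).card : ℝ) * u ^ 6 * u ≤ m ^ 6 * u := by
      calc _ = ((BadAll N h (j + 2) u m).card : ℝ) * u ^ 7 := by ring
        _ ≤ C * C₃ ^ 5 * H ^ 6 * m ^ 6 := h1
        _ ≤ u * m ^ 6 := by gcongr
        _ = _ := mul_comm _ _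
    have h5 : ((BadAll N h (j + 2) u m).card : ℝ) * u ^ 6 ≤ m ^ 6 := le_of_mul_le_mul_right h4 hu0
    have h6 : (N : ℝ) ^ ((1 : ℝ) / 2 - 6 * κ) = m ^ 6 / u ^ 6 := by
      rw [Real.rpow_sub hN0, hm6, hup 6]
      congr 2
      push_cast
      ring
    rw [h6, le_div_iff₀ (by positivity)]
    exact h5
  · intro q hqN hqb hqBad Y
    -- the dyadic range
    have hhalf : (1 : ℝ) / 2 ≤ 1 / 2 + ε := by linarith
    have hqm : m ^ 6 ≤ q := by
      rw [hm6]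
      exact (hmono _ _ hhalf).trans hqb
    have hm1 : 1 ≤ m := le_trans (one_le_pow₀ hu1) hum
    have hm64 : u ^ 45 ≤ m ^ 6 := by
      calc u ^ 45 ≤ u ^ 1000 := pow_le_pow_right₀ hu1 (by norm_num)
        _ ≤ m := hum
        _ = m ^ 1 := (pow_one m).symm
        _ ≤ m ^ 6 := pow_le_pow_right₀ hm1 (by norm_num)
    have hq2 : 2 ≤ q := by
      have h1 : (2 : ℝ) ≤ q := by
        calc (2 : ℝ) ≤ u := hu2
          _ = u ^ 1 := (pow_one u).symm
          _ ≤ u ^ 45 := pow_le_pow_right₀ hu1 (by norm_num)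
          _ ≤ m ^ 6 := hm64
          _ ≤ q := hqm
      exact_mod_cast h1
    set a : ℕ := Nat.log 2 (q - 1) with ha
    have ha1 : 2 ^ a < q := by
      have : 2 ^ a ≤ q - 1 := Nat.pow_log_le_self 2 (by omega)
      omega
    have ha2 : q ≤ 2 * 2 ^ a := by
      have : q - 1 < 2 ^ (a + 1) := Nat.lt_pow_succ_log_self (by norm_num) _
      rw [pow_succ] at this
      omega
    have haN : a ≤ Nat.log 2 N := Nat.log_mono_right (by omega)
    have hQ1 : 1 ≤ 2 ^ a := Nat.one_le_two_pow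
    have hcast : ((2 ^ a : ℕ) : ℝ) = (2 : ℝ) ^ a := by push_cast; rfl
    have hq0 : (0 : ℝ) < q := by linarith [pow_pos hm0 6]
    have ha2' : (q : ℝ) ≤ 2 * 2 ^ a := by exact_mod_cast ha2
    have ha1' : (2 : ℝ) ^ a ≤ q := by exact_mod_cast ha1.le
    have hQu : u ^ 40 ≤ (2 : ℝ) ^ a := by
      have h1 : 2 * u ^ 40 ≤ 2 * (2 : ℝ) ^ a := by
        calc 2 * u ^ 40 ≤ u * u ^ 40 := by gcongr
          _ = u ^ 41 := by ring
          _ ≤ u ^ 45 := pow_le_pow_right₀ hu1 (by norm_num)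
          _ ≤ m ^ 6 := hm64
          _ ≤ q := hqm
          _ ≤ _ := ha2'
      linarith
    have hlogq : (1 / 2 + ε) * Real.log N ≤ Real.log q := by
      rw [← Real.log_rpow hN0]
      exact Real.log_le_log (by positivity) hqb
    have hlogu : Real.log u = κ * Real.log N := by
      rw [hudef, Real.log_rpow hN0]
    have hlogN0 : 0 ≤ Real.log N := Real.log_natCast_nonneg N
    have hεL : 0 ≤ ε ^ 2 * Real.log N := by positivity
    by_cases hQN : (2 : ℝ) ^ a * u ^ 82 ≤ N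
    · -- the good moduli
      have hx1 : (N : ℝ) / q * u ^ 43 ≤ m ^ 6 := by
        have h1 : (N : ℝ) / q ≤ (N : ℝ) ^ ((1 : ℝ) / 2 - ε) := by
          rw [div_le_iff₀ hq0]
          calc (N : ℝ) = (N : ℝ) ^ ((1 : ℝ) / 2 - ε) * (N : ℝ) ^ ((1 : ℝ) / 2 + ε) := by
                rw [← Real.rpow_add hN0]
                norm_num
            _ ≤ _ := by gcongr
        calc (N : ℝ) / q * u ^ 43 ≤ (N : ℝ) ^ ((1 : ℝ) / 2 - ε) * u ^ 43 := by gcongr
          _ = (N : ℝ) ^ ((1 : ℝ) / 2 - ε + κ * (43 : ℕ)) := by rw [hup 43, ← Real.rpow_add hN0]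
          _ ≤ (N : ℝ) ^ ((1 : ℝ) / 2) := by
              refine hmono _ _ ?_
              rw [hκ]
              push_cast
              linarith
          _ = m ^ 6 := hm6.symm
      obtain ⟨hS, hR₀R, hR2, hb1, hR₀le, hRl⟩ := good_q N q (2 ^ a) u m C₃ hB hQ1 ha1 ha2 hqN
        (by rw [hcast]; exact hQu) hx1
      have hgood : ∀ σ : ℤ, (σ = 1 ∨ σ = -1) →
          ‖MainHi (Wj N h (j + 2)) N q (pR0 N (2 ^ a) u) (pR u m) (pI N (2 ^ a) u m) σ‖ * u ^ 2 ≤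
            N := by
        intro σ hσ
        by_contra hc
        rw [not_le] at hc
        apply hqBad
        unfold BadAll
        rw [mem_biUnion]
        refine ⟨a, ?_, ?_⟩
        · rw [mem_filter, mem_range]
          exact ⟨by omega, hQu, hQN⟩
        · unfold BadQ
          rw [mem_union]
          rcases hσ with rfl | rfl
          · left
            unfold BadS
            rw [mem_filter, mem_Ioc]
            exact ⟨⟨ha1, ha2⟩, hqN, hc⟩
          · right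
            unfold BadS
            rw [mem_filter, mem_Ioc]
            exact ⟨⟨ha1, ha2⟩, hqN, hc⟩
      have key := hN₁ N hNN.2.1 h hh1 hhN hh2 hNH q (pR0 N (2 ^ a) u) (pR u m)
        (pI N (2 ^ a) u m) m hS hR₀R hR2 hb1 hgood Y
      refine le_trans ?_ key
      refine mul_le_mul_of_nonneg_left ?_ hN0.le
      have hR₀1 := hS.hR₀
      have hlogm : Real.log (m ^ 6) = 1 / 2 * Real.log N := by
        rw [hm6, Real.log_rpow hN0]
      have hl1 : 1 / 2 * Real.log N - 20 * Real.log u - Real.log 2 ≤ Real.log (pR u m) := by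
        have h4 : Real.log (m ^ 6 / u ^ 20 / 2) =
            1 / 2 * Real.log N - 20 * Real.log u - Real.log 2 := by
          rw [Real.log_div (by positivity) (by norm_num),
            Real.log_div (by positivity) (by positivity), hlogm, Real.log_pow]
          push_cast
          ring
        rw [← h4]
        exact Real.log_le_log (by positivity) hRl
      have hl2 : Real.log (pR0 N (2 ^ a) u) ≤
          2 * Real.log 2 + (Real.log N - Real.log q) + 20 * Real.log u := by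
        have h4 : Real.log (4 * ((N : ℝ) / q) * u ^ 20) =
            2 * Real.log 2 + (Real.log N - Real.log q) + 20 * Real.log u := by
          rw [Real.log_mul (by positivity) (by positivity),
            Real.log_mul (by norm_num) (by positivity),
            Real.log_div (by positivity) (by positivity), Real.log_pow,
            show (4 : ℝ) = 2 ^ 2 by norm_num, Real.log_pow]
          push_cast
          ring
        rw [← h4]
        exact Real.log_le_log (by exact_mod_cast hR₀1) hR₀le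
      have hlog2 : Real.log 2 ≤ 1 := by
        have := Real.log_two_lt_d9
        linarith
      have hκ40 : 40 * (κ * Real.log N) = 1 / 10 * (ε ^ 2 * Real.log N) := by rw [hκ]; ring
      have hη16 : 16 * η * Real.log N = 1 / 4 * (ε ^ 2 * Real.log N) := by rw [hη]; ring
      rw [hlogu] at hl1 hl2
      rw [hη16]
      linarith
    · rw [not_le] at hQN
      have hq82 : (N : ℝ) ^ (1 - 82 * κ) ≤ q := by
        have h1 : (N : ℝ) ≤ q * u ^ 82 := by
          refine hQN.le.trans ?_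
          gcongr
        have h2 : (N : ℝ) ^ (1 - 82 * κ) * u ^ 82 = N := by
          rw [hup 82, ← Real.rpow_add hN0]
          have : 1 - 82 * κ + κ * (82 : ℕ) = 1 := by push_cast; ring
          rw [this, Real.rpow_one]
        have h3 : (N : ℝ) ^ (1 - 82 * κ) * u ^ 82 ≤ q * u ^ 82 := by rw [h2]; exact h1
        exact le_of_mul_le_mul_right h3 (by positivity)
      have h1 := hN₂ N hNN.2.2.1 q (by omega) hqN ?_ Y
      · refine le_trans ?_ h1
        refine mul_le_mul_of_nonneg_left ?_ hN0.le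
        have h4 : (1 - 82 * κ) * Real.log N ≤ Real.log q := by
          rw [← Real.log_rpow hN0]
          exact Real.log_le_log (by positivity) hq82
        have h5 : 82 * κ * Real.log N = 82 / 400 * (ε ^ 2 * Real.log N) := by rw [hκ]; ring
        linarith
      · refine (hmono _ _ ?_).trans hq82
        rw [hκ]
        linarith

theorem real2 (ε : ℝ) (hε : 0 < ε) :
    ∃ δ : ℝ, 0 < δ ∧ ∃ x₀ : ℝ, ∀ x : ℝ, x₀ ≤ x →
      (Set.ncard {q : ℕ | x ^ ((1 : ℝ) / 2 + ε) ≤ (q : ℝ) ∧ (q : ℝ) ≤ x ∧ ∃ Y : ℝ,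
        VV ⌊x⌋₊ q Y < (1 / 2 - ε) * x * Real.log ((q : ℝ) ^ 2 / x)} : ℝ) ≤
          x ^ ((1 : ℝ) / 2 - δ) := by
  set ε' : ℝ := min ε (1 / 20) with hε'
  have hε'0 : 0 < ε' := lt_min hε (by norm_num)
  have hε'ε : ε' ≤ ε := min_le_left _ _
  have hε'1 : ε' ≤ 1 / 20 := min_le_right _ _
  obtain ⟨δ, hδ, hδ1, N₁, hN₁⟩ := int2 ε' hε'0 hε'1
  refine ⟨δ, hδ, max (N₁ + 2) (max 2 (2 / ε')), ?_⟩
  intro x hx
  have hx1 : (N₁ : ℝ) + 2 ≤ x := (le_max_left _ _).trans hx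
  have hx2 : 2 ≤ x := ((le_max_left _ _).trans (le_max_right _ _)).trans hx
  have hx3 : 2 / ε' ≤ x := ((le_max_right _ _).trans (le_max_right _ _)).trans hx
  have hx0 : 0 < x := by linarith
  have hxε : 2 ≤ x * ε' := (div_le_iff₀ hε'0).1 hx3
  set N : ℕ := ⌊x⌋₊ with hN
  have hNx : (N : ℝ) ≤ x := Nat.floor_le hx0.le
  have hxN : x < N + 1 := Nat.lt_floor_add_one x
  have hN2 : (2 : ℝ) ≤ N := by
    have : 2 ≤ N := Nat.le_floor (by push_cast; exact hx2)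
    exact_mod_cast this
  have hN0 : (0 : ℝ) < N := by linarith
  have hNN : N₁ ≤ N := Nat.le_floor (by linarith)
  obtain ⟨Bad, hcard, hgood⟩ := hN₁ N hNN
  have hsub : {q : ℕ | x ^ ((1 : ℝ) / 2 + ε) ≤ (q : ℝ) ∧ (q : ℝ) ≤ x ∧ ∃ Y : ℝ,
        VV N q Y < (1 / 2 - ε) * x * Real.log ((q : ℝ) ^ 2 / x)} ⊆ (Bad : Set ℕ) := by
    rintro q ⟨hq1, hq2, Y, hY⟩
    by_contra hqB
    have hqN : q ≤ N := Nat.le_floor hq2
    have hxpow : x ^ ((1 : ℝ) / 2 + ε') ≤ q :=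
      (Real.rpow_le_rpow_of_exponent_le (by linarith) (by linarith)).trans hq1
    have hNq : (N : ℝ) ^ ((1 : ℝ) / 2 + ε') ≤ q :=
      (Real.rpow_le_rpow hN0.le hNx (by linarith)).trans hxpow
    have h1 := hgood q hqN hNq (by simpa using hqB) Y
    have hq0 : (0 : ℝ) < q := lt_of_lt_of_le (by positivity) hNq
    have hlN : Real.log N ≤ Real.log x := Real.log_le_log hN0 hNx
    have hlN0 : 0 < Real.log N := Real.log_pos (by linarith)
    set L : ℝ := Real.log q - 1 / 2 * Real.log N with hL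
    have hLε : ε' * Real.log N ≤ L := by
      have h2 : (1 / 2 + ε') * Real.log N ≤ Real.log q := by
        rw [← Real.log_rpow hN0]
        exact Real.log_le_log (by positivity) hNq
      rw [hL]
      linarith
    have hL0 : 0 ≤ L := le_trans (by positivity) hLε
    have hlog : Real.log ((q : ℝ) ^ 2 / x) = 2 * Real.log q - Real.log x := by
      rw [Real.log_div (by positivity) (by positivity), Real.log_pow]
      push_cast
      ring
    have hlog2 : Real.log ((q : ℝ) ^ 2 / x) ≤ 2 * L := by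
      rw [hlog, hL]
      linarith
    have hlogpos : 0 ≤ Real.log ((q : ℝ) ^ 2 / x) := by
      have h2 : (1 / 2 + ε') * Real.log x ≤ Real.log q := by
        rw [← Real.log_rpow hx0]
        exact Real.log_le_log (by positivity) hxpow
      have h3 : 0 ≤ ε' * Real.log x := by
        have : 0 ≤ Real.log x := Real.log_nonneg (by linarith)
        positivity
      rw [hlog]
      linarith
    -- the upper bound for the right side
    have h2 : (1 / 2 - ε) * x * Real.log ((q : ℝ) ^ 2 / x) ≤ (1 - 2 * ε') * (N + 1) * L := by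
      calc (1 / 2 - ε) * x * Real.log ((q : ℝ) ^ 2 / x) ≤
          (1 / 2 - ε') * x * Real.log ((q : ℝ) ^ 2 / x) := by
            gcongr
        _ ≤ (1 / 2 - ε') * (N + 1) * (2 * L) := by
            have h3 : 0 ≤ 1 / 2 - ε' := by linarith
            gcongr
        _ = _ := by ring
    have h3 : N * (L * (1 - 3 / 5 * ε')) ≤ VV N q Y := by
      refine le_trans ?_ h1
      refine mul_le_mul_of_nonneg_left ?_ hN0.le
      have h4 : ε' * (ε' * Real.log N) ≤ ε' * L := mul_le_mul_of_nonneg_left hLε hε'0.le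
      have e : Real.log q - (1 / 2 + 3 / 5 * ε' ^ 2) * Real.log N =
          L - 3 / 5 * (ε' * (ε' * Real.log N)) := by
        rw [hL]
        ring
      rw [e]
      linarith
    have h4 : (1 - 2 * ε') * (N + 1) ≤ N * (1 - 3 / 5 * ε') := by
      have h5 : 1 ≤ (N : ℝ) * ε' := by
        have h6 : x * ε' ≤ (N + 1) * ε' := by gcongr
        nlinarith
      nlinarith
    have h5 : (1 - 2 * ε') * (N + 1) * L ≤ N * (1 - 3 / 5 * ε') * L := by gcongr
    have h6 : N * (1 - 3 / 5 * ε') * L = N * (L * (1 - 3 / 5 * ε')) := by ring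
    linarith
  have h1 : (Set.ncard {q : ℕ | x ^ ((1 : ℝ) / 2 + ε) ≤ (q : ℝ) ∧ (q : ℝ) ≤ x ∧ ∃ Y : ℝ,
        VV N q Y < (1 / 2 - ε) * x * Real.log ((q : ℝ) ^ 2 / x)} : ℝ) ≤ Bad.card := by
    have h2 := Set.ncard_le_ncard hsub (Finset.finite_toSet Bad)
    rw [Set.ncard_coe_finset] at h2
    exact_mod_cast h2
  refine h1.trans (hcard.trans ?_)
  exact Real.rpow_le_rpow hN0.le hNx (by linarith)

end Pool.Agent.M848.SV
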