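import Pool.Agent.Lib.MP_848d44_nt.SV.Base

set_option autoImplicit false

/-!
# MP_848d44_nt, project SV, module Phib: Abel summation

`phi_abs` bounds the sums `Phi` by partial summation, `phi_triv` is the trivial bound.
-/

noncomputable section

namespace Pool.Agent.M848.SV

open Finset Pool.Agent.M848 Pool.Agent.M848.FC
open scoped ArithmeticFunction.vonMangoldt ComplexConjugate

private theorem phib_abel (a w : ℕ → ℂ) (N : ℕ) :
    ∑ n ∈ Icc 1 N, a n * w n =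
      ∑ n ∈ Icc 1 N, (∑ m ∈ Icc 1 n, a m) * (w n - w (n + 1)) +
        (∑ m ∈ Icc 1 N, a m) * w (N + 1) := by
  induction N with
  | zero => simp
  | succ N ih =>
    rw [sum_Icc_succ_top (by omega), sum_Icc_succ_top (by omega), ih,
      sum_Icc_succ_top (by omega : 1 ≤ N + 1) a]
    ring

/-- the inner sum over `k` -/
private def phw (W : ℤ → ℝ) (N q : ℕ) (σ : ℤ) (s : ℕ) (g : ℕ → ℂ) (c : ℤ) : ℂ :=
  ∑ k ∈ Icc 1 (N / q), conj (g k) * ((W (c + (σ * (s * q : ℕ)) * (k : ℤ)) : ℝ) : ℂ)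

private theorem phib_phi (W : ℤ → ℝ) (N q : ℕ) (σ : ℤ) (s : ℕ) (g : ℕ → ℂ) :
    Phi W N q σ s g = ∑ n ∈ Icc 1 N, (((Λ n : ℝ) : ℂ) * g n) * phw W N q σ s g n := by
  unfold Phi phw
  simp only [mul_sum]
  rw [sum_comm]
  refine sum_congr rfl fun n _ => sum_congr rfl fun k _ => ?_
  have h1 : (n : ℤ) + σ * ((s * k * q : ℕ) : ℤ) = (n : ℤ) + σ * ((s * q : ℕ) : ℤ) * (k : ℤ) := by
    push_cast
    ring
  rw [h1]
  ring

private theorem phib_diff (W V : ℤ → ℝ) (N q h : ℕ) (σ : ℤ) (s : ℕ) (g : ℕ → ℂ)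
    (hdiff : ∀ m, W m - W (m + 1) = (1 / (h : ℝ)) * (V (m - h + 1) - V (m + 1))) (c : ℤ) :
    phw W N q σ s g c - phw W N q σ s g (c + 1) =
      (1 / (h : ℂ)) * (phw V N q σ s g (c - h + 1) - phw V N q σ s g (c + 1)) := by
  unfold phw
  rw [← sum_sub_distrib, ← sum_sub_distrib, mul_sum]
  refine sum_congr rfl fun k _ => ?_
  have h1 := hdiff (c + (σ * (s * q : ℕ)) * (k : ℤ))
  have h2 : ((W (c + (σ * (s * q : ℕ)) * (k : ℤ)) : ℝ) : ℂ) -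
      ((W (c + (σ * (s * q : ℕ)) * (k : ℤ) + 1) : ℝ) : ℂ) =
      (1 / (h : ℂ)) * (((V (c + (σ * (s * q : ℕ)) * (k : ℤ) - h + 1) : ℝ) : ℂ) -
        ((V (c + (σ * (s * q : ℕ)) * (k : ℤ) + 1) : ℝ) : ℂ)) := by
    rw [← Complex.ofReal_sub, h1]
    push_cast
    ring
  have h3 : c + 1 + (σ * (s * q : ℕ)) * (k : ℤ) = c + (σ * (s * q : ℕ)) * (k : ℤ) + 1 := by ring
  have h4 : c - h + 1 + (σ * (s * q : ℕ)) * (k : ℤ) =
      c + (σ * (s * q : ℕ)) * (k : ℤ) - h + 1 := by ring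
  rw [h3, h4, ← mul_sub, h2]
  ring

theorem phi_abs {ι : Type} (I : Finset ι) (g : ι → ℕ → ℂ) (W V : ℤ → ℝ) (N q h : ℕ) (P : ℝ)
    (σ : ℤ) (s : ℕ) (hh : 1 ≤ h)
    (hdiff : ∀ m, W m - W (m + 1) = (1 / (h : ℝ)) * (V (m - h + 1) - V (m + 1)))
    (hV : ∀ y ≤ N, ∀ c : ℤ, ∑ x ∈ I, ‖SL (g x) y‖ *
      ‖∑ k ∈ Icc 1 (N / q), conj (g x k) * ((V (c + (σ * (s * q : ℕ)) * (k : ℤ)) : ℝ) : ℂ)‖ ≤ P)
    (hW : ∀ y ≤ N, ∀ c : ℤ, ∑ x ∈ I, ‖SL (g x) y‖ *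
      ‖∑ k ∈ Icc 1 (N / q), conj (g x k) * ((W (c + (σ * (s * q : ℕ)) * (k : ℤ)) : ℝ) : ℂ)‖ ≤ P) :
    ∑ x ∈ I, ‖Phi W N q σ s (g x)‖ ≤ (2 * N / h + 1) * P := by
  have hh0 : (0 : ℝ) < h := by exact_mod_cast hh
  have hV' : ∀ y ≤ N, ∀ c : ℤ, ∑ x ∈ I, ‖SL (g x) y‖ * ‖phw V N q σ s (g x) c‖ ≤ P := hV
  have hW' : ∀ y ≤ N, ∀ c : ℤ, ∑ x ∈ I, ‖SL (g x) y‖ * ‖phw W N q σ s (g x) c‖ ≤ P := hW
  have key : ∀ x ∈ I, ‖Phi W N q σ s (g x)‖ ≤
      ∑ n ∈ Icc 1 N, (1 / (h : ℝ)) * (‖SL (g x) n‖ * ‖phw V N q σ s (g x) ((n : ℤ) - h + 1)‖ +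
        ‖SL (g x) n‖ * ‖phw V N q σ s (g x) ((n : ℤ) + 1)‖) +
      ‖SL (g x) N‖ * ‖phw W N q σ s (g x) ((N : ℤ) + 1)‖ := by
    intro x _
    rw [phib_phi, phib_abel (fun n => ((Λ n : ℝ) : ℂ) * g x n)
      (fun n => phw W N q σ s (g x) (n : ℤ)) N]
    refine (norm_add_le _ _).trans (add_le_add ?_ ?_)
    · refine (norm_sum_le _ _).trans (sum_le_sum fun n _ => ?_)
      rw [norm_mul]
      push_cast
      rw [phib_diff W V N q h σ s (g x) hdiff (n : ℤ), norm_mul]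
      have h1 : ‖(1 / (h : ℂ))‖ = 1 / (h : ℝ) := by
        rw [norm_div, norm_one, Complex.norm_natCast]
      rw [h1]
      have h2 := norm_sub_le (phw V N q σ s (g x) ((n : ℤ) - h + 1))
        (phw V N q σ s (g x) ((n : ℤ) + 1))
      have h3 : (∑ m ∈ Icc 1 n, ((Λ m : ℝ) : ℂ) * g x m) = SL (g x) n := rfl
      rw [h3]
      have h4 : 0 ≤ 1 / (h : ℝ) := by positivity
      calc ‖SL (g x) n‖ * (1 / (h : ℝ) * ‖phw V N q σ s (g x) ((n : ℤ) - h + 1) -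
            phw V N q σ s (g x) ((n : ℤ) + 1)‖)
          ≤ ‖SL (g x) n‖ * (1 / (h : ℝ) * (‖phw V N q σ s (g x) ((n : ℤ) - h + 1)‖ +
            ‖phw V N q σ s (g x) ((n : ℤ) + 1)‖)) :=
            mul_le_mul_of_nonneg_left (mul_le_mul_of_nonneg_left h2 h4) (norm_nonneg _)
        _ = _ := by ring
    · rw [norm_mul]
      push_cast
      exact le_rfl
  refine (sum_le_sum key).trans ?_
  rw [sum_add_distrib, sum_comm]
  have h5 : ∑ n ∈ Icc 1 N, ∑ x ∈ I,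
      (1 / (h : ℝ)) * (‖SL (g x) n‖ * ‖phw V N q σ s (g x) ((n : ℤ) - h + 1)‖ +
        ‖SL (g x) n‖ * ‖phw V N q σ s (g x) ((n : ℤ) + 1)‖) ≤
      ∑ _n ∈ Icc 1 N, (1 / (h : ℝ)) * (P + P) := by
    refine sum_le_sum fun n hn => ?_
    rw [← mul_sum, sum_add_distrib]
    rw [mem_Icc] at hn
    exact mul_le_mul_of_nonneg_left (add_le_add (hV' n hn.2 _) (hV' n hn.2 _)) (by positivity)
  have h6 := hW' N le_rfl ((N : ℤ) + 1)
  rw [sum_const, Nat.card_Icc, nsmul_eq_mul] at h5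
  have h7 : ((N + 1 - 1 : ℕ) : ℝ) = N := by
    have : N + 1 - 1 = N := by omega
    rw [this]
  rw [h7] at h5
  have h8 : (2 * (N : ℝ) / h + 1) * P = N * (1 / (h : ℝ) * (P + P)) + P := by
    field_simp
    ring
  rw [h8]
  exact add_le_add h5 h6

theorem phi_triv (W : ℤ → ℝ) (N q : ℕ) (hq : 1 ≤ q) (hW : Wgt W N) (σ : ℤ) (hσ : σ = 1 ∨ σ = -1)
    (s : ℕ) (hs : 1 ≤ s) (g : ℕ → ℂ) (hg : ∀ n, ‖g n‖ ≤ 1) :
    ‖Phi W N q σ s g‖ ≤ ((N / q / s : ℕ) : ℝ) * ∑ n ∈ Icc 1 N, (Λ n : ℝ) := by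
  have hΛ : 0 ≤ ∑ n ∈ Icc 1 N, (Λ n : ℝ) :=
    sum_nonneg fun n _ => ArithmeticFunction.vonMangoldt_nonneg
  have key : ∀ k ∈ Icc 1 (N / q), ‖(starRingEnd ℂ) (g k) *
      ∑ n ∈ Icc 1 N, ((Λ n : ℝ) : ℂ) * g n * ((W ((n : ℤ) + σ * ((s * k * q : ℕ) : ℤ)) : ℝ) : ℂ)‖
      ≤ if k ∈ Icc 1 (N / q / s) then ∑ n ∈ Icc 1 N, (Λ n : ℝ) else 0 := by
    intro k hk
    rw [mem_Icc] at hk
    split_ifs with h1
    · rw [norm_mul, RCLike.norm_conj]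
      have h2 : ‖∑ n ∈ Icc 1 N, ((Λ n : ℝ) : ℂ) * g n *
          ((W ((n : ℤ) + σ * ((s * k * q : ℕ) : ℤ)) : ℝ) : ℂ)‖ ≤ ∑ n ∈ Icc 1 N, (Λ n : ℝ) := by
        refine (norm_sum_le _ _).trans (sum_le_sum fun n _ => ?_)
        have h3 : (0 : ℝ) ≤ Λ n := ArithmeticFunction.vonMangoldt_nonneg
        have h4 := hW.nonneg ((n : ℤ) + σ * ((s * k * q : ℕ) : ℤ))
        have h5 := hW.le_one ((n : ℤ) + σ * ((s * k * q : ℕ) : ℤ))
        rw [norm_mul, norm_mul, Complex.norm_real, Complex.norm_real, Real.norm_of_nonneg h3,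
          Real.norm_of_nonneg h4]
        calc (Λ n : ℝ) * ‖g n‖ * W ((n : ℤ) + σ * ((s * k * q : ℕ) : ℤ))
            ≤ (Λ n : ℝ) * 1 * 1 :=
              mul_le_mul (mul_le_mul_of_nonneg_left (hg n) h3) h5 h4 (by positivity)
          _ = Λ n := by ring
      calc ‖g k‖ * _ ≤ 1 * ∑ n ∈ Icc 1 N, (Λ n : ℝ) :=
            mul_le_mul (hg k) h2 (norm_nonneg _) zero_le_one
        _ = _ := one_mul _
    · have h2 : ∑ n ∈ Icc 1 N, ((Λ n : ℝ) : ℂ) * g n *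
          ((W ((n : ℤ) + σ * ((s * k * q : ℕ) : ℤ)) : ℝ) : ℂ) = 0 := by
        refine sum_eq_zero fun n hn => ?_
        rw [mem_Icc] at hn
        have h3 : W ((n : ℤ) + σ * ((s * k * q : ℕ) : ℤ)) = 0 := by
          by_contra h4
          obtain ⟨h5, h6⟩ := hW.supp _ h4
          have h7 : s * k * q < N := by
            have hn1 : (1 : ℤ) ≤ n := by exact_mod_cast hn.1
            have hn2 : (n : ℤ) ≤ N := by exact_mod_cast hn.2
            have h8 : ((s * k * q : ℕ) : ℤ) < N := by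
              rcases hσ with rfl | rfl
              · linarith
              · linarith
            exact_mod_cast h8
          apply h1
          rw [mem_Icc]
          refine ⟨hk.1, ?_⟩
          rw [Nat.div_div_eq_div_mul, Nat.le_div_iff_mul_le (by positivity)]
          have h9 : k * (q * s) = s * k * q := by ring
          rw [h9]
          exact h7.le
        rw [h3]
        simp
      rw [h2, mul_zero, norm_zero]
  unfold Phi
  refine (norm_sum_le _ _).trans ((sum_le_sum key).trans ?_)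
  rw [← sum_filter, sum_const, nsmul_eq_mul]
  apply mul_le_mul_of_nonneg_right _ hΛ
  have h1 : ((Icc 1 (N / q)).filter (fun k => k ∈ Icc 1 (N / q / s))).card ≤ N / q / s := by
    calc ((Icc 1 (N / q)).filter (fun k => k ∈ Icc 1 (N / q / s))).card
        ≤ (Icc 1 (N / q / s)).card := card_le_card fun x hx => (mem_filter.mp hx).2
      _ = N / q / s := by rw [Nat.card_Icc, Nat.add_sub_cancel]
  exact_mod_cast h1

end Pool.Agent.M848.SV
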