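import Pool.Agent.Lib.MP_848d44_nt.SV.Base
import Pool.Agent.Lib.MP_848d44_nt.F.L1r

set_option autoImplicit false

/-!
# MP_848d44_nt, project SV, module Wsum

THE WEIGHTS. For f e in RS q R0 R (so f, e squarefree, coprime, R0 < f e <= R) and s | e: |cf f e s| <= (1/phi(fe)) (1/phi(e)) (f/phi(f)) s
<= C N^d s/(f e^2) (1/phi(n) <= C N^(d')/n for n <= N, inv_tot in F/L1r.lean; divisor_bound). Exchange: for fixed e, s the sum over f is split
into f = 1 and the dyadic ranges f in (2^i, 2^(i+1)], i <= log_2 R. In a dyadic range 1/f <= 2^(-i) and sum_f ||Z f e s|| <= B (i+1) s, and the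
terms are empty unless e > R0/2^(i+1); so the range contributes at most C N^d (s/(2^i)) B(i+1,s) sum_{e : s | e, e > R0/2^(i+1)} 1/e^2, and with e = s e':
sum <= (1/s^2) sum_{e' >= 1, e' > X} 1/e'^2, X = R0/(s 2^(i+1)), which is <= (1/s^2) 2 min(1, 1/X) (sum_{e'>=1} 1/e'^2 <= 2; for X >= 1
sum_{e' > X} 1/e'^2 <= 1/floor(X) <= 2/X). Together <= C N^d 4 min(1/(s 2^i), 1/R0) B(i+1,s) <= 8 C N^d min(1/(s 2^(i+1)), 1/R0) B(i+1,s).
f = 1 in the same way with index 0 (e > R0, 1/f = 1). s <= e <= R gives s in Icc 1 R; i + 1 <= log_2 R + 1.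
-/

noncomputable section

namespace Pool.Agent.M848.SV

open Finset Pool.Agent.M848 Pool.Agent.M848.FC
open scoped ArithmeticFunction.vonMangoldt ComplexConjugate

namespace WsumAux

/-- The dyadic decomposition. -/
theorem dyadic_eq (g : ℕ → ℝ) (k : ℕ) :
    ∑ f ∈ Icc 1 (2 ^ k), g f = g 1 + ∑ i ∈ range k, ∑ f ∈ Ioc (2 ^ i) (2 ^ (i + 1)), g f := by
  induction k with
  | zero => simp
  | succ k ih =>
    rw [sum_range_succ, ← add_assoc, ← ih]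
    have h1 : 2 ^ k ≤ 2 ^ (k + 1) := Nat.pow_le_pow_right (by norm_num) (by omega)
    have h2 : 1 ≤ 2 ^ k := Nat.one_le_two_pow
    have h3 : Icc 1 (2 ^ (k + 1)) = Icc 1 (2 ^ k) ∪ Ioc (2 ^ k) (2 ^ (k + 1)) := by
      ext x
      simp only [mem_Icc, mem_union, mem_Ioc]
      omega
    rw [h3, sum_union]
    rw [disjoint_left]
    intro x hx hx'
    rw [mem_Icc] at hx
    rw [mem_Ioc] at hx'
    omega

theorem dyadic_le (g : ℕ → ℝ) (hg : ∀ f, 0 ≤ g f) (R : ℕ) :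
    ∑ f ∈ Icc 1 R, g f ≤
      g 1 + ∑ i ∈ range (Nat.log 2 R + 1), ∑ f ∈ Ioc (2 ^ i) (2 ^ (i + 1)), g f := by
  rw [← dyadic_eq]
  refine sum_le_sum_of_subset_of_nonneg ?_ (fun _ _ _ => hg _)
  intro x hx
  rw [mem_Icc] at hx ⊢
  have h1 : R < 2 ^ (Nat.log 2 R + 1) := Nat.lt_pow_succ_log_self (by norm_num) _
  omega

/-- The exchange `e = s t`. -/
theorem exch (F : ℕ → ℕ → ℝ) (hF : ∀ e s, 0 ≤ F e s) (R : ℕ) :
    ∑ e ∈ Icc 1 R, ∑ s ∈ e.divisors, F e s ≤ ∑ s ∈ Icc 1 R, ∑ t ∈ Icc 1 R, F (s * t) s := by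
  have h1 : ∑ e ∈ Icc 1 R, ∑ s ∈ e.divisors, F e s ≤
      ∑ e ∈ Icc 1 R, ∑ s ∈ Icc 1 R, if s ∣ e then F e s else 0 := by
    refine sum_le_sum fun e he => ?_
    rw [mem_Icc] at he
    rw [← sum_filter]
    refine sum_le_sum_of_subset_of_nonneg ?_ (fun _ _ _ => hF _ _)
    intro s hs
    rw [Nat.mem_divisors] at hs
    have h2 := Nat.le_of_dvd (by omega) hs.1
    have h3 := Nat.pos_of_dvd_of_pos hs.1 (by omega)
    rw [mem_filter, mem_Icc]
    exact ⟨⟨h3, by omega⟩, hs.1⟩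
  refine h1.trans ?_
  rw [sum_comm]
  refine sum_le_sum fun s hs => ?_
  rw [mem_Icc] at hs
  rw [← sum_filter]
  have hinj : Set.InjOn (fun t => s * t) (Icc 1 R : Finset ℕ) := by
    intro a _ b _ hab
    exact Nat.eq_of_mul_eq_mul_left (by omega) hab
  have h2 : ∑ t ∈ Icc 1 R, F (s * t) s = ∑ e ∈ (Icc 1 R).image (fun t => s * t), F e s := by
    rw [sum_image hinj]
  rw [h2]
  refine sum_le_sum_of_subset_of_nonneg ?_ (fun _ _ _ => hF _ _)
  intro e he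
  rw [mem_filter, mem_Icc] at he
  obtain ⟨t, rfl⟩ := he.2
  rw [mem_image]
  refine ⟨t, ?_, rfl⟩
  rw [mem_Icc]
  have h3 : 0 < t := Nat.pos_of_ne_zero (by rintro rfl; simp at he)
  have h4 : t ≤ s * t := Nat.le_mul_of_pos_left t (by omega)
  omega

/-- The tail of the sum of the inverse squares. -/
theorem tail (R R₀ m : ℕ) (hR₀ : 1 ≤ R₀) (hm : 1 ≤ m) :
    ∑ t ∈ (Icc 1 R).filter (fun t => R₀ < m * t), 1 / (t : ℝ) ^ 2 ≤
      2 * min 1 ((m : ℝ) / R₀) := by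
  have hm0 : (0 : ℝ) < m := by exact_mod_cast hm
  have hR0 : (0 : ℝ) < R₀ := by exact_mod_cast hR₀
  have h1 : ∑ t ∈ (Icc 1 R).filter (fun t => R₀ < m * t), 1 / (t : ℝ) ^ 2 ≤
      2 / (((R₀ / m : ℕ) : ℝ) + 1) := by
    refine le_trans ?_ (sum_Ioo_inv_sq_le (α := ℝ) (R₀ / m) (R + 1))
    have h2 : ∀ t : ℕ, 1 / (t : ℝ) ^ 2 = ((t : ℝ) ^ 2)⁻¹ := fun t => one_div _
    simp only [h2]
    refine sum_le_sum_of_subset_of_nonneg ?_ (fun _ _ _ => by positivity)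
    intro t ht
    rw [mem_filter, mem_Icc] at ht
    rw [mem_Ioo]
    refine ⟨?_, by omega⟩
    rw [Nat.div_lt_iff_lt_mul (by omega), mul_comm]
    exact ht.2
  refine h1.trans ?_
  have h3 : (R₀ : ℝ) / m ≤ ((R₀ / m : ℕ) : ℝ) + 1 := by
    rw [div_le_iff₀ hm0]
    have h4 : R₀ < (R₀ / m + 1) * m := by
      have h5 := Nat.div_add_mod R₀ m
      have h6 := Nat.mod_lt R₀ (show m > 0 by omega)
      calc R₀ = m * (R₀ / m) + R₀ % m := h5.symm
        _ < m * (R₀ / m) + m := by omega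
        _ = (R₀ / m + 1) * m := by ring
    exact_mod_cast h4.le
  have h7 : (0 : ℝ) ≤ ((R₀ / m : ℕ) : ℝ) := Nat.cast_nonneg _
  rw [mul_min_of_nonneg _ _ (by norm_num : (0 : ℝ) ≤ 2), mul_one]
  refine le_min ?_ ?_
  · rw [div_le_iff₀ (by linarith)]
    nlinarith
  · calc 2 / (((R₀ / m : ℕ) : ℝ) + 1) ≤ 2 / ((R₀ : ℝ) / m) :=
          div_le_div_of_nonneg_left (by norm_num) (by positivity) h3
      _ = 2 * ((m : ℝ) / R₀) := by
          field_simp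

/-- The bound of the coefficient. -/
theorem cf_le {C1 ε : ℝ} (hε : 0 < ε)
    (hC : ∀ n : ℕ, 1 ≤ n → (n.divisors.card : ℝ) ≤ C1 * (n : ℝ) ^ ε) (hC1 : 1 ≤ C1)
    {N f e s : ℕ} (hf : 1 ≤ f) (he : 1 ≤ e) (hN : f * e ≤ N) :
    |cf f e s| ≤ (C1 * (N : ℝ) ^ ε) ^ 3 * ((s : ℝ) / (f * (e : ℝ) ^ 2)) := by
  have hfe : 1 ≤ f * e := Nat.mul_pos hf he
  have hf' : f ≤ N := (Nat.le_mul_of_pos_right f he).trans hN
  have he' : e ≤ N := (Nat.le_mul_of_pos_left e hf).trans hN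
  have t1 := L1rAux.inv_tot hε hC hC1 hfe hN
  have t2 := L1rAux.inv_tot hε hC hC1 he he'
  have t3 := L1rAux.inv_tot hε hC hC1 hf hf'
  have hf0 : (0 : ℝ) < f := by exact_mod_cast hf
  have he0 : (0 : ℝ) < e := by exact_mod_cast he
  have hs0 : (0 : ℝ) ≤ s := Nat.cast_nonneg _
  have mu : ∀ n : ℕ, |(ArithmeticFunction.moebius n : ℝ)| ≤ 1 := by
    intro n
    exact_mod_cast ArithmeticFunction.abs_moebius_le_one
  have a1 : |br (f * e)| ≤ 1 / ((f * e).totient : ℝ) := by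
    unfold br
    rw [abs_div, abs_of_nonneg (Nat.cast_nonneg (α := ℝ) (f * e).totient)]
    exact div_le_div_of_nonneg_right (mu _) (Nat.cast_nonneg _)
  have a2 : |(ArithmeticFunction.moebius e : ℝ) / e.totient| ≤ 1 / (e.totient : ℝ) := by
    rw [abs_div, abs_of_nonneg (Nat.cast_nonneg (α := ℝ) e.totient)]
    exact div_le_div_of_nonneg_right (mu _) (Nat.cast_nonneg _)
  have a3 : |(f : ℝ) / f.totient| = f * (1 / (f.totient : ℝ)) := by
    rw [abs_of_nonneg (by positivity)]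
    ring
  have a4 : |(ArithmeticFunction.moebius (e / s) : ℝ) * s| ≤ s := by
    rw [abs_mul, abs_of_nonneg hs0]
    exact mul_le_of_le_one_left hs0 (mu _)
  set P : ℝ := C1 * (N : ℝ) ^ ε with hP
  have hP0 : 0 ≤ P := by
    have : (0 : ℝ) ≤ C1 := by linarith
    positivity
  unfold cf
  rw [abs_mul, abs_mul, abs_mul, a3]
  have b1 : |br (f * e)| ≤ P / ((f * e : ℕ) : ℝ) := a1.trans t1
  have b2 : |(ArithmeticFunction.moebius e : ℝ) / e.totient| ≤ P / e := a2.trans t2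
  have b3 : (f : ℝ) * (1 / (f.totient : ℝ)) ≤ f * (P / f) :=
    mul_le_mul_of_nonneg_left t3 hf0.le
  calc |br (f * e)| * |(ArithmeticFunction.moebius e : ℝ) / e.totient| *
        ((f : ℝ) * (1 / (f.totient : ℝ))) * |(ArithmeticFunction.moebius (e / s) : ℝ) * s|
      ≤ (P / ((f * e : ℕ) : ℝ)) * (P / e) * (f * (P / f)) * s := by
        refine mul_le_mul (mul_le_mul (mul_le_mul b1 b2 (abs_nonneg _) (by positivity)) b3
          (by positivity) (by positivity)) a4 (abs_nonneg _) (by positivity)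
    _ = P ^ 3 * ((s : ℝ) / (f * (e : ℝ) ^ 2)) := by
        push_cast
        field_simp

/-- The sum over `f` for fixed `e, s`. -/
theorem inner (R₀ R e s : ℕ) (he : 1 ≤ e) (hs : 1 ≤ s) (z : ℕ → ℝ) (hz : ∀ f, 0 ≤ z f)
    (b : ℕ → ℝ) (h0 : z 1 ≤ b 0)
    (h1 : ∀ i, ∑ f ∈ Ioc (2 ^ i) (2 ^ (i + 1)), z f ≤ b (i + 1)) :
    ∑ f ∈ Icc 1 R, (if R₀ < f * e then (s : ℝ) / (f * (e : ℝ) ^ 2) else 0) * z f ≤
      ∑ i ∈ range (Nat.log 2 R + 2),
        (if R₀ < 2 ^ i * e then 2 * (s : ℝ) / (2 ^ i * (e : ℝ) ^ 2) else 0) * b i := by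
  have hs0 : (0 : ℝ) < s := by exact_mod_cast hs
  have he0 : (0 : ℝ) < e := by exact_mod_cast he
  have hw : ∀ f : ℕ, 0 ≤ (if R₀ < f * e then (s : ℝ) / (f * (e : ℝ) ^ 2) else 0) := by
    intro f
    split_ifs
    · positivity
    · exact le_rfl
  refine (dyadic_le _ (fun f => mul_nonneg (hw f) (hz f)) R).trans ?_
  rw [sum_range_succ' _ (Nat.log 2 R + 1), add_comm]
  refine add_le_add (sum_le_sum fun i _ => ?_) ?_
  · -- a dyadic range
    have h2 : ∀ f ∈ Ioc (2 ^ i) (2 ^ (i + 1)),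
        (if R₀ < f * e then (s : ℝ) / (f * (e : ℝ) ^ 2) else 0) * z f ≤
        (if R₀ < 2 ^ (i + 1) * e then 2 * (s : ℝ) / (2 ^ (i + 1) * (e : ℝ) ^ 2) else 0) *
          z f := by
      intro f hf
      rw [mem_Ioc] at hf
      refine mul_le_mul_of_nonneg_right ?_ (hz f)
      by_cases hc : R₀ < f * e
      · have hc' : R₀ < 2 ^ (i + 1) * e := hc.trans_le (Nat.mul_le_mul_right _ hf.2)
        rw [if_pos hc, if_pos hc']
        have h3 : (2 : ℝ) ^ i ≤ f := by exact_mod_cast hf.1.le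
        have h4 : 2 * (s : ℝ) / (2 ^ (i + 1) * (e : ℝ) ^ 2) = (s : ℝ) / (2 ^ i * (e : ℝ) ^ 2) := by
          rw [pow_succ]
          field_simp
        rw [h4]
        exact div_le_div_of_nonneg_left hs0.le (by positivity)
          (mul_le_mul_of_nonneg_right h3 (by positivity))
      · rw [if_neg hc]
        split_ifs
        · positivity
        · exact le_rfl
    refine (sum_le_sum h2).trans ?_
    rw [← mul_sum]
    refine mul_le_mul_of_nonneg_left (h1 i) ?_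
    split_ifs
    · positivity
    · exact le_rfl
  · have h5 : (if R₀ < 1 * e then (s : ℝ) / (((1 : ℕ) : ℝ) * (e : ℝ) ^ 2) else 0) ≤
        (if R₀ < 2 ^ 0 * e then 2 * (s : ℝ) / (2 ^ 0 * (e : ℝ) ^ 2) else 0) := by
      rw [pow_zero, pow_zero]
      split_ifs
      · rw [Nat.cast_one]
        refine div_le_div_of_nonneg_right (by linarith) (by positivity)
      · exact le_rfl
    refine mul_le_mul h5 h0 (hz 1) ?_
    split_ifs
    · positivity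
    · exact le_rfl

end WsumAux

open WsumAux in
theorem weight_sum (δ : ℝ) (hδ : 0 < δ) : ∃ C : ℝ, 0 < C ∧ ∀ N q R₀ R : ℕ, 1 ≤ R₀ → 1 ≤ R →
    R ≤ N → ∀ Z : ℕ → ℕ → ℕ → ℂ, ∀ B : ℕ → ℕ → ℝ, (∀ i s, 0 ≤ B i s) →
      (∀ e s, 1 ≤ s → ‖Z 1 e s‖ ≤ B 0 s) →
      (∀ i e s, 1 ≤ s → ∑ f ∈ Ioc (2 ^ i) (2 ^ (i + 1)), ‖Z f e s‖ ≤ B (i + 1) s) →
      ‖∑ f ∈ Icc 1 R, ∑ e ∈ Icc 1 R, ∑ s ∈ e.divisors,
          (if f * e ∈ RS q R₀ R then ((cf f e s : ℝ) : ℂ) else 0) * Z f e s‖ ≤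
        C * (N : ℝ) ^ δ * ∑ i ∈ range (Nat.log 2 R + 2), ∑ s ∈ Icc 1 R,
          min (1 / ((s : ℝ) * 2 ^ i)) (1 / (R₀ : ℝ)) * B i s := by
  obtain ⟨C0, hC0, hdiv0⟩ := divisor_bound (δ / 3) (by positivity)
  obtain ⟨C1, hC1, hdiv⟩ : ∃ C1 : ℝ, 1 ≤ C1 ∧
      ∀ n : ℕ, 1 ≤ n → (n.divisors.card : ℝ) ≤ C1 * (n : ℝ) ^ (δ / 3) := by
    refine ⟨max C0 1, le_max_right _ _, fun n hn => (hdiv0 n hn).trans ?_⟩
    exact mul_le_mul_of_nonneg_right (le_max_left _ _) (by positivity)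
  refine ⟨4 * C1 ^ 3, by positivity, ?_⟩
  intro N q R₀ R hR₀ hR hRN Z B hB hZ0 hZ
  have hR0 : (0 : ℝ) < R₀ := by exact_mod_cast hR₀
  set P : ℝ := (C1 * (N : ℝ) ^ (δ / 3)) ^ 3 with hP
  have hPe : P = C1 ^ 3 * (N : ℝ) ^ δ := by
    rw [hP, mul_pow, ← Real.rpow_natCast ((N : ℝ) ^ (δ / 3)), ← Real.rpow_mul (by positivity)]
    congr 2
    push_cast
    ring
  have hP0 : 0 ≤ P := by rw [hPe]; positivity
  -- the triangle inequality
  have step1 : ‖∑ f ∈ Icc 1 R, ∑ e ∈ Icc 1 R, ∑ s ∈ e.divisors,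
      (if f * e ∈ RS q R₀ R then ((cf f e s : ℝ) : ℂ) else 0) * Z f e s‖ ≤
      ∑ f ∈ Icc 1 R, ∑ e ∈ Icc 1 R, ∑ s ∈ e.divisors,
        P * ((if R₀ < f * e then (s : ℝ) / (f * (e : ℝ) ^ 2) else 0) * ‖Z f e s‖) := by
    refine (norm_sum_le _ _).trans (sum_le_sum fun f hf => ?_)
    refine (norm_sum_le _ _).trans (sum_le_sum fun e he => ?_)
    refine (norm_sum_le _ _).trans (sum_le_sum fun s _ => ?_)
    rw [mem_Icc] at hf he
    rw [norm_mul, ← mul_assoc]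
    refine mul_le_mul_of_nonneg_right ?_ (norm_nonneg _)
    by_cases hc : f * e ∈ RS q R₀ R
    · rw [if_pos hc]
      unfold RS at hc
      rw [mem_filter, mem_Ioc] at hc
      rw [if_pos hc.1.1, Complex.norm_real, Real.norm_eq_abs]
      exact cf_le (by positivity) hdiv hC1 hf.1 he.1 (hc.1.2.trans hRN)
    · rw [if_neg hc, norm_zero]
      refine mul_nonneg hP0 ?_
      split_ifs
      · positivity
      · exact le_rfl
  refine step1.trans ?_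
  -- exchange of the sums
  have step2 : ∑ f ∈ Icc 1 R, ∑ e ∈ Icc 1 R, ∑ s ∈ e.divisors,
        P * ((if R₀ < f * e then (s : ℝ) / (f * (e : ℝ) ^ 2) else 0) * ‖Z f e s‖) =
      P * ∑ e ∈ Icc 1 R, ∑ s ∈ e.divisors, ∑ f ∈ Icc 1 R,
        (if R₀ < f * e then (s : ℝ) / (f * (e : ℝ) ^ 2) else 0) * ‖Z f e s‖ := by
    rw [sum_comm, mul_sum]
    refine sum_congr rfl fun e _ => ?_
    rw [sum_comm, mul_sum]
    refine sum_congr rfl fun s _ => ?_
    rw [mul_sum]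
  rw [step2]
  have step3 : ∑ e ∈ Icc 1 R, ∑ s ∈ e.divisors, ∑ f ∈ Icc 1 R,
        (if R₀ < f * e then (s : ℝ) / (f * (e : ℝ) ^ 2) else 0) * ‖Z f e s‖ ≤
      ∑ e ∈ Icc 1 R, ∑ s ∈ e.divisors, ∑ i ∈ range (Nat.log 2 R + 2),
        (if R₀ < 2 ^ i * e then 2 * (s : ℝ) / (2 ^ i * (e : ℝ) ^ 2) else 0) * B i s := by
    refine sum_le_sum fun e he => sum_le_sum fun s hs => ?_
    rw [mem_Icc] at he
    have hs1 : 1 ≤ s := Nat.pos_of_mem_divisors hs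
    exact inner R₀ R e s he.1 hs1 (fun f => ‖Z f e s‖) (fun _ => norm_nonneg _)
      (fun i => B i s) (hZ0 e s hs1) (fun i => hZ i e s hs1)
  have step4 : ∑ e ∈ Icc 1 R, ∑ s ∈ e.divisors, ∑ i ∈ range (Nat.log 2 R + 2),
        (if R₀ < 2 ^ i * e then 2 * (s : ℝ) / (2 ^ i * (e : ℝ) ^ 2) else 0) * B i s ≤
      ∑ s ∈ Icc 1 R, ∑ t ∈ Icc 1 R, ∑ i ∈ range (Nat.log 2 R + 2),
        (if R₀ < 2 ^ i * (s * t) then 2 * (s : ℝ) / (2 ^ i * (((s * t : ℕ) : ℝ)) ^ 2) else 0) *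
          B i s := by
    refine exch (fun e s => ∑ i ∈ range (Nat.log 2 R + 2),
        (if R₀ < 2 ^ i * e then 2 * (s : ℝ) / (2 ^ i * (e : ℝ) ^ 2) else 0) * B i s) ?_ R
    intro e s
    refine sum_nonneg fun i _ => mul_nonneg ?_ (hB i s)
    split_ifs
    · positivity
    · exact le_rfl
  have step5 : ∑ s ∈ Icc 1 R, ∑ t ∈ Icc 1 R, ∑ i ∈ range (Nat.log 2 R + 2),
        (if R₀ < 2 ^ i * (s * t) then 2 * (s : ℝ) / (2 ^ i * (((s * t : ℕ) : ℝ)) ^ 2) else 0) *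
          B i s ≤
      ∑ i ∈ range (Nat.log 2 R + 2), ∑ s ∈ Icc 1 R,
          4 * (min (1 / ((s : ℝ) * 2 ^ i)) (1 / (R₀ : ℝ)) * B i s) := by
    have h6 : ∀ s ∈ Icc 1 R, ∑ t ∈ Icc 1 R, ∑ i ∈ range (Nat.log 2 R + 2),
        (if R₀ < 2 ^ i * (s * t) then 2 * (s : ℝ) / (2 ^ i * (((s * t : ℕ) : ℝ)) ^ 2) else 0) *
          B i s ≤ ∑ i ∈ range (Nat.log 2 R + 2),
            4 * (min (1 / ((s : ℝ) * 2 ^ i)) (1 / (R₀ : ℝ)) * B i s) := by
      intro s hs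
      rw [mem_Icc] at hs
      have hs0 : (0 : ℝ) < s := by exact_mod_cast hs.1
      rw [sum_comm]
      refine sum_le_sum fun i _ => ?_
      rw [← sum_mul, ← mul_assoc]
      refine mul_le_mul_of_nonneg_right ?_ (hB i s)
      have h2i : (0 : ℝ) < 2 ^ i := by positivity
      have h7 : ∀ t ∈ Icc 1 R,
          (if R₀ < 2 ^ i * (s * t) then
            2 * (s : ℝ) / (2 ^ i * (((s * t : ℕ) : ℝ)) ^ 2) else 0) =
          (2 / ((s : ℝ) * 2 ^ i)) *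
            (if R₀ < (2 ^ i * s) * t then 1 / (t : ℝ) ^ 2 else 0) := by
        intro t ht
        rw [mem_Icc] at ht
        have ht0 : (0 : ℝ) < t := by exact_mod_cast ht.1
        rw [← mul_assoc]
        split_ifs
        · push_cast
          field_simp
        · rw [mul_zero]
      rw [sum_congr rfl h7, ← mul_sum, ← sum_filter]
      have h8 := tail R R₀ (2 ^ i * s) hR₀ (Nat.mul_pos (Nat.two_pow_pos i) hs.1)
      refine (mul_le_mul_of_nonneg_left h8 (by positivity)).trans (le_of_eq ?_)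
      have h9 : (2 / ((s : ℝ) * 2 ^ i)) * (2 * min 1 ((((2 ^ i * s : ℕ) : ℝ)) / R₀)) =
          4 * ((1 / ((s : ℝ) * 2 ^ i)) * min 1 ((((2 ^ i * s : ℕ) : ℝ)) / R₀)) := by ring
      rw [h9, mul_min_of_nonneg _ _ (by positivity), mul_one]
      congr 2
      push_cast
      field_simp
    refine (sum_le_sum h6).trans (le_of_eq ?_)
    exact sum_comm
  refine (mul_le_mul_of_nonneg_left (step3.trans (step4.trans step5)) hP0).trans (le_of_eq ?_)
  simp only [← mul_sum]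
  rw [hPe]
  ring

end Pool.Agent.M848.SV
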