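import Pool.Agent.Lib.MP_848d44_nt.SV.Spl
import Pool.Agent.Lib.MP_848d44_nt.SV.Phib
import Pool.Agent.Lib.MP_848d44_nt.SV.Wsum
import Pool.Agent.Lib.MP_848d44_nt.F.L1p

set_option autoImplicit false

/-!
# MP_848d44_nt, project SV: the bound for the main off-diagonal sum in terms of mean values
-/

noncomputable section

namespace Pool.Agent.M848.SV

open Finset Pool.Agent.M848 Pool.Agent.M848.FC
open scoped ArithmeticFunction.vonMangoldt ComplexConjugate

theorem phi_bound {ι : Type} (I : Finset ι) (g : ι → ℕ → ℂ) (N q : ℕ) (P : ℝ)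
    (hP : ∀ y ≤ N, ∀ u v : ℕ, v ≤ N / q →
      ∑ x ∈ I, ‖SL (g x) y‖ * ‖∑ k ∈ Ioc u v, g x k‖ ≤ P)
    (A B : ℤ) (h j : ℕ) (hh : 1 ≤ h) (σ : ℤ) (s : ℕ) :
    ∑ x ∈ I, ‖Phi (spl A B h (j + 1)) N q σ s (g x)‖ ≤ (2 * N / h + 1) * P := by
  have key : ∀ (i : ℕ), ∀ y ≤ N, ∀ c : ℤ, ∑ x ∈ I, ‖SL (g x) y‖ *
      ‖∑ k ∈ Icc 1 (N / q), conj (g x k) *
        ((spl A B h i (c + (σ * (s * q : ℕ)) * (k : ℤ)) : ℝ) : ℂ)‖ ≤ P := by
    intro i y hy c
    refine spl_major I (fun x k => conj (g x k)) (fun x => ‖SL (g x) y‖) (N / q) P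
      (fun x _ => norm_nonneg _) ?_ A B h i hh c _
    intro u v hv
    refine le_trans (le_of_eq ?_) (hP y hy u v hv)
    refine sum_congr rfl fun x _ => ?_
    rw [← map_sum, RCLike.norm_conj]
  exact phi_abs I g _ _ N q h P σ s hh (spl_diff A B h j hh) (key j) (key (j + 1))

theorem uu_norm (σ : ℤ) (f : ℕ) (χ : ℕ → ℂ) (h : χ ∈ pc f) : ‖uu σ f χ‖ ≤ 1 := by
  unfold uu
  split_ifs
  · exact L1pAux.pc_norm h _
  · simp

theorem Zf_norm (W : ℤ → ℝ) (N q : ℕ) (σ : ℤ) (f s : ℕ) :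
    ‖Zf W N q σ f s‖ ≤ ∑ χ ∈ pc f, ‖Phi W N q σ s χ‖ := by
  unfold Zf
  refine (norm_sum_le _ _).trans (sum_le_sum fun χ h => ?_)
  rw [norm_mul, norm_mul, norm_mul, RCLike.norm_conj, RCLike.norm_conj]
  have h1 := uu_norm σ f χ h
  have h2 := L1pAux.pc_norm h q
  have h3 := L1pAux.pc_norm h s
  have h4 : ‖uu σ f χ‖ * ‖χ q‖ * ‖χ s‖ ≤ 1 := by
    have := mul_le_mul h1 h2 (norm_nonneg _) zero_le_one
    exact (mul_le_mul this h3 (norm_nonneg _) (by norm_num)).trans (by norm_num)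
  calc _ ≤ 1 * ‖Phi W N q σ s χ‖ := mul_le_mul_of_nonneg_right h4 (norm_nonneg _)
    _ = _ := one_mul _

/-- The weight sum over `s`. -/
def SW (K R₀ i : ℕ) : ℝ := ∑ s ∈ Icc 1 K, min (1 / ((s : ℝ) * 2 ^ i)) (1 / (R₀ : ℝ))

theorem main_bound (δ : ℝ) (hδ : 0 < δ) : ∃ C : ℝ, 0 < C ∧ ∀ N q R₀ R : ℕ, 1 ≤ q → 1 ≤ R₀ → 1 ≤ R →
    R ≤ N → ∀ (A B : ℤ) (h j : ℕ), 1 ≤ h → Wgt (spl A B h (j + 1)) N →
    ∑ n ∈ Icc 1 N, (Λ n : ℝ) ≤ 2 * N → ∀ P : ℕ → ℝ,
    (∀ i, 2 ^ i < R → ∀ y ≤ N, ∀ u v : ℕ, v ≤ N / q →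
      ∑ f ∈ Ioc (2 ^ i) (2 ^ (i + 1)), ∑ χ ∈ pc f, ‖SL χ y‖ * ‖∑ k ∈ Ioc u v, χ k‖ ≤ P i) →
    ∀ σ : ℤ, (σ = 1 ∨ σ = -1) →
      ‖MainS (spl A B h (j + 1)) N q R₀ R σ‖ ≤ C * (N : ℝ) ^ δ *
        (∑ s ∈ Icc 1 R, min (1 / (s : ℝ)) (1 / (R₀ : ℝ)) * (((N / q / s : ℕ) : ℝ) * (2 * N)) +
          ∑ i ∈ (range (Nat.log 2 R + 1)).filter (fun i => 2 ^ i < R),
            (2 * N / h + 1) * P i * SW (N / q) R₀ (i + 1)) := by
  obtain ⟨C, hC, hw⟩ := weight_sum δ hδ
  refine ⟨C, hC, ?_⟩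
  intro N q R₀ R hq hR₀ hR hRN A B h j hh hW hψ P hP σ hσ
  set W := spl A B h (j + 1) with hWdef
  have hP0 : ∀ i, 2 ^ i < R → 0 ≤ P i := fun i hi =>
    (sum_nonneg fun f _ => sum_nonneg fun χ _ => by positivity).trans
      (hP i hi 0 (Nat.zero_le _) 0 0 (Nat.zero_le _))
  set B' : ℕ → ℕ → ℝ := fun i s => match i with
    | 0 => ((N / q / s : ℕ) : ℝ) * (2 * N)
    | i + 1 => if 2 ^ i < R ∧ s ≤ N / q then (2 * N / h + 1) * P i else 0 with hB'
  have hB0 : ∀ s, B' 0 s = ((N / q / s : ℕ) : ℝ) * (2 * N) := fun s => rfl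
  have hB1 : ∀ i s, B' (i + 1) s = if 2 ^ i < R ∧ s ≤ N / q then (2 * N / h + 1) * P i else 0 :=
    fun i s => rfl
  set Z : ℕ → ℕ → ℕ → ℂ := fun f _ s => if f ≤ R then Zf W N q σ f s else 0 with hZ
  have h1 := hw N q R₀ R hR₀ hR hRN Z B' ?_ ?_ ?_
  · have e1 : MainS W N q R₀ R σ = ∑ f ∈ Icc 1 R, ∑ e ∈ Icc 1 R, ∑ s ∈ e.divisors,
        (if f * e ∈ RS q R₀ R then ((cf f e s : ℝ) : ℂ) else 0) * Z f e s := by
      unfold MainS
      refine sum_congr rfl fun f hf => sum_congr rfl fun e _ => sum_congr rfl fun s _ => ?_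
      rw [hZ]
      simp only
      rw [if_pos (mem_Icc.1 hf).2]
    rw [e1]
    refine h1.trans (mul_le_mul_of_nonneg_left ?_ (by positivity))
    rw [sum_range_succ']
    rw [add_comm]
    refine add_le_add (le_of_eq ?_) ?_
    · refine sum_congr rfl fun s _ => ?_
      rw [hB0]
      simp
    · rw [sum_filter]
      refine sum_le_sum fun i _ => ?_
      by_cases hi : 2 ^ i < R
      · rw [if_pos hi]
        have e2 : ∑ s ∈ Icc 1 R, min (1 / ((s : ℝ) * 2 ^ (i + 1))) (1 / (R₀ : ℝ)) * B' (i + 1) s =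
            ∑ s ∈ (Icc 1 R).filter (fun s => s ≤ N / q),
              min (1 / ((s : ℝ) * 2 ^ (i + 1))) (1 / (R₀ : ℝ)) * ((2 * N / h + 1) * P i) := by
          rw [sum_filter]
          refine sum_congr rfl fun s _ => ?_
          rw [hB1]
          by_cases hs : s ≤ N / q
          · rw [if_pos ⟨hi, hs⟩, if_pos hs]
          · rw [if_neg (fun h => hs h.2), if_neg hs, mul_zero]
        rw [e2, ← sum_mul, mul_comm]
        refine mul_le_mul_of_nonneg_left ?_ (mul_nonneg (by positivity) (hP0 i hi))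
        unfold SW
        refine sum_le_sum_of_subset_of_nonneg ?_ fun s _ _ => by positivity
        intro s hs
        rw [mem_filter, mem_Icc] at hs
        exact mem_Icc.2 ⟨hs.1.1, hs.2⟩
      · rw [if_neg hi]
        refine le_of_eq (sum_eq_zero fun s _ => ?_)
        rw [hB1, if_neg (fun h => hi h.1), mul_zero]
  · intro i s
    cases i with
    | zero => rw [hB0]; positivity
    | succ i =>
      rw [hB1]
      split_ifs with h
      · exact mul_nonneg (by positivity) (hP0 i h.1)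
      · exact le_rfl
  · intro e s hs
    rw [hB0, hZ]
    simp only
    rw [if_pos hR]
    refine (Zf_norm W N q σ 1 s).trans ?_
    have hcard : ((pc 1).card : ℝ) ≤ 1 := by
      have := L1pAux.pc_card_le 1
      simpa using this
    calc ∑ χ ∈ pc 1, ‖Phi W N q σ s χ‖ ≤ ∑ χ ∈ pc 1, ((N / q / s : ℕ) : ℝ) * (2 * N) := by
          refine sum_le_sum fun χ hχ => ?_
          refine (phi_triv W N q hq hW σ hσ s hs χ (L1pAux.pc_norm hχ)).trans ?_
          exact mul_le_mul_of_nonneg_left hψ (Nat.cast_nonneg _)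
      _ = (pc 1).card * (((N / q / s : ℕ) : ℝ) * (2 * N)) := by rw [sum_const, nsmul_eq_mul]
      _ ≤ 1 * (((N / q / s : ℕ) : ℝ) * (2 * N)) :=
          mul_le_mul_of_nonneg_right hcard (by positivity)
      _ = _ := one_mul _
  · intro i e s hs
    rw [hB1]
    by_cases hi : 2 ^ i < R
    · by_cases hsK : s ≤ N / q
      · rw [if_pos ⟨hi, hsK⟩]
        have h2 := phi_bound ((Ioc (2 ^ i) (2 ^ (i + 1))).sigma pc) (fun x => x.2) N q (P i) ?_
          A B h j hh σ s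
        · refine le_trans ?_ h2
          rw [sum_sigma]
          refine sum_le_sum fun f _ => ?_
          rw [hZ]
          simp only
          split_ifs
          · exact Zf_norm W N q σ f s
          · rw [norm_zero]
            exact sum_nonneg fun χ _ => norm_nonneg _
        · intro y hy u v hv
          rw [sum_sigma]
          exact hP i hi y hy u v hv
      · rw [if_neg (fun h => hsK h.2)]
        refine le_of_eq (sum_eq_zero fun f _ => ?_)
        rw [hZ]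
        simp only
        split_ifs
        · rw [norm_eq_zero]
          unfold Zf
          refine sum_eq_zero fun χ hχ => ?_
          have h3 := phi_triv W N q hq hW σ hσ s hs χ (L1pAux.pc_norm hχ)
          have h4 : N / q / s = 0 := Nat.div_eq_of_lt (not_le.1 hsK)
          rw [h4, Nat.cast_zero, zero_mul] at h3
          rw [norm_le_zero_iff.1 h3, mul_zero]
        · exact norm_zero
    · rw [if_neg (fun h => hi h.1)]
      refine le_of_eq (sum_eq_zero fun f hf => ?_)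
      rw [hZ]
      simp only
      rw [if_neg, norm_zero]
      have := (mem_Ioc.1 hf).1
      omega

end Pool.Agent.M848.SV
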