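import Pool.Agent.Lib.MP_848d44_nt.SV.Cc
import Pool.Agent.Lib.MP_848d44_nt.F.L1r

set_option autoImplicit false

/-!
# MP_848d44_nt, project SV, module Star: the expansion of c_r(n + sigma h) in primitive characters

(1) orthogonality for all characters modulo d; (2) every character modulo d is induced by exactly one
primitive character modulo its conductor; Moebius inversion gives the sum over the primitive
characters modulo f; (3) both sides are multiplicative in the squarefree r, and the factors at a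
prime p agree.
-/

noncomputable section

namespace Pool.Agent.M848.SV

open Finset Pool.Agent.M848 Pool.Agent.M848.FC
open scoped ArithmeticFunction.vonMangoldt ComplexConjugate

namespace StarAux

open L1rAux DirichletCharacter ArithmeticFunction

/-! ### Primitive characters -/

theorem char_eq {f : ℕ} (ψ : DirichletCharacter ℂ f) {k : ℕ} [NeZero k] (hk : f ∣ k) :
    ∀ (c : ℕ) (hc : c ∣ k) (φ : DirichletCharacter ℂ c), c = f →
      changeLevel hc φ = changeLevel hk ψ →
      (fun n : ℕ => φ (n : ZMod c)) = fun n : ℕ => ψ (n : ZMod f) := by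
  intro c hc φ hcf h
  subst hcf
  have := changeLevel_injective hc h
  rw [this]

theorem prf_changeLevel {f k : ℕ} [NeZero k] (hk : f ∣ k) (ψ : DirichletCharacter ℂ f)
    (hψ : ψ.IsPrimitive) :
    (changeLevel hk ψ).conductor = f ∧
      prf (changeLevel hk ψ) = fun n : ℕ => ψ (n : ZMod f) := by
  have h1 : (changeLevel hk ψ).conductor = f := by
    rw [conductor_changeLevel]; exact hψ
  refine ⟨h1, ?_⟩
  unfold prf
  exact char_eq ψ hk _ (conductor_dvd_level _) _ h1 (changeLevel_primitiveCharacter _)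

/-- The sum over all characters modulo `k` through the primitive characters. -/
theorem sum_prf_eq {k : ℕ} [NeZero k] (G : ℕ → (ℕ → ℂ) → ℂ) :
    ∑ X : DirichletCharacter ℂ k, G X.conductor (prf X) =
      ∑ f ∈ k.divisors, ∑ ξ ∈ pc f, G f ξ := by
  classical
  rw [sum_sigma']
  let e : DirichletCharacter ℂ k → Σ _ : ℕ, (ℕ → ℂ) := fun X => ⟨X.conductor, prf X⟩
  have hinj : Function.Injective e := by
    intro X X' h
    have h2 : prf X = prf X' := by
      have := congrArg (fun z : Σ _ : ℕ, (ℕ → ℂ) => z.2) h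
      exact this
    exact prf_inj h2
  have himg : (univ : Finset (DirichletCharacter ℂ k)).image e = k.divisors.sigma pc := by
    ext z
    rw [mem_image, mem_sigma]
    constructor
    · rintro ⟨X, _, rfl⟩
      exact ⟨Nat.mem_divisors.mpr ⟨X.conductor_dvd_level, NeZero.ne k⟩, prf_mem X⟩
    · rintro ⟨h1, h2⟩
      obtain ⟨f, ξ⟩ := z
      obtain ⟨_, ψ, hψ, hξ⟩ := mem_pc h2
      have hfk : f ∣ k := (Nat.mem_divisors.mp h1).1
      obtain ⟨h3, h4⟩ := prf_changeLevel hfk ψ hψ
      refine ⟨changeLevel hfk ψ, mem_univ _, ?_⟩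
      have h5 : ξ = prf (changeLevel hfk ψ) := by rw [h4]; exact hξ
      rw [h5]
      simp only [e]
      rw [h3]
  rw [← himg, sum_image (fun a _ b _ hab => hinj hab)]

theorem pc_zero {f : ℕ} {χ : ℕ → ℂ} (h : χ ∈ pc f) {n : ℕ} (hn : ¬ n.Coprime f) : χ n = 0 := by
  obtain ⟨_, ψ, _, rfl⟩ := mem_pc h
  exact MulChar.map_nonunit ψ fun hu => hn ((ZMod.isUnit_iff_coprime n f).mp hu)

/-- The sum over the primitive characters modulo `f`. -/
def P (σ : ℤ) (n h f : ℕ) : ℂ := ∑ χ ∈ pc f, uu σ f χ * χ n * conj (χ h)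

theorem neg_one_cast {c k : ℕ} (hc : c ∣ k) (hk : 1 ≤ k) : ((k - 1 : ℕ) : ZMod c) = -1 := by
  have h1 : (((k - 1 : ℕ) : ZMod c)) + 1 = 0 := by
    have h2 : ((k - 1 + 1 : ℕ) : ZMod c) = 0 := by
      rw [Nat.sub_add_cancel hk]
      exact (ZMod.natCast_eq_zero_iff k c).mpr hc
    push_cast at h2
    exact h2
  exact eq_neg_of_add_eq_zero_left h1

theorem coprime_pred {k : ℕ} (hk : 1 ≤ k) : (k - 1).Coprime k := by
  have h := Nat.coprime_self_add_right (m := k - 1) (n := 1)
  rw [Nat.sub_add_cancel hk] at h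
  exact h.mpr (Nat.coprime_one_right _)

/-- Orthogonality. -/
theorem sum_P {σ : ℤ} (hσ : σ = 1 ∨ σ = -1) {n h k : ℕ} (hk : 1 ≤ k) (hn : n.Coprime k)
    (hh : h.Coprime k) :
    ∑ f ∈ k.divisors, P σ n h f =
      if (k : ℤ) ∣ (n : ℤ) + σ * h then (k.totient : ℂ) else 0 := by
  have : NeZero k := ⟨by omega⟩
  unfold P
  rw [← sum_prf_eq (fun f ξ => uu σ f ξ * ξ n * conj (ξ h))]
  have e1 : ∀ X : DirichletCharacter ℂ k, prf X n = X (n : ZMod k) := fun X => (prf_eq X hn).symm
  have e2 : ∀ X : DirichletCharacter ℂ k, prf X h = X (h : ZMod k) := fun X => (prf_eq X hh).symm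
  rcases hσ with rfl | rfl
  · have e3 : ∀ X : DirichletCharacter ℂ k, uu 1 X.conductor (prf X) =
        X ((k - 1 : ℕ) : ZMod k) := by
      intro X
      unfold uu
      rw [if_pos rfl, prf_eq X (coprime_pred hk)]
      unfold prf
      have hc : 1 ≤ X.conductor := Nat.one_le_iff_ne_zero.mpr (conductor_ne_zero X)
      rw [neg_one_cast X.conductor_dvd_level hk, neg_one_cast (dvd_refl _) hc]
    have e4 : ∀ X : DirichletCharacter ℂ k, uu 1 X.conductor (prf X) * prf X n *
        conj (prf X h) = X (((k - 1) * n : ℕ) : ZMod k) * conj (X (h : ZMod k)) := by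
      intro X
      rw [e1, e2, e3, ← map_mul]
      push_cast
      rfl
    rw [sum_congr rfl fun X _ => e4 X,
      CharsAux.orth_char k _ h (Nat.Coprime.mul_left (coprime_pred hk) hn)]
    have h5 : ((k - 1) * n % k = h % k) ↔ (k : ℤ) ∣ (n : ℤ) + 1 * h := by
      rw [← ZMod.natCast_eq_natCast_iff', ← ZMod.intCast_zmod_eq_zero_iff_dvd]
      rw [Nat.cast_mul, neg_one_cast (dvd_refl _) hk]
      push_cast
      constructor
      · intro h6
        rw [← h6]
        ring
      · intro h6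
        have h7 : (h : ZMod k) = -(n : ZMod k) := by
          rw [one_mul] at h6
          exact eq_neg_of_add_eq_zero_right h6
        rw [h7]
        ring
    simp only [h5]
  · have e4 : ∀ X : DirichletCharacter ℂ k, uu (-1) X.conductor (prf X) * prf X n *
        conj (prf X h) = X (n : ZMod k) * conj (X (h : ZMod k)) := by
      intro X
      unfold uu
      rw [if_neg (by norm_num), e1, e2, one_mul]
    rw [sum_congr rfl fun X _ => e4 X, CharsAux.orth_char k _ h hn]
    have h5 : (n % k = h % k) ↔ (k : ℤ) ∣ (n : ℤ) + -1 * h := by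
      rw [← ZMod.natCast_eq_natCast_iff', ← ZMod.intCast_zmod_eq_zero_iff_dvd]
      push_cast
      constructor
      · intro h6
        rw [h6]
        ring
      · intro h6
        have h7 : (n : ZMod k) - h = 0 := by
          rw [← h6]
          ring
        exact sub_eq_zero.mp h7
    simp only [h5]

/-! ### The arithmetic functions -/

/-- `φ(d) [d ∣ m]`. -/
def gA (m : ℤ) : ArithmeticFunction ℝ :=
  ⟨fun d => if (d : ℤ) ∣ m then (d.totient : ℝ) else 0, by simp⟩

/-- `[(h, f) = 1]`. -/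
def cA (h : ℕ) : ArithmeticFunction ℝ :=
  ⟨fun f => if f = 0 then 0 else if h.Coprime f then 1 else 0, by simp⟩

/-- `f / φ(f)`. -/
def iA : ArithmeticFunction ℝ := ⟨fun f => (f : ℝ) / f.totient, by simp⟩

/-- `μ(e) c_e(h) / φ(e)`. -/
def wA (h : ℕ) : ArithmeticFunction ℝ :=
  ⟨fun e => (ArithmeticFunction.moebius e : ℝ) * cc e h / e.totient, by simp⟩

/-- `c_r(m)`. -/
def ccA (m : ℤ) : ArithmeticFunction ℝ := ⟨fun r => cc r m, by simp [cc]⟩

theorem cc_one (m : ℤ) : cc 1 m = 1 := by
  unfold cc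
  rw [Nat.divisors_one, filter_singleton, if_pos (by simp : ((1 : ℕ) : ℤ) ∣ m)]
  simp

/-- The Moebius function with real values. -/
def mA : ArithmeticFunction ℝ := ((ArithmeticFunction.moebius : ArithmeticFunction ℤ) :
  ArithmeticFunction ℝ)

theorem mA_apply (d : ℕ) : mA d = (ArithmeticFunction.moebius d : ℝ) := by
  simp [mA]

theorem mA_mult : mA.IsMultiplicative := ArithmeticFunction.isMultiplicative_moebius.intCast

/-- `∑_{d ∣ f, d ∣ m} μ(f/d) φ(d)` if `(h, f) = 1`. -/
def bA (m : ℤ) (h : ℕ) : ArithmeticFunction ℝ := (cA h).pmul (mA * gA m)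

theorem gA_mult (m : ℤ) : (gA m).IsMultiplicative := by
  rw [IsMultiplicative.iff_ne_zero]
  refine ⟨by simp [gA], ?_⟩
  intro a b ha hb hab
  simp only [gA, ArithmeticFunction.coe_mk]
  have h1 : ((a * b : ℕ) : ℤ) ∣ m ↔ (a : ℤ) ∣ m ∧ (b : ℤ) ∣ m := by
    constructor
    · intro h
      push_cast at h
      exact ⟨(dvd_mul_right _ _).trans h, (dvd_mul_left _ _).trans h⟩
    · rintro ⟨h2, h3⟩
      push_cast
      exact (Nat.isCoprime_iff_coprime.mpr hab).mul_dvd h2 h3
  rw [Nat.totient_mul hab]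
  by_cases h2 : (a : ℤ) ∣ m
  · by_cases h3 : (b : ℤ) ∣ m
    · rw [if_pos (h1.mpr ⟨h2, h3⟩), if_pos h2, if_pos h3]
      push_cast
      ring
    · rw [if_neg (fun h => h3 (h1.mp h).2), if_neg h3, mul_zero]
  · rw [if_neg (fun h => h2 (h1.mp h).1), if_neg h2, zero_mul]

theorem cA_mult (h : ℕ) : (cA h).IsMultiplicative := by
  rw [IsMultiplicative.iff_ne_zero]
  refine ⟨by simp [cA], ?_⟩
  intro a b ha hb hab
  simp only [cA, ArithmeticFunction.coe_mk]
  rw [if_neg ha, if_neg hb, if_neg (mul_ne_zero ha hb)]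
  by_cases h2 : h.Coprime a
  · by_cases h3 : h.Coprime b
    · rw [if_pos (Nat.Coprime.mul_right h2 h3), if_pos h2, if_pos h3, mul_one]
    · rw [if_neg (fun h' => h3 (Nat.Coprime.coprime_mul_left_right h')), if_neg h3, mul_zero]
  · rw [if_neg (fun h' => h2 (Nat.Coprime.coprime_mul_right_right h')), if_neg h2, zero_mul]

theorem iA_mult : iA.IsMultiplicative := by
  rw [IsMultiplicative.iff_ne_zero]
  refine ⟨by simp [iA], ?_⟩
  intro a b ha hb hab
  simp only [iA, ArithmeticFunction.coe_mk]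
  rw [Nat.totient_mul hab]
  push_cast
  rw [mul_div_mul_comm]

theorem wA_mult (h : ℕ) : (wA h).IsMultiplicative := by
  rw [IsMultiplicative.iff_ne_zero]
  refine ⟨by simp [wA, cc_one], ?_⟩
  intro a b ha hb hab
  simp only [wA, ArithmeticFunction.coe_mk]
  rw [Nat.totient_mul hab, cc_mul a b hab,
    ArithmeticFunction.isMultiplicative_moebius.map_mul_of_coprime hab]
  push_cast
  rw [← mul_div_mul_comm]
  ring

theorem ccA_mult (m : ℤ) : (ccA m).IsMultiplicative := by
  rw [IsMultiplicative.iff_ne_zero]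
  refine ⟨by simp [ccA, cc_one], ?_⟩
  intro a b ha hb hab
  simp only [ccA, ArithmeticFunction.coe_mk]
  exact cc_mul a b hab m

theorem bA_mult (m : ℤ) (h : ℕ) : (bA m h).IsMultiplicative :=
  (cA_mult h).pmul (mA_mult.mul (gA_mult m))

/-- The primitive sums are given by Moebius inversion. -/
theorem P_eq {σ : ℤ} (hσ : σ = 1 ∨ σ = -1) {n h f : ℕ} (hf : 1 ≤ f) (hn : n.Coprime f) :
    P σ n h f = ((bA ((n : ℤ) + σ * h) h f : ℝ) : ℂ) := by
  have hf0 : f ≠ 0 := by omega
  by_cases hh : h.Coprime f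
  · have key := (ArithmeticFunction.sum_eq_iff_sum_mul_moebius_eq_on
      (f := fun k => P σ n h k)
      (g := fun k => if (k : ℤ) ∣ (n : ℤ) + σ * h then (k.totient : ℂ) else 0)
      {k : ℕ | n.Coprime k ∧ h.Coprime k}
      (fun a b hab hb => ⟨Nat.Coprime.coprime_dvd_right hab hb.1,
        Nat.Coprime.coprime_dvd_right hab hb.2⟩)).mp
      (fun k hk hk2 => sum_P hσ hk hk2.1 hk2.2) f hf ⟨hn, hh⟩
    rw [← key]
    unfold bA
    rw [ArithmeticFunction.pmul_apply, ArithmeticFunction.mul_apply]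
    simp only [cA, ArithmeticFunction.coe_mk, if_neg hf0, if_pos hh, one_mul]
    rw [Complex.ofReal_sum]
    refine sum_congr rfl fun x _ => ?_
    rw [mA_apply]
    simp only [gA, ArithmeticFunction.coe_mk]
    split_ifs <;> push_cast <;> ring
  · unfold bA
    rw [ArithmeticFunction.pmul_apply]
    simp only [cA, ArithmeticFunction.coe_mk, if_neg hf0, if_neg hh, zero_mul, Complex.ofReal_zero]
    unfold P
    refine sum_eq_zero fun χ hχ => ?_
    rw [pc_zero hχ hh, _root_.map_zero, mul_zero]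

/-- The right side. -/
def rA (m : ℤ) (h : ℕ) : ArithmeticFunction ℝ := wA h * iA.pmul (bA m h)

theorem rA_mult (m : ℤ) (h : ℕ) : (rA m h).IsMultiplicative :=
  (wA_mult h).mul (iA_mult.pmul (bA_mult m h))

theorem sum_divisors_prime {p : ℕ} (hp : p.Prime) (F G : ArithmeticFunction ℝ) :
    (F * G) p = F p * G 1 + F 1 * G p := by
  rw [ArithmeticFunction.mul_apply, Nat.sum_divisorsAntidiagonal (fun a b => F a * G b),
    Nat.Prime.sum_divisors hp, Nat.div_self hp.pos, Nat.div_one]

theorem local_eq {n h p : ℕ} {σ : ℤ} (hp : p.Prime) (hn : n.Coprime p) :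
    ccA ((n : ℤ) + σ * h) p = rA ((n : ℤ) + σ * h) h p := by
  set m : ℤ := (n : ℤ) + σ * h with hm
  have hpR : (2 : ℝ) ≤ p := by exact_mod_cast hp.two_le
  have hp1 : (p : ℝ) - 1 ≠ 0 := by linarith
  have hp0 : p ≠ 0 := hp.ne_zero
  have htot : ((p.totient : ℕ) : ℝ) = (p : ℝ) - 1 := by
    rw [Nat.totient_prime hp]
    have := hp.one_le
    push_cast [Nat.cast_sub this]
    ring
  have h1 : ccA m p = (if (p : ℤ) ∣ m then (p : ℝ) else 0) - 1 := cc_prime p hp m
  have hmu : ((ArithmeticFunction.moebius p : ℤ) : ℝ) = -1 := by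
    rw [ArithmeticFunction.moebius_apply_prime hp]
    norm_num
  have h2 : wA h p = -((if (p : ℤ) ∣ (h : ℤ) then (p : ℝ) else 0) - 1) / ((p : ℝ) - 1) := by
    simp only [wA, ArithmeticFunction.coe_mk]
    rw [cc_prime p hp, hmu, htot]
    ring
  have h3 : (mA * gA m) p = (if (p : ℤ) ∣ m then (p : ℝ) - 1 else 0) - 1 := by
    rw [sum_divisors_prime hp, mA_apply, mA_apply, hmu]
    simp only [gA, ArithmeticFunction.coe_mk, ArithmeticFunction.moebius_apply_one, htot]
    simp
    ring
  have h4 : iA p = p / ((p : ℝ) - 1) := by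
    simp only [iA, ArithmeticFunction.coe_mk, htot]
  have h5 : cA h p = if p ∣ h then 0 else 1 := by
    simp only [cA, ArithmeticFunction.coe_mk, if_neg hp0]
    by_cases hd : p ∣ h
    · rw [if_pos hd, if_neg]
      intro hc
      exact (Nat.Prime.coprime_iff_not_dvd hp).mp hc.symm hd
    · rw [if_neg hd, if_pos]
      exact ((Nat.Prime.coprime_iff_not_dvd hp).mpr hd).symm
  have h6 : rA m h p = wA h p + iA p * (cA h p * (mA * gA m) p) := by
    unfold rA
    rw [sum_divisors_prime hp, (wA_mult h).map_one, (iA_mult.pmul (bA_mult m h)).map_one]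
    unfold bA
    rw [ArithmeticFunction.pmul_apply, ArithmeticFunction.pmul_apply]
    ring
  rw [h6, h1, h2, h3, h4, h5]
  have hdz : ((p : ℤ) ∣ (h : ℤ)) ↔ p ∣ h := Int.natCast_dvd_natCast
  by_cases hd : p ∣ h
  · have hnm : ¬ (p : ℤ) ∣ m := by
      intro hpm
      have h7 : (p : ℤ) ∣ σ * h := Dvd.dvd.mul_left (hdz.mpr hd) σ
      have h8 : (p : ℤ) ∣ (n : ℤ) := by
        have := dvd_sub hpm h7
        rw [hm] at this
        simpa using this
      have h9 : p ∣ n := Int.natCast_dvd_natCast.mp h8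
      exact (Nat.Prime.coprime_iff_not_dvd hp).mp hn.symm h9
    rw [if_neg hnm, if_pos (hdz.mpr hd), if_pos hd]
    field_simp
    ring
  · rw [if_neg (fun h' => hd (hdz.mp h')), if_neg hd]
    split_ifs
    · field_simp
      ring
    · field_simp
      ring

end StarAux

open StarAux

theorem star (r n h : ℕ) (σ : ℤ) (hσ : σ = 1 ∨ σ = -1) (hr : Squarefree r) (hn : n.Coprime r) :
    ((cc r ((n : ℤ) + σ * h) : ℝ) : ℂ) = ∑ f ∈ r.divisors,
      ((((ArithmeticFunction.moebius (r / f) : ℝ) * cc (r / f) h / (r / f).totient) *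
        ((f : ℝ) / f.totient) : ℝ) : ℂ) *
        ∑ χ ∈ pc f, uu σ f χ * χ n * conj (χ h) := by
  have h1 : ccA ((n : ℤ) + σ * h) r = rA ((n : ℤ) + σ * h) h r := by
    rw [← (ccA_mult _).prod_primeFactors hr, ← (rA_mult _ _).prod_primeFactors hr]
    refine prod_congr rfl fun p hp => ?_
    have hpp := Nat.prime_of_mem_primeFactors hp
    exact local_eq hpp (Nat.Coprime.coprime_dvd_right (Nat.dvd_of_mem_primeFactors hp) hn)
  have h2 : cc r ((n : ℤ) + σ * h) = rA ((n : ℤ) + σ * h) h r := h1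
  rw [h2]
  unfold rA
  rw [ArithmeticFunction.mul_apply,
    Nat.sum_divisorsAntidiagonal' (fun a b => wA h a * (iA.pmul (bA ((n : ℤ) + σ * h) h)) b),
    Complex.ofReal_sum]
  refine sum_congr rfl fun f hf => ?_
  have hfr : f ∣ r := (Nat.mem_divisors.mp hf).1
  have hf1 : 1 ≤ f := Nat.pos_of_mem_divisors hf
  have h3 := P_eq hσ hf1 (Nat.Coprime.coprime_dvd_right hfr hn) (h := h)
  unfold P at h3
  rw [h3, ArithmeticFunction.pmul_apply]
  simp only [wA, iA, ArithmeticFunction.coe_mk]
  push_cast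
  ring

end Pool.Agent.M848.SV
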