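import Pool.Agent.Lib.MP_848d44_nt.SV.Base
import Pool.Agent.Lib.MP_848d44_nt.F.L1p

/-!
# MP_848d44_nt, project SV, module TriA: weighted large sieve and weighted bilinear sums
-/

set_option autoImplicit false

noncomputable section

namespace Pool.Agent.M848.SV.TriAux

open Finset MP848

variable {ι : Type*} [Fintype ι] {f : ι → ℕ → ℂ} {B D P : ℝ}

/-- The weighted large sieve. -/
theorem wls (F : Fam f B D P) (u v K : ℕ) (hvK : v ≤ K) (c : ℕ → ℂ) (a T : ℕ) (τ : ℝ)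
    (hτ : ∀ l : ℕ, 0 < l → l ≤ (a + T) * K → (l.divisors.card : ℝ) ≤ τ) :
    ∑ i, (‖∑ k ∈ Ioc u v, f i k‖ * ‖∑ m ∈ Ioc a (a + T), c m * f i m‖) ^ 2 ≤
      B * (D + (((a + T) * K : ℕ) : ℝ)) * (τ * (K * ∑ m ∈ Ioc a (a + T), ‖c m‖ ^ 2)) := by
  classical
  set Z := (a + T) * K with hZ
  set R : Finset (ℕ × ℕ) := Ioc a (a + T) ×ˢ Ioc u v with hR
  set c' : ℕ → ℂ := fun l => ∑ p ∈ R.filter (fun p => p.1 * p.2 = l), c p.1 with hc'
  have hmem : ∀ p ∈ R, 0 < p.1 ∧ 0 < p.2 ∧ p.1 * p.2 ≤ Z := by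
    rintro ⟨m, k⟩ hp
    rw [hR, Finset.mem_product, Finset.mem_Ioc, Finset.mem_Ioc] at hp
    refine ⟨by omega, by omega, Nat.mul_le_mul hp.1.2 (hp.2.2.trans hvK)⟩
  have hmaps : ∀ p ∈ R, p.1 * p.2 ∈ Ioc 0 Z := by
    intro p hp
    obtain ⟨h1, h2, h3⟩ := hmem p hp
    rw [Finset.mem_Ioc]
    exact ⟨Nat.mul_pos h1 h2, h3⟩
  have h1 : ∀ i, ‖∑ k ∈ Ioc u v, f i k‖ * ‖∑ m ∈ Ioc a (a + T), c m * f i m‖ =
      ‖∑ l ∈ Ioc 0 (0 + Z), c' l * f i l‖ := by
    intro i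
    rw [← norm_mul, mul_comm, Finset.sum_mul_sum, ← Finset.sum_product', zero_add,
      ← Finset.sum_fiberwise_of_maps_to hmaps]
    congr 1
    refine Finset.sum_congr rfl fun l _ => ?_
    simp only [hc']
    rw [Finset.sum_mul]
    refine Finset.sum_congr rfl fun p hp => ?_
    rw [Finset.mem_filter] at hp
    rw [← hp.2, F.mul]
    ring
  simp_rw [h1]
  refine (F.ls c' 0 Z).trans ?_
  have hB : 0 ≤ B * (D + (Z : ℝ)) :=
    mul_nonneg (zero_le_one.trans F.oneB) (add_nonneg F.nonnegD (Nat.cast_nonneg Z))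
  refine mul_le_mul_of_nonneg_left ?_ hB
  rw [zero_add]
  -- Cauchy's inequality in the fibres
  have h2 : ∀ l ∈ Ioc 0 Z, ‖c' l‖ ^ 2 ≤
      τ * ∑ p ∈ R.filter (fun p => p.1 * p.2 = l), ‖c p.1‖ ^ 2 := by
    intro l hl
    rw [Finset.mem_Ioc] at hl
    have h3 : ‖c' l‖ ≤ ∑ p ∈ R.filter (fun p => p.1 * p.2 = l), ‖c p.1‖ := norm_sum_le _ _
    have h4 : ‖c' l‖ ^ 2 ≤ (∑ p ∈ R.filter (fun p => p.1 * p.2 = l), ‖c p.1‖) ^ 2 :=
      pow_le_pow_left₀ (norm_nonneg _) h3 2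
    have h5 := sq_sum_le_card_mul_sum_sq (s := R.filter (fun p => p.1 * p.2 = l))
      (f := fun p : ℕ × ℕ => ‖c p.1‖)
    refine h4.trans (h5.trans ?_)
    refine mul_le_mul_of_nonneg_right ?_ (Finset.sum_nonneg fun p _ => by positivity)
    refine le_trans ?_ (hτ l hl.1 hl.2)
    have h6 : (R.filter (fun p => p.1 * p.2 = l)).card ≤ l.divisors.card := by
      refine Finset.card_le_card_of_injOn (fun p => p.1) ?_ ?_
      · intro p hp
        rw [Finset.mem_coe, Finset.mem_filter] at hp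
        rw [Finset.mem_coe, Nat.mem_divisors]
        exact ⟨⟨p.2, hp.2.symm⟩, by omega⟩
      · rintro ⟨m, k⟩ hp ⟨m', k'⟩ hp' h
        rw [Finset.mem_coe, Finset.mem_filter] at hp hp'
        simp only at h hp hp'
        subst h
        have hm := (hmem _ hp.1).1
        simp only at hm
        rw [Nat.eq_of_mul_eq_mul_left hm (hp.2.trans hp'.2.symm)]
    exact_mod_cast h6
  refine (Finset.sum_le_sum h2).trans ?_
  rw [← Finset.mul_sum, Finset.sum_fiberwise_of_maps_to hmaps]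
  have hτ0 : 0 ≤ τ ∨ Z = 0 := by
    rcases Nat.eq_zero_or_pos Z with h | h
    · exact Or.inr h
    · exact Or.inl ((Nat.cast_nonneg _).trans (hτ Z h le_rfl))
  rw [hR, Finset.sum_product]
  have h3 : ∑ x ∈ Ioc a (a + T), ∑ y ∈ Ioc u v, ‖c (x, y).1‖ ^ 2 ≤
      K * ∑ m ∈ Ioc a (a + T), ‖c m‖ ^ 2 := by
    simp only [Finset.sum_const, Nat.card_Ioc, nsmul_eq_mul]
    rw [← Finset.mul_sum]
    refine mul_le_mul_of_nonneg_right ?_ (Finset.sum_nonneg fun p _ => by positivity)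
    exact_mod_cast (Nat.sub_le v u).trans hvK
  rcases hτ0 with h | h
  · exact mul_le_mul_of_nonneg_left h3 h
  · have h4 : a + T = 0 ∨ K = 0 := Nat.mul_eq_zero.1 h
    rcases h4 with h4 | h4
    · have : Ioc a (a + T) = ∅ := by
        rw [h4]
        simp
      rw [this]
      simp
    · have hv : v = 0 := by omega
      subst hv
      simp [h4]

/-- The weighted large sieve for the fibres of a function. -/
theorem wls_fibre (F : Fam f B D P) (u v K : ℕ) (hvK : v ≤ K) (c : ℕ → ℂ) (a T : ℕ) (τ : ℝ)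
    (hτ0 : 0 ≤ τ)
    (hτ : ∀ l : ℕ, 0 < l → l ≤ (a + T) * K → (l.divisors.card : ℝ) ≤ τ) (g : ℕ → ℕ)
    (J : Finset ℕ) :
    ∑ i, ∑ j ∈ J, (‖∑ k ∈ Ioc u v, f i k‖ *
      ‖∑ m ∈ (Ioc a (a + T)).filter (fun m => g m = j), c m * f i m‖) ^ 2 ≤
      B * (D + (((a + T) * K : ℕ) : ℝ)) * (τ * (K * ∑ m ∈ Ioc a (a + T), ‖c m‖ ^ 2)) := by
  rw [Finset.sum_comm]
  have h1 : ∀ j ∈ J, ∑ i, (‖∑ k ∈ Ioc u v, f i k‖ *
      ‖∑ m ∈ (Ioc a (a + T)).filter (fun m => g m = j), c m * f i m‖) ^ 2 ≤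
      B * (D + (((a + T) * K : ℕ) : ℝ)) *
        (τ * (K * ∑ m ∈ (Ioc a (a + T)).filter (fun m => g m = j), ‖c m‖ ^ 2)) := by
    intro j _
    have h := wls F u v K hvK (fun m => if g m = j then c m else 0) a T τ hτ
    have e1 : ∀ i, ∑ m ∈ Ioc a (a + T), (if g m = j then c m else 0) * f i m =
        ∑ m ∈ (Ioc a (a + T)).filter (fun m => g m = j), c m * f i m := by
      intro i
      rw [Finset.sum_filter]
      refine Finset.sum_congr rfl fun v _ => ?_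
      split_ifs <;> simp
    have e2 : ∑ m ∈ Ioc a (a + T), ‖(if g m = j then c m else 0)‖ ^ 2 =
        ∑ m ∈ (Ioc a (a + T)).filter (fun m => g m = j), ‖c m‖ ^ 2 := by
      rw [Finset.sum_filter]
      refine Finset.sum_congr rfl fun v _ => ?_
      split_ifs <;> simp
    simp only [e1, e2] at h
    exact h
  refine (Finset.sum_le_sum h1).trans ?_
  rw [← Finset.mul_sum, ← Finset.mul_sum, ← Finset.mul_sum]
  have hB : 0 ≤ B * (D + (((a + T) * K : ℕ) : ℝ)) :=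
    mul_nonneg (zero_le_one.trans F.oneB) (add_nonneg F.nonnegD (Nat.cast_nonneg _))
  refine mul_le_mul_of_nonneg_left (mul_le_mul_of_nonneg_left
    (mul_le_mul_of_nonneg_left ?_ (Nat.cast_nonneg _)) hτ0) hB
  exact Finset.sum_fiberwise_le_sum_of_sum_fiber_nonneg (s := Ioc a (a + T)) (t := J)
    (g := g) (f := fun v => ‖c v‖ ^ 2) (fun y _ => Finset.sum_nonneg fun v _ => by positivity)

/-- Weighted bilinear sums with the condition `m k ≤ y`. -/
theorem wbil (F : Fam f B D P) (wA wB : ι → ℝ) (hwA : ∀ i, 0 ≤ wA i) (hwB : ∀ i, 0 ≤ wB i)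
    (a b : ℕ → ℂ) (M ΔM K ΔK y L : ℕ) (hL : K + ΔK + 1 < 2 ^ L) (XA XB : ℝ)
    (hXA : ∀ (a' : ℕ → ℂ) (g : ℕ → ℕ) (J : Finset ℕ), (∀ m, ‖a' m‖ ≤ ‖a m‖) →
      ∑ i, ∑ j ∈ J, (wA i *
        ‖∑ m ∈ (Ioc M (M + ΔM)).filter (fun m => g m = j), a' m * f i m‖) ^ 2 ≤ XA)
    (hXB : ∀ (g : ℕ → ℕ) (J : Finset ℕ),
      ∑ i, ∑ j ∈ J, (wB i *
        ‖∑ k ∈ (Ioc K (K + ΔK)).filter (fun k => g k = j), b k * f i k‖) ^ 2 ≤ XB) :
    ∑ i, wA i * wB i * ‖∑ m ∈ Ioc M (M + ΔM),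
      ∑ k ∈ (Ioc K (K + ΔK)).filter (fun k => m * k ≤ y), a m * b k * f i (m * k)‖ ≤
      L * (Real.sqrt XA * Real.sqrt XB) := by
  classical
  set z : ℕ → ℕ := fun m => min (y / m) (K + ΔK) + 1 with hz
  have hzle : ∀ m, z m ≤ K + ΔK + 1 := by
    intro m
    simp only [hz]
    have := min_le_right (y / m) (K + ΔK)
    omega
  have hzL : ∀ m, z m < 2 ^ L := fun m => lt_of_le_of_lt (hzle m) hL
  set J : Finset ℕ := range (K + ΔK + 2) with hJ
  -- the pieces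
  set a' : ℕ → ℕ → ℂ := fun l m => if (z m / 2 ^ l) % 2 = 1 then a m else 0 with ha'
  set A : ℕ → ℕ → ι → ℂ := fun l j i =>
    ∑ m ∈ (Ioc M (M + ΔM)).filter (fun m => z m / 2 ^ l = j), a' l m * f i m with hA
  set Bb : ℕ → ℕ → ι → ℂ := fun l j i =>
    ∑ k ∈ (Ioc K (K + ΔK)).filter (fun k => k / 2 ^ l + 1 = j), b k * f i k with hBb
  have hdecomp : ∀ i, ∑ m ∈ Ioc M (M + ΔM), ∑ k ∈ (Ioc K (K + ΔK)).filter (fun k => m * k ≤ y),
      a m * b k * f i (m * k) = ∑ l ∈ range L, ∑ j ∈ J, A l j i * Bb l j i := by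
    intro i
    have e1 : ∀ m ∈ Ioc M (M + ΔM), ∑ k ∈ (Ioc K (K + ΔK)).filter (fun k => m * k ≤ y),
        a m * b k * f i (m * k) = ∑ l ∈ range L, ∑ k ∈ Ioc K (K + ΔK),
          if (z m / 2 ^ l) % 2 = 1 ∧ k / 2 ^ l + 1 = z m / 2 ^ l then
            (a m * f i m) * (b k * f i k) else 0 := by
      intro m hm
      rw [Finset.sum_filter, Finset.sum_comm]
      refine Finset.sum_congr rfl fun k hk => ?_
      have hm0 : 0 < m := lt_of_le_of_lt (Nat.zero_le _) (Finset.mem_Ioc.1 hm).1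
      have hkK : k ≤ K + ΔK := (Finset.mem_Ioc.1 hk).2
      have hiff : m * k ≤ y ↔ k < z m := by
        simp only [hz]
        rw [Nat.lt_succ_iff, le_min_iff, Nat.le_div_iff_mul_le hm0, mul_comm k m]
        exact ⟨fun h => ⟨h, hkK⟩, fun h => h.1⟩
      have hs := sep_identity L (z m) k (hzL m)
      have e3 : (if m * k ≤ y then a m * b k * f i (m * k) else 0) =
          (if k < z m then (1 : ℂ) else 0) * ((a m * f i m) * (b k * f i k)) := by
        by_cases h : k < z m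
        · rw [if_pos h, if_pos (hiff.2 h), F.mul]; ring
        · rw [if_neg h, if_neg (fun h' => h (hiff.1 h'))]; ring
      rw [e3, hs, Finset.sum_mul]
      refine Finset.sum_congr rfl fun l _ => ?_
      split_ifs <;> ring
    rw [Finset.sum_congr rfl e1, Finset.sum_comm]
    refine Finset.sum_congr rfl fun l _ => ?_
    -- fixed l
    have e4 : ∀ j ∈ J, A l j i * Bb l j i = ∑ m ∈ Ioc M (M + ΔM), ∑ k ∈ Ioc K (K + ΔK),
        if z m / 2 ^ l = j ∧ k / 2 ^ l + 1 = j then (a' l m * f i m) * (b k * f i k) else 0 := by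
      intro j _
      simp only [hA, hBb]
      rw [Finset.sum_filter, Finset.sum_filter, Finset.sum_mul_sum]
      refine Finset.sum_congr rfl fun m _ => Finset.sum_congr rfl fun k _ => ?_
      by_cases h1 : z m / 2 ^ l = j <;> by_cases h2 : k / 2 ^ l + 1 = j <;> simp [h1, h2]
    rw [Finset.sum_congr rfl e4]
    symm
    rw [Finset.sum_comm]
    refine Finset.sum_congr rfl fun m _ => ?_
    rw [Finset.sum_comm]
    refine Finset.sum_congr rfl fun k _ => ?_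
    have hmem : z m / 2 ^ l ∈ J := by
      rw [hJ, Finset.mem_range]
      have := Nat.div_le_self (z m) (2 ^ l)
      have := hzle m
      omega
    rw [Finset.sum_eq_single (z m / 2 ^ l)]
    · simp only [ha', true_and]
      by_cases h1 : z m / 2 ^ l % 2 = 1 <;> by_cases h2 : k / 2 ^ l + 1 = z m / 2 ^ l <;>
        simp [h1, h2]
    · intro j _ hj
      rw [if_neg]
      rintro ⟨h1, -⟩
      exact hj h1.symm
    · intro h
      exact absurd hmem h
  have hstep : ∀ l ∈ range L, ∑ i, ∑ j ∈ J, (wA i * ‖A l j i‖) * (wB i * ‖Bb l j i‖) ≤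
      Real.sqrt XA * Real.sqrt XB := by
    intro l _
    have h1 := Real.sum_mul_le_sqrt_mul_sqrt (univ ×ˢ J : Finset (ι × ℕ))
      (fun p => wA p.1 * ‖A l p.2 p.1‖) (fun p => wB p.1 * ‖Bb l p.2 p.1‖)
    rw [Finset.sum_product, Finset.sum_product, Finset.sum_product] at h1
    refine h1.trans ?_
    have hA2 : ∑ i, ∑ j ∈ J, (wA i * ‖A l j i‖) ^ 2 ≤ XA := by
      refine hXA (a' l) (fun m => z m / 2 ^ l) J fun m => ?_
      simp only [ha']
      split_ifs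
      · exact le_rfl
      · rw [norm_zero]
        exact norm_nonneg _
    have hB2 : ∑ i, ∑ j ∈ J, (wB i * ‖Bb l j i‖) ^ 2 ≤ XB :=
      hXB (fun k => k / 2 ^ l + 1) J
    exact mul_le_mul (Real.sqrt_le_sqrt hA2) (Real.sqrt_le_sqrt hB2)
      (Real.sqrt_nonneg _) (Real.sqrt_nonneg _)
  calc ∑ i, wA i * wB i * ‖∑ m ∈ Ioc M (M + ΔM),
        ∑ k ∈ (Ioc K (K + ΔK)).filter (fun k => m * k ≤ y), a m * b k * f i (m * k)‖
      = ∑ i, wA i * wB i * ‖∑ l ∈ range L, ∑ j ∈ J, A l j i * Bb l j i‖ := by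
        simp_rw [hdecomp]
    _ ≤ ∑ i, ∑ l ∈ range L, ∑ j ∈ J, (wA i * ‖A l j i‖) * (wB i * ‖Bb l j i‖) := by
        refine Finset.sum_le_sum fun i _ => ?_
        have hw : 0 ≤ wA i * wB i := mul_nonneg (hwA i) (hwB i)
        refine (mul_le_mul_of_nonneg_left ((norm_sum_le _ _).trans
          (Finset.sum_le_sum fun l _ => (norm_sum_le _ _).trans
            (Finset.sum_le_sum fun j _ => (norm_mul_le _ _)))) hw).trans (le_of_eq ?_)
        rw [Finset.mul_sum]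
        refine Finset.sum_congr rfl fun l _ => ?_
        rw [Finset.mul_sum]
        refine Finset.sum_congr rfl fun j _ => ?_
        ring
    _ = ∑ l ∈ range L, ∑ i, ∑ j ∈ J, (wA i * ‖A l j i‖) * (wB i * ‖Bb l j i‖) :=
        Finset.sum_comm
    _ ≤ ∑ l ∈ range L, Real.sqrt XA * Real.sqrt XB := Finset.sum_le_sum hstep
    _ = _ := by rw [Finset.sum_const, Finset.card_range, nsmul_eq_mul]

end Pool.Agent.M848.SV.TriAux
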