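import Pool.Agent.Lib.MP_848d44_nt.SV.TriA

/-!
# MP_848d44_nt, project SV, module TriB: weighted sums of type II and Vaughan's identity
-/

set_option autoImplicit false

noncomputable section

namespace Pool.Agent.M848.SV.TriAux

open Finset MP848

variable {ι : Type*} [Fintype ι] {f : ι → ℕ → ℂ} {B D P : ℝ}

/-- The bound for a block, `S` the short side. -/
def EE (D N K U : ℝ) : ℝ :=
  Real.sqrt (N * K) * D + Real.sqrt D * (N * Real.sqrt (K / U)) +
    2 * (Real.sqrt D * (Real.sqrt (N * K) * Real.sqrt (K * Real.sqrt N))) + 2 * (N * K)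

theorem EE_nonneg {D N K U : ℝ} (hD : 0 ≤ D) (hN : 0 ≤ N) (hK : 0 ≤ K) : 0 ≤ EE D N K U := by
  unfold EE
  positivity

theorem real_block {D S L N K U : ℝ} (hD : 0 ≤ D) (hS : 0 ≤ S) (hL : 0 ≤ L) (hK : 0 ≤ K)
    (hU : 0 < U) (hN : 0 ≤ N) (hSL : S * L ≤ N) (hSN : S ≤ Real.sqrt N) (hLU : L ≤ N / U) :
    Real.sqrt ((D + 2 * S * K) * (K * S)) * Real.sqrt ((D + L) * L) ≤ EE D N K U := by
  rw [← Real.sqrt_mul (by positivity)]
  apply Real.sqrt_le_iff.2
  refine ⟨EE_nonneg hD hN hK, ?_⟩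
  have h1 : (D + 2 * S * K) * (K * S) * ((D + L) * L) =
      K * (S * L) * (D ^ 2 + D * L + 2 * (S * K) * D + 2 * (K * (S * L))) := by ring
  have h2 : K * (S * L) * (D ^ 2 + D * L + 2 * (S * K) * D + 2 * (K * (S * L))) ≤
      K * N * (D ^ 2 + D * (N / U) + 2 * (Real.sqrt N * K) * D + 2 * (K * N)) := by
    gcongr
  rw [h1]
  refine h2.trans ?_
  have hs0 : 0 ≤ Real.sqrt (N * K) * D := by positivity
  have hs1 : 0 ≤ Real.sqrt D * (N * Real.sqrt (K / U)) := by positivity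
  have hs2 : 0 ≤ Real.sqrt D * (Real.sqrt (N * K) * Real.sqrt (K * Real.sqrt N)) := by positivity
  have hs3 : 0 ≤ N * K := by positivity
  have e0 : (Real.sqrt (N * K) * D) ^ 2 = K * N * D ^ 2 := by
    rw [mul_pow, Real.sq_sqrt (by positivity)]
    ring
  have e1 : (Real.sqrt D * (N * Real.sqrt (K / U))) ^ 2 = K * N * (D * (N / U)) := by
    rw [mul_pow, mul_pow, Real.sq_sqrt hD, Real.sq_sqrt (by positivity)]
    ring
  have e2 : (Real.sqrt D * (Real.sqrt (N * K) * Real.sqrt (K * Real.sqrt N))) ^ 2 =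
      K * N * (Real.sqrt N * K * D) := by
    rw [mul_pow, mul_pow, Real.sq_sqrt hD, Real.sq_sqrt (by positivity),
      Real.sq_sqrt (by positivity)]
    ring
  have e3 : (N * K) ^ 2 = K * N * (K * N) := by ring
  have h3 : K * N * (D ^ 2 + D * (N / U) + 2 * (Real.sqrt N * K) * D + 2 * (K * N)) =
      (Real.sqrt (N * K) * D) ^ 2 + (Real.sqrt D * (N * Real.sqrt (K / U))) ^ 2 +
        2 * (Real.sqrt D * (Real.sqrt (N * K) * Real.sqrt (K * Real.sqrt N))) ^ 2 +
        2 * (N * K) ^ 2 := by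
    rw [e0, e1, e2, e3]
    ring
  rw [h3, EE]
  set x0 := Real.sqrt (N * K) * D
  set x1 := Real.sqrt D * (N * Real.sqrt (K / U))
  set x2 := Real.sqrt D * (Real.sqrt (N * K) * Real.sqrt (K * Real.sqrt N))
  set x3 := N * K
  nlinarith [mul_nonneg hs0 hs1, mul_nonneg hs0 hs2, mul_nonneg hs0 hs3, mul_nonneg hs1 hs2,
    mul_nonneg hs1 hs3, mul_nonneg hs2 hs3, sq_nonneg x2, sq_nonneg x3]

/-- **Weighted type II sums.** -/
theorem wtypeII (F : Fam f B D P) (a b : ℕ → ℂ) (N U W y u v K : ℕ) (hU : 1 ≤ U)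
    (hWU : W * U ≤ N) (hy : y ≤ N) (hvK : v ≤ K) (α β τ : ℝ) (hα : 0 ≤ α) (hβ : 0 ≤ β)
    (hτ0 : 0 ≤ τ)
    (hτ : ∀ l : ℕ, 0 < l → l ≤ 2 * N * K → (l.divisors.card : ℝ) ≤ τ)
    (ha : ∀ m ≤ N, ‖a m‖ ≤ α)
    (hb : ∀ K ≤ N, ∑ k ∈ Ioc 0 K, ‖b k‖ ^ 2 ≤ β ^ 2 * K) :
    ∑ i, ‖∑ k ∈ Ioc u v, f i k‖ *
      ‖∑ m ∈ Ioc U W, a m * f i m * ∑ k ∈ Ioc 0 (y / m), b k * f i k‖ ≤
      lev N * (lev N * (B * (Real.sqrt τ * (α * β * EE D N K U)))) := by
  classical
  have hD := F.nonnegD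
  have hB0 : 0 ≤ B := zero_le_one.trans F.oneB
  have hNr : (0 : ℝ) ≤ N := Nat.cast_nonneg N
  have hKr : (0 : ℝ) ≤ K := Nat.cast_nonneg K
  have hE0 : 0 ≤ EE D N K U := EE_nonneg hD hNr hKr
  set a' : ℕ → ℂ := fun m => if m ≤ W then a m else 0 with ha'
  set J := lev N with hJ
  have hWN : W ≤ N := (Nat.le_mul_of_pos_right W hU).trans hWU
  have hWJ : W ≤ U * 2 ^ J := by
    have h1 : W < 2 ^ J := lt_of_le_of_lt (hWN.trans (Nat.le_succ N)) (lt_two_pow_lev N)
    exact h1.le.trans (Nat.le_mul_of_pos_left _ hU)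
  have ha'α : ∀ m, ‖a' m‖ ≤ α := by
    intro m
    simp only [ha']
    split_ifs with h
    · exact ha m (h.trans hWN)
    · rw [norm_zero]
      exact hα
  -- the blocks
  set S : ℕ → ι → ℂ := fun j i => ∑ m ∈ Ioc (U * 2 ^ j) (U * 2 ^ j + U * 2 ^ j),
    ∑ k ∈ (Ioc 0 (0 + N / (U * 2 ^ j))).filter (fun k => m * k ≤ y),
      a' m * b k * f i (m * k) with hS
  have hdec : ∀ i, ∑ m ∈ Ioc U W, a m * f i m * ∑ k ∈ Ioc 0 (y / m), b k * f i k =
      ∑ j ∈ range J, S j i := by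
    intro i
    have e1 : ∑ m ∈ Ioc U W, a m * f i m * ∑ k ∈ Ioc 0 (y / m), b k * f i k =
        ∑ m ∈ Ioc U (U * 2 ^ J), a' m * f i m * ∑ k ∈ Ioc 0 (y / m), b k * f i k := by
      have e2 : Ioc U W ⊆ Ioc U (U * 2 ^ J) := Finset.Ioc_subset_Ioc_right hWJ
      rw [← Finset.sum_subset e2]
      · refine Finset.sum_congr rfl fun m hm => ?_
        simp only [ha', if_pos (Finset.mem_Ioc.1 hm).2]
      · intro m hm hm'
        have : ¬ m ≤ W := fun h => hm' (Finset.mem_Ioc.2 ⟨(Finset.mem_Ioc.1 hm).1, h⟩)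
        simp [ha', this]
    rw [e1, sum_dyadic]
    refine Finset.sum_congr rfl fun j _ => ?_
    simp only [hS]
    refine Finset.sum_congr rfl fun m hm => ?_
    have hm1 := (Finset.mem_Ioc.1 hm).1
    have hm0 : 0 < m := lt_of_le_of_lt (Nat.zero_le _) hm1
    have hUj : 0 < U * 2 ^ j := by positivity
    have hset : (Ioc 0 (0 + N / (U * 2 ^ j))).filter (fun k => m * k ≤ y) = Ioc 0 (y / m) := by
      ext k
      simp only [Finset.mem_filter, Finset.mem_Ioc, zero_add]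
      rw [Nat.le_div_iff_mul_le hm0, Nat.le_div_iff_mul_le hUj, mul_comm m k]
      constructor
      · rintro ⟨⟨h1, _⟩, h2⟩
        exact ⟨h1, h2⟩
      · rintro ⟨h1, h2⟩
        exact ⟨⟨h1, (Nat.mul_le_mul_left k hm1.le).trans (h2.trans hy)⟩, h2⟩
    rw [hset, Finset.mul_sum]
    refine Finset.sum_congr rfl fun k _ => ?_
    rw [F.mul]
    ring
  have hblock : ∀ j ∈ range J, ∑ i, ‖∑ k ∈ Ioc u v, f i k‖ * ‖S j i‖ ≤
      lev N * (B * (Real.sqrt τ * (α * β * EE D N K U))) := by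
    intro j _
    set M := U * 2 ^ j with hM
    have hM0 : 0 < M := by positivity
    by_cases hMW : M < W
    swap
    · have : ∀ i, S j i = 0 := by
        intro i
        simp only [hS]
        refine Finset.sum_eq_zero fun m hm => Finset.sum_eq_zero fun k _ => ?_
        have : ¬ m ≤ W := by
          have := (Finset.mem_Ioc.1 hm).1
          omega
        simp [ha', this]
      simp only [this, norm_zero, mul_zero, Finset.sum_const_zero]
      positivity
    have hlevel : 0 + N / M + 1 < 2 ^ lev N :=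
      lt_of_le_of_lt (by have := Nat.div_le_self N M; omega) (lt_two_pow_lev N)
    have hMN : (M : ℝ) ≤ N / U := by
      rw [le_div_iff₀ (by exact_mod_cast hU)]
      exact_mod_cast (Nat.mul_le_mul_right U hMW.le).trans hWU
    have hMr : (0 : ℝ) < M := by exact_mod_cast hM0
    have hUr : (0 : ℝ) < U := by exact_mod_cast hU
    have hKd : ((N / M : ℕ) : ℝ) ≤ N / M := Nat.cast_div_le
    have hKN : ((N / M : ℕ) : ℝ) ≤ N / U := by
      refine hKd.trans ?_
      gcongr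
      exact_mod_cast Nat.le_mul_of_pos_right U (by positivity)
    have hMK : (M : ℝ) * ((N / M : ℕ) : ℝ) ≤ N := by
      exact_mod_cast Nat.mul_div_le N M
    have hsa : ∀ a2 : ℕ → ℂ, (∀ m, ‖a2 m‖ ≤ ‖a' m‖) →
        ∑ m ∈ Ioc M (M + M), ‖a2 m‖ ^ 2 ≤ α ^ 2 * M := by
      intro a2 ha2
      calc ∑ m ∈ Ioc M (M + M), ‖a2 m‖ ^ 2 ≤ ∑ m ∈ Ioc M (M + M), α ^ 2 := by
            refine Finset.sum_le_sum fun m _ => ?_
            exact pow_le_pow_left₀ (norm_nonneg _) ((ha2 m).trans (ha'α m)) 2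
        _ = α ^ 2 * M := by
            rw [Finset.sum_const, Nat.card_Ioc, nsmul_eq_mul, Nat.add_sub_cancel_left, mul_comm]
    have hsb : ∑ k ∈ Ioc 0 (0 + N / M), ‖b k‖ ^ 2 ≤ β ^ 2 * ((N / M : ℕ) : ℝ) := by
      rw [zero_add]
      exact hb (N / M) (Nat.div_le_self N M)
    by_cases hcase : M * M ≤ N
    · -- weight on the first factor
      have h1 := wbil F (fun i => ‖∑ k ∈ Ioc u v, f i k‖) (fun _ => 1) (fun i => norm_nonneg _)
        (fun _ => zero_le_one) a' b M M 0 (N / M) y (lev N) hlevel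
        (B * (D + 2 * M * K) * (τ * (K * (α ^ 2 * M))))
        (B * (D + ((N / M : ℕ) : ℝ)) * (β ^ 2 * ((N / M : ℕ) : ℝ))) (by
          intro a2 g J2 ha2
          refine (wls_fibre F u v K hvK a2 M M τ hτ0 (fun l hl hl2 => hτ l hl (hl2.trans ?_))
            g J2).trans ?_
          · have : M + M ≤ 2 * N := by omega
            exact Nat.mul_le_mul_right K this
          · have e : (((M + M) * K : ℕ) : ℝ) = 2 * M * K := by
              push_cast
              ring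
            rw [e]
            have := hsa a2 ha2
            gcongr) (by
          intro g J2
          simp only [one_mul]
          refine (F.ls_fibre b 0 (N / M) g J2).trans ?_
          gcongr)
      simp only [mul_one] at h1
      refine h1.trans ?_
      refine mul_le_mul_of_nonneg_left ?_ (Nat.cast_nonneg _)
      have hSN : (M : ℝ) ≤ Real.sqrt N := by
        apply Real.le_sqrt_of_sq_le
        rw [pow_two]
        exact_mod_cast hcase
      have h2 := real_block (D := D) (S := M) (L := ((N / M : ℕ) : ℝ)) (N := N) (K := K) (U := U)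
        hD hMr.le (Nat.cast_nonneg _) hKr hUr hNr hMK hSN hKN
      have e1 : Real.sqrt (B * (D + 2 * M * K) * (τ * (K * (α ^ 2 * M)))) =
          Real.sqrt B * (Real.sqrt τ * (α * Real.sqrt ((D + 2 * M * K) * (K * M)))) := by
        rw [show B * (D + 2 * (M : ℝ) * K) * (τ * (K * (α ^ 2 * M))) =
          B * (τ * (α ^ 2 * ((D + 2 * M * K) * (K * M)))) by ring, Real.sqrt_mul hB0,
          Real.sqrt_mul hτ0, Real.sqrt_mul (sq_nonneg α), Real.sqrt_sq hα]
      have e2 : Real.sqrt (B * (D + ((N / M : ℕ) : ℝ)) * (β ^ 2 * ((N / M : ℕ) : ℝ))) =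
          Real.sqrt B * (β * Real.sqrt ((D + ((N / M : ℕ) : ℝ)) * ((N / M : ℕ) : ℝ))) := by
        rw [show B * (D + ((N / M : ℕ) : ℝ)) * (β ^ 2 * ((N / M : ℕ) : ℝ)) =
          B * (β ^ 2 * ((D + ((N / M : ℕ) : ℝ)) * ((N / M : ℕ) : ℝ))) by ring,
          Real.sqrt_mul hB0, Real.sqrt_mul (sq_nonneg β), Real.sqrt_sq hβ]
      rw [e1, e2]
      have e3 : Real.sqrt B * (Real.sqrt τ * (α * Real.sqrt ((D + 2 * M * K) * (K * M)))) *
          (Real.sqrt B * (β * Real.sqrt ((D + ((N / M : ℕ) : ℝ)) * ((N / M : ℕ) : ℝ)))) =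
          (Real.sqrt B * Real.sqrt B) * (Real.sqrt τ * (α * β *
            (Real.sqrt ((D + 2 * M * K) * (K * M)) *
              Real.sqrt ((D + ((N / M : ℕ) : ℝ)) * ((N / M : ℕ) : ℝ))))) := by ring
      rw [e3, Real.mul_self_sqrt hB0]
      gcongr
    · -- weight on the second factor
      rw [not_le] at hcase
      have h1 := wbil F (fun _ => 1) (fun i => ‖∑ k ∈ Ioc u v, f i k‖) (fun _ => zero_le_one)
        (fun i => norm_nonneg _) a' b M M 0 (N / M) y (lev N) hlevel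
        (B * (D + M) * (α ^ 2 * M))
        (B * (D + 2 * ((N / M : ℕ) : ℝ) * K) * (τ * (K * (β ^ 2 * ((N / M : ℕ) : ℝ))))) (by
          intro a2 g J2 ha2
          simp only [one_mul]
          refine (F.ls_fibre a2 M M g J2).trans ?_
          have := hsa a2 ha2
          gcongr) (by
          intro g J2
          refine (wls_fibre F u v K hvK b 0 (N / M) τ hτ0
            (fun l hl hl2 => hτ l hl (hl2.trans ?_)) g J2).trans ?_
          · have : 0 + N / M ≤ 2 * N := by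
              have := Nat.div_le_self N M
              omega
            exact Nat.mul_le_mul_right K this
          · have e : (((0 + N / M) * K : ℕ) : ℝ) = ((N / M : ℕ) : ℝ) * K := by
              push_cast
              ring
            rw [e]
            have h3 : (0 : ℝ) ≤ ((N / M : ℕ) : ℝ) := Nat.cast_nonneg _
            have h4 : (0 : ℝ) ≤ ((N / M : ℕ) : ℝ) * K := mul_nonneg h3 hKr
            have h5 : D + ((N / M : ℕ) : ℝ) * K ≤ D + 2 * ((N / M : ℕ) : ℝ) * K := by linarith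
            gcongr)
      simp only [one_mul] at h1
      refine h1.trans ?_
      refine mul_le_mul_of_nonneg_left ?_ (Nat.cast_nonneg _)
      have hSN : ((N / M : ℕ) : ℝ) ≤ Real.sqrt N := by
        apply Real.le_sqrt_of_sq_le
        have h3 : (N / M) ≤ M := by
          rw [Nat.div_le_iff_le_mul_add_pred hM0]
          omega
        have h4 : (N / M) * (N / M) ≤ N :=
          (Nat.mul_le_mul_right (N / M) h3).trans (Nat.mul_div_le N M)
        rw [pow_two]
        exact_mod_cast h4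
      have h2 := real_block (D := D) (S := ((N / M : ℕ) : ℝ)) (L := M) (N := N) (K := K) (U := U)
        hD (Nat.cast_nonneg _) hMr.le hKr hUr hNr (by rw [mul_comm]; exact hMK) hSN hMN
      have e1 : Real.sqrt (B * (D + 2 * ((N / M : ℕ) : ℝ) * K) *
          (τ * (K * (β ^ 2 * ((N / M : ℕ) : ℝ))))) =
          Real.sqrt B * (Real.sqrt τ * (β * Real.sqrt ((D + 2 * ((N / M : ℕ) : ℝ) * K) *
            (K * ((N / M : ℕ) : ℝ))))) := by
        rw [show B * (D + 2 * ((N / M : ℕ) : ℝ) * K) * (τ * (K * (β ^ 2 * ((N / M : ℕ) : ℝ)))) =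
          B * (τ * (β ^ 2 * ((D + 2 * ((N / M : ℕ) : ℝ) * K) * (K * ((N / M : ℕ) : ℝ))))) by ring,
          Real.sqrt_mul hB0, Real.sqrt_mul hτ0, Real.sqrt_mul (sq_nonneg β), Real.sqrt_sq hβ]
      have e2 : Real.sqrt (B * (D + M) * (α ^ 2 * M)) =
          Real.sqrt B * (α * Real.sqrt ((D + M) * M)) := by
        rw [show B * (D + (M : ℝ)) * (α ^ 2 * M) = B * (α ^ 2 * ((D + M) * M)) by ring,
          Real.sqrt_mul hB0, Real.sqrt_mul (sq_nonneg α), Real.sqrt_sq hα]
      rw [e1, e2]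
      have e3 : Real.sqrt B * (α * Real.sqrt ((D + M) * M)) *
          (Real.sqrt B * (Real.sqrt τ * (β * Real.sqrt ((D + 2 * ((N / M : ℕ) : ℝ) * K) *
            (K * ((N / M : ℕ) : ℝ)))))) =
          (Real.sqrt B * Real.sqrt B) * (Real.sqrt τ * (α * β *
            (Real.sqrt ((D + 2 * ((N / M : ℕ) : ℝ) * K) * (K * ((N / M : ℕ) : ℝ))) *
              Real.sqrt ((D + M) * M)))) := by ring
      rw [e3, Real.mul_self_sqrt hB0]
      gcongr
  calc ∑ i, ‖∑ k ∈ Ioc u v, f i k‖ *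
        ‖∑ m ∈ Ioc U W, a m * f i m * ∑ k ∈ Ioc 0 (y / m), b k * f i k‖
      = ∑ i, ‖∑ k ∈ Ioc u v, f i k‖ * ‖∑ j ∈ range J, S j i‖ := by simp_rw [hdec]
    _ ≤ ∑ i, ∑ j ∈ range J, ‖∑ k ∈ Ioc u v, f i k‖ * ‖S j i‖ := by
        refine Finset.sum_le_sum fun i _ => ?_
        rw [← Finset.mul_sum]
        exact mul_le_mul_of_nonneg_left (norm_sum_le _ _) (norm_nonneg _)
    _ = ∑ j ∈ range J, ∑ i, ‖∑ k ∈ Ioc u v, f i k‖ * ‖S j i‖ := Finset.sum_comm
    _ ≤ ∑ j ∈ range J, lev N * (B * (Real.sqrt τ * (α * β * EE D N K U))) :=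
        Finset.sum_le_sum hblock
    _ = _ := by rw [Finset.sum_const, Finset.card_range, nsmul_eq_mul]

end Pool.Agent.M848.SV.TriAux
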